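import Pool.Agent.W66.LS

set_option autoImplicit false

/-!
# Concrete spaces: `p`-adic integers and sequences of digits
-/

open Filter Topology Finset MeasureTheory
open scoped Real

namespace Pool.Agent.W66L

open Pool.Agent.W66
open Pool.Agent.H305R2 (roughPart)

/-- `s n` is the residue modulo `b ^ n` of a random `b`-adic integer -/
structure Full {Ω : Type*} [MeasurableSpace Ω] (b : ℕ) (μ : Measure Ω) (s : ℕ → Ω → ℕ) : Prop where
  meas : ∀ n, Measurable (s n)
  compat : ∀ n x, s (n + 1) x % b ^ n = s n x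
  unif : ∀ n a, a < b ^ n → μ.real {x | s n x = a} = μ.real Set.univ / (b : ℝ) ^ n

section

variable {Ω : Type*} [MeasurableSpace Ω] {μ : Measure Ω} [IsFiniteMeasure μ] {b : ℕ}
  {s : ℕ → Ω → ℕ}

lemma Full.lt (hs : Full b μ s) (hb : 2 ≤ b) (n : ℕ) (x : Ω) : s n x < b ^ n := by
  rw [← hs.compat n x]
  exact Nat.mod_lt _ (by positivity)

lemma Full.mod_b (hs : Full b μ s) (hb : 2 ≤ b) (x : Ω) {n : ℕ} (hn : 1 ≤ n) :
    s n x % b = s 1 x := by
  induction n, hn using Nat.le_induction with
  | base => exact Nat.mod_eq_of_lt (by simpa using hs.lt hb 1 x)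
  | succ n hn ih =>
    rw [← ih, ← hs.compat n x, Nat.mod_mod_of_dvd _ (dvd_pow_self b (by omega))]

/-- the law conditionally on the first digit being prime to `b` -/
theorem law_all (hb : 2 ≤ b) (hs : Full b μ s) : ∀ᵐ x ∂μ, (s 1 x).Coprime b →
    Tendsto (fun n : ℕ => (cntR (fun p => s p x) n : ℝ) / Real.log n) atTop
      (𝓝 (Real.exp Real.eulerMascheroniConstant / Real.log b)) := by
  classical
  rcases eq_or_ne (μ Set.univ) 0 with h0 | h0
  · rw [Measure.measure_univ_eq_zero] at h0
    rw [h0]
    simp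
  have hc : 0 < μ.real Set.univ := by
    rw [measureReal_def]
    exact ENNReal.toReal_pos h0 (measure_ne_top _ _)
  set A : Set Ω := {x | (s 1 x).Coprime b} with hA
  have hAm : MeasurableSet A := (hs.meas 1) (MeasurableSet.of_discrete (s := {m : ℕ | m.Coprime b}))
  have hb0 : (0 : ℝ) < b := by exact_mod_cast (by omega : 0 < b)
  have hφ : (0 : ℝ) < b.totient := by exact_mod_cast Nat.totient_pos.2 (by omega)
  have hAr : μ.real A = μ.real Set.univ * (b.totient : ℝ) / b := by
    have e : A = ⋃ a ∈ (UU b 1), {x | s 1 x = a} := by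
      ext x
      simp only [hA, Set.mem_setOf_eq, Set.mem_iUnion, exists_prop]
      constructor
      · intro h
        exact ⟨s 1 x, mem_UU.2 ⟨hs.lt hb 1 x, h⟩, rfl⟩
      · rintro ⟨a, ha, h⟩
        rw [h]
        exact (mem_UU.1 ha).2
    rw [e, measureReal_biUnion_finset]
    · have h1 : ∀ a ∈ UU b 1, μ.real {x | s 1 x = a} = μ.real Set.univ / (b : ℝ) ^ 1 := by
        intro a ha
        exact hs.unif 1 a (mem_UU.1 ha).1
      rw [Finset.sum_congr rfl h1, Finset.sum_const, nsmul_eq_mul, card_UU hb le_rfl, pow_one, pow_one]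
      ring
    · intro a _ a' _ haa
      rw [Function.onFun, Set.disjoint_left]
      intro x hx hx'
      exact haa (hx.symm.trans hx')
    · intro a _
      exact (hs.meas 1) (measurableSet_singleton a)
  have hApos : 0 < μ.real A := by rw [hAr]; positivity
  have hA0 : μ A ≠ 0 := by
    intro h
    rw [measureReal_def, h] at hApos
    simp at hApos
  haveI : IsProbabilityMeasure (ProbabilityTheory.cond μ A) :=
    ProbabilityTheory.cond_isProbabilityMeasure hA0
  have hlow : Low b (ProbabilityTheory.cond μ A) s := by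
    refine ⟨hs.meas, hs.compat, fun n hn a ha hac => ?_⟩
    have hsub : {x | s n x = a} ⊆ A := by
      intro x hx
      simp only [hA, Set.mem_setOf_eq]
      rw [← hs.mod_b hb x hn, Set.mem_setOf_eq.mp hx]
      rw [Nat.Coprime, (Nat.mod_modEq a b).gcd_eq]
      exact hac
    have h1 : (ProbabilityTheory.cond μ A).real {x | s n x = a} =
        (μ.real A)⁻¹ * μ.real {x | s n x = a} := by
      rw [measureReal_def, ProbabilityTheory.cond_apply hAm, Set.inter_eq_self_of_subset_right hsub,
        ENNReal.toReal_mul, ENNReal.toReal_inv]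
      rfl
    rw [h1, hs.unif n a ha, hAr, tot_pow hb hn]
    field_simp
  have h := law_low hb hlow
  have h2 : ∀ᵐ x ∂(μ.restrict A),
      Tendsto (fun n : ℕ => (cntR (fun p => s p x) n : ℝ) / Real.log n) atTop
      (𝓝 (Real.exp Real.eulerMascheroniConstant / Real.log b)) := by
    unfold ProbabilityTheory.cond at h
    rwa [Measure.ae_ennreal_smul_measure_iff] at h
    exact ENNReal.inv_ne_zero.2 (measure_ne_top _ _)
  rwa [ae_restrict_iff' hAm] at h2

end

/-! ### the `p`-adic integers -/

section padic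

variable (q : ℕ) [Fact q.Prime]

/-- the residue of a `q`-adic integer modulo `q ^ n` -/
noncomputable def res (n : ℕ) (α : ℤ_[q]) : ℕ := (PadicInt.toZModPow n α).val

lemma res_compat (n : ℕ) (α : ℤ_[q]) : res q (n + 1) α % q ^ n = res q n α := by
  unfold res
  have h := PadicInt.cast_toZModPow (p := q) n (n + 1) (Nat.le_succ n) α
  rw [← h, ZMod.cast_eq_val, ZMod.val_natCast]

lemma res_iff (n : ℕ) (α : ℤ_[q]) (a : ℕ) (ha : a < q ^ n) :
    res q n α = a ↔ PadicInt.toZModPow n (α - (a : ℤ_[q])) = 0 := by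
  unfold res
  rw [map_sub, map_natCast, sub_eq_zero]
  haveI : NeZero (q ^ n) := ⟨by have := (Fact.out : q.Prime).pos; positivity⟩
  constructor
  · intro h
    rw [← h, ZMod.natCast_zmod_val]
  · intro h
    rw [h, ZMod.val_natCast, Nat.mod_eq_of_lt ha]

lemma continuous_toZModPow' (n : ℕ) : IsLocallyConstant (fun α : ℤ_[q] => PadicInt.toZModPow n α) := by
  rw [IsLocallyConstant.iff_eventually_eq]
  intro x
  have hq1 : (0 : ℝ) < (q : ℝ) ^ (-n : ℤ) := by
    have : (0 : ℝ) < q := by exact_mod_cast (Fact.out : q.Prime).pos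
    positivity
  have hball : Metric.closedBall x ((q : ℝ) ^ (-n : ℤ)) ∈ 𝓝 x := Metric.closedBall_mem_nhds x hq1
  filter_upwards [hball] with y hy
  rw [Metric.mem_closedBall, dist_eq_norm, PadicInt.norm_le_pow_iff_mem_span_pow,
    ← PadicInt.ker_toZModPow, RingHom.mem_ker, map_sub, sub_eq_zero] at hy
  exact hy

variable [MeasurableSpace ℤ_[q]] [BorelSpace ℤ_[q]]

lemma res_meas (n : ℕ) : Measurable (res q n) := by
  have h1 : IsLocallyConstant (res q n) := by
    have h := continuous_toZModPow' q n
    exact h.comp (fun z : ZMod (q ^ n) => z.val)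
  exact h1.continuous.measurable

theorem full_padic (μ : Measure ℤ_[q]) [IsFiniteMeasure μ] [μ.IsAddLeftInvariant] :
    Full q μ (fun n α => res q n α) := by
  refine ⟨res_meas q, res_compat q, fun n a ha => ?_⟩
  have hq0 : 0 < q := (Fact.out : q.Prime).pos
  have hqr : (0 : ℝ) < q := by exact_mod_cast hq0
  have key : ∀ a, a < q ^ n → μ.real {α | res q n α = a} = μ.real {α | res q n α = 0} := by
    intro a ha
    have e : {α : ℤ_[q] | res q n α = a} = (fun α => -(a : ℤ_[q]) + α) ⁻¹' {α | res q n α = 0} := by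
      ext α
      simp only [Set.mem_setOf_eq, Set.mem_preimage]
      rw [res_iff q n α a ha, res_iff q n _ 0 (by positivity)]
      have : -(a : ℤ_[q]) + α - ((0 : ℕ) : ℤ_[q]) = α - a := by push_cast; ring
      rw [this]
    rw [e, measureReal_def, measure_preimage_add, ← measureReal_def]
  have htot : μ.real Set.univ = ∑ a ∈ range (q ^ n), μ.real {α | res q n α = a} := by
    have e : (Set.univ : Set ℤ_[q]) = ⋃ a ∈ range (q ^ n), {α | res q n α = a} := by
      ext α
      simp only [Set.mem_univ, Set.mem_iUnion, exists_prop, true_iff]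
      refine ⟨res q n α, ?_, rfl⟩
      rw [mem_range]
      unfold res
      haveI : NeZero (q ^ n) := ⟨by positivity⟩
      exact ZMod.val_lt _
    rw [e, measureReal_biUnion_finset]
    · intro a _ a' _ haa
      rw [Function.onFun, Set.disjoint_left]
      intro x hx hx'
      exact haa (hx.symm.trans hx')
    · intro a _
      exact (res_meas q n) (measurableSet_singleton a)
  have h2 : μ.real Set.univ = (q : ℝ) ^ n * μ.real {α | res q n α = 0} := by
    rw [htot, Finset.sum_congr rfl fun a ha => key a (mem_range.1 ha), Finset.sum_const, card_range,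
      nsmul_eq_mul]
    push_cast
    ring
  rw [key a ha, h2]
  field_simp

end padic

/-! ### sequences of digits -/

section digits

variable (b : ℕ) [NeZero b]

/-- the integer with the low digits `d 0, …, d (n - 1)` -/
def dsum (n : ℕ) (d : ℕ → Fin b) : ℕ := ∑ i ∈ range n, (d i : ℕ) * b ^ i

omit [NeZero b] in
lemma dsum_succ (n : ℕ) (d : ℕ → Fin b) : dsum b (n + 1) d = dsum b n d + (d n : ℕ) * b ^ n := by
  unfold dsum
  rw [Finset.sum_range_succ]

omit [NeZero b] in
lemma dsum_lt (n : ℕ) (d : ℕ → Fin b) : dsum b n d < b ^ n := by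
  induction n with
  | zero => unfold dsum; simp
  | succ n ih =>
    rw [dsum_succ, pow_succ]
    have h1 : (d n : ℕ) + 1 ≤ b := (d n).isLt
    calc dsum b n d + (d n : ℕ) * b ^ n < b ^ n + (d n : ℕ) * b ^ n := by omega
      _ = ((d n : ℕ) + 1) * b ^ n := by ring
      _ ≤ b * b ^ n := Nat.mul_le_mul_right _ h1
      _ = b ^ n * b := by ring

omit [NeZero b] in
lemma dsum_compat (n : ℕ) (d : ℕ → Fin b) : dsum b (n + 1) d % b ^ n = dsum b n d := by
  rw [dsum_succ, Nat.add_mul_mod_self_right, Nat.mod_eq_of_lt (dsum_lt b n d)]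

omit [NeZero b] in
lemma dsum_inj (n : ℕ) (d e : ℕ → Fin b) (h : dsum b n d = dsum b n e) : ∀ i < n, d i = e i := by
  induction n with
  | zero => intro i hi; omega
  | succ n ih =>
    have h1 : dsum b n d = dsum b n e := by
      rw [← dsum_compat b n d, ← dsum_compat b n e, h]
    have h2 : (d n : ℕ) * b ^ n = (e n : ℕ) * b ^ n := by
      rw [dsum_succ, dsum_succ, h1] at h
      omega
    have hb : 0 < b ^ n := by
      have : 0 < b := lt_of_le_of_lt (Nat.zero_le _) (d n).isLt
      positivity
    have h3 : d n = e n := Fin.ext (Nat.eq_of_mul_eq_mul_right hb h2)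
    intro i hi
    rcases Nat.lt_succ_iff_lt_or_eq.1 hi with h4 | h4
    · exact ih h1 i h4
    · rw [h4]; exact h3

lemma dsum_surj (n a : ℕ) (ha : a < b ^ n) : ∃ d : ℕ → Fin b, dsum b n d = a := by
  have hb : 0 < b := Nat.pos_of_ne_zero (NeZero.ne b)
  refine ⟨fun i => ⟨a / b ^ i % b, Nat.mod_lt _ hb⟩, ?_⟩
  have key : ∀ n : ℕ, dsum b n (fun i => ⟨a / b ^ i % b, Nat.mod_lt _ hb⟩) = a % b ^ n := by
    intro n
    induction n with
    | zero => unfold dsum; simp [Nat.mod_one]
    | succ n ih =>
      rw [dsum_succ, ih]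
      simp only
      rw [pow_succ, Nat.mod_mul]
      ring
  rw [key n, Nat.mod_eq_of_lt ha]

lemma dsum_meas (n : ℕ) : Measurable (dsum b n) := by
  unfold dsum
  apply Finset.measurable_sum
  intro i _
  have h1 : Measurable (fun d : ℕ → Fin b => d i) := measurable_pi_apply i
  exact ((Measurable.of_discrete (f := fun x : Fin b => (x : ℕ) * b ^ i))).comp h1

/-- independent uniform digits -/
noncomputable def digitMeasure : Measure (ℕ → Fin b) :=
  Measure.infinitePi (fun _ : ℕ => ProbabilityTheory.uniformOn (Set.univ : Set (Fin b)))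

instance : IsProbabilityMeasure (ProbabilityTheory.uniformOn (Set.univ : Set (Fin b))) :=
  ProbabilityTheory.isProbabilityMeasure_uniformOn Set.finite_univ Set.univ_nonempty

instance : IsProbabilityMeasure (digitMeasure b) := by
  unfold digitMeasure; infer_instance

theorem full_digits : Full b (digitMeasure b) (dsum b) := by
  refine ⟨dsum_meas b, dsum_compat b, fun n a ha => ?_⟩
  obtain ⟨e, he⟩ := dsum_surj b n a ha
  have hset : {d : ℕ → Fin b | dsum b n d = a} = Set.pi (range n : Set ℕ) (fun i => {e i}) := by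
    ext d
    simp only [Set.mem_setOf_eq, Set.mem_pi, Finset.coe_range, Set.mem_Iio, Set.mem_singleton_iff]
    constructor
    · intro h i hi
      exact dsum_inj b n d e (h.trans he.symm) i hi
    · intro h
      rw [← he]
      unfold dsum
      exact Finset.sum_congr rfl fun i hi => by rw [h i (mem_range.1 hi)]
  rw [hset, measureReal_def, probReal_univ]
  unfold digitMeasure
  rw [Measure.infinitePi_pi (fun _ : ℕ => ProbabilityTheory.uniformOn (Set.univ : Set (Fin b)))
    (fun i _ => MeasurableSet.of_discrete)]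
  have h1 : ∀ i ∈ range n, (ProbabilityTheory.uniformOn (Set.univ : Set (Fin b))) {e i} =
      (b : ENNReal)⁻¹ := by
    intro i _
    rw [ProbabilityTheory.uniformOn_univ, Measure.count_singleton, Fintype.card_fin, one_div]
  rw [Finset.prod_congr rfl h1, Finset.prod_const, card_range, ENNReal.toReal_pow, ENNReal.toReal_inv]
  simp

end digits

end Pool.Agent.W66L
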