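import Mathlib

set_option autoImplicit false

/-!
# First and second derivative tests for oscillatory integrals
-/

namespace Pool.Agent.W66V

open Set MeasureTheory Filter Topology intervalIntegral

/-- first derivative test -/
lemma vdc1 {θ θ' θ'' : ℝ → ℝ} {a b m : ℝ} (hab : a ≤ b)
    (h1 : ∀ x ∈ Icc a b, HasDerivAt θ (θ' x) x) (h2 : ∀ x ∈ Icc a b, HasDerivAt θ' (θ'' x) x)
    (hc : ContinuousOn θ'' (Icc a b)) (hpos : ∀ x ∈ Icc a b, 0 ≤ θ'' x) (hm : 0 < m)
    (hθ : (∀ x ∈ Icc a b, m ≤ θ' x) ∨ (∀ x ∈ Icc a b, θ' x ≤ -m)) :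
    |∫ x in a..b, Real.cos (θ x)| ≤ 3 / m := by
  have hne : ∀ x ∈ Icc a b, θ' x ≠ 0 := by
    intro x hx
    rcases hθ with h | h
    · have := h x hx; linarith
    · have := h x hx; linarith
  have habs : ∀ x ∈ Icc a b, m ≤ |θ' x| := by
    intro x hx
    rcases hθ with h | h
    · exact (h x hx).trans (le_abs_self _)
    · have := h x hx
      have := neg_le_abs (θ' x)
      linarith
  have hcθ : ContinuousOn θ (Icc a b) := fun x hx => (h1 x hx).continuousAt.continuousWithinAt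
  have hcθ' : ContinuousOn θ' (Icc a b) := fun x hx => (h2 x hx).continuousAt.continuousWithinAt
  have huIcc : uIcc a b = Icc a b := uIcc_of_le hab
  -- integration by parts with u = 1/θ', v = sin θ
  have hu : ∀ x ∈ uIcc a b, HasDerivAt (fun x => (θ' x)⁻¹) (-(θ'' x) / (θ' x) ^ 2) x := by
    intro x hx
    rw [huIcc] at hx
    exact (h2 x hx).inv (hne x hx)
  have hv : ∀ x ∈ uIcc a b, HasDerivAt (fun x => Real.sin (θ x)) (Real.cos (θ x) * θ' x) x := by
    intro x hx
    rw [huIcc] at hx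
    exact (h1 x hx).sin
  have hcu' : ContinuousOn (fun x => -(θ'' x) / (θ' x) ^ 2) (Icc a b) :=
    (hc.neg).div (hcθ'.pow 2) fun x hx => pow_ne_zero 2 (hne x hx)
  have hcv' : ContinuousOn (fun x => Real.cos (θ x) * θ' x) (Icc a b) :=
    (Real.continuous_cos.comp_continuousOn hcθ).mul hcθ'
  have hiu : IntervalIntegrable (fun x => -(θ'' x) / (θ' x) ^ 2) volume a b := by
    apply ContinuousOn.intervalIntegrable; rw [huIcc]; exact hcu'
  have hiv : IntervalIntegrable (fun x => Real.cos (θ x) * θ' x) volume a b := by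
    apply ContinuousOn.intervalIntegrable; rw [huIcc]; exact hcv'
  have hibp := integral_mul_deriv_eq_deriv_mul hu hv hiu hiv
  have e1 : ∫ x in a..b, Real.cos (θ x) = ∫ x in a..b, (θ' x)⁻¹ * (Real.cos (θ x) * θ' x) := by
    refine integral_congr fun x hx => ?_
    rw [huIcc] at hx
    have := hne x hx
    field_simp
  rw [e1, hibp]
  have haI : a ∈ Icc a b := ⟨le_rfl, hab⟩
  have hbI : b ∈ Icc a b := ⟨hab, le_rfl⟩
  have hend : ∀ x ∈ Icc a b, |(θ' x)⁻¹ * Real.sin (θ x)| ≤ 1 / m := by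
    intro x hx
    rw [abs_mul, abs_inv, one_div]
    have h3 := Real.abs_sin_le_one (θ x)
    have h4 : |θ' x|⁻¹ ≤ m⁻¹ := inv_anti₀ hm (habs x hx)
    have h5 : 0 ≤ |θ' x|⁻¹ := by positivity
    calc |θ' x|⁻¹ * |Real.sin (θ x)| ≤ |θ' x|⁻¹ * 1 := mul_le_mul_of_nonneg_left h3 h5
      _ ≤ m⁻¹ := by rw [mul_one]; exact h4
  have hint : |∫ x in a..b, -(θ'' x) / (θ' x) ^ 2 * Real.sin (θ x)| ≤ 1 / m := by
    have h6 : |∫ x in a..b, -(θ'' x) / (θ' x) ^ 2 * Real.sin (θ x)| ≤
        ∫ x in a..b, -(-(θ'' x) / (θ' x) ^ 2) := by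
      refine (abs_integral_le_integral_abs hab).trans ?_
      refine integral_mono_on hab ?_ hiu.neg fun x hx => ?_
      · apply ContinuousOn.intervalIntegrable
        rw [huIcc]
        exact (hcu'.mul (Real.continuous_sin.comp_continuousOn hcθ)).abs
      · have h7 := hpos x hx
        have h8 := Real.abs_sin_le_one (θ x)
        have h9 : 0 < (θ' x) ^ 2 := by have := hne x hx; positivity
        rw [abs_mul]
        have h10 : |(-(θ'' x) / (θ' x) ^ 2)| = -(-(θ'' x) / (θ' x) ^ 2) := by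
          rw [abs_of_nonpos]
          exact div_nonpos_of_nonpos_of_nonneg (by linarith) h9.le
        rw [h10]
        have h11 : 0 ≤ -(-(θ'' x) / (θ' x) ^ 2) := by rw [← h10]; exact abs_nonneg _
        nlinarith
    refine h6.trans ?_
    rw [intervalIntegral.integral_neg]
    have h7 : ∫ x in a..b, -(θ'' x) / (θ' x) ^ 2 = (θ' b)⁻¹ - (θ' a)⁻¹ :=
      integral_eq_sub_of_hasDerivAt hu hiu
    rw [h7]
    rcases hθ with h | h
    · have ha := h a haI
      have hb := h b hbI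
      have h8 : 0 < (θ' b)⁻¹ := inv_pos.2 (by linarith)
      have h9 : (θ' a)⁻¹ ≤ 1 / m := by rw [one_div]; exact inv_anti₀ hm ha
      linarith
    · have ha := h a haI
      have hb := h b hbI
      have h8 : (θ' a)⁻¹ < 0 := inv_lt_zero.2 (by linarith)
      have h9 : -(θ' b)⁻¹ ≤ 1 / m := by
        rw [one_div, ← inv_neg]; exact inv_anti₀ hm (by linarith)
      linarith
  have h3 := hend a haI
  have h4 := hend b hbI
  rw [abs_le] at h3 h4 hint ⊢
  have e3 : 3 / m = 1 / m + 1 / m + 1 / m := by ring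
  constructor <;> linarith

/-- second derivative test -/
lemma vdc2 {θ θ' θ'' : ℝ → ℝ} {a b ρ : ℝ} (hab : a ≤ b)
    (h1 : ∀ x ∈ Icc a b, HasDerivAt θ (θ' x) x) (h2 : ∀ x ∈ Icc a b, HasDerivAt θ' (θ'' x) x)
    (hc : ContinuousOn θ'' (Icc a b)) (hρ : 0 < ρ) (hpos : ∀ x ∈ Icc a b, ρ ≤ θ'' x) :
    |∫ x in a..b, Real.cos (θ x)| ≤ 8 / Real.sqrt ρ := by
  have hcθ : ContinuousOn θ (Icc a b) := fun x hx => (h1 x hx).continuousAt.continuousWithinAt
  have hcθ' : ContinuousOn θ' (Icc a b) := fun x hx => (h2 x hx).continuousAt.continuousWithinAt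
  -- monotonicity of the derivative
  have hmono : ∀ x y, a ≤ x → x ≤ y → y ≤ b → ρ * (y - x) ≤ θ' y - θ' x := by
    intro x y hx hxy hy
    rcases hxy.eq_or_lt with h | h
    · rw [h]; simp
    · obtain ⟨c, hc1, hc2⟩ := exists_hasDerivAt_eq_slope θ' θ'' h
        (hcθ'.mono (Icc_subset_Icc hx hy)) (fun z hz => h2 z ⟨hx.trans hz.1.le, hz.2.le.trans hy⟩)
      have h3 := hpos c ⟨hx.trans hc1.1.le, hc1.2.le.trans hy⟩
      rw [hc2, le_div_iff₀ (by linarith)] at h3
      exact h3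
  -- the turning point
  obtain ⟨s, hs, hs1, hs2⟩ : ∃ s ∈ Icc a b, (∀ x ∈ Icc a b, s < x → ρ * (x - s) ≤ θ' x) ∧
      (∀ x ∈ Icc a b, x < s → θ' x ≤ -(ρ * (s - x))) := by
    have haI : a ∈ Icc a b := ⟨le_rfl, hab⟩
    have hbI : b ∈ Icc a b := ⟨hab, le_rfl⟩
    rcases le_total 0 (θ' a) with ha | ha
    · refine ⟨a, haI, fun x hx _ => ?_, fun x hx hxa => ?_⟩
      · have := hmono a x le_rfl hx.1 hx.2; linarith
      · exact absurd hxa (not_lt.2 hx.1)
    · rcases le_total (θ' b) 0 with hb | hb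
      · refine ⟨b, hbI, fun x hx hxb => ?_, fun x hx _ => ?_⟩
        · exact absurd hxb (not_lt.2 hx.2)
        · have := hmono x b hx.1 hx.2 le_rfl; linarith
      · obtain ⟨s, hs, hs0⟩ := intermediate_value_Icc hab hcθ' ⟨ha, hb⟩
        refine ⟨s, hs, fun x hx hsx => ?_, fun x hx hxs => ?_⟩
        · have := hmono s x hs.1 hsx.le hx.2; linarith
        · have := hmono x s hx.1 hxs.le hs.2; linarith
  set r := Real.sqrt ρ with hr
  have hr0 : 0 < r := Real.sqrt_pos.2 hρ
  have hrr : r * r = ρ := Real.mul_self_sqrt hρ.le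
  set δ := 1 / r with hδ
  have hδ0 : 0 < δ := by positivity
  have hρδ : ρ * δ = r := by rw [hδ, ← hrr]; field_simp
  set u := max a (s - δ) with hu
  set v := min b (s + δ) with hv
  have hau : a ≤ u := le_max_left _ _
  have hus : u ≤ s := max_le hs.1 (by linarith)
  have hsv : s ≤ v := le_min hs.2 (by linarith)
  have hvb : v ≤ b := min_le_left _ _
  have hcos : ContinuousOn (fun x => Real.cos (θ x)) (Icc a b) := Real.continuous_cos.comp_continuousOn hcθ
  have hii : ∀ c d : ℝ, a ≤ c → c ≤ d → d ≤ b → IntervalIntegrable (fun x => Real.cos (θ x)) volume c d := by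
    intro c d hc1 hcd hd
    apply ContinuousOn.intervalIntegrable
    rw [uIcc_of_le hcd]
    exact hcos.mono (Icc_subset_Icc hc1 hd)
  have hmid : |∫ x in u..v, Real.cos (θ x)| ≤ 2 * δ := by
    have h3 : ∀ x ∈ Set.uIoc u v, ‖Real.cos (θ x)‖ ≤ 1 := fun x _ => Real.abs_cos_le_one _
    have h4 := norm_integral_le_of_norm_le_const h3
    rw [Real.norm_eq_abs, abs_of_nonneg (by linarith : 0 ≤ v - u)] at h4
    have h5 : v ≤ s + δ := min_le_right _ _
    have h6 : s - δ ≤ u := le_max_right _ _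
    linarith
  have hleft : |∫ x in a..u, Real.cos (θ x)| ≤ 3 / r := by
    rcases le_total (s - δ) a with h | h
    · have : u = a := max_eq_left h
      rw [this, integral_same, abs_zero]; positivity
    · have hu' : u = s - δ := max_eq_right h
      rw [← hρδ]
      refine vdc1 hau (fun x hx => h1 x ⟨hx.1, hx.2.trans (hus.trans hs.2)⟩)
        (fun x hx => h2 x ⟨hx.1, hx.2.trans (hus.trans hs.2)⟩)
        (hc.mono (Icc_subset_Icc le_rfl (hus.trans hs.2)))
        (fun x hx => hρ.le.trans (hpos x ⟨hx.1, hx.2.trans (hus.trans hs.2)⟩))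
        (by positivity) (Or.inr fun x hx => ?_)
      have h3 : x ≤ s - δ := hu' ▸ hx.2
      have h4 := hs2 x ⟨hx.1, hx.2.trans (hus.trans hs.2)⟩ (by linarith)
      have h5 : ρ * δ ≤ ρ * (s - x) := mul_le_mul_of_nonneg_left (by linarith) hρ.le
      linarith
  have hright : |∫ x in v..b, Real.cos (θ x)| ≤ 3 / r := by
    rcases le_total b (s + δ) with h | h
    · have : v = b := min_eq_left h
      rw [this, integral_same, abs_zero]; positivity
    · have hv' : v = s + δ := min_eq_right h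
      rw [← hρδ]
      refine vdc1 hvb (fun x hx => h1 x ⟨(hs.1.trans hsv).trans hx.1, hx.2⟩)
        (fun x hx => h2 x ⟨(hs.1.trans hsv).trans hx.1, hx.2⟩)
        (hc.mono (Icc_subset_Icc (hs.1.trans hsv) le_rfl))
        (fun x hx => hρ.le.trans (hpos x ⟨(hs.1.trans hsv).trans hx.1, hx.2⟩))
        (by positivity) (Or.inl fun x hx => ?_)
      have h3 : s + δ ≤ x := hv' ▸ hx.1
      have h4 := hs1 x ⟨(hs.1.trans hsv).trans hx.1, hx.2⟩ (by linarith)
      have h5 : ρ * δ ≤ ρ * (x - s) := mul_le_mul_of_nonneg_left (by linarith) hρ.le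
      linarith
  have hsplit : ∫ x in a..b, Real.cos (θ x) = (∫ x in a..u, Real.cos (θ x)) +
      (∫ x in u..v, Real.cos (θ x)) + ∫ x in v..b, Real.cos (θ x) := by
    rw [integral_add_adjacent_intervals (hii a u le_rfl hau (hus.trans hs.2))
      (hii u v hau (hus.trans hsv) hvb),
      integral_add_adjacent_intervals (hii a v le_rfl (hs.1.trans hsv) hvb) (hii v b (hs.1.trans hsv) hvb le_rfl)]
  rw [hsplit]
  rw [abs_le] at hmid hleft hright ⊢
  have e8 : 8 / r = 2 * δ + 3 / r + 3 / r := by rw [hδ]; ring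
  constructor <;> linarith

/-- a decreasing weight -/
lemma weight_le {F : ℝ → ℝ} {a b B : ℝ} (ha : 0 < a) (hab : a ≤ b) (hF : ContinuousOn F (Icc a b))
    (hB : ∀ s ∈ Icc a b, |∫ x in a..s, F x| ≤ B) : |∫ x in a..b, F x / x| ≤ B / a := by
  have huIcc : uIcc a b = Icc a b := uIcc_of_le hab
  have hpos : ∀ x ∈ Icc a b, 0 < x := fun x hx => ha.trans_le hx.1
  have hFi : IntervalIntegrable F volume a b := by
    apply ContinuousOn.intervalIntegrable; rw [huIcc]; exact hF
  set G : ℝ → ℝ := fun s => ∫ x in a..s, F x with hG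
  have hGc : ContinuousOn G (Icc a b) := by
    have := continuousOn_primitive_interval (μ := volume) (f := F) (a := a) (b := b)
      (by rw [huIcc]; exact hF.integrableOn_Icc)
    rwa [huIcc] at this
  have hGd : ∀ x ∈ Ioo a b, HasDerivAt G (F x) x := by
    intro x hx
    have hxI : x ∈ Icc a b := ⟨hx.1.le, hx.2.le⟩
    refine integral_hasDerivAt_right ?_ ?_ ?_
    · apply ContinuousOn.intervalIntegrable
      rw [uIcc_of_le hx.1.le]
      exact hF.mono (Icc_subset_Icc le_rfl hx.2.le)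
    · exact ContinuousOn.stronglyMeasurableAtFilter isOpen_Ioo (hF.mono Ioo_subset_Icc_self) x hx
    · exact (hF.mono Ioo_subset_Icc_self).continuousAt (Ioo_mem_nhds hx.1 hx.2)
  have hu : ContinuousOn (fun x : ℝ => x⁻¹) (Icc a b) :=
    continuousOn_inv₀.mono fun x hx => (hpos x hx).ne'
  have hud : ∀ x ∈ Ioo a b, HasDerivAt (fun x : ℝ => x⁻¹) (-(x ^ 2)⁻¹) x := by
    intro x hx
    exact hasDerivAt_inv (hpos x ⟨hx.1.le, hx.2.le⟩).ne'
  have hu' : ContinuousOn (fun x : ℝ => -(x ^ 2)⁻¹) (Icc a b) := by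
    refine ContinuousOn.neg (ContinuousOn.inv₀ (by fun_prop) fun x hx => ?_)
    have := hpos x hx
    positivity
  have hiu : IntervalIntegrable (fun x : ℝ => -(x ^ 2)⁻¹) volume a b := by
    apply ContinuousOn.intervalIntegrable; rw [huIcc]; exact hu'
  have hibp := integral_mul_deriv_eq_deriv_mul_of_hasDerivAt (u := fun x : ℝ => x⁻¹) (v := G)
    (u' := fun x : ℝ => -(x ^ 2)⁻¹) (v' := F) (a := a) (b := b)
    (by rw [huIcc]; exact hu) (by rw [huIcc]; exact hGc)
    (by rw [min_eq_left hab, max_eq_right hab]; exact hud)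
    (by rw [min_eq_left hab, max_eq_right hab]; exact hGd) hiu hFi
  have e1 : ∫ x in a..b, F x / x = ∫ x in a..b, x⁻¹ * F x := by
    refine integral_congr fun x _ => ?_
    rw [div_eq_mul_inv, mul_comm]
  rw [e1, hibp]
  have hGa : G a = 0 := by simp [hG]
  rw [hGa, mul_zero, sub_zero]
  have hbI : b ∈ Icc a b := ⟨hab, le_rfl⟩
  have hB0 : 0 ≤ B := (abs_nonneg _).trans (hB b hbI)
  have hb0 := hpos b hbI
  have h3 : |b⁻¹ * G b| ≤ B * b⁻¹ := by
    rw [abs_mul, abs_of_pos (inv_pos.2 hb0), mul_comm]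
    exact mul_le_mul_of_nonneg_right (hB b hbI) (by positivity)
  have h4 : |∫ x in a..b, -(x ^ 2)⁻¹ * G x| ≤ B * (a⁻¹ - b⁻¹) := by
    have h5 : |∫ x in a..b, -(x ^ 2)⁻¹ * G x| ≤ ∫ x in a..b, B * -(-(x ^ 2)⁻¹) := by
      refine (abs_integral_le_integral_abs hab).trans ?_
      refine integral_mono_on hab ?_ (hiu.neg.const_mul B) fun x hx => ?_
      · apply ContinuousOn.intervalIntegrable
        rw [huIcc]
        exact (hu'.mul hGc).abs
      · rw [abs_mul, abs_neg, abs_of_pos (by have := hpos x hx; positivity), neg_neg, mul_comm]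
        exact mul_le_mul_of_nonneg_right (hB x hx) (by have := hpos x hx; positivity)
    refine h5.trans (le_of_eq ?_)
    rw [intervalIntegral.integral_const_mul, intervalIntegral.integral_neg]
    have h6 : ∫ x in a..b, -(x ^ 2)⁻¹ = b⁻¹ - a⁻¹ := by
      refine integral_eq_sub_of_hasDeriv_right (f := fun x : ℝ => x⁻¹) ?_ ?_ hiu
      · rw [huIcc]; exact hu
      · rw [min_eq_left hab, max_eq_right hab]
        intro x hx
        exact (hud x hx).hasDerivWithinAt
    rw [h6]; ring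
  calc |b⁻¹ * G b - ∫ x in a..b, -(x ^ 2)⁻¹ * G x| ≤ |b⁻¹ * G b| + |∫ x in a..b, -(x ^ 2)⁻¹ * G x| :=
        abs_sub _ _
    _ ≤ B * b⁻¹ + B * (a⁻¹ - b⁻¹) := add_le_add h3 h4
    _ = B / a := by rw [div_eq_mul_inv]; ring

end Pool.Agent.W66V
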