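import Mathlib
import Pool.Agent.W66.VA

set_option autoImplicit false

/-!
# The oscillatory integrals
-/

namespace Pool.Agent.W66V

open Set MeasureTheory Filter Topology intervalIntegral

/-- linear phase -/
lemma osc1 {α γ X : ℝ} (hX : 0 < X) (hα : α ≠ 0) :
    |∫ x in X..(Real.exp 1 * X), Real.cos (α * x + γ) / x| ≤ 2 / |α| / X := by
  have hle : X ≤ Real.exp 1 * X := by
    have := Real.add_one_le_exp (1 : ℝ)
    nlinarith
  refine weight_le hX hle (by fun_prop) fun s hs => ?_
  have h1 : ∫ x in X..s, Real.cos (α * x + γ) = (Real.sin (α * s + γ) - Real.sin (α * X + γ)) / α := by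
    have h2 : ∀ x ∈ uIcc X s, HasDerivAt (fun x => Real.sin (α * x + γ) / α) (Real.cos (α * x + γ)) x := by
      intro x _
      have h3 : HasDerivAt (fun x : ℝ => α * x + γ) α x := by
        simpa using ((hasDerivAt_id x).const_mul α).add_const γ
      have h4 := (h3.sin).div_const α
      have e : Real.cos (α * x + γ) * α / α = Real.cos (α * x + γ) := by field_simp
      rwa [e] at h4
    rw [integral_eq_sub_of_hasDerivAt h2 (by apply Continuous.intervalIntegrable; fun_prop)]
    ring
  rw [h1, abs_div]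
  refine div_le_div_of_nonneg_right ?_ (abs_nonneg _)
  have h3 := Real.abs_sin_le_one (α * s + γ)
  have h4 := Real.abs_sin_le_one (α * X + γ)
  calc |Real.sin (α * s + γ) - Real.sin (α * X + γ)| ≤ |Real.sin (α * s + γ)| + |Real.sin (α * X + γ)| :=
        abs_sub _ _
    _ ≤ 2 := by linarith

/-- phase with a power, positive coefficient -/
lemma osc2_pos {lam α β γ X : ℝ} (hX : 1 ≤ X) (hl1 : 1 < lam) (hβ : 0 < β) :
    |∫ x in X..(Real.exp 1 * X), Real.cos (α * x + β * x ^ lam + γ) / x| ≤
      8 / Real.sqrt (β * (lam - 1) / (Real.exp 1 * X)) / X := by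
  have hX0 : 0 < X := by linarith
  have hE : 0 < Real.exp 1 := Real.exp_pos 1
  have hle : X ≤ Real.exp 1 * X := by
    have := Real.add_one_le_exp (1 : ℝ)
    nlinarith
  have hpos : ∀ x ∈ Icc X (Real.exp 1 * X), 0 < x := fun x hx => hX0.trans_le hx.1
  have hcont : ContinuousOn (fun x : ℝ => x ^ lam) (Icc X (Real.exp 1 * X)) := by
    intro x hx
    exact (Real.continuousAt_rpow_const x lam (Or.inl (hpos x hx).ne')).continuousWithinAt
  refine weight_le hX0 hle ?_ fun s hs => ?_
  · refine Real.continuous_cos.comp_continuousOn ?_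
    exact ((by fun_prop : Continuous fun x : ℝ => α * x).continuousOn.add (continuousOn_const.mul hcont)).add
      continuousOn_const
  · have hsub : Icc X s ⊆ Icc X (Real.exp 1 * X) := Icc_subset_Icc le_rfl hs.2
    have h1 : ∀ x ∈ Icc X s, HasDerivAt (fun x : ℝ => α * x + β * x ^ lam + γ)
        (α + β * (lam * x ^ (lam - 1))) x := by
      intro x hx
      have h3 := Real.hasDerivAt_rpow_const (x := x) (p := lam) (Or.inl (hpos x (hsub hx)).ne')
      have h4 : HasDerivAt (fun x : ℝ => α * x) α x := by simpa using (hasDerivAt_id x).const_mul α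
      exact (h4.add (h3.const_mul β)).add_const γ
    have h2 : ∀ x ∈ Icc X s, HasDerivAt (fun x : ℝ => α + β * (lam * x ^ (lam - 1)))
        (β * (lam * ((lam - 1) * x ^ (lam - 1 - 1)))) x := by
      intro x hx
      have h3 := Real.hasDerivAt_rpow_const (x := x) (p := lam - 1) (Or.inl (hpos x (hsub hx)).ne')
      exact ((h3.const_mul lam).const_mul β).const_add α
    refine vdc2 hs.1 h1 h2 ?_ (by have : 0 < lam - 1 := by linarith
                                  positivity) ?_
    · intro x hx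
      have h3 : ContinuousAt (fun x : ℝ => x ^ (lam - 1 - 1)) x :=
        Real.continuousAt_rpow_const x _ (Or.inl (hpos x (hsub hx)).ne')
      exact (((h3.const_mul _).const_mul _).const_mul _).continuousWithinAt
    · intro x hx
      have hx0 := hpos x (hsub hx)
      have hxle : x ≤ Real.exp 1 * X := (hsub hx).2
      have hx1 : 1 ≤ x := hX.trans hx.1
      have h3 : (Real.exp 1 * X)⁻¹ ≤ x ^ (lam - 1 - 1) := by
        calc (Real.exp 1 * X)⁻¹ ≤ x⁻¹ := inv_anti₀ hx0 hxle
          _ = x ^ (-1 : ℝ) := (Real.rpow_neg_one x).symm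
          _ ≤ x ^ (lam - 1 - 1) := Real.rpow_le_rpow_of_exponent_le hx1 (by linarith)
      have h4 : 0 < lam - 1 := by linarith
      calc β * (lam - 1) / (Real.exp 1 * X) = β * (1 * ((lam - 1) * (Real.exp 1 * X)⁻¹)) := by
            rw [div_eq_mul_inv]; ring
        _ ≤ β * (lam * ((lam - 1) * x ^ (lam - 1 - 1))) := by
            refine mul_le_mul_of_nonneg_left ?_ hβ.le
            refine mul_le_mul hl1.le (mul_le_mul_of_nonneg_left h3 h4.le) (by positivity) (by linarith)

/-- phase with a power -/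
lemma osc2 {lam α β γ X : ℝ} (hX : 1 ≤ X) (hl1 : 1 < lam) (hβ : β ≠ 0) :
    |∫ x in X..(Real.exp 1 * X), Real.cos (α * x + β * x ^ lam + γ) / x| ≤
      8 / Real.sqrt (|β| * (lam - 1) / (Real.exp 1 * X)) / X := by
  rcases lt_or_gt_of_ne hβ with h | h
  · have h1 := osc2_pos (α := -α) (β := -β) (γ := -γ) hX hl1 (by linarith)
    rw [abs_of_neg h]
    have e : ∀ x : ℝ, Real.cos (-α * x + -β * x ^ lam + -γ) = Real.cos (α * x + β * x ^ lam + γ) := by
      intro x
      rw [← Real.cos_neg]
      congr 1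
      ring
    simp only [e] at h1
    exact h1
  · rw [abs_of_pos h]
    exact osc2_pos hX hl1 h

/-- product of two cosines -/
lemma osc_prod {lam α β γ γ' X : ℝ} (hX : 1 ≤ X) (hl1 : 1 < lam) (hβ : β ≠ 0) :
    |∫ x in X..(Real.exp 1 * X), Real.cos (α * x + γ) * Real.cos (β * x ^ lam + γ') / x| ≤
      8 / Real.sqrt (|β| * (lam - 1) / (Real.exp 1 * X)) / X := by
  have hX0 : 0 < X := by linarith
  have hle : X ≤ Real.exp 1 * X := by
    have := Real.add_one_le_exp (1 : ℝ)
    nlinarith
  have hpos : ∀ x ∈ Icc X (Real.exp 1 * X), 0 < x := fun x hx => hX0.trans_le hx.1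
  have h1 := osc2 (α := α) (β := β) (γ := γ + γ') hX hl1 hβ
  have h2 := osc2 (α := α) (β := -β) (γ := γ - γ') hX hl1 (neg_ne_zero.2 hβ)
  rw [abs_neg] at h2
  have hci : ∀ a b c : ℝ, IntervalIntegrable (fun x : ℝ => Real.cos (a * x + b * x ^ lam + c) / x) volume
      X (Real.exp 1 * X) := by
    intro a b c
    apply ContinuousOn.intervalIntegrable
    rw [uIcc_of_le hle]
    intro x hx
    have hx0 := hpos x hx
    have h3 : ContinuousAt (fun x : ℝ => x ^ lam) x := Real.continuousAt_rpow_const x _ (Or.inl hx0.ne')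
    have h4 : ContinuousAt (fun x : ℝ => a * x + b * x ^ lam + c) x :=
      ((continuousAt_const.mul continuousAt_id).add (h3.const_mul b)).add continuousAt_const
    exact ((Real.continuous_cos.continuousAt.comp h4).div continuousAt_id hx0.ne').continuousWithinAt
  have e : ∫ x in X..(Real.exp 1 * X), Real.cos (α * x + γ) * Real.cos (β * x ^ lam + γ') / x =
      (1 / 2) * ((∫ x in X..(Real.exp 1 * X), Real.cos (α * x + β * x ^ lam + (γ + γ')) / x) +
        ∫ x in X..(Real.exp 1 * X), Real.cos (α * x + -β * x ^ lam + (γ - γ')) / x) := by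
    rw [← intervalIntegral.integral_add (hci _ _ _) (hci _ _ _), ← intervalIntegral.integral_const_mul]
    refine integral_congr fun x _ => ?_
    have h3 := Real.cos_add (α * x + γ) (β * x ^ lam + γ')
    have h4 := Real.cos_sub (α * x + γ) (β * x ^ lam + γ')
    have e1 : α * x + β * x ^ lam + (γ + γ') = α * x + γ + (β * x ^ lam + γ') := by ring
    have e2 : α * x + -β * x ^ lam + (γ - γ') = α * x + γ - (β * x ^ lam + γ') := by ring
    rw [e1, e2, h3, h4]
    ring
  rw [e, abs_mul, abs_of_pos (by norm_num : (0 : ℝ) < 1 / 2)]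
  have h5 := abs_add_le (∫ x in X..(Real.exp 1 * X), Real.cos (α * x + β * x ^ lam + (γ + γ')) / x)
    (∫ x in X..(Real.exp 1 * X), Real.cos (α * x + -β * x ^ lam + (γ - γ')) / x)
  linarith

/-- integral of a sum of a series of cosines -/
lemma tsum_int {a : ℕ → ℝ} (ha : ∀ k, 0 ≤ a k) (hs : Summable a) {u v M B : ℝ} (huv : u ≤ v)
    (g : ℕ → ℝ → ℝ) (hg : ∀ k, ContinuousOn (g k) (Icc u v)) (hM : ∀ k, ∀ x ∈ Icc u v, |g k x| ≤ M)
    (hB : ∀ k, a k ≠ 0 → |∫ x in u..v, g k x| ≤ B) :
    |∫ x in u..v, ∑' k, a k * g k x| ≤ (∑' k, a k) * B := by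
  have hsum : HasSum (fun k => ∫ x in u..v, a k * g k x) (∫ x in u..v, ∑' k, a k * g k x) := by
    refine intervalIntegral.hasSum_integral_of_dominated_convergence (fun k _ => a k * M) ?_ ?_ ?_ ?_ ?_
    · intro k
      rw [uIoc_of_le huv]
      exact ((continuousOn_const.mul (hg k)).mono Ioc_subset_Icc_self).aestronglyMeasurable measurableSet_Ioc
    · intro k
      refine Eventually.of_forall fun x hx => ?_
      rw [uIoc_of_le huv] at hx
      rw [Real.norm_eq_abs, abs_mul, abs_of_nonneg (ha k)]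
      exact mul_le_mul_of_nonneg_left (hM k x ⟨hx.1.le, hx.2⟩) (ha k)
    · exact Eventually.of_forall fun x _ => hs.mul_right M
    · exact intervalIntegrable_const
    · refine Eventually.of_forall fun x hx => ?_
      rw [uIoc_of_le huv] at hx
      refine Summable.hasSum ?_
      refine Summable.of_norm_bounded (hs.mul_right M) fun k => ?_
      rw [Real.norm_eq_abs, abs_mul, abs_of_nonneg (ha k)]
      exact mul_le_mul_of_nonneg_left (hM k x ⟨hx.1.le, hx.2⟩) (ha k)
  have hterm : ∀ k, ‖∫ x in u..v, a k * g k x‖ ≤ a k * B := by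
    intro k
    rw [intervalIntegral.integral_const_mul, Real.norm_eq_abs, abs_mul, abs_of_nonneg (ha k)]
    by_cases h : a k = 0
    · rw [h, zero_mul, zero_mul]
    · exact mul_le_mul_of_nonneg_left (hB k h) (ha k)
  rw [← hsum.tsum_eq]
  have h1 := norm_tsum_le_tsum_norm (f := fun k => ∫ x in u..v, a k * g k x)
    (Summable.of_nonneg_of_le (fun k => norm_nonneg _) hterm (hs.mul_right B))
  rw [Real.norm_eq_abs] at h1
  refine h1.trans ?_
  rw [← tsum_mul_right]
  exact Summable.tsum_le_tsum hterm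
    (Summable.of_nonneg_of_le (fun k => norm_nonneg _) hterm (hs.mul_right B)) (hs.mul_right B)

end Pool.Agent.W66V
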