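import Mathlib

set_option autoImplicit false

/-!
# The Fourier series of a periodic triangle function
-/

namespace Pool.Agent.W66V

open Set MeasureTheory Filter Topology
open scoped Real

/-- the triangle function -/
noncomputable def tr (v : ℝ) : ℝ := max (1 - |v|) 0

lemma tr_nonneg (v : ℝ) : 0 ≤ tr v := le_max_right _ _

lemma tr_zero_of {v : ℝ} (h : 1 ≤ |v|) : tr v = 0 := max_eq_right (by linarith)

lemma tr_of_nonneg {v : ℝ} (h0 : 0 ≤ v) (h1 : v ≤ 1) : tr v = 1 - v := by
  unfold tr; rw [abs_of_nonneg h0]; exact max_eq_left (by linarith)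

lemma tr_of_nonpos {v : ℝ} (h0 : v ≤ 0) (h1 : -1 ≤ v) : tr v = 1 + v := by
  unfold tr; rw [abs_of_nonpos h0]; rw [max_eq_left (by linarith)]; ring

/-- the second Bernoulli function -/
noncomputable def pb (y : ℝ) : ℝ := Int.fract y ^ 2 - Int.fract y + 1 / 6

lemma hasSum_pb (y : ℝ) : HasSum (fun n : ℕ => 1 / (n : ℝ) ^ 2 * Real.cos (2 * π * n * y)) (π ^ 2 * pb y) := by
  have h := hasSum_one_div_nat_pow_mul_cos one_ne_zero
    (x := Int.fract y) ⟨Int.fract_nonneg y, (Int.fract_lt_one y).le⟩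
  have e1 : (Polynomial.map (algebraMap ℚ ℝ) (Polynomial.bernoulli (2 * 1))).eval (Int.fract y) =
      Int.fract y ^ 2 - Int.fract y + 6⁻¹ := bernoulliFun_two (Int.fract y)
  rw [e1] at h
  have e2 : (-1 : ℝ) ^ (1 + 1) * (2 * π) ^ (2 * 1) / 2 / ((2 * 1).factorial : ℝ) *
      (Int.fract y ^ 2 - Int.fract y + 6⁻¹) = π ^ 2 * pb y := by
    have h2 : ((2 * 1).factorial : ℝ) = 2 := by norm_num [Nat.factorial]
    rw [h2]
    unfold pb
    ring
  rw [e2] at h
  have e3 : (fun n : ℕ => 1 / (n : ℝ) ^ 2 * Real.cos (2 * π * n * y)) =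
      fun n : ℕ => 1 / (n : ℝ) ^ (2 * 1) * Real.cos (2 * π * n * Int.fract y) := by
    funext n
    have h3 : 2 * π * n * y = 2 * π * n * Int.fract y + (((n : ℤ) * ⌊y⌋ : ℤ) : ℝ) * (2 * π) := by
      have := Int.floor_add_fract y
      push_cast
      rw [← this]
      simp only [Int.floor_intCast_add, Int.fract_intCast_add, Int.floor_fract, Int.fract_fract, add_zero]
      ring
    rw [h3, Real.cos_add_int_mul_two_pi, mul_one]
  rw [e3]
  exact h

/-- Fourier coefficients -/
noncomputable def ca (D k : ℕ) : ℝ := 4 * D / π ^ 2 * (Real.sin (π * k / D)) ^ 2 / (k : ℝ) ^ 2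

lemma ca_nonneg (D k : ℕ) : 0 ≤ ca D k := by unfold ca; positivity

lemma ca_zero (D : ℕ) : ca D 0 = 0 := by unfold ca; simp

/-- the Fourier series of twice the periodic triangle function -/
noncomputable def HD (D : ℕ) (x : ℝ) : ℝ :=
  2 / D + ∑' k : ℕ, ca D k * Real.cos (2 * π * k / D * x + -(π * k / D))

lemma hasSum_HD (D : ℕ) (x : ℝ) :
    HasSum (fun k : ℕ => ca D k * Real.cos (2 * π * k / D * x + -(π * k / D)))
      (-(D * (pb ((x - 1 / 2 + 1) / D) - 2 * pb ((x - 1 / 2) / D) + pb ((x - 1 / 2 - 1) / D)))) := by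
  have h1 := hasSum_pb ((x - 1 / 2 + 1) / D)
  have h2 := hasSum_pb ((x - 1 / 2) / D)
  have h3 := hasSum_pb ((x - 1 / 2 - 1) / D)
  have h4 := ((h1.sub (h2.mul_left 2)).add h3).mul_left (-(D / π ^ 2))
  have e : -(D / π ^ 2) * (π ^ 2 * pb ((x - 1 / 2 + 1) / D) - 2 * (π ^ 2 * pb ((x - 1 / 2) / D)) +
      π ^ 2 * pb ((x - 1 / 2 - 1) / D)) =
      -(D * (pb ((x - 1 / 2 + 1) / D) - 2 * pb ((x - 1 / 2) / D) + pb ((x - 1 / 2 - 1) / D))) := by
    have : π ≠ 0 := Real.pi_ne_zero
    field_simp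
  rw [e] at h4
  have e5 : (fun k : ℕ => ca D k * Real.cos (2 * π * k / D * x + -(π * k / D))) = fun k : ℕ =>
      -(D / π ^ 2) * (1 / (k : ℝ) ^ 2 * Real.cos (2 * π * k * ((x - 1 / 2 + 1) / D)) -
        2 * (1 / (k : ℝ) ^ 2 * Real.cos (2 * π * k * ((x - 1 / 2) / D))) +
        1 / (k : ℝ) ^ 2 * Real.cos (2 * π * k * ((x - 1 / 2 - 1) / D))) := by
    funext k
    have a1 : 2 * π * k * ((x - 1 / 2 + 1) / D) = 2 * π * k * ((x - 1 / 2) / D) + 2 * (π * k / D) := by ring
    have a2 : 2 * π * k * ((x - 1 / 2 - 1) / D) = 2 * π * k * ((x - 1 / 2) / D) - 2 * (π * k / D) := by ring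
    have a3 : 2 * π * k / D * x + -(π * k / D) = 2 * π * k * ((x - 1 / 2) / D) := by ring
    rw [a1, a2, a3, Real.cos_add, Real.cos_sub, Real.cos_two_mul, Real.cos_sq']
    unfold ca
    ring
  rw [e5]
  exact h4

lemma HD_eq (D : ℕ) (x : ℝ) : HD D x = 2 / D -
    D * (pb ((x - 1 / 2 + 1) / D) - 2 * pb ((x - 1 / 2) / D) + pb ((x - 1 / 2 - 1) / D)) := by
  unfold HD
  rw [(hasSum_HD D x).tsum_eq]
  ring

lemma summable_ca (D : ℕ) : Summable (ca D) := by
  have h := hasSum_HD D (1 / 2)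
  have e : (fun k : ℕ => ca D k * Real.cos (2 * π * k / D * (1 / 2) + -(π * k / D))) = ca D := by
    funext k
    have : 2 * π * k / D * (1 / 2) + -(π * k / D) = 0 := by ring
    rw [this, Real.cos_zero, mul_one]
  rw [e] at h
  exact h.summable

lemma pb_add_int (y : ℝ) (m : ℤ) : pb (y + m) = pb y := by unfold pb; rw [Int.fract_add_intCast]

lemma pb_of {y : ℝ} (h0 : 0 ≤ y) (h1 : y < 1) : pb y = y ^ 2 - y + 1 / 6 := by
  unfold pb
  rw [Int.fract_eq_self.2 ⟨h0, h1⟩]

/-- the second difference -/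
lemma second_diff {D : ℕ} (hD : 1 ≤ D) {r : ℝ} (h0 : 0 ≤ r) (h1 : r < D) :
    2 / D - D * (pb ((r + 1) / D) - 2 * pb (r / D) + pb ((r - 1) / D)) = 2 * tr r + 2 * tr (r - D) := by
  have hD1 : (1 : ℝ) ≤ D := by exact_mod_cast hD
  have hD0 : (0 : ℝ) < D := by linarith
  have hb : pb (r / D) = (r / D) ^ 2 - r / D + 1 / 6 :=
    pb_of (by positivity) (by rw [div_lt_one hD0]; exact h1)
  rw [hb]
  rcases lt_or_ge (r + 1) D with hr1 | hr1
  · have hp : pb ((r + 1) / D) = ((r + 1) / D) ^ 2 - (r + 1) / D + 1 / 6 :=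
      pb_of (by positivity) (by rw [div_lt_one hD0]; exact hr1)
    have ht2 : tr (r - D) = 0 := tr_zero_of (by rw [abs_of_nonpos (by linarith)]; linarith)
    rw [hp, ht2]
    rcases lt_or_ge r 1 with hr2 | hr2
    · have hm : pb ((r - 1) / D) = ((r - 1) / D + 1) ^ 2 - ((r - 1) / D + 1) + 1 / 6 := by
        have e : pb ((r - 1) / D) = pb ((r - 1) / D + 1) := by
          have := pb_add_int ((r - 1) / D) 1
          push_cast at this
          exact this.symm
        rw [e]
        refine pb_of ?_ ?_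
        · have : -1 ≤ (r - 1) / D := by rw [le_div_iff₀ hD0]; linarith
          linarith
        · have : (r - 1) / D < 0 := div_neg_of_neg_of_pos (by linarith) hD0
          linarith
      rw [hm, tr_of_nonneg h0 hr2.le]
      field_simp
      ring
    · have hm : pb ((r - 1) / D) = ((r - 1) / D) ^ 2 - ((r - 1) / D) + 1 / 6 :=
        pb_of (div_nonneg (by linarith) hD0.le) (by rw [div_lt_one hD0]; linarith)
      rw [hm, tr_zero_of (by rw [abs_of_nonneg h0]; exact hr2)]
      field_simp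
      ring
  · have hp : pb ((r + 1) / D) = ((r + 1) / D - 1) ^ 2 - ((r + 1) / D - 1) + 1 / 6 := by
      have e : pb ((r + 1) / D) = pb ((r + 1) / D - 1) := by
        have := pb_add_int ((r + 1) / D - 1) 1
        push_cast at this
        rw [sub_add_cancel] at this
        exact this
      rw [e]
      refine pb_of ?_ ?_
      · have : 1 ≤ (r + 1) / D := by rw [le_div_iff₀ hD0]; linarith
        linarith
      · have : (r + 1) / D < 2 := by rw [div_lt_iff₀ hD0]; linarith
        linarith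
    have ht2 : tr (r - D) = 1 + (r - D) := tr_of_nonpos (by linarith) (by linarith)
    rw [hp, ht2]
    rcases lt_or_ge r 1 with hr2 | hr2
    · have hm : pb ((r - 1) / D) = ((r - 1) / D + 1) ^ 2 - ((r - 1) / D + 1) + 1 / 6 := by
        have e : pb ((r - 1) / D) = pb ((r - 1) / D + 1) := by
          have := pb_add_int ((r - 1) / D) 1
          push_cast at this
          exact this.symm
        rw [e]
        refine pb_of ?_ ?_
        · have : -1 ≤ (r - 1) / D := by rw [le_div_iff₀ hD0]; linarith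
          linarith
        · have : (r - 1) / D < 0 := div_neg_of_neg_of_pos (by linarith) hD0
          linarith
      rw [hm, tr_of_nonneg h0 hr2.le]
      field_simp
      ring
    · have hm : pb ((r - 1) / D) = ((r - 1) / D) ^ 2 - ((r - 1) / D) + 1 / 6 :=
        pb_of (div_nonneg (by linarith) hD0.le) (by rw [div_lt_one hD0]; linarith)
      rw [hm, tr_zero_of (by rw [abs_of_nonneg h0]; exact hr2)]
      field_simp
      ring

/-- summing the triangle function over the multiples of `D` near `v` -/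
lemma sum_mult {D : ℕ} (hD : 1 ≤ D) (v : ℝ) (S : Finset ℤ) (hS : ∀ j : ℤ, |v - j| < 1 → j ∈ S) :
    ∑ j ∈ S, (if (D : ℤ) ∣ j then tr (v - j) else 0) =
      tr (v - D * ⌊v / D⌋) + tr (v - D * (⌊v / D⌋ + 1)) := by
  classical
  have hD1 : (1 : ℝ) ≤ D := by exact_mod_cast hD
  have hD0 : (0 : ℝ) < D := by linarith
  set m := ⌊v / D⌋ with hm
  have h1 : (D : ℝ) * m ≤ v := by
    have := Int.floor_le (v / D)
    rw [← hm, le_div_iff₀ hD0] at this
    linarith
  have h2 : v < D * (m + 1) := by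
    have := Int.lt_floor_add_one (v / D)
    rw [← hm, div_lt_iff₀ hD0] at this
    linarith
  set T : Finset ℤ := {(D : ℤ) * m, (D : ℤ) * (m + 1)} with hT
  set f : ℤ → ℝ := fun j => if (D : ℤ) ∣ j then tr (v - j) else 0 with hf
  have e1 : ∑ j ∈ S, f j = ∑ j ∈ S ∪ T, f j := by
    refine Finset.sum_subset Finset.subset_union_left fun j _ hj => ?_
    have h3 : 1 ≤ |v - j| := by
      by_contra hc
      exact hj (hS j (not_le.1 hc))
    simp only [hf]
    rw [tr_zero_of h3]
    simp
  have e2 : ∑ j ∈ T, f j = ∑ j ∈ S ∪ T, f j := by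
    refine Finset.sum_subset Finset.subset_union_right fun j _ hj => ?_
    simp only [hf]
    split_ifs with hd
    · obtain ⟨k, rfl⟩ := hd
      refine tr_zero_of ?_
      have hk1 : k ≠ m := by
        rintro rfl
        exact hj (by rw [hT]; simp)
      have hk2 : k ≠ m + 1 := by
        rintro rfl
        exact hj (by rw [hT]; simp)
      rcases lt_or_ge k m with h | h
      · have h3 : (k : ℝ) + 1 ≤ m := by exact_mod_cast h
        have h4 : (D : ℝ) * (k + 1) ≤ D * m := mul_le_mul_of_nonneg_left h3 hD0.le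
        push_cast
        refine le_trans ?_ (le_abs_self _)
        linarith
      · have h3 : (m : ℝ) + 2 ≤ k := by
          have : m + 2 ≤ k := by omega
          exact_mod_cast this
        have h4 : (D : ℝ) * (m + 2) ≤ D * k := mul_le_mul_of_nonneg_left h3 hD0.le
        push_cast
        refine le_trans ?_ (neg_le_abs _)
        linarith
    · rfl
  rw [e1, ← e2, hT]
  have hne : (D : ℤ) * m ≠ (D : ℤ) * (m + 1) := by
    intro h
    have : (D : ℤ) ≠ 0 := by exact_mod_cast (by omega : D ≠ 0)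
    have := mul_left_cancel₀ this h
    omega
  rw [Finset.sum_pair hne]
  simp only [hf]
  rw [if_pos (dvd_mul_right _ _), if_pos (dvd_mul_right _ _)]
  push_cast
  rfl

/-- the periodic function as a sum over the multiples of `D` -/
theorem HD_sum {D : ℕ} (hD : 1 ≤ D) (x : ℝ) (S : Finset ℤ) (hS : ∀ j : ℤ, |x - 1 / 2 - j| < 1 → j ∈ S) :
    HD D x = ∑ j ∈ S, (if (D : ℤ) ∣ j then 2 * tr (x - 1 / 2 - j) else 0) := by
  have hD1 : (1 : ℝ) ≤ D := by exact_mod_cast hD
  have hD0 : (0 : ℝ) < D := by linarith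
  set v := x - 1 / 2 with hv
  have h1 := sum_mult hD v S hS
  set m := ⌊v / D⌋ with hm
  have e1 : ∑ j ∈ S, (if (D : ℤ) ∣ j then 2 * tr (v - j) else 0) =
      2 * ∑ j ∈ S, (if (D : ℤ) ∣ j then tr (v - j) else 0) := by
    rw [Finset.mul_sum]
    refine Finset.sum_congr rfl fun j _ => ?_
    split_ifs <;> simp
  rw [e1, h1, HD_eq, ← hv]
  have h2 : (D : ℝ) * m ≤ v := by
    have := Int.floor_le (v / D)
    rw [← hm, le_div_iff₀ hD0] at this
    linarith
  have h3 : v < D * (m + 1) := by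
    have := Int.lt_floor_add_one (v / D)
    rw [← hm, div_lt_iff₀ hD0] at this
    linarith
  have h4 := second_diff hD (r := v - D * m) (by linarith) (by linarith)
  have f1 : (v + 1) / D = (v - D * m + 1) / D + m := by field_simp; ring
  have f2 : v / D = (v - D * m) / D + m := by field_simp; ring
  have f3 : (v - 1) / D = (v - D * m - 1) / D + m := by field_simp; ring
  rw [f1, f2, f3, pb_add_int, pb_add_int, pb_add_int, h4]
  have f4 : v - D * m - D = v - D * (m + 1) := by ring
  rw [f4]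
  ring

lemma sum_ca_le {D : ℕ} (hD : 1 ≤ D) : ∑' k, ca D k ≤ 2 := by
  have h : HD D (1 / 2) = 2 / D + ∑' k, ca D k := by
    unfold HD
    congr 2
    funext k
    have : 2 * π * k / D * (1 / 2) + -(π * k / D) = 0 := by ring
    rw [this, Real.cos_zero, mul_one]
  have h2 := HD_sum hD (1 / 2) {0} (by
    intro j hj
    rw [Finset.mem_singleton]
    have h3 : |(j : ℝ)| < 1 := by
      have e : (1 : ℝ) / 2 - 1 / 2 - j = -j := by ring
      rw [e, abs_neg] at hj
      exact hj
    have h4 : |j| < 1 := by exact_mod_cast h3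
    exact Int.abs_lt_one_iff.1 h4)
  rw [Finset.sum_singleton] at h2
  simp only [dvd_zero, if_true] at h2
  have h3 : tr (1 / 2 - 1 / 2 - ((0 : ℤ) : ℝ)) = 1 := by
    unfold tr; norm_num
  rw [h3] at h2
  have h4 : (0 : ℝ) ≤ 2 / D := by positivity
  linarith

end Pool.Agent.W66V
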