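import Mathlib
import Pool.Agent.W66.VB
import Pool.Agent.W66.VC

set_option autoImplicit false

/-!
# Correlation of two periodic triangle functions along a power curve
-/

namespace Pool.Agent.W66V

open Set MeasureTheory Filter Topology
open scoped Real

lemma HD_continuous (D : ℕ) : Continuous (HD D) := by
  unfold HD
  refine continuous_const.add ?_
  refine continuous_tsum (u := ca D) (fun k => by fun_prop) (summable_ca D) fun k x => ?_
  rw [Real.norm_eq_abs, abs_mul, abs_of_nonneg (ca_nonneg D k)]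
  have := Real.abs_cos_le_one (2 * π * k / D * x + -(π * k / D))
  have h2 := ca_nonneg D k
  nlinarith

lemma HD_tail_le (D : ℕ) (hD : 1 ≤ D) (x : ℝ) :
    |∑' k : ℕ, ca D k * Real.cos (2 * π * k / D * x + -(π * k / D))| ≤ 2 := by
  have hb : ∀ k : ℕ, ‖ca D k * Real.cos (2 * π * k / D * x + -(π * k / D))‖ ≤ ca D k := by
    intro k
    rw [Real.norm_eq_abs, abs_mul, abs_of_nonneg (ca_nonneg D k)]
    have := Real.abs_cos_le_one (2 * π * k / D * x + -(π * k / D))
    have h2 := ca_nonneg D k
    nlinarith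
  have hs : Summable fun k : ℕ => ‖ca D k * Real.cos (2 * π * k / D * x + -(π * k / D))‖ :=
    Summable.of_nonneg_of_le (fun _ => norm_nonneg _) hb (summable_ca D)
  have h1 := norm_tsum_le_tsum_norm hs
  rw [Real.norm_eq_abs] at h1
  exact h1.trans ((Summable.tsum_le_tsum hb hs (summable_ca D)).trans (sum_ca_le hD))

lemma HD_abs_le (D : ℕ) (hD : 1 ≤ D) (x : ℝ) : |HD D x| ≤ 4 := by
  unfold HD
  have h1 := HD_tail_le D hD x
  have hD1 : (1 : ℝ) ≤ D := by exact_mod_cast hD
  have h2 : (2 : ℝ) / D ≤ 2 := by rw [div_le_iff₀ (by linarith)]; linarith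
  have h3 : (0 : ℝ) ≤ 2 / D := by positivity
  rw [abs_le] at h1 ⊢
  constructor <;> linarith

lemma exp_one_mul_le {X : ℝ} (hX : 0 < X) : X ≤ Real.exp 1 * X := by
  have := Real.add_one_le_exp (1 : ℝ)
  nlinarith

lemma integral_inv_window {X : ℝ} (hX : 0 < X) : ∫ x in X..(Real.exp 1 * X), 1 / x = 1 := by
  rw [integral_one_div_of_pos hX (by have := Real.exp_pos (1 : ℝ); positivity)]
  have : Real.exp 1 * X / X = Real.exp 1 := by field_simp
  rw [this, Real.log_exp]

lemma abs3 {a b x M : ℝ} (h1 : |a| ≤ M) (h2 : |b| ≤ 1) (h3 : |x⁻¹| ≤ 1) : |a * b / x| ≤ M := by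
  have hM : 0 ≤ M := (abs_nonneg a).trans h1
  rw [div_eq_mul_inv, abs_mul, abs_mul]
  calc |a| * |b| * |x⁻¹| ≤ M * 1 * 1 := by gcongr
    _ = M := by ring

/-- the bound for the oscillatory integrals -/
noncomputable def BB (Q : ℕ) (c lam X : ℝ) : ℝ :=
  8 / Real.sqrt (c * (lam - 1) / (Q * (Real.exp 1 * X))) / X + Q / X

section

variable {Q : ℕ} {c lam X : ℝ} (hQ : 1 ≤ Q) (hc : 0 < c) (hl : 1 < lam) (hX : 1 ≤ X)
include hQ hc hl hX

omit hQ hc hl in
lemma BB_nonneg : 0 ≤ BB Q c lam X := by
  unfold BB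
  have : 0 < X := by linarith
  positivity

lemma osc_lin {D k : ℕ} (hD : 1 ≤ D) (hDQ : D ≤ Q) (hk : 1 ≤ k) (γ : ℝ) :
    |∫ x in X..(Real.exp 1 * X), Real.cos (2 * π * k / D * x + γ) / x| ≤ BB Q c lam X := by
  have hX0 : 0 < X := by linarith
  have hD0 : (0 : ℝ) < D := by exact_mod_cast hD
  have hk1 : (1 : ℝ) ≤ k := by exact_mod_cast hk
  have hQr : (D : ℝ) ≤ Q := by exact_mod_cast hDQ
  have hpi := Real.pi_gt_three
  have hα : 0 < 2 * π * k / D := by positivity
  refine (osc1 hX0 hα.ne').trans ?_
  rw [abs_of_pos hα]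
  have h1 : 2 / (2 * π * k / D) ≤ Q := by
    rw [div_le_iff₀ hα]
    have h2 : 1 ≤ π * k := by nlinarith
    calc (2 : ℝ) ≤ 2 * (π * k) := by linarith
      _ = D * (2 * π * k / D) := by field_simp
      _ ≤ Q * (2 * π * k / D) := mul_le_mul_of_nonneg_right hQr hα.le
  have h3 : 0 ≤ 8 / Real.sqrt (c * (lam - 1) / (Q * (Real.exp 1 * X))) / X := by positivity
  have h4 : 2 / (2 * π * k / D) / X ≤ Q / X := div_le_div_of_nonneg_right h1 hX0.le
  unfold BB
  linarith

lemma osc_mix {D E k l : ℕ} (hE : 1 ≤ E) (hEQ : E ≤ Q) (hl0 : 1 ≤ l)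
    (γ γ' : ℝ) :
    |∫ x in X..(Real.exp 1 * X), Real.cos (2 * π * k / D * x + γ) *
      Real.cos (2 * π * l / E * (c * x ^ lam) + γ') / x| ≤ BB Q c lam X := by
  have hX0 : 0 < X := by linarith
  have hE0 : (0 : ℝ) < E := by exact_mod_cast hE
  have hQ0 : (0 : ℝ) < Q := by exact_mod_cast hQ
  have hl1 : (1 : ℝ) ≤ l := by exact_mod_cast hl0
  have hQr : (E : ℝ) ≤ Q := by exact_mod_cast hEQ
  have hpi := Real.pi_gt_three
  have hβ : 0 < 2 * π * l / E * c := by positivity
  have h := osc_prod (α := 2 * π * k / D) (β := 2 * π * l / E * c) (γ := γ) (γ' := γ') hX hl hβ.ne'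
  have e : ∀ x : ℝ, 2 * π * l / E * (c * x ^ lam) + γ' = 2 * π * l / E * c * x ^ lam + γ' := by
    intro x; ring
  simp only [e]
  refine h.trans ?_
  rw [abs_of_pos hβ]
  have hEX : 0 < Real.exp 1 * X := by have := Real.exp_pos (1 : ℝ); positivity
  have h1 : c * (lam - 1) / (Q * (Real.exp 1 * X)) ≤ 2 * π * l / E * c * (lam - 1) / (Real.exp 1 * X) := by
    rw [div_mul_eq_div_div]
    refine div_le_div_of_nonneg_right ?_ hEX.le
    have h2 : 1 / (Q : ℝ) ≤ 2 * π * l / E := by
      rw [div_le_div_iff₀ hQ0 hE0, one_mul]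
      have : 1 ≤ 2 * π * l := by nlinarith
      nlinarith
    have h3 : 0 < lam - 1 := by linarith
    calc c * (lam - 1) / Q = 1 / Q * (c * (lam - 1)) := by ring
      _ ≤ 2 * π * l / E * (c * (lam - 1)) := mul_le_mul_of_nonneg_right h2 (by positivity)
      _ = _ := by ring
  have hlam : 0 < lam - 1 := by linarith
  have h4 : 8 / Real.sqrt (2 * π * l / E * c * (lam - 1) / (Real.exp 1 * X)) / X ≤
      8 / Real.sqrt (c * (lam - 1) / (Q * (Real.exp 1 * X))) / X := by
    refine div_le_div_of_nonneg_right ?_ hX0.le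
    refine div_le_div_of_nonneg_left (by norm_num) (Real.sqrt_pos.2 (by positivity)) ?_
    exact Real.sqrt_le_sqrt h1
  have h5 : (0 : ℝ) ≤ Q / X := by positivity
  unfold BB
  linarith

omit hQ hc hl in
lemma rpow_contOn : ContinuousOn (fun x : ℝ => x ^ lam) (Icc X (Real.exp 1 * X)) := by
  intro x hx
  have hx0 : 0 < x := by linarith [hx.1]
  exact (Real.continuousAt_rpow_const x lam (Or.inl hx0.ne')).continuousWithinAt

/-- the correlation integral -/
theorem corr {D E : ℕ} (hD : 1 ≤ D) (hDQ : D ≤ Q) (hE : 1 ≤ E) (hEQ : E ≤ Q) :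
    |(∫ x in X..(Real.exp 1 * X), HD D x * HD E (c * x ^ lam) / x) - 4 / (D * E)| ≤
      12 * BB Q c lam X := by
  have hX0 : 0 < X := by linarith
  have hle := exp_one_mul_le hX0
  have hD1 : (1 : ℝ) ≤ D := by exact_mod_cast hD
  have hE1 : (1 : ℝ) ≤ E := by exact_mod_cast hE
  set B := BB Q c lam X with hB
  have hB0 : 0 ≤ B := BB_nonneg hX
  have hpos : ∀ x ∈ Icc X (Real.exp 1 * X), 0 < x := fun x hx => hX0.trans_le hx.1
  have hrc := rpow_contOn (lam := lam) hX
  have hcosE : ∀ l : ℕ, ContinuousOn (fun x : ℝ => Real.cos (2 * π * l / E * (c * x ^ lam) + -(π * l / E)))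
      (Icc X (Real.exp 1 * X)) := by
    intro l
    refine Real.continuous_cos.comp_continuousOn ?_
    exact ((continuousOn_const.mul (continuousOn_const.mul hrc)).add continuousOn_const)
  have hinv : ContinuousOn (fun x : ℝ => x⁻¹) (Icc X (Real.exp 1 * X)) :=
    continuousOn_inv₀.mono fun x hx => (hpos x hx).ne'
  have hinvle : ∀ x ∈ Icc X (Real.exp 1 * X), |x⁻¹| ≤ 1 := by
    intro x hx
    rw [abs_of_pos (inv_pos.2 (hpos x hx))]
    exact inv_le_one_of_one_le₀ (hX.trans hx.1)
  -- first error
  have herr1 : |∫ x in X..(Real.exp 1 * X), ∑' k : ℕ, ca D k *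
      (Real.cos (2 * π * k / D * x + -(π * k / D)) / x)| ≤ 2 * B := by
    refine (tsum_int (ca_nonneg D) (summable_ca D) hle (M := 1) (B := B)
      (fun k x => Real.cos (2 * π * k / D * x + -(π * k / D)) / x) ?_ ?_ ?_).trans ?_
    · intro k
      simp only [div_eq_mul_inv]
      exact (by fun_prop : Continuous fun x : ℝ => Real.cos (2 * π * k * (D : ℝ)⁻¹ * x +
        -(π * k * (D : ℝ)⁻¹))).continuousOn.mul hinv
    · intro k x hx
      rw [div_eq_mul_inv, abs_mul]
      have h1 := Real.abs_cos_le_one (2 * π * k / D * x + -(π * k / D))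
      have h2 := hinvle x hx
      have h3 := abs_nonneg (x⁻¹)
      have h4 := abs_nonneg (Real.cos (2 * π * k / D * x + -(π * k / D)))
      nlinarith
    · intro k hk
      have hk1 : 1 ≤ k := by
        rcases Nat.eq_zero_or_pos k with h | h
        · rw [h] at hk; exact absurd (ca_zero D) hk
        · exact h
      exact osc_lin hQ hc hl hX hD hDQ hk1 _
    · exact mul_le_mul_of_nonneg_right (sum_ca_le hD) hB0
  -- inner integrals
  have hinner : ∀ l : ℕ, 1 ≤ l → |∫ x in X..(Real.exp 1 * X), HD D x *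
      Real.cos (2 * π * l / E * (c * x ^ lam) + -(π * l / E)) / x| ≤ 4 * B := by
    intro l hl1
    have hcontH : ContinuousOn (fun x : ℝ => Real.cos (2 * π * l / E * (c * x ^ lam) + -(π * l / E)) / x)
        (Icc X (Real.exp 1 * X)) := by
      simp only [div_eq_mul_inv]
      exact (by simpa only [div_eq_mul_inv] using hcosE l : ContinuousOn _ _).mul hinv
    have hi1 : IntervalIntegrable (fun x : ℝ => 2 / D *
        (Real.cos (2 * π * l / E * (c * x ^ lam) + -(π * l / E)) / x)) volume X (Real.exp 1 * X) := by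
      apply ContinuousOn.intervalIntegrable
      rw [uIcc_of_le hle]
      exact continuousOn_const.mul hcontH
    have htail : ContinuousOn (fun x : ℝ => ∑' k : ℕ, ca D k *
        (Real.cos (2 * π * k / D * x + -(π * k / D)) *
          Real.cos (2 * π * l / E * (c * x ^ lam) + -(π * l / E)) / x)) (Icc X (Real.exp 1 * X)) := by
      refine continuousOn_tsum (u := ca D) (fun k => ?_) (summable_ca D) fun k x hx => ?_
      · refine continuousOn_const.mul ?_
        have : (fun x : ℝ => Real.cos (2 * π * k / D * x + -(π * k / D)) *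
            Real.cos (2 * π * l / E * (c * x ^ lam) + -(π * l / E)) / x) = fun x : ℝ =>
            Real.cos (2 * π * k / D * x + -(π * k / D)) *
            (Real.cos (2 * π * l / E * (c * x ^ lam) + -(π * l / E)) / x) := by
          funext x; ring
        rw [this]
        exact (by fun_prop : Continuous fun x : ℝ => Real.cos (2 * π * k / D * x +
          -(π * k / D))).continuousOn.mul hcontH
      · rw [Real.norm_eq_abs, abs_mul, abs_of_nonneg (ca_nonneg D k)]
        have h1 := Real.abs_cos_le_one (2 * π * k / D * x + -(π * k / D))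
        have h2 := Real.abs_cos_le_one (2 * π * l / E * (c * x ^ lam) + -(π * l / E))
        have h3 := hinvle x hx
        have h4 : |Real.cos (2 * π * k / D * x + -(π * k / D)) *
            Real.cos (2 * π * l / E * (c * x ^ lam) + -(π * l / E)) / x| ≤ 1 := by
          exact abs3 h1 h2 h3
        have h5 := ca_nonneg D k
        nlinarith
    have hi2 : IntervalIntegrable (fun x : ℝ => ∑' k : ℕ, ca D k *
        (Real.cos (2 * π * k / D * x + -(π * k / D)) *
          Real.cos (2 * π * l / E * (c * x ^ lam) + -(π * l / E)) / x)) volume X (Real.exp 1 * X) := by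
      apply ContinuousOn.intervalIntegrable
      rw [uIcc_of_le hle]
      exact htail
    have e : ∫ x in X..(Real.exp 1 * X), HD D x *
        Real.cos (2 * π * l / E * (c * x ^ lam) + -(π * l / E)) / x =
        2 / D * (∫ x in X..(Real.exp 1 * X), Real.cos (2 * π * l / E * (c * x ^ lam) + -(π * l / E)) / x) +
        ∫ x in X..(Real.exp 1 * X), ∑' k : ℕ, ca D k * (Real.cos (2 * π * k / D * x + -(π * k / D)) *
          Real.cos (2 * π * l / E * (c * x ^ lam) + -(π * l / E)) / x) := by
      rw [← intervalIntegral.integral_const_mul, ← intervalIntegral.integral_add hi1 hi2]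
      refine intervalIntegral.integral_congr fun x _ => ?_
      simp only [HD]
      rw [add_mul, add_div, ← tsum_mul_right, ← tsum_div_const]
      congr 1
      · ring
      · refine tsum_congr fun k => ?_
        ring
    rw [e]
    have hA : |∫ x in X..(Real.exp 1 * X), Real.cos (2 * π * l / E * (c * x ^ lam) + -(π * l / E)) / x| ≤ B := by
      have h1 := osc_mix (D := 1) (k := 0) hQ hc hl hX hE hEQ hl1 0 (-(π * l / E))
      simpa using h1
    have hBt : |∫ x in X..(Real.exp 1 * X), ∑' k : ℕ, ca D k *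
        (Real.cos (2 * π * k / D * x + -(π * k / D)) *
          Real.cos (2 * π * l / E * (c * x ^ lam) + -(π * l / E)) / x)| ≤ 2 * B := by
      refine (tsum_int (ca_nonneg D) (summable_ca D) hle (M := 1) (B := B)
        (fun k x => Real.cos (2 * π * k / D * x + -(π * k / D)) *
          Real.cos (2 * π * l / E * (c * x ^ lam) + -(π * l / E)) / x) ?_ ?_ ?_).trans ?_
      · intro k
        have : (fun x : ℝ => Real.cos (2 * π * k / D * x + -(π * k / D)) *
            Real.cos (2 * π * l / E * (c * x ^ lam) + -(π * l / E)) / x) = fun x : ℝ =>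
            Real.cos (2 * π * k / D * x + -(π * k / D)) *
            (Real.cos (2 * π * l / E * (c * x ^ lam) + -(π * l / E)) / x) := by
          funext x; ring
        rw [this]
        exact (by fun_prop : Continuous fun x : ℝ => Real.cos (2 * π * k / D * x +
          -(π * k / D))).continuousOn.mul hcontH
      · intro k x hx
        have h1 := Real.abs_cos_le_one (2 * π * k / D * x + -(π * k / D))
        have h2 := Real.abs_cos_le_one (2 * π * l / E * (c * x ^ lam) + -(π * l / E))
        have h3 := hinvle x hx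
        exact abs3 h1 h2 h3
      · intro k _
        exact osc_mix hQ hc hl hX hE hEQ hl1 _ _
      · exact mul_le_mul_of_nonneg_right (sum_ca_le hD) hB0
    have h2D : (2 : ℝ) / D ≤ 2 := by rw [div_le_iff₀ (by linarith)]; linarith
    have h2D0 : (0 : ℝ) ≤ 2 / D := by positivity
    calc |2 / D * (∫ x in X..(Real.exp 1 * X), Real.cos (2 * π * l / E * (c * x ^ lam) + -(π * l / E)) / x) +
        ∫ x in X..(Real.exp 1 * X), ∑' k : ℕ, ca D k * (Real.cos (2 * π * k / D * x + -(π * k / D)) *
          Real.cos (2 * π * l / E * (c * x ^ lam) + -(π * l / E)) / x)| ≤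
        2 / D * |∫ x in X..(Real.exp 1 * X), Real.cos (2 * π * l / E * (c * x ^ lam) + -(π * l / E)) / x| +
        |∫ x in X..(Real.exp 1 * X), ∑' k : ℕ, ca D k * (Real.cos (2 * π * k / D * x + -(π * k / D)) *
          Real.cos (2 * π * l / E * (c * x ^ lam) + -(π * l / E)) / x)| := by
          refine (abs_add_le _ _).trans ?_
          rw [abs_mul, abs_of_nonneg h2D0]
      _ ≤ 2 * B + 2 * B := by gcongr
      _ = 4 * B := by ring
  -- second error
  have herr2 : |∫ x in X..(Real.exp 1 * X), ∑' l : ℕ, ca E l * (HD D x *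
      Real.cos (2 * π * l / E * (c * x ^ lam) + -(π * l / E)) / x)| ≤ 8 * B := by
    refine (tsum_int (ca_nonneg E) (summable_ca E) hle (M := 4) (B := 4 * B)
      (fun l x => HD D x * Real.cos (2 * π * l / E * (c * x ^ lam) + -(π * l / E)) / x) ?_ ?_ ?_).trans ?_
    · intro l
      simp only [div_eq_mul_inv]
      exact ((HD_continuous D).continuousOn.mul (by simpa only [div_eq_mul_inv] using hcosE l)).mul hinv
    · intro l x hx
      have h1 := HD_abs_le D hD x
      have h2 := Real.abs_cos_le_one (2 * π * l / E * (c * x ^ lam) + -(π * l / E))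
      have h3 := hinvle x hx
      exact abs3 h1 h2 h3
    · intro l hl0
      have hl1 : 1 ≤ l := by
        rcases Nat.eq_zero_or_pos l with h | h
        · rw [h] at hl0; exact absurd (ca_zero E) hl0
        · exact h
      exact hinner l hl1
    · have := sum_ca_le hE
      nlinarith
  -- decomposition
  have hcontA : ContinuousOn (fun x : ℝ => ∑' k : ℕ, ca D k *
      (Real.cos (2 * π * k / D * x + -(π * k / D)) / x)) (Icc X (Real.exp 1 * X)) := by
    refine continuousOn_tsum (u := ca D) (fun k => ?_) (summable_ca D) fun k x hx => ?_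
    · refine continuousOn_const.mul ?_
      simp only [div_eq_mul_inv]
      exact (by fun_prop : Continuous fun x : ℝ => Real.cos (2 * π * k * (D : ℝ)⁻¹ * x +
        -(π * k * (D : ℝ)⁻¹))).continuousOn.mul hinv
    · rw [Real.norm_eq_abs, abs_mul, abs_of_nonneg (ca_nonneg D k), div_eq_mul_inv, abs_mul]
      have h1 := Real.abs_cos_le_one (2 * π * k / D * x + -(π * k / D))
      have h3 := hinvle x hx
      have h5 := ca_nonneg D k
      have h4 : |Real.cos (2 * π * k / D * x + -(π * k / D))| * |x⁻¹| ≤ 1 * 1 := by gcongr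
      nlinarith
  have hcontB : ContinuousOn (fun x : ℝ => ∑' l : ℕ, ca E l * (HD D x *
      Real.cos (2 * π * l / E * (c * x ^ lam) + -(π * l / E)) / x)) (Icc X (Real.exp 1 * X)) := by
    refine continuousOn_tsum (u := fun l => ca E l * 4) (fun l => ?_) ((summable_ca E).mul_right 4)
      fun l x hx => ?_
    · refine continuousOn_const.mul ?_
      simp only [div_eq_mul_inv]
      exact ((HD_continuous D).continuousOn.mul (by simpa only [div_eq_mul_inv] using hcosE l)).mul hinv
    · have h1 := HD_abs_le D hD x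
      have h2 := Real.abs_cos_le_one (2 * π * l / E * (c * x ^ lam) + -(π * l / E))
      have h3 := hinvle x hx
      rw [Real.norm_eq_abs, abs_mul, abs_of_nonneg (ca_nonneg E l)]
      exact mul_le_mul_of_nonneg_left (abs3 h1 h2 h3) (ca_nonneg E l)
  have hii : ∀ g : ℝ → ℝ, ContinuousOn g (Icc X (Real.exp 1 * X)) →
      IntervalIntegrable g volume X (Real.exp 1 * X) := by
    intro g hg
    apply ContinuousOn.intervalIntegrable
    rw [uIcc_of_le hle]; exact hg
  have hone : ContinuousOn (fun x : ℝ => 1 / x) (Icc X (Real.exp 1 * X)) := by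
    simpa only [one_div] using hinv
  have hdec : ∫ x in X..(Real.exp 1 * X), HD D x * HD E (c * x ^ lam) / x =
      4 / (D * E) * (∫ x in X..(Real.exp 1 * X), 1 / x) +
      2 / E * (∫ x in X..(Real.exp 1 * X), ∑' k : ℕ, ca D k *
        (Real.cos (2 * π * k / D * x + -(π * k / D)) / x)) +
      ∫ x in X..(Real.exp 1 * X), ∑' l : ℕ, ca E l * (HD D x *
        Real.cos (2 * π * l / E * (c * x ^ lam) + -(π * l / E)) / x) := by
    have j1 : IntervalIntegrable (fun x : ℝ => 4 / ((D : ℝ) * E) * (1 / x)) volume X (Real.exp 1 * X) :=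
      hii _ (continuousOn_const.mul hone)
    have j2 : IntervalIntegrable (fun x : ℝ => 2 / (E : ℝ) * ∑' k : ℕ, ca D k *
        (Real.cos (2 * π * k / D * x + -(π * k / D)) / x)) volume X (Real.exp 1 * X) :=
      hii _ (continuousOn_const.mul hcontA)
    have j3 : IntervalIntegrable (fun x : ℝ => 4 / ((D : ℝ) * E) * (1 / x) + 2 / (E : ℝ) *
        ∑' k : ℕ, ca D k * (Real.cos (2 * π * k / D * x + -(π * k / D)) / x)) volume X (Real.exp 1 * X) :=
      j1.add j2
    rw [← intervalIntegral.integral_const_mul, ← intervalIntegral.integral_const_mul,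
      ← intervalIntegral.integral_add j1 j2, ← intervalIntegral.integral_add j3 (hii _ hcontB)]
    refine intervalIntegral.integral_congr fun x _ => ?_
    have e1 : HD E (c * x ^ lam) = 2 / E + ∑' l : ℕ, ca E l *
        Real.cos (2 * π * l / E * (c * x ^ lam) + -(π * l / E)) := rfl
    have e2 : HD D x = 2 / D + ∑' k : ℕ, ca D k * Real.cos (2 * π * k / D * x + -(π * k / D)) := rfl
    have e3 : ∑' l : ℕ, ca E l * (HD D x *
        Real.cos (2 * π * l / E * (c * x ^ lam) + -(π * l / E)) / x) =
        HD D x / x * ∑' l : ℕ, ca E l * Real.cos (2 * π * l / E * (c * x ^ lam) + -(π * l / E)) := by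
      rw [← tsum_mul_left]
      refine tsum_congr fun l => ?_
      ring
    have e4 : ∑' k : ℕ, ca D k * (Real.cos (2 * π * k / D * x + -(π * k / D)) / x) =
        1 / x * ∑' k : ℕ, ca D k * Real.cos (2 * π * k / D * x + -(π * k / D)) := by
      rw [← tsum_mul_left]
      refine tsum_congr fun l => ?_
      ring
    rw [e3, e4, e1]
    conv_lhs => rw [mul_add]
    rw [add_div]
    have e5 : HD D x * (2 / E) / x = 4 / (D * E) * (1 / x) + 2 / E * (1 / x *
        ∑' k : ℕ, ca D k * Real.cos (2 * π * k / D * x + -(π * k / D))) := by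
      rw [e2]
      generalize (∑' k : ℕ, ca D k * Real.cos (2 * π * k / D * x + -(π * k / D))) = T
      field_simp
      ring
    rw [e5]
    ring
  rw [hdec, integral_inv_window hX0]
  have h2E : (2 : ℝ) / E ≤ 2 := by rw [div_le_iff₀ (by linarith)]; linarith
  have h2E0 : (0 : ℝ) ≤ 2 / E := by positivity
  have e6 : ∀ a b : ℝ, 4 / ((D : ℝ) * E) * 1 + 2 / E * a + b - 4 / (D * E) = 2 / E * a + b := by
    intro a b; ring
  rw [e6]
  refine (abs_add_le _ _).trans ?_
  rw [abs_mul, abs_of_nonneg h2E0]
  calc _ ≤ 2 * (2 * B) + 8 * B := by gcongr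
    _ = 12 * B := by ring

end

end Pool.Agent.W66V
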