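import Mathlib
import Pool.Agent.W66.VD

set_option autoImplicit false

/-!
# Correlation of two periodic triangle functions along a line
-/

namespace Pool.Agent.W66V

open Set MeasureTheory Filter Topology
open scoped Real

/-- integral of a sum of a series of cosines, weighted bounds -/
lemma tsum_int2 {a s : ℕ → ℝ} (ha : ∀ k, 0 ≤ a k) (hs : Summable a)
    (hs2 : Summable fun k => a k * s k) {u v M B : ℝ} (huv : u ≤ v)
    (g : ℕ → ℝ → ℝ) (hg : ∀ k, ContinuousOn (g k) (Icc u v)) (hM : ∀ k, ∀ x ∈ Icc u v, |g k x| ≤ M)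
    (hB : ∀ k, a k ≠ 0 → |∫ x in u..v, g k x| ≤ s k * B) :
    |∫ x in u..v, ∑' k, a k * g k x| ≤ (∑' k, a k * s k) * B := by
  have hsum : HasSum (fun k => ∫ x in u..v, a k * g k x) (∫ x in u..v, ∑' k, a k * g k x) := by
    refine intervalIntegral.hasSum_integral_of_dominated_convergence (fun k _ => a k * M) ?_ ?_ ?_ ?_ ?_
    · intro k
      rw [uIoc_of_le huv]
      exact ((continuousOn_const.mul (hg k)).mono Ioc_subset_Icc_self).aestronglyMeasurable measurableSet_Ioc
    · intro k
      refine Eventually.of_forall fun x hx => ?_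
      rw [uIoc_of_le huv] at hx
      rw [Real.norm_eq_abs, abs_mul, abs_of_nonneg (ha k)]
      exact mul_le_mul_of_nonneg_left (hM k x ⟨hx.1.le, hx.2⟩) (ha k)
    · exact Eventually.of_forall fun x _ => hs.mul_right M
    · exact intervalIntegrable_const
    · refine Eventually.of_forall fun x hx => ?_
      rw [uIoc_of_le huv] at hx
      refine Summable.hasSum ?_
      refine Summable.of_norm_bounded (hs.mul_right M) fun k => ?_
      rw [Real.norm_eq_abs, abs_mul, abs_of_nonneg (ha k)]
      exact mul_le_mul_of_nonneg_left (hM k x ⟨hx.1.le, hx.2⟩) (ha k)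
  have hterm : ∀ k, ‖∫ x in u..v, a k * g k x‖ ≤ a k * s k * B := by
    intro k
    rw [intervalIntegral.integral_const_mul, Real.norm_eq_abs, abs_mul, abs_of_nonneg (ha k)]
    by_cases h : a k = 0
    · rw [h]; simp
    · rw [mul_assoc]
      exact mul_le_mul_of_nonneg_left (hB k h) (ha k)
  rw [← hsum.tsum_eq]
  have h1 := norm_tsum_le_tsum_norm (f := fun k => ∫ x in u..v, a k * g k x)
    (Summable.of_nonneg_of_le (fun k => norm_nonneg _) hterm (hs2.mul_right B))
  rw [Real.norm_eq_abs] at h1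
  refine h1.trans ?_
  rw [← tsum_mul_right]
  exact Summable.tsum_le_tsum hterm
    (Summable.of_nonneg_of_le (fun k => norm_nonneg _) hterm (hs2.mul_right B)) (hs2.mul_right B)

lemma min_sqrt {z w : ℝ} (hz : 0 ≤ z) (h1 : w ≤ 1) (h2 : w ≤ z) : w ≤ Real.sqrt z := by
  rcases le_total z 1 with h | h
  · refine h2.trans ?_
    rw [Real.le_sqrt hz hz]
    nlinarith
  · exact h1.trans (Real.one_le_sqrt.2 h)

section

variable {X : ℝ} (hX : 1 ≤ X)
include hX

/-- trivial bound -/
lemma triv_window {f : ℝ → ℝ} (hf : ContinuousOn f (Icc X (Real.exp 1 * X)))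
    {M : ℝ} (hM : ∀ x ∈ Icc X (Real.exp 1 * X), |f x| ≤ M) :
    |∫ x in X..(Real.exp 1 * X), f x / x| ≤ M := by
  have hX0 : 0 < X := by linarith
  have hle := exp_one_mul_le hX0
  have hpos : ∀ x ∈ Icc X (Real.exp 1 * X), 0 < x := fun x hx => hX0.trans_le hx.1
  have hinv : ContinuousOn (fun x : ℝ => x⁻¹) (Icc X (Real.exp 1 * X)) :=
    continuousOn_inv₀.mono fun x hx => (hpos x hx).ne'
  have h1 : ContinuousOn (fun x => f x / x) (Icc X (Real.exp 1 * X)) := by
    simp only [div_eq_mul_inv]; exact hf.mul hinv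
  have h2 : ContinuousOn (fun x : ℝ => M * (1 / x)) (Icc X (Real.exp 1 * X)) := by
    simp only [one_div]; exact continuousOn_const.mul hinv
  refine (intervalIntegral.abs_integral_le_integral_abs hle).trans ?_
  calc ∫ x in X..(Real.exp 1 * X), |f x / x| ≤ ∫ x in X..(Real.exp 1 * X), M * (1 / x) := by
        refine intervalIntegral.integral_mono_on hle (h1.abs.intervalIntegrable_of_Icc hle)
          (h2.intervalIntegrable_of_Icc hle) fun x hx => ?_
        have hx0 := hpos x hx
        rw [abs_div, abs_of_pos hx0, ← mul_div_assoc, mul_one]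
        exact div_le_div_of_nonneg_right (hM x hx) hx0.le
    _ = M := by rw [intervalIntegral.integral_const_mul, integral_inv_window hX0, mul_one]

/-- product of two cosines with linear phases -/
lemma osc_prod1 {α β γ γ' : ℝ} (h1 : α + β ≠ 0) (h2 : α - β ≠ 0) :
    |∫ x in X..(Real.exp 1 * X), Real.cos (α * x + γ) * Real.cos (β * x + γ') / x| ≤
      Real.sqrt ((1 / |α + β| + 1 / |α - β|) / X) := by
  have hX0 : 0 < X := by linarith
  have hle := exp_one_mul_le hX0
  refine min_sqrt (by positivity) ?_ ?_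
  · refine triv_window hX (f := fun x => Real.cos (α * x + γ) * Real.cos (β * x + γ')) (by fun_prop)
      fun x _ => ?_
    rw [abs_mul]
    have h3 := Real.abs_cos_le_one (α * x + γ)
    have h4 := Real.abs_cos_le_one (β * x + γ')
    exact mul_le_one₀ h3 (abs_nonneg _) h4
  have h3 := osc1 (γ := γ + γ') hX0 h1
  have h4 := osc1 (γ := γ - γ') hX0 h2
  have hci : ∀ a c : ℝ, IntervalIntegrable (fun x : ℝ => Real.cos (a * x + c) / x) volume
      X (Real.exp 1 * X) := by
    intro a c
    refine ContinuousOn.intervalIntegrable_of_Icc hle ?_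
    refine ContinuousOn.div (by fun_prop) continuousOn_id fun x hx => ?_
    exact (hX0.trans_le hx.1).ne'
  have e : ∫ x in X..(Real.exp 1 * X), Real.cos (α * x + γ) * Real.cos (β * x + γ') / x =
      (1 / 2) * ((∫ x in X..(Real.exp 1 * X), Real.cos ((α + β) * x + (γ + γ')) / x) +
        ∫ x in X..(Real.exp 1 * X), Real.cos ((α - β) * x + (γ - γ')) / x) := by
    rw [← intervalIntegral.integral_add (hci _ _) (hci _ _), ← intervalIntegral.integral_const_mul]
    refine intervalIntegral.integral_congr fun x _ => ?_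
    have h5 := Real.cos_add (α * x + γ) (β * x + γ')
    have h6 := Real.cos_sub (α * x + γ) (β * x + γ')
    have e1 : (α + β) * x + (γ + γ') = α * x + γ + (β * x + γ') := by ring
    have e2 : (α - β) * x + (γ - γ') = α * x + γ - (β * x + γ') := by ring
    rw [e1, e2, h5, h6]
    ring
  rw [e, abs_mul, abs_of_pos (by norm_num : (0 : ℝ) < 1 / 2)]
  have h5 := abs_add_le (∫ x in X..(Real.exp 1 * X), Real.cos ((α + β) * x + (γ + γ')) / x)
    (∫ x in X..(Real.exp 1 * X), Real.cos ((α - β) * x + (γ - γ')) / x)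
  have e3 : (1 / |α + β| + 1 / |α - β|) / X = (1 / 2) * (2 / |α + β| / X + 2 / |α - β| / X) := by
    ring
  rw [e3]
  linarith

end

/-- the sum of the weights `k ^ (- 3 / 2)` -/
noncomputable def Z32 : ℝ := ∑' k : ℕ, 1 / (k : ℝ) ^ ((3 : ℝ) / 2)

lemma summable_Z32 : Summable fun k : ℕ => 1 / (k : ℝ) ^ ((3 : ℝ) / 2) :=
  Real.summable_one_div_nat_rpow.2 (by norm_num)

lemma Z32_nonneg : 0 ≤ Z32 := tsum_nonneg fun k => by positivity

lemma ca_sqrt_le (D k : ℕ) : ca D k * Real.sqrt k ≤ D * (1 / (k : ℝ) ^ ((3 : ℝ) / 2)) := by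
  rcases Nat.eq_zero_or_pos k with h | h
  · subst h
    rw [ca_zero]
    simp only [Nat.cast_zero, zero_mul]
    positivity
  · have hk : (0 : ℝ) < k := by exact_mod_cast h
    have h1 : ca D k ≤ D / (k : ℝ) ^ 2 := by
      unfold ca
      refine div_le_div_of_nonneg_right ?_ (by positivity)
      have h2 : Real.sin (π * k / D) ^ 2 ≤ 1 := Real.sin_sq_le_one _
      have hpi := Real.pi_gt_three
      have h3 : 4 * (D : ℝ) / π ^ 2 ≤ D := by
        rw [div_le_iff₀ (by positivity)]
        have h4 : (0 : ℝ) ≤ D := Nat.cast_nonneg _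
        have h5 : 4 ≤ π ^ 2 := by nlinarith
        have h6 := mul_le_mul_of_nonneg_left h5 h4
        linarith
      calc 4 * (D : ℝ) / π ^ 2 * Real.sin (π * k / D) ^ 2 ≤ D * 1 := by gcongr
        _ = D := mul_one _
    have h2 : (k : ℝ) ^ 2 = (k : ℝ) ^ ((3 : ℝ) / 2) * Real.sqrt k := by
      rw [Real.sqrt_eq_rpow, ← Real.rpow_add hk]
      norm_num
    have hs : 0 < Real.sqrt k := Real.sqrt_pos.2 hk
    calc ca D k * Real.sqrt k ≤ D / (k : ℝ) ^ 2 * Real.sqrt k := by gcongr
      _ = _ := by rw [h2]; field_simp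

lemma summable_ca_sqrt (D : ℕ) : Summable fun k : ℕ => ca D k * Real.sqrt k :=
  Summable.of_nonneg_of_le (fun k => mul_nonneg (ca_nonneg D k) (Real.sqrt_nonneg _))
    (ca_sqrt_le D) (summable_Z32.mul_left _)

lemma sum_ca_sqrt_le (D : ℕ) : ∑' k, ca D k * Real.sqrt k ≤ D * Z32 := by
  unfold Z32
  rw [← tsum_mul_left]
  exact Summable.tsum_le_tsum (ca_sqrt_le D) (summable_ca_sqrt D) (summable_Z32.mul_left _)

end Pool.Agent.W66V
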