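import Mathlib
import Pool.Agent.W66.GA

set_option autoImplicit false

/-!
# The correlation integral for two linear phases
-/

namespace Pool.Agent.W66V

open Set MeasureTheory Filter Topology
open scoped Real

section

variable {Q : ℕ} {A β κ X : ℝ} (hQ : 1 ≤ Q) (hA : 1 ≤ A) (hβ : 1 ≤ β) (hX : 1 ≤ X)
  (hdio : ∀ a b : ℕ, 1 ≤ a → 1 ≤ b → 1 ≤ |(a : ℝ) - b * β| * (A * (a + b)))
include hQ hA hX

omit hX in
lemma QQ_le : (Q : ℝ) ≤ A * (Q : ℝ) ^ 3 := by
  have h1 : (1 : ℝ) ≤ Q := by exact_mod_cast hQ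
  have h2 : (Q : ℝ) ≤ (Q : ℝ) ^ 3 := by
    calc (Q : ℝ) = (Q : ℝ) ^ 1 := (pow_one _).symm
      _ ≤ _ := pow_le_pow_right₀ h1 (by norm_num)
  have h3 : (0 : ℝ) ≤ (Q : ℝ) ^ 3 := by positivity
  calc (Q : ℝ) ≤ (Q : ℝ) ^ 3 := h2
    _ = 1 * (Q : ℝ) ^ 3 := by ring
    _ ≤ _ := mul_le_mul_of_nonneg_right hA h3

lemma lin_one {a γ : ℝ} (ha : 2 / Q ≤ a) :
    |∫ x in X..(Real.exp 1 * X), Real.cos (a * x + γ) / x| ≤ Real.sqrt (A * Q ^ 3 / X) := by
  have hX0 : 0 < X := by linarith
  have hQ0 : (0 : ℝ) < Q := by exact_mod_cast hQ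
  have ha0 : 0 < a := lt_of_lt_of_le (by positivity) ha
  refine min_sqrt (by positivity) ?_ ?_
  · exact triv_window hX (f := fun x => Real.cos (a * x + γ)) (by fun_prop)
      fun x _ => Real.abs_cos_le_one _
  · refine (osc1 hX0 ha0.ne').trans (div_le_div_of_nonneg_right ?_ hX0.le)
    rw [abs_of_pos ha0]
    refine le_trans ?_ (QQ_le hQ hA)
    rw [div_le_iff₀ ha0]
    rw [div_le_iff₀ hQ0] at ha
    linarith

omit hX in
lemma freq_bound (hβ : 1 ≤ β) {D k : ℕ} (hD : 1 ≤ D) (hDQ : D ≤ Q) (hk : 1 ≤ k) :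
    2 / (Q : ℝ) ≤ 2 * π * k / D * β := by
  have hQ0 : (0 : ℝ) < Q := by exact_mod_cast hQ
  have hD0 : (0 : ℝ) < D := by exact_mod_cast hD
  have hk1 : (1 : ℝ) ≤ k := by exact_mod_cast hk
  have hQr : (D : ℝ) ≤ Q := by exact_mod_cast hDQ
  have hpi := Real.pi_gt_three
  have h1 : 2 ≤ 2 * π * k := by nlinarith
  have h2 : 2 / (Q : ℝ) ≤ 2 * π * k / D := div_le_div₀ (by positivity) h1 hD0 hQr
  have h3 : (0 : ℝ) ≤ 2 * π * k / D := by positivity
  calc 2 / (Q : ℝ) ≤ 2 * π * k / D := h2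
    _ = 2 * π * k / D * 1 := by ring
    _ ≤ _ := mul_le_mul_of_nonneg_left hβ h3

include hβ hdio

lemma mix_lin {D E k l : ℕ} (hD : 1 ≤ D) (hDQ : D ≤ Q) (hE : 1 ≤ E) (hEQ : E ≤ Q) (hk : 1 ≤ k)
    (hl : 1 ≤ l) (γ γ' : ℝ) :
    |∫ x in X..(Real.exp 1 * X), Real.cos (2 * π * k / D * x + γ) *
      Real.cos (2 * π * l / E * (β * x + κ) + γ') / x| ≤
      Real.sqrt k * (Real.sqrt l * Real.sqrt (A * Q ^ 3 / X)) := by
  have hX0 : 0 < X := by linarith
  have hQ0 : (0 : ℝ) < Q := by exact_mod_cast hQ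
  have hQ1 : (1 : ℝ) ≤ Q := by exact_mod_cast hQ
  have hD0 : (0 : ℝ) < D := by exact_mod_cast hD
  have hE0 : (0 : ℝ) < E := by exact_mod_cast hE
  have hD1 : (1 : ℝ) ≤ D := by exact_mod_cast hD
  have hE1 : (1 : ℝ) ≤ E := by exact_mod_cast hE
  have hDr : (D : ℝ) ≤ Q := by exact_mod_cast hDQ
  have hEr : (E : ℝ) ≤ Q := by exact_mod_cast hEQ
  have hk1 : (1 : ℝ) ≤ k := by exact_mod_cast hk
  have hl1 : (1 : ℝ) ≤ l := by exact_mod_cast hl
  have hpi := Real.pi_gt_three
  have hpi0 := Real.pi_pos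
  have e : ∀ x : ℝ, 2 * π * l / E * (β * x + κ) + γ' =
      (2 * π * l / E * β) * x + (2 * π * l / E * κ + γ') := by intro x; ring
  simp only [e]
  -- the difference frequency
  have hd := hdio (k * E) (l * D) (Nat.mul_pos (by omega) (by omega)) (Nat.mul_pos (by omega) (by omega))
  push_cast at hd
  set z := |(k : ℝ) * E - l * D * β| with hz
  have hz0 : 0 < z := by
    rcases (abs_nonneg ((k : ℝ) * E - l * D * β)).eq_or_lt with h | h
    · rw [hz, ← h] at hd; rw [zero_mul] at hd; linarith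
    · exact h
  have hdiff : 2 * π * k / D - 2 * π * l / E * β = 2 * π / (D * E) * ((k : ℝ) * E - l * D * β) := by
    field_simp
  have hab : |2 * π * k / D - 2 * π * l / E * β| = 2 * π / (D * E) * z := by
    rw [hdiff, abs_mul, abs_of_pos (by positivity : 0 < 2 * π / ((D : ℝ) * E))]
  have hne : 2 * π * k / D - 2 * π * l / E * β ≠ 0 := by
    rw [← abs_pos, hab]; positivity
  have hsum0 : 0 < 2 * π * k / D + 2 * π * l / E * β := by positivity
  refine (osc_prod1 hX (ne_of_gt hsum0) hne).trans ?_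
  rw [← Real.sqrt_mul (by positivity), ← Real.sqrt_mul (by positivity)]
  refine Real.sqrt_le_sqrt ?_
  have h1 : 1 / |2 * π * k / D + 2 * π * l / E * β| ≤ Q / 2 := by
    rw [abs_of_pos hsum0, div_le_iff₀ hsum0]
    have h2 := freq_bound hQ hA (β := 1) le_rfl hD hDQ hk
    have h3 : 0 ≤ 2 * π * l / E * β := by positivity
    rw [mul_one, div_le_iff₀ hQ0] at h2
    have h4 := mul_nonneg hQ0.le h3
    calc (1 : ℝ) ≤ Q / 2 * (2 * π * k / D) + Q / 2 * (2 * π * l / E * β) := by linarith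
      _ = _ := by ring
  have h2 : 1 / |2 * π * k / D - 2 * π * l / E * β| ≤ A * Q ^ 3 * (k + l) / 4 := by
    rw [hab, div_le_iff₀ (by positivity)]
    have h3 : (D : ℝ) * E ≤ Q ^ 2 := by
      rw [sq]; exact mul_le_mul hDr hEr hE0.le hQ0.le
    have h4 : (k : ℝ) * E + l * D ≤ Q * (k + l) := by
      have h5 := mul_le_mul_of_nonneg_left hEr (by linarith : (0 : ℝ) ≤ k)
      have h6 := mul_le_mul_of_nonneg_left hDr (by linarith : (0 : ℝ) ≤ l)
      linarith
    have h5 : 1 ≤ z * (A * (Q * (k + l))) := by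
      refine hd.trans (mul_le_mul_of_nonneg_left ?_ hz0.le)
      exact mul_le_mul_of_nonneg_left h4 (by linarith)
    have h6 : (D : ℝ) * E * 1 ≤ Q ^ 2 * (z * (A * (Q * (k + l)))) :=
      mul_le_mul h3 h5 zero_le_one (by positivity)
    have h7 : (1 : ℝ) ≤ Q ^ 2 * (z * (A * (Q * (k + l)))) / (D * E) := by
      rw [le_div_iff₀ (by positivity)]; linarith
    have h8 : A * Q ^ 3 * (k + l) / 4 * (2 * π / (D * E) * z) =
        π / 2 * (Q ^ 2 * (z * (A * (Q * (k + l)))) / (D * E)) := by ring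
    rw [h8]
    have h9 : 1 ≤ π / 2 := by linarith
    calc (1 : ℝ) = 1 * 1 := by ring
      _ ≤ _ := mul_le_mul h9 h7 zero_le_one (by positivity)
  have hAQ := QQ_le hQ hA
  have hkl : (k : ℝ) + l ≤ 2 * (k * l) := by
    have := mul_nonneg (by linarith : (0 : ℝ) ≤ k - 1) (by linarith : (0 : ℝ) ≤ l - 1)
    linarith [mul_nonneg (by linarith : (0 : ℝ) ≤ k - 1) (by linarith : (0 : ℝ) ≤ (l : ℝ)),
      mul_nonneg (by linarith : (0 : ℝ) ≤ l - 1) (by linarith : (0 : ℝ) ≤ (k : ℝ))]
  have hkl1 : (1 : ℝ) ≤ k * l := by nlinarith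
  have hAQ0 : (0 : ℝ) ≤ A * Q ^ 3 := by positivity
  have e2 : (k : ℝ) * (l * (A * Q ^ 3 / X)) = (A * Q ^ 3 * (k * l)) / X := by ring
  rw [e2]
  refine div_le_div_of_nonneg_right ?_ hX0.le
  have h10 : A * Q ^ 3 * (k + l) / 4 ≤ A * Q ^ 3 * (k * l) / 2 := by
    have := mul_le_mul_of_nonneg_left hkl hAQ0
    linarith
  have h11 : (Q : ℝ) / 2 ≤ A * Q ^ 3 * (k * l) / 2 := by
    have := mul_le_mul_of_nonneg_left hkl1 hAQ0
    linarith
  linarith

/-- the correlation integral for two linear phases -/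
theorem corr_lin {D E : ℕ} (hD : 1 ≤ D) (hDQ : D ≤ Q) (hE : 1 ≤ E) (hEQ : E ≤ Q) :
    |(∫ x in X..(Real.exp 1 * X), HD D x * HD E (β * x + κ) / x) - 4 / (D * E)| ≤
      (Q * (Z32 + 2)) ^ 2 * Real.sqrt (A * Q ^ 3 / X) := by
  have hX0 : 0 < X := by linarith
  have hle := exp_one_mul_le hX0
  have hD1 : (1 : ℝ) ≤ D := by exact_mod_cast hD
  have hE1 : (1 : ℝ) ≤ E := by exact_mod_cast hE
  have hDr : (D : ℝ) ≤ Q := by exact_mod_cast hDQ
  have hEr : (E : ℝ) ≤ Q := by exact_mod_cast hEQ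
  have hQ1 : (1 : ℝ) ≤ Q := by exact_mod_cast hQ
  set B := Real.sqrt (A * Q ^ 3 / X) with hB
  have hB0 : 0 ≤ B := Real.sqrt_nonneg _
  have hZ0 := Z32_nonneg
  set W := (Q : ℝ) * Z32 with hW
  have hW0 : 0 ≤ W := by positivity
  have hpos : ∀ x ∈ Icc X (Real.exp 1 * X), 0 < x := fun x hx => hX0.trans_le hx.1
  have hinv : ContinuousOn (fun x : ℝ => x⁻¹) (Icc X (Real.exp 1 * X)) :=
    continuousOn_inv₀.mono fun x hx => (hpos x hx).ne'
  have hinvle : ∀ x ∈ Icc X (Real.exp 1 * X), |x⁻¹| ≤ 1 := by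
    intro x hx
    rw [abs_of_pos (inv_pos.2 (hpos x hx))]
    exact inv_le_one_of_one_le₀ (hX.trans hx.1)
  have hc1 : ∀ F : ℝ → ℝ, Continuous F → ContinuousOn (fun x => F x / x) (Icc X (Real.exp 1 * X)) := by
    intro F hF
    simp only [div_eq_mul_inv]
    exact hF.continuousOn.mul hinv
  have hb1 : ∀ F : ℝ → ℝ, (∀ x, |F x| ≤ 1) → ∀ x ∈ Icc X (Real.exp 1 * X), |F x / x| ≤ 1 := by
    intro F hF x hx
    have h1 := abs3 (M := 1) (hF x) (b := 1) (by simp) (hinvle x hx)
    rwa [mul_one] at h1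
  -- first error
  have herr1 : |∫ x in X..(Real.exp 1 * X), ∑' k : ℕ, ca D k *
      (Real.cos (2 * π * k / D * x + -(π * k / D)) / x)| ≤ 2 * B := by
    refine (tsum_int (ca_nonneg D) (summable_ca D) hle (M := 1) (B := B)
      (fun k x => Real.cos (2 * π * k / D * x + -(π * k / D)) / x) ?_ ?_ ?_).trans ?_
    · intro k
      exact hc1 _ (by fun_prop)
    · intro k
      exact hb1 _ fun x => Real.abs_cos_le_one _
    · intro k hk
      have hk1 : 1 ≤ k := by
        rcases Nat.eq_zero_or_pos k with h | h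
        · rw [h] at hk; exact absurd (ca_zero D) hk
        · exact h
      refine lin_one hQ hA hX ?_
      have := freq_bound hQ hA (β := 1) le_rfl hD hDQ hk1
      rwa [mul_one] at this
    · exact mul_le_mul_of_nonneg_right (sum_ca_le hD) hB0
  -- inner integrals
  have hinner : ∀ l : ℕ, 1 ≤ l → |∫ x in X..(Real.exp 1 * X), HD D x *
      Real.cos (2 * π * l / E * (β * x + κ) + -(π * l / E)) / x| ≤ Real.sqrt l * ((W + 2) * B) := by
    intro l hl1
    have hsl : 1 ≤ Real.sqrt l := Real.one_le_sqrt.2 (by exact_mod_cast hl1)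
    have hcontH : ContinuousOn (fun x : ℝ => Real.cos (2 * π * l / E * (β * x + κ) + -(π * l / E)) / x)
        (Icc X (Real.exp 1 * X)) := hc1 _ (by fun_prop)
    have hi1 : IntervalIntegrable (fun x : ℝ => 2 / D *
        (Real.cos (2 * π * l / E * (β * x + κ) + -(π * l / E)) / x)) volume X (Real.exp 1 * X) :=
      (continuousOn_const.mul hcontH).intervalIntegrable_of_Icc hle
    have hct : ∀ k : ℕ, ContinuousOn (fun x : ℝ => Real.cos (2 * π * k / D * x + -(π * k / D)) *
          Real.cos (2 * π * l / E * (β * x + κ) + -(π * l / E)) / x) (Icc X (Real.exp 1 * X)) :=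
      fun k => hc1 (fun x => Real.cos (2 * π * k / D * x + -(π * k / D)) *
        Real.cos (2 * π * l / E * (β * x + κ) + -(π * l / E))) (by fun_prop)
    have hbt : ∀ k : ℕ, ∀ x ∈ Icc X (Real.exp 1 * X),
        |Real.cos (2 * π * k / D * x + -(π * k / D)) *
          Real.cos (2 * π * l / E * (β * x + κ) + -(π * l / E)) / x| ≤ 1 := by
      intro k x hx
      exact abs3 (Real.abs_cos_le_one _) (Real.abs_cos_le_one _) (hinvle x hx)
    have htail : ContinuousOn (fun x : ℝ => ∑' k : ℕ, ca D k *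
        (Real.cos (2 * π * k / D * x + -(π * k / D)) *
          Real.cos (2 * π * l / E * (β * x + κ) + -(π * l / E)) / x)) (Icc X (Real.exp 1 * X)) := by
      refine continuousOn_tsum (u := ca D) (fun k => continuousOn_const.mul (hct k)) (summable_ca D)
        fun k x hx => ?_
      rw [Real.norm_eq_abs, abs_mul, abs_of_nonneg (ca_nonneg D k)]
      have h5 := ca_nonneg D k
      calc ca D k * _ ≤ ca D k * 1 := mul_le_mul_of_nonneg_left (hbt k x hx) h5
        _ = _ := mul_one _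
    have hi2 := htail.intervalIntegrable_of_Icc (μ := volume) hle
    have e : ∫ x in X..(Real.exp 1 * X), HD D x *
        Real.cos (2 * π * l / E * (β * x + κ) + -(π * l / E)) / x =
        2 / D * (∫ x in X..(Real.exp 1 * X), Real.cos (2 * π * l / E * (β * x + κ) + -(π * l / E)) / x) +
        ∫ x in X..(Real.exp 1 * X), ∑' k : ℕ, ca D k * (Real.cos (2 * π * k / D * x + -(π * k / D)) *
          Real.cos (2 * π * l / E * (β * x + κ) + -(π * l / E)) / x) := by
      rw [← intervalIntegral.integral_const_mul, ← intervalIntegral.integral_add hi1 hi2]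
      refine intervalIntegral.integral_congr fun x _ => ?_
      simp only [HD]
      rw [add_mul, add_div, ← tsum_mul_right, ← tsum_div_const]
      congr 1
      · ring
      · refine tsum_congr fun k => ?_
        ring
    rw [e]
    have hA1 : |∫ x in X..(Real.exp 1 * X), Real.cos (2 * π * l / E * (β * x + κ) + -(π * l / E)) / x| ≤ B := by
      have e3 : ∀ x : ℝ, 2 * π * l / E * (β * x + κ) + -(π * l / E) =
        (2 * π * l / E * β) * x + (2 * π * l / E * κ + -(π * l / E)) := by intro x; ring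
      simp only [e3]
      exact lin_one hQ hA hX (freq_bound hQ hA hβ hE hEQ hl1)
    have hBt : |∫ x in X..(Real.exp 1 * X), ∑' k : ℕ, ca D k *
        (Real.cos (2 * π * k / D * x + -(π * k / D)) *
          Real.cos (2 * π * l / E * (β * x + κ) + -(π * l / E)) / x)| ≤ W * (Real.sqrt l * B) := by
      refine (tsum_int2 (s := fun k => Real.sqrt k) (ca_nonneg D) (summable_ca D) (summable_ca_sqrt D) hle
        (M := 1) (B := Real.sqrt l * B)
        (fun k x => Real.cos (2 * π * k / D * x + -(π * k / D)) *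
          Real.cos (2 * π * l / E * (β * x + κ) + -(π * l / E)) / x) hct hbt ?_).trans ?_
      · intro k hk
        have hk1 : 1 ≤ k := by
          rcases Nat.eq_zero_or_pos k with h | h
          · rw [h] at hk; exact absurd (ca_zero D) hk
          · exact h
        exact mix_lin hQ hA hβ hX hdio hD hDQ hE hEQ hk1 hl1 _ _
      · refine mul_le_mul_of_nonneg_right ((sum_ca_sqrt_le D).trans ?_) (by positivity)
        exact mul_le_mul_of_nonneg_right hDr hZ0
    have h2D : (2 : ℝ) / D ≤ 2 := by rw [div_le_iff₀ (by linarith)]; linarith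
    have h2D0 : (0 : ℝ) ≤ 2 / D := by positivity
    calc |2 / D * (∫ x in X..(Real.exp 1 * X), Real.cos (2 * π * l / E * (β * x + κ) + -(π * l / E)) / x) +
        ∫ x in X..(Real.exp 1 * X), ∑' k : ℕ, ca D k * (Real.cos (2 * π * k / D * x + -(π * k / D)) *
          Real.cos (2 * π * l / E * (β * x + κ) + -(π * l / E)) / x)| ≤
        2 / D * |∫ x in X..(Real.exp 1 * X), Real.cos (2 * π * l / E * (β * x + κ) + -(π * l / E)) / x| +
        |∫ x in X..(Real.exp 1 * X), ∑' k : ℕ, ca D k * (Real.cos (2 * π * k / D * x + -(π * k / D)) *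
          Real.cos (2 * π * l / E * (β * x + κ) + -(π * l / E)) / x)| := by
          refine (abs_add_le _ _).trans ?_
          rw [abs_mul, abs_of_nonneg h2D0]
      _ ≤ 2 * (1 * B) + W * (Real.sqrt l * B) := by
          rw [one_mul]; gcongr
      _ ≤ 2 * (Real.sqrt l * B) + W * (Real.sqrt l * B) := by gcongr
      _ = _ := by ring
  -- second error
  have hct2 : ∀ l : ℕ, ContinuousOn (fun x : ℝ => HD D x *
      Real.cos (2 * π * l / E * (β * x + κ) + -(π * l / E)) / x) (Icc X (Real.exp 1 * X)) :=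
    fun l => hc1 (fun x => HD D x * Real.cos (2 * π * l / E * (β * x + κ) + -(π * l / E)))
      ((HD_continuous D).mul (by fun_prop))
  have hbt2 : ∀ l : ℕ, ∀ x ∈ Icc X (Real.exp 1 * X), |HD D x *
      Real.cos (2 * π * l / E * (β * x + κ) + -(π * l / E)) / x| ≤ 4 := by
    intro l x hx
    exact abs3 (HD_abs_le D hD x) (Real.abs_cos_le_one _) (hinvle x hx)
  have herr2 : |∫ x in X..(Real.exp 1 * X), ∑' l : ℕ, ca E l * (HD D x *
      Real.cos (2 * π * l / E * (β * x + κ) + -(π * l / E)) / x)| ≤ W * ((W + 2) * B) := by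
    refine (tsum_int2 (s := fun l => Real.sqrt l) (ca_nonneg E) (summable_ca E) (summable_ca_sqrt E) hle
      (M := 4) (B := (W + 2) * B)
      (fun l x => HD D x * Real.cos (2 * π * l / E * (β * x + κ) + -(π * l / E)) / x)
      hct2 hbt2 ?_).trans ?_
    · intro l hl0
      have hl1 : 1 ≤ l := by
        rcases Nat.eq_zero_or_pos l with h | h
        · rw [h] at hl0; exact absurd (ca_zero E) hl0
        · exact h
      exact hinner l hl1
    · refine mul_le_mul_of_nonneg_right ((sum_ca_sqrt_le E).trans ?_) (by positivity)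
      exact mul_le_mul_of_nonneg_right hEr hZ0
  -- decomposition
  have hcontA : ContinuousOn (fun x : ℝ => ∑' k : ℕ, ca D k *
      (Real.cos (2 * π * k / D * x + -(π * k / D)) / x)) (Icc X (Real.exp 1 * X)) := by
    refine continuousOn_tsum (u := ca D) (fun k => continuousOn_const.mul (hc1 _ (by fun_prop)))
      (summable_ca D) fun k x hx => ?_
    rw [Real.norm_eq_abs, abs_mul, abs_of_nonneg (ca_nonneg D k)]
    have h5 := ca_nonneg D k
    calc ca D k * _ ≤ ca D k * 1 :=
          mul_le_mul_of_nonneg_left (hb1 _ (fun x => Real.abs_cos_le_one _) x hx) h5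
      _ = _ := mul_one _
  have hcontB : ContinuousOn (fun x : ℝ => ∑' l : ℕ, ca E l * (HD D x *
      Real.cos (2 * π * l / E * (β * x + κ) + -(π * l / E)) / x)) (Icc X (Real.exp 1 * X)) := by
    refine continuousOn_tsum (u := fun l => ca E l * 4) (fun l => continuousOn_const.mul (hct2 l))
      ((summable_ca E).mul_right 4) fun l x hx => ?_
    rw [Real.norm_eq_abs, abs_mul, abs_of_nonneg (ca_nonneg E l)]
    exact mul_le_mul_of_nonneg_left (hbt2 l x hx) (ca_nonneg E l)
  have hii : ∀ g : ℝ → ℝ, ContinuousOn g (Icc X (Real.exp 1 * X)) →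
      IntervalIntegrable g volume X (Real.exp 1 * X) := fun g hg => hg.intervalIntegrable_of_Icc hle
  have hone : ContinuousOn (fun x : ℝ => 1 / x) (Icc X (Real.exp 1 * X)) := hc1 _ continuous_const
  have hdec : ∫ x in X..(Real.exp 1 * X), HD D x * HD E (β * x + κ) / x =
      4 / (D * E) * (∫ x in X..(Real.exp 1 * X), 1 / x) +
      2 / E * (∫ x in X..(Real.exp 1 * X), ∑' k : ℕ, ca D k *
        (Real.cos (2 * π * k / D * x + -(π * k / D)) / x)) +
      ∫ x in X..(Real.exp 1 * X), ∑' l : ℕ, ca E l * (HD D x *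
        Real.cos (2 * π * l / E * (β * x + κ) + -(π * l / E)) / x) := by
    have j1 : IntervalIntegrable (fun x : ℝ => 4 / ((D : ℝ) * E) * (1 / x)) volume X (Real.exp 1 * X) :=
      hii _ (continuousOn_const.mul hone)
    have j2 : IntervalIntegrable (fun x : ℝ => 2 / (E : ℝ) * ∑' k : ℕ, ca D k *
        (Real.cos (2 * π * k / D * x + -(π * k / D)) / x)) volume X (Real.exp 1 * X) :=
      hii _ (continuousOn_const.mul hcontA)
    have j3 : IntervalIntegrable (fun x : ℝ => 4 / ((D : ℝ) * E) * (1 / x) + 2 / (E : ℝ) *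
        ∑' k : ℕ, ca D k * (Real.cos (2 * π * k / D * x + -(π * k / D)) / x)) volume X (Real.exp 1 * X) :=
      j1.add j2
    rw [← intervalIntegral.integral_const_mul, ← intervalIntegral.integral_const_mul,
      ← intervalIntegral.integral_add j1 j2, ← intervalIntegral.integral_add j3 (hii _ hcontB)]
    refine intervalIntegral.integral_congr fun x _ => ?_
    have e1 : HD E (β * x + κ) = 2 / E + ∑' l : ℕ, ca E l *
        Real.cos (2 * π * l / E * (β * x + κ) + -(π * l / E)) := rfl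
    have e2 : HD D x = 2 / D + ∑' k : ℕ, ca D k * Real.cos (2 * π * k / D * x + -(π * k / D)) := rfl
    have e3 : ∑' l : ℕ, ca E l * (HD D x *
        Real.cos (2 * π * l / E * (β * x + κ) + -(π * l / E)) / x) =
        HD D x / x * ∑' l : ℕ, ca E l * Real.cos (2 * π * l / E * (β * x + κ) + -(π * l / E)) := by
      rw [← tsum_mul_left]
      refine tsum_congr fun l => ?_
      ring
    have e4 : ∑' k : ℕ, ca D k * (Real.cos (2 * π * k / D * x + -(π * k / D)) / x) =
        1 / x * ∑' k : ℕ, ca D k * Real.cos (2 * π * k / D * x + -(π * k / D)) := by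
      rw [← tsum_mul_left]
      refine tsum_congr fun l => ?_
      ring
    rw [e3, e4, e1]
    conv_lhs => rw [mul_add]
    rw [add_div]
    have e5 : HD D x * (2 / E) / x = 4 / (D * E) * (1 / x) + 2 / E * (1 / x *
        ∑' k : ℕ, ca D k * Real.cos (2 * π * k / D * x + -(π * k / D))) := by
      rw [e2]
      generalize (∑' k : ℕ, ca D k * Real.cos (2 * π * k / D * x + -(π * k / D))) = T
      field_simp
      ring
    rw [e5]
    ring
  rw [hdec, integral_inv_window hX0]
  have h2E : (2 : ℝ) / E ≤ 2 := by rw [div_le_iff₀ (by linarith)]; linarith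
  have h2E0 : (0 : ℝ) ≤ 2 / E := by positivity
  have e6 : ∀ a b : ℝ, 4 / ((D : ℝ) * E) * 1 + 2 / E * a + b - 4 / (D * E) = 2 / E * a + b := by
    intro a b; ring
  rw [e6]
  refine (abs_add_le _ _).trans ?_
  rw [abs_mul, abs_of_nonneg h2E0]
  have h7 : W + 2 ≤ Q * (Z32 + 2) := by rw [hW]; linarith
  have h8 : (W + 2) ^ 2 ≤ (Q * (Z32 + 2)) ^ 2 := pow_le_pow_left₀ (by positivity) h7 2
  calc _ ≤ 2 * (2 * B) + W * ((W + 2) * B) := by gcongr
    _ ≤ (W + 2) ^ 2 * B := by
        have := mul_nonneg hW0 hB0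
        have e7 : (W + 2) ^ 2 * B = 2 * (2 * B) + W * ((W + 2) * B) + 2 * (W * B) := by ring
        rw [e7]; linarith
    _ ≤ _ := mul_le_mul_of_nonneg_right h8 hB0

end

end Pool.Agent.W66V
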