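import Mathlib
import Pool.Agent.Helper112.PairSieve

set_option autoImplicit false

/-!
# Two linear forms free of medium primes
-/

namespace Pool.Agent.W66

open Finset Pool.Agent.Helper112.E456.SieveAux

/-- upper bound for the number of `n ≤ N` such that two linear forms have no prime factor
`ℓ ≤ N ^ (1/8)` outside a given set -/
theorem sift_two : ∃ C : ℝ, 0 < C ∧ ∀ a₁ b₁ a₂ b₂ N M : ℕ, 0 < a₁ → 0 < a₂ → 2 ∣ M → M ≠ 0 →
    DD a₁ b₁ a₂ b₂ ∣ M → 2 ≤ N → ∀ S : Finset ℕ, S ⊆ Icc 1 N →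
    (∀ n ∈ S, ∀ l : ℕ, l.Prime → (l : ℝ) ≤ (N : ℝ) ^ ((1 : ℝ) / 8) → ¬ l ∣ M →
      ¬ l ∣ a₁ * n + b₁ ∧ ¬ l ∣ a₂ * n + b₂) →
    (S.card : ℝ) ≤ C * ((M : ℝ) / (Nat.totient M : ℝ)) ^ 2 * N / (Real.log N) ^ 2 := by
  refine ⟨4160, by norm_num, ?_⟩
  intro a₁ b₁ a₂ b₂ N M ha₁ ha₂ hM2 hM0 hDM hN S hS hSl
  have hNR : (2 : ℝ) ≤ N := by exact_mod_cast hN
  have hN0 : (0 : ℝ) < N := by linarith
  have hlog : 0 < Real.log N := Real.log_pos (by linarith)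
  set X := ⌊(N : ℝ) ^ ((1 : ℝ) / 16)⌋₊ with hX
  have hX1 : 1 ≤ X := by
    rw [hX, Nat.one_le_floor_iff]
    exact Real.one_le_rpow (by linarith) (by norm_num)
  have hXle : (X : ℝ) ≤ (N : ℝ) ^ ((1 : ℝ) / 16) := Nat.floor_le (by positivity)
  have hXlt : (N : ℝ) ^ ((1 : ℝ) / 16) < X + 1 := Nat.lt_floor_add_one _
  have hlogX : Real.log N / 16 ≤ Real.log (X + 1) := by
    have h1 := Real.log_le_log (by positivity) hXlt.le
    rw [Real.log_rpow hN0] at h1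
    linarith
  set R := X ^ 2 with hR
  have hR1 : 1 ≤ R := Nat.one_le_pow _ _ hX1
  have hRr : (R : ℝ) = (X : ℝ) ^ 2 := by rw [hR]; push_cast; ring
  have hRN : (R : ℝ) ≤ (N : ℝ) ^ ((1 : ℝ) / 8) := by
    rw [hRr]
    calc (X : ℝ) ^ 2 ≤ ((N : ℝ) ^ ((1 : ℝ) / 16)) ^ 2 := by gcongr
      _ = (N : ℝ) ^ ((1 : ℝ) / 8) := by
          rw [← Real.rpow_natCast, ← Real.rpow_mul hN0.le]; norm_num
  set s := sv a₁ b₁ a₂ b₂ N R M hM2 with hs
  -- main Selberg bound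
  have hsel := selberg_bound (s := s) R hR1 (A := R) (B := (R : ℝ) ^ 2) (by positivity) (by positivity)
    (by
      intro d hd hdR
      refine (g_div_nu_le hM2 (Nat.dvd_of_mem_divisors hd)).trans ?_
      exact_mod_cast hdR)
    (by
      intro d hd hdR
      refine (rem_le hM2 ha₁ ha₂ hDM (Nat.dvd_of_mem_divisors hd)).trans ?_
      exact_mod_cast hdR)
  have hcard : (S.card : ℝ) ≤ s.siftedSum := by
    rw [hs, siftedSum_eq hM2 ha₁ ha₂]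
    have h1 : S ⊆ (Icc 1 N).filter (fun n => Nat.Coprime (PR R M) (ff a₁ b₁ a₂ b₂ n)) := by
      intro n hn
      rw [mem_filter]
      refine ⟨hS hn, ?_⟩
      rw [Nat.coprime_iff_gcd_eq_one]
      by_contra h
      obtain ⟨p, hp, hpd⟩ := Nat.exists_prime_and_dvd h
      have h2 : p ∣ PR R M := hpd.trans (Nat.gcd_dvd_left _ _)
      have h3 : p ∣ ff a₁ b₁ a₂ b₂ n := hpd.trans (Nat.gcd_dvd_right _ _)
      have hpR := (prime_dvd_PR hp).1 h2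
      have hpR' : (p : ℝ) ≤ (N : ℝ) ^ ((1 : ℝ) / 8) := by
        refine le_trans ?_ hRN
        exact_mod_cast hpR.1
      have h5 := hSl n hn p hp hpR' hpR.2
      unfold ff at h3
      rcases (Nat.Prime.dvd_mul hp).1 h3 with h4 | h4
      · exact h5.1 h4
      · exact h5.2 h4
    exact_mod_cast Finset.card_le_card h1
  -- lower bound for J
  have hJ1 := JJ_lower (a₁ := a₁) (b₁ := b₁) (a₂ := a₂) (b₂ := b₂) (N := N) (X := X) hM2
  have hU := U_lower X M hM0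
  have hUs := U_sq X M
  have hJpos : 0 < JJ s R := JJ_pos R hR1
  have htotM : (0 : ℝ) < Nat.totient M := by exact_mod_cast Nat.totient_pos.2 (Nat.pos_of_ne_zero hM0)
  set G := (M : ℝ) / (Nat.totient M : ℝ) with hG
  have hG1 : 1 ≤ G := by
    rw [hG, one_le_div htotM]
    exact_mod_cast Nat.totient_le M
  have hU0 : 0 ≤ U X M := Finset.sum_nonneg fun _ _ => by positivity
  have hU2 : Real.log N ≤ 32 * G * U X M := by
    linarith
  have hJ2 : (Real.log N) ^ 2 ≤ 2048 * G ^ 2 * JJ s R := by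
    calc (Real.log N) ^ 2 ≤ (32 * G * U X M) ^ 2 := by gcongr
      _ = 1024 * G ^ 2 * (U X M) ^ 2 := by ring
      _ ≤ 1024 * G ^ 2 * (2 * JJ s R) := by
          gcongr
          refine hUs.trans ?_
          linarith
      _ = _ := by ring
  have hmain : s.totalMass / JJ s R ≤ 2048 * G ^ 2 * N / (Real.log N) ^ 2 := by
    show (N : ℝ) / JJ s R ≤ _
    rw [div_le_div_iff₀ hJpos (by positivity)]
    calc (N : ℝ) * (Real.log N) ^ 2 ≤ N * (2048 * G ^ 2 * JJ s R) := by gcongr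
      _ = _ := by ring
  -- error terms
  have hlog8 : (Real.log N) ^ 2 ≤ 64 * (N : ℝ) ^ ((1 : ℝ) / 4) := by
    have h1 : Real.log N ≤ (N : ℝ) ^ ((1 : ℝ) / 8) / (1 / 8) :=
      Real.log_le_rpow_div hN0.le (by norm_num)
    calc (Real.log N) ^ 2 ≤ ((N : ℝ) ^ ((1 : ℝ) / 8) / (1 / 8)) ^ 2 := by gcongr
      _ = 64 * ((N : ℝ) ^ ((1 : ℝ) / 8)) ^ 2 := by ring
      _ = 64 * (N : ℝ) ^ ((1 : ℝ) / 4) := by
          rw [← Real.rpow_natCast, ← Real.rpow_mul hN0.le]; norm_num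
  have hX12 : (X : ℝ) ^ 12 ≤ (N : ℝ) ^ ((3 : ℝ) / 4) := by
    calc (X : ℝ) ^ 12 ≤ ((N : ℝ) ^ ((1 : ℝ) / 16)) ^ 12 := by gcongr
      _ = (N : ℝ) ^ ((3 : ℝ) / 4) := by
          rw [← Real.rpow_natCast, ← Real.rpow_mul hN0.le]; norm_num
  have herr : (N : ℝ) ^ ((3 : ℝ) / 4) ≤ 64 * G ^ 2 * N / (Real.log N) ^ 2 := by
    rw [le_div_iff₀ (by positivity)]
    calc (N : ℝ) ^ ((3 : ℝ) / 4) * (Real.log N) ^ 2
        ≤ (N : ℝ) ^ ((3 : ℝ) / 4) * (64 * (N : ℝ) ^ ((1 : ℝ) / 4)) := by gcongr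
      _ = 64 * ((N : ℝ) ^ ((3 : ℝ) / 4) * (N : ℝ) ^ ((1 : ℝ) / 4)) := by ring
      _ = 64 * N := by
          rw [← Real.rpow_add hN0]; norm_num
      _ ≤ 64 * G ^ 2 * N := by
          have : 1 ≤ G ^ 2 := one_le_pow₀ hG1
          nlinarith
  have he2 : (R : ℝ) ^ 2 * ((R : ℝ) * R) ^ 2 ≤ (N : ℝ) ^ ((3 : ℝ) / 4) := by
    rw [hRr]
    calc ((X : ℝ) ^ 2) ^ 2 * ((X : ℝ) ^ 2 * (X : ℝ) ^ 2) ^ 2 = (X : ℝ) ^ 12 := by ring
      _ ≤ _ := hX12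
  calc (S.card : ℝ) ≤ s.siftedSum := hcard
    _ ≤ 2048 * G ^ 2 * N / (Real.log N) ^ 2 + (N : ℝ) ^ ((3 : ℝ) / 4) := by
        linarith
    _ ≤ 2048 * G ^ 2 * N / (Real.log N) ^ 2 + 64 * G ^ 2 * N / (Real.log N) ^ 2 := by linarith
    _ = 2112 * G ^ 2 * N / (Real.log N) ^ 2 := by ring
    _ ≤ 4160 * G ^ 2 * N / (Real.log N) ^ 2 := by
        gcongr
        norm_num

end Pool.Agent.W66
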