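import Mathlib
import Pool.Agent.W66.RA
import Pool.Agent.H305R2.AE2

set_option autoImplicit false

/-!
# The modulus `primorial q * (b ^ h * r)`
-/

namespace Pool.Agent.W66

open Finset Filter Topology
open Pool.Agent.H305R2 (VV VV_tendsto VV_nonneg log_nat_tendsto)

lemma VV_le_log : ∃ C : ℝ, 0 < C ∧ ∀ᶠ q : ℕ in atTop, VV q ≤ C * Real.log q := by
  refine ⟨Real.exp Real.eulerMascheroniConstant + 1, by positivity, ?_⟩
  filter_upwards [VV_tendsto.eventually_lt_const (lt_add_one _),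
    log_nat_tendsto.eventually_ge_atTop 1] with q hq hl
  rw [div_lt_iff₀ (by linarith)] at hq
  exact hq.le

lemma inv_factor_le {l : ℕ} (hl : 2 ≤ l) : (1 - (l : ℝ)⁻¹)⁻¹ ≤ Real.exp (2 / l) := by
  have h2 : (2 : ℝ) ≤ l := by exact_mod_cast hl
  have h0 : (0 : ℝ) < l := by linarith
  have hx : (l : ℝ)⁻¹ ≤ 1 / 2 := by rw [← one_div]; exact one_div_le_one_div_of_le (by norm_num) h2
  have hx0 : 0 < (l : ℝ)⁻¹ := by positivity
  have h1 : (1 - (l : ℝ)⁻¹)⁻¹ ≤ 1 + 2 * (l : ℝ)⁻¹ := by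
    rw [inv_le_iff_one_le_mul₀ (by linarith)]
    nlinarith
  refine h1.trans ?_
  have := Real.add_one_le_exp (2 / (l : ℝ))
  rw [div_eq_mul_inv] at this ⊢
  linarith

/-- the modulus -/
def MM (q b h r : ℕ) : ℕ := primorial q * (b ^ h * r)

lemma MM_ne {q b h r : ℕ} (hb : 2 ≤ b) (hr : 0 < r) : MM q b h r ≠ 0 := by
  unfold MM
  have h1 : 0 < primorial q := primorial_pos q
  have h2 : 0 < b ^ h := by positivity
  positivity

lemma dvd_primorial {q l : ℕ} (hl : l.Prime) (hlq : l ≤ q) : l ∣ primorial q := by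
  unfold primorial
  exact Finset.dvd_prod_of_mem _ (by rw [mem_filter, mem_range]; exact ⟨by omega, hl⟩)

lemma le_of_dvd_primorial {q l : ℕ} (hl : l.Prime) (h : l ∣ primorial q) : l ≤ q := by
  unfold primorial at h
  obtain ⟨m, hm, hd⟩ := (Prime.dvd_finsetProd_iff hl.prime _).1 h
  rw [mem_filter, mem_range] at hm
  have := (Nat.prime_dvd_prime_iff_eq hl hm.2).1 hd
  omega

lemma two_dvd_MM {q b h r : ℕ} (hq : 2 ≤ q) : 2 ∣ MM q b h r :=
  (dvd_primorial Nat.prime_two hq).mul_right _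

lemma lt_of_not_dvd_MM {q b h r l : ℕ} (hl : l.Prime) (h : ¬ l ∣ MM q b h r) : q < l := by
  by_contra hc
  push Not at hc
  exact h ((dvd_primorial hl hc).mul_right _)

lemma ratio_bound {b : ℕ} (hb : 2 ≤ b) : ∃ C : ℝ, 0 < C ∧ ∀ᶠ q : ℕ in atTop, ∀ h r : ℕ,
    h ≤ q → 0 < r → r < b ^ h →
    ((MM q b h r : ℕ) : ℝ) / (Nat.totient (MM q b h r) : ℝ) ≤ C * Real.log q := by
  obtain ⟨C, hC, hV⟩ := VV_le_log
  refine ⟨C * Real.exp (2 * Real.log b), by positivity, ?_⟩
  filter_upwards [hV, log_nat_tendsto.eventually_ge_atTop 1, eventually_ge_atTop b,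
    eventually_ge_atTop 2] with q hVq hlq hbq hq2 h r hhq hr hrb
  set M := MM q b h r with hM
  have hM0 : M ≠ 0 := MM_ne hb hr
  have hq0 : (0 : ℝ) < q := by positivity
  have hlb : 0 < Real.log b := Real.log_pos (by exact_mod_cast hb)
  -- formula
  have hφ : (Nat.totient M : ℝ) = M * ∏ p ∈ M.primeFactors, (1 - (p : ℝ)⁻¹) := by
    have h1 := Nat.totient_eq_mul_prod_factors M
    have h2 : ((Nat.totient M : ℚ) : ℝ) =
        ((M * ∏ p ∈ M.primeFactors, (1 - (p : ℚ)⁻¹) : ℚ) : ℝ) := by rw [h1]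
    push_cast at h2
    exact h2
  have hMr : (M : ℝ) ≠ 0 := by exact_mod_cast hM0
  have hratio : (M : ℝ) / (Nat.totient M : ℝ) = ∏ p ∈ M.primeFactors, (1 - (p : ℝ)⁻¹)⁻¹ := by
    rw [hφ, Finset.prod_inv_distrib, div_mul_eq_div_div, div_self hMr, one_div]
  have hfac1 : ∀ p : ℕ, p.Prime → 1 ≤ (1 - (p : ℝ)⁻¹)⁻¹ := by
    intro p hp
    have h2 : (2 : ℝ) ≤ p := by exact_mod_cast hp.two_le
    have hx : (p : ℝ)⁻¹ ≤ 1 / 2 := by rw [← one_div]; exact one_div_le_one_div_of_le (by norm_num) h2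
    have hx0 : 0 < (p : ℝ)⁻¹ := by positivity
    exact (one_le_inv₀ (by linarith)).2 (by linarith)
  rw [hratio]
  set A := (Icc 1 q).filter Nat.Prime with hA
  set B := r.primeFactors.filter (fun l => q < l) with hB
  have hsub : M.primeFactors ⊆ A ∪ B := by
    intro l hl
    have hlp := Nat.prime_of_mem_primeFactors hl
    have hld := Nat.dvd_of_mem_primeFactors hl
    rw [mem_union, hA, mem_filter, mem_Icc, hB, mem_filter, Nat.mem_primeFactors]
    by_cases hlq' : l ≤ q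
    · left; exact ⟨⟨hlp.one_lt.le, hlq'⟩, hlp⟩
    · right
      rw [hM, MM] at hld
      rcases (Nat.Prime.dvd_mul hlp).1 hld with h1 | h1
      · exact absurd (le_of_dvd_primorial hlp h1) hlq'
      · rcases (Nat.Prime.dvd_mul hlp).1 h1 with h2 | h2
        · have h3 := Nat.le_of_dvd (by omega) (hlp.dvd_of_dvd_pow h2)
          omega
        · exact ⟨⟨hlp, h2, hr.ne'⟩, by omega⟩
  have hdisj : Disjoint A B := by
    rw [Finset.disjoint_left]
    intro l h1 h2
    rw [hA, mem_filter, mem_Icc] at h1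
    rw [hB, mem_filter] at h2
    omega
  have hAB : ∀ p ∈ A ∪ B, p.Prime := by
    intro p hp
    rw [mem_union] at hp
    rcases hp with hp | hp
    · exact (mem_filter.1 hp).2
    · exact Nat.prime_of_mem_primeFactors (mem_filter.1 hp).1
  have h1 : ∏ p ∈ M.primeFactors, (1 - (p : ℝ)⁻¹)⁻¹ ≤ ∏ p ∈ A ∪ B, (1 - (p : ℝ)⁻¹)⁻¹ := by
    refine Finset.prod_le_prod_of_subset_of_one_le hsub ?_ ?_
    · intro p hp
      have := hfac1 p (Nat.prime_of_mem_primeFactors hp)
      linarith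
    · intro p hp _
      exact hfac1 p (hAB p hp)
  rw [Finset.prod_union hdisj] at h1
  have hVA : ∏ p ∈ A, (1 - (p : ℝ)⁻¹)⁻¹ = VV q := rfl
  rw [hVA] at h1
  have h2 : ∏ p ∈ B, (1 - (p : ℝ)⁻¹)⁻¹ ≤ Real.exp (2 / q) ^ B.card := by
    rw [← Finset.prod_const]
    refine Finset.prod_le_prod ?_ ?_
    · intro p hp
      have := hfac1 p (Nat.prime_of_mem_primeFactors (mem_filter.1 hp).1)
      linarith
    · intro p hp
      have hp' := mem_filter.1 hp
      refine (inv_factor_le (by have := (Nat.prime_of_mem_primeFactors hp'.1).two_le; omega)).trans ?_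
      rw [Real.exp_le_exp]
      refine div_le_div_of_nonneg_left (by norm_num) hq0 ?_
      exact_mod_cast hp'.2.le
  have h3 : q ^ B.card ≤ r := by
    calc q ^ B.card ≤ ∏ l ∈ B, l := by
          rw [← Finset.prod_const]
          exact Finset.prod_le_prod' fun l hl => (mem_filter.1 hl).2.le
      _ ≤ ∏ l ∈ r.primeFactors, l := by
          refine Finset.prod_le_prod_of_subset_of_one_le' (filter_subset _ _) ?_
          intro l hl _
          exact (Nat.prime_of_mem_primeFactors hl).one_lt.le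
      _ ≤ r := Nat.le_of_dvd hr (Nat.prod_primeFactors_dvd r)
  have h4 : (B.card : ℝ) * Real.log q ≤ h * Real.log b := by
    rw [← Real.log_pow, ← Real.log_pow]
    refine Real.log_le_log (by positivity) ?_
    exact_mod_cast h3.trans hrb.le
  have h5 : Real.exp (2 / q) ^ B.card ≤ Real.exp (2 * Real.log b) := by
    rw [← Real.exp_nat_mul, Real.exp_le_exp]
    have hhq' : (h : ℝ) ≤ q := by exact_mod_cast hhq
    have h6 : (B.card : ℝ) ≤ q * Real.log b := by
      have hc : (0 : ℝ) ≤ B.card := Nat.cast_nonneg _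
      calc (B.card : ℝ) ≤ B.card * Real.log q := by nlinarith
        _ ≤ h * Real.log b := h4
        _ ≤ q * Real.log b := by gcongr
    calc (B.card : ℝ) * (2 / q) ≤ (q * Real.log b) * (2 / q) := by gcongr
      _ = 2 * Real.log b := by field_simp
  have hV0 := VV_nonneg q
  calc ∏ p ∈ M.primeFactors, (1 - (p : ℝ)⁻¹)⁻¹ ≤ VV q * ∏ p ∈ B, (1 - (p : ℝ)⁻¹)⁻¹ := h1
    _ ≤ VV q * Real.exp (2 * Real.log b) := mul_le_mul_of_nonneg_left (h2.trans h5) hV0
    _ ≤ (C * Real.log q) * Real.exp (2 * Real.log b) := by gcongr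
    _ = _ := by ring

end Pool.Agent.W66
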