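import Mathlib
import Pool.Agent.W66.RB
import Pool.Agent.H305R2.Mean

set_option autoImplicit false

/-!
# Auxiliary lemmas for the near pairs
-/

namespace Pool.Agent.W66

open Finset Filter Topology MeasureTheory
open Pool.Agent.H305R2 (roughPart roughPart_prime roughPart_mul SM SM_pos SMz mem_SMz ZZ tail_le ZZ_nonneg
  ff NN measurable_ff measurable_NN ff_nonneg ff_le_one integrableOn_ff)

/-- few integers have a large smooth part and prime rough part -/
lemma large_smooth_count (p X : ℕ) {S : ℝ} (hS : 0 < S) :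
    (((Icc 1 X).filter (fun m => (roughPart p m).Prime ∧
      S ≤ ((m / roughPart p m : ℕ) : ℝ))).card : ℝ) ≤ X * (S ^ (-(1 / 2) : ℝ) * ZZ p) := by
  classical
  set T := (SMz p X).filter (fun s : ℕ => S ≤ (s : ℝ)) with hT
  have hTm : ∀ n ∈ T, n ∈ SM p ∧ S ≤ (n : ℝ) := by
    intro n hn
    rw [hT, mem_filter, mem_SMz (by positivity)] at hn
    exact ⟨hn.1.1, hn.2⟩
  have hsub : (Icc 1 X).filter (fun m => (roughPart p m).Prime ∧
      S ≤ ((m / roughPart p m : ℕ) : ℝ)) ⊆ T.biUnion (fun s => (Icc 1 X).filter (fun m => s ∣ m)) := by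
    intro m hm
    rw [mem_filter, mem_Icc] at hm
    obtain ⟨⟨hm1, hmX⟩, hpr, hSm⟩ := hm
    obtain ⟨_, s, hs, he⟩ := roughPart_prime hpr
    have hdiv : m / roughPart p m = s := Nat.div_eq_of_eq_mul_left hpr.pos he
    rw [hdiv] at hSm
    have hsd : s ∣ m := ⟨_, he⟩
    rw [mem_biUnion]
    refine ⟨s, ?_, ?_⟩
    · rw [hT, mem_filter, mem_SMz (by positivity)]
      refine ⟨⟨hs, ?_⟩, hSm⟩
      exact_mod_cast (Nat.le_of_dvd hm1 hsd).trans hmX
    · rw [mem_filter, mem_Icc]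
      exact ⟨⟨hm1, hmX⟩, hsd⟩
  have hcard : ∀ s ∈ T, (((Icc 1 X).filter (fun m => s ∣ m)).card : ℝ) ≤ X * (s : ℝ)⁻¹ := by
    intro s hs
    have e : (Icc 1 X).filter (fun m => s ∣ m) = (Ioc 0 X).filter (fun m => s ∣ m) := by
      ext m; simp only [mem_filter, mem_Icc, mem_Ioc]; omega
    rw [e, Nat.Ioc_filter_dvd_card_eq_div, ← div_eq_mul_inv]
    exact Nat.cast_div_le
  calc _ ≤ ((T.biUnion (fun s => (Icc 1 X).filter (fun m => s ∣ m))).card : ℝ) := by
        exact_mod_cast Finset.card_le_card hsub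
    _ ≤ ∑ s ∈ T, (((Icc 1 X).filter (fun m => s ∣ m)).card : ℝ) := by
        exact_mod_cast Finset.card_biUnion_le
    _ ≤ ∑ s ∈ T, X * (s : ℝ)⁻¹ := Finset.sum_le_sum hcard
    _ = X * ∑ s ∈ T, (s : ℝ)⁻¹ := by rw [Finset.mul_sum]
    _ ≤ _ := mul_le_mul_of_nonneg_left (tail_le p hS T hTm) (by positivity)

/-- an integer with prime rough part and small smooth part has no medium prime factor -/
lemma no_mid_prime {p m l : ℕ} {S z : ℝ} (hpr : (roughPart p m).Prime)
    (hs : ((m / roughPart p m : ℕ) : ℝ) < S) (hzS : z * S ≤ m) (hl : l.Prime) (hpl : p < l)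
    (hlz : (l : ℝ) ≤ z) : ¬ l ∣ m := by
  intro hd
  obtain ⟨_, s, hsm, he⟩ := roughPart_prime hpr
  have hdiv : m / roughPart p m = s := Nat.div_eq_of_eq_mul_left hpr.pos he
  rw [hdiv] at hs
  rw [he] at hd
  rcases (Nat.Prime.dvd_mul hl).1 hd with h1 | h1
  · have := hsm.2 l ((Nat.mem_primeFactorsList (SM_pos hsm).ne').2 ⟨hl, h1⟩)
    omega
  · have h2 := (Nat.prime_dvd_prime_iff_eq hl hpr).1 h1
    have hl0 : (0 : ℝ) < l := by exact_mod_cast hl.pos
    have hS0 : 0 < S := lt_of_le_of_lt (Nat.cast_nonneg s) hs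
    have h3 : (m : ℝ) < S * z := by
      have h4 : (m : ℝ) = s * l := by rw [h2]; exact_mod_cast he
      rw [h4]
      calc (s : ℝ) * l < S * l := mul_lt_mul_of_pos_right hs hl0
        _ ≤ S * z := mul_le_mul_of_nonneg_left hlz hS0.le
    linarith

lemma NN_bounds (y : ℝ) : (NN y : ℝ) < Real.exp y ∧ Real.exp y ≤ NN y + 1 := by
  have h0 : 0 < ⌈Real.exp y⌉₊ := Nat.ceil_pos.2 (Real.exp_pos y)
  have e : NN y + 1 = ⌈Real.exp y⌉₊ := by unfold NN; omega
  constructor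
  · have h1 : NN y < ⌈Real.exp y⌉₊ := by omega
    exact Nat.lt_ceil.1 h1
  · have h1 : Real.exp y ≤ ((NN y + 1 : ℕ) : ℝ) := by rw [e]; exact Nat.le_ceil _
    push_cast at h1
    exact h1

lemma NN_eq_of {y : ℝ} {m : ℕ} (h1 : (m : ℝ) < Real.exp y) (h2 : Real.exp y ≤ m + 1) : NN y = m := by
  obtain ⟨h3, h4⟩ := NN_bounds y
  have h5 : m < NN y + 1 := by
    have : (m : ℝ) < ((NN y + 1 : ℕ) : ℝ) := by push_cast; linarith
    exact_mod_cast this
  have h6 : NN y < m + 1 := by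
    have : (NN y : ℝ) < ((m + 1 : ℕ) : ℝ) := by push_cast; linarith
    exact_mod_cast this
  omega

lemma exp_add_nat_log {b : ℕ} (hb : 2 ≤ b) (y : ℝ) (h : ℕ) :
    Real.exp (y + h * Real.log b) = (b : ℝ) ^ h * Real.exp y := by
  have hb0 : (0 : ℝ) < b := by positivity
  rw [Real.exp_add, ← Real.log_pow, Real.exp_log (by positivity), mul_comm]

/-- the digit-shift identity -/
lemma NN_div {b : ℕ} (hb : 2 ≤ b) (y : ℝ) (h : ℕ) :
    NN (y + h * Real.log b) / b ^ h = NN y := by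
  obtain ⟨h1, h2⟩ := NN_bounds y
  obtain ⟨h3, h4⟩ := NN_bounds (y + h * Real.log b)
  rw [exp_add_nat_log hb] at h3 h4
  have hB : (0 : ℝ) < (b : ℝ) ^ h := by positivity
  have h5 : b ^ h * NN y < NN (y + h * Real.log b) + 1 := by
    have : (((b ^ h * NN y : ℕ)) : ℝ) < ((NN (y + h * Real.log b) + 1 : ℕ) : ℝ) := by
      push_cast
      calc (b : ℝ) ^ h * NN y < (b : ℝ) ^ h * Real.exp y := mul_lt_mul_of_pos_left h1 hB
        _ ≤ _ := h4
    exact_mod_cast this
  have h6 : NN (y + h * Real.log b) < b ^ h * (NN y + 1) := by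
    have : ((NN (y + h * Real.log b) : ℕ) : ℝ) < ((b ^ h * (NN y + 1) : ℕ) : ℝ) := by
      push_cast
      calc (NN (y + h * Real.log b) : ℝ) < (b : ℝ) ^ h * Real.exp y := h3
        _ ≤ (b : ℝ) ^ h * (NN y + 1) := mul_le_mul_of_nonneg_left h2 hB.le
    exact_mod_cast this
  rw [Nat.div_eq_iff (by positivity)]
  constructor
  · rw [mul_comm]; omega
  · have h7 : 0 < b ^ h := by positivity
    have h8 : (NN y + 1) * b ^ h = b ^ h * (NN y + 1) := mul_comm _ _
    have h9 : (NN y + 1) * b ^ h = NN y * b ^ h + b ^ h := by ring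
    omega

end Pool.Agent.W66
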