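import Mathlib
import Pool.Agent.W66.RC

set_option autoImplicit false

/-!
# Near pairs: the sieve for a fixed residue
-/

namespace Pool.Agent.W66

open Finset Filter Topology MeasureTheory
open Pool.Agent.H305R2 (roughPart roughPart_prime SM SM_pos ZZ ZZ_nonneg
  ff NN measurable_ff measurable_NN ff_nonneg ff_le_one integrableOn_ff log_nat_tendsto)
open Pool.Agent.Helper112.E456.SieveAux (DD)

lemma exp_half_facts {Y : ℝ} (hY : 8 ≤ Y) :
    Real.exp (3 * Y / 4) + 1 ≤ Real.exp Y ∧ Real.exp (Y + 1) + 1 ≤ Real.exp (2 * Y) ∧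
      Real.exp (Y + 1) + 1 ≤ 3 * Real.exp Y := by
  have h1 : Real.exp Y = Real.exp (3 * Y / 4) * Real.exp (Y / 4) := by
    rw [← Real.exp_add]; ring_nf
  have h2 : (2 : ℝ) ≤ Real.exp (Y / 4) := by
    have := Real.add_one_le_exp (Y / 4); linarith
  have h3 : (1 : ℝ) ≤ Real.exp (3 * Y / 4) := Real.one_le_exp (by linarith)
  have h4 : (9 : ℝ) ≤ Real.exp Y := by have := Real.add_one_le_exp Y; linarith
  have h5 : Real.exp (Y + 1) = Real.exp Y * Real.exp 1 := Real.exp_add _ _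
  have h6 := Real.exp_one_lt_d9
  have h7 : Real.exp (2 * Y) = Real.exp Y * Real.exp Y := by rw [← Real.exp_add]; ring_nf
  refine ⟨by nlinarith, ?_, ?_⟩
  · rw [h5, h7]; nlinarith
  · rw [h5]; nlinarith

lemma near_r {b : ℕ} (hb : 2 ≤ b) : ∃ C : ℝ, 0 < C ∧ ∀ᶠ p : ℕ in atTop, ∀ h r : ℕ, h ≤ p → 0 < r →
    r < b ^ h → ∀ Y : ℝ, Real.log b / 2 * p ≤ Y →
    (((Icc ⌊Real.exp Y⌋₊ ⌊Real.exp (Y + 1)⌋₊).filter (fun N : ℕ =>
      ((roughPart p N).Prime ∧ ((N / roughPart p N : ℕ) : ℝ) < Real.exp (Y / 2)) ∧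
      ((roughPart (p + h) (b ^ h * N + r)).Prime ∧
        (((b ^ h * N + r) / roughPart (p + h) (b ^ h * N + r) : ℕ) : ℝ) < Real.exp (Y / 2)))).card : ℝ) ≤
      C * (Real.log p / p) ^ 2 * Real.exp Y := by
  obtain ⟨C0, hC0, hsv⟩ := sift_two
  obtain ⟨C1, hC1, hrat⟩ := ratio_bound hb
  have hlb : 0 < Real.log b := Real.log_pos (by exact_mod_cast hb)
  refine ⟨C0 * (2 * C1) ^ 2 * 3 / (Real.log b / 2) ^ 2, by positivity, ?_⟩
  obtain ⟨P, hP⟩ := eventually_atTop.1 hrat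
  have hlarge : ∀ᶠ p : ℕ in atTop, 8 * 2 / Real.log b < p :=
    tendsto_natCast_atTop_atTop.eventually_gt_atTop _
  filter_upwards [eventually_ge_atTop P, hlarge, eventually_ge_atTop 2] with p hpP hpl hp2
    h r hhp hr hrb Y hY
  have hp2' : (2 : ℝ) ≤ p := by exact_mod_cast hp2
  have hp0 : (0 : ℝ) < p := by linarith
  have hY8 : 8 ≤ Y := by
    rw [div_lt_iff₀ hlb] at hpl
    nlinarith
  obtain ⟨hf1, hf2, hf3⟩ := exp_half_facts hY8
  set q := p + h with hq
  set N0 := ⌊Real.exp Y⌋₊ with hN0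
  set N1 := ⌊Real.exp (Y + 1)⌋₊ with hN1
  have hEpos := Real.exp_pos Y
  have hN0le : (N0 : ℝ) ≤ Real.exp Y := Nat.floor_le hEpos.le
  have hN0gt : Real.exp Y < N0 + 1 := Nat.lt_floor_add_one _
  have hN1le : (N1 : ℝ) ≤ Real.exp (Y + 1) := Nat.floor_le (Real.exp_pos _).le
  have hN1gt : Real.exp (Y + 1) < N1 + 1 := Nat.lt_floor_add_one _
  have hE9 : (9 : ℝ) ≤ Real.exp Y := by have := Real.add_one_le_exp Y; linarith
  have hN0pos : 1 ≤ N0 := by
    have : (1 : ℝ) < ((N0 + 1 : ℕ) : ℝ) := by push_cast; linarith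
    have : 1 < N0 + 1 := by exact_mod_cast this
    omega
  have hN01 : N0 ≤ N1 := Nat.floor_mono (Real.exp_le_exp.2 (by linarith))
  set H := N1 - N0 + 1 with hH
  have hHr : (H : ℝ) = N1 - N0 + 1 := by rw [hH]; push_cast [Nat.cast_sub hN01]; ring
  have hexp1 := Real.exp_one_gt_d9
  have hEe : Real.exp (Y + 1) = Real.exp Y * Real.exp 1 := Real.exp_add _ _
  have hHge : Real.exp Y ≤ H := by rw [hHr]; nlinarith
  have hHle : (H : ℝ) ≤ Real.exp (Y + 1) + 1 := by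
    rw [hHr]
    have : (0 : ℝ) ≤ N0 := Nat.cast_nonneg _
    linarith
  have hH0 : (0 : ℝ) < H := by linarith
  have hH2 : 2 ≤ H := by
    have : (2 : ℝ) ≤ (H : ℝ) := by linarith
    exact_mod_cast this
  have hz : (H : ℝ) ^ ((1 : ℝ) / 8) ≤ Real.exp (Y / 4) := by
    calc (H : ℝ) ^ ((1 : ℝ) / 8) ≤ (Real.exp (2 * Y)) ^ ((1 : ℝ) / 8) :=
          Real.rpow_le_rpow hH0.le (hHle.trans hf2) (by norm_num)
      _ = Real.exp (Y / 4) := by rw [← Real.exp_mul]; ring_nf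
  have hzS : Real.exp (Y / 4) * Real.exp (Y / 2) ≤ N0 := by
    rw [← Real.exp_add]
    have : Y / 4 + Y / 2 = 3 * Y / 4 := by ring
    rw [this]; linarith
  set Q : ℕ → Prop := fun N : ℕ =>
      ((roughPart p N).Prime ∧ ((N / roughPart p N : ℕ) : ℝ) < Real.exp (Y / 2)) ∧
      ((roughPart q (b ^ h * N + r)).Prime ∧
        (((b ^ h * N + r) / roughPart q (b ^ h * N + r) : ℕ) : ℝ) < Real.exp (Y / 2)) with hQ
  set S := (Icc 1 H).filter (fun n => Q (n + (N0 - 1))) with hS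
  have hcard : (((Icc N0 N1).filter Q).card : ℝ) ≤ S.card := by
    have hsub : (Icc N0 N1).filter Q ⊆ S.image (fun n => n + (N0 - 1)) := by
      intro N hN
      rw [mem_filter, mem_Icc] at hN
      rw [mem_image]
      refine ⟨N - (N0 - 1), ?_, by omega⟩
      rw [hS, mem_filter, mem_Icc]
      have e : N - (N0 - 1) + (N0 - 1) = N := by omega
      rw [e]
      exact ⟨by omega, hN.2⟩
    exact_mod_cast (Finset.card_le_card hsub).trans Finset.card_image_le
  refine hcard.trans ?_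
  have hq2 : 2 ≤ q := by omega
  have hM0 : MM q b h r ≠ 0 := MM_ne hb hr
  have hDD : DD 1 (N0 - 1) (b ^ h) (b ^ h * (N0 - 1) + r) ∣ MM q b h r := by
    have e : DD 1 (N0 - 1) (b ^ h) (b ^ h * (N0 - 1) + r) = b ^ h * r := by
      unfold DD
      have e2 : ((((1 * (b ^ h * (N0 - 1) + r) : ℕ) : ℤ)) - ((b ^ h * (N0 - 1) : ℕ) : ℤ)).natAbs = r := by
        have : ((((1 * (b ^ h * (N0 - 1) + r) : ℕ) : ℤ)) - ((b ^ h * (N0 - 1) : ℕ) : ℤ)) = r := by
          push_cast; ring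
        rw [this]; simp
      rw [e2, one_mul]
    rw [e]; unfold MM; exact dvd_mul_left _ _
  have hmain := hsv 1 (N0 - 1) (b ^ h) (b ^ h * (N0 - 1) + r) H (MM q b h r) one_pos (by positivity)
    (two_dvd_MM hq2) hM0 hDD hH2 S (filter_subset _ _) (by
      intro n hn l hl hlz hlM
      have hql := lt_of_not_dvd_MM hl hlM
      rw [hS, mem_filter, mem_Icc] at hn
      obtain ⟨⟨hn1, _⟩, hQn⟩ := hn
      have e1 : 1 * n + (N0 - 1) = n + (N0 - 1) := by ring
      have e2 : b ^ h * n + (b ^ h * (N0 - 1) + r) = b ^ h * (n + (N0 - 1)) + r := by ring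
      rw [e1, e2]
      have hnN : N0 ≤ n + (N0 - 1) := by omega
      have hnN' : (N0 : ℝ) ≤ ((n + (N0 - 1) : ℕ) : ℝ) := by exact_mod_cast hnN
      have hnM : N0 ≤ b ^ h * (n + (N0 - 1)) + r := by
        have : 1 ≤ b ^ h := Nat.one_le_pow _ _ (by omega)
        nlinarith
      have hnM' : (N0 : ℝ) ≤ ((b ^ h * (n + (N0 - 1)) + r : ℕ) : ℝ) := by exact_mod_cast hnM
      constructor
      · exact no_mid_prime hQn.1.1 hQn.1.2 (hzS.trans hnN') hl (by omega) (hlz.trans hz)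
      · exact no_mid_prime hQn.2.1 hQn.2.2 (hzS.trans hnM') hl hql (hlz.trans hz))
  have hr1 := hP q (by omega) h r (by omega) hr hrb
  have hlq : Real.log q ≤ 2 * Real.log p := by
    have hq2p : (q : ℝ) ≤ p * p := by
      have : q ≤ p * p := by nlinarith
      exact_mod_cast this
    calc Real.log q ≤ Real.log (p * p) := Real.log_le_log (by positivity) hq2p
      _ = 2 * Real.log p := by rw [Real.log_mul hp0.ne' hp0.ne']; ring
  have hlq0 : 0 ≤ Real.log q := Real.log_natCast_nonneg q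
  have hlp0 : 0 ≤ Real.log p := Real.log_natCast_nonneg p
  have hr2 : ((MM q b h r : ℕ) : ℝ) / (Nat.totient (MM q b h r) : ℝ) ≤ 2 * C1 * Real.log p := by
    calc _ ≤ C1 * Real.log q := hr1
      _ ≤ C1 * (2 * Real.log p) := by gcongr
      _ = _ := by ring
  have hr0 : 0 ≤ ((MM q b h r : ℕ) : ℝ) / (Nat.totient (MM q b h r) : ℝ) := by positivity
  have hlogH : Real.log b / 2 * p ≤ Real.log H := by
    refine hY.trans ?_
    rw [Real.le_log_iff_exp_le hH0]
    exact hHge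
  have hlbp : 0 < Real.log b / 2 * p := by positivity
  calc (S.card : ℝ) ≤ C0 * (((MM q b h r : ℕ) : ℝ) / (Nat.totient (MM q b h r) : ℝ)) ^ 2 * H /
        (Real.log H) ^ 2 := hmain
    _ ≤ C0 * (2 * C1 * Real.log p) ^ 2 * (3 * Real.exp Y) / (Real.log b / 2 * p) ^ 2 := by
        have := hHle.trans hf3
        gcongr
    _ = _ := by field_simp

end Pool.Agent.W66
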