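import Mathlib
import Pool.Agent.W66.RD

set_option autoImplicit false

/-!
# Near pairs
-/

namespace Pool.Agent.W66

open Finset Filter Topology MeasureTheory
open Pool.Agent.H305R2 (roughPart roughPart_prime SM SM_pos ZZ ZZ_nonneg ZZ_le_exp bounds window_lower
  ff NN measurable_ff measurable_NN ff_nonneg ff_le_one integrableOn_ff log_nat_tendsto integral_ind
  integral_ind_le)

/-- sum of reciprocals of the integers in a window with prime rough part -/
lemma sum_Ap {c : ℝ} (hc : 0 < c) : ∃ K : ℝ, 0 < K ∧ ∀ᶠ p : ℕ in atTop, ∀ Y : ℝ, c * p ≤ Y →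
    ∑ N ∈ (Icc ⌊Real.exp Y⌋₊ ⌊Real.exp (Y + 1)⌋₊).filter (fun N => (roughPart p N).Prime),
      1 / (N : ℝ) ≤ K * (Real.log p / p) := by
  obtain ⟨K, hK, hev⟩ := bounds (c := c / 2) (by positivity)
  refine ⟨8 * K, by positivity, ?_⟩
  have hlarge : ∀ᶠ p : ℕ in atTop, 8 * 2 / c < p :=
    tendsto_natCast_atTop_atTop.eventually_gt_atTop _
  filter_upwards [hev, hlarge, eventually_ge_atTop 1] with p hp hpl hp1 Y hY
  obtain ⟨_, hb, _, _⟩ := hp
  have hp1' : (1 : ℝ) ≤ p := by exact_mod_cast hp1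
  have hcp : 16 < c * p := by
    rw [div_lt_iff₀ hc] at hpl
    linarith
  have hY16 : 16 < Y := by linarith
  have hE0 : (10 : ℝ) ≤ Real.exp (Y - 1) := by
    have := Real.add_one_le_exp (Y - 1); linarith
  have e1 : Real.exp Y = Real.exp (Y - 1) * Real.exp 1 := by rw [← Real.exp_add]; ring_nf
  have e2 : Real.exp (Y + 2) = Real.exp (Y + 1) * Real.exp 1 := by rw [← Real.exp_add]; ring_nf
  have e3 : Real.exp Y ≤ Real.exp (Y + 1) := Real.exp_le_exp.2 (by linarith)
  have hexp1 := Real.exp_one_gt_d9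
  have h1 := window_lower (p := p) (y := Y - 1) (y' := Y + 2) (by linarith)
  have h2 := hb (Y - 1) (Y + 2) (by linarith) (by linarith)
  have hE1 : (10 : ℝ) ≤ Real.exp Y := hE0.trans (Real.exp_le_exp.2 (by linarith))
  have hfl1 : ⌊Real.exp (Y - 1)⌋₊ < ⌊Real.exp Y⌋₊ := by
    have : ⌊Real.exp (Y - 1)⌋₊ + 1 ≤ ⌊Real.exp Y⌋₊ := by
      rw [Nat.le_floor_iff (Real.exp_pos _).le]
      push_cast
      have := Nat.floor_le (Real.exp_pos (Y - 1)).le
      nlinarith
    omega
  have hfl2 : ⌊Real.exp (Y + 1)⌋₊ + 1 ≤ ⌊Real.exp (Y + 2)⌋₊ := by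
    rw [Nat.le_floor_iff (Real.exp_pos _).le]
    push_cast
    have := Nat.floor_le (Real.exp_pos (Y + 1)).le
    nlinarith
  have h1p : 1 / (p : ℝ) ≤ 1 := by rw [div_le_one (by linarith)]; exact hp1'
  have hlp : 0 ≤ Real.log p / p := div_nonneg (Real.log_natCast_nonneg p) (by linarith)
  calc ∑ N ∈ (Icc ⌊Real.exp Y⌋₊ ⌊Real.exp (Y + 1)⌋₊).filter (fun N => (roughPart p N).Prime),
      1 / (N : ℝ) ≤ ∑ N ∈ (Icc ⌊Real.exp Y⌋₊ ⌊Real.exp (Y + 1)⌋₊).filter
        (fun N => (roughPart p N).Prime), 2 * (1 / ((N : ℝ) + 1)) := by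
        refine Finset.sum_le_sum fun N hN => ?_
        rw [mem_filter, mem_Icc] at hN
        have hN1 : 1 ≤ N := by omega
        have hN1' : (1 : ℝ) ≤ N := by exact_mod_cast hN1
        rw [mul_one_div, div_le_div_iff₀ (by linarith) (by linarith)]
        linarith
    _ = 2 * ∑ N ∈ (Icc ⌊Real.exp Y⌋₊ ⌊Real.exp (Y + 1)⌋₊).filter
        (fun N => (roughPart p N).Prime), 1 / ((N : ℝ) + 1) := by rw [Finset.mul_sum]
    _ ≤ 2 * ∑ N ∈ (Finset.Ioc ⌊Real.exp (Y - 1)⌋₊ (⌊Real.exp (Y + 2)⌋₊ - 1)).filter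
        (fun m => (roughPart p m).Prime), 1 / ((N : ℝ) + 1) := by
        refine mul_le_mul_of_nonneg_left ?_ (by norm_num)
        refine Finset.sum_le_sum_of_subset_of_nonneg ?_ fun i _ _ => by positivity
        intro N hN
        rw [mem_filter, mem_Icc] at hN
        rw [mem_filter, mem_Ioc]
        exact ⟨by omega, hN.2⟩
    _ ≤ 2 * (K * ((Y + 2 - (Y - 1)) + 1 / p) * (Real.log p / p)) := by linarith
    _ ≤ 2 * (K * 4 * (Real.log p / p)) := by
        have : (Y + 2 - (Y - 1)) + 1 / (p : ℝ) ≤ 4 := by linarith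
        gcongr
    _ = _ := by ring

lemma exp_small {c : ℝ} (hc : 0 < c) : ∀ᶠ p : ℕ in atTop, Real.exp (-(c * p)) ≤ (Real.log p / p) ^ 2 := by
  have h3 := (Real.tendsto_pow_mul_exp_neg_atTop_nhds_zero 2).comp
    ((tendsto_natCast_atTop_atTop (R := ℝ)).const_mul_atTop hc)
  filter_upwards [h3.eventually_lt_const (show 0 < c ^ 2 by positivity),
    log_nat_tendsto.eventually_ge_atTop 1, eventually_ge_atTop 1] with p hp hl hp1
  have hp0 : (0 : ℝ) < p := by exact_mod_cast hp1
  simp only [Function.comp] at hp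
  rw [div_pow, le_div_iff₀ (by positivity)]
  have h4 : (c * p) ^ 2 * Real.exp (-(c * p)) = c ^ 2 * (Real.exp (-(c * p)) * p ^ 2) := by ring
  rw [h4] at hp
  have h5 : Real.exp (-(c * p)) * (p : ℝ) ^ 2 < 1 := by
    by_contra hcon
    push Not at hcon
    have : 0 < c ^ 2 := by positivity
    nlinarith
  nlinarith

theorem near {b : ℕ} (hb : 2 ≤ b) : ∃ K : ℝ, 0 < K ∧ ∀ᶠ p : ℕ in atTop, ∀ h : ℕ, h ≤ p →
    ∀ Y : ℝ, Real.log b / 2 * p ≤ Y →
    ∫ y in Set.Ioc Y (Y + 1), ff p y * ff (p + h) (y + h * Real.log b) ≤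
      K * ((Real.log p / p) ^ 2 + ((b : ℝ) ^ h)⁻¹ * (Real.log p / p)) := by
  classical
  have hlb : 0 < Real.log b := Real.log_pos (by exact_mod_cast hb)
  obtain ⟨K1, hK1, hA⟩ := sum_Ap (c := Real.log b / 2) (by positivity)
  obtain ⟨C2, hC2, hG⟩ := near_r hb
  obtain ⟨P3, hP3⟩ := eventually_atTop.1 (ZZ_le_exp (c := Real.log b / 32) (by positivity))
  have hsm := exp_small (c := Real.log b / 16) (by positivity)
  refine ⟨K1 + (2 * C2 + 24), by positivity, ?_⟩
  have hlarge : ∀ᶠ p : ℕ in atTop, 8 * 2 / Real.log b < p :=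
    tendsto_natCast_atTop_atTop.eventually_gt_atTop _
  filter_upwards [hA, hG, eventually_ge_atTop P3, hsm, hlarge, eventually_ge_atTop 2] with p hAp hGp
    hpP3 hsmp hpl hp2 h hhp Y hY
  have hp2' : (2 : ℝ) ≤ p := by exact_mod_cast hp2
  have hp0 : (0 : ℝ) < p := by linarith
  have hY8 : 8 ≤ Y := by
    rw [div_lt_iff₀ hlb] at hpl
    nlinarith
  obtain ⟨hf1, hf2, hf3⟩ := exp_half_facts hY8
  set q := p + h with hq
  set B := b ^ h with hB
  have hB0 : 0 < B := by positivity
  have hBr : ((B : ℕ) : ℝ) = (b : ℝ) ^ h := by rw [hB]; push_cast; rfl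
  have hBr0 : (0 : ℝ) < (B : ℝ) := by exact_mod_cast hB0
  set N0 := ⌊Real.exp Y⌋₊ with hN0
  set N1 := ⌊Real.exp (Y + 1)⌋₊ with hN1
  have hEpos := Real.exp_pos Y
  have hN0gt : Real.exp Y < N0 + 1 := Nat.lt_floor_add_one _
  have hN1le : (N1 : ℝ) ≤ Real.exp (Y + 1) := Nat.floor_le (Real.exp_pos _).le
  have hE9 : (9 : ℝ) ≤ Real.exp Y := by have := Real.add_one_le_exp Y; linarith
  have hN0r : Real.exp Y / 2 ≤ N0 := by linarith
  have hN0r1 : (1 : ℝ) ≤ N0 := by linarith
  have hN0pos : 1 ≤ N0 := by exact_mod_cast hN0r1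
  have hN1r : (N1 : ℝ) + 1 ≤ 3 * Real.exp Y := by linarith
  set Pr : ℕ × ℕ → Prop := fun x => (roughPart p x.1).Prime ∧ (roughPart q (B * x.1 + x.2)).Prime with hPr
  set Ps := ((Icc N0 N1) ×ˢ (range B)).filter Pr with hPs
  set g : ℕ × ℕ → ℕ := fun x => B * x.1 + x.2 with hg
  have hginj : Set.InjOn g (Ps : Set (ℕ × ℕ)) := by
    rintro ⟨x1, x2⟩ hx ⟨y1, y2⟩ hy hxy
    simp only [hPs, Finset.coe_filter, Finset.mem_product, mem_range, Set.mem_ofPred_eq] at hx hy
    simp only [hg] at hxy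
    have h1 : (B * x1 + x2) / B = x1 := by
      rw [Nat.mul_add_div hB0, Nat.div_eq_of_lt hx.1.2, add_zero]
    have h2 : (B * y1 + y2) / B = y1 := by
      rw [Nat.mul_add_div hB0, Nat.div_eq_of_lt hy.1.2, add_zero]
    have h3 : x1 = y1 := by rw [← h1, ← h2, hxy]
    subst h3
    have : x2 = y2 := by omega
    rw [this]
  set F := Ps.image g with hF
  have hF1 : ∀ m ∈ F, 1 ≤ m := by
    intro m hm
    rw [hF, mem_image] at hm
    obtain ⟨x, hx, rfl⟩ := hm
    rw [hPs, mem_filter, mem_product, mem_Icc] at hx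
    simp only [hg]
    have : 1 ≤ x.1 := by omega
    nlinarith
  -- pointwise bound
  have hpt : ∀ y ∈ Set.Ioc Y (Y + 1), ff p y * ff q (y + h * Real.log b) ≤
      if NN (y + h * Real.log b) ∈ F then (1 : ℝ) else 0 := by
    intro y hy
    unfold ff
    by_cases h1 : (roughPart p (NN y)).Prime
    · by_cases h2 : (roughPart q (NN (y + h * Real.log b))).Prime
      · rw [if_pos h1, if_pos h2]
        have hmem : NN (y + h * Real.log b) ∈ F := by
          rw [hF, mem_image]
          refine ⟨(NN (y + h * Real.log b) / B, NN (y + h * Real.log b) % B), ?_, ?_⟩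
          · rw [hPs, mem_filter, mem_product, mem_Icc, mem_range]
            simp only [hPr]
            rw [NN_div hb, Nat.mod_def, NN_div hb]
            have hle : B * NN y ≤ NN (y + h * Real.log b) := by
              rw [← NN_div hb y h]
              exact Nat.mul_div_le _ _
            have e : B * NN y + (NN (y + h * Real.log b) - B * NN y) = NN (y + h * Real.log b) :=
              Nat.add_sub_cancel' hle
            rw [e]
            obtain ⟨hn1, hn2⟩ := NN_bounds y
            refine ⟨⟨⟨?_, ?_⟩, ?_⟩, h1, h2⟩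
            · have h3 : (N0 : ℝ) < NN y + 1 := by
                have h4 := Nat.floor_le hEpos.le
                have h5 : Real.exp Y < Real.exp y := Real.exp_lt_exp.2 hy.1
                linarith
              have h4 : N0 < NN y + 1 := by exact_mod_cast h3
              omega
            · rw [hN1, Nat.le_floor_iff (Real.exp_pos _).le]
              exact hn1.le.trans (Real.exp_le_exp.2 hy.2)
            · have h6 := Nat.mod_lt (NN (y + h * Real.log b)) hB0
              rw [Nat.mod_def, NN_div hb] at h6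
              exact h6
          · simp only [hg]
            exact Nat.div_add_mod _ _
        rw [if_pos hmem]; norm_num
      · rw [if_neg h2, mul_zero]; split_ifs <;> norm_num
    · rw [if_neg h1, zero_mul]; split_ifs <;> norm_num
  have hmeas : Measurable (fun y : ℝ => ff p y * ff q (y + h * Real.log b)) :=
    (measurable_ff p).mul ((measurable_ff q).comp (measurable_id.add_const _))
  have hmeasF : Measurable (fun u : ℝ => if NN u ∈ F then (1 : ℝ) else 0) :=
    (measurable_from_nat (f := fun n : ℕ => if n ∈ F then (1 : ℝ) else 0)).comp measurable_NN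
  have hint1 : IntegrableOn (fun y : ℝ => ff p y * ff q (y + h * Real.log b)) (Set.Ioc Y (Y + 1)) := by
    refine Measure.integrableOn_of_bounded (M := 1) (by simp) hmeas.aestronglyMeasurable ?_
    refine Eventually.of_forall fun t => ?_
    have h1 := ff_nonneg p t
    have h2 := ff_nonneg q (t + h * Real.log b)
    have h3 := ff_le_one p t
    have h4 := ff_le_one q (t + h * Real.log b)
    rw [Real.norm_eq_abs, abs_of_nonneg (mul_nonneg h1 h2)]
    nlinarith
  have hint2 : IntegrableOn (fun y : ℝ => if NN (y + h * Real.log b) ∈ F then (1 : ℝ) else 0)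
      (Set.Ioc Y (Y + 1)) := by
    refine Measure.integrableOn_of_bounded (M := 1) (by simp)
      (hmeasF.comp (measurable_id.add_const _)).aestronglyMeasurable ?_
    refine Eventually.of_forall fun t => ?_
    split_ifs <;> simp
  have hstep1 : ∫ y in Set.Ioc Y (Y + 1), ff p y * ff q (y + h * Real.log b) ≤
      ∑ x ∈ Ps, 1 / ((g x : ℕ) : ℝ) := by
    calc _ ≤ ∫ y in Set.Ioc Y (Y + 1), (if NN (y + h * Real.log b) ∈ F then (1 : ℝ) else 0) :=
          setIntegral_mono_on hint1 hint2 measurableSet_Ioc hpt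
      _ = ∫ u in Set.Ioc (Y + h * Real.log b) (Y + 1 + h * Real.log b),
            (if NN u ∈ F then (1 : ℝ) else 0) := by
          rw [← intervalIntegral.integral_of_le (by linarith),
            ← intervalIntegral.integral_of_le (by linarith)]
          exact intervalIntegral.integral_comp_add_right (fun u => if NN u ∈ F then (1 : ℝ) else 0) _
      _ = _ := integral_ind F hF1 _ _
      _ ≤ ∑ m ∈ F, 1 / (m : ℝ) := Finset.sum_le_sum fun m hm => integral_ind_le (hF1 m hm) _ _
      _ = _ := by rw [hF, Finset.sum_image hginj]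
  refine hstep1.trans ?_
  rw [← Finset.sum_filter_add_sum_filter_not Ps (fun x => x.2 = 0)]
  -- part A
  have hpartA : ∑ x ∈ Ps.filter (fun x => x.2 = 0), 1 / ((g x : ℕ) : ℝ) ≤
      K1 * (((b : ℝ) ^ h)⁻¹ * (Real.log p / p)) := by
    have hsub : Ps.filter (fun x => x.2 = 0) ⊆
        ((Icc N0 N1).filter (fun N => (roughPart p N).Prime)) ×ˢ ({0} : Finset ℕ) := by
      rintro ⟨x1, x2⟩ hx
      rw [mem_filter, hPs, mem_filter, mem_product] at hx
      rw [mem_product, mem_filter, mem_singleton]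
      exact ⟨⟨hx.1.1.1, hx.1.2.1⟩, hx.2⟩
    calc _ ≤ ∑ x ∈ ((Icc N0 N1).filter (fun N => (roughPart p N).Prime)) ×ˢ ({0} : Finset ℕ),
          1 / ((g x : ℕ) : ℝ) := Finset.sum_le_sum_of_subset_of_nonneg hsub fun _ _ _ => by positivity
      _ = ∑ N ∈ (Icc N0 N1).filter (fun N => (roughPart p N).Prime), ((b : ℝ) ^ h)⁻¹ * (1 / (N : ℝ)) := by
          rw [Finset.sum_product]
          refine Finset.sum_congr rfl fun N _ => ?_
          rw [Finset.sum_singleton]
          simp only [hg]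
          push_cast
          rw [add_zero, ← hBr]
          field_simp
      _ = ((b : ℝ) ^ h)⁻¹ * ∑ N ∈ (Icc N0 N1).filter (fun N => (roughPart p N).Prime), 1 / (N : ℝ) := by
          rw [Finset.mul_sum]
      _ ≤ ((b : ℝ) ^ h)⁻¹ * (K1 * (Real.log p / p)) :=
          mul_le_mul_of_nonneg_left (hAp Y hY) (by positivity)
      _ = _ := by ring
  -- part B
  set PB := Ps.filter (fun x => ¬ x.2 = 0) with hPB
  set S := Real.exp (Y / 2) with hS
  have hS0 : 0 < S := Real.exp_pos _
  set B1 := PB.filter (fun x => S ≤ ((x.1 / roughPart p x.1 : ℕ) : ℝ)) with hB1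
  set B2 := PB.filter (fun x => S ≤ ((g x / roughPart q (g x) : ℕ) : ℝ)) with hB2
  set G := PB.filter (fun x => ((x.1 / roughPart p x.1 : ℕ) : ℝ) < S ∧
    ((g x / roughPart q (g x) : ℕ) : ℝ) < S) with hGdef
  have hPBsub : PB ⊆ (B1 ∪ B2) ∪ G := by
    intro x hx
    rw [mem_union, mem_union]
    by_cases h1 : S ≤ ((x.1 / roughPart p x.1 : ℕ) : ℝ)
    · left; left; exact mem_filter.2 ⟨hx, h1⟩
    · by_cases h2 : S ≤ ((g x / roughPart q (g x) : ℕ) : ℝ)
      · left; right; exact mem_filter.2 ⟨hx, h2⟩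
      · right; exact mem_filter.2 ⟨hx, not_le.1 h1, not_le.1 h2⟩
  have hmemPB : ∀ x ∈ PB, (N0 ≤ x.1 ∧ x.1 ≤ N1) ∧ x.2 < B ∧ (roughPart p x.1).Prime ∧
      (roughPart q (g x)).Prime ∧ x.2 ≠ 0 := by
    intro x hx
    rw [hPB, mem_filter, hPs, mem_filter, mem_product, mem_Icc, mem_range] at hx
    exact ⟨hx.1.1.1, hx.1.1.2, hx.1.2.1, hx.1.2.2, hx.2⟩
  have hSm : S ^ (-(1 / 2) : ℝ) = Real.exp (-(Y / 4)) := by
    rw [hS, ← Real.exp_mul]; ring_nf
  have hq2p : (q : ℝ) ≤ 2 * p := by
    have : q ≤ 2 * p := by omega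
    exact_mod_cast this
  have hdecay : ∀ m : ℕ, p ≤ m → (m : ℝ) ≤ 2 * p →
      S ^ (-(1 / 2) : ℝ) * ZZ m ≤ (Real.log p / p) ^ 2 := by
    intro m hpm hm
    rw [hSm]
    calc Real.exp (-(Y / 4)) * ZZ m ≤ Real.exp (-(Y / 4)) * Real.exp (Real.log b / 32 * m) :=
          mul_le_mul_of_nonneg_left (hP3 m (by omega)) (Real.exp_pos _).le
      _ = Real.exp (-(Y / 4) + Real.log b / 32 * m) := (Real.exp_add _ _).symm
      _ ≤ Real.exp (-(Real.log b / 16 * p)) := by
          rw [Real.exp_le_exp]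
          nlinarith
      _ ≤ _ := hsmp
  have hw0 : 0 ≤ (Real.log p / p) ^ 2 := by positivity
  have hcB1 : (B1.card : ℝ) ≤ (3 * Real.exp Y) * (Real.log p / p) ^ 2 * B := by
    have hsub : B1 ⊆ ((Icc 1 N1).filter (fun m => (roughPart p m).Prime ∧
        S ≤ ((m / roughPart p m : ℕ) : ℝ))) ×ˢ (range B) := by
      intro x hx
      rw [hB1, mem_filter] at hx
      have h1 := hmemPB x hx.1
      rw [mem_product, mem_filter, mem_Icc, mem_range]
      exact ⟨⟨⟨by omega, h1.1.2⟩, h1.2.2.1, hx.2⟩, h1.2.1⟩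
    have h1 : (B1.card : ℝ) ≤ (((Icc 1 N1).filter (fun m => (roughPart p m).Prime ∧
        S ≤ ((m / roughPart p m : ℕ) : ℝ))).card : ℝ) * B := by
      have := Finset.card_le_card hsub
      rw [Finset.card_product, card_range] at this
      exact_mod_cast this
    refine h1.trans (mul_le_mul_of_nonneg_right ?_ hBr0.le)
    refine (large_smooth_count p N1 hS0).trans ?_
    have h2 := hdecay p le_rfl (by linarith)
    have h3 : (0 : ℝ) ≤ N1 := Nat.cast_nonneg _
    calc (N1 : ℝ) * (S ^ (-(1 / 2) : ℝ) * ZZ p) ≤ N1 * (Real.log p / p) ^ 2 :=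
          mul_le_mul_of_nonneg_left h2 h3
      _ ≤ _ := mul_le_mul_of_nonneg_right (by linarith) hw0
  have hcB2 : (B2.card : ℝ) ≤ (3 * Real.exp Y) * (Real.log p / p) ^ 2 * B := by
    have hinj2 : Set.InjOn g (B2 : Set (ℕ × ℕ)) := hginj.mono (by
      intro x hx
      exact (mem_filter.1 (mem_filter.1 hx).1).1)
    have hsub : B2.image g ⊆ (Icc 1 (B * (N1 + 1))).filter (fun m => (roughPart q m).Prime ∧
        S ≤ ((m / roughPart q m : ℕ) : ℝ)) := by
      intro m hm
      rw [mem_image] at hm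
      obtain ⟨x, hx, rfl⟩ := hm
      rw [hB2, mem_filter] at hx
      have h1 := hmemPB x hx.1
      rw [mem_filter, mem_Icc]
      refine ⟨⟨?_, ?_⟩, h1.2.2.2.1, hx.2⟩
      · simp only [hg]
        have := h1.2.2.2.2
        omega
      · simp only [hg]
        have h2 : B * x.1 ≤ B * N1 := Nat.mul_le_mul_left _ h1.1.2
        have h3 := h1.2.1
        rw [mul_add, mul_one]
        omega
    have h1 : (B2.card : ℝ) ≤ (((Icc 1 (B * (N1 + 1))).filter (fun m => (roughPart q m).Prime ∧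
        S ≤ ((m / roughPart q m : ℕ) : ℝ))).card : ℝ) := by
      rw [← Finset.card_image_of_injOn hinj2]
      exact_mod_cast Finset.card_le_card hsub
    refine (h1.trans (large_smooth_count q (B * (N1 + 1)) hS0)).trans ?_
    have h2 := hdecay q (by omega) hq2p
    push_cast
    calc ((B : ℝ) * (N1 + 1)) * (S ^ (-(1 / 2) : ℝ) * ZZ q) ≤
          ((B : ℝ) * (N1 + 1)) * (Real.log p / p) ^ 2 := mul_le_mul_of_nonneg_left h2 (by positivity)
      _ ≤ ((B : ℝ) * (3 * Real.exp Y)) * (Real.log p / p) ^ 2 := by gcongr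
      _ = _ := by ring
  have hcG : (G.card : ℝ) ≤ C2 * (Real.log p / p) ^ 2 * Real.exp Y * B := by
    have h1 := Finset.card_eq_sum_card_fiberwise (f := fun x : ℕ × ℕ => x.2) (s := G) (t := range B) (by
      intro x hx
      have hx' := (mem_filter.1 (Finset.mem_coe.1 hx)).1
      rw [Finset.mem_coe, mem_range]
      exact (hmemPB x hx').2.1)
    rw [h1]
    push_cast
    have h2 : ∀ r ∈ range B, ((G.filter (fun x => x.2 = r)).card : ℝ) ≤
        C2 * (Real.log p / p) ^ 2 * Real.exp Y := by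
      intro r hr
      rw [mem_range] at hr
      rcases Nat.eq_zero_or_pos r with h0 | h0
      · have : G.filter (fun x => x.2 = r) = ∅ := by
          rw [Finset.filter_eq_empty_iff]
          intro x hx hxr
          have := (hmemPB x (mem_filter.1 hx).1).2.2.2.2
          omega
        rw [this]
        simp only [Finset.card_empty, Nat.cast_zero]
        positivity
      · refine le_trans ?_ (hGp h r hhp h0 hr Y hY)
        have hinj3 : Set.InjOn (fun x : ℕ × ℕ => x.1) (G.filter (fun x => x.2 = r) : Set (ℕ × ℕ)) := by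
          rintro ⟨x1, x2⟩ hx ⟨y1, y2⟩ hy hxy
          rw [Finset.mem_coe, mem_filter] at hx hy
          have e1 : x2 = r := hx.2
          have e2 : y2 = r := hy.2
          have e3 : x1 = y1 := hxy
          rw [e1, e2, e3]
        rw [← Finset.card_image_of_injOn hinj3]
        have hsub : (G.filter (fun x => x.2 = r)).image (fun x : ℕ × ℕ => x.1) ⊆
            (Icc N0 N1).filter (fun N : ℕ =>
              ((roughPart p N).Prime ∧ ((N / roughPart p N : ℕ) : ℝ) < Real.exp (Y / 2)) ∧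
              ((roughPart (p + h) (b ^ h * N + r)).Prime ∧
                (((b ^ h * N + r) / roughPart (p + h) (b ^ h * N + r) : ℕ) : ℝ) < Real.exp (Y / 2))) := by
          intro N hN
          rw [mem_image] at hN
          obtain ⟨x, hx, rfl⟩ := hN
          rw [mem_filter, hGdef, mem_filter] at hx
          have h3 := hmemPB x hx.1.1
          have h4 : g x = b ^ h * x.1 + r := by simp only [hg]; rw [hx.2]
          have h5 := h3.2.2.2.1
          have h6 := hx.1.2.2
          rw [h4] at h5 h6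
          rw [mem_filter, mem_Icc]
          exact ⟨h3.1, ⟨h3.2.2.1, hx.1.2.1⟩, h5, h6⟩
        exact_mod_cast Finset.card_le_card hsub
    calc ∑ r ∈ range B, ((G.filter (fun x => x.2 = r)).card : ℝ) ≤
          ∑ r ∈ range B, C2 * (Real.log p / p) ^ 2 * Real.exp Y := Finset.sum_le_sum h2
      _ = _ := by rw [Finset.sum_const, card_range, nsmul_eq_mul]; ring
  have hcPB : (PB.card : ℝ) ≤ (C2 + 6) * (Real.log p / p) ^ 2 * Real.exp Y * B := by
    have h1 : (PB.card : ℝ) ≤ B1.card + B2.card + G.card := by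
      have h2 := Finset.card_le_card hPBsub
      have h3 := Finset.card_union_le (B1 ∪ B2) G
      have h4 := Finset.card_union_le B1 B2
      exact_mod_cast (by omega : PB.card ≤ B1.card + B2.card + G.card)
    calc (PB.card : ℝ) ≤ B1.card + B2.card + G.card := h1
      _ ≤ (3 * Real.exp Y) * (Real.log p / p) ^ 2 * B + (3 * Real.exp Y) * (Real.log p / p) ^ 2 * B +
          C2 * (Real.log p / p) ^ 2 * Real.exp Y * B := by linarith
      _ = _ := by ring
  have hpartB : ∑ x ∈ PB, 1 / ((g x : ℕ) : ℝ) ≤ (2 * C2 + 12) * (Real.log p / p) ^ 2 := by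
    have h1 : ∀ x ∈ PB, 1 / ((g x : ℕ) : ℝ) ≤ 2 / (B * Real.exp Y) := by
      intro x hx
      have h2 := (hmemPB x hx).1.1
      have h3 : (B : ℝ) * (Real.exp Y / 2) ≤ ((g x : ℕ) : ℝ) := by
        simp only [hg]
        push_cast
        have h4 : (N0 : ℝ) ≤ x.1 := by exact_mod_cast h2
        have h5 : (0 : ℝ) ≤ x.2 := Nat.cast_nonneg _
        have h6 : (B : ℝ) * (Real.exp Y / 2) ≤ B * x.1 :=
          mul_le_mul_of_nonneg_left (hN0r.trans h4) hBr0.le
        linarith
      calc 1 / ((g x : ℕ) : ℝ) ≤ 1 / (B * (Real.exp Y / 2)) :=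
            one_div_le_one_div_of_le (by positivity) h3
        _ = _ := by field_simp
    calc ∑ x ∈ PB, 1 / ((g x : ℕ) : ℝ) ≤ ∑ x ∈ PB, 2 / (B * Real.exp Y) := Finset.sum_le_sum h1
      _ = PB.card * (2 / (B * Real.exp Y)) := by rw [Finset.sum_const, nsmul_eq_mul]
      _ ≤ ((C2 + 6) * (Real.log p / p) ^ 2 * Real.exp Y * B) * (2 / (B * Real.exp Y)) :=
          mul_le_mul_of_nonneg_right hcPB (by positivity)
      _ = _ := by field_simp; ring
  have hA0 : 0 ≤ ((b : ℝ) ^ h)⁻¹ * (Real.log p / p) := by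
    have := Real.log_natCast_nonneg p
    positivity
  calc _ ≤ K1 * (((b : ℝ) ^ h)⁻¹ * (Real.log p / p)) + (2 * C2 + 12) * (Real.log p / p) ^ 2 :=
        add_le_add hpartA hpartB
    _ ≤ _ := by nlinarith

end Pool.Agent.W66
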