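import Mathlib
import Pool.Agent.W66.VC
import Pool.Agent.Helper112.PairSieve

set_option autoImplicit false

/-!
# Selberg weights and the periodic majorant
-/

namespace Pool.Agent.W66V

open Finset ArithmeticFunction BoundingSieve
open Pool.Agent.Helper112.E456.SieveAux

/-- the density function `1 / n` -/
noncomputable def nu1 : ArithmeticFunction ℝ := ⟨fun n => (n : ℝ)⁻¹, by simp⟩

lemma nu1_apply (n : ℕ) : nu1 n = (n : ℝ)⁻¹ := rfl

lemma nu1_mult : nu1.IsMultiplicative := by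
  constructor
  · simp [nu1_apply]
  · intro m n _
    rw [nu1_apply, nu1_apply, nu1_apply]
    push_cast
    rw [mul_inv]

/-- the one dimensional sieve with the primes up to `R` that do not divide `M` -/
noncomputable def s1 (R M : ℕ) : BoundingSieve where
  support := ∅
  prodPrimes := PR R M
  prodPrimes_squarefree := PR_squarefree R M
  weights := fun _ => 1
  weights_nonneg := fun _ => zero_le_one
  totalMass := 0
  nu := nu1
  nu_mult := nu1_mult
  nu_pos_of_prime := by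
    intro p hp _
    rw [nu1_apply]
    have : (0 : ℝ) < p := by exact_mod_cast hp.pos
    positivity
  nu_lt_one_of_prime := by
    intro p hp _
    rw [nu1_apply]
    have : (1 : ℝ) < p := by exact_mod_cast hp.one_lt
    exact inv_lt_one_of_one_lt₀ this

/-- the divisors used -/
def DV (R M : ℕ) : Finset ℕ := (Nat.divisors (PR R M)).filter (· ≤ R)

lemma PR_ne (R M : ℕ) : PR R M ≠ 0 := (PR_squarefree R M).ne_zero

lemma mem_DV {R M d : ℕ} (h : d ∈ DV R M) : d ∣ PR R M ∧ 1 ≤ d ∧ d ≤ R := by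
  unfold DV at h
  rw [mem_filter] at h
  exact ⟨Nat.dvd_of_mem_divisors h.1, Nat.pos_of_mem_divisors h.1, h.2⟩

lemma one_mem_DV {R M : ℕ} (hR : 1 ≤ R) : 1 ∈ DV R M := by
  unfold DV
  rw [mem_filter, Nat.mem_divisors]
  exact ⟨⟨one_dvd _, PR_ne R M⟩, hR⟩

lemma card_DV (R M : ℕ) : (DV R M).card ≤ R := by
  have h : DV R M ⊆ Icc 1 R := fun d hd => by
    have := mem_DV hd
    exact mem_Icc.2 ⟨this.2.1, this.2.2⟩
  have := Finset.card_le_card h
  rwa [Nat.card_Icc, Nat.add_sub_cancel] at this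

/-- Selberg's weights -/
theorem weights (R M : ℕ) (hR : 1 ≤ R) (hM : M ≠ 0) : ∃ (w : ℕ → ℝ) (J : ℝ), w 1 = 1 ∧
    (∀ d ∈ DV R M, |w d| ≤ R) ∧
    ∑ d ∈ DV R M, ∑ e ∈ DV R M, w d * w e / ((Nat.lcm d e : ℕ) : ℝ) = 1 / J ∧ 0 < J ∧
    Real.log (R + 1) ≤ 2 * ((M : ℝ) / (Nat.totient M : ℝ)) * J := by
  set s := s1 R M with hs
  have hPe : s.prodPrimes = PR R M := rfl
  refine ⟨ww s R, JJ s R, ww_one R hR, fun d hd => ?_, ?_, JJ_pos R hR, ?_⟩
  · obtain ⟨h1, h2, h3⟩ := mem_DV hd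
    have hdd : d ∈ Nat.divisors s.prodPrimes := by
      rw [hPe, Nat.mem_divisors]; exact ⟨h1, PR_ne R M⟩
    refine (ww_bound R hR hdd).trans ?_
    have hsq : Squarefree d := (PR_squarefree R M).squarefree_of_dvd h1
    have hnu : s.nu d ≠ 0 := nu_ne_zero (s := s) h1
    have hle : s.selbergTerms d / s.nu d ≤ d := by
      rw [selbergTerms_apply, mul_comm, mul_div_assoc, div_self hnu, mul_one]
      have h1' : (d : ℝ) = ∏ p ∈ d.primeFactors, (p : ℝ) := by
        conv_lhs => rw [← Nat.prod_primeFactors_of_squarefree hsq]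
        push_cast; rfl
      rw [h1']
      apply Finset.prod_le_prod
      · intro p hp
        have hpp := Nat.prime_of_mem_primeFactors hp
        have h2 := s.nu_lt_one_of_prime p hpp ((Nat.dvd_of_mem_primeFactors hp).trans h1)
        rw [inv_nonneg]; linarith
      · intro p hp
        have hpp := Nat.prime_of_mem_primeFactors hp
        have h3' : (2 : ℝ) ≤ p := by exact_mod_cast hpp.two_le
        show (1 - nu1 p)⁻¹ ≤ p
        rw [nu1_apply]
        have h4 : 1 - (p : ℝ)⁻¹ = (p - 1) / p := by field_simp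
        rw [h4, inv_div, div_le_iff₀ (by linarith)]
        nlinarith
    refine hle.trans ?_
    exact_mod_cast h3
  · rw [← mainSum_eq R hR, mainSum_lambdaSquared_eq_sum_sum_mul]
    have hzero : ∀ d ∈ Nat.divisors s.prodPrimes, d ∉ DV R M → ww s R d = 0 := by
      intro d hd hnd
      refine ww_zero R (Nat.pos_of_mem_divisors hd) ?_
      by_contra hc
      exact hnd (by unfold DV; rw [mem_filter]; exact ⟨hd, not_lt.1 hc⟩)
    have hsub : DV R M ⊆ Nat.divisors s.prodPrimes := filter_subset _ _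
    rw [← Finset.sum_subset hsub (fun d hd hnd => by
      rw [hzero d hd hnd]; simp)]
    refine Finset.sum_congr rfl fun d hd => ?_
    rw [← Finset.sum_subset hsub (fun e he hne => by
      rw [hzero e he hne]; simp)]
    refine Finset.sum_congr rfl fun e he => ?_
    have hd0 : (0 : ℝ) < d := by exact_mod_cast (mem_DV hd).2.1
    have he0 : (0 : ℝ) < e := by exact_mod_cast (mem_DV he).2.1
    have hnd : s.nu d = (d : ℝ)⁻¹ := rfl
    have hne : s.nu e = (e : ℝ)⁻¹ := rfl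
    have hng : s.nu (d.gcd e) = ((d.gcd e : ℕ) : ℝ)⁻¹ := rfl
    rw [hnd, hne, hng, inv_inv]
    have hgl : ((Nat.gcd d e : ℕ) : ℝ) * ((Nat.lcm d e : ℕ) : ℝ) = d * e := by
      exact_mod_cast Nat.gcd_mul_lcm d e
    have hl0 : (0 : ℝ) < ((Nat.lcm d e : ℕ) : ℝ) := by
      exact_mod_cast Nat.lcm_pos (mem_DV hd).2.1 (mem_DV he).2.1
    rw [div_eq_iff hl0.ne']
    have e1 : (d : ℝ)⁻¹ * ww s R d * (e : ℝ)⁻¹ * ww s R e * ((Nat.gcd d e : ℕ) : ℝ) *
        ((Nat.lcm d e : ℕ) : ℝ) = (d : ℝ)⁻¹ * ww s R d * (e : ℝ)⁻¹ * ww s R e *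
        (((Nat.gcd d e : ℕ) : ℝ) * ((Nat.lcm d e : ℕ) : ℝ)) := by ring
    rw [e1, hgl]
    field_simp
  · have hU := U_lower R M hM
    have hUJ : U R M ≤ JJ s R := by
      unfold U JJ
      have hsub : SF R M ⊆ (Nat.divisors s.prodPrimes).filter (· ≤ R) := by
        intro l hl
        unfold SF at hl
        rw [mem_filter, mem_Icc] at hl
        rw [mem_filter, Nat.mem_divisors]
        exact ⟨⟨dvd_PR hl.1.2 hl.2.1 hl.2.2, P_ne s⟩, hl.1.2⟩
      calc ∑ l ∈ SF R M, (1 : ℝ) / l ≤ ∑ l ∈ SF R M, s.selbergTerms l := by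
            apply Finset.sum_le_sum
            intro l hl
            have hl' := hsub hl
            rw [mem_filter] at hl'
            have hlP := Nat.dvd_of_mem_divisors hl'.1
            rw [selbergTerms_apply]
            show 1 / (l : ℝ) ≤ nu1 l * _
            rw [nu1_apply, one_div]
            have hnu : 0 < (l : ℝ)⁻¹ := nu_pos_of_dvd_prodPrimes (s := s) hlP
            have h1 : (1 : ℝ) ≤ ∏ p ∈ l.primeFactors, (1 - s.nu p)⁻¹ := by
              have h0 : (1 : ℝ) = ∏ _p ∈ l.primeFactors, (1 : ℝ) := by simp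
              refine h0.le.trans ?_
              apply Finset.prod_le_prod
              · intro p _; norm_num
              · intro p hp
                have hpp := Nat.prime_of_mem_primeFactors hp
                have hpP := (Nat.dvd_of_mem_primeFactors hp).trans hlP
                have h2 := s.nu_lt_one_of_prime p hpp hpP
                have h3 := s.nu_pos_of_prime p hpp hpP
                have h4 : 0 < 1 - s.nu p := by linarith
                exact (one_le_inv₀ h4).2 (by linarith)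
            nlinarith
        _ ≤ _ := by
            apply Finset.sum_le_sum_of_subset_of_nonneg hsub
            intro l hl _
            exact (g_pos (mem_filter.1 hl).1).le
    have hratio : 0 ≤ 2 * ((M : ℝ) / (Nat.totient M : ℝ)) := by positivity
    exact hU.trans (mul_le_mul_of_nonneg_left hUJ hratio)

/-- the majorant -/
noncomputable def FM (R M : ℕ) (w : ℕ → ℝ) (x : ℝ) : ℝ :=
  ∑ d ∈ DV R M, ∑ e ∈ DV R M, w d * w e * HD (Nat.lcm d e) x

lemma FM_eq (R M : ℕ) (w : ℕ → ℝ) (x : ℝ) (S : Finset ℤ) (hS : ∀ j : ℤ, |x - 1 / 2 - j| < 1 → j ∈ S) :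
    FM R M w x = ∑ j ∈ S, 2 * tr (x - 1 / 2 - j) *
      (∑ d ∈ (DV R M).filter (fun d : ℕ => (d : ℤ) ∣ j), w d) ^ 2 := by
  unfold FM
  have h1 : ∀ d ∈ DV R M, ∀ e ∈ DV R M, w d * w e * HD (Nat.lcm d e) x =
      ∑ j ∈ S, 2 * tr (x - 1 / 2 - j) * ((if (d : ℤ) ∣ j then w d else 0) *
        (if (e : ℤ) ∣ j then w e else 0)) := by
    intro d hd e he
    have hl : 1 ≤ Nat.lcm d e := Nat.lcm_pos (mem_DV hd).2.1 (mem_DV he).2.1
    rw [HD_sum hl x S hS, Finset.mul_sum]
    refine Finset.sum_congr rfl fun j _ => ?_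
    have hdvd : ((Nat.lcm d e : ℕ) : ℤ) ∣ j ↔ (d : ℤ) ∣ j ∧ (e : ℤ) ∣ j := by
      rw [Int.natCast_dvd, Int.natCast_dvd, Int.natCast_dvd, Nat.lcm_dvd_iff]
    by_cases h3 : (d : ℤ) ∣ j
    · by_cases h4 : (e : ℤ) ∣ j
      · rw [if_pos (hdvd.2 ⟨h3, h4⟩), if_pos h3, if_pos h4]; ring
      · rw [if_neg (fun h => h4 (hdvd.1 h).2), if_neg h4]; ring
    · rw [if_neg (fun h => h3 (hdvd.1 h).1), if_neg h3]; ring
  calc ∑ d ∈ DV R M, ∑ e ∈ DV R M, w d * w e * HD (Nat.lcm d e) x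
      = ∑ d ∈ DV R M, ∑ e ∈ DV R M, ∑ j ∈ S, 2 * tr (x - 1 / 2 - j) *
        ((if (d : ℤ) ∣ j then w d else 0) * (if (e : ℤ) ∣ j then w e else 0)) :=
        Finset.sum_congr rfl fun d hd => Finset.sum_congr rfl fun e he => h1 d hd e he
    _ = ∑ d ∈ DV R M, ∑ j ∈ S, ∑ e ∈ DV R M, 2 * tr (x - 1 / 2 - j) *
        ((if (d : ℤ) ∣ j then w d else 0) * (if (e : ℤ) ∣ j then w e else 0)) :=
        Finset.sum_congr rfl fun d _ => Finset.sum_comm
    _ = ∑ j ∈ S, ∑ d ∈ DV R M, ∑ e ∈ DV R M, 2 * tr (x - 1 / 2 - j) *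
        ((if (d : ℤ) ∣ j then w d else 0) * (if (e : ℤ) ∣ j then w e else 0)) := Finset.sum_comm
    _ = _ := by
        refine Finset.sum_congr rfl fun j _ => ?_
        rw [Finset.sum_filter, sq, Finset.sum_mul_sum, Finset.mul_sum]
        refine Finset.sum_congr rfl fun d _ => ?_
        rw [Finset.mul_sum]

lemma near_mem (x : ℝ) (j : ℤ) (h : |x - 1 / 2 - j| < 1) : j ∈ Finset.Icc (⌊x⌋ - 2) (⌊x⌋ + 2) := by
  have h1 := Int.floor_le x
  have h2 := Int.lt_floor_add_one x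
  rw [abs_lt] at h
  rw [Finset.mem_Icc]
  constructor
  · have : ((⌊x⌋ - 2 : ℤ) : ℝ) ≤ j := by push_cast; linarith
    exact_mod_cast this
  · have : (j : ℝ) ≤ ((⌊x⌋ + 2 : ℤ) : ℝ) := by push_cast; linarith
    exact_mod_cast this

lemma FM_nonneg (R M : ℕ) (w : ℕ → ℝ) (x : ℝ) : 0 ≤ FM R M w x := by
  rw [FM_eq R M w x _ (near_mem x)]
  refine Finset.sum_nonneg fun j _ => ?_
  have := tr_nonneg (x - 1 / 2 - j)
  positivity

lemma FM_ge_one {R M : ℕ} (hR : 1 ≤ R) {w : ℕ → ℝ} (hw1 : w 1 = 1) {x : ℝ} {N : ℕ} (h1 : (N : ℝ) < x)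
    (h2 : x ≤ N + 1) (hN : ∀ l : ℕ, l.Prime → l ≤ R → ¬ l ∣ M → ¬ l ∣ N) : 1 ≤ FM R M w x := by
  rw [FM_eq R M w x _ (near_mem x)]
  have hab : |x - 1 / 2 - (N : ℤ)| ≤ 1 / 2 := by
    push_cast
    rw [abs_le]
    constructor <;> linarith
  have hmem : (N : ℤ) ∈ Finset.Icc (⌊x⌋ - 2) (⌊x⌋ + 2) :=
    near_mem x N (lt_of_le_of_lt hab (by norm_num))
  have hset : (DV R M).filter (fun d : ℕ => (d : ℤ) ∣ (N : ℤ)) = {1} := by
    ext d
    rw [mem_filter, mem_singleton]
    constructor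
    · rintro ⟨hd, hdN⟩
      obtain ⟨k1, k2, k3⟩ := mem_DV hd
      by_contra hne
      obtain ⟨l, hl, hld⟩ := Nat.exists_prime_and_dvd hne
      have hlP := (prime_dvd_PR hl).1 (hld.trans k1)
      exact hN l hl hlP.1 hlP.2 (hld.trans (Int.natCast_dvd_natCast.1 hdN))
    · rintro rfl
      exact ⟨one_mem_DV hR, by simp⟩
  have hterm : 1 ≤ 2 * tr (x - 1 / 2 - (N : ℤ)) *
      (∑ d ∈ (DV R M).filter (fun d : ℕ => (d : ℤ) ∣ (N : ℤ)), w d) ^ 2 := by
    rw [hset, Finset.sum_singleton, hw1, one_pow, mul_one]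
    have : 1 / 2 ≤ tr (x - 1 / 2 - (N : ℤ)) := le_max_of_le_left (by linarith)
    linarith
  refine hterm.trans ?_
  refine Finset.single_le_sum (f := fun j : ℤ => 2 * tr (x - 1 / 2 - j) *
      (∑ d ∈ (DV R M).filter (fun d : ℕ => (d : ℤ) ∣ j), w d) ^ 2) (fun j _ => ?_) hmem
  have := tr_nonneg (x - 1 / 2 - j)
  positivity

end Pool.Agent.W66V
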