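import Mathlib
import Pool.Agent.W66.VE
import Pool.Agent.W66.VD

set_option autoImplicit false

/-!
# The majorant of a pair of sifting conditions
-/

namespace Pool.Agent.W66V

open Finset MeasureTheory

lemma FM_prod (R M : ℕ) (w : ℕ → ℝ) (x : ℝ) :
    FM R M w x = ∑ a ∈ DV R M ×ˢ DV R M, w a.1 * w a.2 * HD (Nat.lcm a.1 a.2) x := by
  unfold FM
  rw [Finset.sum_product]

theorem majorant_pair {R M : ℕ} {w : ℕ → ℝ} {J ε X : ℝ}
    (hw : ∀ d ∈ DV R M, |w d| ≤ R)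
    (hwJ : ∑ d ∈ DV R M, ∑ e ∈ DV R M, w d * w e / ((Nat.lcm d e : ℕ) : ℝ) = 1 / J)
    (hX : 0 < X) (hε : 0 ≤ ε) {ψ : ℝ → ℝ} (hψ : ContinuousOn ψ (Set.Icc X (Real.exp 1 * X)))
    (hcorr : ∀ D E : ℕ, 1 ≤ D → D ≤ R ^ 2 → 1 ≤ E → E ≤ R ^ 2 →
      |(∫ x in X..(Real.exp 1 * X), HD D x * HD E (ψ x) / x) - 4 / (D * E)| ≤ ε) :
    ∫ x in X..(Real.exp 1 * X), FM R M w x * FM R M w (ψ x) / x ≤ 4 / J ^ 2 + (R : ℝ) ^ 8 * ε := by
  have hle : X ≤ Real.exp 1 * X := exp_one_mul_le hX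
  set T := DV R M ×ˢ DV R M with hT
  set c : ℕ × ℕ → ℝ := fun a => w a.1 * w a.2 with hc
  set L : ℕ × ℕ → ℕ := fun a => Nat.lcm a.1 a.2 with hL
  have hLb : ∀ a ∈ T, 1 ≤ L a ∧ L a ≤ R ^ 2 := by
    intro a ha
    rw [hT, mem_product] at ha
    obtain ⟨_, k2, k3⟩ := mem_DV ha.1
    obtain ⟨_, l2, l3⟩ := mem_DV ha.2
    refine ⟨Nat.lcm_pos k2 l2, ?_⟩
    calc L a ≤ a.1 * a.2 := Nat.le_of_dvd (Nat.mul_pos k2 l2) (Nat.lcm_dvd_mul _ _)
      _ ≤ R * R := Nat.mul_le_mul k3 l3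
      _ = R ^ 2 := (sq R).symm
  have hcb : ∀ a ∈ T, |c a| ≤ (R : ℝ) ^ 2 := by
    intro a ha
    rw [hT, mem_product] at ha
    simp only [hc]
    rw [abs_mul, sq]
    exact mul_le_mul (hw _ ha.1) (hw _ ha.2) (abs_nonneg _) (Nat.cast_nonneg _)
  have hTc : (T.card : ℝ) ≤ (R : ℝ) ^ 2 := by
    rw [hT, card_product, sq]
    push_cast
    have h := card_DV R M
    have h' : ((DV R M).card : ℝ) ≤ R := by exact_mod_cast h
    exact mul_le_mul h' h' (Nat.cast_nonneg _) (Nat.cast_nonneg _)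
  have hcont : ∀ D E : ℕ, ContinuousOn (fun x => HD D x * HD E (ψ x) / x)
      (Set.Icc X (Real.exp 1 * X)) := by
    intro D E
    refine ContinuousOn.div ?_ continuousOn_id (fun x hx => (hX.trans_le hx.1).ne')
    exact (HD_continuous D).continuousOn.mul ((HD_continuous E).comp_continuousOn hψ)
  have hii : ∀ D E : ℕ, IntervalIntegrable (fun x => HD D x * HD E (ψ x) / x) volume X
      (Real.exp 1 * X) := fun D E => (hcont D E).intervalIntegrable_of_Icc hle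
  have hexp : ∀ x : ℝ, FM R M w x * FM R M w (ψ x) / x =
      ∑ a ∈ T, ∑ b ∈ T, c a * c b * (HD (L a) x * HD (L b) (ψ x) / x) := by
    intro x
    rw [FM_prod, FM_prod, Finset.sum_mul_sum, Finset.sum_div]
    refine Finset.sum_congr rfl fun a _ => ?_
    rw [Finset.sum_div]
    refine Finset.sum_congr rfl fun b _ => ?_
    simp only [hc, hL]
    ring
  have hint : ∫ x in X..(Real.exp 1 * X), FM R M w x * FM R M w (ψ x) / x =
      ∑ a ∈ T, ∑ b ∈ T, c a * c b * ∫ x in X..(Real.exp 1 * X), HD (L a) x * HD (L b) (ψ x) / x := by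
    simp only [hexp]
    rw [intervalIntegral.integral_finsetSum]
    · refine Finset.sum_congr rfl fun a _ => ?_
      rw [intervalIntegral.integral_finsetSum]
      · refine Finset.sum_congr rfl fun b _ => ?_
        rw [intervalIntegral.integral_const_mul]
      · intro b _
        exact (hii _ _).const_mul _
    · intro a _
      have h0 := IntervalIntegrable.sum T (f := fun b x => c a * c b * (HD (L a) x * HD (L b) (ψ x) / x))
        (fun b _ => (hii (L a) (L b)).const_mul (c a * c b))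
      have e0 : (∑ b ∈ T, fun x => c a * c b * (HD (L a) x * HD (L b) (ψ x) / x)) =
          fun x => ∑ b ∈ T, c a * c b * (HD (L a) x * HD (L b) (ψ x) / x) := by
        funext x; rw [Finset.sum_apply]
      rw [← e0]; exact h0
  have hmain : ∑ a ∈ T, ∑ b ∈ T, c a * c b * (4 / (((L a : ℕ) : ℝ) * ((L b : ℕ) : ℝ))) = 4 / J ^ 2 := by
    have h1 : ∑ a ∈ T, c a / ((L a : ℕ) : ℝ) = 1 / J := by
      rw [← hwJ, hT, Finset.sum_product]
    have h2 : ∑ a ∈ T, ∑ b ∈ T, c a * c b * (4 / (((L a : ℕ) : ℝ) * ((L b : ℕ) : ℝ))) =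
        4 * ((∑ a ∈ T, c a / ((L a : ℕ) : ℝ)) * (∑ b ∈ T, c b / ((L b : ℕ) : ℝ))) := by
      rw [Finset.sum_mul_sum, Finset.mul_sum]
      refine Finset.sum_congr rfl fun a _ => ?_
      rw [Finset.mul_sum]
      refine Finset.sum_congr rfl fun b _ => ?_
      ring
    rw [h2, h1]
    ring
  rw [hint]
  have hdiff : (∑ a ∈ T, ∑ b ∈ T, c a * c b * ∫ x in X..(Real.exp 1 * X), HD (L a) x * HD (L b) (ψ x) / x) -
      ∑ a ∈ T, ∑ b ∈ T, c a * c b * (4 / (((L a : ℕ) : ℝ) * ((L b : ℕ) : ℝ))) ≤ (R : ℝ) ^ 8 * ε := by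
    rw [← Finset.sum_sub_distrib]
    have h1 : ∀ a ∈ T, (∑ b ∈ T, c a * c b * ∫ x in X..(Real.exp 1 * X), HD (L a) x * HD (L b) (ψ x) / x) -
        ∑ b ∈ T, c a * c b * (4 / (((L a : ℕ) : ℝ) * ((L b : ℕ) : ℝ))) ≤ (R : ℝ) ^ 2 * ((R : ℝ) ^ 4 * ε) := by
      intro a ha
      rw [← Finset.sum_sub_distrib]
      have h2 : ∀ b ∈ T, c a * c b * (∫ x in X..(Real.exp 1 * X), HD (L a) x * HD (L b) (ψ x) / x) -
          c a * c b * (4 / (((L a : ℕ) : ℝ) * ((L b : ℕ) : ℝ))) ≤ (R : ℝ) ^ 4 * ε := by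
        intro b hb
        rw [← mul_sub]
        refine (le_abs_self _).trans ?_
        rw [abs_mul, abs_mul]
        have h3 := hcorr (L a) (L b) (hLb a ha).1 (hLb a ha).2 (hLb b hb).1 (hLb b hb).2
        calc |c a| * |c b| * _ ≤ ((R : ℝ) ^ 2 * (R : ℝ) ^ 2) * ε := by
              refine mul_le_mul (mul_le_mul (hcb a ha) (hcb b hb) (abs_nonneg _) (by positivity)) h3
                (abs_nonneg _) (by positivity)
          _ = _ := by ring
      calc _ ≤ ∑ b ∈ T, (R : ℝ) ^ 4 * ε := Finset.sum_le_sum h2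
        _ = T.card * ((R : ℝ) ^ 4 * ε) := by rw [Finset.sum_const, nsmul_eq_mul]
        _ ≤ _ := mul_le_mul_of_nonneg_right hTc (by positivity)
    calc _ ≤ ∑ a ∈ T, (R : ℝ) ^ 2 * ((R : ℝ) ^ 4 * ε) := Finset.sum_le_sum h1
      _ = T.card * ((R : ℝ) ^ 2 * ((R : ℝ) ^ 4 * ε)) := by rw [Finset.sum_const, nsmul_eq_mul]
      _ ≤ (R : ℝ) ^ 2 * ((R : ℝ) ^ 2 * ((R : ℝ) ^ 4 * ε)) :=
          mul_le_mul_of_nonneg_right hTc (by positivity)
      _ = _ := by ring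
  linarith

/-- upper bound for the measure of a joint sifting event -/
theorem joint_sift {R M : ℕ} (hR : 1 ≤ R) (hM : M ≠ 0) {ε X : ℝ}
    (hX : 0 < X) (hε : 0 ≤ ε) {ψ : ℝ → ℝ} (hψ : ContinuousOn ψ (Set.Icc X (Real.exp 1 * X)))
    (hcorr : ∀ D E : ℕ, 1 ≤ D → D ≤ R ^ 2 → 1 ≤ E → E ≤ R ^ 2 →
      |(∫ x in X..(Real.exp 1 * X), HD D x * HD E (ψ x) / x) - 4 / (D * E)| ≤ ε)
    {f : ℝ → ℝ} (hf : IntervalIntegrable (fun x => f x / x) volume X (Real.exp 1 * X))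
    (hf1 : ∀ x ∈ Set.Icc X (Real.exp 1 * X), f x ≤ 1)
    (hf0 : ∀ x ∈ Set.Icc X (Real.exp 1 * X), 0 < f x → ∃ N N' : ℕ, (N : ℝ) < x ∧ x ≤ N + 1 ∧
      (N' : ℝ) < ψ x ∧ ψ x ≤ N' + 1 ∧ ∀ l : ℕ, l.Prime → l ≤ R → ¬ l ∣ M → ¬ l ∣ N ∧ ¬ l ∣ N') :
    ∃ J : ℝ, 0 < J ∧ Real.log (R + 1) ≤ 2 * ((M : ℝ) / (Nat.totient M : ℝ)) * J ∧
      ∫ x in X..(Real.exp 1 * X), f x / x ≤ 4 / J ^ 2 + (R : ℝ) ^ 8 * ε := by
  obtain ⟨w, J, hw1, hwb, hwJ, hJ0, hJlog⟩ := weights R M hR hM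
  refine ⟨J, hJ0, hJlog, ?_⟩
  have hle : X ≤ Real.exp 1 * X := exp_one_mul_le hX
  refine le_trans ?_ (majorant_pair hwb hwJ hX hε hψ hcorr)
  have hFc : ContinuousOn (fun x => FM R M w x * FM R M w (ψ x) / x) (Set.Icc X (Real.exp 1 * X)) := by
    have h1 : Continuous (FM R M w) := by
      unfold FM
      refine continuous_finsetSum _ fun d _ => continuous_finsetSum _ fun e _ => ?_
      exact continuous_const.mul (HD_continuous _)
    refine ContinuousOn.div ?_ continuousOn_id (fun x hx => (hX.trans_le hx.1).ne')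
    exact h1.continuousOn.mul (h1.comp_continuousOn hψ)
  refine intervalIntegral.integral_mono_on hle hf (hFc.intervalIntegrable_of_Icc hle) fun x hx => ?_
  have hx0 : 0 < x := hX.trans_le hx.1
  refine div_le_div_of_nonneg_right ?_ hx0.le
  by_cases h0 : 0 < f x
  · obtain ⟨N, N', k1, k2, k3, k4, k5⟩ := hf0 x hx h0
    have h1 := FM_ge_one (M := M) hR hw1 k1 k2 (fun l hl hlR hlM => (k5 l hl hlR hlM).1)
    have h2 := FM_ge_one (M := M) hR hw1 k3 k4 (fun l hl hlR hlM => (k5 l hl hlR hlM).2)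
    calc f x ≤ 1 := hf1 x hx
      _ = 1 * 1 := by ring
      _ ≤ _ := mul_le_mul h1 h2 zero_le_one (by linarith)
  · exact (not_lt.1 h0).trans (mul_nonneg (FM_nonneg _ _ _ _) (FM_nonneg _ _ _ _))

end Pool.Agent.W66V
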