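import Mathlib
import Pool.Agent.H447R2.ML.R4

set_option autoImplicit false

/-!
# The transition functions of a shift family
-/

namespace Pool.Agent.W66X

open Finset Filter Topology MeasureTheory
open Pool.Agent.H447R2.ML (Sh pert_small exp_shift)

/-- the phase functions of a shift family -/
noncomputable def ysh (α : ℝ) (g : ℕ → ℝ) (p : ℕ) (t : ℝ) : ℝ := Real.log (Real.exp t * α ^ p + g p)

lemma measurable_ysh (α : ℝ) (g : ℕ → ℝ) (p : ℕ) : Measurable (ysh α g p) :=
  Real.measurable_log.comp ((Real.measurable_exp.mul_const _).add_const _)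

lemma pert8 {α κ C : ℝ} (hα : 0 < α) (hκ0 : 0 ≤ κ) (hκ : κ < α) {g : ℕ → ℝ}
    (hg : ∀ p, |g p| ≤ C * κ ^ p) (a0 : ℝ) (A : ℕ) :
    ∀ᶠ p : ℕ in atTop, A * |g p| ≤ Real.exp (Real.log α * p + a0) := by
  filter_upwards [pert_small hα hκ0 hκ hg a0, eventually_ge_atTop A, eventually_ge_atTop 1] with p hp hpA hp1
  obtain ⟨_, h2⟩ := hp
  have hp1' : (1 : ℝ) ≤ p := by exact_mod_cast hp1
  have hp0 : (0 : ℝ) < p := by linarith
  have hA' : (A : ℝ) ≤ p := by exact_mod_cast hpA
  have hE := Real.exp_pos (Real.log α * p + a0)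
  calc (A : ℝ) * |g p| ≤ p * (1 / (2 * p) * Real.exp (Real.log α * p + a0)) := by gcongr
    _ = 1 / 2 * Real.exp (Real.log α * p + a0) := by field_simp
    _ ≤ _ := by linarith

lemma exp_ysh {α : ℝ} (hα : 0 < α) {g : ℕ → ℝ} {a0 : ℝ} {p : ℕ}
    (hp : ((8 : ℕ) : ℝ) * |g p| ≤ Real.exp (Real.log α * p + a0)) {t : ℝ} (ht : a0 ≤ t) :
    Real.exp (ysh α g p t) = Real.exp t * α ^ p + g p ∧ 0 < Real.exp t * α ^ p + g p ∧
      |g p| ≤ Real.exp t * α ^ p / 8 := by
  have h1 : Real.exp (Real.log α * p + a0) ≤ Real.exp t * α ^ p := by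
    rw [exp_shift hα]
    exact Real.exp_le_exp.2 (by linarith)
  have h2 := Real.exp_pos (Real.log α * p + a0)
  push_cast at hp
  have h3 := neg_abs_le (g p)
  have h4 : 0 < Real.exp t * α ^ p + g p := by linarith
  exact ⟨Real.exp_log h4, h4, by linarith⟩

/-- the transition functions -/
theorem trans_shift {α κ C : ℝ} (hα : 1 < α) (hκ0 : 0 ≤ κ) (hκ : κ < α) {g : ℕ → ℝ}
    (hg : ∀ p, |g p| ≤ C * κ ^ p) (b0 : ℝ) : ∃ P : ℕ, ∀ p ≥ P, ∀ q ≥ P, p ≤ q → ∃ w : ℝ → ℝ, Measurable w ∧
      MonotoneOn w (Set.Icc (Real.log α * q + b0 - 1) (Real.log α * q + b0 + 2)) ∧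
      (∀ s ∈ Set.Icc (Real.log α * q + b0 - 1) (Real.log α * q + b0 + 2),
        ∀ t ∈ Set.Icc (Real.log α * q + b0 - 1) (Real.log α * q + b0 + 2),
        |w s - w t| ≤ 2 * |s - t|) ∧ w (Real.log α * q + b0 + 2) ≤ Real.log α * p + |b0| + 3 ∧
      ∀ t ∈ Set.Ioc b0 (b0 + 1), w (ysh α g q t) = ysh α g p t := by
  have hα0 : 0 < α := by linarith
  obtain ⟨P, hP⟩ := eventually_atTop.1 (pert8 hα0 hκ0 hκ hg (b0 - 1) 8)
  refine ⟨P, fun p hp q hq hpq => ?_⟩
  set L := Real.log α with hL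
  set ρ := α ^ p / α ^ q with hρ
  have hαp : 0 < α ^ p := pow_pos hα0 p
  have hαq : 0 < α ^ q := pow_pos hα0 q
  have hρ0 : 0 < ρ := div_pos hαp hαq
  set k := g p - ρ * g q with hk
  set E0 := Real.exp (L * p + (b0 - 1)) with hE0
  have hE0pos : 0 < E0 := Real.exp_pos _
  -- the exponential identity
  have hEid : ∀ u : ℝ, Real.exp u * ρ = Real.exp (u - L * q + L * p) := by
    intro u
    rw [hρ, Real.exp_add, Real.exp_sub]
    have e1 : Real.exp (L * q) = α ^ q := by
      rw [hL, mul_comm, Real.exp_nat_mul, Real.exp_log hα0]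
    have e2 : Real.exp (L * p) = α ^ p := by
      rw [hL, mul_comm, Real.exp_nat_mul, Real.exp_log hα0]
    rw [e1, e2]
    field_simp
  have hkb : |k| ≤ E0 / 4 := by
    have h1 := hP p hp
    have h2 := hP q hq
    push_cast at h1 h2
    have h3 : ρ * |g q| ≤ E0 / 8 := by
      have h4 : ρ * (8 * |g q|) ≤ ρ * Real.exp (L * q + (b0 - 1)) := mul_le_mul_of_nonneg_left h2 hρ0.le
      have h5 : ρ * Real.exp (L * q + (b0 - 1)) = E0 := by
        rw [mul_comm, hEid, hE0]
        congr 1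
        ring
      rw [h5] at h4
      linarith
    calc |k| ≤ |g p| + |ρ * g q| := abs_sub _ _
      _ = |g p| + ρ * |g q| := by rw [abs_mul, abs_of_pos hρ0]
      _ ≤ _ := by linarith
  have hEge : ∀ u ∈ Set.Icc (L * q + b0 - 1) (L * q + b0 + 2), E0 ≤ Real.exp u * ρ := by
    intro u hu
    rw [hEid, hE0]
    exact Real.exp_le_exp.2 (by linarith [hu.1])
  have hpos : ∀ u ∈ Set.Icc (L * q + b0 - 1) (L * q + b0 + 2),
      3 / 4 * (Real.exp u * ρ) ≤ Real.exp u * ρ + k := by
    intro u hu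
    have h1 := hEge u hu
    have h2 := (abs_le.1 hkb).1
    linarith
  set w : ℝ → ℝ := fun u => Real.log (Real.exp u * ρ + k) with hw
  have hder : ∀ u ∈ Set.Icc (L * q + b0 - 1) (L * q + b0 + 2),
      HasDerivAt w (Real.exp u * ρ / (Real.exp u * ρ + k)) u := by
    intro u hu
    have h1 : HasDerivAt (fun u : ℝ => Real.exp u * ρ + k) (Real.exp u * ρ) u :=
      ((Real.hasDerivAt_exp u).mul_const ρ).add_const k
    refine h1.log ?_
    have h2 := hpos u hu
    have h3 : 0 < Real.exp u * ρ := by positivity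
    have : 0 < Real.exp u * ρ + k := by linarith
    exact this.ne'
  refine ⟨w, ?_, ?_, ?_, ?_, ?_⟩
  · exact Real.measurable_log.comp ((Real.measurable_exp.mul_const _).add_const _)
  · intro s hs t ht hst
    simp only [hw]
    have h2 := hpos s hs
    have h3 : 0 < Real.exp s * ρ := by positivity
    refine Real.log_le_log (by linarith) ?_
    have h4 := Real.exp_le_exp.2 hst
    have h5 := mul_le_mul_of_nonneg_right h4 hρ0.le
    linarith
  · intro s hs t ht
    have h1 := Convex.norm_image_sub_le_of_norm_hasDerivWithin_le (f := w)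
      (f' := fun u => Real.exp u * ρ / (Real.exp u * ρ + k)) (C := 2)
      (s := Set.Icc (L * q + b0 - 1) (L * q + b0 + 2)) (x := t) (y := s)
      (fun x hx => (hder x hx).hasDerivWithinAt) (fun x hx => by
        have h2 := hpos x hx
        have h3 : 0 < Real.exp x * ρ := by positivity
        have h4 : 0 < Real.exp x * ρ + k := by linarith
        rw [Real.norm_eq_abs, abs_of_nonneg (by positivity), div_le_iff₀ h4]
        linarith) (convex_Icc _ _) ht hs
    simpa [Real.norm_eq_abs] using h1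
  · simp only [hw]
    have hmem : L * q + b0 + 2 ∈ Set.Icc (L * q + b0 - 1) (L * q + b0 + 2) := ⟨by linarith, le_rfl⟩
    have h2 := hpos _ hmem
    have h3 : 0 < Real.exp (L * q + b0 + 2) * ρ := by positivity
    have h4 : Real.exp (L * q + b0 + 2) * ρ + k ≤ Real.exp (L * p + b0 + 3) := by
      rw [hEid]
      have e1 : L * q + b0 + 2 - L * q + L * p = L * p + b0 + 2 := by ring
      rw [e1]
      have e2 : Real.exp (L * p + b0 + 3) = Real.exp (L * p + b0 + 2) * Real.exp 1 := by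
        rw [← Real.exp_add]; ring_nf
      have e3 : E0 ≤ Real.exp (L * p + b0 + 2) := Real.exp_le_exp.2 (by linarith)
      have e4 := Real.exp_one_gt_d9
      have e5 := (abs_le.1 hkb).2
      rw [e2]
      nlinarith
    have h5 := Real.log_le_log (by linarith) h4
    rw [Real.log_exp] at h5
    linarith [le_abs_self b0]
  · intro t ht
    have h1 := exp_ysh hα0 (hP q hq) (t := t) (by linarith [ht.1])
    simp only [hw]
    rw [h1.1]
    unfold ysh
    congr 1
    rw [hk, hρ]
    field_simp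
    ring

end Pool.Agent.W66X
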