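import Mathlib
import Pool.Agent.W66.RD

set_option autoImplicit false

/-!
# Near pairs: the sieve for a fixed difference of any sign
-/

namespace Pool.Agent.W66X

open Finset Filter Topology MeasureTheory
open Pool.Agent.W66 (MM MM_ne dvd_primorial le_of_dvd_primorial two_dvd_MM lt_of_not_dvd_MM VV_le_log
  inv_factor_le sift_two no_mid_prime exp_half_facts)
open Pool.Agent.H305R2 (roughPart roughPart_prime SM SM_pos ZZ ZZ_nonneg VV VV_nonneg
  ff NN measurable_ff measurable_NN ff_nonneg ff_le_one integrableOn_ff log_nat_tendsto)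
open Pool.Agent.Helper112.E456.SieveAux (DD)

lemma ratio_bound_D {b : ℕ} (hb : 2 ≤ b) (D : ℕ) : ∃ C : ℝ, 0 < C ∧ ∀ᶠ q : ℕ in atTop, ∀ h r : ℕ,
    0 < r → r ≤ b ^ (D * q) →
    ((MM q b h r : ℕ) : ℝ) / (Nat.totient (MM q b h r) : ℝ) ≤ C * Real.log q := by
  obtain ⟨C, hC, hV⟩ := VV_le_log
  refine ⟨C * Real.exp (2 * (D * Real.log b)), by positivity, ?_⟩
  filter_upwards [hV, log_nat_tendsto.eventually_ge_atTop 1, eventually_ge_atTop b,
    eventually_ge_atTop 2] with q hVq hlq hbq hq2 h r hr hrb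
  set M := MM q b h r with hM
  have hM0 : M ≠ 0 := MM_ne hb hr
  have hq0 : (0 : ℝ) < q := by positivity
  have hlb : 0 < Real.log b := Real.log_pos (by exact_mod_cast hb)
  -- formula
  have hφ : (Nat.totient M : ℝ) = M * ∏ p ∈ M.primeFactors, (1 - (p : ℝ)⁻¹) := by
    have h1 := Nat.totient_eq_mul_prod_factors M
    have h2 : ((Nat.totient M : ℚ) : ℝ) =
        ((M * ∏ p ∈ M.primeFactors, (1 - (p : ℚ)⁻¹) : ℚ) : ℝ) := by rw [h1]
    push_cast at h2
    exact h2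
  have hMr : (M : ℝ) ≠ 0 := by exact_mod_cast hM0
  have hratio : (M : ℝ) / (Nat.totient M : ℝ) = ∏ p ∈ M.primeFactors, (1 - (p : ℝ)⁻¹)⁻¹ := by
    rw [hφ, Finset.prod_inv_distrib, div_mul_eq_div_div, div_self hMr, one_div]
  have hfac1 : ∀ p : ℕ, p.Prime → 1 ≤ (1 - (p : ℝ)⁻¹)⁻¹ := by
    intro p hp
    have h2 : (2 : ℝ) ≤ p := by exact_mod_cast hp.two_le
    have hx : (p : ℝ)⁻¹ ≤ 1 / 2 := by rw [← one_div]; exact one_div_le_one_div_of_le (by norm_num) h2
    have hx0 : 0 < (p : ℝ)⁻¹ := by positivity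
    exact (one_le_inv₀ (by linarith)).2 (by linarith)
  rw [hratio]
  set A := (Icc 1 q).filter Nat.Prime with hA
  set B := r.primeFactors.filter (fun l => q < l) with hB
  have hsub : M.primeFactors ⊆ A ∪ B := by
    intro l hl
    have hlp := Nat.prime_of_mem_primeFactors hl
    have hld := Nat.dvd_of_mem_primeFactors hl
    rw [mem_union, hA, mem_filter, mem_Icc, hB, mem_filter, Nat.mem_primeFactors]
    by_cases hlq' : l ≤ q
    · left; exact ⟨⟨hlp.one_lt.le, hlq'⟩, hlp⟩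
    · right
      rw [hM, MM] at hld
      rcases (Nat.Prime.dvd_mul hlp).1 hld with h1 | h1
      · exact absurd (le_of_dvd_primorial hlp h1) hlq'
      · rcases (Nat.Prime.dvd_mul hlp).1 h1 with h2 | h2
        · have h3 := Nat.le_of_dvd (by omega) (hlp.dvd_of_dvd_pow h2)
          omega
        · exact ⟨⟨hlp, h2, hr.ne'⟩, by omega⟩
  have hdisj : Disjoint A B := by
    rw [Finset.disjoint_left]
    intro l h1 h2
    rw [hA, mem_filter, mem_Icc] at h1
    rw [hB, mem_filter] at h2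
    omega
  have hAB : ∀ p ∈ A ∪ B, p.Prime := by
    intro p hp
    rw [mem_union] at hp
    rcases hp with hp | hp
    · exact (mem_filter.1 hp).2
    · exact Nat.prime_of_mem_primeFactors (mem_filter.1 hp).1
  have h1 : ∏ p ∈ M.primeFactors, (1 - (p : ℝ)⁻¹)⁻¹ ≤ ∏ p ∈ A ∪ B, (1 - (p : ℝ)⁻¹)⁻¹ := by
    refine Finset.prod_le_prod_of_subset_of_one_le hsub ?_ ?_
    · intro p hp
      have := hfac1 p (Nat.prime_of_mem_primeFactors hp)
      linarith
    · intro p hp _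
      exact hfac1 p (hAB p hp)
  rw [Finset.prod_union hdisj] at h1
  have hVA : ∏ p ∈ A, (1 - (p : ℝ)⁻¹)⁻¹ = VV q := rfl
  rw [hVA] at h1
  have h2 : ∏ p ∈ B, (1 - (p : ℝ)⁻¹)⁻¹ ≤ Real.exp (2 / q) ^ B.card := by
    rw [← Finset.prod_const]
    refine Finset.prod_le_prod ?_ ?_
    · intro p hp
      have := hfac1 p (Nat.prime_of_mem_primeFactors (mem_filter.1 hp).1)
      linarith
    · intro p hp
      have hp' := mem_filter.1 hp
      refine (inv_factor_le (by have := (Nat.prime_of_mem_primeFactors hp'.1).two_le; omega)).trans ?_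
      rw [Real.exp_le_exp]
      refine div_le_div_of_nonneg_left (by norm_num) hq0 ?_
      exact_mod_cast hp'.2.le
  have h3 : q ^ B.card ≤ r := by
    calc q ^ B.card ≤ ∏ l ∈ B, l := by
          rw [← Finset.prod_const]
          exact Finset.prod_le_prod' fun l hl => (mem_filter.1 hl).2.le
      _ ≤ ∏ l ∈ r.primeFactors, l := by
          refine Finset.prod_le_prod_of_subset_of_one_le' (filter_subset _ _) ?_
          intro l hl _
          exact (Nat.prime_of_mem_primeFactors hl).one_lt.le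
      _ ≤ r := Nat.le_of_dvd hr (Nat.prod_primeFactors_dvd r)
  have h4 : (B.card : ℝ) * Real.log q ≤ ((D * q : ℕ) : ℝ) * Real.log b := by
    rw [← Real.log_pow, ← Real.log_pow]
    refine Real.log_le_log (by positivity) ?_
    exact_mod_cast h3.trans hrb
  have h5 : Real.exp (2 / q) ^ B.card ≤ Real.exp (2 * (D * Real.log b)) := by
    rw [← Real.exp_nat_mul, Real.exp_le_exp]
    have h6 : (B.card : ℝ) ≤ (D * q) * Real.log b := by
      have hc : (0 : ℝ) ≤ B.card := Nat.cast_nonneg _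
      push_cast at h4
      calc (B.card : ℝ) ≤ B.card * Real.log q := by nlinarith
        _ ≤ (D * q) * Real.log b := h4
    calc (B.card : ℝ) * (2 / q) ≤ ((D * q) * Real.log b) * (2 / q) := by gcongr
      _ = 2 * (D * Real.log b) := by field_simp
  have hV0 := VV_nonneg q
  calc ∏ p ∈ M.primeFactors, (1 - (p : ℝ)⁻¹)⁻¹ ≤ VV q * ∏ p ∈ B, (1 - (p : ℝ)⁻¹)⁻¹ := h1
    _ ≤ VV q * Real.exp (2 * (D * Real.log b)) := mul_le_mul_of_nonneg_left (h2.trans h5) hV0
    _ ≤ (C * Real.log q) * Real.exp (2 * (D * Real.log b)) := by gcongr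
    _ = _ := by ring

/-- the sieve bound for the pairs `(N, b ^ h N + r)`; `r ≠ 0` may be negative -/
lemma near_z {b : ℕ} (hb : 2 ≤ b) (D : ℕ) : ∃ C : ℝ, 0 < C ∧ ∀ᶠ p : ℕ in atTop, ∀ (h : ℕ) (r : ℤ),
    h ≤ p → r ≠ 0 → r.natAbs ≤ b ^ (D * p) → ∀ Y : ℝ, Real.log b / 2 * p ≤ Y →
    2 * r.natAbs ≤ b ^ h * (⌊Real.exp Y⌋₊ - 1) → ∀ S : Finset ℕ,
    S ⊆ Icc ⌊Real.exp Y⌋₊ ⌊Real.exp (Y + 2)⌋₊ →
    (∀ N ∈ S, ((roughPart p N).Prime ∧ ((N / roughPart p N : ℕ) : ℝ) < Real.exp (Y / 2)) ∧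
      ((roughPart (p + h) (((b ^ h * N : ℕ) : ℤ) + r).toNat).Prime ∧
        ((((((b ^ h * N : ℕ) : ℤ) + r).toNat) / roughPart (p + h) ((((b ^ h * N : ℕ) : ℤ) + r).toNat) : ℕ) : ℝ) <
          Real.exp (Y / 2))) →
    (S.card : ℝ) ≤ C * (Real.log p / p) ^ 2 * Real.exp Y := by
  obtain ⟨C0, hC0, hsv⟩ := sift_two
  obtain ⟨C1, hC1, hrat⟩ := ratio_bound_D hb D
  have hlb : 0 < Real.log b := Real.log_pos (by exact_mod_cast hb)
  refine ⟨C0 * (2 * C1) ^ 2 * 9 / (Real.log b / 2) ^ 2, by positivity, ?_⟩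
  obtain ⟨P, hP⟩ := eventually_atTop.1 hrat
  have hlarge : ∀ᶠ p : ℕ in atTop, 16 * 2 / Real.log b < p :=
    tendsto_natCast_atTop_atTop.eventually_gt_atTop _
  filter_upwards [eventually_ge_atTop P, hlarge, eventually_ge_atTop 2] with p hpP hpl hp2
    h r hhp hr hrb Y hY hrN S hS hSc
  have hp2' : (2 : ℝ) ≤ p := by exact_mod_cast hp2
  have hp0 : (0 : ℝ) < p := by linarith
  have hY16 : 16 ≤ Y := by
    rw [div_lt_iff₀ hlb] at hpl
    nlinarith
  set q := p + h with hq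
  set N0 := ⌊Real.exp Y⌋₊ with hN0
  set N1 := ⌊Real.exp (Y + 2)⌋₊ with hN1
  have hEpos := Real.exp_pos Y
  have hN0le : (N0 : ℝ) ≤ Real.exp Y := Nat.floor_le hEpos.le
  have hN0gt : Real.exp Y < N0 + 1 := Nat.lt_floor_add_one _
  have hN1le : (N1 : ℝ) ≤ Real.exp (Y + 2) := Nat.floor_le (Real.exp_pos _).le
  have hN1gt : Real.exp (Y + 2) < N1 + 1 := Nat.lt_floor_add_one _
  have hE17 : (17 : ℝ) ≤ Real.exp Y := by have := Real.add_one_le_exp Y; linarith
  have hN0pos : 2 ≤ N0 := by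
    have : (2 : ℝ) < ((N0 + 1 : ℕ) : ℝ) := by push_cast; linarith
    have : 2 < N0 + 1 := by exact_mod_cast this
    omega
  have hN01 : N0 ≤ N1 := Nat.floor_mono (Real.exp_le_exp.2 (by linarith))
  set H := N1 - N0 + 1 with hH
  have hHr : (H : ℝ) = N1 - N0 + 1 := by rw [hH]; push_cast [Nat.cast_sub hN01]; ring
  have hexp1 := Real.exp_one_gt_d9
  have hexp2 := Real.exp_one_lt_d9
  have hEe : Real.exp (Y + 2) = Real.exp Y * (Real.exp 1 * Real.exp 1) := by
    rw [← Real.exp_add, ← Real.exp_add]; ring_nf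
  have hee1 : 7 ≤ Real.exp 1 * Real.exp 1 := by nlinarith
  have hee2 : Real.exp 1 * Real.exp 1 ≤ 7.5 := by nlinarith
  have hHge : Real.exp Y ≤ H := by rw [hHr]; nlinarith
  have hHle : (H : ℝ) ≤ 9 * Real.exp Y := by
    rw [hHr]
    have : (0 : ℝ) ≤ N0 := Nat.cast_nonneg _
    nlinarith
  have hH0 : (0 : ℝ) < H := by linarith
  have hH2 : 2 ≤ H := by
    have : (2 : ℝ) ≤ (H : ℝ) := by linarith
    exact_mod_cast this
  have hE2Y : 9 * Real.exp Y ≤ Real.exp (2 * Y) := by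
    have : Real.exp (2 * Y) = Real.exp Y * Real.exp Y := by rw [← Real.exp_add]; ring_nf
    rw [this]; nlinarith
  have hz : (H : ℝ) ^ ((1 : ℝ) / 8) ≤ Real.exp (Y / 4) := by
    calc (H : ℝ) ^ ((1 : ℝ) / 8) ≤ (Real.exp (2 * Y)) ^ ((1 : ℝ) / 8) :=
          Real.rpow_le_rpow hH0.le (hHle.trans hE2Y) (by norm_num)
      _ = Real.exp (Y / 4) := by rw [← Real.exp_mul]; ring_nf
  have hzS : Real.exp (Y / 4) * Real.exp (Y / 2) ≤ N0 / 2 := by
    rw [← Real.exp_add]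
    have e1 : Real.exp Y = Real.exp (Y / 4 + Y / 2) * Real.exp (Y / 4) := by
      rw [← Real.exp_add]; ring_nf
    have e2 : (5 : ℝ) ≤ Real.exp (Y / 4) := by have := Real.add_one_le_exp (Y / 4); linarith
    have e3 := Real.exp_pos (Y / 4 + Y / 2)
    nlinarith
  have hzS' : Real.exp (Y / 4) * Real.exp (Y / 2) ≤ N0 := by
    have : (0 : ℝ) ≤ N0 := Nat.cast_nonneg _
    linarith
  set T := S.image (fun N => N - (N0 - 1)) with hT
  have hcard : S.card = T.card := by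
    rw [hT, Finset.card_image_of_injOn]
    intro x hx y hy hxy
    have h1 := mem_Icc.1 (hS hx)
    have h2 := mem_Icc.1 (hS hy)
    simp only at hxy
    omega
  have hTm : ∀ n ∈ T, 1 ≤ n ∧ n ≤ H ∧ n + (N0 - 1) ∈ S := by
    intro n hn
    rw [hT, mem_image] at hn
    obtain ⟨N, hN, rfl⟩ := hn
    have h1 := mem_Icc.1 (hS hN)
    have e : N - (N0 - 1) + (N0 - 1) = N := by omega
    rw [e]
    exact ⟨by omega, by omega, hN⟩
  have hB1 : 1 ≤ b ^ h := Nat.one_le_pow _ _ (by omega)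
  -- second coefficient
  obtain ⟨b2, hb2⟩ : ∃ b2 : ℕ, ((b2 : ℕ) : ℤ) = ((b ^ h * (N0 - 1) : ℕ) : ℤ) + r := by
    refine ⟨(((b ^ h * (N0 - 1) : ℕ) : ℤ) + r).toNat, ?_⟩
    rw [Int.toNat_of_nonneg]
    have h1 : (r.natAbs : ℤ) ≤ ((b ^ h * (N0 - 1) : ℕ) : ℤ) := by
      have : r.natAbs ≤ b ^ h * (N0 - 1) := by omega
      exact_mod_cast this
    have h2 : -(r.natAbs : ℤ) ≤ r := by omega
    linarith
  have hform : ∀ n : ℕ, (((b ^ h * (n + (N0 - 1)) : ℕ) : ℤ) + r).toNat = b ^ h * n + b2 := by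
    intro n
    have : ((b ^ h * (n + (N0 - 1)) : ℕ) : ℤ) + r = ((b ^ h * n + b2 : ℕ) : ℤ) := by
      push_cast
      rw [hb2]
      push_cast
      ring
    rw [this]
    exact Int.toNat_natCast _
  have hlow : ∀ n : ℕ, 1 ≤ n → (N0 : ℝ) / 2 ≤ ((b ^ h * n + b2 : ℕ) : ℝ) := by
    intro n hn
    have h1 : N0 ≤ 2 * (b ^ h * n + b2) := by
      have h2 : (2 * (b2 : ℤ)) ≥ ((b ^ h * (N0 - 1) : ℕ) : ℤ) := by
        have h3 : 2 * (r.natAbs : ℤ) ≤ ((b ^ h * (N0 - 1) : ℕ) : ℤ) := by exact_mod_cast hrN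
        have h4 : -(r.natAbs : ℤ) ≤ r := by omega
        rw [hb2]
        linarith
      have h5 : b ^ h * (N0 - 1) ≤ 2 * b2 := by exact_mod_cast h2
      have h6 : N0 - 1 ≤ b ^ h * (N0 - 1) := Nat.le_mul_of_pos_left _ (by omega)
      have h7 : 1 ≤ b ^ h * n := Nat.mul_pos (by omega) hn
      omega
    have h2 : (N0 : ℝ) ≤ 2 * ((b ^ h * n + b2 : ℕ) : ℝ) := by exact_mod_cast h1
    linarith
  have hr0 : 0 < r.natAbs := Int.natAbs_pos.2 hr
  have hq2 : 2 ≤ q := by omega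
  have hM0 : MM q b h r.natAbs ≠ 0 := MM_ne hb hr0
  have hDD : DD 1 (N0 - 1) (b ^ h) b2 ∣ MM q b h r.natAbs := by
    have e : DD 1 (N0 - 1) (b ^ h) b2 = b ^ h * r.natAbs := by
      unfold DD
      have e2 : ((((1 * b2 : ℕ) : ℤ)) - ((b ^ h * (N0 - 1) : ℕ) : ℤ)).natAbs = r.natAbs := by
        have : ((((1 * b2 : ℕ) : ℤ)) - ((b ^ h * (N0 - 1) : ℕ) : ℤ)) = r := by
          rw [one_mul, hb2]; ring
        rw [this]
      rw [e2, one_mul]
    rw [e]; unfold MM; exact dvd_mul_left _ _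
  have hmain := hsv 1 (N0 - 1) (b ^ h) b2 H (MM q b h r.natAbs) one_pos (by omega)
    (two_dvd_MM hq2) hM0 hDD hH2 T (fun n hn => mem_Icc.2 ⟨(hTm n hn).1, (hTm n hn).2.1⟩) (by
      intro n hn l hl hlz hlM
      have hql := lt_of_not_dvd_MM hl hlM
      obtain ⟨hn1, _, hnS⟩ := hTm n hn
      have hQn := hSc _ hnS
      rw [hform n] at hQn
      have e1 : 1 * n + (N0 - 1) = n + (N0 - 1) := by ring
      rw [e1]
      have hnN : N0 ≤ n + (N0 - 1) := by omega
      have hnN' : (N0 : ℝ) ≤ ((n + (N0 - 1) : ℕ) : ℝ) := by exact_mod_cast hnN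
      constructor
      · exact no_mid_prime hQn.1.1 hQn.1.2 (hzS'.trans hnN') hl (by omega) (hlz.trans hz)
      · exact no_mid_prime hQn.2.1 hQn.2.2 (hzS.trans (hlow n hn1)) hl hql (hlz.trans hz))
  have hr1 := hP q (by omega) h r.natAbs hr0 (hrb.trans (Nat.pow_le_pow_right (by omega)
    (Nat.mul_le_mul_left _ (by omega))))
  have hlq : Real.log q ≤ 2 * Real.log p := by
    have hq2p : (q : ℝ) ≤ p * p := by
      have : q ≤ p * p := by nlinarith
      exact_mod_cast this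
    calc Real.log q ≤ Real.log (p * p) := Real.log_le_log (by positivity) hq2p
      _ = 2 * Real.log p := by rw [Real.log_mul hp0.ne' hp0.ne']; ring
  have hlq0 : 0 ≤ Real.log q := Real.log_natCast_nonneg q
  have hlp0 : 0 ≤ Real.log p := Real.log_natCast_nonneg p
  have hr2 : ((MM q b h r.natAbs : ℕ) : ℝ) / (Nat.totient (MM q b h r.natAbs) : ℝ) ≤ 2 * C1 * Real.log p := by
    calc _ ≤ C1 * Real.log q := hr1
      _ ≤ C1 * (2 * Real.log p) := by gcongr
      _ = _ := by ring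
  have hr00 : 0 ≤ ((MM q b h r.natAbs : ℕ) : ℝ) / (Nat.totient (MM q b h r.natAbs) : ℝ) := by positivity
  have hlogH : Real.log b / 2 * p ≤ Real.log H := by
    refine hY.trans ?_
    rw [Real.le_log_iff_exp_le hH0]
    exact hHge
  have hlbp : 0 < Real.log b / 2 * p := by positivity
  rw [hcard]
  calc (T.card : ℝ) ≤ C0 * (((MM q b h r.natAbs : ℕ) : ℝ) / (Nat.totient (MM q b h r.natAbs) : ℝ)) ^ 2 * H /
        (Real.log H) ^ 2 := hmain
    _ ≤ C0 * (2 * C1 * Real.log p) ^ 2 * (9 * Real.exp Y) / (Real.log b / 2 * p) ^ 2 := by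
        gcongr
    _ = _ := by field_simp

end Pool.Agent.W66X
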