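import Mathlib
import Pool.Agent.W66.XE
import Pool.Agent.W66.XD
import Pool.Agent.W66.RE

set_option autoImplicit false

/-!
# Near pairs for shift families over an integer base
-/

namespace Pool.Agent.W66X

open Finset Filter Topology MeasureTheory
open Pool.Agent.W66 (sum_Ap exp_small large_smooth_count NN_bounds)
open Pool.Agent.H447R2.ML (Sh sh_of)
open Pool.Agent.H305R2 (roughPart roughPart_prime SM SM_pos ZZ ZZ_nonneg ZZ_le_exp bounds
  ff NN measurable_ff measurable_NN ff_nonneg ff_le_one integrableOn_ff log_nat_tendsto integral_ind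
  integral_ind_le)

/-- the second integer -/
def mz (B : ℕ) (k0 : ℤ) (x : ℕ × ℕ) : ℕ := (((B * x.1 : ℕ) : ℤ) + (k0 + x.2)).toNat

/-- the arithmetic of the two truncations -/
lemma pair_arith {B : ℕ} (hB0 : 0 < B) {N M : ℕ} {x k' : ℝ} (h1 : (N : ℝ) < x) (h2 : x ≤ N + 1)
    (h3 : (M : ℝ) < B * x + k') (h4 : B * x + k' ≤ M + 1) :
    ∃ j ∈ range (B + 1), mz B ⌊k'⌋ (N, j) = M := by
  have hB : (0 : ℝ) < B := by exact_mod_cast hB0
  have hBx1 := mul_lt_mul_of_pos_left h1 hB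
  have hBx2 := mul_le_mul_of_nonneg_left h2 hB.le
  have hk1 := Int.floor_le k'
  have hk2 := Int.lt_floor_add_one k'
  set r : ℤ := (M : ℤ) - (B * N : ℕ) with hr
  have hrr : (r : ℝ) = M - B * N := by rw [hr]; push_cast; ring
  have hlo : ⌊k'⌋ ≤ r := by
    have : (⌊k'⌋ : ℝ) < ((r + 1 : ℤ) : ℝ) := by
      push_cast
      rw [hrr]
      linarith
    have : ⌊k'⌋ < r + 1 := by exact_mod_cast this
    omega
  have hhi : r ≤ B + ⌊k'⌋ := by
    have : (r : ℝ) < ((B + ⌊k'⌋ + 1 : ℤ) : ℝ) := by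
      push_cast
      rw [hrr]
      linarith
    have : r < B + ⌊k'⌋ + 1 := by exact_mod_cast this
    omega
  refine ⟨(r - ⌊k'⌋).toNat, by rw [mem_range]; omega, ?_⟩
  unfold mz
  have e : (((r - ⌊k'⌋).toNat : ℕ) : ℤ) = r - ⌊k'⌋ := Int.toNat_of_nonneg (by omega)
  simp only [e]
  have e2 : ((B * N : ℕ) : ℤ) + (⌊k'⌋ + (r - ⌊k'⌋)) = (M : ℤ) := by rw [hr]; ring
  rw [e2]
  exact Int.toNat_natCast M

lemma sum_Ap2 {c : ℝ} (hc : 0 < c) : ∃ K : ℝ, 0 < K ∧ ∀ᶠ p : ℕ in atTop, ∀ Y : ℝ, c * p ≤ Y →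
    ∑ N ∈ (Icc ⌊Real.exp Y⌋₊ ⌊Real.exp (Y + 2)⌋₊).filter (fun N => (roughPart p N).Prime),
      1 / (N : ℝ) ≤ K * (Real.log p / p) := by
  obtain ⟨K, hK, hev⟩ := sum_Ap hc
  refine ⟨2 * K, by positivity, ?_⟩
  filter_upwards [hev] with p hp Y hY
  have h1 := hp Y hY
  have h2 := hp (Y + 1) (by linarith)
  rw [show Y + 1 + 1 = Y + 2 by ring] at h2
  have hsub : (Icc ⌊Real.exp Y⌋₊ ⌊Real.exp (Y + 2)⌋₊).filter (fun N => (roughPart p N).Prime) ⊆
      (Icc ⌊Real.exp Y⌋₊ ⌊Real.exp (Y + 1)⌋₊).filter (fun N => (roughPart p N).Prime) ∪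
      (Icc ⌊Real.exp (Y + 1)⌋₊ ⌊Real.exp (Y + 2)⌋₊).filter (fun N => (roughPart p N).Prime) := by
    intro N hN
    rw [mem_filter, mem_Icc] at hN
    rw [mem_union, mem_filter, mem_filter, mem_Icc, mem_Icc]
    rcases le_total N ⌊Real.exp (Y + 1)⌋₊ with h | h
    · exact Or.inl ⟨⟨hN.1.1, h⟩, hN.2⟩
    · exact Or.inr ⟨⟨h, hN.1.2⟩, hN.2⟩
  calc _ ≤ ∑ N ∈ (Icc ⌊Real.exp Y⌋₊ ⌊Real.exp (Y + 1)⌋₊).filter (fun N => (roughPart p N).Prime) ∪
      (Icc ⌊Real.exp (Y + 1)⌋₊ ⌊Real.exp (Y + 2)⌋₊).filter (fun N => (roughPart p N).Prime), 1 / (N : ℝ) :=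
        Finset.sum_le_sum_of_subset_of_nonneg hsub fun _ _ _ => by positivity
    _ ≤ _ := by
        have h3 := Finset.sum_union_inter
          (s₁ := (Icc ⌊Real.exp Y⌋₊ ⌊Real.exp (Y + 1)⌋₊).filter (fun N => (roughPart p N).Prime))
          (s₂ := (Icc ⌊Real.exp (Y + 1)⌋₊ ⌊Real.exp (Y + 2)⌋₊).filter (fun N => (roughPart p N).Prime))
          (f := fun N : ℕ => 1 / (N : ℝ))
        have h4 : 0 ≤ ∑ N ∈
          (Icc ⌊Real.exp Y⌋₊ ⌊Real.exp (Y + 1)⌋₊).filter (fun N => (roughPart p N).Prime) ∩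
          (Icc ⌊Real.exp (Y + 1)⌋₊ ⌊Real.exp (Y + 2)⌋₊).filter (fun N => (roughPart p N).Prime),
          1 / (N : ℝ) := Finset.sum_nonneg fun _ _ => by positivity
        linarith

lemma sum_image_le' {s : Finset (ℕ × ℕ)} (g : ℕ × ℕ → ℕ) (f : ℕ → ℝ) (hf : ∀ m, 0 ≤ f m) :
    ∑ m ∈ s.image g, f m ≤ ∑ x ∈ s, f (g x) := by
  classical
  have h := Finset.sum_fiberwise_of_maps_to (s := s) (t := s.image g) (g := g)
    (fun x hx => mem_image_of_mem g hx) (fun x => f (g x))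
  rw [← h]
  refine Finset.sum_le_sum fun m hm => ?_
  obtain ⟨x, hx, hxm⟩ := mem_image.1 hm
  have hx' : x ∈ s.filter (fun i => g i = m) := mem_filter.2 ⟨hx, hxm⟩
  calc f m = f (g x) := by rw [hxm]
    _ ≤ ∑ i ∈ s.filter (fun i => g i = m), f (g i) :=
        Finset.single_le_sum (f := fun i => f (g i)) (fun i _ => hf _) hx'

lemma exp_consts : 7 ≤ Real.exp 1 * Real.exp 1 ∧ Real.exp 1 * Real.exp 1 ≤ 7.5 ∧
    8 / 5 ≤ Real.exp (1 / 2) ∧ Real.exp (1 / 2) ≤ 17 / 10 ∧ Real.exp 1 ≤ 3 := by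
  have hexp1 := Real.exp_one_gt_d9
  have hexp2 := Real.exp_one_lt_d9
  have hEE : Real.exp (1 / 2) * Real.exp (1 / 2) = Real.exp 1 := by
    rw [← Real.exp_add]; norm_num
  have hhalf0 : 0 < Real.exp (1 / 2) := Real.exp_pos _
  refine ⟨by nlinarith, by nlinarith, by nlinarith, by nlinarith, by linarith⟩

/-- size and range of the second integer -/
lemma mz_facts {B N0 N1 : ℕ} {E : ℝ} {k0 : ℤ} (hB0 : 0 < B) (hE17 : 17 ≤ E) (hN0r : E - 1 ≤ N0)
    (hN01 : N0 ≤ N1) (hk0b : |(k0 : ℝ)| ≤ B * E / 32 + 1) :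
    (∀ j ∈ range (B + 1), (((k0 + (j : ℤ)).natAbs : ℕ) : ℝ) ≤ B * E) ∧
    (∀ j ∈ range (B + 1), 2 * (k0 + (j : ℤ)).natAbs ≤ B * (N0 - 1)) ∧
    (∀ x : ℕ × ℕ, N0 ≤ x.1 → x.2 ∈ range (B + 1) →
      ((mz B k0 x : ℕ) : ℤ) = ((B * x.1 : ℕ) : ℤ) + (k0 + x.2)) ∧
    (∀ x : ℕ × ℕ, N0 ≤ x.1 → x.2 ∈ range (B + 1) → B * E / 4 ≤ ((mz B k0 x : ℕ) : ℝ)) ∧
    (∀ x : ℕ × ℕ, N0 ≤ x.1 → x.1 ≤ N1 → x.2 ∈ range (B + 1) →
      mz B k0 x ≤ B * (2 * (N1 + 1))) := by
  have hBr0 : (0 : ℝ) < (B : ℝ) := by exact_mod_cast hB0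
  have hBr1 : (1 : ℝ) ≤ (B : ℝ) := by exact_mod_cast hB0
  have hBE : (B : ℝ) * 17 ≤ B * E := mul_le_mul_of_nonneg_left hE17 hBr0.le
  have hN02 : 2 ≤ N0 := by
    have : (2 : ℝ) < ((N0 + 1 : ℕ) : ℝ) := by push_cast; linarith
    have : 2 < N0 + 1 := by exact_mod_cast this
    omega
  have hrsize : ∀ j ∈ range (B + 1), (((k0 + (j : ℤ)).natAbs : ℕ) : ℝ) ≤ B * E / 32 + 1 + B := by
    intro j hj
    rw [mem_range] at hj
    have hj' : (j : ℝ) ≤ B := by exact_mod_cast (by omega : j ≤ B)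
    have h1 : (((k0 + (j : ℤ)).natAbs : ℕ) : ℝ) = |(k0 : ℝ) + j| := by
      rw [Nat.cast_natAbs]; push_cast; rfl
    rw [h1]
    have h2 := abs_add_le (k0 : ℝ) (j : ℝ)
    rw [abs_of_nonneg (show (0 : ℝ) ≤ (j : ℝ) from Nat.cast_nonneg j)] at h2
    linarith
  have hrN : ∀ j ∈ range (B + 1), 2 * (k0 + (j : ℤ)).natAbs ≤ B * (N0 - 1) := by
    intro j hj
    have h1 := hrsize j hj
    have h3 : (B : ℝ) * (E - 2) ≤ B * (N0 - 1) := mul_le_mul_of_nonneg_left (by linarith) hBr0.le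
    have h2 : ((2 * (k0 + (j : ℤ)).natAbs : ℕ) : ℝ) ≤ ((B * (N0 - 1) : ℕ) : ℝ) := by
      push_cast [Nat.cast_sub (show 1 ≤ N0 by omega)]
      linarith
    exact_mod_cast h2
  have hmzr : ∀ x : ℕ × ℕ, N0 ≤ x.1 → x.2 ∈ range (B + 1) →
      ((mz B k0 x : ℕ) : ℤ) = ((B * x.1 : ℕ) : ℤ) + (k0 + x.2) := by
    intro x hx1 hx2
    unfold mz
    rw [Int.toNat_of_nonneg]
    have h1 := hrN x.2 hx2
    have h2 : B * (N0 - 1) ≤ B * x.1 := Nat.mul_le_mul_left _ (by omega)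
    have h3 : -((k0 + (x.2 : ℤ)).natAbs : ℤ) ≤ k0 + x.2 := by omega
    have h4 : ((k0 + (x.2 : ℤ)).natAbs : ℤ) ≤ ((B * x.1 : ℕ) : ℤ) := by exact_mod_cast (by omega)
    linarith
  refine ⟨fun j hj => (hrsize j hj).trans (by linarith), hrN, hmzr, ?_, ?_⟩
  · intro x hx1 hx2
    have h1 := hmzr x hx1 hx2
    have h2 : ((mz B k0 x : ℕ) : ℝ) = (B : ℝ) * x.1 + ((k0 : ℝ) + x.2) := by
      have : (((mz B k0 x : ℕ) : ℤ) : ℝ) = ((((B * x.1 : ℕ) : ℤ) + (k0 + x.2) : ℤ) : ℝ) := by rw [h1]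
      push_cast at this
      exact this
    rw [h2]
    have h3 : (N0 : ℝ) ≤ x.1 := by exact_mod_cast hx1
    have h4 := (abs_le.1 hk0b).1
    have h5 : (0 : ℝ) ≤ x.2 := Nat.cast_nonneg _
    have h6 : (B : ℝ) * (E - 1) ≤ B * x.1 := mul_le_mul_of_nonneg_left (by linarith) hBr0.le
    linarith
  · intro x hx0 hx1 hx2
    have h1 := hmzr x hx0 hx2
    have h2 := hrN x.2 hx2
    have h3 : B * x.1 ≤ B * N1 := Nat.mul_le_mul_left _ hx1
    have h4 : B * (N0 - 1) ≤ B * N1 := Nat.mul_le_mul_left _ (by omega)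
    have h5 : k0 + (x.2 : ℤ) ≤ ((k0 + (x.2 : ℤ)).natAbs : ℤ) := by omega
    have h6 : B * (2 * (N1 + 1)) = B * N1 + B * N1 + 2 * B := by ring
    have h8 : (((k0 + (x.2 : ℤ)).natAbs : ℕ) : ℤ) ≤ ((B * N1 : ℕ) : ℤ) := by
      exact_mod_cast (by omega)
    have h9 : ((B * x.1 : ℕ) : ℤ) ≤ ((B * N1 : ℕ) : ℤ) := by exact_mod_cast h3
    have h7 : ((mz B k0 x : ℕ) : ℤ) ≤ ((B * N1 : ℕ) : ℤ) + ((B * N1 : ℕ) : ℤ) := by
      rw [h1]; linarith
    have h8 : mz B k0 x ≤ B * N1 + B * N1 := by exact_mod_cast h7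
    omega

/-- the second integer determines the pair up to two possibilities -/
lemma card_two {B : ℕ} {k0 : ℤ} (hB0 : 0 < B) (U : Finset (ℕ × ℕ)) (T : Finset ℕ)
    (hm : ∀ x ∈ U, x.2 ∈ range (B + 1) ∧ mz B k0 x ∈ T ∧
      ((mz B k0 x : ℕ) : ℤ) = ((B * x.1 : ℕ) : ℤ) + (k0 + x.2)) : U.card ≤ T.card + T.card := by
  classical
  have hmap : ∀ V : Finset (ℕ × ℕ), V ⊆ U → Set.InjOn (mz B k0) (V : Set (ℕ × ℕ)) →
      V.card ≤ T.card := by
    intro V hV hinj
    rw [← Finset.card_image_of_injOn hinj]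
    refine Finset.card_le_card ?_
    intro m hmm
    rw [mem_image] at hmm
    obtain ⟨x, hx, rfl⟩ := hmm
    exact (hm x (hV hx)).2.1
  have hspl : U.card = (U.filter (fun x => x.2 < B)).card + (U.filter (fun x => ¬ x.2 < B)).card := by
    rw [Finset.card_filter_add_card_filter_not]
  have hc1 := hmap (U.filter (fun x => x.2 < B)) (filter_subset _ _) (by
    rintro ⟨x1, x2⟩ hx ⟨y1, y2⟩ hy hxy
    rw [Finset.mem_coe, mem_filter] at hx hy
    have e1 := (hm _ hx.1).2.2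
    have e2 := (hm _ hy.1).2.2
    rw [hxy, e2] at e1
    simp only at e1 hx hy
    have e3 : B * x1 + x2 = B * y1 + y2 := by
      have : ((B * x1 + x2 : ℕ) : ℤ) = ((B * y1 + y2 : ℕ) : ℤ) := by push_cast at e1 ⊢; linarith
      exact_mod_cast this
    have h1 : (B * x1 + x2) / B = x1 := by
      rw [Nat.mul_add_div hB0, Nat.div_eq_of_lt hx.2, add_zero]
    have h2 : (B * y1 + y2) / B = y1 := by
      rw [Nat.mul_add_div hB0, Nat.div_eq_of_lt hy.2, add_zero]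
    have h3 : x1 = y1 := by rw [← h1, ← h2, e3]
    subst h3
    have : x2 = y2 := by omega
    rw [this])
  have hc2 := hmap (U.filter (fun x => ¬ x.2 < B)) (filter_subset _ _) (by
    rintro ⟨x1, x2⟩ hx ⟨y1, y2⟩ hy hxy
    rw [Finset.mem_coe, mem_filter] at hx hy
    have e1 := (hm _ hx.1).2.2
    have e2 := (hm _ hy.1).2.2
    have f1 := mem_range.1 (hm _ hx.1).1
    have f2 := mem_range.1 (hm _ hy.1).1
    rw [hxy, e2] at e1
    simp only at e1 hx hy f1 f2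
    have hx2 : x2 = B := by omega
    have hy2 : y2 = B := by omega
    rw [hx2, hy2] at e1
    have e3 : B * x1 = B * y1 := by
      have : ((B * x1 : ℕ) : ℤ) = ((B * y1 : ℕ) : ℤ) := by push_cast at e1 ⊢; linarith
      exact_mod_cast this
    rw [Nat.eq_of_mul_eq_mul_left hB0 e3, hx2, hy2])
  omega

theorem near_shift {b : ℕ} (hb : 2 ≤ b) {κ C : ℝ} (hκ0 : 0 ≤ κ) (hκ : κ < b) {g : ℕ → ℝ}
    (hg : ∀ p, |g p| ≤ C * κ ^ p) (b0 : ℝ) : ∃ K : ℝ, 0 < K ∧ ∃ P : ℕ, ∀ p ≥ P, ∀ q : ℕ, p < q →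
    q ≤ 2 * p → ∫ t in Set.Ioc b0 (b0 + 1), ff p (ysh b g p t) * ff q (ysh b g q t) ≤
      K * ((Real.log p / p) ^ 2 + ((2 : ℝ) ^ (q - p))⁻¹ * (Real.log p / p)) := by
  classical
  have hbr : (2 : ℝ) ≤ b := by exact_mod_cast hb
  have hb0r : (0 : ℝ) < b := by linarith
  set L := Real.log b with hL
  have hLpos : 0 < L := Real.log_pos (by linarith)
  obtain ⟨K1, hK1, hA⟩ := sum_Ap2 (c := L / 2) (by positivity)
  obtain ⟨C2, hC2, hG⟩ := near_z hb 3
  obtain ⟨P3, hP3⟩ := eventually_atTop.1 (ZZ_le_exp (c := L / 32) (by positivity))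
  have hsm := exp_small (c := L / 16) (by positivity)
  have hpert := pert8 hb0r hκ0 hκ hg (b0 - 1) 64
  have hsh := sh_of hb0r hκ0 hκ hg b0 (b0 + 1)
  have hlarge : ∀ᶠ p : ℕ in atTop, (|b0| + 32) * 2 / L < p :=
    tendsto_natCast_atTop_atTop.eventually_gt_atTop _
  obtain ⟨P, hP⟩ := eventually_atTop.1 (hA.and (hG.and ((eventually_ge_atTop P3).and (hsm.and
    (hlarge.and ((eventually_ge_atTop 3).and (hpert.and hsh)))))))
  refine ⟨2 * (K1 + 8 * (C2 + 40)), by positivity, P, fun p hp q hpq hq2 => ?_⟩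
  obtain ⟨hAp, hGp, hpP3, hsmp, hpl, hp3, hpertp, hshp⟩ := hP p hp
  obtain ⟨_, _, hqP3, _, _, _, hpertq, hshq⟩ := hP q (by omega)
  obtain ⟨h, rfl⟩ : ∃ h, q = p + h := ⟨q - p, by omega⟩
  have hhp : h ≤ p := by omega
  have hp3' : (3 : ℝ) ≤ p := by exact_mod_cast hp3
  have hp0 : (0 : ℝ) < p := by linarith
  have hb0abs := neg_abs_le b0
  have hb0abs' := le_abs_self b0
  rw [div_lt_iff₀ hLpos] at hpl
  -- the basic scale
  set Y := L * p + b0 - 1 / 2 with hY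
  have hYlo : L / 2 * p ≤ Y := by rw [hY]; linarith
  have hY16 : 16 ≤ Y := by rw [hY]; linarith
  set E := Real.exp Y with hE
  have hEpos : 0 < E := Real.exp_pos Y
  have hE17 : 17 ≤ E := by have := Real.add_one_le_exp Y; linarith
  set B := b ^ h with hB
  have hB0 : 0 < B := by positivity
  have hBr : ((B : ℕ) : ℝ) = (b : ℝ) ^ h := by rw [hB]; push_cast; rfl
  have hBr0 : (0 : ℝ) < (B : ℝ) := by exact_mod_cast hB0
  have hBr1 : (1 : ℝ) ≤ (B : ℝ) := by exact_mod_cast hB0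
  set N0 := ⌊Real.exp Y⌋₊ with hN0
  set N1 := ⌊Real.exp (Y + 2)⌋₊ with hN1
  have hN0le : (N0 : ℝ) ≤ E := Nat.floor_le hEpos.le
  have hN0gt : E < N0 + 1 := Nat.lt_floor_add_one _
  have hN1le : (N1 : ℝ) ≤ Real.exp (Y + 2) := Nat.floor_le (Real.exp_pos _).le
  obtain ⟨hee1, hee2, hhalf1, hhalf2, he3⟩ := exp_consts
  have hhalf0 : 0 < Real.exp (1 / 2) := Real.exp_pos _
  have hEe2 : Real.exp (Y + 2) = E * (Real.exp 1 * Real.exp 1) := by
    rw [hE, ← Real.exp_add, ← Real.exp_add]; ring_nf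
  have hEe7 : E * 7 ≤ E * (Real.exp 1 * Real.exp 1) := mul_le_mul_of_nonneg_left hee1 hEpos.le
  have hEe8 : E * (Real.exp 1 * Real.exp 1) ≤ E * 7.5 := mul_le_mul_of_nonneg_left hee2 hEpos.le
  have hN1r : (N1 : ℝ) ≤ 8 * E := by rw [hEe2] at hN1le; linarith
  have hN01r : E ≤ N1 + 1 := by
    have h1 : Real.exp (Y + 2) < N1 + 1 := Nat.lt_floor_add_one _
    rw [hEe2] at h1
    linarith
  have hN0r : E - 1 ≤ N0 := by linarith
  have hN02 : 2 ≤ N0 := by
    have : (2 : ℝ) < ((N0 + 1 : ℕ) : ℝ) := by push_cast; linarith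
    have : 2 < N0 + 1 := by exact_mod_cast this
    omega
  have hN01 : N0 ≤ N1 := Nat.floor_mono (Real.exp_le_exp.2 (by linarith))
  -- size of the shifts
  have hbp : ∀ t : ℝ, Real.exp t * (b : ℝ) ^ p = Real.exp (L * p + t) := by
    intro t
    rw [Real.exp_add, hL, mul_comm (Real.log b), Real.exp_nat_mul, Real.exp_log hb0r, mul_comm]
  have hgp : |g p| ≤ E / 64 := by
    push_cast at hpertp
    have h1 : Real.exp (L * p + (b0 - 1)) ≤ E := by
      rw [hE, hY]; exact Real.exp_le_exp.2 (by linarith)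
    linarith
  have hgq : |g (p + h)| ≤ B * E / 64 := by
    push_cast at hpertq
    have h1 : Real.exp (L * (p + h) + (b0 - 1)) ≤ B * E := by
      rw [hBr, hE, hY]
      have h2 : (b : ℝ) ^ h = Real.exp (L * h) := by
        rw [hL, mul_comm (Real.log b), Real.exp_nat_mul, Real.exp_log hb0r]
      rw [h2, ← Real.exp_add]
      exact Real.exp_le_exp.2 (by linarith)
    linarith
  set k' := g (p + h) - B * g p with hk'
  have hk'b : |k'| ≤ B * E / 32 := by
    calc |k'| ≤ |g (p + h)| + |(B : ℝ) * g p| := abs_sub _ _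
      _ = |g (p + h)| + B * |g p| := by rw [abs_mul, abs_of_pos hBr0]
      _ ≤ B * E / 64 + B * (E / 64) := by gcongr
      _ = _ := by ring
  set k0 := ⌊k'⌋ with hk0
  have hk0b : |(k0 : ℝ)| ≤ B * E / 32 + 1 := by
    have h1 := Int.floor_le k'
    have h2 := Int.lt_floor_add_one k'
    have h3 := abs_le.1 hk'b
    rw [abs_le]
    constructor <;> linarith
  obtain ⟨hrsize, hrN, hmzr, hmzlo, hmzhi⟩ := mz_facts hB0 hE17 hN0r hN01 hk0b
  have hrD : ∀ j ∈ range (B + 1), (k0 + (j : ℤ)).natAbs ≤ b ^ (3 * p) := by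
    intro j hj
    have h1 := hrsize j hj
    have h3 : E ≤ (b : ℝ) ^ p * (b : ℝ) ^ p := by
      have e1 : (b : ℝ) ^ p = Real.exp (L * p) := by
        rw [hL, mul_comm (Real.log b), Real.exp_nat_mul, Real.exp_log hb0r]
      rw [e1, ← Real.exp_add, hE, hY]
      exact Real.exp_le_exp.2 (by linarith)
    have h4 : ((B : ℕ) : ℝ) ≤ (b : ℝ) ^ p := by
      rw [hBr]
      exact pow_le_pow_right₀ (by linarith) hhp
    have h5 : (((k0 + (j : ℤ)).natAbs : ℕ) : ℝ) ≤ ((b ^ (3 * p) : ℕ) : ℝ) := by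
      push_cast
      calc (((k0 + (j : ℤ)).natAbs : ℕ) : ℝ) ≤ B * E := h1
        _ ≤ (b : ℝ) ^ p * ((b : ℝ) ^ p * (b : ℝ) ^ p) := by gcongr
        _ = (b : ℝ) ^ (3 * p) := by rw [← pow_add, ← pow_add]; congr 1; ring
    exact_mod_cast h5
  set Pr : ℕ × ℕ → Prop := fun x => (roughPart p x.1).Prime ∧ (roughPart (p + h) (mz B k0 x)).Prime with hPr
  set Ps := ((Icc N0 N1) ×ˢ (range (B + 1))).filter Pr with hPs
  have hPsm : ∀ x ∈ Ps, N0 ≤ x.1 ∧ x.1 ≤ N1 ∧ x.2 ∈ range (B + 1) ∧ (roughPart p x.1).Prime ∧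
      (roughPart (p + h) (mz B k0 x)).Prime := by
    intro x hx
    rw [hPs, mem_filter, mem_product, mem_Icc] at hx
    exact ⟨hx.1.1.1, hx.1.1.2, hx.1.2, hx.2.1, hx.2.2⟩
  set F := Ps.image (mz B k0) with hF
  have hF1 : ∀ m ∈ F, 1 ≤ m := by
    intro m hm
    rw [hF, mem_image] at hm
    obtain ⟨x, hx, rfl⟩ := hm
    have h1 := hPsm x hx
    have h2 := hmzlo x h1.1 h1.2.2.1
    have h3 : (0 : ℝ) < ((mz B k0 x : ℕ) : ℝ) := lt_of_lt_of_le (by positivity) h2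
    exact_mod_cast h3
  -- pointwise bound
  have hpert8p : ((8 : ℕ) : ℝ) * |g p| ≤ Real.exp (Real.log b * p + (b0 - 1)) := by
    push_cast at hpertp ⊢
    have := abs_nonneg (g p)
    linarith
  have hpert8q : ((8 : ℕ) : ℝ) * |g (p + h)| ≤ Real.exp (Real.log b * ((p + h : ℕ) : ℝ) + (b0 - 1)) := by
    push_cast at hpertq ⊢
    have := abs_nonneg (g (p + h))
    linarith
  have hpt : ∀ t ∈ Set.Ioc b0 (b0 + 1), ff p (ysh b g p t) * ff (p + h) (ysh b g (p + h) t) ≤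
      if NN (ysh b g (p + h) t) ∈ F then (1 : ℝ) else 0 := by
    intro t ht
    unfold ff
    by_cases h1 : (roughPart p (NN (ysh b g p t))).Prime
    · by_cases h2 : (roughPart (p + h) (NN (ysh b g (p + h) t))).Prime
      · rw [if_pos h1, if_pos h2]
        have hmem : NN (ysh b g (p + h) t) ∈ F := by
          obtain ⟨hx1, hx2, _⟩ := exp_ysh hb0r hpert8p (t := t) (by linarith [ht.1])
          obtain ⟨hx3, hx4, _⟩ := exp_ysh hb0r hpert8q (t := t) (by linarith [ht.1])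
          have hn1 := NN_bounds (ysh b g p t)
          have hn2 := NN_bounds (ysh b g (p + h) t)
          rw [hx1] at hn1
          rw [hx3] at hn2
          have hval : Real.exp t * (b : ℝ) ^ (p + h) + g (p + h) =
              B * (Real.exp t * (b : ℝ) ^ p + g p) + k' := by
            rw [hk', hBr, pow_add]; ring
          rw [hval] at hn2
          obtain ⟨j, hj, hjm⟩ := pair_arith hB0 hn1.1 hn1.2 hn2.1 hn2.2
          rw [hF, mem_image]
          refine ⟨(NN (ysh b g p t), j), ?_, hjm⟩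
          rw [hPs, mem_filter, mem_product, mem_Icc]
          -- range of the first integer
          have hXlo : Real.exp (1 / 2) * E < Real.exp t * (b : ℝ) ^ p := by
            rw [hbp, hE, hY, ← Real.exp_add]
            exact Real.exp_lt_exp.2 (by linarith [ht.1])
          have hXhi : Real.exp t * (b : ℝ) ^ p ≤ (Real.exp 1 * Real.exp (1 / 2)) * E := by
            rw [hbp, hE, hY, ← Real.exp_add, ← Real.exp_add]
            exact Real.exp_le_exp.2 (by linarith [ht.2])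
          have hgp' := abs_le.1 hgp
          refine ⟨⟨⟨?_, ?_⟩, hj⟩, h1, ?_⟩
          · have h3 : (N0 : ℝ) ≤ NN (ysh b g p t) := by
              have h4 : 8 / 5 * E ≤ Real.exp (1 / 2) * E := mul_le_mul_of_nonneg_right hhalf1 hEpos.le
              linarith [hn1.2]
            exact_mod_cast h3
          · rw [hN1, Nat.le_floor_iff (Real.exp_pos _).le]
            refine hn1.1.le.trans ?_
            rw [hEe2]
            have h4 : (Real.exp 1 * Real.exp (1 / 2)) * E ≤ (3 * (17 / 10)) * E := by gcongr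
            linarith
          · rw [hjm]; exact h2
        rw [if_pos hmem]; norm_num
      · rw [if_neg h2, mul_zero]; split_ifs <;> norm_num
    · rw [if_neg h1, zero_mul]; split_ifs <;> norm_num
  have hmeasF : Measurable (fun u : ℝ => if NN u ∈ F then (1 : ℝ) else 0) :=
    (measurable_from_nat (f := fun n : ℕ => if n ∈ F then (1 : ℝ) else 0)).comp measurable_NN
  have hmy : ∀ m : ℕ, Measurable (fun t => ff m (ysh b g m t)) := fun m =>
    (measurable_ff m).comp (measurable_ysh _ _ _)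
  have hint1 : IntegrableOn (fun t : ℝ => ff p (ysh b g p t) * ff (p + h) (ysh b g (p + h) t))
      (Set.Ioc b0 (b0 + 1)) := by
    refine Measure.integrableOn_of_bounded (M := 1) (by simp) ((hmy p).mul (hmy (p + h))).aestronglyMeasurable ?_
    refine Eventually.of_forall fun t => ?_
    have h1 := ff_nonneg p (ysh b g p t)
    have h2 := ff_nonneg (p + h) (ysh b g (p + h) t)
    have h3 := ff_le_one p (ysh b g p t)
    have h4 := ff_le_one (p + h) (ysh b g (p + h) t)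
    rw [Real.norm_eq_abs, abs_of_nonneg (mul_nonneg h1 h2)]
    nlinarith
  have hint2 : IntegrableOn (fun t : ℝ => if NN (ysh b g (p + h) t) ∈ F then (1 : ℝ) else 0)
      (Set.Ioc b0 (b0 + 1)) := by
    refine Measure.integrableOn_of_bounded (M := 1) (by simp)
      (hmeasF.comp (measurable_ysh _ _ _)).aestronglyMeasurable ?_
    refine Eventually.of_forall fun t => ?_
    split_ifs <;> simp
  have hstep1 : ∫ t in Set.Ioc b0 (b0 + 1), ff p (ysh b g p t) * ff (p + h) (ysh b g (p + h) t) ≤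
      2 * ∑ x ∈ Ps, 1 / ((mz B k0 x : ℕ) : ℝ) := by
    have h1 : ∫ t in Set.Ioc b0 (b0 + 1), ff p (ysh b g p t) * ff (p + h) (ysh b g (p + h) t) ≤
        ∫ t in Set.Ioc b0 (b0 + 1), (if NN (ysh b g (p + h) t) ∈ F then (1 : ℝ) else 0) :=
      setIntegral_mono_on hint1 hint2 measurableSet_Ioc hpt
    have h2 := (Sh.cov hshq (by omega) (s := b0) (t := b0 + 1) le_rfl (by linarith) le_rfl
      (F := fun u => if NN u ∈ F then (1 : ℝ) else 0) hmeasF (fun x => by split_ifs <;> norm_num)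
      (fun x => by split_ifs <;> norm_num)).1
    have h3 : ∫ u in Set.Ioc (ysh b g (p + h) b0) (ysh b g (p + h) (b0 + 1)),
        (if NN u ∈ F then (1 : ℝ) else 0) ≤ ∑ x ∈ Ps, 1 / ((mz B k0 x : ℕ) : ℝ) := by
      calc _ = _ := integral_ind F hF1 _ _
        _ ≤ ∑ m ∈ F, 1 / (m : ℝ) := Finset.sum_le_sum fun m hm => integral_ind_le (hF1 m hm) _ _
        _ ≤ _ := sum_image_le' (mz B k0) (fun m => 1 / (m : ℝ)) fun m => by positivity
    have h4 : 1 / (((p + h : ℕ) : ℝ)) ≤ 1 / 2 := by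
      apply one_div_le_one_div_of_le (by norm_num)
      push_cast
      have : (0 : ℝ) ≤ h := Nat.cast_nonneg _
      linarith
    have h5 : 0 ≤ ∫ t in Set.Ioc b0 (b0 + 1), (if NN (ysh b g (p + h) t) ∈ F then (1 : ℝ) else 0) :=
      integral_nonneg fun t => by simp only [Pi.zero_apply]; split_ifs <;> norm_num
    have h6 : (1 - 1 / (((p + h : ℕ) : ℝ))) *
        ∫ t in Set.Ioc b0 (b0 + 1), (if NN (ysh b g (p + h) t) ∈ F then (1 : ℝ) else 0) ≤
        ∑ x ∈ Ps, 1 / ((mz B k0 x : ℕ) : ℝ) := le_trans h2 h3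
    have h7 := mul_le_mul_of_nonneg_right (show 1 / 2 ≤ 1 - 1 / (((p + h : ℕ) : ℝ)) by linarith) h5
    linarith
  refine hstep1.trans ?_
  have e2h : p + h - p = h := by omega
  rw [e2h]
  have hinvB : (B : ℝ)⁻¹ ≤ ((2 : ℝ) ^ h)⁻¹ := by
    rw [hBr]
    exact inv_anti₀ (by positivity) (pow_le_pow_left₀ (by norm_num) hbr _)
  set w := Real.log p / p with hw
  have hw0 : 0 ≤ w := div_nonneg (Real.log_natCast_nonneg p) hp0.le
  rw [← Finset.sum_filter_add_sum_filter_not Ps (fun x => k0 + (x.2 : ℤ) = 0)]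
  -- part A
  have hpartA : ∑ x ∈ Ps.filter (fun x => k0 + (x.2 : ℤ) = 0), 1 / ((mz B k0 x : ℕ) : ℝ) ≤
      K1 * (((2 : ℝ) ^ h)⁻¹ * w) := by
    have hsub : Ps.filter (fun x => k0 + (x.2 : ℤ) = 0) ⊆
        ((Icc N0 N1).filter (fun N => (roughPart p N).Prime)) ×ˢ ({(-k0).toNat} : Finset ℕ) := by
      rintro ⟨x1, x2⟩ hx
      rw [mem_filter] at hx
      have h1 := hPsm _ hx.1
      rw [mem_product, mem_filter, mem_singleton, mem_Icc]
      have h2 : k0 + (x2 : ℤ) = 0 := hx.2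
      exact ⟨⟨⟨h1.1, h1.2.1⟩, h1.2.2.2.1⟩, by omega⟩
    calc _ ≤ ∑ x ∈ Ps.filter (fun x => k0 + (x.2 : ℤ) = 0), (B : ℝ)⁻¹ * (1 / (x.1 : ℝ)) := by
          refine Finset.sum_le_sum fun x hx => ?_
          rw [mem_filter] at hx
          have h1 := hPsm _ hx.1
          have h2 := hmzr x h1.1 h1.2.2.1
          rw [hx.2, add_zero] at h2
          have h3 : mz B k0 x = B * x.1 := by exact_mod_cast h2
          rw [h3]
          push_cast
          rw [one_div, mul_inv, one_div]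
      _ ≤ ∑ x ∈ ((Icc N0 N1).filter (fun N => (roughPart p N).Prime)) ×ˢ ({(-k0).toNat} : Finset ℕ),
          (B : ℝ)⁻¹ * (1 / (x.1 : ℝ)) := Finset.sum_le_sum_of_subset_of_nonneg hsub fun _ _ _ => by positivity
      _ = (B : ℝ)⁻¹ * ∑ N ∈ (Icc N0 N1).filter (fun N => (roughPart p N).Prime), 1 / (N : ℝ) := by
          rw [Finset.sum_product, Finset.mul_sum]
          refine Finset.sum_congr rfl fun N _ => ?_
          rw [Finset.sum_singleton]
      _ ≤ ((2 : ℝ) ^ h)⁻¹ * (K1 * w) := mul_le_mul hinvB (hAp Y hYlo)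
          (Finset.sum_nonneg fun _ _ => by positivity) (by positivity)
      _ = _ := by ring
  -- part B
  set PB := Ps.filter (fun x => ¬ k0 + (x.2 : ℤ) = 0) with hPB
  set S := Real.exp (Y / 2) with hS
  have hS0 : 0 < S := Real.exp_pos _
  set B1 := PB.filter (fun x => S ≤ ((x.1 / roughPart p x.1 : ℕ) : ℝ)) with hB1
  set B2 := PB.filter (fun x => S ≤ ((mz B k0 x / roughPart (p + h) (mz B k0 x) : ℕ) : ℝ)) with hB2
  set G := PB.filter (fun x => ((x.1 / roughPart p x.1 : ℕ) : ℝ) < S ∧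
    ((mz B k0 x / roughPart (p + h) (mz B k0 x) : ℕ) : ℝ) < S) with hGdef
  have hPBsub : PB ⊆ (B1 ∪ B2) ∪ G := by
    intro x hx
    rw [mem_union, mem_union]
    by_cases h1 : S ≤ ((x.1 / roughPart p x.1 : ℕ) : ℝ)
    · left; left; exact mem_filter.2 ⟨hx, h1⟩
    · by_cases h2 : S ≤ ((mz B k0 x / roughPart (p + h) (mz B k0 x) : ℕ) : ℝ)
      · left; right; exact mem_filter.2 ⟨hx, h2⟩
      · right; exact mem_filter.2 ⟨hx, not_le.1 h1, not_le.1 h2⟩
  have hSm : S ^ (-(1 / 2) : ℝ) = Real.exp (-(Y / 4)) := by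
    rw [hS, ← Real.exp_mul]; ring_nf
  have hq2p : (((p + h : ℕ)) : ℝ) ≤ 2 * p := by
    have : p + h ≤ 2 * p := by omega
    exact_mod_cast this
  have hdecay : ∀ m : ℕ, P3 ≤ m → (m : ℝ) ≤ 2 * p → S ^ (-(1 / 2) : ℝ) * ZZ m ≤ w ^ 2 := by
    intro m hpm hm
    rw [hSm]
    calc Real.exp (-(Y / 4)) * ZZ m ≤ Real.exp (-(Y / 4)) * Real.exp (L / 32 * m) :=
          mul_le_mul_of_nonneg_left (hP3 m hpm) (Real.exp_pos _).le
      _ = Real.exp (-(Y / 4) + L / 32 * m) := (Real.exp_add _ _).symm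
      _ ≤ Real.exp (-(L / 16 * p)) := by
          rw [Real.exp_le_exp]
          have h9 := mul_le_mul_of_nonneg_left hm hLpos.le
          linarith
      _ ≤ _ := hsmp
  have hw20 : 0 ≤ w ^ 2 := by positivity
  have hB2r : (((B + 1 : ℕ)) : ℝ) ≤ 2 * B := by push_cast; linarith
  have hcB1 : (B1.card : ℝ) ≤ 16 * (w ^ 2 * E * B) := by
    have hsub : B1 ⊆ ((Icc 1 N1).filter (fun m => (roughPart p m).Prime ∧
        S ≤ ((m / roughPart p m : ℕ) : ℝ))) ×ˢ (range (B + 1)) := by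
      intro x hx
      rw [hB1, mem_filter] at hx
      have h1 := hPsm x (mem_filter.1 hx.1).1
      rw [mem_product, mem_filter, mem_Icc]
      exact ⟨⟨⟨by omega, h1.2.1⟩, h1.2.2.2.1, hx.2⟩, h1.2.2.1⟩
    have h1 : (B1.card : ℝ) ≤ (((Icc 1 N1).filter (fun m => (roughPart p m).Prime ∧
        S ≤ ((m / roughPart p m : ℕ) : ℝ))).card : ℝ) * ((B + 1 : ℕ) : ℝ) := by
      have := Finset.card_le_card hsub
      rw [Finset.card_product, card_range] at this
      exact_mod_cast this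
    have h2 := large_smooth_count p N1 hS0
    have h3 := hdecay p hpP3 (by linarith)
    have h4 : (0 : ℝ) ≤ N1 := Nat.cast_nonneg _
    calc (B1.card : ℝ) ≤ _ := h1
      _ ≤ (N1 * (S ^ (-(1 / 2) : ℝ) * ZZ p)) * (2 * B) := by
          refine mul_le_mul h2 hB2r (Nat.cast_nonneg _) ?_
          exact mul_nonneg h4 (mul_nonneg (by positivity) (ZZ_nonneg p))
      _ ≤ ((8 * E) * w ^ 2) * (2 * B) := by
          refine mul_le_mul_of_nonneg_right (mul_le_mul hN1r h3 ?_ (by positivity)) (by positivity)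
          exact mul_nonneg (by positivity) (ZZ_nonneg p)
      _ = _ := by ring
  have hcB2 : (B2.card : ℝ) ≤ 64 * (w ^ 2 * E * B) := by
    set T := (Icc 1 (B * (2 * (N1 + 1)))).filter (fun m => (roughPart (p + h) m).Prime ∧
        S ≤ ((m / roughPart (p + h) m : ℕ) : ℝ)) with hT
    have hTc : (T.card : ℝ) ≤ 32 * (w ^ 2 * E * B) := by
      refine (large_smooth_count (p + h) (B * (2 * (N1 + 1))) hS0).trans ?_
      have h2 := hdecay (p + h) hqP3 hq2p
      push_cast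
      have h3 : 2 * ((N1 : ℝ) + 1) ≤ 32 * E := by linarith
      calc ((B : ℝ) * (2 * (N1 + 1))) * (S ^ (-(1 / 2) : ℝ) * ZZ (p + h)) ≤
            ((B : ℝ) * (32 * E)) * w ^ 2 := by
            refine mul_le_mul (mul_le_mul_of_nonneg_left h3 hBr0.le) h2 ?_ (by positivity)
            exact mul_nonneg (by positivity) (ZZ_nonneg _)
        _ = _ := by ring
    have hcard := card_two hB0 B2 T (fun x hx => by
      have hx' := mem_filter.1 hx
      have h1 := hPsm x (mem_filter.1 hx'.1).1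
      refine ⟨h1.2.2.1, ?_, hmzr x h1.1 h1.2.2.1⟩
      rw [hT, mem_filter, mem_Icc]
      refine ⟨⟨?_, hmzhi x h1.1 h1.2.1 h1.2.2.1⟩, h1.2.2.2.2, hx'.2⟩
      exact hF1 _ (mem_image_of_mem _ (mem_filter.1 hx'.1).1))
    have h1 : (B2.card : ℝ) ≤ T.card + T.card := by exact_mod_cast hcard
    linarith
  have hcG : (G.card : ℝ) ≤ 2 * C2 * (w ^ 2 * E * B) := by
    have h1 := Finset.card_eq_sum_card_fiberwise (f := fun x : ℕ × ℕ => x.2) (s := G) (t := range (B + 1)) (by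
      intro x hx
      have hx' := (mem_filter.1 (Finset.mem_coe.1 hx)).1
      rw [Finset.mem_coe]
      exact (hPsm x (mem_filter.1 hx').1).2.2.1)
    rw [h1]
    push_cast
    have h2 : ∀ j ∈ range (B + 1), ((G.filter (fun x => x.2 = j)).card : ℝ) ≤ C2 * w ^ 2 * E := by
      intro j hj
      by_cases h0 : k0 + (j : ℤ) = 0
      · have : G.filter (fun x => x.2 = j) = ∅ := by
          rw [Finset.filter_eq_empty_iff]
          intro x hx hxr
          have := (mem_filter.1 (mem_filter.1 hx).1).2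
          rw [hxr] at this
          exact this h0
        rw [this]
        simp only [Finset.card_empty, Nat.cast_zero]
        positivity
      · have hinj3 : Set.InjOn (fun x : ℕ × ℕ => x.1) (G.filter (fun x => x.2 = j) : Set (ℕ × ℕ)) := by
          rintro ⟨x1, x2⟩ hx ⟨y1, y2⟩ hy hxy
          rw [Finset.mem_coe, mem_filter] at hx hy
          have e1 : x2 = j := hx.2
          have e2 : y2 = j := hy.2
          have e3 : x1 = y1 := hxy
          rw [e1, e2, e3]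
        rw [← Finset.card_image_of_injOn hinj3]
        refine hGp h (k0 + (j : ℤ)) hhp h0 (hrD j hj) Y hYlo (hrN j hj) _ ?_ ?_
        · intro N hN
          rw [mem_image] at hN
          obtain ⟨x, hx, rfl⟩ := hN
          have h3 := hPsm x (mem_filter.1 (mem_filter.1 (mem_filter.1 hx).1).1).1
          exact mem_Icc.2 ⟨h3.1, h3.2.1⟩
        · intro N hN
          rw [mem_image] at hN
          obtain ⟨x, hx, rfl⟩ := hN
          rw [mem_filter, hGdef, mem_filter] at hx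
          have h3 := hPsm x (mem_filter.1 hx.1.1).1
          have h4 : mz B k0 x = (((b ^ h * x.1 : ℕ) : ℤ) + (k0 + (j : ℤ))).toNat := by
            unfold mz
            rw [hx.2]
          have h5 := h3.2.2.2.2
          have h6 := hx.1.2.2
          rw [h4] at h5 h6
          exact ⟨⟨h3.2.2.2.1, hx.1.2.1⟩, h5, h6⟩
    calc ∑ j ∈ range (B + 1), ((G.filter (fun x => x.2 = j)).card : ℝ) ≤
          ∑ j ∈ range (B + 1), C2 * w ^ 2 * E := Finset.sum_le_sum h2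
      _ = ((B + 1 : ℕ) : ℝ) * (C2 * w ^ 2 * E) := by rw [Finset.sum_const, card_range, nsmul_eq_mul]
      _ ≤ (2 * B) * (C2 * w ^ 2 * E) := by gcongr
      _ = _ := by ring
  have hcPB : (PB.card : ℝ) ≤ (2 * C2 + 80) * (w ^ 2 * E * B) := by
    have h1 : (PB.card : ℝ) ≤ B1.card + B2.card + G.card := by
      have h2 := Finset.card_le_card hPBsub
      have h3 := Finset.card_union_le (B1 ∪ B2) G
      have h4 := Finset.card_union_le B1 B2
      exact_mod_cast (by omega : PB.card ≤ B1.card + B2.card + G.card)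
    linarith
  have hpartB : ∑ x ∈ PB, 1 / ((mz B k0 x : ℕ) : ℝ) ≤ 8 * (C2 + 40) * w ^ 2 := by
    have h1 : ∀ x ∈ PB, 1 / ((mz B k0 x : ℕ) : ℝ) ≤ 4 / (B * E) := by
      intro x hx
      have h2 := hPsm x (mem_filter.1 hx).1
      have h3 := hmzlo x h2.1 h2.2.2.1
      calc 1 / ((mz B k0 x : ℕ) : ℝ) ≤ 1 / (B * E / 4) :=
            one_div_le_one_div_of_le (by positivity) h3
        _ = _ := by field_simp
    calc ∑ x ∈ PB, 1 / ((mz B k0 x : ℕ) : ℝ) ≤ ∑ x ∈ PB, 4 / (B * E) := Finset.sum_le_sum h1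
      _ = PB.card * (4 / (B * E)) := by rw [Finset.sum_const, nsmul_eq_mul]
      _ ≤ ((2 * C2 + 80) * (w ^ 2 * E * B)) * (4 / (B * E)) :=
          mul_le_mul_of_nonneg_right hcPB (by positivity)
      _ = _ := by field_simp; ring
  have hA0 : 0 ≤ ((2 : ℝ) ^ h)⁻¹ * w := by positivity
  have h21 := mul_nonneg hK1.le hw20
  have h22 := mul_nonneg hC2.le hA0
  have h23 : 2 * (K1 * (((2 : ℝ) ^ h)⁻¹ * w) + 8 * (C2 + 40) * w ^ 2) ≤
      2 * (K1 + 8 * (C2 + 40)) * (w ^ 2 + ((2 : ℝ) ^ h)⁻¹ * w) := by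
    have e : 2 * (K1 + 8 * (C2 + 40)) * (w ^ 2 + ((2 : ℝ) ^ h)⁻¹ * w) =
      2 * (K1 * (((2 : ℝ) ^ h)⁻¹ * w) + 8 * (C2 + 40) * w ^ 2) + 2 * (K1 * w ^ 2) +
        16 * (C2 * (((2 : ℝ) ^ h)⁻¹ * w)) + 640 * (((2 : ℝ) ^ h)⁻¹ * w) := by ring
    rw [e]
    linarith
  refine le_trans ?_ h23
  exact mul_le_mul_of_nonneg_left (add_le_add hpartA hpartB) (by norm_num)

end Pool.Agent.W66X
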