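import Mathlib
import Pool.Agent.W66.GB
import Pool.Agent.W66.VF
import Pool.Agent.W66.XF
import Pool.Agent.W66.XD
import Pool.Agent.W66.RE

set_option autoImplicit false

/-!
# Near pairs for a base without multiplicative coincidences
-/

namespace Pool.Agent.W66V

open Finset MeasureTheory Filter Topology
open Pool.Agent.W66 (MM MM_ne lt_of_not_dvd_MM no_mid_prime NN_bounds exp_small large_smooth_count)
open Pool.Agent.W66X (ysh measurable_ysh pert8 exp_ysh ratio_bound_D exp_consts)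
open Pool.Agent.H305R2 (roughPart NN ff measurable_NN measurable_ff ff_nonneg ff_le_one ZZ ZZ_nonneg
  ZZ_le_exp integral_ind integral_ind_le log_nat_tendsto)
open Pool.Agent.H447R2.ML (Sh sh_of)

/-- the joint sieve in logarithmic scale -/
theorem joint_sift_log {R M : ℕ} (hR : 1 ≤ R) (hM : M ≠ 0) {ε Y : ℝ} (hε : 0 ≤ ε)
    {ψ : ℝ → ℝ} (hψ : ContinuousOn ψ (Set.Icc (Real.exp Y) (Real.exp 1 * Real.exp Y)))
    (hcorr : ∀ D E : ℕ, 1 ≤ D → D ≤ R ^ 2 → 1 ≤ E → E ≤ R ^ 2 →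
      |(∫ x in (Real.exp Y)..(Real.exp 1 * Real.exp Y), HD D x * HD E (ψ x) / x) - 4 / (D * E)| ≤ ε)
    {f : ℝ → ℝ} (hf : IntegrableOn f (Set.Ioc Y (Y + 1)))
    (hf1 : ∀ y ∈ Set.Ioc Y (Y + 1), f y ≤ 1)
    (hf0 : ∀ y ∈ Set.Ioc Y (Y + 1), 0 < f y → ∃ N N' : ℕ, (N : ℝ) < Real.exp y ∧ Real.exp y ≤ N + 1 ∧
      (N' : ℝ) < ψ (Real.exp y) ∧ ψ (Real.exp y) ≤ N' + 1 ∧
      ∀ l : ℕ, l.Prime → l ≤ R → ¬ l ∣ M → ¬ l ∣ N ∧ ¬ l ∣ N') :
    ∃ J : ℝ, 0 < J ∧ Real.log (R + 1) ≤ 2 * ((M : ℝ) / (Nat.totient M : ℝ)) * J ∧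
      ∫ y in Set.Ioc Y (Y + 1), f y ≤ 4 / J ^ 2 + (R : ℝ) ^ 8 * ε := by
  obtain ⟨w, J, hw1, hwb, hwJ, hJ0, hJlog⟩ := weights R M hR hM
  refine ⟨J, hJ0, hJlog, ?_⟩
  have hX := Real.exp_pos Y
  have hle : Real.exp Y ≤ Real.exp 1 * Real.exp Y := exp_one_mul_le hX
  refine le_trans ?_ (majorant_pair hwb hwJ hX hε hψ hcorr)
  set Φ : ℝ → ℝ := fun x => FM R M w x * FM R M w (ψ x) with hΦ
  have hFMc : Continuous (FM R M w) := by
    unfold FM
    refine continuous_finsetSum _ fun d _ => continuous_finsetSum _ fun e _ => ?_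
    exact continuous_const.mul (HD_continuous _)
  have hΦc : ContinuousOn Φ (Set.Icc (Real.exp Y) (Real.exp 1 * Real.exp Y)) :=
    hFMc.continuousOn.mul (hFMc.comp_continuousOn hψ)
  have hgc : ContinuousOn (fun x => Φ x / x) (Set.Icc (Real.exp Y) (Real.exp 1 * Real.exp Y)) :=
    hΦc.div continuousOn_id (fun x hx => (hX.trans_le hx.1).ne')
  have hmap : Real.exp '' (Set.uIcc Y (Y + 1)) ⊆ Set.Icc (Real.exp Y) (Real.exp 1 * Real.exp Y) := by
    rintro _ ⟨y, hy, rfl⟩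
    rw [Set.uIcc_of_le (by linarith)] at hy
    refine ⟨Real.exp_le_exp.2 hy.1, ?_⟩
    rw [← Real.exp_add]
    exact Real.exp_le_exp.2 (by linarith [hy.2])
  have hcov : ∫ y in Y..(Y + 1), Φ (Real.exp y) =
      ∫ x in (Real.exp Y)..(Real.exp 1 * Real.exp Y), Φ x / x := by
    have h1 := intervalIntegral.integral_comp_mul_deriv' (a := Y) (b := Y + 1) (f := Real.exp)
      (f' := Real.exp) (g := fun x => Φ x / x) (fun x _ => Real.hasDerivAt_exp x)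
      Real.continuous_exp.continuousOn (hgc.mono hmap)
    have h2 : Real.exp (Y + 1) = Real.exp 1 * Real.exp Y := by rw [add_comm, Real.exp_add]
    rw [h2] at h1
    rw [← h1]
    refine intervalIntegral.integral_congr fun y _ => ?_
    have := (Real.exp_pos y).ne'
    simp only [Function.comp]
    field_simp
  have hcontE : ContinuousOn (fun y => Φ (Real.exp y)) (Set.Icc Y (Y + 1)) := by
    refine hΦc.comp Real.continuous_exp.continuousOn fun y hy => ?_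
    exact hmap ⟨y, by rw [Set.uIcc_of_le (by linarith)]; exact hy, rfl⟩
  have hintE : IntegrableOn (fun y => Φ (Real.exp y)) (Set.Ioc Y (Y + 1)) :=
    (hcontE.integrableOn_Icc).mono_set Set.Ioc_subset_Icc_self
  change _ ≤ ∫ x in (Real.exp Y)..(Real.exp 1 * Real.exp Y), Φ x / x
  rw [← hcov, intervalIntegral.integral_of_le (by linarith)]
  refine setIntegral_mono_on hf hintE measurableSet_Ioc fun y hy => ?_
  by_cases h0 : 0 < f y
  · obtain ⟨N, N', k1, k2, k3, k4, k5⟩ := hf0 y hy h0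
    have h1 := FM_ge_one (M := M) hR hw1 k1 k2 (fun l hl hlR hlM => (k5 l hl hlR hlM).1)
    have h2 := FM_ge_one (M := M) hR hw1 k3 k4 (fun l hl hlR hlM => (k5 l hl hlR hlM).2)
    calc f y ≤ 1 := hf1 y hy
      _ = 1 * 1 := by ring
      _ ≤ _ := mul_le_mul h1 h2 zero_le_one (by linarith)
  · exact (not_lt.1 h0).trans (mul_nonneg (FM_nonneg _ _ _ _) (FM_nonneg _ _ _ _))

/-- the primorial modulus -/
lemma ratio_primorial : ∃ C : ℝ, 0 < C ∧ ∀ᶠ q : ℕ in atTop, ∃ M : ℕ, M ≠ 0 ∧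
    (∀ l : ℕ, l.Prime → ¬ l ∣ M → q < l) ∧
    (M : ℝ) / (Nat.totient M : ℝ) ≤ C * Real.log q := by
  obtain ⟨C, hC, hev⟩ := ratio_bound_D (b := 2) le_rfl 0
  refine ⟨C, hC, ?_⟩
  filter_upwards [hev] with q hq
  exact ⟨MM q 2 0 1, MM_ne le_rfl one_pos, fun l hl hd => lt_of_not_dvd_MM hl hd,
    hq 0 1 one_pos (by simp)⟩

lemma size_exp {u v : ℝ} (hu : 0 ≤ u) (h : u + 2 ≤ v) : Real.exp u ≤ 3 / 4 * Real.exp v - 1 := by
  have h1 : Real.exp (u + 2) ≤ Real.exp v := Real.exp_le_exp.2 h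
  have h2 : Real.exp (u + 2) = Real.exp u * (Real.exp 1 * Real.exp 1) := by
    rw [← Real.exp_add, ← Real.exp_add]; ring_nf
  obtain ⟨h3, _, _, _, _⟩ := exp_consts
  have h4 : 1 ≤ Real.exp u := Real.one_le_exp hu
  have h5 := mul_le_mul_of_nonneg_left h3 (Real.exp_pos u).le
  linarith

/-- the value is good for the sieve -/
def good (α : ℝ) (m : ℕ) (y : ℝ) : Prop :=
  (roughPart m (NN y)).Prime ∧ ((NN y / roughPart m (NN y) : ℕ) : ℝ) < Real.exp (Real.log α * m / 4)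

/-- numerical bound for the error term -/
lemma err_bound {R : ℕ} {Z δ L a c Y A : ℝ} {p h : ℕ} (hA1 : 1 ≤ A) (hLd : Real.log A = L - δ)
    (hR : (R : ℝ) ≤ Real.exp (δ * p / 64)) (hhp : h ≤ p) (hY : L * p + c ≤ Y)
    (hZ : 0 ≤ Z) (ha : a = (Z + 2) ^ 2 * Real.exp (-c / 2)) :
    (R : ℝ) ^ 8 * ((((R ^ 2 : ℕ) : ℝ) * (Z + 2)) ^ 2 *
      Real.sqrt (A ^ h * ((R ^ 2 : ℕ) : ℝ) ^ 3 / Real.exp Y)) ≤ a * Real.exp (-(17 * δ / 64 * p)) := by
  have hR0 : (0 : ℝ) ≤ R := Nat.cast_nonneg _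
  have hAh : A ^ h ≤ Real.exp ((L - δ) * p) := by
    have h1 : A ^ h ≤ A ^ p := pow_le_pow_right₀ hA1 hhp
    have h2 : A ^ p = Real.exp ((L - δ) * p) := by
      rw [← hLd, mul_comm, Real.exp_nat_mul, Real.exp_log (by linarith)]
    rw [← h2]; exact h1
  have h1 : A ^ h * ((R ^ 2 : ℕ) : ℝ) ^ 3 / Real.exp Y ≤
      (R : ℝ) ^ 6 * Real.exp (-(δ * p) - c) := by
    rw [div_le_iff₀ (Real.exp_pos Y)]
    have h2 : Real.exp ((L - δ) * p) ≤ Real.exp (-(δ * p) - c) * Real.exp Y := by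
      rw [← Real.exp_add]
      exact Real.exp_le_exp.2 (by linarith)
    push_cast
    calc A ^ h * ((R : ℝ) ^ 2) ^ 3 = (R : ℝ) ^ 6 * A ^ h := by ring
      _ ≤ (R : ℝ) ^ 6 * (Real.exp (-(δ * p) - c) * Real.exp Y) :=
          mul_le_mul_of_nonneg_left (hAh.trans h2) (by positivity)
      _ = _ := by ring
  have h2 : Real.sqrt (A ^ h * ((R ^ 2 : ℕ) : ℝ) ^ 3 / Real.exp Y) ≤
      (R : ℝ) ^ 3 * Real.exp ((-(δ * p) - c) / 2) := by
    refine (Real.sqrt_le_sqrt h1).trans (le_of_eq ?_)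
    have e : (R : ℝ) ^ 6 * Real.exp (-(δ * p) - c) =
        ((R : ℝ) ^ 3 * Real.exp ((-(δ * p) - c) / 2)) ^ 2 := by
      rw [mul_pow, ← Real.exp_nat_mul]
      push_cast
      ring_nf
    rw [e, Real.sqrt_sq (by positivity)]
  have h3 : (R : ℝ) ^ 15 ≤ Real.exp (15 * (δ * p / 64)) := by
    calc (R : ℝ) ^ 15 ≤ (Real.exp (δ * p / 64)) ^ 15 := pow_le_pow_left₀ hR0 hR 15
      _ = _ := by rw [← Real.exp_nat_mul]; push_cast; rfl
  push_cast at h2 ⊢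
  calc (R : ℝ) ^ 8 * (((R : ℝ) ^ 2 * (Z + 2)) ^ 2 * Real.sqrt (A ^ h * ((R : ℝ) ^ 2) ^ 3 / Real.exp Y)) ≤
      (R : ℝ) ^ 8 * (((R : ℝ) ^ 2 * (Z + 2)) ^ 2 * ((R : ℝ) ^ 3 * Real.exp ((-(δ * p) - c) / 2))) := by
        gcongr
    _ = (Z + 2) ^ 2 * ((R : ℝ) ^ 15 * Real.exp ((-(δ * p) - c) / 2)) := by ring
    _ ≤ (Z + 2) ^ 2 * (Real.exp (15 * (δ * p / 64)) * Real.exp ((-(δ * p) - c) / 2)) := by gcongr
    _ = a * Real.exp (-(17 * δ / 64 * p)) := by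
        rw [ha, mul_assoc, ← Real.exp_add, ← Real.exp_add]
        ring_nf

/-- numerical bound for the main term -/
lemma main_bound {J C δ : ℝ} {p q R M : ℕ} (hJ : 0 < J) (hC : 0 < C) (hδ : 0 < δ) (hp : 2 ≤ p)
    (hq2 : q ≤ 2 * p) (hq : 2 ≤ q)
    (hR : Real.exp (δ * p / 64) ≤ R + 1) (hM : (M : ℝ) / (Nat.totient M : ℝ) ≤ C * Real.log q)
    (h : Real.log (R + 1) ≤ 2 * ((M : ℝ) / (Nat.totient M : ℝ)) * J) :
    4 / J ^ 2 ≤ 4 * (256 * C / δ) ^ 2 * (Real.log p / p) ^ 2 := by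
  have hp0 : (0 : ℝ) < p := by positivity
  have hp2 : (2 : ℝ) ≤ p := by exact_mod_cast hp
  have h1 : δ * p / 64 ≤ Real.log (R + 1) := by
    rw [Real.le_log_iff_exp_le (by positivity)]; exact hR
  have hlq : Real.log q ≤ 2 * Real.log p := by
    have hq2p : (q : ℝ) ≤ p * p := by
      have : q ≤ p * p := by nlinarith
      exact_mod_cast this
    calc Real.log q ≤ Real.log (p * p) := Real.log_le_log (by positivity) hq2p
      _ = 2 * Real.log p := by rw [Real.log_mul hp0.ne' hp0.ne']; ring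
  have hlp : 0 < Real.log p := Real.log_pos (by linarith)
  have h2 : δ * p / 64 ≤ 4 * C * Real.log p * J := by
    calc δ * p / 64 ≤ _ := h1
      _ ≤ _ := h
      _ ≤ 2 * (C * (2 * Real.log p)) * J := by
          have : (M : ℝ) / (Nat.totient M : ℝ) ≤ C * (2 * Real.log p) := hM.trans (by gcongr)
          gcongr
      _ = _ := by ring
  have h3 : 1 / J ≤ 256 * C / δ * (Real.log p / p) := by
    rw [div_le_iff₀ hJ]
    have h4 : δ * p ≤ 256 * C * Real.log p * J := by linarith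
    calc (1 : ℝ) = (δ * p) / (δ * p) := by field_simp
      _ ≤ (256 * C * Real.log p * J) / (δ * p) := div_le_div_of_nonneg_right h4 (by positivity)
      _ = _ := by field_simp
  calc 4 / J ^ 2 = 4 * (1 / J) ^ 2 := by ring
    _ ≤ 4 * (256 * C / δ * (Real.log p / p)) ^ 2 := by gcongr
    _ = _ := by ring

end Pool.Agent.W66V
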