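import Mathlib
import Pool.Agent.W66.GD

set_option autoImplicit false

/-!
# Near pairs for a base without multiplicative coincidences
-/

namespace Pool.Agent.W66V

open Finset MeasureTheory Filter Topology
open Pool.Agent.W66 (no_mid_prime NN_bounds exp_small large_smooth_count)
open Pool.Agent.W66X (ysh measurable_ysh pert8 exp_ysh exp_consts)
open Pool.Agent.H305R2 (roughPart NN ff measurable_NN measurable_ff ff_nonneg ff_le_one ZZ ZZ_nonneg
  ZZ_le_exp integral_ind integral_ind_le log_nat_tendsto)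
open Pool.Agent.H447R2.ML (Sh sh_of)

/-- the value has a large smooth part -/
def bad (α : ℝ) (m : ℕ) (y : ℝ) : Prop :=
  (roughPart m (NN y)).Prime ∧ Real.exp (Real.log α * m / 4) ≤ ((NN y / roughPart m (NN y) : ℕ) : ℝ)

lemma measurableSet_bad (α : ℝ) (m : ℕ) : MeasurableSet {y : ℝ | bad α m y} := by
  have h : {y : ℝ | bad α m y} = NN ⁻¹' {N : ℕ | (roughPart m N).Prime ∧
      Real.exp (Real.log α * m / 4) ≤ ((N / roughPart m N : ℕ) : ℝ)} := rfl
  rw [h]
  exact measurable_NN (MeasurableSet.of_discrete)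

/-- the range of the phase function -/
lemma sh_range {a a0 : ℝ} {p : ℕ} {y y' : ℝ → ℝ} (h : Sh a a0 (a0 + 1) p y y') (hp : 3 ≤ p) :
    ∀ t ∈ Set.Icc a0 (a0 + 1), a * p + (a0 - 1 / 2) < y t ∧ y t ≤ a * p + (a0 - 1 / 2) + 2 := by
  intro t ht
  have h1 := abs_le.1 (h.near t ht)
  have h2 : 1 / (p : ℝ) ≤ 1 / 3 := one_div_le_one_div_of_le (by norm_num) (by exact_mod_cast hp)
  constructor <;> linarith [ht.1, ht.2, h1.1, h1.2]

open Classical in
/-- integers with a large smooth part are rare -/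
theorem large_part {α κ C : ℝ} (hα : 1 < α) (hκ0 : 0 ≤ κ) (hκ : κ < α) {g : ℕ → ℝ}
    (hg : ∀ p, |g p| ≤ C * κ ^ p) (b0 : ℝ) : ∀ᶠ m : ℕ in atTop,
      ∫ t in Set.Ioc b0 (b0 + 1), (if bad α m (ysh α g m t) then (1 : ℝ) else 0) ≤
        32 * Real.exp (-(3 * Real.log α / 32 * m)) := by
  have hα0 : 0 < α := by linarith
  set L := Real.log α with hL
  have hLpos : 0 < L := Real.log_pos hα
  have hsh := sh_of hα0 hκ0 hκ hg b0 (b0 + 1)
  have hlarge : ∀ᶠ p : ℕ in atTop, (|b0| + 4) / L < p :=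
    tendsto_natCast_atTop_atTop.eventually_gt_atTop _
  filter_upwards [ZZ_le_exp (c := L / 32) (by positivity), hsh, hlarge, eventually_ge_atTop 3] with
    m hZ hshm hml hm3
  have hm0 : (0 : ℝ) < m := by positivity
  rw [div_lt_iff₀ hLpos] at hml
  have hrange := sh_range hshm hm3
  set Y := L * m + (b0 - 1 / 2) with hY
  set E := Real.exp Y with hE
  have hEpos : 0 < E := Real.exp_pos _
  have hb0abs := neg_abs_le b0
  have hE3 : 3 ≤ E := by
    have := Real.add_one_le_exp Y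
    have h1 : 2 ≤ Y := by linarith
    linarith
  set N0 := ⌊Real.exp Y⌋₊ with hN0
  set N1 := ⌊Real.exp (Y + 2)⌋₊ with hN1
  have hN0gt : E < N0 + 1 := Nat.lt_floor_add_one _
  have hN1le : (N1 : ℝ) ≤ Real.exp (Y + 2) := Nat.floor_le (Real.exp_pos _).le
  obtain ⟨_, hee2, _, _, _⟩ := exp_consts
  have hEe2 : Real.exp (Y + 2) = E * (Real.exp 1 * Real.exp 1) := by
    rw [hE, ← Real.exp_add, ← Real.exp_add]; ring_nf
  have hN1r : (N1 : ℝ) ≤ 8 * E := by
    rw [hEe2] at hN1le
    have := mul_le_mul_of_nonneg_left hee2 hEpos.le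
    linarith
  have hN0r : E / 2 ≤ N0 := by linarith
  have hN01 : 1 ≤ N0 := by
    have : (1 : ℝ) < ((N0 + 1 : ℕ) : ℝ) := by push_cast; linarith
    have : 1 < N0 + 1 := by exact_mod_cast this
    omega
  set S := Real.exp (L * m / 4) with hS
  have hS0 : 0 < S := Real.exp_pos _
  set F := (Icc N0 N1).filter (fun N => (roughPart m N).Prime ∧ S ≤ ((N / roughPart m N : ℕ) : ℝ)) with hF
  have hF1 : ∀ N ∈ F, 1 ≤ N := by
    intro N hN
    rw [hF, mem_filter, mem_Icc] at hN
    omega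
  have hpt : ∀ t ∈ Set.Ioc b0 (b0 + 1), (if bad α m (ysh α g m t) then (1 : ℝ) else 0) ≤
      if NN (ysh α g m t) ∈ F then (1 : ℝ) else 0 := by
    intro t ht
    by_cases h : bad α m (ysh α g m t)
    · have hmem : NN (ysh α g m t) ∈ F := by
        obtain ⟨h1, h2⟩ := h
        rw [hF, mem_filter, mem_Icc]
        obtain ⟨r1, r2⟩ := hrange t ⟨ht.1.le, ht.2⟩
        have r1' : Y < ysh α g m t := r1
        have r2' : ysh α g m t ≤ Y + 2 := r2
        obtain ⟨n1, n2⟩ := NN_bounds (ysh α g m t)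
        have e1 : E < Real.exp (ysh α g m t) := Real.exp_lt_exp.2 r1'
        have e2 : Real.exp (ysh α g m t) ≤ Real.exp (Y + 2) := Real.exp_le_exp.2 r2'
        refine ⟨⟨?_, ?_⟩, h1, h2⟩
        · have h3 : (N0 : ℝ) ≤ E := Nat.floor_le hEpos.le
          have h4 : (N0 : ℝ) < NN (ysh α g m t) + 1 := by linarith
          have h5 : N0 < NN (ysh α g m t) + 1 := by exact_mod_cast h4
          omega
        · rw [hN1, Nat.le_floor_iff (Real.exp_pos _).le]
          linarith
      rw [if_pos h, if_pos hmem]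
    · rw [if_neg h]; split_ifs <;> norm_num
  have hmeasF : Measurable (fun u : ℝ => if NN u ∈ F then (1 : ℝ) else 0) :=
    (measurable_from_nat (f := fun n : ℕ => if n ∈ F then (1 : ℝ) else 0)).comp measurable_NN
  have hint1 : IntegrableOn (fun t : ℝ => if bad α m (ysh α g m t) then (1 : ℝ) else 0)
      (Set.Ioc b0 (b0 + 1)) := by
    refine Measure.integrableOn_of_bounded (M := 1) (by simp) ?_ ?_
    · exact (Measurable.ite ((measurable_ysh α g m) (measurableSet_bad α m)) measurable_const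
        measurable_const).aestronglyMeasurable
    · refine Eventually.of_forall fun t => ?_
      split_ifs <;> simp
  have hint2 : IntegrableOn (fun t : ℝ => if NN (ysh α g m t) ∈ F then (1 : ℝ) else 0)
      (Set.Ioc b0 (b0 + 1)) := by
    refine Measure.integrableOn_of_bounded (M := 1) (by simp)
      (hmeasF.comp (measurable_ysh _ _ _)).aestronglyMeasurable ?_
    refine Eventually.of_forall fun t => ?_
    split_ifs <;> simp
  have h1 := setIntegral_mono_on hint1 hint2 measurableSet_Ioc hpt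
  refine h1.trans ?_
  have h2 := (Sh.cov hshm hm3 (s := b0) (t := b0 + 1) le_rfl (by linarith) le_rfl
      (F := fun u => if NN u ∈ F then (1 : ℝ) else 0) hmeasF (fun x => by split_ifs <;> norm_num)
      (fun x => by split_ifs <;> norm_num)).1
  have h3 : ∫ u in Set.Ioc (ysh α g m b0) (ysh α g m (b0 + 1)),
        (if NN u ∈ F then (1 : ℝ) else 0) ≤ ∑ N ∈ F, 1 / (N : ℝ) := by
      calc _ = _ := integral_ind F hF1 _ _
        _ ≤ ∑ N ∈ F, 1 / (N : ℝ) := Finset.sum_le_sum fun m hm => integral_ind_le (hF1 m hm) _ _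
  have h4 : 1 / (m : ℝ) ≤ 1 / 2 := by
    apply one_div_le_one_div_of_le (by norm_num)
    have : (3 : ℝ) ≤ m := by exact_mod_cast hm3
    linarith
  have h5 : 0 ≤ ∫ t in Set.Ioc b0 (b0 + 1), (if NN (ysh α g m t) ∈ F then (1 : ℝ) else 0) :=
    integral_nonneg fun t => by simp only [Pi.zero_apply]; split_ifs <;> norm_num
  have h6 : (1 - 1 / (m : ℝ)) *
      ∫ t in Set.Ioc b0 (b0 + 1), (if NN (ysh α g m t) ∈ F then (1 : ℝ) else 0) ≤
      ∑ N ∈ F, 1 / (N : ℝ) := le_trans h2 h3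
  have h7 := mul_le_mul_of_nonneg_right (show 1 / 2 ≤ 1 - 1 / (m : ℝ) by linarith) h5
  have hcard : (F.card : ℝ) ≤ (8 * E) * Real.exp (-(3 * L / 32 * m)) := by
    have hsub : F ⊆ (Icc 1 N1).filter (fun N => (roughPart m N).Prime ∧
        S ≤ ((N / roughPart m N : ℕ) : ℝ)) := by
      intro N hN
      rw [hF, mem_filter, mem_Icc] at hN
      rw [mem_filter, mem_Icc]
      exact ⟨⟨by omega, hN.1.2⟩, hN.2⟩
    have c1 : (F.card : ℝ) ≤ (((Icc 1 N1).filter (fun N => (roughPart m N).Prime ∧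
        S ≤ ((N / roughPart m N : ℕ) : ℝ))).card : ℝ) := by exact_mod_cast Finset.card_le_card hsub
    refine (c1.trans (large_smooth_count m N1 hS0)).trans ?_
    have c2 : S ^ (-(1 / 2) : ℝ) = Real.exp (-(L * m / 8)) := by
      rw [hS, ← Real.exp_mul]; ring_nf
    rw [c2]
    have c3 : Real.exp (-(L * m / 8)) * ZZ m ≤ Real.exp (-(3 * L / 32 * m)) := by
      calc Real.exp (-(L * m / 8)) * ZZ m ≤ Real.exp (-(L * m / 8)) * Real.exp (L / 32 * m) :=
            mul_le_mul_of_nonneg_left hZ (Real.exp_pos _).le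
        _ = _ := by rw [← Real.exp_add]; ring_nf
    exact mul_le_mul hN1r c3 (mul_nonneg (Real.exp_pos _).le (ZZ_nonneg m)) (by positivity)
  have hsum : ∑ N ∈ F, 1 / (N : ℝ) ≤ 16 * Real.exp (-(3 * L / 32 * m)) := by
    have c1 : ∀ N ∈ F, 1 / (N : ℝ) ≤ 2 / E := by
      intro N hN
      rw [hF, mem_filter, mem_Icc] at hN
      have c2 : (N0 : ℝ) ≤ N := by exact_mod_cast hN.1.1
      calc 1 / (N : ℝ) ≤ 1 / (E / 2) := one_div_le_one_div_of_le (by positivity) (by linarith)
        _ = _ := by field_simp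
    calc ∑ N ∈ F, 1 / (N : ℝ) ≤ ∑ N ∈ F, 2 / E := Finset.sum_le_sum c1
      _ = F.card * (2 / E) := by rw [Finset.sum_const, nsmul_eq_mul]
      _ ≤ ((8 * E) * Real.exp (-(3 * L / 32 * m))) * (2 / E) :=
          mul_le_mul_of_nonneg_right hcard (by positivity)
      _ = _ := by field_simp; ring
  linarith

/-- **Near pairs.** -/
theorem near_irr {α κ C A : ℝ} (hα : 1 < α) (hκ0 : 0 ≤ κ) (hκ : κ < α) {g : ℕ → ℝ}
    (hg : ∀ p, |g p| ≤ C * κ ^ p) (hA : 1 ≤ A) (hAα : A < α)
    (hdio : ∀ h a b : ℕ, 1 ≤ h → 1 ≤ a → 1 ≤ b → 1 ≤ |(a : ℝ) - b * α ^ h| * (A ^ h * (a + b)))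
    (b0 : ℝ) : ∃ K : ℝ, 0 < K ∧ ∃ P : ℕ, ∀ p ≥ P, ∀ q : ℕ, p < q →
    q ≤ 2 * p → ∫ t in Set.Ioc b0 (b0 + 1), ff p (ysh α g p t) * ff q (ysh α g q t) ≤
      K * ((Real.log p / p) ^ 2 + ((2 : ℝ) ^ (q - p))⁻¹ * (Real.log p / p)) := by
  classical
  have hα0 : 0 < α := by linarith
  set L := Real.log α with hL
  have hLpos : 0 < L := Real.log_pos hα
  obtain ⟨K1, hK1, hW⟩ := near_window hα hκ0 hκ hg hA hAα hdio b0
  have hbig := large_part hα hκ0 hκ hg b0
  have hsh := sh_of hα0 hκ0 hκ hg b0 (b0 + 1)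
  have hpert := pert8 hα0 hκ0 hκ hg b0 8
  have hsm := exp_small (c := 3 * L / 32) (by positivity)
  obtain ⟨P, hP⟩ := eventually_atTop.1 (hW.and (hbig.and (hsh.and (hpert.and (hsm.and
    (eventually_ge_atTop 3))))))
  refine ⟨4 * K1 + 64, by positivity, P, fun p hp q hpq hq2 => ?_⟩
  obtain ⟨hWp, hbp, hshp, hpp, hsmp, hp3⟩ := hP p hp
  obtain ⟨_, hbq, hshq, hpq8, _, _⟩ := hP q (by omega)
  obtain ⟨h, rfl⟩ : ∃ h, q = p + h := ⟨q - p, by omega⟩
  have hh1 : 1 ≤ h := by omega
  have hhp : h ≤ p := by omega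
  have hp3' : (3 : ℝ) ≤ p := by exact_mod_cast hp3
  have hp0 : (0 : ℝ) < p := by linarith
  set w := Real.log p / p with hw
  have hw0 : 0 ≤ w := div_nonneg (Real.log_natCast_nonneg p) hp0.le
  set G : ℝ → ℝ := fun y => if good α p y ∧ good α (p + h)
    (Real.log (α ^ h * Real.exp y + (g (p + h) - α ^ h * g p))) then (1 : ℝ) else 0 with hG
  have hGm : Measurable G := by
    refine Measurable.ite ?_ measurable_const measurable_const
    refine (measurableSet_good α p).inter ?_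
    have h1 : Measurable (fun y : ℝ => Real.log (α ^ h * Real.exp y + (g (p + h) - α ^ h * g p))) :=
      Real.measurable_log.comp ((Real.measurable_exp.const_mul _).add_const _)
    exact h1 (measurableSet_good α (p + h))
  have hG0 : ∀ y, 0 ≤ G y := fun y => by simp only [hG]; split_ifs <;> norm_num
  have hG1 : ∀ y, G y ≤ 1 := fun y => by simp only [hG]; split_ifs <;> norm_num
  set Bp : ℝ → ℝ := fun t => if bad α p (ysh α g p t) then (1 : ℝ) else 0 with hBp
  set Bq : ℝ → ℝ := fun t => if bad α (p + h) (ysh α g (p + h) t) then (1 : ℝ) else 0 with hBq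
  have hBp0 : ∀ t, 0 ≤ Bp t := fun y => by simp only [hBp]; split_ifs <;> norm_num
  have hBq0 : ∀ t, 0 ≤ Bq t := fun y => by simp only [hBq]; split_ifs <;> norm_num
  -- the relation between the two phases
  have hrel : ∀ t ∈ Set.Ioc b0 (b0 + 1), ysh α g (p + h) t =
      Real.log (α ^ h * Real.exp (ysh α g p t) + (g (p + h) - α ^ h * g p)) := by
    intro t ht
    rw [(exp_ysh hα0 hpp ht.1.le).1]
    unfold ysh
    congr 1
    rw [pow_add]
    ring
  have hpt : ∀ t ∈ Set.Ioc b0 (b0 + 1), ff p (ysh α g p t) * ff (p + h) (ysh α g (p + h) t) ≤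
      Bp t + Bq t + G (ysh α g p t) := by
    intro t ht
    have e1 := hBp0 t
    have e2 := hBq0 t
    have e3 := hG0 (ysh α g p t)
    unfold ff
    by_cases h1 : (roughPart p (NN (ysh α g p t))).Prime
    · by_cases h2 : (roughPart (p + h) (NN (ysh α g (p + h) t))).Prime
      · rw [if_pos h1, if_pos h2, mul_one]
        by_cases h3 : bad α p (ysh α g p t)
        · have : Bp t = 1 := by simp only [hBp]; rw [if_pos h3]
          linarith
        · by_cases h4 : bad α (p + h) (ysh α g (p + h) t)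
          · have : Bq t = 1 := by simp only [hBq]; rw [if_pos h4]
            linarith
          · have h5 : good α p (ysh α g p t) := ⟨h1, by
              by_contra hc
              exact h3 ⟨h1, not_lt.1 hc⟩⟩
            have h6 : good α (p + h) (ysh α g (p + h) t) := ⟨h2, by
              by_contra hc
              exact h4 ⟨h2, not_lt.1 hc⟩⟩
            rw [hrel t ht] at h6
            have : G (ysh α g p t) = 1 := by simp only [hG]; rw [if_pos ⟨h5, h6⟩]
            linarith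
      · rw [if_neg h2, mul_zero]; linarith
    · rw [if_neg h1, zero_mul]; linarith
  have hmy : ∀ m : ℕ, Measurable (fun t => ff m (ysh α g m t)) := fun m =>
    (measurable_ff m).comp (measurable_ysh _ _ _)
  have hint1 : IntegrableOn (fun t : ℝ => ff p (ysh α g p t) * ff (p + h) (ysh α g (p + h) t))
      (Set.Ioc b0 (b0 + 1)) := by
    refine Measure.integrableOn_of_bounded (M := 1) (by simp) ((hmy p).mul (hmy (p + h))).aestronglyMeasurable ?_
    refine Eventually.of_forall fun t => ?_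
    have h1 := ff_nonneg p (ysh α g p t)
    have h2 := ff_nonneg (p + h) (ysh α g (p + h) t)
    have h3 := ff_le_one p (ysh α g p t)
    have h4 := ff_le_one (p + h) (ysh α g (p + h) t)
    rw [Real.norm_eq_abs, abs_of_nonneg (mul_nonneg h1 h2)]
    exact mul_le_one₀ h3 h2 h4
  have hiB : ∀ m : ℕ, IntegrableOn (fun t : ℝ => if bad α m (ysh α g m t) then (1 : ℝ) else 0)
      (Set.Ioc b0 (b0 + 1)) := by
    intro m
    refine Measure.integrableOn_of_bounded (M := 1) (by simp) ?_ ?_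
    · exact (Measurable.ite ((measurable_ysh α g m) (measurableSet_bad α m)) measurable_const
        measurable_const).aestronglyMeasurable
    · refine Eventually.of_forall fun t => ?_
      split_ifs <;> simp
  have hiG : IntegrableOn (fun t : ℝ => G (ysh α g p t)) (Set.Ioc b0 (b0 + 1)) := by
    refine Measure.integrableOn_of_bounded (M := 1) (by simp)
      (hGm.comp (measurable_ysh _ _ _)).aestronglyMeasurable ?_
    refine Eventually.of_forall fun t => ?_
    rw [Real.norm_eq_abs, abs_of_nonneg (hG0 _)]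
    exact hG1 _
  have hstep : ∫ t in Set.Ioc b0 (b0 + 1), ff p (ysh α g p t) * ff (p + h) (ysh α g (p + h) t) ≤
      (∫ t in Set.Ioc b0 (b0 + 1), Bp t) + (∫ t in Set.Ioc b0 (b0 + 1), Bq t) +
        ∫ t in Set.Ioc b0 (b0 + 1), G (ysh α g p t) := by
    have i1 : IntegrableOn (fun t => Bp t + Bq t) (Set.Ioc b0 (b0 + 1)) := (hiB p).add (hiB (p + h))
    rw [← integral_add (hiB p) (hiB (p + h)), ← integral_add i1 hiG]
    exact setIntegral_mono_on hint1 (i1.add hiG) measurableSet_Ioc hpt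
  -- the main part
  set Y := L * p + (b0 - 1 / 2) with hY
  have hrange := sh_range hshp hp3
  have hw1 := hWp h hh1 hhp Y le_rfl
  have hw2 := hWp h hh1 hhp (Y + 1) (by linarith)
  have hcov := (Sh.cov hshp hp3 (s := b0) (t := b0 + 1) le_rfl (by linarith) le_rfl
      (F := G) hGm hG0 hG1).1
  have hGint : ∀ u v : ℝ, IntegrableOn G (Set.Ioc u v) := by
    intro u v
    refine Measure.integrableOn_of_bounded (M := 1) (by simp) hGm.aestronglyMeasurable ?_
    refine Eventually.of_forall fun t => ?_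
    rw [Real.norm_eq_abs, abs_of_nonneg (hG0 _)]
    exact hG1 _
  have hmain : ∫ u in Set.Ioc (ysh α g p b0) (ysh α g p (b0 + 1)), G u ≤ 2 * K1 * w ^ 2 := by
    have r1 := (hrange b0 ⟨le_rfl, by linarith⟩).1
    have r2 := (hrange (b0 + 1) ⟨by linarith, le_rfl⟩).2
    have r1' : Y < ysh α g p b0 := r1
    have r2' : ysh α g p (b0 + 1) ≤ Y + 2 := r2
    have hsub : Set.Ioc (ysh α g p b0) (ysh α g p (b0 + 1)) ⊆ Set.Ioc Y (Y + 1) ∪ Set.Ioc (Y + 1) (Y + 1 + 1) := by
      intro u hu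
      rcases le_or_gt u (Y + 1) with hc | hc
      · exact Or.inl ⟨by linarith [hu.1], hc⟩
      · exact Or.inr ⟨hc, by linarith [hu.2]⟩
    calc ∫ u in Set.Ioc (ysh α g p b0) (ysh α g p (b0 + 1)), G u ≤
          ∫ u in Set.Ioc Y (Y + 1) ∪ Set.Ioc (Y + 1) (Y + 1 + 1), G u := by
          refine setIntegral_mono_set ((hGint _ _).union (hGint _ _)) ?_ ?_
          · exact Eventually.of_forall hG0
          · exact (HasSubset.Subset.eventuallyLE hsub)
      _ = (∫ u in Set.Ioc Y (Y + 1), G u) + ∫ u in Set.Ioc (Y + 1) (Y + 1 + 1), G u := by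
          refine setIntegral_union ?_ measurableSet_Ioc (hGint _ _) (hGint _ _)
          rw [Set.disjoint_left]
          intro u hu1 hu2
          exact absurd hu1.2 (not_le.2 hu2.1)
      _ ≤ K1 * w ^ 2 + K1 * w ^ 2 := add_le_add hw1 hw2
      _ = _ := by ring
  have hGnn : 0 ≤ ∫ t in Set.Ioc b0 (b0 + 1), G (ysh α g p t) := integral_nonneg fun t => hG0 _
  have h4 : 1 / (p : ℝ) ≤ 1 / 2 := one_div_le_one_div_of_le (by norm_num) (by linarith)
  have hmain2 : ∫ t in Set.Ioc b0 (b0 + 1), G (ysh α g p t) ≤ 4 * K1 * w ^ 2 := by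
    have h5 := mul_le_mul_of_nonneg_right (show 1 / 2 ≤ 1 - 1 / (p : ℝ) by linarith) hGnn
    have h6 : (1 - 1 / (p : ℝ)) * ∫ t in Set.Ioc b0 (b0 + 1), G (ysh α g p t) ≤ 2 * K1 * w ^ 2 :=
      le_trans hcov hmain
    linarith
  have hBpb : ∫ t in Set.Ioc b0 (b0 + 1), Bp t ≤ 32 * w ^ 2 := by
    refine hbp.trans ?_
    linarith
  have hBqb : ∫ t in Set.Ioc b0 (b0 + 1), Bq t ≤ 32 * w ^ 2 := by
    refine hbq.trans ?_
    have h6 : Real.exp (-(3 * L / 32 * ((p + h : ℕ) : ℝ))) ≤ Real.exp (-(3 * L / 32 * p)) := by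
      rw [Real.exp_le_exp]
      push_cast
      have : 0 ≤ 3 * L / 32 * (h : ℝ) := by positivity
      linarith
    linarith
  have hw20 : 0 ≤ w ^ 2 := sq_nonneg _
  have hx0 : 0 ≤ ((2 : ℝ) ^ (p + h - p))⁻¹ * w := by positivity
  calc _ ≤ _ := hstep
    _ ≤ 32 * w ^ 2 + 32 * w ^ 2 + 4 * K1 * w ^ 2 := add_le_add (add_le_add hBpb hBqb) hmain2
    _ = (4 * K1 + 64) * w ^ 2 := by ring
    _ ≤ (4 * K1 + 64) * (w ^ 2 + ((2 : ℝ) ^ (p + h - p))⁻¹ * w) :=
        mul_le_mul_of_nonneg_left (by linarith) (by positivity)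

end Pool.Agent.W66V
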