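import Mathlib
import Pool.Agent.H305R2.AE2

set_option autoImplicit false

/-!
# An abstract second moment argument over the primes
-/

namespace Pool.Agent.W66S

open Finset Filter Topology MeasureTheory
open Pool.Agent.H305R2 (smp one_le_smp smp_mono log_smp_le log_smp_ge tendsto_smp ae_tendsto_zero
  log_nat_tendsto)

section

variable {α : Type*} [MeasurableSpace α] {μ : Measure α} [IsFiniteMeasure μ]
  {G : ℕ → α → ℝ} (hm : ∀ p, Measurable (G p)) (hb : ∀ p x, |G p x| ≤ 1)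
include hm hb

lemma prod_int (p q : ℕ) : Integrable (fun x => G p x * G q x) μ := by
  refine Integrable.of_bound ((hm p).mul (hm q)).aestronglyMeasurable 1 (Eventually.of_forall fun x => ?_)
  rw [Real.norm_eq_abs, abs_mul]
  have h1 := hb p x
  have h2 := hb q x
  have h3 := abs_nonneg (G p x)
  have h4 := abs_nonneg (G q x)
  nlinarith

/-- second moment from the row sums of the correlation matrix -/
lemma moment_rows (T : Finset ℕ) : ∫ x, (∑ p ∈ T, G p x) ^ 2 ∂μ ≤
    ∑ q ∈ T, ((∫ x, (G q x) ^ 2 ∂μ) + 2 * ∑ p ∈ T.filter (fun p => p < q), |∫ x, G p x * G q x ∂μ|) := by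
  have e1 : ∀ x, (∑ p ∈ T, G p x) ^ 2 = ∑ p ∈ T, ∑ q ∈ T, G p x * G q x := by
    intro x
    rw [sq, Finset.sum_mul_sum]
  simp only [e1]
  rw [integral_finsetSum _ (fun p _ => integrable_finsetSum _ (fun q _ => prod_int hm hb p q))]
  have e2 : ∀ p ∈ T, ∫ x, ∑ q ∈ T, G p x * G q x ∂μ = ∑ q ∈ T, ∫ x, G p x * G q x ∂μ := by
    intro p _
    rw [integral_finsetSum _ (fun q _ => prod_int hm hb p q)]
  rw [Finset.sum_congr rfl e2]
  set J : ℕ → ℕ → ℝ := fun p q => ∫ x, G p x * G q x ∂μ with hJ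
  have hsymm : ∀ p q, J p q = J q p := by
    intro p q
    simp only [hJ]
    congr 1
    ext x
    ring
  have hdiag : ∀ q, ∫ x, (G q x) ^ 2 ∂μ = J q q := by
    intro q
    simp only [hJ, sq]
  have hsplit : ∀ p q, J p q ≤ (if p = q then J q q else 0) + (if p < q then |J p q| else 0) +
      (if q < p then |J q p| else 0) := by
    intro p q
    rcases lt_trichotomy p q with h | h | h
    · rw [if_neg h.ne, if_pos h, if_neg (by omega)]
      have := le_abs_self (J p q)
      linarith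
    · subst h
      simp
    · rw [if_neg h.ne', if_neg (by omega), if_pos h, hsymm p q]
      have := le_abs_self (J q p)
      linarith
  calc ∑ p ∈ T, ∑ q ∈ T, J p q ≤ ∑ p ∈ T, ∑ q ∈ T, ((if p = q then J q q else 0) +
        (if p < q then |J p q| else 0) + (if q < p then |J q p| else 0)) :=
        Finset.sum_le_sum fun p _ => Finset.sum_le_sum fun q _ => hsplit p q
    _ = ∑ q ∈ T, J q q + 2 * ∑ q ∈ T, ∑ p ∈ T.filter (fun p => p < q), |J p q| := by
        have h1 : ∑ p ∈ T, ∑ q ∈ T, (if p = q then J q q else 0) = ∑ q ∈ T, J q q := by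
          refine Finset.sum_congr rfl fun p hp => ?_
          rw [Finset.sum_ite_eq, if_pos hp]
        have h2 : ∑ p ∈ T, ∑ q ∈ T, (if p < q then |J p q| else 0) =
            ∑ q ∈ T, ∑ p ∈ T.filter (fun p => p < q), |J p q| := by
          rw [Finset.sum_comm]
          refine Finset.sum_congr rfl fun q _ => ?_
          rw [Finset.sum_filter]
        have h3 : ∑ p ∈ T, ∑ q ∈ T, (if q < p then |J q p| else 0) =
            ∑ q ∈ T, ∑ p ∈ T.filter (fun p => p < q), |J p q| := by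
          refine Finset.sum_congr rfl fun q _ => ?_
          rw [Finset.sum_filter]
        simp only [Finset.sum_add_distrib]
        rw [h1, h2, h3]
        ring
    _ = ∑ q ∈ T, (J q q + 2 * ∑ p ∈ T.filter (fun p => p < q), |J p q|) := by
        rw [Finset.sum_add_distrib, Finset.mul_sum]
    _ = _ := by
        refine Finset.sum_congr rfl fun q _ => ?_
        rw [hdiag q]

/-- second moment bound -/
lemma moment_bound {C : ℝ} (hC : 0 < C) {P : ℕ} (hP3 : 3 ≤ P)
    (hdiag : ∀ p ≥ P, ∫ x, (G p x) ^ 2 ∂μ ≤ C * (Real.log p / p))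
    (hrow : ∀ q ≥ P, ∑ p ∈ (Finset.Ico P q).filter Nat.Prime, |∫ x, G p x * G q x ∂μ| ≤
      C * ((Real.log q / q) * (1 + Real.log (Real.log q)))) :
    ∃ C' : ℝ, 0 < C' ∧ ∀ n : ℕ, 1 ≤ n →
      ∫ x, (∑ p ∈ (Finset.Icc P n).filter Nat.Prime, G p x) ^ 2 ∂μ ≤
        C' * (Real.log n + 1) ^ ((5 : ℝ) / 4) := by
  obtain ⟨C1, hC1⟩ := Pool.Agent.Helper601.Mertens.mertens_log
  refine ⟨15 * C * (|C1| + 1), by positivity, fun n hn => ?_⟩
  set T := (Finset.Icc P n).filter Nat.Prime with hT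
  have hn0 : (1 : ℝ) ≤ n := by exact_mod_cast hn
  have hln : 0 ≤ Real.log n := Real.log_nonneg hn0
  set X := Real.log n + 1 with hX
  have hX1 : 1 ≤ X := by linarith
  have hX0 : 0 < X := by linarith
  refine (moment_rows hm hb T).trans ?_
  have hTm : ∀ q ∈ T, q.Prime ∧ P ≤ q ∧ q ≤ n := by
    intro q hq
    rw [hT, mem_filter, mem_Icc] at hq
    exact ⟨hq.2, hq.1.1, hq.1.2⟩
  have hXq : (1 : ℝ) ≤ X ^ ((1 : ℝ) / 4) := Real.one_le_rpow hX1 (by norm_num)
  have hterm : ∀ q ∈ T, (∫ x, (G q x) ^ 2 ∂μ) + 2 * ∑ p ∈ T.filter (fun p => p < q),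
      |∫ x, G p x * G q x ∂μ| ≤ 15 * C * X ^ ((1 : ℝ) / 4) * (Real.log q / q) := by
    intro q hq
    obtain ⟨hqp, hqP, hqn⟩ := hTm q hq
    have hq3 : (3 : ℝ) ≤ q := by exact_mod_cast hP3.trans hqP
    have hq0 : (0 : ℝ) < q := by linarith
    have hlq0 : 0 < Real.log q := Real.log_pos (by linarith)
    have hlqn : Real.log q ≤ Real.log n := Real.log_le_log hq0 (by exact_mod_cast hqn)
    have hw : 0 ≤ Real.log q / q := by positivity
    have h1 := hdiag q hqP
    have h2 : ∑ p ∈ T.filter (fun p => p < q), |∫ x, G p x * G q x ∂μ| ≤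
        C * ((Real.log q / q) * (1 + Real.log (Real.log q))) := by
      refine le_trans (Finset.sum_le_sum_of_subset_of_nonneg ?_ fun _ _ _ => abs_nonneg _) (hrow q hqP)
      intro p hp
      rw [mem_filter] at hp
      rw [mem_filter, mem_Ico]
      exact ⟨⟨(hTm p hp.1).2.1, hp.2⟩, (hTm p hp.1).1⟩
    have h3 : 1 + Real.log (Real.log q) ≤ 5 * X ^ ((1 : ℝ) / 4) := by
      have h4 : Real.log (Real.log q) ≤ Real.log X := Real.log_le_log hlq0 (by linarith)
      have h5 : Real.log X ≤ X ^ ((1 : ℝ) / 4) / (1 / 4) := Real.log_le_rpow_div hX0.le (by norm_num)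
      linarith
    have h6 : C * ((Real.log q / q) * (1 + Real.log (Real.log q))) ≤
        C * ((Real.log q / q) * (5 * X ^ ((1 : ℝ) / 4))) := by gcongr
    have h7 : C * (Real.log q / q) ≤ C * (Real.log q / q) * X ^ ((1 : ℝ) / 4) := by
      have : 0 ≤ C * (Real.log q / q) := by positivity
      nlinarith
    have h8 : 0 ≤ C * (Real.log q / q) * X ^ ((1 : ℝ) / 4) := by positivity
    nlinarith
  have hM := (abs_le.1 (hC1 n hn)).2
  have hsum : ∑ q ∈ T, Real.log q / q ≤ (|C1| + 1) * X := by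
    have h1 : ∑ q ∈ T, Real.log q / q ≤ ∑ p ∈ (Finset.Icc 1 n).filter Nat.Prime, Real.log p / (p : ℝ) := by
      refine Finset.sum_le_sum_of_subset_of_nonneg ?_ fun p _ _ => ?_
      · intro q hq
        obtain ⟨hqp, hqP, hqn⟩ := hTm q hq
        rw [mem_filter, mem_Icc]
        exact ⟨⟨hqp.one_lt.le, hqn⟩, hqp⟩
      · have := Real.log_natCast_nonneg p
        positivity
    have h2 := le_abs_self C1
    have h3 := abs_nonneg C1
    nlinarith
  calc _ ≤ ∑ q ∈ T, 15 * C * X ^ ((1 : ℝ) / 4) * (Real.log q / q) := Finset.sum_le_sum hterm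
    _ = 15 * C * X ^ ((1 : ℝ) / 4) * ∑ q ∈ T, Real.log q / q := by rw [Finset.mul_sum]
    _ ≤ 15 * C * X ^ ((1 : ℝ) / 4) * ((|C1| + 1) * X) := by gcongr
    _ = 15 * C * (|C1| + 1) * (X ^ ((1 : ℝ) / 4) * X) := by ring
    _ = _ := by
        congr 1
        rw [← Real.rpow_add_one hX0.ne']
        norm_num

/-- almost everywhere convergence along the sampling points -/
theorem ae_abs {C : ℝ} (hC : 0 < C) {P : ℕ} (hP3 : 3 ≤ P)
    (hdiag : ∀ p ≥ P, ∫ x, (G p x) ^ 2 ∂μ ≤ C * (Real.log p / p))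
    (hrow : ∀ q ≥ P, ∑ p ∈ (Finset.Ico P q).filter Nat.Prime, |∫ x, G p x * G q x ∂μ| ≤
      C * ((Real.log q / q) * (1 + Real.log (Real.log q)))) :
    ∀ᵐ x ∂μ, Tendsto (fun k : ℕ => (∑ p ∈ (Finset.Icc P (smp (k ^ 2))).filter Nat.Prime, G p x) /
      ((k : ℝ) ^ 2)) atTop (𝓝 0) := by
  obtain ⟨C', hC', hmom⟩ := moment_bound (μ := μ) hm hb hC hP3 hdiag hrow
  set S : ℕ → α → ℝ := fun n x => ∑ p ∈ (Finset.Icc P n).filter Nat.Prime, G p x with hS
  have hSm : ∀ n, Measurable (S n) := fun n => Finset.measurable_fun_sum _ fun p _ => hm p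
  have hSb : ∀ n x, |S n x| ≤ n + 1 := by
    intro n x
    refine (Finset.abs_sum_le_sum_abs _ _).trans ?_
    calc ∑ p ∈ (Finset.Icc P n).filter Nat.Prime, |G p x|
        ≤ ∑ p ∈ (Finset.Icc P n).filter Nat.Prime, (1 : ℝ) := Finset.sum_le_sum fun p _ => hb p x
      _ ≤ ∑ p ∈ Finset.range (n + 1), (1 : ℝ) := by
          refine Finset.sum_le_sum_of_subset_of_nonneg ?_ fun _ _ _ => zero_le_one
          intro p hp
          have := Finset.mem_Icc.mp (Finset.mem_filter.mp hp).1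
          exact Finset.mem_range.mpr (by omega)
      _ = n + 1 := by simp
  have key : ∀ᵐ x ∂μ,
      Tendsto (fun k : ℕ => (fun (k : ℕ) (x : α) => S (smp ((k + 1) ^ 2)) x / (((k + 1 : ℕ) : ℝ) ^ 2)) k x)
        atTop (𝓝 0) := by
    refine ae_tendsto_zero _ (fun k => (hSm _).div_const _) (fun k => ?_) ?_
    · refine Integrable.of_bound (((hSm _).div_const _).pow_const 2).aestronglyMeasurable
        ((((smp ((k + 1) ^ 2) : ℕ) : ℝ) + 1) ^ 2) (Eventually.of_forall fun z => ?_)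
      rw [Real.norm_eq_abs, abs_pow, abs_div]
      refine pow_le_pow_left₀ (by positivity) ?_ 2
      have h1 := hSb (smp ((k + 1) ^ 2)) z
      have h2 : (1 : ℝ) ≤ |(((k + 1 : ℕ) : ℝ) ^ 2)| := by
        rw [abs_of_nonneg (by positivity)]
        push_cast
        nlinarith [Nat.cast_nonneg (α := ℝ) k]
      exact (div_le_self (abs_nonneg _) h2).trans h1
    · have hb1 : ∀ k : ℕ, ∫ z, (S (smp ((k + 1) ^ 2)) z / (((k + 1 : ℕ) : ℝ) ^ 2)) ^ 2 ∂μ ≤
          4 * C' * (((k + 1 : ℕ) : ℝ) ^ (-(3 / 2) : ℝ)) := by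
        intro k
        have hk1 : (1 : ℝ) ≤ ((k + 1 : ℕ) : ℝ) := by push_cast; linarith [Nat.cast_nonneg (α := ℝ) k]
        set κ : ℝ := ((k + 1 : ℕ) : ℝ) with hκ
        have hκ0 : 0 < κ := by linarith
        have e1 : ∀ z, (S (smp ((k + 1) ^ 2)) z / (κ ^ 2)) ^ 2 =
            (S (smp ((k + 1) ^ 2)) z) ^ 2 * (1 / (κ ^ 4)) := by
          intro z
          field_simp
        simp only [e1]
        rw [integral_mul_const]
        have h1 := hmom (smp ((k + 1) ^ 2)) (one_le_smp _)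
        have h2 := log_smp_le ((k + 1) ^ 2)
        have h2' : Real.log (smp ((k + 1) ^ 2)) + 1 ≤ 2 * κ ^ 2 := by
          push_cast at h2
          rw [hκ]
          push_cast
          have hk0 : (0 : ℝ) ≤ k := Nat.cast_nonneg k
          nlinarith
        have h3 : 0 ≤ Real.log (smp ((k + 1) ^ 2)) := Real.log_natCast_nonneg _
        have h4 : (Real.log (smp ((k + 1) ^ 2)) + 1) ^ ((5 : ℝ) / 4) ≤ 4 * κ ^ ((5 : ℝ) / 2) := by
          calc (Real.log (smp ((k + 1) ^ 2)) + 1) ^ ((5 : ℝ) / 4) ≤ (2 * κ ^ 2) ^ ((5 : ℝ) / 4) :=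
                Real.rpow_le_rpow (by linarith) h2' (by norm_num)
            _ = 2 ^ ((5 : ℝ) / 4) * κ ^ ((5 : ℝ) / 2) := by
                rw [Real.mul_rpow (by norm_num) (by positivity), ← Real.rpow_natCast, ← Real.rpow_mul hκ0.le]
                norm_num
            _ ≤ 4 * κ ^ ((5 : ℝ) / 2) := by
                refine mul_le_mul_of_nonneg_right ?_ (by positivity)
                calc (2 : ℝ) ^ ((5 : ℝ) / 4) ≤ 2 ^ (2 : ℝ) :=
                      Real.rpow_le_rpow_of_exponent_le (by norm_num) (by norm_num)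
                  _ = 4 := by norm_num
        calc (∫ z, (S (smp ((k + 1) ^ 2)) z) ^ 2 ∂μ) * (1 / (κ ^ 4))
            ≤ (C' * (4 * κ ^ ((5 : ℝ) / 2))) * (1 / (κ ^ 4)) := by
              refine mul_le_mul_of_nonneg_right (h1.trans ?_) (by positivity)
              exact mul_le_mul_of_nonneg_left h4 hC'.le
          _ = 4 * C' * (κ ^ ((5 : ℝ) / 2) * (κ ^ 4)⁻¹) := by rw [one_div]; ring
          _ = 4 * C' * κ ^ (-(3 / 2) : ℝ) := by
              congr 1
              rw [← Real.rpow_natCast, ← Real.rpow_neg hκ0.le, ← Real.rpow_add hκ0]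
              norm_num
      refine Summable.of_nonneg_of_le (fun k => integral_nonneg fun z => sq_nonneg _) hb1 ?_
      refine Summable.mul_left _ ?_
      have h2 : Summable (fun n : ℕ => (n : ℝ) ^ (-(3 / 2) : ℝ)) :=
        Real.summable_nat_rpow.mpr (by norm_num)
      exact (summable_nat_add_iff (f := fun n : ℕ => (n : ℝ) ^ (-(3 / 2) : ℝ)) 1).mpr h2
  filter_upwards [key] with z hz
  exact (tendsto_add_atTop_iff_nat (f := fun k : ℕ => S (smp (k ^ 2)) z / ((k : ℝ) ^ 2)) 1).mp hz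

end

end Pool.Agent.W66S
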