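import Mathlib
import Pool.Agent.W66.SB
import Pool.Agent.Helper601.BT

set_option autoImplicit false

/-!
# Row sums of the correlation matrix
-/

namespace Pool.Agent.W66S

open Finset Filter Topology MeasureTheory
open Pool.Agent.H305R2 (log_nat_tendsto)

/-- number of primes below `q` -/
lemma count_primes : ∃ C : ℝ, 0 < C ∧ ∀ q : ℕ, 2 ≤ q → ∀ S : Finset ℕ, (∀ p ∈ S, p.Prime ∧ p < q) →
    (S.card : ℝ) ≤ C * q / Real.log q := by
  obtain ⟨C0, hC0, hBT⟩ := Pool.Agent.Helper601.brun_titchmarsh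
  refine ⟨C0, by linarith, fun q hq S hS => ?_⟩
  refine le_trans ?_ (hBT 0 1 q hq (Or.inl rfl))
  have hsub : S ⊆ (Finset.range q).filter (fun k => (0 + k * 1).Prime) := by
    intro p hp
    rw [mem_filter, mem_range]
    refine ⟨(hS p hp).2, ?_⟩
    simpa using (hS p hp).1
  exact_mod_cast Finset.card_le_card hsub

/-- the middle range of the weights -/
lemma mid_weights {κ : ℝ} (hκ : 0 < κ) : ∃ C : ℝ, 0 < C ∧ ∀ᶠ q : ℕ in atTop, ∀ S : Finset ℕ,
    (∀ p ∈ S, p.Prime ∧ p ≤ q ∧ κ * q / Real.log q < p) →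
    ∑ p ∈ S, Real.log p / p ≤ C * (1 + Real.log (Real.log q)) := by
  obtain ⟨C1, hC1⟩ := Pool.Agent.Helper601.Mertens.mertens_log
  refine ⟨2 * |C1| + |Real.log (2 / κ)| + 1, by positivity, ?_⟩
  have h1 : ∀ᶠ q : ℕ in atTop, Real.log q / q ≤ κ / 2 := by
    have h4 : Tendsto (fun q : ℕ => Real.log q / q) atTop (𝓝 0) := by
      have h5 : Tendsto (fun x : ℝ => Real.log x / x) atTop (𝓝 0) := by
        have := Real.tendsto_pow_log_div_mul_add_atTop 1 0 1 one_ne_zero
        simpa using this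
      exact h5.comp tendsto_natCast_atTop_atTop
    exact (h4.eventually_lt_const (by positivity)).mono fun q hq => hq.le
  have hll : ∀ᶠ q : ℕ in atTop, 1 ≤ Real.log (Real.log q) :=
    (Real.tendsto_log_atTop.comp log_nat_tendsto).eventually_ge_atTop _
  filter_upwards [h1, hll, log_nat_tendsto.eventually_ge_atTop 1, eventually_ge_atTop 2] with
    q hq hllq hlq hq2 S hS
  have hq2' : (2 : ℝ) ≤ q := by exact_mod_cast hq2
  have hq0 : (0 : ℝ) < q := by linarith
  have hlq0 : 0 < Real.log q := by linarith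
  set z := κ * q / Real.log q with hz
  have hz2 : 2 ≤ z := by
    rw [div_le_iff₀ hq0] at hq
    rw [hz, le_div_iff₀ hlq0]
    linarith
  set N := ⌊z⌋₊ with hN
  have hN1 : 1 ≤ N := by rw [hN, Nat.one_le_floor_iff]; linarith
  have hNlt : z < N + 1 := Nat.lt_floor_add_one _
  have hNle : (N : ℝ) ≤ z := Nat.floor_le (by linarith)
  have hNr : (1 : ℝ) ≤ N := by exact_mod_cast hN1
  have hNz : z / 2 ≤ N := by linarith
  have hlogN : Real.log q - Real.log (Real.log q) - Real.log (2 / κ) ≤ Real.log N := by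
    have e : Real.log q - Real.log (Real.log q) - Real.log (2 / κ) = Real.log (z / 2) := by
      have e1 : z / 2 = q / (Real.log q * (2 / κ)) := by rw [hz]; field_simp
      rw [e1, Real.log_div hq0.ne' (by positivity), Real.log_mul hlq0.ne' (by positivity)]
      ring
    rw [e]
    exact Real.log_le_log (by linarith) hNz
  have hMq := (abs_le.1 (hC1 q (by omega))).2
  have hMN := (abs_le.1 (hC1 N hN1)).1
  have hunion : ∑ p ∈ S, Real.log p / (p : ℝ) +
      ∑ p ∈ (Finset.Icc 1 N).filter Nat.Prime, Real.log p / (p : ℝ) ≤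
      ∑ p ∈ (Finset.Icc 1 (max q N)).filter Nat.Prime, Real.log p / (p : ℝ) := by
    rw [← Finset.sum_union]
    · refine Finset.sum_le_sum_of_subset_of_nonneg ?_ fun p _ _ => ?_
      · intro p hp
        rw [mem_union] at hp
        rw [mem_filter, mem_Icc]
        rcases hp with hp | hp
        · have := hS p hp
          exact ⟨⟨this.1.one_lt.le, this.2.1.trans (le_max_left _ _)⟩, this.1⟩
        · rw [mem_filter, mem_Icc] at hp
          exact ⟨⟨hp.1.1, hp.1.2.trans (le_max_right _ _)⟩, hp.2⟩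
      · have := Real.log_natCast_nonneg p
        positivity
    · rw [Finset.disjoint_left]
      intro p hp hp2
      rw [mem_filter, mem_Icc] at hp2
      have h3 := (hS p hp).2.2
      have h4 : (p : ℝ) ≤ N := by exact_mod_cast hp2.1.2
      linarith
  rcases le_total N q with hNq | hqN
  · rw [max_eq_left hNq] at hunion
    have h5 := le_abs_self (Real.log (2 / κ))
    have h6 := abs_nonneg (Real.log (2 / κ))
    have h7 := abs_nonneg C1
    have h8 := le_abs_self C1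
    have h9 : ∑ p ∈ S, Real.log p / (p : ℝ) ≤ Real.log (Real.log q) + |Real.log (2 / κ)| + 2 * |C1| := by
      linarith
    nlinarith
  · have hSe : S = ∅ := by
      by_contra hne
      obtain ⟨p, hp⟩ := Finset.nonempty_of_ne_empty hne
      have h3 := hS p hp
      have h4 : (p : ℝ) ≤ N := by exact_mod_cast h3.2.1.trans hqN
      linarith [h3.2.2]
    rw [hSe, Finset.sum_empty]
    positivity

lemma geo_sum {b : ℕ} (hb : 2 ≤ b) (q : ℕ) (S : Finset ℕ) (hS : ∀ p ∈ S, p < q) :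
    ∑ p ∈ S, ((b : ℝ) ^ (q - p))⁻¹ ≤ 2 := by
  have hb2 : (2 : ℝ) ≤ b := by exact_mod_cast hb
  calc ∑ p ∈ S, ((b : ℝ) ^ (q - p))⁻¹ ≤ ∑ p ∈ Finset.range q, ((b : ℝ) ^ (q - p))⁻¹ := by
        refine Finset.sum_le_sum_of_subset_of_nonneg ?_ fun _ _ _ => by positivity
        intro p hp
        exact mem_range.2 (hS p hp)
    _ ≤ ∑ p ∈ Finset.range q, (1 / 2 : ℝ) ^ (q - 1 - p) := by
        refine Finset.sum_le_sum fun p hp => ?_
        rw [mem_range] at hp
        rw [one_div, inv_pow]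
        refine inv_anti₀ (by positivity) ?_
        calc (2 : ℝ) ^ (q - 1 - p) ≤ 2 ^ (q - p) := pow_le_pow_right₀ (by norm_num) (by omega)
          _ ≤ (b : ℝ) ^ (q - p) := pow_le_pow_left₀ (by norm_num) hb2 _
    _ = ∑ j ∈ Finset.range q, (1 / 2 : ℝ) ^ j := Finset.sum_range_reflect (fun j => (1 / 2 : ℝ) ^ j) q
    _ ≤ 2 := sum_geometric_two_le q

/-- abstract row sum -/
lemma row_abs {κ K : ℝ} (hκ : 0 < κ) (hK : 0 < K) {b : ℕ} (hb : 2 ≤ b) (J : ℕ → ℕ → ℝ) (P : ℕ)
    (hfar : ∀ q ≥ P, ∀ p : ℕ, (p : ℝ) ≤ κ * q / Real.log q → |J p q| ≤ K * (Real.log q / q ^ 2))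
    (hmid : ∀ p ≥ P, ∀ q : ℕ, 2 * p ≤ q → |J p q| ≤ K * ((Real.log p / p) * (Real.log q / q)))
    (hnear : ∀ p ≥ P, ∀ q : ℕ, p < q → q ≤ 2 * p →
      |J p q| ≤ K * ((Real.log p / p) ^ 2 + ((b : ℝ) ^ (q - p))⁻¹ * (Real.log p / p))) :
    ∃ C : ℝ, 0 < C ∧ ∃ P' : ℕ, P ≤ P' ∧ 3 ≤ P' ∧ ∀ q ≥ P',
      ∑ p ∈ (Finset.Ico P' q).filter Nat.Prime, |J p q| ≤
        C * ((Real.log q / q) * (1 + Real.log (Real.log q))) := by
  obtain ⟨C1, hC1, hcp⟩ := count_primes
  obtain ⟨C2, hC2, hmw⟩ := mid_weights hκ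
  obtain ⟨P2, hP2⟩ := eventually_atTop.1 hmw
  have hll : ∀ᶠ q : ℕ in atTop, 1 ≤ Real.log (Real.log q) :=
    (Real.tendsto_log_atTop.comp log_nat_tendsto).eventually_ge_atTop _
  obtain ⟨P3, hP3⟩ := eventually_atTop.1 (hll.and (log_nat_tendsto.eventually_ge_atTop 1))
  refine ⟨K * κ + K * C2 + (4 * K * C1 + 4 * K), by positivity, P + P2 + P3 + 3, by omega, by omega,
    fun q hq => ?_⟩
  obtain ⟨hllq, hlq⟩ := hP3 q (by omega)
  have hq3 : (3 : ℝ) ≤ q := by exact_mod_cast (by omega : 3 ≤ q)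
  have hq0 : (0 : ℝ) < q := by linarith
  have hlq0 : 0 < Real.log q := by linarith
  set w := Real.log q / q with hw
  have hw0 : 0 < w := by positivity
  set T := (Finset.Ico (P + P2 + P3 + 3) q).filter Nat.Prime with hT
  have hTm : ∀ p ∈ T, p.Prime ∧ P + P2 + P3 + 3 ≤ p ∧ p < q := by
    intro p hp
    rw [hT, mem_filter, mem_Ico] at hp
    exact ⟨hp.2, hp.1.1, hp.1.2⟩
  classical
  set F := T.filter (fun p : ℕ => (p : ℝ) ≤ κ * q / Real.log q) with hF
  set M := T.filter (fun p : ℕ => κ * q / Real.log q < (p : ℝ) ∧ 2 * p ≤ q) with hM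
  set N := T.filter (fun p : ℕ => q < 2 * p) with hN
  have hsub : T ⊆ (F ∪ M) ∪ N := by
    intro p hp
    rw [mem_union, mem_union]
    by_cases h1 : (p : ℝ) ≤ κ * q / Real.log q
    · left; left; exact mem_filter.2 ⟨hp, h1⟩
    · by_cases h2 : 2 * p ≤ q
      · left; right; exact mem_filter.2 ⟨hp, not_le.1 h1, h2⟩
      · right; exact mem_filter.2 ⟨hp, by omega⟩
  have hsplit : ∑ p ∈ T, |J p q| ≤ ∑ p ∈ F, |J p q| + ∑ p ∈ M, |J p q| + ∑ p ∈ N, |J p q| := by
    have h0 : ∀ s t : Finset ℕ, ∑ p ∈ s ∪ t, |J p q| ≤ ∑ p ∈ s, |J p q| + ∑ p ∈ t, |J p q| := by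
      intro s t
      rw [← Finset.sum_union_inter]
      have : 0 ≤ ∑ p ∈ s ∩ t, |J p q| := Finset.sum_nonneg fun _ _ => abs_nonneg _
      linarith
    calc ∑ p ∈ T, |J p q| ≤ ∑ p ∈ (F ∪ M) ∪ N, |J p q| :=
          Finset.sum_le_sum_of_subset_of_nonneg hsub fun _ _ _ => abs_nonneg _
      _ ≤ ∑ p ∈ F ∪ M, |J p q| + ∑ p ∈ N, |J p q| := h0 _ _
      _ ≤ _ := by linarith [h0 F M]
  -- far
  have hsF : ∑ p ∈ F, |J p q| ≤ K * κ * w := by
    have hcard : (F.card : ℝ) ≤ κ * q / Real.log q := by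
      have h1 : F ⊆ Finset.Icc 1 ⌊κ * q / Real.log q⌋₊ := by
        intro p hp
        rw [hF, mem_filter] at hp
        rw [mem_Icc, Nat.le_floor_iff (by positivity)]
        exact ⟨(hTm p hp.1).1.one_lt.le, hp.2⟩
      have h2 := Finset.card_le_card h1
      rw [Nat.card_Icc] at h2
      calc (F.card : ℝ) ≤ (⌊κ * q / Real.log q⌋₊ : ℝ) := by exact_mod_cast (by omega)
        _ ≤ _ := Nat.floor_le (by positivity)
    calc ∑ p ∈ F, |J p q| ≤ ∑ p ∈ F, K * (Real.log q / q ^ 2) :=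
          Finset.sum_le_sum fun p hp => hfar q (by omega) p (mem_filter.1 hp).2
      _ = F.card * (K * (Real.log q / q ^ 2)) := by rw [Finset.sum_const, nsmul_eq_mul]
      _ ≤ (κ * q / Real.log q) * (K * (Real.log q / q ^ 2)) := by gcongr
      _ = K * κ * (1 / q) := by field_simp
      _ ≤ K * κ * w := by
          rw [hw]
          gcongr
  -- middle
  have hsM : ∑ p ∈ M, |J p q| ≤ K * C2 * (w * (1 + Real.log (Real.log q))) := by
    have h1 : ∀ p ∈ M, |J p q| ≤ (K * w) * (Real.log p / p) := by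
      intro p hp
      rw [hM, mem_filter] at hp
      refine (hmid p (by have := (hTm p hp.1).2.1; omega) q hp.2.2).trans (le_of_eq ?_)
      rw [hw]; ring
    have h2 := hP2 q (by omega) M (by
      intro p hp
      rw [hM, mem_filter] at hp
      exact ⟨(hTm p hp.1).1, (hTm p hp.1).2.2.le, hp.2.1⟩)
    calc ∑ p ∈ M, |J p q| ≤ ∑ p ∈ M, (K * w) * (Real.log p / p) := Finset.sum_le_sum h1
      _ = (K * w) * ∑ p ∈ M, Real.log p / p := by rw [Finset.mul_sum]
      _ ≤ (K * w) * (C2 * (1 + Real.log (Real.log q))) := by gcongr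
      _ = _ := by ring
  -- near
  have hsN : ∑ p ∈ N, |J p q| ≤ (4 * K * C1 + 4 * K) * w := by
    have hNw : ∀ p ∈ N, Real.log p / p ≤ 2 * w := by
      intro p hp
      rw [hN, mem_filter] at hp
      have h1 := (hTm p hp.1)
      have hp0 : (0 : ℝ) < p := by exact_mod_cast h1.1.pos
      have h2 : (q : ℝ) / 2 ≤ p := by
        have : (q : ℝ) < 2 * p := by exact_mod_cast hp.2
        linarith
      calc Real.log p / p ≤ Real.log q / (q / 2) := by
            refine div_le_div₀ hlq0.le ?_ (by positivity) h2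
            exact Real.log_le_log hp0 (by exact_mod_cast h1.2.2.le)
        _ = 2 * w := by rw [hw]; field_simp
    have h1 : ∀ p ∈ N, |J p q| ≤ K * (4 * w ^ 2) + K * (2 * w) * ((b : ℝ) ^ (q - p))⁻¹ := by
      intro p hp
      have hpw := hNw p hp
      rw [hN, mem_filter] at hp
      have h2 := hTm p hp.1
      have hwp : 0 ≤ Real.log p / p := div_nonneg (Real.log_natCast_nonneg p) (Nat.cast_nonneg p)
      refine (hnear p (by omega) q h2.2.2 (by omega)).trans ?_
      have h3 : (Real.log p / p) ^ 2 ≤ 4 * w ^ 2 := by nlinarith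
      have h4 : ((b : ℝ) ^ (q - p))⁻¹ * (Real.log p / p) ≤ ((b : ℝ) ^ (q - p))⁻¹ * (2 * w) :=
        mul_le_mul_of_nonneg_left hpw (by positivity)
      nlinarith
    have hcard : (N.card : ℝ) ≤ C1 * q / Real.log q := hcp q (by omega) N fun p hp => by
      rw [hN, mem_filter] at hp
      exact ⟨(hTm p hp.1).1, (hTm p hp.1).2.2⟩
    have hgeo := geo_sum hb q N fun p hp => by
      rw [hN, mem_filter] at hp
      exact (hTm p hp.1).2.2
    calc ∑ p ∈ N, |J p q| ≤ ∑ p ∈ N, (K * (4 * w ^ 2) + K * (2 * w) * ((b : ℝ) ^ (q - p))⁻¹) :=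
          Finset.sum_le_sum h1
      _ = N.card * (K * (4 * w ^ 2)) + K * (2 * w) * ∑ p ∈ N, ((b : ℝ) ^ (q - p))⁻¹ := by
          rw [Finset.sum_add_distrib, Finset.sum_const, nsmul_eq_mul, Finset.mul_sum]
      _ ≤ (C1 * q / Real.log q) * (K * (4 * w ^ 2)) + K * (2 * w) * 2 := by gcongr
      _ = (4 * K * C1 + 4 * K) * w := by
          rw [hw]
          field_simp
          ring
  have hfin : K * κ * w ≤ K * κ * (w * (1 + Real.log (Real.log q))) := by
    have : w ≤ w * (1 + Real.log (Real.log q)) := by nlinarith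
    gcongr
  have hfin2 : (4 * K * C1 + 4 * K) * w ≤ (4 * K * C1 + 4 * K) * (w * (1 + Real.log (Real.log q))) := by
    have : w ≤ w * (1 + Real.log (Real.log q)) := by nlinarith
    gcongr
  calc ∑ p ∈ T, |J p q| ≤ _ := hsplit
    _ ≤ K * κ * (w * (1 + Real.log (Real.log q))) + K * C2 * (w * (1 + Real.log (Real.log q))) +
        (4 * K * C1 + 4 * K) * (w * (1 + Real.log (Real.log q))) := by linarith
    _ = _ := by ring

end Pool.Agent.W66S
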