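import Pool.Agent.W66.QE

set_option autoImplicit false

/-!
# Decorrelation of distant exponents: general inner functions
-/

open Filter Topology Set MeasureTheory Metric
open scoped Real

namespace Pool.Agent.W66

open Pool.Agent.H305R2 (ff NN roughPart SM SMz VV ZZ measurable_ff ff_nonneg ff_le_one LL)

/-- modulus of continuity in mean of `gg p (w u)` for monotone Lipschitz functions `w` -/
theorem gg_modulus_w (p : ℕ) {w : ℝ → ℝ} (hw : Measurable w) {Y K : ℝ} (hK : 0 ≤ K)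
    (hmono : MonotoneOn w (Set.Icc (Y - 1) (Y + 2)))
    (hlip : ∀ a ∈ Set.Icc (Y - 1) (Y + 2), ∀ b ∈ Set.Icc (Y - 1) (Y + 2), |w a - w b| ≤ K * |a - b|)
    {h : ℝ} (hh : 0 ≤ h) (hh1 : h ≤ 1) {v : ℝ} (hv : |v| ≤ h) :
    ∫ u in Y..(Y + 1), |Pool.Agent.H305R2.gg p (w (u + v)) - Pool.Agent.H305R2.gg p (w u)| ≤
      h * Real.exp (w (Y + 2)) + 2 * K * h := by
  set pr : ℝ → ℝ := fun u => max (Y - 1) (min u (Y + 2)) with hpr
  have hprm : Monotone pr := fun a b hab => by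
    simp only [hpr]
    exact max_le_max le_rfl (min_le_min hab le_rfl)
  have hprI : ∀ u, pr u ∈ Set.Icc (Y - 1) (Y + 2) := fun u => by
    simp only [hpr]
    exact ⟨le_max_left _ _, max_le (by linarith) (min_le_right _ _)⟩
  have hpre : ∀ u ∈ Set.Icc (Y - 1) (Y + 2), pr u = u := fun u hu => by
    simp only [hpr]
    rw [min_eq_left hu.2, max_eq_right hu.1]
  set Ψ : ℝ → ℝ := fun u => (NN (w (pr u)) : ℝ) with hΨ
  have hΨm : Monotone Ψ := by
    intro a b hab
    simp only [hΨ]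
    exact_mod_cast NN_mono (hmono (hprI a) (hprI b) (hprm hab))
  have h1 := mono_var hΨm (fun x => by simp only [hΨ]; positivity) Y v h hh hv
  have hvv := abs_le.1 hv
  have hmg : Measurable fun u => Pool.Agent.H305R2.gg p (w (u + v)) -
      Pool.Agent.H305R2.gg p (w u) :=
    ((Pool.Agent.H305R2.measurable_gg p).comp (hw.comp (by fun_prop))).sub
      ((Pool.Agent.H305R2.measurable_gg p).comp hw)
  have hii : IntervalIntegrable (fun u => Ψ (u + v) - Ψ u) volume Y (Y + 1) := by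
    apply IntervalIntegrable.sub
    · exact (show Monotone (fun u => Ψ (u + v)) from
        fun x y hxy => hΨm (by linarith)).intervalIntegrable
    · exact hΨm.intervalIntegrable
  have h2 : ∫ u in Y..(Y + 1), |Pool.Agent.H305R2.gg p (w (u + v)) -
      Pool.Agent.H305R2.gg p (w u)| ≤ ∫ u in Y..(Y + 1), (|Ψ (u + v) - Ψ u| + 2 * K * h) := by
    apply intervalIntegral.integral_mono_on (by linarith)
    · exact (ii_of_bdd hmg (M := 2) (fun x => (abs_sub _ _).trans (by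
        linarith [Pool.Agent.H305R2.abs_gg_le_one p (w (x + v)),
          Pool.Agent.H305R2.abs_gg_le_one p (w x)])) Y (Y + 1)).abs
    · exact hii.abs.add intervalIntegrable_const
    · intro u hu
      have hu1 : u ∈ Set.Icc (Y - 1) (Y + 2) := ⟨by linarith [hu.1], by linarith [hu.2]⟩
      have hu2 : u + v ∈ Set.Icc (Y - 1) (Y + 2) := ⟨by linarith [hu.1, hvv.1], by linarith [hu.2, hvv.2]⟩
      have e : Pool.Agent.H305R2.gg p (w (u + v)) - Pool.Agent.H305R2.gg p (w u) =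
          (ff p (w (u + v)) - ff p (w u)) - (LL p (w (u + v)) - LL p (w u)) := by
        unfold Pool.Agent.H305R2.gg
        ring
      have e1 : Ψ (u + v) = (NN (w (u + v)) : ℝ) := by simp only [hΨ]; rw [hpre _ hu2]
      have e2 : Ψ u = (NN (w u) : ℝ) := by simp only [hΨ]; rw [hpre _ hu1]
      rw [e, e1, e2]
      refine (abs_sub _ _).trans (add_le_add (ff_diff p _ _) ?_)
      refine (LL_lip p _ _).trans ?_
      have h3 := hlip _ hu2 _ hu1
      have h4 : |u + v - u| ≤ h := by rw [add_sub_cancel_left]; exact hv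
      have h5 : K * |u + v - u| ≤ K * h := mul_le_mul_of_nonneg_left h4 hK
      linarith
  refine h2.trans ?_
  rw [intervalIntegral.integral_add hii.abs intervalIntegrable_const,
    intervalIntegral.integral_const, smul_eq_mul]
  have h3 : h * Ψ (Y + 1 + h) ≤ h * Real.exp (w (Y + 2)) := by
    refine mul_le_mul_of_nonneg_left ?_ hh
    refine (NN_le _).trans (Real.exp_le_exp.2 ?_)
    refine hmono (hprI _) ⟨by linarith, le_rfl⟩ (hprI _).2
  linarith

/-- decorrelation of `ff q` and slowly varying functions -/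
theorem far_abs {c1 : ℝ} (hc1 : 0 < c1) : ∃ κ K : ℝ, 0 < κ ∧ 0 < K ∧ ∃ P : ℕ, ∀ q ≥ P,
    ∀ (φ0 : ℝ → ℝ) (Y M : ℝ), Measurable φ0 → (∀ x, |φ0 x| ≤ 1) → c1 * q ≤ Y →
      M ≤ κ * Y / Real.log Y →
      (∀ h : ℝ, 0 ≤ h → h ≤ 1 → ∀ v : ℝ, |v| ≤ h →
        ∫ u in Y..(Y + 1), |φ0 (u + v) - φ0 u| ≤ h * Real.exp M + 4 * h) →
      |∫ u in Y..(Y + 1), φ0 u * Pool.Agent.H305R2.gg q u| ≤ K * (Real.log q / q ^ 2) := by
  obtain ⟨cc, K, hcc, hK, P, hP⟩ := cv_L1 hc1
  obtain ⟨Y1, hY1⟩ := (ev_Y (cc / 2) 1 (by positivity) one_pos).exists_forall_of_atTop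
  have hlin : ∀ᶠ q : ℕ in atTop, Y1 ≤ c1 * q :=
    (tendsto_natCast_atTop_atTop.const_mul_atTop hc1).eventually_ge_atTop _
  have hlogq : ∀ᶠ q : ℕ in atTop, 1 ≤ Real.log q :=
    (Real.tendsto_log_atTop.comp tendsto_natCast_atTop_atTop).eventually_ge_atTop 1
  obtain ⟨P2, hP2⟩ := (hlin.and (hlogq.and (eventually_ge_atTop 1))).exists_forall_of_atTop
  refine ⟨cc / 2, 2 * (K + 7 / c1 ^ 2), by positivity, by positivity, max P P2,
    fun q hq φ0 Y M hφ0m hφ01 hYq hM hmod => ?_⟩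
  obtain ⟨b1, b2, b3⟩ := hP2 q ((le_max_right _ _).trans hq)
  obtain ⟨⟨a1, a2, a3⟩, μ, hμ⟩ := hP q ((le_max_left _ _).trans hq) Y hYq
  obtain ⟨d1, d2, d3, d4, d5, d6⟩ := hY1 Y (b1.trans hYq)
  have hY0 : 0 < Y := by linarith
  have hq0 : (0 : ℝ) < q := by exact_mod_cast b3
  set h := hs cc Y with hh
  have hh0 : 0 < h := hs_pos _ _
  have hY2 : 0 < 1 / Y ^ 2 := by positivity
  have hh1 : h ≤ 1 := a1.trans (by
    rw [div_le_one (by positivity)]
    nlinarith)
  have hYinv : 1 / Y ^ 2 ≤ 1 / c1 ^ 2 * (1 / (q : ℝ) ^ 2) := by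
    have e : 1 / c1 ^ 2 * (1 / (q : ℝ) ^ 2) = 1 / (c1 * q) ^ 2 := by
      rw [mul_pow]
      field_simp
    rw [e]
    apply one_div_le_one_div_of_le (by positivity)
    exact pow_le_pow_left₀ (by positivity) hYq 2
  -- the bound for one window
  have key : ∀ w : ℝ, 0 ≤ w → w ≤ 1 → |∫ u in (Y + w)..(Y + w + 1), φ0 (u - w) * (ff q u - μ)| ≤
      (K + 7 / c1 ^ 2) * (Real.log q / q ^ 2) := by
    intro w hw0 hw1
    have hφ : Measurable fun u => φ0 (u - w) := hφ0m.comp (by fun_prop)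
    have h1 := smoothing q hh0 (fun u => φ0 (u - w)) hφ
      (fun x => hφ01 _) (Y + w) μ (h * Real.exp M + 4 * h) (by
        intro v hv
        have h2 := hmod h hh0.le hh1 v hv
        have h3 := intervalIntegral.integral_comp_sub_right (a := Y + w) (b := Y + w + 1)
          (fun u => |φ0 (u + v) - φ0 u|) w
        have e1 : Y + w - w = Y := by ring
        have e2 : Y + w + 1 - w = Y + 1 := by ring
        rw [e1, e2] at h3
        rw [← h3] at h2
        have e3 : ∀ u : ℝ, u - w + v = u + v - w := fun u => by ring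
        simp only [e3] at h2
        exact h2) (cv_continuous q hh0)
    refine h1.trans ?_
    have h2 := hμ (Y + w) (by linarith) (by linarith)
    have h3 : h * Real.exp M ≤ 1 / Y ^ 2 := by
      rw [hh]
      unfold hs
      rw [← Real.exp_add]
      refine le_trans (Real.exp_le_exp.2 ?_) d3
      have e2 : √Y ≤ cc / 2 * Y / Real.log Y := le_trans (Real.sqrt_le_sqrt (by linarith)) d1
      have e3 : cc * Y / Real.log Y = 2 * (cc / 2 * Y / Real.log Y) := by ring
      rw [e3]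
      linarith
    have h4 : 1 / (q : ℝ) ^ 2 ≤ Real.log q / q ^ 2 := by gcongr
    have h5 : 7 * (1 / Y ^ 2) ≤ 7 / c1 ^ 2 * (Real.log q / q ^ 2) := by
      calc 7 * (1 / Y ^ 2) ≤ 7 * (1 / c1 ^ 2 * (Real.log q / q ^ 2)) := by
            apply mul_le_mul_of_nonneg_left _ (by norm_num)
            exact hYinv.trans (mul_le_mul_of_nonneg_left h4 (by positivity))
        _ = _ := by ring
    have e : (K + 7 / c1 ^ 2) * (Real.log q / q ^ 2) =
      K * (Real.log q / q ^ 2) + 7 / c1 ^ 2 * (Real.log q / q ^ 2) := by ring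
    rw [e]
    linarith
  rw [gg_split q φ0 hφ0m hφ01 Y μ]
  have k0 := key 0 le_rfl zero_le_one
  simp only [add_zero, sub_zero] at k0
  have k1 : |∫ w in (0 : ℝ)..1, ∫ u in (Y + w)..(Y + w + 1), φ0 (u - w) * (ff q u - μ)| ≤
      (K + 7 / c1 ^ 2) * (Real.log q / q ^ 2) := by
    have := intervalIntegral.norm_integral_le_of_norm_le_const (a := (0 : ℝ)) (b := 1)
      (f := fun w => ∫ u in (Y + w)..(Y + w + 1), φ0 (u - w) * (ff q u - μ))
      (C := (K + 7 / c1 ^ 2) * (Real.log q / q ^ 2)) (fun w hw => by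
        rw [Set.uIoc_of_le zero_le_one] at hw
        rw [Real.norm_eq_abs]
        exact key w hw.1.le hw.2)
    rw [Real.norm_eq_abs] at this
    simpa using this
  refine (abs_sub _ _).trans ?_
  linarith

/-- decorrelation of `ff q` and `gg p (w u)` -/
theorem far_w {c1 : ℝ} (hc1 : 0 < c1) : ∃ κ K : ℝ, 0 < κ ∧ 0 < K ∧ ∃ P : ℕ, ∀ q ≥ P,
    ∀ (p : ℕ) (w : ℝ → ℝ) (Y : ℝ), Measurable w → c1 * q ≤ Y →
      MonotoneOn w (Set.Icc (Y - 1) (Y + 2)) →
      (∀ a ∈ Set.Icc (Y - 1) (Y + 2), ∀ b ∈ Set.Icc (Y - 1) (Y + 2), |w a - w b| ≤ 2 * |a - b|) →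
      w (Y + 2) ≤ κ * Y / Real.log Y →
      |∫ u in Y..(Y + 1), Pool.Agent.H305R2.gg p (w u) * Pool.Agent.H305R2.gg q u| ≤
        K * (Real.log q / q ^ 2) := by
  obtain ⟨κ, K, hκ, hK, P, hP⟩ := far_abs hc1
  refine ⟨κ, K, hκ, hK, P, fun q hq p w Y hw hY hmono hlip hM => ?_⟩
  refine hP q hq (fun u => Pool.Agent.H305R2.gg p (w u)) Y (w (Y + 2))
    ((Pool.Agent.H305R2.measurable_gg p).comp hw) (fun x => Pool.Agent.H305R2.abs_gg_le_one p _)
    hY hM (fun h hh hh1 v hv => ?_)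
  refine (gg_modulus_w p hw (by norm_num) hmono hlip hh hh1 hv).trans (le_of_eq ?_)
  ring

end Pool.Agent.W66
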