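import Mathlib
import Pool.Agent.W66.XA
import Pool.Agent.H447R2.ML.R1

set_option autoImplicit false

/-!
# Correlation bounds for shift families
-/

namespace Pool.Agent.W66X

open Finset Filter Topology MeasureTheory
open Pool.Agent.W66 (far_w)
open Pool.Agent.H447R2.ML (Sh)
open Pool.Agent.H305R2 (roughPart bounds gg LL measurable_gg abs_gg_le abs_gg_le_one LL_nonneg LL_cont
  LL_le_one ff NN measurable_ff ff_nonneg ff_le_one integrableOn_ff integrableOn_gg log_nat_tendsto)

lemma int_bdd {F : ℝ → ℝ} (hF : Measurable F) {M : ℝ} (hF1 : ∀ x, |F x| ≤ M) (s t : ℝ) :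
    IntegrableOn F (Set.Ioc s t) :=
  Measure.integrableOn_of_bounded (M := M) (by simp) hF.aestronglyMeasurable
    (Eventually.of_forall fun x => by rw [Real.norm_eq_abs]; exact hF1 x)

lemma int_comp {a a0 a1 : ℝ} {q : ℕ} {y y' : ℝ → ℝ} (h : Sh a a0 a1 q y y') {s t : ℝ} (hs : a0 ≤ s)
    (ht : t ≤ a1) {F : ℝ → ℝ} (hF : Measurable F) {M : ℝ} (hF1 : ∀ x, |F x| ≤ M) :
    IntegrableOn (fun x => F (y x)) (Set.Ioc s t) := by
  have hsub : Set.Ioc s t ⊆ Set.Icc a0 a1 := fun x hx => ⟨hs.trans hx.1.le, hx.2.trans ht⟩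
  have h1 : AEMeasurable y (volume.restrict (Set.Ioc s t)) :=
    (h.cont.mono hsub).aemeasurable measurableSet_Ioc
  have h2 : AEStronglyMeasurable (fun x => F (y x)) (volume.restrict (Set.Ioc s t)) :=
    (hF.comp_aemeasurable h1).aestronglyMeasurable
  refine Integrable.of_bound h2 M ?_
  exact Eventually.of_forall fun x => by rw [Real.norm_eq_abs]; exact hF1 _

/-- change of variables for signed functions -/
lemma signed_cov {a a0 a1 : ℝ} {q : ℕ} {y y' : ℝ → ℝ} (h : Sh a a0 a1 q y y') (hq : 3 ≤ q)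
    {s t : ℝ} (hs : a0 ≤ s) (hst : s ≤ t) (ht : t ≤ a1) {F : ℝ → ℝ} (hF : Measurable F)
    (hF1 : ∀ x, |F x| ≤ 1) :
    |(∫ x in Set.Ioc s t, F (y x)) - ∫ u in Set.Ioc (y s) (y t), F u| ≤
      1 / q * ∫ x in Set.Ioc s t, |F (y x)| := by
  set Fp : ℝ → ℝ := fun x => max (F x) 0 with hFp
  set Fm : ℝ → ℝ := fun x => max (-F x) 0 with hFm
  have hFpm : Measurable Fp := hF.max measurable_const
  have hFmm : Measurable Fm := hF.neg.max measurable_const
  have h0p : ∀ x, 0 ≤ Fp x := fun x => le_max_right _ _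
  have h0m : ∀ x, 0 ≤ Fm x := fun x => le_max_right _ _
  have h1p : ∀ x, Fp x ≤ 1 := fun x => max_le ((le_abs_self _).trans (hF1 x)) zero_le_one
  have h1m : ∀ x, Fm x ≤ 1 := fun x => max_le ((neg_le_abs _).trans (hF1 x)) zero_le_one
  have hsub : ∀ x, F x = Fp x - Fm x := by
    intro x
    simp only [hFp, hFm]
    rcases le_total 0 (F x) with h | h
    · rw [max_eq_left h, max_eq_right (by linarith)]; ring
    · rw [max_eq_right h, max_eq_left (by linarith)]; ring
  have hadd : ∀ x, |F x| = Fp x + Fm x := by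
    intro x
    simp only [hFp, hFm]
    rcases le_total 0 (F x) with h | h
    · rw [max_eq_left h, max_eq_right (by linarith), abs_of_nonneg h]; ring
    · rw [max_eq_right h, max_eq_left (by linarith), abs_of_nonpos h]; ring
  obtain ⟨c1, c2⟩ := h.cov hq hs hst ht hFpm h0p h1p
  obtain ⟨c3, c4⟩ := h.cov hq hs hst ht hFmm h0m h1m
  have i1 : IntegrableOn (fun x => Fp (y x)) (Set.Ioc s t) :=
    int_comp h hs ht hFpm (M := 1) (fun x => by rw [abs_of_nonneg (h0p x)]; exact h1p x)
  have i2 : IntegrableOn (fun x => Fm (y x)) (Set.Ioc s t) :=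
    int_comp h hs ht hFmm (M := 1) (fun x => by rw [abs_of_nonneg (h0m x)]; exact h1m x)
  have i3 : IntegrableOn Fp (Set.Ioc (y s) (y t)) :=
    int_bdd hFpm (M := 1) (fun x => by rw [abs_of_nonneg (h0p x)]; exact h1p x) _ _
  have i4 : IntegrableOn Fm (Set.Ioc (y s) (y t)) :=
    int_bdd hFmm (M := 1) (fun x => by rw [abs_of_nonneg (h0m x)]; exact h1m x) _ _
  have e1 : ∫ x in Set.Ioc s t, F (y x) =
      (∫ x in Set.Ioc s t, Fp (y x)) - ∫ x in Set.Ioc s t, Fm (y x) := by
    rw [← integral_sub i1 i2]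
    exact integral_congr_ae (Eventually.of_forall fun x => hsub _)
  have e2 : ∫ u in Set.Ioc (y s) (y t), F u =
      (∫ u in Set.Ioc (y s) (y t), Fp u) - ∫ u in Set.Ioc (y s) (y t), Fm u := by
    rw [← integral_sub i3 i4]
    exact integral_congr_ae (Eventually.of_forall fun x => hsub _)
  have e3 : ∫ x in Set.Ioc s t, |F (y x)| =
      (∫ x in Set.Ioc s t, Fp (y x)) + ∫ x in Set.Ioc s t, Fm (y x) := by
    rw [← integral_add i1 i2]
    exact integral_congr_ae (Eventually.of_forall fun x => hadd _)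
  rw [e1, e2, e3, abs_le]
  constructor <;> nlinarith

/-- short windows -/
lemma window_diff {F : ℝ → ℝ} (hF : Measurable F) (hF1 : ∀ x, |F x| ≤ 1) {G : ℝ → ℝ}
    (hG : Measurable G) (hG1 : ∀ x, |G x| ≤ 1) (hFG : ∀ x, |F x| ≤ G x) {c d u v ε B : ℝ}
    (hu : |u - c| ≤ ε) (hv : |v - d| ≤ ε) (huv : u ≤ v) (hcd : c ≤ d)
    (hB1 : ∫ x in Set.Ioc (c - ε) (c + ε), G x ≤ B)
    (hB2 : ∫ x in Set.Ioc (d - ε) (d + ε), G x ≤ B) :
    |(∫ x in Set.Ioc u v, F x) - ∫ x in Set.Ioc c d, F x| ≤ 2 * B := by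
  have hG0 : ∀ x, 0 ≤ G x := fun x => (abs_nonneg _).trans (hFG x)
  have hii : ∀ a b, IntervalIntegrable F volume a b := fun a b =>
    Pool.Agent.W66.ii_of_bdd hF hF1 a b
  have key : ∀ a b : ℝ, |b - a| ≤ ε → |∫ x in a..b, F x| ≤ ∫ x in Set.Ioc (a - ε) (a + ε), G x := by
    intro a b hab
    have h1 := abs_le.1 hab
    rw [← Real.norm_eq_abs]
    refine (intervalIntegral.norm_integral_le_integral_norm_uIoc).trans ?_
    calc ∫ x in Set.uIoc a b, ‖F x‖ ≤ ∫ x in Set.uIoc a b, G x := by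
          refine setIntegral_mono_on ?_ ?_ measurableSet_uIoc fun x _ => ?_
          · exact (intervalIntegrable_iff.1 (hii a b)).norm
          · exact intervalIntegrable_iff.1 (Pool.Agent.W66.ii_of_bdd hG hG1 a b)
          · rw [Real.norm_eq_abs]; exact hFG x
      _ ≤ ∫ x in Set.Ioc (a - ε) (a + ε), G x := by
          refine setIntegral_mono_set (int_bdd hG hG1 _ _) (Eventually.of_forall hG0)
            (HasSubset.Subset.eventuallyLE ?_)
          intro x hx
          rw [Set.uIoc, Set.mem_Ioc] at hx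
          have hε : 0 ≤ ε := (abs_nonneg _).trans hab
          constructor
          · have : a - ε ≤ min a b := le_min (by linarith) (by linarith)
            linarith [hx.1]
          · have : max a b ≤ a + ε := max_le (by linarith) (by linarith)
            linarith [hx.2]
  rw [← intervalIntegral.integral_of_le huv, ← intervalIntegral.integral_of_le hcd]
  have h1 := intervalIntegral.integral_add_adjacent_intervals (hii c u) (hii u v)
  have h2 := intervalIntegral.integral_add_adjacent_intervals (hii c d) (hii d v)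
  have h3 := key c u hu
  have h4 := key d v hv
  have e : (∫ x in u..v, F x) - ∫ x in c..d, F x = (∫ x in d..v, F x) - ∫ x in c..u, F x := by
    linarith
  rw [e]
  refine (abs_sub _ _).trans ?_
  linarith

/-- distant exponents -/
theorem far_sh {a : ℝ} (ha : 0 < a) (b0 : ℝ) : ∃ κ K : ℝ, 0 < κ ∧ 0 < K ∧ ∃ P : ℕ, ∀ q ≥ P,
    ∀ (p : ℕ) (y y' z w : ℝ → ℝ), Sh a (b0 - 1) (b0 + 2) q y y' → Measurable w →
      MonotoneOn w (Set.Icc (a * q + b0 - 1) (a * q + b0 + 2)) →
      (∀ s ∈ Set.Icc (a * q + b0 - 1) (a * q + b0 + 2), ∀ t ∈ Set.Icc (a * q + b0 - 1) (a * q + b0 + 2),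
        |w s - w t| ≤ 2 * |s - t|) →
      (p : ℝ) ≤ κ * q / Real.log q → w (a * q + b0 + 2) ≤ a * p + |b0| + 3 →
      (∀ t ∈ Set.Ioc b0 (b0 + 1), w (y t) = z t) →
      |∫ t in Set.Ioc b0 (b0 + 1), gg p (z t) * gg q (y t)| ≤ K * (Real.log q / q ^ 2) := by
  obtain ⟨κ, K, hκ, hK, P, hP⟩ := far_w (c1 := a / 2) (by positivity)
  obtain ⟨K', hK', hbd⟩ := bounds (c := a / 2) (by positivity)
  refine ⟨κ / 8, K + 20 * K', by positivity, by positivity, ?_⟩
  have h1 : ∀ᶠ q : ℕ in atTop, (|b0| + 3) * 2 / a ≤ q :=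
    tendsto_natCast_atTop_atTop.eventually_ge_atTop _
  have h2 : ∀ᶠ q : ℕ in atTop, 2 * a ≤ q := tendsto_natCast_atTop_atTop.eventually_ge_atTop _
  have h3 : ∀ᶠ q : ℕ in atTop, Real.log q / q ≤ κ * a / (8 * (|b0| + 3)) := by
    have h4 : Tendsto (fun q : ℕ => Real.log q / q) atTop (𝓝 0) := by
      have h5 : Tendsto (fun x : ℝ => Real.log x / x) atTop (𝓝 0) := by
        have := Real.tendsto_pow_log_div_mul_add_atTop 1 0 1 one_ne_zero
        simpa using this
      exact h5.comp tendsto_natCast_atTop_atTop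
    exact (h4.eventually_lt_const (by positivity)).mono fun q hq => hq.le
  have h4 : ∀ᶠ q : ℕ in atTop, 2 / a < q := tendsto_natCast_atTop_atTop.eventually_gt_atTop _
  obtain ⟨P2, hP2⟩ := eventually_atTop.1 (h1.and (h2.and (h3.and ((log_nat_tendsto.eventually_ge_atTop 1).and
    (h4.and ((eventually_ge_atTop P).and (hbd.and (eventually_ge_atTop 3))))))))
  refine ⟨P2, fun q hq p y y' z w hSh hwm hmono hlip hpq hwtop hwy => ?_⟩
  obtain ⟨e1, e2, e3, e4, e5, e6, ⟨_, _, _, e7⟩, e8⟩ := hP2 q hq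
  have hb0 : 0 ≤ |b0| := abs_nonneg _
  have hq3 : (3 : ℝ) ≤ q := by exact_mod_cast e8
  have hq0 : (0 : ℝ) < q := by linarith
  have hinv : 1 / (q : ℝ) ≤ 1 / 3 := one_div_le_one_div_of_le (by norm_num) hq3
  have hinv0 : 0 < 1 / (q : ℝ) := by positivity
  set Y := a * q + b0 with hY
  have hYlo3 : a / 2 * q + 3 ≤ Y := by
    rw [div_le_iff₀ ha] at e1
    have := neg_abs_le b0
    linarith
  have hYlo : a / 2 * q ≤ Y := by linarith
  have hYhi : Y ≤ 2 * a * q := by
    rw [div_le_iff₀ ha] at e1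
    have := le_abs_self b0
    linarith
  have hY1 : 1 < Y := by
    rw [div_lt_iff₀ ha] at e5
    linarith
  have hlY : 0 < Real.log Y := Real.log_pos hY1
  have hlY2 : Real.log Y ≤ 2 * Real.log q := by
    calc Real.log Y ≤ Real.log (q * q) := Real.log_le_log (by linarith) (hYhi.trans (by
          have := mul_le_mul_of_nonneg_right e2 hq0.le
          linarith))
      _ = 2 * Real.log q := by rw [Real.log_mul hq0.ne' hq0.ne']; ring
  have hcond : w (Y + 2) ≤ κ * Y / Real.log Y := by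
    have h5 : κ * a / 4 * (q / Real.log q) ≤ κ * Y / Real.log Y := by
      calc κ * a / 4 * (q / Real.log q) = κ * (a / 2 * q) / (2 * Real.log q) := by
            field_simp; ring
        _ ≤ κ * Y / Real.log Y := by gcongr
    have h6 : a * p ≤ κ * a / 8 * (q / Real.log q) := by
      calc a * p ≤ a * (κ / 8 * q / Real.log q) := mul_le_mul_of_nonneg_left hpq ha.le
        _ = _ := by ring
    have h7 : |b0| + 3 ≤ κ * a / 8 * (q / Real.log q) := by
      rw [div_le_div_iff₀ hq0 (by positivity)] at e3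
      rw [mul_div_assoc', le_div_iff₀ (by linarith)]
      linarith
    linarith
  have hmain := hP q e6 p w Y hwm hYlo hmono hlip hcond
  set F : ℝ → ℝ := fun u => gg p (w u) * gg q u with hF
  have hFm : Measurable F := ((measurable_gg p).comp hwm).mul (measurable_gg q)
  have hFG : ∀ x, |F x| ≤ |gg q x| := fun x => by
    simp only [hF]
    rw [abs_mul]
    exact mul_le_of_le_one_left (abs_nonneg _) (abs_gg_le_one p _)
  have hF1 : ∀ x, |F x| ≤ 1 := fun x => (hFG x).trans (abs_gg_le_one q x)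
  have hGm : Measurable fun x => |gg q x| := (measurable_gg q).abs
  have hG1 : ∀ x, |(|gg q x|)| ≤ 1 := fun x => by rw [abs_abs]; exact abs_gg_le_one q x
  have e : ∫ t in Set.Ioc b0 (b0 + 1), gg p (z t) * gg q (y t) = ∫ t in Set.Ioc b0 (b0 + 1), F (y t) := by
    refine setIntegral_congr_fun measurableSet_Ioc fun t ht => ?_
    simp only [hF]
    rw [hwy t ht]
  rw [e]
  set lq := Real.log q / q ^ 2 with hlq
  have hlq0 : 0 ≤ lq := by positivity
  have hlqe : 1 / (q : ℝ) * (Real.log q / q) = lq := by rw [hlq]; field_simp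
  -- covariance
  have k1 := signed_cov hSh e8 (s := b0) (t := b0 + 1) (by linarith) (by linarith) (by linarith) hFm hF1
  have hnear0 := hSh.near b0 ⟨by linarith, by linarith⟩
  have hnear1 := hSh.near (b0 + 1) ⟨by linarith, by linarith⟩
  have hy01 : y b0 ≤ y (b0 + 1) := by
    have := abs_le.1 hnear0; have := abs_le.1 hnear1; linarith
  -- the integral of `|gg|` over the image
  have k2 : ∫ x in Set.Ioc b0 (b0 + 1), |F (y x)| ≤ 6 * K' * (Real.log q / q) := by
    have h5 := (hSh.cov e8 (s := b0) (t := b0 + 1) (by linarith) (by linarith) (by linarith)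
      (F := fun x => |gg q x|) hGm (fun x => abs_nonneg _) (fun x => abs_gg_le_one q x)).1
    have h6 : ∫ x in Set.Ioc b0 (b0 + 1), |F (y x)| ≤ ∫ x in Set.Ioc b0 (b0 + 1), |gg q (y x)| := by
      refine setIntegral_mono_on ?_ ?_ measurableSet_Ioc fun x _ => hFG _
      · exact int_comp hSh (by linarith) (by linarith) (F := fun x => |F x|) hFm.abs (M := 1)
          (fun x => by rw [abs_abs]; exact hF1 x)
      · exact int_comp hSh (by linarith) (by linarith) hGm hG1
    have h7 : ∫ u in Set.Ioc (y b0) (y (b0 + 1)), |gg q u| ≤ 4 * K' * (Real.log q / q) := by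
      have := abs_le.1 hnear0; have := abs_le.1 hnear1
      refine (e7 (y b0) (y (b0 + 1)) (by linarith) hy01).trans ?_
      have h8 : (y (b0 + 1) - y b0) + 1 / (q : ℝ) ≤ 4 := by linarith
      have h9 : 0 ≤ Real.log q / (q : ℝ) := by positivity
      calc K' * ((y (b0 + 1) - y b0) + 1 / (q : ℝ)) * (Real.log q / q) ≤ K' * 4 * (Real.log q / q) := by
            gcongr
        _ = _ := by ring
    have h8 : 0 ≤ ∫ x in Set.Ioc b0 (b0 + 1), |gg q (y x)| :=
      integral_nonneg fun x => abs_nonneg _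
    nlinarith
  have k3 : |(∫ u in Set.Ioc (y b0) (y (b0 + 1)), F u) - ∫ u in Set.Ioc Y (Y + 1), F u| ≤
      2 * (3 * K' * lq) := by
    have hB : ∀ c : ℝ, Y ≤ c → ∫ x in Set.Ioc (c - 1 / q) (c + 1 / q), |gg q x| ≤ 3 * K' * lq := by
      intro c hc
      refine (e7 (c - 1 / q) (c + 1 / q) (by linarith) (by linarith)).trans (le_of_eq ?_)
      rw [← hlqe]
      ring
    refine window_diff (G := fun x => |gg q x|) hFm hF1 hGm hG1 hFG (ε := 1 / q) ?_ ?_ hy01 (by linarith)
      (hB Y le_rfl) (hB (Y + 1) (by linarith))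
    · rw [hY]; exact hnear0
    · have : Y + 1 = a * q + (b0 + 1) := by rw [hY]; ring
      rw [this]; exact hnear1
  have k4 : |∫ u in Set.Ioc Y (Y + 1), F u| ≤ K * lq := by
    rw [← intervalIntegral.integral_of_le (by linarith)]
    exact hmain
  have k5 : 1 / (q : ℝ) * ∫ x in Set.Ioc b0 (b0 + 1), |F (y x)| ≤ 6 * K' * lq := by
    calc 1 / (q : ℝ) * ∫ x in Set.Ioc b0 (b0 + 1), |F (y x)| ≤
          1 / (q : ℝ) * (6 * K' * (Real.log q / q)) := mul_le_mul_of_nonneg_left k2 hinv0.le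
      _ = 6 * K' * (1 / (q : ℝ) * (Real.log q / q)) := by ring
      _ = _ := by rw [hlqe]
  have k6 := k1.trans k5
  rw [abs_le] at k3 k4 k6 ⊢
  constructor <;> nlinarith [mul_nonneg hK'.le hlq0]

end Pool.Agent.W66X
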