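import Mathlib
import Pool.Agent.W66.XB
import Pool.Agent.W66.SB
import Pool.Agent.W66.SC
import Pool.Agent.H447R2.ML.P8

set_option autoImplicit false

/-!
# The almost everywhere law for shift families with a near pair bound
-/

namespace Pool.Agent.W66X

open Finset Filter Topology MeasureTheory
open Pool.Agent.W66S (ae_abs row_abs)
open Pool.Agent.H447R2.ML (Sh C1 measurable_C1 single_upper_sh pair_bound_sh)
open Pool.Agent.H305R2 (roughPart bounds gg LL measurable_gg abs_gg_le abs_gg_le_one LL_nonneg LL_cont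
  LL_le_one ff NN measurable_ff ff_nonneg ff_le_one integrableOn_ff integrableOn_gg log_nat_tendsto
  smp smp_mono one_le_smp log_smp_ge log_smp_le tendsto_smp log_smp_div cesaro window_asymp)

lemma abs_ff_le_one (p : ℕ) (x : ℝ) : |ff p x| ≤ 1 := by
  rw [abs_of_nonneg (ff_nonneg p x)]; exact ff_le_one p x

/-- bounds for one index -/
lemma one_sh {a : ℝ} (ha : 0 < a) (b0 : ℝ) : ∃ K : ℝ, 0 < K ∧ ∃ P : ℕ, 3 ≤ P ∧ ∀ m ≥ P,
    ∀ y y' : ℝ → ℝ, Sh a (b0 - 1) (b0 + 2) m y y' →
    (∀ t ∈ Set.Ioc b0 (b0 + 1), LL m (y t) ≤ K * (Real.log m / m)) ∧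
    (∫ t in Set.Ioc b0 (b0 + 1), ff m (y t) ≤ K * (Real.log m / m)) ∧
    (∫ t in Set.Ioc b0 (b0 + 1), |gg m (y t)| ≤ K * (Real.log m / m)) := by
  obtain ⟨K, hK, hev⟩ := bounds (c := a / 2) (by positivity)
  obtain ⟨K1, hK1, P1, h1⟩ := single_upper_sh ha (b0 - 1)
  refine ⟨K + 2 * K1 + 6 * K, by positivity, ?_⟩
  have hlarge : ∀ᶠ p : ℕ in atTop, (|b0| + 3) * 2 / a < p :=
    tendsto_natCast_atTop_atTop.eventually_gt_atTop _
  obtain ⟨P, hP⟩ := eventually_atTop.1 (hev.and (hlarge.and ((eventually_ge_atTop 3).and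
    (eventually_ge_atTop P1))))
  refine ⟨P + 3, by omega, fun m hm y y' hSh => ?_⟩
  obtain ⟨⟨h2, _, _, h3⟩, h4, h5, h6⟩ := hP m (by omega)
  have hm3 : (3 : ℝ) ≤ m := by exact_mod_cast h5
  have hm0 : (0 : ℝ) < m := by linarith
  have hw : 0 ≤ Real.log m / m := div_nonneg (Real.log_natCast_nonneg m) hm0.le
  have hinv : 1 / (m : ℝ) ≤ 1 / 3 := one_div_le_one_div_of_le (by norm_num) hm3
  have hinv0 : 0 < 1 / (m : ℝ) := by positivity
  rw [div_lt_iff₀ ha] at h4
  have hb0 := neg_abs_le b0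
  have hylow : ∀ t ∈ Set.Icc b0 (b0 + 1), a / 2 * m + 2 ≤ y t := by
    intro t ht
    have := (abs_le.1 (hSh.near t ⟨by linarith [ht.1], by linarith [ht.2]⟩)).1
    linarith [ht.1]
  refine ⟨fun t ht => ?_, ?_, ?_⟩
  · refine (h2 _ (by linarith [hylow t ⟨ht.1.le, ht.2⟩])).trans ?_
    have h0 : 0 ≤ K1 * (Real.log m / m) := by positivity
    have h0' : 0 ≤ K * (Real.log m / m) := by positivity
    linarith
  · refine (h1 m h6 (b0 + 2) y y' hSh b0 (b0 + 1) (by linarith) (by linarith) (by linarith)).trans ?_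
    have h7 : (b0 + 1 - b0) + 1 / (m : ℝ) ≤ 2 := by linarith
    have h0 : 0 ≤ K * (Real.log m / m) := by positivity
    calc K1 * ((b0 + 1 - b0) + 1 / m) * (Real.log m / m) ≤ K1 * 2 * (Real.log m / m) := by gcongr
      _ ≤ _ := by linarith
  · have h7 := (hSh.cov h5 (s := b0) (t := b0 + 1) (by linarith) (by linarith) (by linarith)
      (F := fun x => |gg m x|) (measurable_gg m).abs (fun x => abs_nonneg _)
      (fun x => abs_gg_le_one m x)).1
    have hn0 := abs_le.1 (hSh.near b0 ⟨by linarith, by linarith⟩)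
    have hn1 := abs_le.1 (hSh.near (b0 + 1) ⟨by linarith, by linarith⟩)
    have h8 := h3 (y b0) (y (b0 + 1)) (by linarith [hylow b0 ⟨le_rfl, by linarith⟩]) (by linarith)
    have h9 : (y (b0 + 1) - y b0) + 1 / (m : ℝ) ≤ 4 := by linarith
    have h10 : ∫ u in Set.Ioc (y b0) (y (b0 + 1)), |gg m u| ≤ K * 4 * (Real.log m / m) := by
      refine h8.trans ?_
      gcongr
    have h11 : 0 ≤ ∫ x in Set.Ioc b0 (b0 + 1), |gg m (y x)| := integral_nonneg fun x => abs_nonneg _
    have h0 : 0 ≤ K1 * (Real.log m / m) := by positivity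
    have h12 : 0 ≤ K * (Real.log m / m) := by positivity
    nlinarith

/-- reduction of the correlation to the joint event -/
lemma corr_le {a : ℝ} (ha : 0 < a) (b0 : ℝ) : ∃ K : ℝ, 0 < K ∧ ∃ P : ℕ, 3 ≤ P ∧ ∀ p ≥ P, ∀ q ≥ P,
    ∀ y y' z z' : ℝ → ℝ, Sh a (b0 - 1) (b0 + 2) p y y' → Sh a (b0 - 1) (b0 + 2) q z z' →
    |∫ t in Set.Ioc b0 (b0 + 1), gg p (y t) * gg q (z t)| ≤
      (∫ t in Set.Ioc b0 (b0 + 1), ff p (y t) * ff q (z t)) +
      K * ((Real.log p / p) * (Real.log q / q)) := by
  obtain ⟨K, hK, P, hP3, hP⟩ := one_sh ha b0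
  refine ⟨3 * K ^ 2, by positivity, P, hP3, fun p hp q hq y y' z z' hy hz => ?_⟩
  obtain ⟨hp1, hp2, _⟩ := hP p hp y y' hy
  obtain ⟨hq1, hq2, _⟩ := hP q hq z z' hz
  set I := Set.Ioc b0 (b0 + 1) with hI
  have hwp : 0 ≤ Real.log p / p := div_nonneg (Real.log_natCast_nonneg p) (Nat.cast_nonneg p)
  have hwq : 0 ≤ Real.log q / q := div_nonneg (Real.log_natCast_nonneg q) (Nat.cast_nonneg q)
  set wp := Real.log p / p with hwpd
  set wq := Real.log q / q with hwqd
  have hyc : AEMeasurable y (volume.restrict I) :=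
    (hy.cont.mono (fun x hx => ⟨by linarith [hx.1], by linarith [hx.2]⟩)).aemeasurable measurableSet_Ioc
  have hzc : AEMeasurable z (volume.restrict I) :=
    (hz.cont.mono (fun x hx => ⟨by linarith [hx.1], by linarith [hx.2]⟩)).aemeasurable measurableSet_Ioc
  have i1 : IntegrableOn (fun t => ff p (y t)) I :=
    int_comp hy (by linarith) (by linarith) (measurable_ff p) (abs_ff_le_one p)
  have i2 : IntegrableOn (fun t => ff q (z t)) I :=
    int_comp hz (by linarith) (by linarith) (measurable_ff q) (abs_ff_le_one q)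
  have i3 : IntegrableOn (fun t => ff p (y t) * ff q (z t)) I := by
    refine Integrable.of_bound (((measurable_ff p).comp_aemeasurable hyc).mul
      ((measurable_ff q).comp_aemeasurable hzc)).aestronglyMeasurable 1 ?_
    refine Eventually.of_forall fun t => ?_
    rw [Real.norm_eq_abs, abs_mul]
    exact mul_le_one₀ (abs_ff_le_one p _) (abs_nonneg _) (abs_ff_le_one q _)
  have i4 : IntegrableOn (fun t => |gg p (y t) * gg q (z t)|) I := by
    refine Integrable.abs ?_
    refine Integrable.of_bound (((measurable_gg p).comp_aemeasurable hyc).mul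
      ((measurable_gg q).comp_aemeasurable hzc)).aestronglyMeasurable 1 ?_
    refine Eventually.of_forall fun t => ?_
    rw [Real.norm_eq_abs, abs_mul]
    exact mul_le_one₀ (abs_gg_le_one p _) (abs_nonneg _) (abs_gg_le_one q _)
  have i5 : IntegrableOn (fun _ : ℝ => K * wp * (K * wq)) I := integrableOn_const (by simp [hI])
  have i6 : IntegrableOn (fun t : ℝ => K * wq * ff p (y t)) I := i1.const_mul _
  have i7 : IntegrableOn (fun t : ℝ => K * wp * ff q (z t)) I := i2.const_mul _
  have i8 : IntegrableOn (fun t : ℝ => K * wq * ff p (y t) + K * wp * ff q (z t)) I := i6.add i7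
  have i9 : IntegrableOn (fun t : ℝ => K * wq * ff p (y t) + K * wp * ff q (z t) +
      K * wp * (K * wq)) I := i8.add i5
  have i10 : IntegrableOn (fun t : ℝ => ff p (y t) * ff q (z t) +
      (K * wq * ff p (y t) + K * wp * ff q (z t) + K * wp * (K * wq))) I := i3.add i9
  calc |∫ t in I, gg p (y t) * gg q (z t)| ≤ ∫ t in I, |gg p (y t) * gg q (z t)| := by
        have := norm_integral_le_integral_norm (μ := volume.restrict I)
          (fun t => gg p (y t) * gg q (z t))
        simpa [Real.norm_eq_abs] using this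
    _ ≤ ∫ t in I, (ff p (y t) * ff q (z t) +
      (K * wq * ff p (y t) + K * wp * ff q (z t) + K * wp * (K * wq))) := by
        refine setIntegral_mono_on i4 i10 measurableSet_Ioc fun t ht => ?_
        rw [abs_mul]
        have h1 := abs_gg_le p (y t)
        have h2 := abs_gg_le q (z t)
        have h3 := hp1 t ht
        have h4 := hq1 t ht
        have h5 := ff_nonneg p (y t)
        have h6 := ff_nonneg q (z t)
        have h7 := LL_nonneg p (y t)
        have h8 := LL_nonneg q (z t)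
        have h9 : |gg p (y t)| ≤ ff p (y t) + K * wp := by linarith
        have h10 : |gg q (z t)| ≤ ff q (z t) + K * wq := by linarith
        calc |gg p (y t)| * |gg q (z t)| ≤ (ff p (y t) + K * wp) * (ff q (z t) + K * wq) :=
              mul_le_mul h9 h10 (abs_nonneg _) (by positivity)
          _ = _ := by ring
    _ = (∫ t in I, ff p (y t) * ff q (z t)) +
        (K * wq * (∫ t in I, ff p (y t)) + K * wp * (∫ t in I, ff q (z t)) + K * wp * (K * wq)) := by
        rw [integral_add i3 i9, integral_add i8 i5, integral_add i6 i7,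
          integral_const_mul, integral_const_mul, setIntegral_const, hI,
          Real.volume_real_Ioc_of_le (by linarith)]
        simp
    _ ≤ (∫ t in I, ff p (y t) * ff q (z t)) +
        (K * wq * (K * wp) + K * wp * (K * wq) + K * wp * (K * wq)) := by
        gcongr
    _ = _ := by ring

/-- pairs with `2 p ≤ q` -/
lemma mid_sh {a : ℝ} (ha : 0 < a) (b0 : ℝ) : ∃ K : ℝ, 0 < K ∧ ∃ P : ℕ, ∀ p ≥ P, ∀ q : ℕ, 2 * p ≤ q →
    ∀ y y' z z' : ℝ → ℝ, Sh a (b0 - 1) (b0 + 2) p y y' → Sh a (b0 - 1) (b0 + 2) q z z' →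
    |∫ t in Set.Ioc b0 (b0 + 1), gg p (y t) * gg q (z t)| ≤
      K * ((Real.log p / p) * (Real.log q / q)) := by
  obtain ⟨K1, hK1, P1, hP13, h1⟩ := corr_le ha b0
  obtain ⟨K2, hK2, P2, h2⟩ := pair_bound_sh (a := a) (a0 := b0 - 1) (a1 := b0 + 2)
    (b0 := b0) (b1 := b0 + 1) ha (by linarith) (by linarith)
  refine ⟨K1 + 4 * K2, by positivity, ?_⟩
  have hgap : ∀ᶠ q : ℕ in atTop, 64 / a * (Real.log q * Real.log (Real.log q)) ≤ q / 2 := by
    have h1 : ∀ᶠ x : ℝ in atTop, 64 / a * (Real.log x * Real.log (Real.log x)) ≤ x / 2 := by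
      have h2 : ∀ᶠ x : ℝ in atTop, (Real.log x) ^ 2 ≤ 1 / (2 * (64 / a)) * x := by
        have h3 := (Real.isLittleO_pow_log_id_atTop (n := 2)).bound
          (show (0 : ℝ) < 1 / (2 * (64 / a)) by positivity)
        filter_upwards [h3, eventually_gt_atTop 0] with x hx hx0
        rw [Real.norm_eq_abs, Real.norm_eq_abs, abs_of_nonneg (by positivity)] at hx
        simpa [abs_of_pos hx0] using hx
      filter_upwards [h2, Real.tendsto_log_atTop.eventually_ge_atTop 1, eventually_gt_atTop 0]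
        with x hx hx1 hx0
      have h4 : Real.log (Real.log x) ≤ Real.log x := by
        have := Real.log_le_sub_one_of_pos (show 0 < Real.log x by linarith)
        linarith
      calc 64 / a * (Real.log x * Real.log (Real.log x)) ≤ 64 / a * (Real.log x * Real.log x) := by gcongr
        _ = 64 / a * (Real.log x) ^ 2 := by ring
        _ ≤ 64 / a * (1 / (2 * (64 / a)) * x) := by gcongr
        _ = x / 2 := by field_simp
    exact tendsto_natCast_atTop_atTop.eventually h1
  obtain ⟨P3, hP3⟩ := eventually_atTop.1 hgap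
  refine ⟨P1 + P2 + P3 + 1, fun p hp q hpq y y' z z' hy hz => ?_⟩
  have hp1 : (1 : ℝ) ≤ p := by exact_mod_cast (by omega : 1 ≤ p)
  have hpq' : 2 * (p : ℝ) ≤ q := by exact_mod_cast hpq
  have h3 := h2 p q (by omega) (by omega) _ _ _ _ hy hz (by
    have := hP3 q (by omega)
    linarith) b0 (b0 + 1) le_rfl (by linarith) le_rfl
  have h4 := h1 p (by omega) q (by omega) y y' z z' hy hz
  have hwp : 0 ≤ Real.log p / p := div_nonneg (Real.log_natCast_nonneg p) (Nat.cast_nonneg p)
  have hlq : 0 ≤ Real.log q := Real.log_natCast_nonneg q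
  have hq0 : (0 : ℝ) < q := by linarith
  have h5 : K2 * ((b0 + 1 - b0) + 1 / p) * (Real.log p / p) * (Real.log q / (q - p)) ≤
      4 * K2 * ((Real.log p / p) * (Real.log q / q)) := by
    have h6 : (b0 + 1 - b0) + 1 / (p : ℝ) ≤ 2 := by
      have : 1 / (p : ℝ) ≤ 1 := by rw [div_le_one (by linarith)]; exact hp1
      linarith
    have h7 : Real.log q / (q - p) ≤ 2 * (Real.log q / q) := by
      calc Real.log q / (q - p) ≤ Real.log q / (q / 2) :=
            div_le_div_of_nonneg_left hlq (by positivity) (by linarith)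
        _ = _ := by field_simp
    have h8 : 0 ≤ Real.log q / (q - p) := div_nonneg hlq (by linarith)
    calc K2 * ((b0 + 1 - b0) + 1 / p) * (Real.log p / p) * (Real.log q / (q - p)) ≤
          K2 * 2 * (Real.log p / p) * (2 * (Real.log q / q)) := by gcongr
      _ = _ := by ring
  calc _ ≤ _ := h4
    _ ≤ 4 * K2 * ((Real.log p / p) * (Real.log q / q)) + K1 * ((Real.log p / p) * (Real.log q / q)) := by
        linarith
    _ = _ := by ring

/-- from the sampling points to all integers, for monotone functions -/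
lemma all_n_mono {F : ℕ → ℝ} (hF : Monotone F) (hF0 : ∀ n, 0 ≤ F n) {L : ℝ}
    (h : Tendsto (fun k : ℕ => F (smp (k ^ 2)) / ((k ^ 2 : ℕ) : ℝ)) atTop (𝓝 L)) :
    Tendsto (fun n : ℕ => F n / Real.log n) atTop (𝓝 L) := by
  have h1 : Tendsto (fun m : ℕ => F (smp m) / (m : ℝ)) atTop (𝓝 L) := by
    refine tendsto_div_of_monotone_of_exists_subseq_tendsto_div (fun m => F (smp m)) L
      (fun m n hmn => hF (smp_mono hmn)) fun c hc => ?_
    refine ⟨fun k => k ^ 2, ?_, tendsto_pow_atTop two_ne_zero, h⟩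
    have h2 : Tendsto (fun k : ℕ => (1 + 1 / (k : ℝ)) ^ 2) atTop (𝓝 ((1 + 0) ^ 2)) :=
      ((tendsto_one_div_atTop_nhds_zero_nat (𝕜 := ℝ)).const_add 1).pow 2
    have h3 : ∀ᶠ k : ℕ in atTop, (1 + 1 / (k : ℝ)) ^ 2 < c := h2.eventually (gt_mem_nhds (by simpa using hc))
    filter_upwards [h3, eventually_ge_atTop 1] with k hk hk1
    have hk0 : (0 : ℝ) < k := by exact_mod_cast hk1
    have e : (((k + 1) ^ 2 : ℕ) : ℝ) = (1 + 1 / (k : ℝ)) ^ 2 * ((k ^ 2 : ℕ) : ℝ) := by
      push_cast
      field_simp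
    rw [e]
    gcongr
  -- integer part of the logarithm
  set m : ℕ → ℕ := fun n => ⌊Real.log n⌋₊ with hm
  have hmt : Tendsto m atTop atTop := tendsto_nat_floor_atTop.comp log_nat_tendsto
  have hlow : Tendsto (fun n : ℕ => F (smp (m n)) / ((m n : ℝ) + 1)) atTop (𝓝 L) := by
    have h2 : Tendsto (fun k : ℕ => F (smp k) / (k : ℝ) * ((k : ℝ) / (k + 1))) atTop (𝓝 (L * 1)) :=
      h1.mul (tendsto_natCast_div_add_atTop (1 : ℝ))
    rw [mul_one] at h2
    refine (h2.comp hmt).congr' ?_
    filter_upwards [hmt.eventually (eventually_ge_atTop 1)] with n hn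
    have : (0 : ℝ) < m n := by exact_mod_cast hn
    simp only [Function.comp]
    field_simp
  have hup : Tendsto (fun n : ℕ => F (smp (m n + 1)) / (m n : ℝ)) atTop (𝓝 L) := by
    have h2 : Tendsto (fun k : ℕ => F (smp (k + 1)) / ((k + 1 : ℕ) : ℝ) * (1 + 1 / (k : ℝ))) atTop
        (𝓝 (L * (1 + 0))) :=
      ((tendsto_add_atTop_iff_nat (f := fun m : ℕ => F (smp m) / (m : ℝ)) 1).mpr h1).mul
        ((tendsto_one_div_atTop_nhds_zero_nat (𝕜 := ℝ)).const_add 1)
    rw [add_zero, mul_one] at h2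
    refine (h2.comp hmt).congr' ?_
    filter_upwards [hmt.eventually (eventually_ge_atTop 1)] with n hn
    have : (0 : ℝ) < m n := by exact_mod_cast hn
    simp only [Function.comp]
    push_cast
    field_simp
  refine tendsto_of_tendsto_of_tendsto_of_le_of_le' hlow hup ?_ ?_
  · filter_upwards [eventually_ge_atTop 3] with n hn
    have hn0 : (3 : ℝ) ≤ n := by exact_mod_cast hn
    have hlog : 0 < Real.log n := Real.log_pos (by linarith)
    have h2 : Real.log n < m n + 1 := Nat.lt_floor_add_one _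
    have h3 : smp (m n) ≤ n := by
      have h4 : Real.exp (m n : ℝ) ≤ n := by
        rw [← Real.le_log_iff_exp_le (by linarith)]
        exact Nat.floor_le hlog.le
      unfold smp
      exact Nat.floor_le_of_le h4
    exact div_le_div₀ (hF0 n) (hF h3) hlog h2.le
  · filter_upwards [eventually_ge_atTop 3, hmt.eventually (eventually_ge_atTop 1)] with n hn hmn
    have hn0 : (3 : ℝ) ≤ n := by exact_mod_cast hn
    have hlog : 0 < Real.log n := Real.log_pos (by linarith)
    have hm0 : (0 : ℝ) < m n := by exact_mod_cast hmn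
    have h2 : (m n : ℝ) ≤ Real.log n := Nat.floor_le hlog.le
    have h3 : n ≤ smp (m n + 1) := by
      have h4 : (n : ℝ) ≤ Real.exp ((m n + 1 : ℕ) : ℝ) := by
        rw [← Real.log_le_iff_le_exp (by linarith)]
        push_cast
        exact (Nat.lt_floor_add_one _).le
      unfold smp
      exact Nat.le_floor h4
    exact div_le_div₀ (hF0 _) (hF h3) hm0 h2

lemma C1_mono (y : ℕ → ℝ → ℝ) (t : ℝ) : Monotone (C1 y t) := by
  intro m n h
  unfold C1
  refine Finset.sum_le_sum_of_subset_of_nonneg ?_ fun p _ _ => ff_nonneg p _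
  exact Finset.filter_subset_filter _ (Finset.Icc_subset_Icc_right h)

/-- pointwise deduction of the law from the fluctuations along squares -/
lemma law_of_fluct {a : ℝ} (ha : 0 < a) {y : ℕ → ℝ → ℝ} {t : ℝ} {P0 : ℕ}
    (hy : Tendsto (fun p : ℕ => y p t / p) atTop (𝓝 a))
    (hS : Tendsto (fun k : ℕ => (∑ p ∈ (Finset.Icc P0 (smp (k ^ 2))).filter Nat.Prime, gg p (y p t)) /
      ((k : ℝ) ^ 2)) atTop (𝓝 0)) :
    Tendsto (fun n : ℕ => C1 y t n / Real.log n) atTop
      (𝓝 (Real.exp Real.eulerMascheroniConstant / a)) := by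
  refine all_n_mono (C1_mono y t) (fun n => Finset.sum_nonneg fun p _ => ff_nonneg p _) ?_
  set L := Real.exp Real.eulerMascheroniConstant / a with hL
  have hmain : Tendsto (fun n : ℕ => (∑ p ∈ (Finset.Icc 1 n).filter Nat.Prime, LL p (y p t)) /
      Real.log n) atTop (𝓝 L) :=
    cesaro (fun p => LL p (y p t)) _ (window_asymp ha (y := fun p => y p t) hy)
  have hsq : Tendsto (fun k : ℕ => k ^ 2) atTop atTop := tendsto_pow_atTop two_ne_zero
  have h1 := (hmain.comp tendsto_smp).comp hsq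
  have h2 := log_smp_div.comp hsq
  have h3 := h1.mul h2
  rw [mul_one] at h3
  have h4 : Tendsto (fun k : ℕ => ((P0 : ℝ) + 1) / ((k ^ 2 : ℕ) : ℝ)) atTop (𝓝 0) :=
    (tendsto_natCast_atTop_atTop.comp hsq).const_div_atTop _
  have hsub : ∀ n : ℕ, |C1 y t n - (∑ p ∈ (Finset.Icc 1 n).filter Nat.Prime, LL p (y p t)) -
      ∑ p ∈ (Finset.Icc P0 n).filter Nat.Prime, gg p (y p t)| ≤ P0 + 1 := by
    intro n
    have h1 : C1 y t n - (∑ p ∈ (Finset.Icc 1 n).filter Nat.Prime, LL p (y p t)) =
        ∑ p ∈ (Finset.Icc 1 n).filter Nat.Prime, gg p (y p t) := by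
      unfold C1 gg
      rw [Finset.sum_sub_distrib]
    have h2 : ∑ p ∈ (Finset.Icc 1 n).filter Nat.Prime, gg p (y p t) =
        (∑ p ∈ (Finset.Icc P0 n).filter Nat.Prime, gg p (y p t)) +
        ∑ p ∈ ((Finset.Icc 1 n).filter Nat.Prime).filter (fun p => p < P0), gg p (y p t) := by
      rw [← Finset.sum_filter_add_sum_filter_not ((Finset.Icc 1 n).filter Nat.Prime) (fun p => p < P0),
        add_comm]
      congr 1
      refine Finset.sum_congr ?_ fun _ _ => rfl
      ext p
      simp only [Finset.mem_filter, Finset.mem_Icc, not_lt]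
      constructor
      · rintro ⟨⟨⟨h1, h2⟩, h3⟩, h4⟩
        exact ⟨⟨h4, h2⟩, h3⟩
      · rintro ⟨⟨h1, h2⟩, h3⟩
        exact ⟨⟨⟨h3.one_lt.le, h2⟩, h3⟩, h1⟩
    rw [h1, h2, add_sub_cancel_left]
    refine (Finset.abs_sum_le_sum_abs _ _).trans ?_
    calc ∑ p ∈ ((Finset.Icc 1 n).filter Nat.Prime).filter (fun p => p < P0), |gg p (y p t)|
        ≤ ∑ p ∈ ((Finset.Icc 1 n).filter Nat.Prime).filter (fun p => p < P0), (1 : ℝ) :=
          Finset.sum_le_sum fun p _ => abs_gg_le_one _ _
      _ ≤ ∑ p ∈ Finset.range (P0 + 1), (1 : ℝ) := by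
          refine Finset.sum_le_sum_of_subset_of_nonneg ?_ fun _ _ _ => zero_le_one
          intro p hp
          have := (Finset.mem_filter.mp hp).2
          exact Finset.mem_range.mpr (by omega)
      _ = P0 + 1 := by simp
  have h5 : Tendsto (fun k : ℕ => (C1 y t (smp (k ^ 2)) -
      (∑ p ∈ (Finset.Icc 1 (smp (k ^ 2))).filter Nat.Prime, LL p (y p t)) -
      ∑ p ∈ (Finset.Icc P0 (smp (k ^ 2))).filter Nat.Prime, gg p (y p t)) /
        ((k ^ 2 : ℕ) : ℝ)) atTop (𝓝 0) := by
    refine squeeze_zero_norm (fun k => ?_) h4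
    rw [Real.norm_eq_abs, abs_div, abs_of_nonneg (show (0 : ℝ) ≤ ((k ^ 2 : ℕ) : ℝ) from Nat.cast_nonneg _)]
    exact div_le_div_of_nonneg_right (hsub _) (Nat.cast_nonneg _)
  have h6 := (h5.add h3).add hS
  rw [zero_add, add_zero] at h6
  refine h6.congr' ?_
  filter_upwards [eventually_ge_atTop 2] with k hk
  have hk0 : (2 : ℝ) ≤ k := by exact_mod_cast hk
  have hlog : 0 < Real.log (smp (k ^ 2)) := by
    have := log_smp_ge (k ^ 2)
    push_cast at this
    nlinarith
  simp only [Function.comp]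
  push_cast
  field_simp
  ring

/-- **The law for shift families.** -/
theorem law_sh {a : ℝ} (ha : 0 < a) {y y' : ℕ → ℝ → ℝ} (hym : ∀ p, Measurable (y p))
    (hfam : ∀ a0 a1 : ℝ, a0 < a1 → ∀ᶠ p : ℕ in atTop, Sh a a0 a1 p (y p) (y' p))
    (hw : ∀ b0 : ℝ, ∃ P : ℕ, ∀ p ≥ P, ∀ q ≥ P, p ≤ q → ∃ w : ℝ → ℝ, Measurable w ∧
      MonotoneOn w (Set.Icc (a * q + b0 - 1) (a * q + b0 + 2)) ∧
      (∀ s ∈ Set.Icc (a * q + b0 - 1) (a * q + b0 + 2), ∀ t ∈ Set.Icc (a * q + b0 - 1) (a * q + b0 + 2),
        |w s - w t| ≤ 2 * |s - t|) ∧ w (a * q + b0 + 2) ≤ a * p + |b0| + 3 ∧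
      ∀ t ∈ Set.Ioc b0 (b0 + 1), w (y q t) = y p t)
    (hnear : ∀ b0 : ℝ, ∃ K : ℝ, 0 < K ∧ ∃ P : ℕ, ∀ p ≥ P, ∀ q : ℕ, p < q → q ≤ 2 * p →
      ∫ t in Set.Ioc b0 (b0 + 1), ff p (y p t) * ff q (y q t) ≤
        K * ((Real.log p / p) ^ 2 + ((2 : ℝ) ^ (q - p))⁻¹ * (Real.log p / p))) :
    ∀ᵐ t : ℝ, Tendsto (fun n : ℕ => C1 y t n / Real.log n) atTop
      (𝓝 (Real.exp Real.eulerMascheroniConstant / a)) := by
  have hwin : ∀ b0 : ℝ, ∀ᵐ t ∂(volume.restrict (Set.Ioc b0 (b0 + 1))),
      Tendsto (fun n : ℕ => C1 y t n / Real.log n) atTop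
      (𝓝 (Real.exp Real.eulerMascheroniConstant / a)) := by
    intro b0
    obtain ⟨P0, hP0⟩ := eventually_atTop.1 (hfam (b0 - 1) (b0 + 2) (by linarith))
    obtain ⟨κ, K1, hκ, hK1, P1, h1⟩ := far_sh ha b0
    obtain ⟨K2, hK2, P2, h2⟩ := mid_sh ha b0
    obtain ⟨K3, hK3, P3, h3⟩ := hnear b0
    obtain ⟨K4, hK4, P4, hP43, h4⟩ := corr_le ha b0
    obtain ⟨K5, hK5, P5, hP53, h5⟩ := one_sh ha b0
    obtain ⟨P6, h6⟩ := hw b0
    obtain ⟨P7, h7⟩ := eventually_atTop.1 (log_nat_tendsto.eventually_ge_atTop κ)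
    set Q := P0 + P1 + P2 + P3 + P4 + P5 + P6 + P7 with hQ
    set J : ℕ → ℕ → ℝ := fun p q => if Q ≤ p then
      ∫ t in Set.Ioc b0 (b0 + 1), gg p (y p t) * gg q (y q t) else 0 with hJ
    have hw0 : ∀ m : ℕ, 0 ≤ Real.log m / m := fun m =>
      div_nonneg (Real.log_natCast_nonneg m) (Nat.cast_nonneg m)
    set K := K1 + K2 + (K3 + 2 * K4) with hK
    obtain ⟨C, hC, P', hP', hP3', hrow⟩ := row_abs (κ := κ) (K := K) hκ (by positivity)
      (b := 2) le_rfl J Q
      (by
        intro q hq p hp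
        have hr : 0 ≤ Real.log q / (q : ℝ) ^ 2 := div_nonneg (Real.log_natCast_nonneg q) (by positivity)
        simp only [hJ]
        split_ifs with hpQ
        · have hlq := h7 q (by omega)
          have hq0 : (0 : ℝ) < q := by exact_mod_cast (by omega : 0 < q)
          have hpq : p ≤ q := by
            have hl : 0 < Real.log q := lt_of_lt_of_le hκ hlq
            have : (p : ℝ) ≤ q := by
              refine hp.trans ?_
              rw [div_le_iff₀ hl]
              nlinarith
            exact_mod_cast this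
          obtain ⟨w, w1, w2, w3, w4, w5⟩ := h6 p (by omega) q (by omega) hpq
          refine (h1 q (by omega) p (y q) (y' q) (y p) w (hP0 q (by omega)) w1 w2 w3 hp w4 w5).trans ?_
          exact mul_le_mul_of_nonneg_right (by rw [hK]; linarith) hr
        · rw [abs_zero]; positivity)
      (by
        intro p hp q hq
        simp only [hJ]
        rw [if_pos hp]
        refine (h2 p (by omega) q hq _ _ _ _ (hP0 p (by omega)) (hP0 q (by omega))).trans ?_
        exact mul_le_mul_of_nonneg_right (by rw [hK]; linarith) (mul_nonneg (hw0 p) (hw0 q)))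
      (by
        intro p hp q hq hq2
        simp only [hJ]
        rw [if_pos hp]
        have e1 := h4 p (by omega) q (by omega) _ _ _ _ (hP0 p (by omega)) (hP0 q (by omega))
        have e2 := h3 p (by omega) q hq hq2
        have hp2 : (2 : ℝ) ≤ p := by exact_mod_cast (by omega : 2 ≤ p)
        have hp0 : (0 : ℝ) < p := by linarith
        have hpq' : (p : ℝ) ≤ q := by exact_mod_cast hq.le
        have hwq : Real.log q / q ≤ 2 * (Real.log p / p) := by
          have hq2' : (q : ℝ) ≤ p * p := by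
            have : (q : ℝ) ≤ 2 * p := by exact_mod_cast hq2
            nlinarith
          have hlq : Real.log q ≤ 2 * Real.log p := by
            calc Real.log q ≤ Real.log (p * p) := Real.log_le_log (by linarith) hq2'
              _ = 2 * Real.log p := by rw [Real.log_mul hp0.ne' hp0.ne']; ring
          have hlp := Real.log_natCast_nonneg p
          calc Real.log q / q ≤ (2 * Real.log p) / p := div_le_div₀ (by positivity) hlq hp0 hpq'
            _ = _ := by ring
        have hwp := hw0 p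
        have e3 : K4 * ((Real.log p / p) * (Real.log q / q)) ≤ 2 * K4 * (Real.log p / p) ^ 2 := by
          calc K4 * ((Real.log p / p) * (Real.log q / q)) ≤
                K4 * ((Real.log p / p) * (2 * (Real.log p / p))) := by gcongr
            _ = _ := by ring
        have e4 : 0 ≤ ((2 : ℝ) ^ (q - p))⁻¹ * (Real.log p / p) := by positivity
        have e5 : 0 ≤ (Real.log p / p) ^ 2 := sq_nonneg _
        push_cast
        rw [hK]
        calc _ ≤ _ := e1
          _ ≤ K3 * ((Real.log p / p) ^ 2 + ((2 : ℝ) ^ (q - p))⁻¹ * (Real.log p / p)) +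
              2 * K4 * (Real.log p / p) ^ 2 := add_le_add e2 e3
          _ ≤ _ := by nlinarith [mul_nonneg hK1.le e5, mul_nonneg hK2.le e5, mul_nonneg hK1.le e4,
              mul_nonneg hK2.le e4, mul_nonneg hK4.le e4])
    have hfin : IsFiniteMeasure (volume.restrict (Set.Ioc b0 (b0 + 1))) := ⟨by simp⟩
    have hmain := ae_abs (μ := volume.restrict (Set.Ioc b0 (b0 + 1))) (G := fun p t => gg p (y p t))
      (fun p => (measurable_gg p).comp (hym p))
      (fun p t => abs_gg_le_one _ _) (C := C + K5) (by positivity) (P := P') hP3'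
      (by
        intro p hp
        have e1 := (h5 p (by omega) _ _ (hP0 p (by omega))).2.2
        have e2 : ∫ t in Set.Ioc b0 (b0 + 1), (gg p (y p t)) ^ 2 ≤
            ∫ t in Set.Ioc b0 (b0 + 1), |gg p (y p t)| := by
          have hmg : Measurable (fun t : ℝ => gg p (y p t)) := (measurable_gg p).comp (hym p)
          refine setIntegral_mono_on ?_ ?_ measurableSet_Ioc fun t _ => ?_
          · refine int_bdd (hmg.pow_const 2) (M := 1) (fun t => ?_) _ _
            rw [abs_pow]
            exact pow_le_one₀ (abs_nonneg _) (abs_gg_le_one _ _)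
          · refine int_bdd hmg.abs (M := 1) (fun t => ?_) _ _
            rw [abs_abs]
            exact abs_gg_le_one _ _
          · have h1 := abs_gg_le_one p (y p t)
            have h2 := abs_nonneg (gg p (y p t))
            rw [← sq_abs]
            nlinarith
        refine e2.trans (e1.trans ?_)
        exact mul_le_mul_of_nonneg_right (by linarith) (hw0 p))
      (by
        intro q hq
        have hsame : ∑ p ∈ (Finset.Ico P' q).filter Nat.Prime,
            |∫ t in Set.Ioc b0 (b0 + 1), gg p (y p t) * gg q (y q t)| =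
            ∑ p ∈ (Finset.Ico P' q).filter Nat.Prime, |J p q| := by
          refine Finset.sum_congr rfl fun p hp => ?_
          rw [mem_filter, mem_Ico] at hp
          simp only [hJ]
          rw [if_pos (hP'.trans hp.1.1)]
        rw [hsame]
        refine (hrow q hq).trans ?_
        have hq3 : (3 : ℝ) ≤ q := by exact_mod_cast hP3'.trans hq
        have hll : 0 ≤ Real.log (Real.log q) := by
          refine Real.log_nonneg ?_
          rw [Real.le_log_iff_exp_le (by linarith)]
          have := Real.exp_one_lt_d9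
          linarith
        refine mul_le_mul_of_nonneg_right (by linarith) ?_
        exact mul_nonneg (hw0 q) (by linarith))
    have hmem : ∀ᵐ t ∂(volume.restrict (Set.Ioc b0 (b0 + 1))), t ∈ Set.Ioc b0 (b0 + 1) :=
      ae_restrict_mem measurableSet_Ioc
    filter_upwards [hmain, hmem] with t ht htm
    refine law_of_fluct ha (P0 := P') ?_ ht
    -- `y p t / p → a`
    have h8 : Tendsto (fun p : ℕ => (a * p + t) / p) atTop (𝓝 a) := by
      have h9 : Tendsto (fun p : ℕ => a + t * (1 / (p : ℝ))) atTop (𝓝 (a + t * 0)) :=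
        tendsto_const_nhds.add ((tendsto_one_div_atTop_nhds_zero_nat (𝕜 := ℝ)).const_mul t)
      rw [mul_zero, add_zero] at h9
      refine h9.congr' ?_
      filter_upwards [eventually_ge_atTop 1] with p hp
      have hp0 : (0 : ℝ) < p := by exact_mod_cast hp
      field_simp
    have h9 : Tendsto (fun p : ℕ => y p t / p - (a * p + t) / p) atTop (𝓝 0) := by
      refine squeeze_zero_norm' ?_ (tendsto_one_div_atTop_nhds_zero_nat (𝕜 := ℝ))
      filter_upwards [eventually_ge_atTop P0, eventually_ge_atTop 1] with p hp hp1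
      have hp0 : (1 : ℝ) ≤ p := by exact_mod_cast hp1
      have h10 := (hP0 p hp).near t ⟨by linarith [htm.1], by linarith [htm.2]⟩
      rw [← sub_div, Real.norm_eq_abs, abs_div, abs_of_pos (show (0 : ℝ) < p by linarith)]
      exact (div_le_self (abs_nonneg _) hp0).trans h10
    have h10 := h9.add h8
    rw [zero_add] at h10
    refine h10.congr fun p => ?_
    ring
  have h1 : ∀ j : ℤ, ∀ᵐ t : ℝ, t ∈ Set.Ioc (j : ℝ) (j + 1) →
      Tendsto (fun n : ℕ => C1 y t n / Real.log n) atTop
      (𝓝 (Real.exp Real.eulerMascheroniConstant / a)) := fun j =>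
    (ae_restrict_iff' measurableSet_Ioc).1 (hwin (j : ℝ))
  filter_upwards [ae_all_iff.2 h1] with t ht
  refine ht (⌈t⌉ - 1) ⟨?_, ?_⟩
  · push_cast
    linarith [Int.ceil_lt_add_one t]
  · push_cast
    linarith [Int.le_ceil t]

end Pool.Agent.W66X
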