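import Mathlib
import Pool.Agent.W66.XC
import Pool.Agent.W66.XF
import Pool.Agent.H447R2.ML.R5

set_option autoImplicit false

/-!
# The law for shift families over a fixed integer base
-/

namespace Pool.Agent.W66X

open Finset Filter Topology MeasureTheory
open Pool.Agent.H447R2.ML (Sh sh_of C1 cc cv ff_eq_ceil compare_counts' compare_counts ff_eq_floor)
open Pool.Agent.H305R2 (roughPart ff log_nat_tendsto)

lemma ae_of_exp' {P : ℝ → Prop} (h : ∀ᵐ t : ℝ, P (Real.exp t)) : ∀ᵐ x : ℝ, 0 < x → P x :=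
  Pool.Agent.H447R2.ML.ae_exp1 h

lemma tendsto_transfer {L : ℝ} {F H : ℕ → ℝ} {P : ℝ} (h1 : ∀ n, F n ≤ H n + P) (h2 : ∀ n, H n ≤ F n + P)
    (h : Tendsto (fun n : ℕ => F n / Real.log n) atTop (𝓝 L)) :
    Tendsto (fun n : ℕ => H n / Real.log n) atTop (𝓝 L) := by
  have h3 : Tendsto (fun n : ℕ => P / Real.log n) atTop (𝓝 0) := log_nat_tendsto.const_div_atTop _
  have h4 : Tendsto (fun n : ℕ => H n / Real.log n - F n / Real.log n) atTop (𝓝 0) := by
    refine squeeze_zero_norm' ?_ h3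
    filter_upwards [log_nat_tendsto.eventually_gt_atTop 0] with n hn
    rw [← sub_div, Real.norm_eq_abs, abs_div, abs_of_pos hn]
    refine div_le_div_of_nonneg_right ?_ hn.le
    rw [abs_le]
    constructor <;> linarith [h1 n, h2 n]
  have h5 := h4.add h
  rw [zero_add] at h5
  exact h5.congr fun n => by ring

section general

variable {α κ C : ℝ} {g : ℕ → ℝ}

/-- from the law for the phase functions to the law for the integers `⌈β α ^ p + g p⌉ - 1` -/
theorem ceil_of_C1 (hα : 1 < α) (hκ0 : 0 ≤ κ) (hκ : κ < α) (hg : ∀ p, |g p| ≤ C * κ ^ p)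
    (h : ∀ᵐ t : ℝ, Tendsto (fun n : ℕ => C1 (ysh α g) t n / Real.log n) atTop
      (𝓝 (Real.exp Real.eulerMascheroniConstant / Real.log α))) :
    ∀ᵐ β : ℝ, 0 < β → Tendsto (fun n : ℕ => (cc (fun p x => x * α ^ p + g p) β n : ℝ) / Real.log n) atTop
      (𝓝 (Real.exp Real.eulerMascheroniConstant / Real.log α)) := by
  have hα0 : 0 < α := by linarith
  refine ae_of_exp' (P := fun β : ℝ =>
    Tendsto (fun n : ℕ => (cc (fun p x => x * α ^ p + g p) β n : ℝ) / Real.log n) atTop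
      (𝓝 (Real.exp Real.eulerMascheroniConstant / Real.log α))) ?_
  filter_upwards [h] with t ht
  obtain ⟨P, hP⟩ := eventually_atTop.1 (pert8 hα0 hκ0 hκ hg t 8)
  have hcomp : ∀ p, P ≤ p → p.Prime → ff p (ysh α g p t) =
      if (roughPart p (⌈(fun p x => x * α ^ p + g p) p (Real.exp t)⌉₊ - 1)).Prime then 1 else 0 := by
    intro p hp _
    exact ff_eq_ceil (exp_ysh hα0 (hP p hp) le_rfl).2.1
  exact tendsto_transfer (P := (P : ℝ))
    (fun n => (compare_counts' (fun p x => x * α ^ p + g p) (Real.exp t) (ysh α g) t hcomp n).1)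
    (fun n => (compare_counts' (fun p x => x * α ^ p + g p) (Real.exp t) (ysh α g) t hcomp n).2) ht

/-- from the law for the phase functions to the law for the integers `⌊β α ^ p + g p⌋` -/
theorem floor_of_C1 (hα : 1 < α) (hκ0 : 0 ≤ κ) (hκ : κ < α) (hg : ∀ p, |g p| ≤ C * κ ^ p)
    (h : ∀ᵐ t : ℝ, Tendsto (fun n : ℕ => C1 (ysh α g) t n / Real.log n) atTop
      (𝓝 (Real.exp Real.eulerMascheroniConstant / Real.log α))) :
    ∀ᵐ β : ℝ, 0 < β → Tendsto (fun n : ℕ => (cv (fun p x => x * α ^ p + g p) β n : ℝ) / Real.log n) atTop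
      (𝓝 (Real.exp Real.eulerMascheroniConstant / Real.log α)) := by
  have hα0 : 0 < α := by linarith
  have h2 : ∀ᵐ t : ℝ, ∀ p m : ℕ, Real.exp t * α ^ p + g p ≠ m := by
    have hnull : volume (⋃ p : ℕ, ⋃ m : ℕ, {t : ℝ | Real.exp t * α ^ p + g p = m}) = 0 := by
      refine Set.Countable.measure_zero ?_ volume
      refine Set.countable_iUnion fun p => Set.countable_iUnion fun m => ?_
      refine Set.Subsingleton.countable ?_
      intro s hs t ht
      simp only [Set.mem_ofPred_eq] at hs ht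
      have h3 : Real.exp s * α ^ p = Real.exp t * α ^ p := by linarith
      exact Real.exp_injective (mul_right_cancel₀ (pow_pos hα0 p).ne' h3)
    have hae : ∀ᵐ t : ℝ, t ∉ ⋃ p : ℕ, ⋃ m : ℕ, {t : ℝ | Real.exp t * α ^ p + g p = m} := by
      rw [ae_iff]
      refine measure_mono_null (fun t ht => ?_) hnull
      simpa only [Set.mem_ofPred_eq, not_not] using ht
    filter_upwards [hae] with t ht p m hm
    refine ht ?_
    simp only [Set.mem_iUnion]
    exact ⟨p, m, hm⟩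
  refine ae_of_exp' (P := fun β : ℝ =>
    Tendsto (fun n : ℕ => (cv (fun p x => x * α ^ p + g p) β n : ℝ) / Real.log n) atTop
      (𝓝 (Real.exp Real.eulerMascheroniConstant / Real.log α))) ?_
  filter_upwards [h, h2] with t ht htn
  obtain ⟨P, hP⟩ := eventually_atTop.1 (pert8 hα0 hκ0 hκ hg t 8)
  have hcomp : ∀ p, P ≤ p → p.Prime → ff p (ysh α g p t) =
      if (roughPart p ⌊(fun p x => x * α ^ p + g p) p (Real.exp t)⌋₊).Prime then 1 else 0 := by
    intro p hp _
    exact ff_eq_floor (exp_ysh hα0 (hP p hp) le_rfl).2.1 (fun m => htn p m)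
  exact tendsto_transfer (P := (P : ℝ))
    (fun n => (compare_counts (fun p x => x * α ^ p + g p) (Real.exp t) (ysh α g) t hcomp n).1)
    (fun n => (compare_counts (fun p x => x * α ^ p + g p) (Real.exp t) (ysh α g) t hcomp n).2) ht

end general

theorem C1_base {b : ℕ} (hb : 2 ≤ b) {κ C : ℝ} (hκ0 : 0 ≤ κ) (hκ : κ < b) {g : ℕ → ℝ}
    (hg : ∀ p, |g p| ≤ C * κ ^ p) :
    ∀ᵐ t : ℝ, Tendsto (fun n : ℕ => C1 (ysh b g) t n / Real.log n) atTop
      (𝓝 (Real.exp Real.eulerMascheroniConstant / Real.log b)) := by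
  have hbr : (2 : ℝ) ≤ b := by exact_mod_cast hb
  exact law_sh (Real.log_pos (by linarith)) (measurable_ysh b g)
    (fun a0 a1 _ => sh_of (by linarith) hκ0 hκ hg a0 a1)
    (fun b0 => trans_shift (by linarith) hκ0 hκ hg b0)
    (fun b0 => near_shift hb hκ0 hκ hg b0)

/-- **Fixed integer base, integers `⌈β b ^ p + g p⌉ - 1`.** -/
theorem law_ceil {b : ℕ} (hb : 2 ≤ b) {κ C : ℝ} (hκ0 : 0 ≤ κ) (hκ : κ < b) {g : ℕ → ℝ}
    (hg : ∀ p, |g p| ≤ C * κ ^ p) :
    ∀ᵐ β : ℝ, 0 < β → Tendsto (fun n : ℕ => (cc (fun p x => x * (b : ℝ) ^ p + g p) β n : ℝ) / Real.log n)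
      atTop (𝓝 (Real.exp Real.eulerMascheroniConstant / Real.log b)) := by
  have hbr : (2 : ℝ) ≤ b := by exact_mod_cast hb
  exact ceil_of_C1 (by linarith) hκ0 hκ hg (C1_base hb hκ0 hκ hg)

/-- **Fixed integer base, integers `⌊β b ^ p + g p⌋`.** -/
theorem law_floor {b : ℕ} (hb : 2 ≤ b) {κ C : ℝ} (hκ0 : 0 ≤ κ) (hκ : κ < b) {g : ℕ → ℝ}
    (hg : ∀ p, |g p| ≤ C * κ ^ p) :
    ∀ᵐ β : ℝ, 0 < β → Tendsto (fun n : ℕ => (cv (fun p x => x * (b : ℝ) ^ p + g p) β n : ℝ) / Real.log n)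
      atTop (𝓝 (Real.exp Real.eulerMascheroniConstant / Real.log b)) := by
  have hbr : (2 : ℝ) ≤ b := by exact_mod_cast hb
  exact floor_of_C1 (by linarith) hκ0 hκ hg (C1_base hb hκ0 hκ hg)

end Pool.Agent.W66X
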