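import Mathlib
import Pool.Agent.W66.GE
import Pool.Agent.W66.XG

set_option autoImplicit false

/-!
# The law for a fixed base without multiplicative coincidences; the golden ratio
-/

namespace Pool.Agent.W66V

open Finset Filter Topology MeasureTheory
open Pool.Agent.H447R2.ML (Sh sh_of C1 cc cv)
open Pool.Agent.W66X (ysh measurable_ysh trans_shift law_sh floor_of_C1 ceil_of_C1)

/-- `a ≠ b α ^ h` in a quantitative form -/
def NoCoinc (α A : ℝ) : Prop :=
  ∀ h a b : ℕ, 1 ≤ h → 1 ≤ a → 1 ≤ b → 1 ≤ |(a : ℝ) - b * α ^ h| * (A ^ h * (a + b))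

theorem C1_irr {α κ C A : ℝ} (hα : 1 < α) (hκ0 : 0 ≤ κ) (hκ : κ < α) {g : ℕ → ℝ}
    (hg : ∀ p, |g p| ≤ C * κ ^ p) (hA : 1 ≤ A) (hAα : A < α) (hd : NoCoinc α A) :
    ∀ᵐ t : ℝ, Tendsto (fun n : ℕ => C1 (ysh α g) t n / Real.log n) atTop
      (𝓝 (Real.exp Real.eulerMascheroniConstant / Real.log α)) :=
  law_sh (Real.log_pos hα) (measurable_ysh α g)
    (fun a0 a1 _ => sh_of (by linarith) hκ0 hκ hg a0 a1)
    (fun b0 => trans_shift hα hκ0 hκ hg b0)
    (fun b0 => near_irr hα hκ0 hκ hg hA hAα hd b0)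

/-- **The law for the integers `⌊β α ^ p + g p⌋` over a fixed base.** -/
theorem law_irr {α κ C A : ℝ} (hα : 1 < α) (hκ0 : 0 ≤ κ) (hκ : κ < α) {g : ℕ → ℝ}
    (hg : ∀ p, |g p| ≤ C * κ ^ p) (hA : 1 ≤ A) (hAα : A < α) (hd : NoCoinc α A) :
    ∀ᵐ β : ℝ, 0 < β → Tendsto (fun n : ℕ => (cv (fun p x => x * α ^ p + g p) β n : ℝ) / Real.log n) atTop
      (𝓝 (Real.exp Real.eulerMascheroniConstant / Real.log α)) :=
  floor_of_C1 hα hκ0 hκ hg (C1_irr hα hκ0 hκ hg hA hAα hd)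

/-- a quadratic base: root of `x ^ 2 - P x + Q` -/
lemma noCoinc_quad {P Q : ℤ} {α ψ : ℝ} (hsum : α + ψ = P) (hprod : α * ψ = Q)
    (hirr : ∀ h : ℕ, 1 ≤ h → Irrational (α ^ h)) : NoCoinc α (max 1 |ψ|) := by
  have hV : ∀ n : ℕ, ∃ v : ℤ, α ^ n + ψ ^ n = v := by
    intro n
    induction n using Nat.strong_induction_on with
    | _ n ih =>
      rcases n with _ | _ | n
      · exact ⟨2, by norm_num⟩
      · exact ⟨P, by rw [zero_add, pow_one, pow_one]; exact hsum⟩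
      · obtain ⟨v1, h1⟩ := ih (n + 1) (by omega)
        obtain ⟨v0, h0⟩ := ih n (by omega)
        refine ⟨P * v1 - Q * v0, ?_⟩
        push_cast
        rw [← h1, ← h0, ← hsum, ← hprod]
        ring
  intro h a b hh ha hb
  obtain ⟨v, hv⟩ := hV h
  have ha0 : (0 : ℝ) < a := by exact_mod_cast ha
  have hb0 : (0 : ℝ) < b := by exact_mod_cast hb
  have hpr : α ^ h * ψ ^ h = (Q : ℝ) ^ h := by rw [← mul_pow, hprod]
  set z : ℤ := (a : ℤ) ^ 2 - a * b * v + b ^ 2 * Q ^ h with hz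
  have hzr : (z : ℝ) = ((a : ℝ) - b * α ^ h) * (a - b * ψ ^ h) := by
    rw [hz]
    push_cast
    rw [← hv, ← hpr]
    ring
  have hirrα := hirr h hh
  have hψirr : ((a : ℝ) - b * ψ ^ h) ≠ 0 := by
    intro h0
    have h1 : ψ ^ h = ((a / b : ℚ) : ℝ) := by
      push_cast
      field_simp
      linarith
    apply hirrα
    refine ⟨(v : ℚ) - (a / b : ℚ), ?_⟩
    rw [Rat.cast_sub, ← h1]
    push_cast
    linarith
  have hαirr : ((a : ℝ) - b * α ^ h) ≠ 0 := by
    intro h0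
    apply hirrα
    refine ⟨(a / b : ℚ), ?_⟩
    push_cast
    field_simp
    linarith
  have hz0 : z ≠ 0 := by
    intro h0
    rw [h0] at hzr
    have := mul_ne_zero hαirr hψirr
    exact this (by rw [← hzr]; simp)
  have hz1 : (1 : ℝ) ≤ |(z : ℝ)| := by
    have : 1 ≤ |z| := Int.one_le_abs hz0
    exact_mod_cast this
  rw [hzr, abs_mul] at hz1
  refine hz1.trans (mul_le_mul_of_nonneg_left ?_ (abs_nonneg _))
  have hm1 : 1 ≤ (max 1 |ψ|) ^ h := one_le_pow₀ (le_max_left _ _)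
  have hm2 : |ψ ^ h| ≤ (max 1 |ψ|) ^ h := by
    rw [abs_pow]
    exact pow_le_pow_left₀ (abs_nonneg _) (le_max_right _ _) h
  calc |(a : ℝ) - b * ψ ^ h| ≤ |(a : ℝ)| + |b * ψ ^ h| := abs_sub _ _
    _ = a + b * |ψ ^ h| := by rw [abs_mul, abs_of_pos ha0, abs_of_pos hb0]
    _ ≤ (max 1 |ψ|) ^ h * a + (max 1 |ψ|) ^ h * b := by
        refine add_le_add ?_ ?_
        · exact le_mul_of_one_le_left ha0.le hm1
        · rw [mul_comm]; exact mul_le_mul_of_nonneg_right hm2 hb0.le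
    _ = _ := by ring

open Real in
lemma irr_golden_pow {h : ℕ} (hh : 1 ≤ h) : Irrational (goldenRatio ^ h) := by
  obtain ⟨n, rfl⟩ := Nat.exists_eq_add_of_le' hh
  rw [← Real.goldenRatio_mul_fib_succ_add_fib n]
  have h1 : Nat.fib (n + 1) ≠ 0 := (Nat.fib_pos.2 (by omega)).ne'
  exact (Real.goldenRatio_irrational.mul_natCast h1).add_natCast _

lemma noCoinc_golden : NoCoinc Real.goldenRatio 1 := by
  have h := noCoinc_quad (P := 1) (Q := -1) (α := Real.goldenRatio) (ψ := Real.goldenConj)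
    (by rw [Real.goldenRatio_add_goldenConj]; simp) (by rw [Real.goldenRatio_mul_goldenConj]; simp)
    (fun h hh => irr_golden_pow hh)
  have e : max 1 |Real.goldenConj| = 1 := by
    refine max_eq_left ?_
    rw [abs_of_neg Real.goldenConj_neg]
    linarith [Real.neg_one_lt_goldenConj]
  rwa [e] at h

end Pool.Agent.W66V
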