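import Mathlib
import Pool.Agent.W66.XB
import Pool.Agent.H447R2.ML.P4

set_option autoImplicit false

/-!
# Curve families: inverse functions, coverings by unit windows, changes of variables
-/

namespace Pool.Agent.W66C

open Set MeasureTheory Filter Topology
open Pool.Agent.H447R2.ML (Loc)
open Pool.Agent.W66X (int_bdd)

/-- the inverse of an increasing differentiable function on an interval -/
lemma exists_inverse {φ φ' : ℝ → ℝ} {a0 a1 : ℝ} (h01 : a0 < a1)
    (hd : ∀ t ∈ Icc a0 a1, HasDerivAt φ (φ' t) t) (hpos : ∀ t ∈ Icc a0 a1, 0 < φ' t) :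
    ∃ τ : ℝ → ℝ, Monotone τ ∧ (∀ x, τ x ∈ Icc a0 a1) ∧
      (∀ x ∈ Icc (φ a0) (φ a1), φ (τ x) = x) ∧ (∀ t ∈ Icc a0 a1, τ (φ t) = t) ∧
      (∀ x ∈ Ioo (φ a0) (φ a1), HasDerivAt τ (φ' (τ x))⁻¹ x) := by
  have hc : ContinuousOn φ (Icc a0 a1) := fun t ht => (hd t ht).continuousAt.continuousWithinAt
  have hsm : StrictMonoOn φ (Icc a0 a1) := by
    refine strictMonoOn_of_deriv_pos (convex_Icc _ _) hc fun t ht => ?_
    rw [interior_Icc] at ht
    have ht' : t ∈ Icc a0 a1 := ⟨ht.1.le, ht.2.le⟩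
    rw [(hd t ht').deriv]
    exact hpos t ht'
  have ha0 : a0 ∈ Icc a0 a1 := ⟨le_rfl, h01.le⟩
  have ha1 : a1 ∈ Icc a0 a1 := ⟨h01.le, le_rfl⟩
  have h01' : φ a0 < φ a1 := hsm ha0 ha1 h01
  set g : ℝ → ℝ := Function.invFunOn φ (Icc a0 a1) with hg
  have hex : ∀ z ∈ Icc (φ a0) (φ a1), ∃ t ∈ Icc a0 a1, φ t = z := fun z hz =>
    intermediate_value_Icc h01.le hc hz
  have hg1 : ∀ z ∈ Icc (φ a0) (φ a1), g z ∈ Icc a0 a1 := fun z hz => Function.invFunOn_mem (hex z hz)
  have hg2 : ∀ z ∈ Icc (φ a0) (φ a1), φ (g z) = z := fun z hz => Function.invFunOn_eq (hex z hz)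
  set pr : ℝ → ℝ := fun x => max (φ a0) (min x (φ a1)) with hpr
  have hprI : ∀ x, pr x ∈ Icc (φ a0) (φ a1) := fun x => by
    simp only [hpr]
    exact ⟨le_max_left _ _, max_le h01'.le (min_le_right _ _)⟩
  have hprm : Monotone pr := fun a b hab => by
    simp only [hpr]
    exact max_le_max le_rfl (min_le_min hab le_rfl)
  have hpre : ∀ x ∈ Icc (φ a0) (φ a1), pr x = x := fun x hx => by
    simp only [hpr]
    rw [min_eq_left hx.2, max_eq_right hx.1]
  have hmono : Monotone fun x => g (pr x) := by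
    intro x z hxz
    by_contra hc
    have h1 := hsm (hg1 _ (hprI z)) (hg1 _ (hprI x)) (not_le.1 hc)
    rw [hg2 _ (hprI _), hg2 _ (hprI _)] at h1
    exact absurd (hprm hxz) (not_le.2 h1)
  have hright : ∀ x ∈ Icc (φ a0) (φ a1), φ (g (pr x)) = x := fun x hx => by
    rw [hpre x hx]; exact hg2 x hx
  have hleft : ∀ t ∈ Icc a0 a1, g (pr (φ t)) = t := by
    intro t ht
    have h1 : φ t ∈ Icc (φ a0) (φ a1) := ⟨hsm.monotoneOn ha0 ht ht.1, hsm.monotoneOn ht ha1 ht.2⟩
    rw [hpre _ h1]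
    exact hsm.injOn (hg1 _ h1) ht (hg2 _ h1)
  refine ⟨fun x => g (pr x), hmono, fun x => hg1 _ (hprI x), hright, hleft, fun x hx => ?_⟩
  have hxI : x ∈ Icc (φ a0) (φ a1) := ⟨hx.1.le, hx.2.le⟩
  have hτI : g (pr x) ∈ Icc a0 a1 := hg1 _ (hprI x)
  have hτo : g (pr x) ∈ Ioo a0 a1 := by
    refine ⟨lt_of_le_of_ne hτI.1 ?_, lt_of_le_of_ne hτI.2 ?_⟩
    · intro h
      have := hright x hxI
      rw [← h] at this
      exact absurd hx.1 (by rw [this]; exact lt_irrefl _)
    · intro h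
      have := hright x hxI
      rw [h] at this
      exact absurd hx.2 (by rw [this]; exact lt_irrefl _)
  have hcont : ContinuousAt (fun x => g (pr x)) x := by
    refine continuousAt_of_monotoneOn_of_image_mem_nhds (s := univ) (hmono.monotoneOn _) univ_mem ?_
    refine mem_of_superset (Ioo_mem_nhds hτo.1 hτo.2) fun t ht => ?_
    exact ⟨φ t, mem_univ _, hleft t ⟨ht.1.le, ht.2.le⟩⟩
  refine HasDerivAt.of_local_left_inverse hcont (hd _ hτI) (hpos _ hτI).ne' ?_
  filter_upwards [Ioo_mem_nhds hx.1 hx.2] with z hz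
  exact hright z ⟨hz.1.le, hz.2.le⟩

lemma sum_windows {F : ℝ → ℝ} (hii : ∀ a b, IntervalIntegrable F volume a b) (u : ℝ) (N : ℕ) :
    ∑ j ∈ Finset.range N, ∫ x in (u + j)..(u + j + 1), F x = ∫ x in u..(u + N), F x := by
  have h := intervalIntegral.sum_integral_adjacent_intervals (f := F) (μ := volume)
    (a := fun j : ℕ => u + j) (n := N) (fun k _ => hii _ _)
  simp only [Nat.cast_zero, add_zero] at h
  rw [← h]
  refine Finset.sum_congr rfl fun j _ => ?_
  push_cast
  rw [add_assoc]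

/-- covering an interval by unit windows, nonnegative integrand -/
lemma cover_nonneg {F : ℝ → ℝ} (hF : Measurable F) (h0 : ∀ x, 0 ≤ F x) (h1 : ∀ x, F x ≤ 1)
    {u v B : ℝ} (huv : u ≤ v) (hB0 : 0 ≤ B)
    (hB : ∀ Y, u ≤ Y → Y ≤ v → ∫ x in Ioc Y (Y + 1), F x ≤ B) :
    ∫ x in Ioc u v, F x ≤ (v - u + 1) * B := by
  have habs : ∀ x, |F x| ≤ 1 := fun x => by rw [abs_of_nonneg (h0 x)]; exact h1 x
  have hii : ∀ a b, IntervalIntegrable F volume a b := fun a b =>
    Pool.Agent.W66.ii_of_bdd hF habs a b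
  set N := ⌈v - u⌉₊ with hN
  have hN1 : v - u ≤ N := Nat.le_ceil _
  have hN2 : (N : ℝ) < v - u + 1 := Nat.ceil_lt_add_one (by linarith)
  calc ∫ x in Ioc u v, F x ≤ ∫ x in Ioc u (u + N), F x := by
        refine setIntegral_mono_set (int_bdd hF habs _ _) (Eventually.of_forall h0)
          (HasSubset.Subset.eventuallyLE fun x hx => ⟨hx.1, by linarith [hx.2]⟩)
    _ = ∫ x in u..(u + N), F x := by
        rw [intervalIntegral.integral_of_le (by linarith [Nat.cast_nonneg (α := ℝ) N])]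
    _ = ∑ j ∈ Finset.range N, ∫ x in (u + j)..(u + j + 1), F x := (sum_windows hii u N).symm
    _ ≤ ∑ j ∈ Finset.range N, B := by
        refine Finset.sum_le_sum fun j hj => ?_
        rw [intervalIntegral.integral_of_le (by linarith)]
        have hj' : (j : ℝ) + 1 ≤ N := by
          have := Finset.mem_range.1 hj
          exact_mod_cast this
        refine hB _ (by linarith [Nat.cast_nonneg (α := ℝ) j]) (by linarith)
    _ = N * B := by rw [Finset.sum_const, Finset.card_range, nsmul_eq_mul]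
    _ ≤ _ := mul_le_mul_of_nonneg_right hN2.le hB0

/-- covering an interval by unit windows, signed integrand -/
lemma cover_signed {F : ℝ → ℝ} (hF : Measurable F) (h1 : ∀ x, |F x| ≤ 1)
    {u v B : ℝ} (huv : u ≤ v) (hB0 : 0 ≤ B)
    (hB : ∀ Y, u ≤ Y → Y + 1 ≤ v → |∫ x in Y..(Y + 1), F x| ≤ B) :
    ∃ c, u ≤ c ∧ c ≤ v ∧ v ≤ c + 1 ∧ |∫ x in u..v, F x| ≤ (v - u) * B + |∫ x in c..v, F x| := by
  have hii : ∀ a b, IntervalIntegrable F volume a b := fun a b =>
    Pool.Agent.W66.ii_of_bdd hF h1 a b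
  set N := ⌊v - u⌋₊ with hN
  have hN1 : (N : ℝ) ≤ v - u := Nat.floor_le (by linarith)
  have hN2 : v - u < N + 1 := Nat.lt_floor_add_one _
  refine ⟨u + N, by linarith [Nat.cast_nonneg (α := ℝ) N], by linarith, by linarith, ?_⟩
  rw [← intervalIntegral.integral_add_adjacent_intervals (hii u (u + N)) (hii (u + N) v)]
  refine (abs_add_le _ _).trans (add_le_add ?_ le_rfl)
  rw [← sum_windows hii u N]
  calc |∑ j ∈ Finset.range N, ∫ x in (u + j)..(u + j + 1), F x|
      ≤ ∑ j ∈ Finset.range N, |∫ x in (u + j)..(u + j + 1), F x| := Finset.abs_sum_le_sum_abs _ _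
    _ ≤ ∑ j ∈ Finset.range N, B := by
        refine Finset.sum_le_sum fun j hj => ?_
        have hj' : (j : ℝ) + 1 ≤ N := by
          have := Finset.mem_range.1 hj
          exact_mod_cast this
        exact hB _ (by linarith [Nat.cast_nonneg (α := ℝ) j]) (by linarith)
    _ = N * B := by rw [Finset.sum_const, Finset.card_range, nsmul_eq_mul]
    _ ≤ _ := mul_le_mul_of_nonneg_right hN1 hB0

lemma int_comp {a0 a1 D : ℝ} {q : ℕ} {y y' : ℝ → ℝ} (h : Loc a0 a1 D q y y') {s t : ℝ} (hs : a0 ≤ s)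
    (ht : t ≤ a1) {F : ℝ → ℝ} (hF : Measurable F) {M : ℝ} (hF1 : ∀ x, |F x| ≤ M) :
    IntegrableOn (fun x => F (y x)) (Ioc s t) := by
  have hsub : Ioc s t ⊆ Icc a0 a1 := fun x hx => ⟨hs.trans hx.1.le, hx.2.trans ht⟩
  have h1 : AEMeasurable y (volume.restrict (Ioc s t)) :=
    (h.cont.mono hsub).aemeasurable measurableSet_Ioc
  have h2 : AEStronglyMeasurable (fun x => F (y x)) (volume.restrict (Ioc s t)) :=
    (hF.comp_aemeasurable h1).aestronglyMeasurable
  refine Integrable.of_bound h2 M ?_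
  exact Eventually.of_forall fun x => by rw [Real.norm_eq_abs]; exact hF1 _

/-- change of variables for signed functions -/
lemma signed_cov {a0 a1 D : ℝ} {q : ℕ} {y y' : ℝ → ℝ} (h : Loc a0 a1 D q y y') (hq : 3 * D < q)
    (hD : 0 ≤ D) {s t : ℝ} (hs : a0 ≤ s) (hst : s ≤ t) (ht : t ≤ a1) {F : ℝ → ℝ} (hF : Measurable F)
    (hF1 : ∀ x, |F x| ≤ 1) :
    |q * (∫ x in Ioc s t, F (y x)) - ∫ u in Ioc (y s) (y t), F u| ≤
      D * ∫ x in Ioc s t, |F (y x)| := by
  set Fp : ℝ → ℝ := fun x => max (F x) 0 with hFp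
  set Fm : ℝ → ℝ := fun x => max (-F x) 0 with hFm
  have hFpm : Measurable Fp := hF.max measurable_const
  have hFmm : Measurable Fm := hF.neg.max measurable_const
  have h0p : ∀ x, 0 ≤ Fp x := fun x => le_max_right _ _
  have h0m : ∀ x, 0 ≤ Fm x := fun x => le_max_right _ _
  have h1p : ∀ x, Fp x ≤ 1 := fun x => max_le ((le_abs_self _).trans (hF1 x)) zero_le_one
  have h1m : ∀ x, Fm x ≤ 1 := fun x => max_le ((neg_le_abs _).trans (hF1 x)) zero_le_one
  have hsub : ∀ x, F x = Fp x - Fm x := by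
    intro x
    simp only [hFp, hFm]
    rcases le_total 0 (F x) with h | h
    · rw [max_eq_left h, max_eq_right (by linarith)]; ring
    · rw [max_eq_right h, max_eq_left (by linarith)]; ring
  have hadd : ∀ x, |F x| = Fp x + Fm x := by
    intro x
    simp only [hFp, hFm]
    rcases le_total 0 (F x) with h | h
    · rw [max_eq_left h, max_eq_right (by linarith), abs_of_nonneg h]; ring
    · rw [max_eq_right h, max_eq_left (by linarith), abs_of_nonpos h]; ring
  obtain ⟨c1, c2⟩ := h.cov hq hD hs hst ht hFpm h0p h1p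
  obtain ⟨c3, c4⟩ := h.cov hq hD hs hst ht hFmm h0m h1m
  have i1 : IntegrableOn (fun x => Fp (y x)) (Ioc s t) :=
    int_comp h hs ht hFpm (M := 1) (fun x => by rw [abs_of_nonneg (h0p x)]; exact h1p x)
  have i2 : IntegrableOn (fun x => Fm (y x)) (Ioc s t) :=
    int_comp h hs ht hFmm (M := 1) (fun x => by rw [abs_of_nonneg (h0m x)]; exact h1m x)
  have i3 : IntegrableOn Fp (Ioc (y s) (y t)) :=
    int_bdd hFpm (M := 1) (fun x => by rw [abs_of_nonneg (h0p x)]; exact h1p x) _ _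
  have i4 : IntegrableOn Fm (Ioc (y s) (y t)) :=
    int_bdd hFmm (M := 1) (fun x => by rw [abs_of_nonneg (h0m x)]; exact h1m x) _ _
  have e1 : ∫ x in Ioc s t, F (y x) =
      (∫ x in Ioc s t, Fp (y x)) - ∫ x in Ioc s t, Fm (y x) := by
    rw [← integral_sub i1 i2]
    exact integral_congr_ae (Eventually.of_forall fun x => hsub _)
  have e2 : ∫ u in Ioc (y s) (y t), F u =
      (∫ u in Ioc (y s) (y t), Fp u) - ∫ u in Ioc (y s) (y t), Fm u := by
    rw [← integral_sub i3 i4]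
    exact integral_congr_ae (Eventually.of_forall fun x => hsub _)
  have e3 : ∫ x in Ioc s t, |F (y x)| =
      (∫ x in Ioc s t, Fp (y x)) + ∫ x in Ioc s t, Fm (y x) := by
    rw [← integral_add i1 i2]
    exact integral_congr_ae (Eventually.of_forall fun x => hadd _)
  rw [e1, e2, e3, abs_le]
  constructor <;> linarith

end Pool.Agent.W66C
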