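import Mathlib
import Pool.Agent.W66.CA

set_option autoImplicit false

/-!
# Curve families: bounds for one index and distant exponents
-/

namespace Pool.Agent.W66C

open Set MeasureTheory Filter Topology
open Pool.Agent.W66 (far_w)
open Pool.Agent.H447R2.ML (Loc single_upper)
open Pool.Agent.W66X (int_bdd)
open Pool.Agent.H305R2 (roughPart bounds gg LL measurable_gg abs_gg_le abs_gg_le_one LL_nonneg LL_cont
  LL_le_one ff NN measurable_ff ff_nonneg ff_le_one integrableOn_ff integrableOn_gg log_nat_tendsto)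

/-- bounds for one index -/
lemma one_loc {a0 a1 D b0 b1 : ℝ} (ha0 : 0 < a0) (hD : 0 ≤ D) (h0 : a0 < b0) (h01 : b0 < b1)
    (h1 : b1 < a1) : ∃ K : ℝ, 0 < K ∧ ∃ P : ℕ, 3 ≤ P ∧ ∀ m ≥ P, 3 * D < m ∧
    ∀ y y' : ℝ → ℝ, Loc a0 a1 D m y y' →
    (∀ t ∈ Icc a0 a1, a0 / 2 * m + 3 ≤ y t ∧ y t ≤ (a1 + 1) * m) ∧
    (∀ t ∈ Ioc b0 b1, LL m (y t) ≤ K * (Real.log m / m)) ∧
    (∫ t in Ioc b0 b1, ff m (y t) ≤ K * (Real.log m / m)) ∧
    (∫ t in Ioc b0 b1, |gg m (y t)| ≤ K * (Real.log m / m)) := by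
  obtain ⟨K, hK, hev⟩ := bounds (c := a0 / 2) (by positivity)
  obtain ⟨K1, hK1, P1, hs⟩ := single_upper ha0 hD
  have hlarge : ∀ᶠ p : ℕ in atTop, 3 * D + (D + 3) * 2 / a0 + 3 < p :=
    tendsto_natCast_atTop_atTop.eventually_gt_atTop _
  obtain ⟨P, hP⟩ := eventually_atTop.1 (hev.and (hlarge.and (eventually_ge_atTop P1)))
  refine ⟨K * (2 * (b1 - b0) + 1) + K1 * ((b1 - b0) + 1) + K, by
    have : 0 < b1 - b0 := by linarith
    positivity, P + 3, by omega, fun m hm => ?_⟩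
  obtain ⟨⟨h2, _, _, h3⟩, h4, h5⟩ := hP m (by omega)
  have hm3 : (3 : ℝ) ≤ m := by exact_mod_cast (by omega : 3 ≤ m)
  have hm0 : (0 : ℝ) < m := by linarith
  have hw : 0 ≤ Real.log m / m := div_nonneg (Real.log_natCast_nonneg m) hm0.le
  have hx0 : 0 ≤ (D + 3) * 2 / a0 := by positivity
  have hmD : 3 * D < m := by linarith
  have hpos : 0 < b1 - b0 := by linarith
  refine ⟨hmD, fun y y' hL => ?_⟩
  have hrange : ∀ t ∈ Icc a0 a1, a0 / 2 * m + 3 ≤ y t ∧ y t ≤ (a1 + 1) * m := by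
    intro t ht
    have hn := abs_le.1 (hL.near t ht)
    have h6 : (D + 3) * 2 / a0 < m := by linarith
    rw [div_lt_iff₀ ha0] at h6
    have h7 : m * a0 ≤ m * t := mul_le_mul_of_nonneg_left ht.1 hm0.le
    have h8 : m * t ≤ m * a1 := mul_le_mul_of_nonneg_left ht.2 hm0.le
    constructor <;> linarith
  have hw1 : 0 ≤ K1 * ((b1 - b0) + 1) * (Real.log m / m) := by positivity
  have hw2 : 0 ≤ K * (2 * (b1 - b0) + 1) * (Real.log m / m) := by positivity
  have hw3 : 0 ≤ K * (Real.log m / m) := by positivity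
  refine ⟨hrange, fun t ht => ?_, ?_, ?_⟩
  · refine (h2 _ (by linarith [(hrange t ⟨by linarith [ht.1], by linarith [ht.2]⟩).1])).trans ?_
    linarith
  · refine (hs m h5 a1 y y' hL b0 b1 h0.le h01.le h1.le).trans ?_
    have h7 : 1 / (m : ℝ) ≤ 1 := by rw [div_le_one hm0]; linarith
    calc K1 * ((b1 - b0) + 1 / m) * (Real.log m / m) ≤ K1 * ((b1 - b0) + 1) * (Real.log m / m) := by gcongr
      _ ≤ _ := by linarith
  · have h7 := (hL.cov hmD hD h0.le h01.le h1.le
      (F := fun x => |gg m x|) (measurable_gg m).abs (fun x => abs_nonneg _)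
      (fun x => abs_gg_le_one m x)).1
    have hmvt := hL.mvt hmD hD h0.le h01.le h1.le
    have hy01 : y b0 ≤ y b1 := by
      have : 0 ≤ (m - D) * (b1 - b0) := mul_nonneg (by linarith) (by linarith)
      linarith
    have h8 := h3 (y b0) (y b1) (by linarith [(hrange b0 ⟨h0.le, by linarith⟩).1]) hy01
    have h9 : (y b1 - y b0) + 1 / (m : ℝ) ≤ (m - D) * (2 * (b1 - b0) + 1) := by
      have h10 : (m + D) * (b1 - b0) ≤ 2 * (m - D) * (b1 - b0) :=
        mul_le_mul_of_nonneg_right (by linarith) hpos.le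
      have h11 : 1 / (m : ℝ) ≤ 1 := by rw [div_le_one hm0]; linarith
      linarith [hmvt.2]
    have h10 : (m - D) * ∫ x in Ioc b0 b1, |gg m (y x)| ≤
        (m - D) * (K * (2 * (b1 - b0) + 1) * (Real.log m / m)) := by
      refine h7.trans (h8.trans ?_)
      calc K * ((y b1 - y b0) + 1 / m) * (Real.log m / m) ≤
            K * ((m - D) * (2 * (b1 - b0) + 1)) * (Real.log m / m) := by gcongr
        _ = _ := by ring
    have h11 := le_of_mul_le_mul_left h10 (by linarith)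
    linarith

/-- distant exponents -/
theorem far_loc {a0 a1 D b0 b1 : ℝ} (ha0 : 0 < a0) (hD : 0 ≤ D) (h0 : a0 < b0) (h01 : b0 < b1)
    (h1 : b1 < a1) : ∃ κ K : ℝ, 0 < κ ∧ 0 < K ∧ ∃ P : ℕ, ∀ p ≥ P, ∀ q : ℕ, p ≤ q →
    ∀ y y' z z' : ℝ → ℝ, Loc a0 a1 D p y y' → Loc a0 a1 D q z z' →
    (p : ℝ) ≤ κ * q / Real.log q →
    |∫ t in Ioc b0 b1, gg p (y t) * gg q (z t)| ≤ K * (Real.log q / q ^ 2) := by
  obtain ⟨κ, K1, hκ, hK1, P1, hfar⟩ := far_w (c1 := a0 / 2) (by positivity)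
  obtain ⟨K2, hK2, hbd⟩ := bounds (c := a0 / 2) (by positivity)
  obtain ⟨K3, hK3, P3, hP33, hone⟩ := one_loc ha0 hD h0 h01 h1
  have hpos : 0 < b1 - b0 := by linarith
  have ha1 : 0 < a1 := by linarith
  have hl1 : ∀ᶠ q : ℕ in atTop, 1 / (b0 - a0) + 1 / (a1 - b1) + (a1 + 1) + D < q :=
    tendsto_natCast_atTop_atTop.eventually_gt_atTop _
  obtain ⟨P, hP⟩ := eventually_atTop.1 (hl1.and ((eventually_ge_atTop P1).and
    ((log_nat_tendsto.eventually_ge_atTop 1).and (hbd.and (eventually_ge_atTop P3)))))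
  refine ⟨κ * a0 / (4 * (a1 + 1)), 2 * (b1 - b0) * K1 + 2 * K2 + D * K3, by positivity, by positivity,
    P, fun p hp q hpq y y' z z' hy hz hpκ => ?_⟩
  obtain ⟨_, _, _, _, e5p⟩ := hP p hp
  obtain ⟨e1, e2, e3, ⟨_, _, _, e4⟩, e5⟩ := hP q (by omega)
  obtain ⟨hpD, hone_p⟩ := hone p e5p
  obtain ⟨hqD, hone_q⟩ := hone q e5
  obtain ⟨hyr, _, _, _⟩ := hone_p y y' hy
  obtain ⟨hzr, _, _, hzg⟩ := hone_q z z' hz
  have hq3 : (3 : ℝ) ≤ q := by exact_mod_cast hP33.trans e5
  have hq0 : (0 : ℝ) < q := by linarith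
  have hpq' : (p : ℝ) ≤ q := by exact_mod_cast hpq
  have i1 : 0 < 1 / (b0 - a0) := by
    have : 0 < b0 - a0 := by linarith
    positivity
  have i2 : 0 < 1 / (a1 - b1) := by
    have : 0 < a1 - b1 := by linarith
    positivity
  have hI0 : b0 ∈ Icc a0 a1 := ⟨h0.le, by linarith⟩
  have hI1 : b1 ∈ Icc a0 a1 := ⟨by linarith, h1.le⟩
  -- the inner function
  obtain ⟨τ, hτm, hτI, hτr, hτl, _⟩ := exists_inverse (φ := z) (φ' := z') (by linarith : a0 < a1)
    hz.der (fun t ht => by have := (abs_le.1 (hz.slope t ht)).1; linarith)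
  set w : ℝ → ℝ := fun u => y (τ u) with hw
  have hys := hy.strict hpD hD
  have hwm : Monotone w := fun s t hst => hys.monotoneOn (hτI s) (hτI t) (hτm hst)
  have hwmeas : Measurable w := hwm.measurable
  have hzmid := hz.mvt hqD hD h0.le h01.le h1.le
  have hz01 : z b0 ≤ z b1 := by
    have : 0 ≤ (q - D) * (b1 - b0) := mul_nonneg (by linarith) (by linarith)
    linarith
  have hzleft : z a0 + 1 ≤ z b0 := by
    have h2 := (hz.mvt hqD hD le_rfl h0.le (by linarith)).1
    have h3 : 1 ≤ (q - D) * (b0 - a0) := by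
      have h4 : 1 / (b0 - a0) ≤ q - D := by linarith
      rwa [div_le_iff₀ (by linarith)] at h4
    linarith
  have hzright : z b1 + 1 ≤ z a1 := by
    have h2 := (hz.mvt hqD hD (by linarith) h1.le le_rfl).1
    have h3 : 1 ≤ (q - D) * (a1 - b1) := by
      have h4 : 1 / (a1 - b1) ≤ q - D := by linarith
      rwa [div_le_iff₀ (by linarith)] at h4
    linarith
  have hlip0 : ∀ s t : ℝ, s ∈ Icc (z a0) (z a1) → t ∈ Icc (z a0) (z a1) → s ≤ t →
      w t - w s ≤ 2 * (t - s) := by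
    intro s t hs ht hst
    have h2 := (hy.mvt hpD hD (hτI s).1 (hτm hst) (hτI t).2).2
    have h3 := (hz.mvt hqD hD (hτI s).1 (hτm hst) (hτI t).2).1
    rw [hτr s hs, hτr t ht] at h3
    have h4 : 0 ≤ τ t - τ s := by linarith [hτm hst]
    have h5 : (p + D) * (τ t - τ s) ≤ 2 * (q - D) * (τ t - τ s) :=
      mul_le_mul_of_nonneg_right (by linarith) h4
    simp only [hw]
    linarith
  have hlip : ∀ s ∈ Icc (z a0) (z a1), ∀ t ∈ Icc (z a0) (z a1), |w s - w t| ≤ 2 * |s - t| := by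
    intro s hs t ht
    rcases le_total s t with hst | hst
    · rw [abs_of_nonpos (by linarith [hwm hst]), abs_of_nonpos (by linarith)]
      linarith [hlip0 s t hs ht hst]
    · rw [abs_of_nonneg (by linarith [hwm hst]), abs_of_nonneg (by linarith)]
      linarith [hlip0 t s ht hs hst]
  set lq := Real.log q / (q : ℝ) ^ 2 with hlq
  have hlq0 : 0 ≤ lq := by positivity
  have hlqq : Real.log q / q = q * lq := by rw [hlq]; field_simp
  -- one window
  have hwin : ∀ Y, z b0 ≤ Y → Y + 1 ≤ z b1 → |∫ u in Y..(Y + 1), gg p (w u) * gg q u| ≤ K1 * lq := by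
    intro Y hY0 hY1
    have hYlo : a0 / 2 * q ≤ Y := by linarith [(hzr b0 hI0).1]
    have hYhi : Y ≤ (a1 + 1) * q := by linarith [(hzr b1 hI1).2]
    have hYpos : 1 < Y := by
      have := (hzr b0 hI0).1
      have : 0 < a0 / 2 * q := by positivity
      linarith
    have hlY : 0 < Real.log Y := Real.log_pos hYpos
    have hlY2 : Real.log Y ≤ 2 * Real.log q := by
      calc Real.log Y ≤ Real.log (q * q) := Real.log_le_log (by linarith) (hYhi.trans
            (mul_le_mul_of_nonneg_right (by linarith) hq0.le))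
        _ = 2 * Real.log q := by rw [Real.log_mul hq0.ne' hq0.ne']; ring
    have hsub : Icc (Y - 1) (Y + 2) ⊆ Icc (z a0) (z a1) := Icc_subset_Icc (by linarith) (by linarith)
    refine hfar q e2 p w Y hwmeas hYlo (hwm.monotoneOn _)
      (fun s hs t ht => hlip s (hsub hs) t (hsub ht)) ?_
    have h2 : w (Y + 2) ≤ (a1 + 1) * p := (hyr _ (hτI _)).2
    refine h2.trans ?_
    calc (a1 + 1) * p ≤ (a1 + 1) * (κ * a0 / (4 * (a1 + 1)) * q / Real.log q) :=
          mul_le_mul_of_nonneg_left hpκ (by linarith)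
      _ = κ * (a0 / 2 * q) / (2 * Real.log q) := by field_simp; ring
      _ ≤ κ * Y / Real.log Y := by gcongr
  set F : ℝ → ℝ := fun u => gg p (w u) * gg q u with hF
  have hFm : Measurable F := ((measurable_gg p).comp hwmeas).mul (measurable_gg q)
  have hFG : ∀ x, |F x| ≤ |gg q x| := fun x => by
    simp only [hF]
    rw [abs_mul]
    exact mul_le_of_le_one_left (abs_nonneg _) (abs_gg_le_one p _)
  have hF1 : ∀ x, |F x| ≤ 1 := fun x => (hFG x).trans (abs_gg_le_one q x)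
  have hGm : Measurable fun x => |gg q x| := (measurable_gg q).abs
  have hG1 : ∀ x, |(|gg q x|)| ≤ 1 := fun x => by rw [abs_abs]; exact abs_gg_le_one q x
  obtain ⟨c, hc1, hc2, hc3, hc4⟩ := cover_signed hFm hF1 hz01 (by positivity : 0 ≤ K1 * lq) hwin
  have hrest : |∫ x in c..z b1, F x| ≤ 2 * K2 * (q * lq) := by
    have h2 : |∫ x in c..z b1, F x| ≤ ∫ x in Ioc c (z b1), |gg q x| := by
      rw [intervalIntegral.integral_of_le hc2]
      calc |∫ x in Ioc c (z b1), F x| ≤ ∫ x in Ioc c (z b1), |F x| := by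
            have := norm_integral_le_integral_norm (μ := volume.restrict (Ioc c (z b1))) F
            simpa [Real.norm_eq_abs] using this
        _ ≤ _ := setIntegral_mono_on (int_bdd hFm.abs (M := 1) (fun x => by rw [abs_abs]; exact hF1 x) _ _)
            (int_bdd hGm hG1 _ _) measurableSet_Ioc fun x _ => hFG x
    refine h2.trans ((e4 c (z b1) ?_ hc2).trans ?_)
    · linarith [(hzr b0 hI0).1]
    · rw [hlqq]
      have h3 : (z b1 - c) + 1 / (q : ℝ) ≤ 2 := by
        have : 1 / (q : ℝ) ≤ 1 := by rw [div_le_one hq0]; linarith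
        linarith
      have h4 : 0 ≤ q * lq := by positivity
      calc K2 * ((z b1 - c) + 1 / q) * (q * lq) ≤ K2 * 2 * (q * lq) := by gcongr
        _ = _ := by ring
  have htot : |∫ u in Ioc (z b0) (z b1), F u| ≤ (2 * (b1 - b0) * K1 + 2 * K2) * (q * lq) := by
    rw [← intervalIntegral.integral_of_le hz01]
    refine hc4.trans ?_
    have h2 : z b1 - z b0 ≤ 2 * q * (b1 - b0) := by
      have : (q + D) * (b1 - b0) ≤ 2 * q * (b1 - b0) := mul_le_mul_of_nonneg_right (by linarith) hpos.le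
      linarith [hzmid.2]
    have h3 : (z b1 - z b0) * (K1 * lq) ≤ 2 * q * (b1 - b0) * (K1 * lq) :=
      mul_le_mul_of_nonneg_right h2 (by positivity)
    linarith
  have hcov := signed_cov hz hqD hD h0.le h01.le h1.le hFm hF1
  have hFz : ∫ x in Ioc b0 b1, |F (z x)| ≤ K3 * (q * lq) := by
    rw [← hlqq]
    refine le_trans ?_ hzg
    exact setIntegral_mono_on (int_comp hz h0.le h1.le (F := fun x => |F x|) hFm.abs (M := 1)
      (fun x => by rw [abs_abs]; exact hF1 x)) (int_comp hz h0.le h1.le hGm hG1) measurableSet_Ioc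
      fun x _ => hFG _
  have e : ∫ t in Ioc b0 b1, gg p (y t) * gg q (z t) = ∫ t in Ioc b0 b1, F (z t) := by
    refine setIntegral_congr_fun measurableSet_Ioc fun t ht => ?_
    simp only [hF, hw]
    rw [hτl t ⟨by linarith [ht.1], by linarith [ht.2]⟩]
  rw [e]
  have hfin : q * |∫ x in Ioc b0 b1, F (z x)| ≤
      q * ((2 * (b1 - b0) * K1 + 2 * K2 + D * K3) * lq) := by
    rw [← abs_of_pos hq0, ← abs_mul, abs_of_pos hq0]
    have h2 : D * ∫ x in Ioc b0 b1, |F (z x)| ≤ D * (K3 * (q * lq)) := mul_le_mul_of_nonneg_left hFz hD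
    have h3 := hcov.trans h2
    rw [abs_le] at h3 htot ⊢
    constructor <;> linarith
  exact le_of_mul_le_mul_left hfin hq0

end Pool.Agent.W66C
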