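import Mathlib
import Pool.Agent.W66.CB
import Pool.Agent.W66.XC

set_option autoImplicit false

/-!
# Curve families: reduction to the joint event, pairs with `2 p ≤ q`
-/

namespace Pool.Agent.W66C

open Set MeasureTheory Filter Topology
open Pool.Agent.H447R2.ML (Loc single_upper pair_bound)
open Pool.Agent.W66X (int_bdd abs_ff_le_one)
open Pool.Agent.H305R2 (roughPart bounds gg LL measurable_gg abs_gg_le abs_gg_le_one LL_nonneg LL_cont
  LL_le_one ff NN measurable_ff ff_nonneg ff_le_one integrableOn_ff integrableOn_gg log_nat_tendsto)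

/-- reduction of the correlation to the joint event -/
lemma corr_le {a0 a1 D b0 b1 : ℝ} (ha0 : 0 < a0) (hD : 0 ≤ D) (h0 : a0 < b0) (h01 : b0 < b1)
    (h1 : b1 < a1) : ∃ K : ℝ, 0 < K ∧ ∃ P : ℕ, 3 ≤ P ∧ ∀ p ≥ P, ∀ q ≥ P,
    ∀ y y' z z' : ℝ → ℝ, Loc a0 a1 D p y y' → Loc a0 a1 D q z z' →
    |∫ t in Ioc b0 b1, gg p (y t) * gg q (z t)| ≤
      (∫ t in Ioc b0 b1, ff p (y t) * ff q (z t)) +
      K * ((Real.log p / p) * (Real.log q / q)) := by
  obtain ⟨K, hK, P, hP3, hP⟩ := one_loc ha0 hD h0 h01 h1
  have hpos : 0 < b1 - b0 := by linarith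
  refine ⟨(2 + (b1 - b0)) * K ^ 2, by positivity, P, hP3, fun p hp q hq y y' z z' hy hz => ?_⟩
  obtain ⟨_, hp1, hp2, _⟩ := (hP p hp).2 y y' hy
  obtain ⟨_, hq1, hq2, _⟩ := (hP q hq).2 z z' hz
  set I := Ioc b0 b1 with hI
  have hwp : 0 ≤ Real.log p / p := div_nonneg (Real.log_natCast_nonneg p) (Nat.cast_nonneg p)
  have hwq : 0 ≤ Real.log q / q := div_nonneg (Real.log_natCast_nonneg q) (Nat.cast_nonneg q)
  set wp := Real.log p / p with hwpd
  set wq := Real.log q / q with hwqd
  have hyc : AEMeasurable y (volume.restrict I) :=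
    (hy.cont.mono (fun x hx => ⟨by linarith [hx.1], by linarith [hx.2]⟩)).aemeasurable measurableSet_Ioc
  have hzc : AEMeasurable z (volume.restrict I) :=
    (hz.cont.mono (fun x hx => ⟨by linarith [hx.1], by linarith [hx.2]⟩)).aemeasurable measurableSet_Ioc
  have i1 : IntegrableOn (fun t => ff p (y t)) I :=
    int_comp hy (by linarith) (by linarith) (measurable_ff p) (abs_ff_le_one p)
  have i2 : IntegrableOn (fun t => ff q (z t)) I :=
    int_comp hz (by linarith) (by linarith) (measurable_ff q) (abs_ff_le_one q)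
  have i3 : IntegrableOn (fun t => ff p (y t) * ff q (z t)) I := by
    refine Integrable.of_bound (((measurable_ff p).comp_aemeasurable hyc).mul
      ((measurable_ff q).comp_aemeasurable hzc)).aestronglyMeasurable 1 ?_
    refine Eventually.of_forall fun t => ?_
    rw [Real.norm_eq_abs, abs_mul]
    exact mul_le_one₀ (abs_ff_le_one p _) (abs_nonneg _) (abs_ff_le_one q _)
  have i4 : IntegrableOn (fun t => |gg p (y t) * gg q (z t)|) I := by
    refine Integrable.abs ?_
    refine Integrable.of_bound (((measurable_gg p).comp_aemeasurable hyc).mul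
      ((measurable_gg q).comp_aemeasurable hzc)).aestronglyMeasurable 1 ?_
    refine Eventually.of_forall fun t => ?_
    rw [Real.norm_eq_abs, abs_mul]
    exact mul_le_one₀ (abs_gg_le_one p _) (abs_nonneg _) (abs_gg_le_one q _)
  have i5 : IntegrableOn (fun _ : ℝ => K * wp * (K * wq)) I := integrableOn_const (by simp [hI])
  have i6 : IntegrableOn (fun t : ℝ => K * wq * ff p (y t)) I := i1.const_mul _
  have i7 : IntegrableOn (fun t : ℝ => K * wp * ff q (z t)) I := i2.const_mul _
  have i8 : IntegrableOn (fun t : ℝ => K * wq * ff p (y t) + K * wp * ff q (z t)) I := i6.add i7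
  have i9 : IntegrableOn (fun t : ℝ => K * wq * ff p (y t) + K * wp * ff q (z t) +
      K * wp * (K * wq)) I := i8.add i5
  have i10 : IntegrableOn (fun t : ℝ => ff p (y t) * ff q (z t) +
      (K * wq * ff p (y t) + K * wp * ff q (z t) + K * wp * (K * wq))) I := i3.add i9
  calc |∫ t in I, gg p (y t) * gg q (z t)| ≤ ∫ t in I, |gg p (y t) * gg q (z t)| := by
        have := norm_integral_le_integral_norm (μ := volume.restrict I)
          (fun t => gg p (y t) * gg q (z t))
        simpa [Real.norm_eq_abs] using this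
    _ ≤ ∫ t in I, (ff p (y t) * ff q (z t) +
      (K * wq * ff p (y t) + K * wp * ff q (z t) + K * wp * (K * wq))) := by
        refine setIntegral_mono_on i4 i10 measurableSet_Ioc fun t ht => ?_
        rw [abs_mul]
        have h1 := abs_gg_le p (y t)
        have h2 := abs_gg_le q (z t)
        have h3 := hp1 t ht
        have h4 := hq1 t ht
        have h5 := ff_nonneg p (y t)
        have h6 := ff_nonneg q (z t)
        have h7 := LL_nonneg p (y t)
        have h8 := LL_nonneg q (z t)
        have h9 : |gg p (y t)| ≤ ff p (y t) + K * wp := by linarith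
        have h10 : |gg q (z t)| ≤ ff q (z t) + K * wq := by linarith
        calc |gg p (y t)| * |gg q (z t)| ≤ (ff p (y t) + K * wp) * (ff q (z t) + K * wq) :=
              mul_le_mul h9 h10 (abs_nonneg _) (by positivity)
          _ = _ := by ring
    _ = (∫ t in I, ff p (y t) * ff q (z t)) +
        (K * wq * (∫ t in I, ff p (y t)) + K * wp * (∫ t in I, ff q (z t)) +
          (b1 - b0) * (K * wp * (K * wq))) := by
        rw [integral_add i3 i9, integral_add i8 i5, integral_add i6 i7,
          integral_const_mul, integral_const_mul, setIntegral_const, hI,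
          Real.volume_real_Ioc_of_le (by linarith), smul_eq_mul]
    _ ≤ (∫ t in I, ff p (y t) * ff q (z t)) +
        (K * wq * (K * wp) + K * wp * (K * wq) + (b1 - b0) * (K * wp * (K * wq))) := by
        gcongr
    _ = _ := by ring

/-- pairs with `2 p ≤ q` -/
lemma mid_loc {a0 a1 D b0 b1 : ℝ} (ha0 : 0 < a0) (hD : 0 ≤ D) (h0 : a0 < b0) (h01 : b0 < b1)
    (h1 : b1 < a1) : ∃ K : ℝ, 0 < K ∧ ∃ P : ℕ, ∀ p ≥ P, ∀ q : ℕ, 2 * p ≤ q →
    ∀ y y' z z' : ℝ → ℝ, Loc a0 a1 D p y y' → Loc a0 a1 D q z z' →
    |∫ t in Ioc b0 b1, gg p (y t) * gg q (z t)| ≤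
      K * ((Real.log p / p) * (Real.log q / q)) := by
  obtain ⟨K1, hK1, P1, hP13, hc⟩ := corr_le ha0 hD h0 h01 h1
  obtain ⟨K2, hK2, P2, h2⟩ := pair_bound (a0 := a0) (a1 := a1) (D := D) (b0 := b0) (b1 := b1)
    ha0 hD h0 h1
  have hpos : 0 < b1 - b0 := by linarith
  refine ⟨K1 + 2 * ((b1 - b0) + 1) * K2, by positivity, ?_⟩
  have hgap : ∀ᶠ q : ℕ in atTop, 64 / a0 * (Real.log q * Real.log (Real.log q)) ≤ q / 2 := by
    have h1 : ∀ᶠ x : ℝ in atTop, 64 / a0 * (Real.log x * Real.log (Real.log x)) ≤ x / 2 := by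
      have h2 : ∀ᶠ x : ℝ in atTop, (Real.log x) ^ 2 ≤ 1 / (2 * (64 / a0)) * x := by
        have h3 := (Real.isLittleO_pow_log_id_atTop (n := 2)).bound
          (show (0 : ℝ) < 1 / (2 * (64 / a0)) by positivity)
        filter_upwards [h3, eventually_gt_atTop 0] with x hx hx0
        rw [Real.norm_eq_abs, Real.norm_eq_abs, abs_of_nonneg (by positivity)] at hx
        simpa [abs_of_pos hx0] using hx
      filter_upwards [h2, Real.tendsto_log_atTop.eventually_ge_atTop 1, eventually_gt_atTop 0]
        with x hx hx1 hx0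
      have h4 : Real.log (Real.log x) ≤ Real.log x := by
        have := Real.log_le_sub_one_of_pos (show 0 < Real.log x by linarith)
        linarith
      calc 64 / a0 * (Real.log x * Real.log (Real.log x)) ≤ 64 / a0 * (Real.log x * Real.log x) := by gcongr
        _ = 64 / a0 * (Real.log x) ^ 2 := by ring
        _ ≤ 64 / a0 * (1 / (2 * (64 / a0)) * x) := by gcongr
        _ = x / 2 := by field_simp
    exact tendsto_natCast_atTop_atTop.eventually h1
  obtain ⟨P3, hP3⟩ := eventually_atTop.1 hgap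
  refine ⟨P1 + P2 + P3 + 1, fun p hp q hpq y y' z z' hy hz => ?_⟩
  have hp1 : (1 : ℝ) ≤ p := by exact_mod_cast (by omega : 1 ≤ p)
  have hpq' : 2 * (p : ℝ) ≤ q := by exact_mod_cast hpq
  have h3 := h2 p q (by omega) (by omega) _ _ _ _ hy hz (by
    have := hP3 q (by omega)
    linarith) b0 b1 le_rfl h01.le le_rfl
  have h4 := hc p (by omega) q (by omega) y y' z z' hy hz
  have hwp : 0 ≤ Real.log p / p := div_nonneg (Real.log_natCast_nonneg p) (Nat.cast_nonneg p)
  have hlq : 0 ≤ Real.log q := Real.log_natCast_nonneg q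
  have hq0 : (0 : ℝ) < q := by linarith
  have h5 : K2 * ((b1 - b0) + 1 / p) * (Real.log p / p) * (Real.log q / (q - p)) ≤
      2 * ((b1 - b0) + 1) * K2 * ((Real.log p / p) * (Real.log q / q)) := by
    have h6 : (b1 - b0) + 1 / (p : ℝ) ≤ (b1 - b0) + 1 := by
      have : 1 / (p : ℝ) ≤ 1 := by rw [div_le_one (by linarith)]; exact hp1
      linarith
    have h7 : Real.log q / (q - p) ≤ 2 * (Real.log q / q) := by
      calc Real.log q / (q - p) ≤ Real.log q / (q / 2) :=
            div_le_div_of_nonneg_left hlq (by positivity) (by linarith)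
        _ = _ := by field_simp
    have h8 : 0 ≤ Real.log q / (q - p) := div_nonneg hlq (by linarith)
    calc K2 * ((b1 - b0) + 1 / p) * (Real.log p / p) * (Real.log q / (q - p)) ≤
          K2 * ((b1 - b0) + 1) * (Real.log p / p) * (2 * (Real.log q / q)) := by gcongr
      _ = _ := by ring
  calc _ ≤ _ := h4
    _ ≤ 2 * ((b1 - b0) + 1) * K2 * ((Real.log p / p) * (Real.log q / q)) +
        K1 * ((Real.log p / p) * (Real.log q / q)) := by linarith
    _ = _ := by ring

end Pool.Agent.W66C
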