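import Mathlib
import Pool.Agent.W66.VD

set_option autoImplicit false

/-!
# Correlation of two periodic triangle functions along a convex curve
-/

namespace Pool.Agent.W66V

open Set MeasureTheory Filter Topology
open scoped Real

/-- a function with second derivative bounded below on a window -/
structure Conv (ψ ψ' ψ'' : ℝ → ℝ) (X ρ : ℝ) : Prop where
  d1 : ∀ x ∈ Icc X (Real.exp 1 * X), HasDerivAt ψ (ψ' x) x
  d2 : ∀ x ∈ Icc X (Real.exp 1 * X), HasDerivAt ψ' (ψ'' x) x
  cont : ContinuousOn ψ'' (Icc X (Real.exp 1 * X))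
  pos : ∀ x ∈ Icc X (Real.exp 1 * X), ρ ≤ ψ'' x

section

variable {ψ ψ' ψ'' : ℝ → ℝ} {X ρ : ℝ} (h : Conv ψ ψ' ψ'' X ρ) (hX : 1 ≤ X) (hρ : 0 < ρ)
include h

lemma Conv.contOn : ContinuousOn ψ (Icc X (Real.exp 1 * X)) :=
  fun x hx => (h.d1 x hx).continuousAt.continuousWithinAt

include hX hρ

lemma conv_pos {α β γ : ℝ} (hβ : 0 < β) :
    |∫ x in X..(Real.exp 1 * X), Real.cos (α * x + β * ψ x + γ) / x| ≤ 8 / Real.sqrt (β * ρ) / X := by
  have hX0 : 0 < X := by linarith
  have hle := exp_one_mul_le hX0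
  refine weight_le hX0 hle ?_ fun s hs => ?_
  · refine Real.continuous_cos.comp_continuousOn ?_
    exact ((by fun_prop : Continuous fun x : ℝ => α * x).continuousOn.add
      (continuousOn_const.mul h.contOn)).add continuousOn_const
  · have hsub : Icc X s ⊆ Icc X (Real.exp 1 * X) := Icc_subset_Icc le_rfl hs.2
    have h1 : ∀ x ∈ Icc X s, HasDerivAt (fun x : ℝ => α * x + β * ψ x + γ) (α + β * ψ' x) x := by
      intro x hx
      have h4 : HasDerivAt (fun x : ℝ => α * x) α x := by simpa using (hasDerivAt_id x).const_mul α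
      exact (h4.add ((h.d1 x (hsub hx)).const_mul β)).add_const γ
    have h2 : ∀ x ∈ Icc X s, HasDerivAt (fun x : ℝ => α + β * ψ' x) (β * ψ'' x) x := by
      intro x hx
      exact ((h.d2 x (hsub hx)).const_mul β).const_add α
    refine vdc2 hs.1 h1 h2 (continuousOn_const.mul (h.cont.mono hsub)) (by positivity) fun x hx => ?_
    exact mul_le_mul_of_nonneg_left (h.pos x (hsub hx)) hβ.le

lemma conv_one {α β γ : ℝ} (hβ : β ≠ 0) :
    |∫ x in X..(Real.exp 1 * X), Real.cos (α * x + β * ψ x + γ) / x| ≤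
      8 / Real.sqrt (|β| * ρ) / X := by
  rcases lt_or_gt_of_ne hβ with hn | hp
  · have h1 := conv_pos h hX hρ (α := -α) (β := -β) (γ := -γ) (by linarith)
    rw [abs_of_neg hn]
    have e : ∀ x : ℝ, Real.cos (-α * x + -β * ψ x + -γ) = Real.cos (α * x + β * ψ x + γ) := by
      intro x
      rw [← Real.cos_neg]
      congr 1
      ring
    simp only [e] at h1
    exact h1
  · rw [abs_of_pos hp]
    exact conv_pos h hX hρ hp

/-- product of two cosines -/
lemma conv_prod {α β γ γ' : ℝ} (hβ : β ≠ 0) :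
    |∫ x in X..(Real.exp 1 * X), Real.cos (α * x + γ) * Real.cos (β * ψ x + γ') / x| ≤
      8 / Real.sqrt (|β| * ρ) / X := by
  have hX0 : 0 < X := by linarith
  have hle := exp_one_mul_le hX0
  have hpos : ∀ x ∈ Icc X (Real.exp 1 * X), 0 < x := fun x hx => hX0.trans_le hx.1
  have h1 := conv_one h hX hρ (α := α) (β := β) (γ := γ + γ') hβ
  have h2 := conv_one h hX hρ (α := α) (β := -β) (γ := γ - γ') (neg_ne_zero.2 hβ)
  rw [abs_neg] at h2
  have hci : ∀ a b c : ℝ, IntervalIntegrable (fun x : ℝ => Real.cos (a * x + b * ψ x + c) / x) volume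
      X (Real.exp 1 * X) := by
    intro a b c
    apply ContinuousOn.intervalIntegrable
    rw [uIcc_of_le hle]
    refine ContinuousOn.div (Real.continuous_cos.comp_continuousOn ?_) continuousOn_id
      fun x hx => (hpos x hx).ne'
    exact ((by fun_prop : Continuous fun x : ℝ => a * x).continuousOn.add
      (continuousOn_const.mul h.contOn)).add continuousOn_const
  have e : ∫ x in X..(Real.exp 1 * X), Real.cos (α * x + γ) * Real.cos (β * ψ x + γ') / x =
      (1 / 2) * ((∫ x in X..(Real.exp 1 * X), Real.cos (α * x + β * ψ x + (γ + γ')) / x) +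
        ∫ x in X..(Real.exp 1 * X), Real.cos (α * x + -β * ψ x + (γ - γ')) / x) := by
    rw [← intervalIntegral.integral_add (hci _ _ _) (hci _ _ _), ← intervalIntegral.integral_const_mul]
    refine intervalIntegral.integral_congr fun x _ => ?_
    have h3 := Real.cos_add (α * x + γ) (β * ψ x + γ')
    have h4 := Real.cos_sub (α * x + γ) (β * ψ x + γ')
    have e1 : α * x + β * ψ x + (γ + γ') = α * x + γ + (β * ψ x + γ') := by ring
    have e2 : α * x + -β * ψ x + (γ - γ') = α * x + γ - (β * ψ x + γ') := by ring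
    rw [e1, e2, h3, h4]
    ring
  rw [e, abs_mul, abs_of_pos (by norm_num : (0 : ℝ) < 1 / 2)]
  have h5 := abs_add_le (∫ x in X..(Real.exp 1 * X), Real.cos (α * x + β * ψ x + (γ + γ')) / x)
    (∫ x in X..(Real.exp 1 * X), Real.cos (α * x + -β * ψ x + (γ - γ')) / x)
  linarith

end

/-- the bound for the oscillatory integrals -/
noncomputable def BC (Q : ℕ) (ρ X : ℝ) : ℝ := 8 / Real.sqrt (ρ / Q) / X + Q / X

section

variable {ψ ψ' ψ'' : ℝ → ℝ} {X ρ : ℝ} {Q : ℕ} (h : Conv ψ ψ' ψ'' X ρ) (hX : 1 ≤ X) (hρ : 0 < ρ)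
  (hQ : 1 ≤ Q)
include hX

lemma BC_nonneg : 0 ≤ BC Q ρ X := by
  unfold BC
  have : 0 < X := by linarith
  positivity

include hQ

omit hQ in
lemma conv_lin {D k : ℕ} (hD : 1 ≤ D) (hDQ : D ≤ Q) (hk : 1 ≤ k) (γ : ℝ) :
    |∫ x in X..(Real.exp 1 * X), Real.cos (2 * π * k / D * x + γ) / x| ≤ BC Q ρ X := by
  have hX0 : 0 < X := by linarith
  have hD0 : (0 : ℝ) < D := by exact_mod_cast hD
  have hk1 : (1 : ℝ) ≤ k := by exact_mod_cast hk
  have hQr : (D : ℝ) ≤ Q := by exact_mod_cast hDQ
  have hpi := Real.pi_gt_three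
  have hα : 0 < 2 * π * k / D := by positivity
  refine (osc1 hX0 hα.ne').trans ?_
  rw [abs_of_pos hα]
  have h1 : 2 / (2 * π * k / D) ≤ Q := by
    rw [div_le_iff₀ hα]
    have h2 : 1 ≤ π * k := by nlinarith
    calc (2 : ℝ) ≤ 2 * (π * k) := by linarith
      _ = D * (2 * π * k / D) := by field_simp
      _ ≤ Q * (2 * π * k / D) := mul_le_mul_of_nonneg_right hQr hα.le
  have h3 : 0 ≤ 8 / Real.sqrt (ρ / Q) / X := by positivity
  have h4 : 2 / (2 * π * k / D) / X ≤ Q / X := div_le_div_of_nonneg_right h1 hX0.le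
  unfold BC
  linarith

include h hρ

lemma conv_mix {D E k l : ℕ} (hE : 1 ≤ E) (hEQ : E ≤ Q) (hl0 : 1 ≤ l)
    (γ γ' : ℝ) :
    |∫ x in X..(Real.exp 1 * X), Real.cos (2 * π * k / D * x + γ) *
      Real.cos (2 * π * l / E * ψ x + γ') / x| ≤ BC Q ρ X := by
  have hX0 : 0 < X := by linarith
  have hE0 : (0 : ℝ) < E := by exact_mod_cast hE
  have hQ0 : (0 : ℝ) < Q := by exact_mod_cast hQ
  have hl1 : (1 : ℝ) ≤ l := by exact_mod_cast hl0
  have hQr : (E : ℝ) ≤ Q := by exact_mod_cast hEQ
  have hpi := Real.pi_gt_three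
  have hβ : 0 < 2 * π * l / E := by positivity
  refine (conv_prod h hX hρ (α := 2 * π * k / D) (γ := γ) (γ' := γ') hβ.ne').trans ?_
  rw [abs_of_pos hβ]
  have h1 : ρ / Q ≤ 2 * π * l / E * ρ := by
    have h2 : 1 / (Q : ℝ) ≤ 2 * π * l / E := by
      rw [div_le_div_iff₀ hQ0 hE0, one_mul]
      have : 1 ≤ 2 * π * l := by nlinarith
      nlinarith
    calc ρ / Q = 1 / Q * ρ := by ring
      _ ≤ _ := mul_le_mul_of_nonneg_right h2 hρ.le
  have h4 : 8 / Real.sqrt (2 * π * l / E * ρ) / X ≤ 8 / Real.sqrt (ρ / Q) / X := by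
    refine div_le_div_of_nonneg_right ?_ hX0.le
    refine div_le_div_of_nonneg_left (by norm_num) (Real.sqrt_pos.2 (by positivity)) ?_
    exact Real.sqrt_le_sqrt h1
  have h5 : (0 : ℝ) ≤ Q / X := by positivity
  unfold BC
  linarith

/-- the correlation integral -/
theorem corr_conv {D E : ℕ} (hD : 1 ≤ D) (hDQ : D ≤ Q) (hE : 1 ≤ E) (hEQ : E ≤ Q) :
    |(∫ x in X..(Real.exp 1 * X), HD D x * HD E (ψ x) / x) - 4 / (D * E)| ≤
      12 * BC Q ρ X := by
  have hX0 : 0 < X := by linarith
  have hle := exp_one_mul_le hX0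
  have hD1 : (1 : ℝ) ≤ D := by exact_mod_cast hD
  have hE1 : (1 : ℝ) ≤ E := by exact_mod_cast hE
  set B := BC Q ρ X with hB
  have hB0 : 0 ≤ B := BC_nonneg hX
  have hpos : ∀ x ∈ Icc X (Real.exp 1 * X), 0 < x := fun x hx => hX0.trans_le hx.1
  have hcosE : ∀ l : ℕ, ContinuousOn (fun x : ℝ => Real.cos (2 * π * l / E * ψ x + -(π * l / E)))
      (Icc X (Real.exp 1 * X)) := by
    intro l
    refine Real.continuous_cos.comp_continuousOn ?_
    exact ((continuousOn_const.mul h.contOn).add continuousOn_const)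
  have hinv : ContinuousOn (fun x : ℝ => x⁻¹) (Icc X (Real.exp 1 * X)) :=
    continuousOn_inv₀.mono fun x hx => (hpos x hx).ne'
  have hinvle : ∀ x ∈ Icc X (Real.exp 1 * X), |x⁻¹| ≤ 1 := by
    intro x hx
    rw [abs_of_pos (inv_pos.2 (hpos x hx))]
    exact inv_le_one_of_one_le₀ (hX.trans hx.1)
  -- first error
  have herr1 : |∫ x in X..(Real.exp 1 * X), ∑' k : ℕ, ca D k *
      (Real.cos (2 * π * k / D * x + -(π * k / D)) / x)| ≤ 2 * B := by
    refine (tsum_int (ca_nonneg D) (summable_ca D) hle (M := 1) (B := B)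
      (fun k x => Real.cos (2 * π * k / D * x + -(π * k / D)) / x) ?_ ?_ ?_).trans ?_
    · intro k
      simp only [div_eq_mul_inv]
      exact (by fun_prop : Continuous fun x : ℝ => Real.cos (2 * π * k * (D : ℝ)⁻¹ * x +
        -(π * k * (D : ℝ)⁻¹))).continuousOn.mul hinv
    · intro k x hx
      rw [div_eq_mul_inv, abs_mul]
      have h1 := Real.abs_cos_le_one (2 * π * k / D * x + -(π * k / D))
      have h2 := hinvle x hx
      have h3 := abs_nonneg (x⁻¹)
      have h4 := abs_nonneg (Real.cos (2 * π * k / D * x + -(π * k / D)))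
      nlinarith
    · intro k hk
      have hk1 : 1 ≤ k := by
        rcases Nat.eq_zero_or_pos k with h | h
        · rw [h] at hk; exact absurd (ca_zero D) hk
        · exact h
      exact conv_lin hX hD hDQ hk1 _
    · exact mul_le_mul_of_nonneg_right (sum_ca_le hD) hB0
  -- inner integrals
  have hinner : ∀ l : ℕ, 1 ≤ l → |∫ x in X..(Real.exp 1 * X), HD D x *
      Real.cos (2 * π * l / E * ψ x + -(π * l / E)) / x| ≤ 4 * B := by
    intro l hl1
    have hcontH : ContinuousOn (fun x : ℝ => Real.cos (2 * π * l / E * ψ x + -(π * l / E)) / x)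
        (Icc X (Real.exp 1 * X)) := by
      simp only [div_eq_mul_inv]
      exact (by simpa only [div_eq_mul_inv] using hcosE l : ContinuousOn _ _).mul hinv
    have hi1 : IntervalIntegrable (fun x : ℝ => 2 / D *
        (Real.cos (2 * π * l / E * ψ x + -(π * l / E)) / x)) volume X (Real.exp 1 * X) := by
      apply ContinuousOn.intervalIntegrable
      rw [uIcc_of_le hle]
      exact continuousOn_const.mul hcontH
    have htail : ContinuousOn (fun x : ℝ => ∑' k : ℕ, ca D k *
        (Real.cos (2 * π * k / D * x + -(π * k / D)) *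
          Real.cos (2 * π * l / E * ψ x + -(π * l / E)) / x)) (Icc X (Real.exp 1 * X)) := by
      refine continuousOn_tsum (u := ca D) (fun k => ?_) (summable_ca D) fun k x hx => ?_
      · refine continuousOn_const.mul ?_
        have : (fun x : ℝ => Real.cos (2 * π * k / D * x + -(π * k / D)) *
            Real.cos (2 * π * l / E * ψ x + -(π * l / E)) / x) = fun x : ℝ =>
            Real.cos (2 * π * k / D * x + -(π * k / D)) *
            (Real.cos (2 * π * l / E * ψ x + -(π * l / E)) / x) := by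
          funext x; ring
        rw [this]
        exact (by fun_prop : Continuous fun x : ℝ => Real.cos (2 * π * k / D * x +
          -(π * k / D))).continuousOn.mul hcontH
      · rw [Real.norm_eq_abs, abs_mul, abs_of_nonneg (ca_nonneg D k)]
        have h1 := Real.abs_cos_le_one (2 * π * k / D * x + -(π * k / D))
        have h2 := Real.abs_cos_le_one (2 * π * l / E * ψ x + -(π * l / E))
        have h3 := hinvle x hx
        have h4 : |Real.cos (2 * π * k / D * x + -(π * k / D)) *
            Real.cos (2 * π * l / E * ψ x + -(π * l / E)) / x| ≤ 1 := by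
          exact abs3 h1 h2 h3
        have h5 := ca_nonneg D k
        nlinarith
    have hi2 : IntervalIntegrable (fun x : ℝ => ∑' k : ℕ, ca D k *
        (Real.cos (2 * π * k / D * x + -(π * k / D)) *
          Real.cos (2 * π * l / E * ψ x + -(π * l / E)) / x)) volume X (Real.exp 1 * X) := by
      apply ContinuousOn.intervalIntegrable
      rw [uIcc_of_le hle]
      exact htail
    have e : ∫ x in X..(Real.exp 1 * X), HD D x *
        Real.cos (2 * π * l / E * ψ x + -(π * l / E)) / x =
        2 / D * (∫ x in X..(Real.exp 1 * X), Real.cos (2 * π * l / E * ψ x + -(π * l / E)) / x) +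
        ∫ x in X..(Real.exp 1 * X), ∑' k : ℕ, ca D k * (Real.cos (2 * π * k / D * x + -(π * k / D)) *
          Real.cos (2 * π * l / E * ψ x + -(π * l / E)) / x) := by
      rw [← intervalIntegral.integral_const_mul, ← intervalIntegral.integral_add hi1 hi2]
      refine intervalIntegral.integral_congr fun x _ => ?_
      simp only [HD]
      rw [add_mul, add_div, ← tsum_mul_right, ← tsum_div_const]
      congr 1
      · ring
      · refine tsum_congr fun k => ?_
        ring
    rw [e]
    have hA : |∫ x in X..(Real.exp 1 * X), Real.cos (2 * π * l / E * ψ x + -(π * l / E)) / x| ≤ B := by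
      have h1 := conv_mix h hX hρ hQ (D := 1) (k := 0) hE hEQ hl1 0 (-(π * l / E))
      simpa using h1
    have hBt : |∫ x in X..(Real.exp 1 * X), ∑' k : ℕ, ca D k *
        (Real.cos (2 * π * k / D * x + -(π * k / D)) *
          Real.cos (2 * π * l / E * ψ x + -(π * l / E)) / x)| ≤ 2 * B := by
      refine (tsum_int (ca_nonneg D) (summable_ca D) hle (M := 1) (B := B)
        (fun k x => Real.cos (2 * π * k / D * x + -(π * k / D)) *
          Real.cos (2 * π * l / E * ψ x + -(π * l / E)) / x) ?_ ?_ ?_).trans ?_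
      · intro k
        have : (fun x : ℝ => Real.cos (2 * π * k / D * x + -(π * k / D)) *
            Real.cos (2 * π * l / E * ψ x + -(π * l / E)) / x) = fun x : ℝ =>
            Real.cos (2 * π * k / D * x + -(π * k / D)) *
            (Real.cos (2 * π * l / E * ψ x + -(π * l / E)) / x) := by
          funext x; ring
        rw [this]
        exact (by fun_prop : Continuous fun x : ℝ => Real.cos (2 * π * k / D * x +
          -(π * k / D))).continuousOn.mul hcontH
      · intro k x hx
        have h1 := Real.abs_cos_le_one (2 * π * k / D * x + -(π * k / D))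
        have h2 := Real.abs_cos_le_one (2 * π * l / E * ψ x + -(π * l / E))
        have h3 := hinvle x hx
        exact abs3 h1 h2 h3
      · intro k _
        exact conv_mix h hX hρ hQ hE hEQ hl1 _ _
      · exact mul_le_mul_of_nonneg_right (sum_ca_le hD) hB0
    have h2D : (2 : ℝ) / D ≤ 2 := by rw [div_le_iff₀ (by linarith)]; linarith
    have h2D0 : (0 : ℝ) ≤ 2 / D := by positivity
    calc |2 / D * (∫ x in X..(Real.exp 1 * X), Real.cos (2 * π * l / E * ψ x + -(π * l / E)) / x) +
        ∫ x in X..(Real.exp 1 * X), ∑' k : ℕ, ca D k * (Real.cos (2 * π * k / D * x + -(π * k / D)) *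
          Real.cos (2 * π * l / E * ψ x + -(π * l / E)) / x)| ≤
        2 / D * |∫ x in X..(Real.exp 1 * X), Real.cos (2 * π * l / E * ψ x + -(π * l / E)) / x| +
        |∫ x in X..(Real.exp 1 * X), ∑' k : ℕ, ca D k * (Real.cos (2 * π * k / D * x + -(π * k / D)) *
          Real.cos (2 * π * l / E * ψ x + -(π * l / E)) / x)| := by
          refine (abs_add_le _ _).trans ?_
          rw [abs_mul, abs_of_nonneg h2D0]
      _ ≤ 2 * B + 2 * B := by gcongr
      _ = 4 * B := by ring
  -- second error
  have herr2 : |∫ x in X..(Real.exp 1 * X), ∑' l : ℕ, ca E l * (HD D x *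
      Real.cos (2 * π * l / E * ψ x + -(π * l / E)) / x)| ≤ 8 * B := by
    refine (tsum_int (ca_nonneg E) (summable_ca E) hle (M := 4) (B := 4 * B)
      (fun l x => HD D x * Real.cos (2 * π * l / E * ψ x + -(π * l / E)) / x) ?_ ?_ ?_).trans ?_
    · intro l
      simp only [div_eq_mul_inv]
      exact ((HD_continuous D).continuousOn.mul (by simpa only [div_eq_mul_inv] using hcosE l)).mul hinv
    · intro l x hx
      have h1 := HD_abs_le D hD x
      have h2 := Real.abs_cos_le_one (2 * π * l / E * ψ x + -(π * l / E))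
      have h3 := hinvle x hx
      exact abs3 h1 h2 h3
    · intro l hl0
      have hl1 : 1 ≤ l := by
        rcases Nat.eq_zero_or_pos l with h | h
        · rw [h] at hl0; exact absurd (ca_zero E) hl0
        · exact h
      exact hinner l hl1
    · have := sum_ca_le hE
      nlinarith
  -- decomposition
  have hcontA : ContinuousOn (fun x : ℝ => ∑' k : ℕ, ca D k *
      (Real.cos (2 * π * k / D * x + -(π * k / D)) / x)) (Icc X (Real.exp 1 * X)) := by
    refine continuousOn_tsum (u := ca D) (fun k => ?_) (summable_ca D) fun k x hx => ?_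
    · refine continuousOn_const.mul ?_
      simp only [div_eq_mul_inv]
      exact (by fun_prop : Continuous fun x : ℝ => Real.cos (2 * π * k * (D : ℝ)⁻¹ * x +
        -(π * k * (D : ℝ)⁻¹))).continuousOn.mul hinv
    · rw [Real.norm_eq_abs, abs_mul, abs_of_nonneg (ca_nonneg D k), div_eq_mul_inv, abs_mul]
      have h1 := Real.abs_cos_le_one (2 * π * k / D * x + -(π * k / D))
      have h3 := hinvle x hx
      have h5 := ca_nonneg D k
      have h4 : |Real.cos (2 * π * k / D * x + -(π * k / D))| * |x⁻¹| ≤ 1 * 1 := by gcongr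
      nlinarith
  have hcontB : ContinuousOn (fun x : ℝ => ∑' l : ℕ, ca E l * (HD D x *
      Real.cos (2 * π * l / E * ψ x + -(π * l / E)) / x)) (Icc X (Real.exp 1 * X)) := by
    refine continuousOn_tsum (u := fun l => ca E l * 4) (fun l => ?_) ((summable_ca E).mul_right 4)
      fun l x hx => ?_
    · refine continuousOn_const.mul ?_
      simp only [div_eq_mul_inv]
      exact ((HD_continuous D).continuousOn.mul (by simpa only [div_eq_mul_inv] using hcosE l)).mul hinv
    · have h1 := HD_abs_le D hD x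
      have h2 := Real.abs_cos_le_one (2 * π * l / E * ψ x + -(π * l / E))
      have h3 := hinvle x hx
      rw [Real.norm_eq_abs, abs_mul, abs_of_nonneg (ca_nonneg E l)]
      exact mul_le_mul_of_nonneg_left (abs3 h1 h2 h3) (ca_nonneg E l)
  have hii : ∀ g : ℝ → ℝ, ContinuousOn g (Icc X (Real.exp 1 * X)) →
      IntervalIntegrable g volume X (Real.exp 1 * X) := by
    intro g hg
    apply ContinuousOn.intervalIntegrable
    rw [uIcc_of_le hle]; exact hg
  have hone : ContinuousOn (fun x : ℝ => 1 / x) (Icc X (Real.exp 1 * X)) := by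
    simpa only [one_div] using hinv
  have hdec : ∫ x in X..(Real.exp 1 * X), HD D x * HD E (ψ x) / x =
      4 / (D * E) * (∫ x in X..(Real.exp 1 * X), 1 / x) +
      2 / E * (∫ x in X..(Real.exp 1 * X), ∑' k : ℕ, ca D k *
        (Real.cos (2 * π * k / D * x + -(π * k / D)) / x)) +
      ∫ x in X..(Real.exp 1 * X), ∑' l : ℕ, ca E l * (HD D x *
        Real.cos (2 * π * l / E * ψ x + -(π * l / E)) / x) := by
    have j1 : IntervalIntegrable (fun x : ℝ => 4 / ((D : ℝ) * E) * (1 / x)) volume X (Real.exp 1 * X) :=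
      hii _ (continuousOn_const.mul hone)
    have j2 : IntervalIntegrable (fun x : ℝ => 2 / (E : ℝ) * ∑' k : ℕ, ca D k *
        (Real.cos (2 * π * k / D * x + -(π * k / D)) / x)) volume X (Real.exp 1 * X) :=
      hii _ (continuousOn_const.mul hcontA)
    have j3 : IntervalIntegrable (fun x : ℝ => 4 / ((D : ℝ) * E) * (1 / x) + 2 / (E : ℝ) *
        ∑' k : ℕ, ca D k * (Real.cos (2 * π * k / D * x + -(π * k / D)) / x)) volume X (Real.exp 1 * X) :=
      j1.add j2
    rw [← intervalIntegral.integral_const_mul, ← intervalIntegral.integral_const_mul,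
      ← intervalIntegral.integral_add j1 j2, ← intervalIntegral.integral_add j3 (hii _ hcontB)]
    refine intervalIntegral.integral_congr fun x _ => ?_
    have e1 : HD E (ψ x) = 2 / E + ∑' l : ℕ, ca E l *
        Real.cos (2 * π * l / E * ψ x + -(π * l / E)) := rfl
    have e2 : HD D x = 2 / D + ∑' k : ℕ, ca D k * Real.cos (2 * π * k / D * x + -(π * k / D)) := rfl
    have e3 : ∑' l : ℕ, ca E l * (HD D x *
        Real.cos (2 * π * l / E * ψ x + -(π * l / E)) / x) =
        HD D x / x * ∑' l : ℕ, ca E l * Real.cos (2 * π * l / E * ψ x + -(π * l / E)) := by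
      rw [← tsum_mul_left]
      refine tsum_congr fun l => ?_
      ring
    have e4 : ∑' k : ℕ, ca D k * (Real.cos (2 * π * k / D * x + -(π * k / D)) / x) =
        1 / x * ∑' k : ℕ, ca D k * Real.cos (2 * π * k / D * x + -(π * k / D)) := by
      rw [← tsum_mul_left]
      refine tsum_congr fun l => ?_
      ring
    rw [e3, e4, e1]
    conv_lhs => rw [mul_add]
    rw [add_div]
    have e5 : HD D x * (2 / E) / x = 4 / (D * E) * (1 / x) + 2 / E * (1 / x *
        ∑' k : ℕ, ca D k * Real.cos (2 * π * k / D * x + -(π * k / D))) := by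
      rw [e2]
      generalize (∑' k : ℕ, ca D k * Real.cos (2 * π * k / D * x + -(π * k / D))) = T
      field_simp
      ring
    rw [e5]
    ring
  rw [hdec, integral_inv_window hX0]
  have h2E : (2 : ℝ) / E ≤ 2 := by rw [div_le_iff₀ (by linarith)]; linarith
  have h2E0 : (0 : ℝ) ≤ 2 / E := by positivity
  have e6 : ∀ a b : ℝ, 4 / ((D : ℝ) * E) * 1 + 2 / E * a + b - 4 / (D * E) = 2 / E * a + b := by
    intro a b; ring
  rw [e6]
  refine (abs_add_le _ _).trans ?_
  rw [abs_mul, abs_of_nonneg h2E0]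
  calc _ ≤ 2 * (2 * B) + 8 * B := by gcongr
    _ = 12 * B := by ring

end

end Pool.Agent.W66V
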