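import Mathlib
import Pool.Agent.W66.CC
import Pool.Agent.W66.CD

set_option autoImplicit false

/-!
# Curve families: the relation between two exponents
-/

namespace Pool.Agent.W66C

open Set MeasureTheory Filter Topology
open Pool.Agent.H447R2.ML (Loc)
open Pool.Agent.W66V (Conv)

/-- hypotheses on the phase functions of a curve family -/
structure Cur (a0 a1 D : ℝ) (h1 : ℝ → ℝ) (p : ℕ) (y y' y'' : ℝ → ℝ) : Prop where
  loc : Loc a0 a1 D p y y'
  der2 : ∀ t ∈ Icc a0 a1, HasDerivAt y' (y'' t) t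
  cont2 : ContinuousOn y'' (Icc a0 a1)
  slope : ∀ t ∈ Icc a0 a1, |y' t - p - h1 t| ≤ 1 / 8
  curv : ∀ t ∈ Icc a0 a1, |y'' t| ≤ D

/-- the second exponential as a convex function of the first -/
theorem psi_exists {a0 a1 D δ : ℝ} {h1 h2 : ℝ → ℝ} (ha0 : 0 < a0) (hD : 0 ≤ D) (h01 : a0 < a1)
    (hδ : 0 < δ) (hδ1 : δ ≤ 1) {p q : ℕ}
    (hp : 25 * (D / δ) + 1 < p) (hpq : p ≤ q) (hq2 : q ≤ 2 * p) {y y' y'' z z' z'' : ℝ → ℝ}
    (hy : Cur a0 a1 D h1 p y y' y'') (hz : Cur a0 a1 D h2 q z z' z'')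
    (hdiff : ∀ t ∈ Icc a0 a1, δ ≤ z' t - y' t) :
    ∃ ψ ψ' ψ'' w : ℝ → ℝ, Monotone w ∧ (∀ t ∈ Icc a0 a1, w (y t) = z t) ∧
      (∀ u, ψ (Real.exp u) = Real.exp (w u)) ∧
      ∀ Y, y a0 < Y → Y + 1 < y a1 →
        Conv ψ ψ' ψ'' (Real.exp Y)
          (δ * Real.exp (-(2 * D)) / (4 * (p * (Real.exp 1 * Real.exp Y)))) := by
  have hDδ : D ≤ D / δ := by rw [le_div_iff₀ hδ]; nlinarith
  have hp0 : (0 : ℝ) < p := by linarith
  have hpqr : (p : ℝ) ≤ q := by exact_mod_cast hpq
  have hq2r : (q : ℝ) ≤ 2 * p := by exact_mod_cast hq2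
  have hyp : ∀ t ∈ Icc a0 a1, (p : ℝ) - D ≤ y' t ∧ y' t ≤ p + D := fun t ht => by
    have := abs_le.1 (hy.loc.slope t ht)
    constructor <;> linarith
  have hzp : ∀ t ∈ Icc a0 a1, (q : ℝ) - D ≤ z' t ∧ z' t ≤ q + D := fun t ht => by
    have := abs_le.1 (hz.loc.slope t ht)
    constructor <;> linarith
  have hypos : ∀ t ∈ Icc a0 a1, 0 < y' t := fun t ht => by linarith [(hyp t ht).1]
  set φ : ℝ → ℝ := fun t => Real.exp (y t) with hφ
  set φ' : ℝ → ℝ := fun t => Real.exp (y t) * y' t with hφ'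
  obtain ⟨τ, hτm, hτI, hτr, hτl, hτd⟩ := exists_inverse (φ := φ) (φ' := φ') h01
    (fun t ht => (hy.loc.der t ht).exp) (fun t ht => mul_pos (Real.exp_pos _) (hypos t ht))
  have hzs := hz.loc.strict (by linarith) hD
  set R0 : ℝ → ℝ := fun t => Real.exp (z t - y t) * (z' t / y' t) with hR0
  set R1 : ℝ → ℝ := fun t => Real.exp (z t - y t) * (z' t - y' t) * (z' t / y' t) +
    Real.exp (z t - y t) * ((z'' t * y' t - z' t * y'' t) / (y' t) ^ 2) with hR1
  have hR0d : ∀ t ∈ Icc a0 a1, HasDerivAt R0 (R1 t) t := by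
    intro t ht
    have hE : HasDerivAt (fun t => Real.exp (z t - y t)) (Real.exp (z t - y t) * (z' t - y' t)) t :=
      ((hz.loc.der t ht).sub (hy.loc.der t ht)).exp
    exact hE.mul ((hz.der2 t ht).div (hy.der2 t ht) (hypos t ht).ne')
  have hcy : ContinuousOn y (Icc a0 a1) := hy.loc.cont
  have hcz : ContinuousOn z (Icc a0 a1) := hz.loc.cont
  have hcy' : ContinuousOn y' (Icc a0 a1) := fun t ht => (hy.der2 t ht).continuousAt.continuousWithinAt
  have hcz' : ContinuousOn z' (Icc a0 a1) := fun t ht => (hz.der2 t ht).continuousAt.continuousWithinAt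
  have hcE : ContinuousOn (fun t => Real.exp (z t - y t)) (Icc a0 a1) :=
    Real.continuous_exp.comp_continuousOn (hcz.sub hcy)
  have hR1c : ContinuousOn R1 (Icc a0 a1) := by
    refine ContinuousOn.add ?_ ?_
    · exact (hcE.mul (hcz'.sub hcy')).mul (hcz'.div hcy' fun t ht => (hypos t ht).ne')
    · refine hcE.mul (ContinuousOn.div ?_ (hcy'.pow 2) fun t ht => pow_ne_zero 2 (hypos t ht).ne')
      exact (hz.cont2.mul hcy').sub (hcz'.mul hy.cont2)
  have hφ'c : ContinuousOn φ' (Icc a0 a1) := (Real.continuous_exp.comp_continuousOn hcy).mul hcy'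
  have hR1lo : ∀ t ∈ Icc a0 a1, δ * Real.exp (-(2 * D)) / 2 ≤ R1 t := by
    intro t ht
    have e1 := hypos t ht
    obtain ⟨a, b⟩ := hyp t ht
    obtain ⟨c, d⟩ := hzp t ht
    have e2 := hdiff t ht
    have e3 := abs_le.1 (hy.curv t ht)
    have e4 := abs_le.1 (hz.curv t ht)
    have ht0 : 0 < t := ha0.trans_le ht.1
    have hE : Real.exp (-(2 * D)) ≤ Real.exp (z t - y t) := by
      refine Real.exp_le_exp.2 ?_
      have n1 := abs_le.1 (hy.loc.near t ht)
      have n2 := abs_le.1 (hz.loc.near t ht)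
      have n3 : (p : ℝ) * t ≤ q * t := mul_le_mul_of_nonneg_right (by linarith) ht0.le
      linarith
    have h2 : δ ≤ (z' t - y' t) * (z' t / y' t) := by
      have h3 : 1 ≤ z' t / y' t := by rw [le_div_iff₀ e1]; linarith
      calc δ = δ * 1 := by ring
        _ ≤ _ := mul_le_mul e2 h3 zero_le_one (by linarith)
    have h4 : -(δ / 2) ≤ (z'' t * y' t - z' t * y'' t) / (y' t) ^ 2 := by
      rw [le_div_iff₀ (by positivity)]
      have h5 : -(D * y' t) ≤ z'' t * y' t := by
        have := mul_le_mul_of_nonneg_right e4.1 e1.le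
        linarith
      have h6 : z' t * y'' t ≤ (3 * y' t) * D := by
        have h7 : z' t ≤ 3 * y' t := by linarith
        have h8 : 0 ≤ z' t := by linarith
        calc z' t * y'' t ≤ z' t * D := mul_le_mul_of_nonneg_left e3.2 h8
          _ ≤ _ := mul_le_mul_of_nonneg_right h7 hD
      have h9 : 8 * (D / δ) ≤ y' t := by linarith
      have h10 : 8 * D ≤ δ * y' t := by
        have h11 := mul_le_mul_of_nonneg_left h9 hδ.le
        have h12 : δ * (8 * (D / δ)) = 8 * D := by field_simp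
        linarith
      have h7 : 8 * D * y' t ≤ δ * y' t * y' t := mul_le_mul_of_nonneg_right h10 e1.le
      nlinarith
    have h5 : R1 t = Real.exp (z t - y t) * ((z' t - y' t) * (z' t / y' t) +
        (z'' t * y' t - z' t * y'' t) / (y' t) ^ 2) := by
      simp only [hR1]; ring
    rw [h5]
    calc δ * Real.exp (-(2 * D)) / 2 = Real.exp (-(2 * D)) * (δ / 2) := by ring
      _ ≤ _ := mul_le_mul hE (by linarith) (by positivity) (Real.exp_pos _).le
  refine ⟨fun x => Real.exp (z (τ x)), fun x => R0 (τ x), fun x => R1 (τ x) * (φ' (τ x))⁻¹,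
    fun u => z (τ (Real.exp u)), ?_, ?_, fun u => rfl, fun Y hY0 hY1 => ?_⟩
  · intro s t hst
    exact hzs.monotoneOn (hτI _) (hτI _) (hτm (Real.exp_le_exp.2 hst))
  · intro t ht
    change z (τ (φ t)) = z t
    rw [hτl t ht]
  · have hX : ∀ x ∈ Icc (Real.exp Y) (Real.exp 1 * Real.exp Y), x ∈ Ioo (φ a0) (φ a1) := by
      intro x hx
      refine ⟨lt_of_lt_of_le (Real.exp_lt_exp.2 hY0) hx.1, lt_of_le_of_lt hx.2 ?_⟩
      rw [← Real.exp_add]
      exact Real.exp_lt_exp.2 (by linarith)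
    refine ⟨fun x hx => ?_, fun x hx => ?_, ?_, fun x hx => ?_⟩
    · have hxI := hX x hx
      have h2 : HasDerivAt (fun x => Real.exp (z (τ x)))
          (Real.exp (z (τ x)) * (z' (τ x) * (φ' (τ x))⁻¹)) x :=
        ((hz.loc.der _ (hτI x)).comp x (hτd x hxI)).exp
      have e1 : Real.exp (z (τ x)) * (z' (τ x) * (φ' (τ x))⁻¹) = R0 (τ x) := by
        simp only [hR0, hφ']
        have h3 := (hypos _ (hτI x)).ne'
        rw [Real.exp_sub]
        have h4 := (Real.exp_pos (y (τ x))).ne'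
        field_simp
      rwa [e1] at h2
    · have hxI := hX x hx
      exact (hR0d _ (hτI x)).comp x (hτd x hxI)
    · have hτc : ContinuousOn τ (Icc (Real.exp Y) (Real.exp 1 * Real.exp Y)) := fun x hx =>
        (hτd x (hX x hx)).continuousAt.continuousWithinAt
      have hmaps : MapsTo τ (Icc (Real.exp Y) (Real.exp 1 * Real.exp Y)) (Icc a0 a1) := fun x _ => hτI x
      refine (hR1c.comp hτc hmaps).mul (ContinuousOn.inv₀ (hφ'c.comp hτc hmaps) fun x _ => ?_)
      exact (mul_pos (Real.exp_pos _) (hypos _ (hτI x))).ne'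
    · have hxI := hX x hx
      have hxx : φ (τ x) = x := hτr x ⟨hxI.1.le, hxI.2.le⟩
      have hx0 : 0 < x := (Real.exp_pos Y).trans_le hx.1
      have h2 : φ' (τ x) ≤ 2 * p * (Real.exp 1 * Real.exp Y) := by
        have h3 : φ' (τ x) = φ (τ x) * y' (τ x) := rfl
        rw [h3, hxx]
        calc x * y' (τ x) ≤ (Real.exp 1 * Real.exp Y) * (2 * p) :=
              mul_le_mul hx.2 (by linarith [(hyp _ (hτI x)).2]) (hypos _ (hτI x)).le (by positivity)
          _ = _ := by ring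
      have h3 : 0 < φ' (τ x) := mul_pos (Real.exp_pos _) (hypos _ (hτI x))
      have h4 : (2 * p * (Real.exp 1 * Real.exp Y))⁻¹ ≤ (φ' (τ x))⁻¹ := inv_anti₀ h3 h2
      have h5 := hR1lo _ (hτI x)
      calc δ * Real.exp (-(2 * D)) / (4 * (p * (Real.exp 1 * Real.exp Y))) =
            δ * Real.exp (-(2 * D)) / 2 * (2 * p * (Real.exp 1 * Real.exp Y))⁻¹ := by
              have := Real.exp_pos Y
              have := Real.exp_pos (1 : ℝ)
              field_simp
              ring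
        _ ≤ R1 (τ x) * (φ' (τ x))⁻¹ := by
            refine mul_le_mul h5 h4 (by positivity) ?_
            have := mul_pos hδ (Real.exp_pos (-(2 * D)))
            linarith

end Pool.Agent.W66C
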