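import Mathlib
import Pool.Agent.W66.CE
import Pool.Agent.W66.GE

set_option autoImplicit false

/-!
# Curve families: near pairs
-/

namespace Pool.Agent.W66C

open Finset MeasureTheory Filter Topology
open Pool.Agent.W66 (no_mid_prime NN_bounds exp_small large_smooth_count)
open Pool.Agent.W66X (exp_consts)
open Pool.Agent.W66V
open Pool.Agent.H305R2 (roughPart NN ff measurable_NN measurable_ff ff_nonneg ff_le_one ZZ ZZ_nonneg
  ZZ_le_exp integral_ind integral_ind_le log_nat_tendsto)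
open Pool.Agent.H447R2.ML (Loc)

lemma avg_windows {a0 a1 D b0 b1 : ℝ} {m : ℕ} {y y' : ℝ → ℝ} (hL : Loc a0 a1 D m y y')
    (hm : 3 * D < m) (hm1 : D + 1 ≤ m) (hD : 0 ≤ D) (h0 : a0 ≤ b0) (h01 : b0 ≤ b1) (h1 : b1 ≤ a1)
    {F : ℝ → ℝ} (hF : Measurable F) (hF0 : ∀ x, 0 ≤ F x) (hF1 : ∀ x, F x ≤ 1) {B : ℝ} (hB0 : 0 ≤ B)
    (hB : ∀ Y, y b0 ≤ Y → Y ≤ y b1 → ∫ x in Set.Ioc Y (Y + 1), F x ≤ B) :
    ∫ t in Set.Ioc b0 b1, F (y t) ≤ (2 * (b1 - b0) + 1) * B := by
  have hmvt := hL.mvt hm hD h0 h01 h1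
  have hy01 : y b0 ≤ y b1 := by
    have : 0 ≤ (m - D) * (b1 - b0) := mul_nonneg (by linarith) (by linarith)
    linarith
  have h2 := cover_nonneg hF hF0 hF1 hy01 hB0 hB
  have h3 := (hL.cov hm hD h0 h01 h1 hF hF0 hF1).1
  have h4 : (y b1 - y b0 + 1) ≤ (m - D) * (2 * (b1 - b0) + 1) := by
    have h10 : (m + D) * (b1 - b0) ≤ 2 * (m - D) * (b1 - b0) :=
      mul_le_mul_of_nonneg_right (by linarith) (by linarith)
    linarith [hmvt.2]
  have h5 : (m - D) * ∫ t in Set.Ioc b0 b1, F (y t) ≤ (m - D) * ((2 * (b1 - b0) + 1) * B) := by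
    refine h3.trans (h2.trans ?_)
    calc (y b1 - y b0 + 1) * B ≤ ((m - D) * (2 * (b1 - b0) + 1)) * B :=
          mul_le_mul_of_nonneg_right h4 hB0
      _ = _ := by ring
  exact le_of_mul_le_mul_left h5 (by linarith)

open Classical in
/-- integers with a large smooth part are rare -/
theorem bad_window {L D : ℝ} (hL : 0 < L) : ∀ᶠ m : ℕ in atTop, ∀ Y : ℝ, L * m - D ≤ Y →
      ∫ u in Set.Ioc Y (Y + 1), (if bad (Real.exp L) m u then (1 : ℝ) else 0) ≤
        6 * Real.exp (-(3 * L / 32 * m)) := by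
  have hlarge : ∀ᶠ p : ℕ in atTop, (D + 2) / L < p :=
    tendsto_natCast_atTop_atTop.eventually_gt_atTop _
  filter_upwards [ZZ_le_exp (c := L / 32) (by positivity), hlarge, eventually_ge_atTop 3] with
    m hZ hml hm3 Y hY
  have hm0 : (0 : ℝ) < m := by positivity
  rw [div_lt_iff₀ hL] at hml
  set E := Real.exp Y with hE
  have hEpos : 0 < E := Real.exp_pos _
  have hE3 : 3 ≤ E := by
    have := Real.add_one_le_exp Y
    linarith
  set N0 := ⌊Real.exp Y⌋₊ with hN0
  set N1 := ⌊Real.exp (Y + 1)⌋₊ with hN1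
  have hN0gt : E < N0 + 1 := Nat.lt_floor_add_one _
  have hN1le : (N1 : ℝ) ≤ Real.exp (Y + 1) := Nat.floor_le (Real.exp_pos _).le
  obtain ⟨_, _, _, _, hee⟩ := exp_consts
  have hN1r : (N1 : ℝ) ≤ 3 * E := by
    rw [Real.exp_add] at hN1le
    have := mul_le_mul_of_nonneg_left hee hEpos.le
    linarith
  have hN0r : E / 2 ≤ N0 := by linarith
  have hN01 : 1 ≤ N0 := by
    have : (1 : ℝ) < ((N0 + 1 : ℕ) : ℝ) := by push_cast; linarith
    have : 1 < N0 + 1 := by exact_mod_cast this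
    omega
  set S := Real.exp (L * m / 4) with hS
  have hS0 : 0 < S := Real.exp_pos _
  set F := (Icc N0 N1).filter (fun N => (roughPart m N).Prime ∧ S ≤ ((N / roughPart m N : ℕ) : ℝ)) with hF
  have hF1 : ∀ N ∈ F, 1 ≤ N := by
    intro N hN
    rw [hF, mem_filter, mem_Icc] at hN
    omega
  have hpt : ∀ u ∈ Set.Ioc Y (Y + 1), (if bad (Real.exp L) m u then (1 : ℝ) else 0) ≤
      if NN u ∈ F then (1 : ℝ) else 0 := by
    intro u hu
    by_cases h : bad (Real.exp L) m u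
    · have hmem : NN u ∈ F := by
        obtain ⟨h1, h2⟩ := h
        rw [Real.log_exp] at h2
        rw [hF, mem_filter, mem_Icc]
        obtain ⟨n1, n2⟩ := NN_bounds u
        have e1 : E < Real.exp u := Real.exp_lt_exp.2 hu.1
        have e2 : Real.exp u ≤ Real.exp (Y + 1) := Real.exp_le_exp.2 hu.2
        refine ⟨⟨?_, ?_⟩, h1, h2⟩
        · have h3 : (N0 : ℝ) ≤ E := Nat.floor_le hEpos.le
          have h4 : (N0 : ℝ) < NN u + 1 := by linarith
          have h5 : N0 < NN u + 1 := by exact_mod_cast h4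
          omega
        · rw [hN1, Nat.le_floor_iff (Real.exp_pos _).le]
          linarith
      rw [if_pos h, if_pos hmem]
    · rw [if_neg h]; split_ifs <;> norm_num
  have hmeasF : Measurable (fun u : ℝ => if NN u ∈ F then (1 : ℝ) else 0) :=
    (measurable_from_nat (f := fun n : ℕ => if n ∈ F then (1 : ℝ) else 0)).comp measurable_NN
  have hint1 : IntegrableOn (fun t : ℝ => if bad (Real.exp L) m t then (1 : ℝ) else 0)
      (Set.Ioc Y (Y + 1)) := by
    refine Measure.integrableOn_of_bounded (M := 1) (by simp) ?_ ?_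
    · exact (Measurable.ite (measurableSet_bad _ m) measurable_const
        measurable_const).aestronglyMeasurable
    · refine Eventually.of_forall fun t => ?_
      split_ifs <;> simp
  have hint2 : IntegrableOn (fun t : ℝ => if NN t ∈ F then (1 : ℝ) else 0) (Set.Ioc Y (Y + 1)) := by
    refine Measure.integrableOn_of_bounded (M := 1) (by simp) hmeasF.aestronglyMeasurable ?_
    refine Eventually.of_forall fun t => ?_
    split_ifs <;> simp
  refine (setIntegral_mono_on hint1 hint2 measurableSet_Ioc hpt).trans ?_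
  have h3 : ∫ u in Set.Ioc Y (Y + 1), (if NN u ∈ F then (1 : ℝ) else 0) ≤ ∑ N ∈ F, 1 / (N : ℝ) := by
      calc _ = _ := integral_ind F hF1 _ _
        _ ≤ ∑ N ∈ F, 1 / (N : ℝ) := Finset.sum_le_sum fun m hm => integral_ind_le (hF1 m hm) _ _
  refine h3.trans ?_
  have hcard : (F.card : ℝ) ≤ (3 * E) * Real.exp (-(3 * L / 32 * m)) := by
    have hsub : F ⊆ (Icc 1 N1).filter (fun N => (roughPart m N).Prime ∧
        S ≤ ((N / roughPart m N : ℕ) : ℝ)) := by
      intro N hN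
      rw [hF, mem_filter, mem_Icc] at hN
      rw [mem_filter, mem_Icc]
      exact ⟨⟨by omega, hN.1.2⟩, hN.2⟩
    have c1 : (F.card : ℝ) ≤ (((Icc 1 N1).filter (fun N => (roughPart m N).Prime ∧
        S ≤ ((N / roughPart m N : ℕ) : ℝ))).card : ℝ) := by exact_mod_cast Finset.card_le_card hsub
    refine (c1.trans (large_smooth_count m N1 hS0)).trans ?_
    have c2 : S ^ (-(1 / 2) : ℝ) = Real.exp (-(L * m / 8)) := by
      rw [hS, ← Real.exp_mul]; ring_nf
    rw [c2]
    have c3 : Real.exp (-(L * m / 8)) * ZZ m ≤ Real.exp (-(3 * L / 32 * m)) := by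
      calc Real.exp (-(L * m / 8)) * ZZ m ≤ Real.exp (-(L * m / 8)) * Real.exp (L / 32 * m) :=
            mul_le_mul_of_nonneg_left hZ (Real.exp_pos _).le
        _ = _ := by rw [← Real.exp_add]; ring_nf
    exact mul_le_mul hN1r c3 (mul_nonneg (Real.exp_pos _).le (ZZ_nonneg m)) (by positivity)
  have c1 : ∀ N ∈ F, 1 / (N : ℝ) ≤ 2 / E := by
    intro N hN
    rw [hF, mem_filter, mem_Icc] at hN
    have c2 : (N0 : ℝ) ≤ N := by exact_mod_cast hN.1.1
    calc 1 / (N : ℝ) ≤ 1 / (E / 2) := one_div_le_one_div_of_le (by positivity) (by linarith)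
      _ = _ := by field_simp
  calc ∑ N ∈ F, 1 / (N : ℝ) ≤ ∑ N ∈ F, 2 / E := Finset.sum_le_sum c1
    _ = F.card * (2 / E) := by rw [Finset.sum_const, nsmul_eq_mul]
    _ ≤ ((3 * E) * Real.exp (-(3 * L / 32 * m))) * (2 / E) :=
        mul_le_mul_of_nonneg_right hcard (by positivity)
    _ = _ := by field_simp; ring

/-- numerical bound for the error term -/
lemma err_c {R p : ℕ} {L D Y : ℝ} (hL : 0 < L) (hp : 1 ≤ p) (hR1 : 1 ≤ R)
    (hR : (R : ℝ) ≤ Real.exp (L * p / 64)) (hY : L * p - D ≤ Y) (hY0 : 0 ≤ Y) :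
    (R : ℝ) ^ 8 * (12 * BC (R ^ 2) (Real.exp (-(2 * D)) / (4 * (p * (Real.exp 1 * Real.exp Y))))
      (Real.exp Y)) ≤
      (12 * (16 * Real.exp (D + 1 / 2) + 1) * (64 / L) * Real.exp (D / 2)) *
        Real.exp (-(21 * L / 64 * p)) := by
  have hp1 : (1 : ℝ) ≤ p := by exact_mod_cast hp
  have hp0 : (0 : ℝ) < p := by linarith
  have hRr : (1 : ℝ) ≤ R := by exact_mod_cast hR1
  have hR0 : (0 : ℝ) < R := by linarith
  set X := Real.exp Y with hX
  have hX0 : 0 < X := Real.exp_pos _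
  have hX1 : 1 ≤ X := Real.one_le_exp hY0
  set H := Real.exp (Y / 2) with hH
  have hH0 : 0 < H := Real.exp_pos _
  have hHH : H * H = X := by rw [hH, hX, ← Real.exp_add]; ring_nf
  have hH1 : 1 ≤ H := Real.one_le_exp (by linarith)
  set T := Real.exp (D + 1 / 2) with hT
  have hT0 : 0 < T := Real.exp_pos _
  -- the first part
  have hsq : T⁻¹ / (2 * p * R * H) ≤
      Real.sqrt (Real.exp (-(2 * D)) / (4 * (p * (Real.exp 1 * X))) / ((R ^ 2 : ℕ) : ℝ)) := by
    refine Real.le_sqrt_of_sq_le ?_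
    have e1 : (T⁻¹) ^ 2 = Real.exp (-(2 * D)) / Real.exp 1 := by
      rw [hT, ← Real.exp_neg, ← Real.exp_nat_mul, ← Real.exp_sub]
      push_cast
      ring_nf
    have e2 : (T⁻¹ / (2 * p * R * H)) ^ 2 = Real.exp (-(2 * D)) / Real.exp 1 / (4 * p ^ 2 * R ^ 2 * X) := by
      rw [div_pow, e1, ← hHH]
      ring
    rw [e2]
    have e3 : Real.exp (-(2 * D)) / (4 * (p * (Real.exp 1 * X))) / ((R ^ 2 : ℕ) : ℝ) =
        Real.exp (-(2 * D)) / Real.exp 1 / (4 * p * R ^ 2 * X) := by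
      push_cast
      have := Real.exp_pos (1 : ℝ)
      field_simp
    rw [e3]
    refine div_le_div_of_nonneg_left (by positivity) (by positivity) ?_
    have h2 : (p : ℝ) ≤ p ^ 2 := by nlinarith
    gcongr
  have hpart1 : 8 / Real.sqrt (Real.exp (-(2 * D)) / (4 * (p * (Real.exp 1 * X))) / ((R ^ 2 : ℕ) : ℝ)) / X ≤
      16 * T * p * R / H := by
    calc _ ≤ 8 / (T⁻¹ / (2 * p * R * H)) / X := by
          refine div_le_div_of_nonneg_right ?_ hX0.le
          exact div_le_div_of_nonneg_left (by norm_num) (by positivity) hsq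
      _ = 16 * T * p * R / H := by
          rw [← hHH]
          field_simp
          ring
  have hBC : BC (R ^ 2) (Real.exp (-(2 * D)) / (4 * (p * (Real.exp 1 * X)))) X ≤
      (16 * T + 1) * p * (R : ℝ) ^ 2 / H := by
    unfold BC
    have h2 : ((R ^ 2 : ℕ) : ℝ) / X ≤ 1 * p * (R : ℝ) ^ 2 / H := by
      push_cast
      rw [← hHH, div_le_div_iff₀ (by positivity) hH0]
      have h3 : (1 : ℝ) ≤ p * H := by nlinarith
      calc (R : ℝ) ^ 2 * H = (R : ℝ) ^ 2 * H * 1 := by ring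
        _ ≤ (R : ℝ) ^ 2 * H * (p * H) := mul_le_mul_of_nonneg_left h3 (by positivity)
        _ = _ := by ring
    have h3 : 16 * T * p * R / H ≤ 16 * T * p * (R : ℝ) ^ 2 / H := by
      have : (R : ℝ) ≤ R ^ 2 := by nlinarith
      gcongr
    calc _ ≤ 16 * T * p * (R : ℝ) ^ 2 / H + 1 * p * (R : ℝ) ^ 2 / H := add_le_add (hpart1.trans h3) h2
      _ = _ := by ring
  have hp64 : (p : ℝ) ≤ 64 / L * Real.exp (L * p / 64) := by
    have h2 := Real.add_one_le_exp (L * p / 64)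
    calc (p : ℝ) = 64 / L * (L * p / 64) := by field_simp
      _ ≤ _ := mul_le_mul_of_nonneg_left (by linarith) (by positivity)
  have hR10 : (R : ℝ) ^ 10 ≤ Real.exp (10 * (L * p / 64)) := by
    calc (R : ℝ) ^ 10 ≤ (Real.exp (L * p / 64)) ^ 10 := pow_le_pow_left₀ hR0.le hR 10
      _ = _ := by rw [← Real.exp_nat_mul]; push_cast; rfl
  have hHinv : 1 / H ≤ Real.exp (-(L * p / 2) + D / 2) := by
    rw [one_div, hH, ← Real.exp_neg]
    exact Real.exp_le_exp.2 (by linarith)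
  calc (R : ℝ) ^ 8 * (12 * BC (R ^ 2) (Real.exp (-(2 * D)) / (4 * (p * (Real.exp 1 * X)))) X) ≤
      (R : ℝ) ^ 8 * (12 * ((16 * T + 1) * p * (R : ℝ) ^ 2 / H)) := by gcongr
    _ = 12 * (16 * T + 1) * (p * ((R : ℝ) ^ 10 * (1 / H))) := by ring
    _ ≤ 12 * (16 * T + 1) * ((64 / L * Real.exp (L * p / 64)) * (Real.exp (10 * (L * p / 64)) *
          Real.exp (-(L * p / 2) + D / 2))) := by gcongr
    _ = (12 * (16 * T + 1) * (64 / L)) * (Real.exp (L * p / 64) * (Real.exp (10 * (L * p / 64)) *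
          Real.exp (-(L * p / 2) + D / 2))) := by ring
    _ = _ := by
        rw [← Real.exp_add, ← Real.exp_add, mul_assoc (12 * (16 * T + 1) * (64 / L)), ← Real.exp_add]
        ring_nf

end Pool.Agent.W66C
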