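import Mathlib
import Pool.Agent.W66.CF

set_option autoImplicit false

/-!
# Curve families: near pairs, the bound
-/

namespace Pool.Agent.W66C

open Finset MeasureTheory Filter Topology
open Pool.Agent.W66 (no_mid_prime NN_bounds exp_small large_smooth_count)
open Pool.Agent.W66X (exp_consts)
open Pool.Agent.W66V
open Pool.Agent.H305R2 (roughPart NN ff measurable_NN measurable_ff ff_nonneg ff_le_one ZZ ZZ_nonneg
  ZZ_le_exp integral_ind integral_ind_le log_nat_tendsto)
open Pool.Agent.H447R2.ML (Loc)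

open Classical in
/-- the sieve bound in one window -/
theorem near_window_c {a0 a1 D δ : ℝ} {h1 h2 : ℝ → ℝ} (ha0 : 0 < a0) (hD : 0 ≤ D) (h01 : a0 < a1)
    (hδ : 0 < δ) (hδ1 : δ ≤ 1) :
    ∃ K : ℝ, 0 < K ∧ ∀ᶠ p : ℕ in atTop, ∀ q : ℕ, p ≤ q → q ≤ 2 * p →
      ∀ y y' y'' z z' z'' : ℝ → ℝ, Cur a0 a1 D h1 p y y' y'' → Cur a0 a1 D h2 q z z' z'' →
      (∀ t ∈ Set.Icc a0 a1, δ ≤ z' t - y' t) →
      ∃ w : ℝ → ℝ, Monotone w ∧ (∀ t ∈ Set.Icc a0 a1, w (y t) = z t) ∧
      ∀ Y, y a0 < Y → Y + 1 < y a1 →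
      ∫ u in Set.Ioc Y (Y + 1), (if good (Real.exp a0) p u ∧ good (Real.exp a0) q (w u)
        then (1 : ℝ) else 0) ≤ K * (Real.log p / p) ^ 2 := by
  set L := a0 with hL
  obtain ⟨C1, hC1, hrat⟩ := ratio_primorial
  obtain ⟨P1, hP1⟩ := eventually_atTop.1 hrat
  have hsm := exp_small (c := 21 * L / 64) (by positivity)
  set D2 := D - Real.log δ / 2 with hD2
  have hlδ : Real.log δ ≤ 0 := Real.log_nonpos hδ.le hδ1
  have hDD2 : D ≤ D2 := by rw [hD2]; linarith
  have hexD2 : Real.exp (-(2 * D2)) = δ * Real.exp (-(2 * D)) := by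
    have e : -(2 * D2) = Real.log δ + -(2 * D) := by rw [hD2]; ring
    rw [e, Real.exp_add, Real.exp_log hδ]
  have hlarge : ∀ᶠ p : ℕ in atTop, 25 * (D / δ) + 1 + (D2 + 2) * 64 / (47 * L) < p :=
    tendsto_natCast_atTop_atTop.eventually_gt_atTop _
  set a := 12 * (16 * Real.exp (D2 + 1 / 2) + 1) * (64 / L) * Real.exp (D2 / 2) with ha
  have ha0' : 0 < a := by positivity
  refine ⟨4 * (256 * C1 / L) ^ 2 + a, by positivity, ?_⟩
  filter_upwards [hsm, hlarge, eventually_ge_atTop P1, eventually_ge_atTop 2]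
    with p hsmp hpl hpP1 hp2 q hpq hq2 y y' y'' z z' z'' hy hz hdiff
  have hp2' : (2 : ℝ) ≤ p := by exact_mod_cast hp2
  have hp0 : (0 : ℝ) < p := by linarith
  have hpqr : (p : ℝ) ≤ q := by exact_mod_cast hpq
  have hD20 : 0 ≤ D2 := by linarith
  have hx1 : 0 ≤ (D2 + 2) * 64 / (47 * L) := by positivity
  have hx2 : 0 ≤ D / δ := by positivity
  have hpl2 : (D2 + 2) * 64 / (47 * L) < p := by linarith
  rw [div_lt_iff₀ (by positivity)] at hpl2
  obtain ⟨M, hM0, hMl, hMr⟩ := hP1 q (by omega)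
  obtain ⟨ψ, ψ', ψ'', w, hwm, hwy, hψw, hconv⟩ := psi_exists ha0 hD h01 hδ hδ1 (by linarith) hpq hq2
    hy hz hdiff
  refine ⟨w, hwm, hwy, fun Y hYa hYb => ?_⟩
  have hya0 : L * p - D ≤ y a0 := by
    have := (abs_le.1 (hy.loc.near a0 ⟨le_rfl, h01.le⟩)).1
    rw [hL]; linarith
  have hYlo : L * p - D ≤ Y := by linarith
  have hY0 : 0 ≤ Y := by
    have : 0 < L * p := by positivity
    linarith
  have hX1 : 1 ≤ Real.exp Y := Real.one_le_exp hY0
  -- values of `w`
  have hwlo : ∀ u ∈ Set.Ioc Y (Y + 1), L * q - D ≤ w u := by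
    intro u hu
    have himg := intermediate_value_Icc h01.le hy.loc.cont
      (show u ∈ Set.Icc (y a0) (y a1) from ⟨by linarith [hu.1], by linarith [hu.2]⟩)
    obtain ⟨t, ht, rfl⟩ := himg
    rw [hwy t ht]
    have h2 := (abs_le.1 (hz.loc.near t ht)).1
    have h3 : (q : ℝ) * L ≤ q * t := mul_le_mul_of_nonneg_left (by rw [hL]; exact ht.1) (by linarith)
    linarith
  -- the sieve level
  set R := ⌊Real.exp (L * p / 64)⌋₊ with hR
  have hexp1 : 1 ≤ Real.exp (L * p / 64) := Real.one_le_exp (by positivity)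
  have hR1 : 1 ≤ R := by rw [hR, Nat.one_le_floor_iff]; exact hexp1
  have hRle : (R : ℝ) ≤ Real.exp (L * p / 64) := Nat.floor_le (Real.exp_pos _).le
  have hRgt : Real.exp (L * p / 64) ≤ R + 1 := (Nat.lt_floor_add_one _).le
  set ρ := δ * Real.exp (-(2 * D)) / (4 * (p * (Real.exp 1 * Real.exp Y))) with hρ
  have hρ0 : 0 < ρ := by positivity
  set ε := 12 * BC (R ^ 2) ρ (Real.exp Y) with hε
  have hε0 : 0 ≤ ε := mul_nonneg (by norm_num) (BC_nonneg hX1)
  have hcv := hconv Y hYa hYb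
  set f : ℝ → ℝ := fun u => if good (Real.exp L) p u ∧ good (Real.exp L) q (w u) then (1 : ℝ) else 0 with hf
  have hmeas : Measurable f := by
    refine Measurable.ite ?_ measurable_const measurable_const
    exact (measurableSet_good _ p).inter (hwm.measurable (measurableSet_good _ q))
  obtain ⟨J, hJ0, hJ1, hJ2⟩ := joint_sift_log (R := R) (M := M) hR1 hM0 (ε := ε) (Y := Y) hε0
    (ψ := ψ) hcv.contOn
    (fun D' E hD' hD2 hE hE2 => corr_conv (Q := R ^ 2) hcv hX1 hρ0 (Nat.one_le_pow _ _ hR1)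
      hD' hD2 hE hE2)
    (f := f)
    (by
      refine Measure.integrableOn_of_bounded (M := 1) (by simp) hmeas.aestronglyMeasurable ?_
      refine Eventually.of_forall fun y => ?_
      simp only [hf]
      split_ifs <;> simp)
    (fun y _ => by simp only [hf]; split_ifs <;> norm_num)
    (by
      intro u hu hfu
      have hgd : good (Real.exp L) p u ∧ good (Real.exp L) q (w u) := by
        by_contra hc
        simp only [hf] at hfu
        rw [if_neg hc] at hfu
        exact lt_irrefl _ hfu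
      obtain ⟨⟨g1, g2⟩, g3, g4⟩ := hgd
      rw [Real.log_exp] at g2 g4
      obtain ⟨n1, n2⟩ := NN_bounds u
      obtain ⟨n3, n4⟩ := NN_bounds (w u)
      refine ⟨NN u, NN (w u), n1, n2, by rw [hψw]; exact n3, by rw [hψw]; exact n4,
        fun l hl hlR hlM => ?_⟩
      have hql := hMl l hl hlM
      have hlz : (l : ℝ) ≤ Real.exp (L * p / 64) := by
        have : (l : ℝ) ≤ R := by exact_mod_cast hlR
        linarith
      constructor
      · refine no_mid_prime g1 g2 ?_ hl (by omega) hlz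
        rw [← Real.exp_add]
        have h1 := size_exp (u := L * p / 64 + L * p / 4) (v := u) (by positivity) (by linarith [hu.1])
        linarith [Real.exp_pos u]
      · refine no_mid_prime g3 g4 ?_ hl hql hlz
        rw [← Real.exp_add]
        have h1 := size_exp (u := L * p / 64 + L * q / 4) (v := w u) (by positivity) (by
          have h2 := hwlo u hu
          have h3 : L * p ≤ L * q := mul_le_mul_of_nonneg_left hpqr ha0.le
          linarith)
        linarith [Real.exp_pos (w u)])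
  refine hJ2.trans ?_
  have hm := main_bound hJ0 hC1 ha0 hp2 hq2 (by omega) hRgt hMr hJ1
  have he := err_c (R := R) (L := L) (D := D2) (Y := Y) (p := p) ha0 (by omega) hR1 hRle
    (by linarith) hY0
  rw [hexD2] at he
  have he2 : (R : ℝ) ^ 8 * ε ≤ a * (Real.log p / p) ^ 2 :=
    he.trans (mul_le_mul_of_nonneg_left hsmp ha0'.le)
  calc 4 / J ^ 2 + (R : ℝ) ^ 8 * ε ≤ 4 * (256 * C1 / L) ^ 2 * (Real.log p / p) ^ 2 +
        a * (Real.log p / p) ^ 2 := add_le_add hm he2
    _ = _ := by ring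

/-- **Near pairs.** -/
theorem near_c {a0 a1 D b0 b1 δ : ℝ} {h1 h2 : ℝ → ℝ} (ha0 : 0 < a0) (hD : 0 ≤ D) (h0 : a0 < b0)
    (h01 : b0 < b1) (hb : b1 < a1) (hδ : 0 < δ) (hδ1 : δ ≤ 1) :
    ∃ K : ℝ, 0 < K ∧ ∃ P : ℕ, ∀ p ≥ P, ∀ q : ℕ, p ≤ q →
    q ≤ 2 * p → ∀ y y' y'' z z' z'' : ℝ → ℝ, Cur a0 a1 D h1 p y y' y'' → Cur a0 a1 D h2 q z z' z'' →
    (∀ t ∈ Set.Icc a0 a1, δ ≤ z' t - y' t) →
    ∫ t in Set.Ioc b0 b1, ff p (y t) * ff q (z t) ≤ K * (Real.log p / p) ^ 2 := by
  classical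
  obtain ⟨K1, hK1, hW⟩ := near_window_c (h1 := h1) (h2 := h2) ha0 hD (by linarith : a0 < a1) hδ hδ1
  have hbig := bad_window (D := D) ha0
  have hsm := exp_small (c := 3 * a0 / 32) (by positivity)
  have hl : ∀ᶠ q : ℕ in atTop, 3 * D + 1 / (b0 - a0) + 1 / (a1 - b1) + 1 < q :=
    tendsto_natCast_atTop_atTop.eventually_gt_atTop _
  obtain ⟨P, hP⟩ := eventually_atTop.1 (hW.and (hbig.and (hsm.and (hl.and (eventually_ge_atTop 3)))))
  have hpos : 0 < b1 - b0 := by linarith
  refine ⟨(2 * (b1 - b0) + 1) * (K1 + 12), by positivity, P,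
    fun p hp q hpq hq2 y y' y'' z z' z'' hy hz hdiff => ?_⟩
  obtain ⟨hWp, hbp, hsmp, hlp, hp3⟩ := hP p hp
  obtain ⟨_, hbq, _, hlq, _⟩ := hP q (by omega)
  have hpqr : (p : ℝ) ≤ q := by exact_mod_cast hpq
  have i1 : 0 < 1 / (b0 - a0) := by
    have : 0 < b0 - a0 := by linarith
    positivity
  have i2 : 0 < 1 / (a1 - b1) := by
    have : 0 < a1 - b1 := by linarith
    positivity
  have hpD : 3 * D < p := by linarith
  have hqD : 3 * D < q := by linarith
  obtain ⟨w, hwm, hwy, hwin⟩ := hWp q hpq hq2 y y' y'' z z' z'' hy hz hdiff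
  have hp3' : (3 : ℝ) ≤ p := by exact_mod_cast hp3
  have hp0 : (0 : ℝ) < p := by linarith
  set r := Real.log p / p with hr
  have hr0 : 0 ≤ r := div_nonneg (Real.log_natCast_nonneg p) hp0.le
  have hI0 : b0 ∈ Set.Icc a0 a1 := ⟨h0.le, by linarith⟩
  have hI1 : b1 ∈ Set.Icc a0 a1 := ⟨by linarith, hb.le⟩
  have hlow : ∀ (m : ℕ) (x x' : ℝ → ℝ), Loc a0 a1 D m x x' → a0 * m - D ≤ x b0 := by
    intro m x x' hx
    have h2 := (abs_le.1 (hx.near b0 hI0)).1
    have h3 : (m : ℝ) * a0 ≤ m * b0 := mul_le_mul_of_nonneg_left h0.le (Nat.cast_nonneg m)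
    linarith
  set G : ℝ → ℝ := fun u => if good (Real.exp a0) p u ∧ good (Real.exp a0) q (w u)
    then (1 : ℝ) else 0 with hG
  have hGm : Measurable G := by
    refine Measurable.ite ?_ measurable_const measurable_const
    exact (measurableSet_good _ p).inter (hwm.measurable (measurableSet_good _ q))
  have hG0 : ∀ y, 0 ≤ G y := fun y => by simp only [hG]; split_ifs <;> norm_num
  have hG1 : ∀ y, G y ≤ 1 := fun y => by simp only [hG]; split_ifs <;> norm_num
  set B : ℕ → ℝ → ℝ := fun m u => if bad (Real.exp a0) m u then (1 : ℝ) else 0 with hB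
  have hB0 : ∀ m t, 0 ≤ B m t := fun m y => by simp only [hB]; split_ifs <;> norm_num
  have hB1 : ∀ m t, B m t ≤ 1 := fun m y => by simp only [hB]; split_ifs <;> norm_num
  have hBm : ∀ m, Measurable (B m) := fun m =>
    Measurable.ite (measurableSet_bad _ m) measurable_const measurable_const
  have hpt : ∀ t ∈ Set.Ioc b0 b1, ff p (y t) * ff q (z t) ≤ B p (y t) + B q (z t) + G (y t) := by
    intro t ht
    have htI : t ∈ Set.Icc a0 a1 := ⟨by linarith [ht.1], by linarith [ht.2]⟩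
    have e1 := hB0 p (y t)
    have e2 := hB0 q (z t)
    have e3 := hG0 (y t)
    unfold ff
    by_cases h1 : (roughPart p (NN (y t))).Prime
    · by_cases h2 : (roughPart q (NN (z t))).Prime
      · rw [if_pos h1, if_pos h2, mul_one]
        by_cases h3 : bad (Real.exp a0) p (y t)
        · have : B p (y t) = 1 := by simp only [hB]; rw [if_pos h3]
          linarith
        · by_cases h4 : bad (Real.exp a0) q (z t)
          · have : B q (z t) = 1 := by simp only [hB]; rw [if_pos h4]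
            linarith
          · have h5 : good (Real.exp a0) p (y t) := ⟨h1, by
              by_contra hc
              exact h3 ⟨h1, not_lt.1 hc⟩⟩
            have h6 : good (Real.exp a0) q (z t) := ⟨h2, by
              by_contra hc
              exact h4 ⟨h2, not_lt.1 hc⟩⟩
            rw [← hwy t htI] at h6
            have : G (y t) = 1 := by simp only [hG]; rw [if_pos ⟨h5, h6⟩]
            linarith
      · rw [if_neg h2, mul_zero]; linarith
    · rw [if_neg h1, zero_mul]; linarith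
  have habs1 : ∀ (F : ℝ → ℝ), (∀ x, 0 ≤ F x) → (∀ x, F x ≤ 1) → ∀ x, |F x| ≤ 1 := fun F f0 f1 x => by
    rw [abs_of_nonneg (f0 x)]; exact f1 x
  have iBp : IntegrableOn (fun t => B p (y t)) (Set.Ioc b0 b1) :=
    int_comp hy.loc h0.le hb.le (hBm p) (M := 1) (habs1 _ (hB0 p) (hB1 p))
  have iBq : IntegrableOn (fun t => B q (z t)) (Set.Ioc b0 b1) :=
    int_comp hz.loc h0.le hb.le (hBm q) (M := 1) (habs1 _ (hB0 q) (hB1 q))
  have iG : IntegrableOn (fun t => G (y t)) (Set.Ioc b0 b1) :=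
    int_comp hy.loc h0.le hb.le hGm (M := 1) (habs1 _ hG0 hG1)
  have iff' : IntegrableOn (fun t => ff p (y t) * ff q (z t)) (Set.Ioc b0 b1) :=
    (Pool.Agent.H447R2.ML.prod_integrable hy.loc hz.loc).mono_set
      (fun t ht => ⟨by linarith [ht.1], by linarith [ht.2]⟩)
  have hstep : ∫ t in Set.Ioc b0 b1, ff p (y t) * ff q (z t) ≤
      (∫ t in Set.Ioc b0 b1, B p (y t)) + (∫ t in Set.Ioc b0 b1, B q (z t)) +
        ∫ t in Set.Ioc b0 b1, G (y t) := by
    have i1 : IntegrableOn (fun t => B p (y t) + B q (z t)) (Set.Ioc b0 b1) := iBp.add iBq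
    rw [← integral_add iBp iBq, ← integral_add i1 iG]
    exact setIntegral_mono_on iff' (i1.add iG) measurableSet_Ioc hpt
  have hc0 : 0 ≤ 2 * (b1 - b0) + 1 := by linarith
  have hex : Real.exp (-(3 * a0 / 32 * (q : ℝ))) ≤ Real.exp (-(3 * a0 / 32 * p)) := by
    refine Real.exp_le_exp.2 ?_
    have : 3 * a0 / 32 * (p : ℝ) ≤ 3 * a0 / 32 * q := mul_le_mul_of_nonneg_left hpqr (by positivity)
    linarith
  have hBpb : ∫ t in Set.Ioc b0 b1, B p (y t) ≤ (2 * (b1 - b0) + 1) * (6 * r ^ 2) := by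
    refine avg_windows hy.loc hpD (by linarith) hD h0.le h01.le hb.le (hBm p) (hB0 p) (hB1 p)
      (by positivity) fun Y hY0 _ => ?_
    refine (hbp Y (by linarith [hlow p y y' hy.loc])).trans ?_
    linarith
  have hBqb : ∫ t in Set.Ioc b0 b1, B q (z t) ≤ (2 * (b1 - b0) + 1) * (6 * r ^ 2) := by
    refine avg_windows hz.loc hqD (by linarith) hD h0.le h01.le hb.le (hBm q) (hB0 q) (hB1 q)
      (by positivity) fun Y hY0 _ => ?_
    refine (hbq Y (by linarith [hlow q z z' hz.loc])).trans ?_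
    linarith
  have hGb : ∫ t in Set.Ioc b0 b1, G (y t) ≤ (2 * (b1 - b0) + 1) * (K1 * r ^ 2) := by
    refine avg_windows hy.loc hpD (by linarith) hD h0.le h01.le hb.le hGm hG0 hG1
      (by positivity) fun Y hY0 hY1 => ?_
    refine hwin Y ?_ ?_
    · have h2 := (hy.loc.mvt hpD hD le_rfl h0.le (by linarith)).1
      have h3 : 0 < (p - D) * (b0 - a0) := mul_pos (by linarith) (by linarith)
      linarith
    · have h2 := (hy.loc.mvt hpD hD (by linarith) hb.le le_rfl).1
      have h3 : 1 < (p - D) * (a1 - b1) := by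
        have h4 : 1 / (a1 - b1) < p - D := by linarith
        rwa [div_lt_iff₀ (by linarith)] at h4
      linarith
  calc _ ≤ _ := hstep
    _ ≤ (2 * (b1 - b0) + 1) * (6 * r ^ 2) + (2 * (b1 - b0) + 1) * (6 * r ^ 2) +
        (2 * (b1 - b0) + 1) * (K1 * r ^ 2) := add_le_add (add_le_add hBpb hBqb) hGb
    _ = _ := by ring

end Pool.Agent.W66C
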