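import Mathlib
import Pool.Agent.W66.CG

set_option autoImplicit false

/-!
# The almost everywhere law for curve families
-/

namespace Pool.Agent.W66C

open Finset Filter Topology MeasureTheory
open Pool.Agent.W66S (ae_abs row_abs)
open Pool.Agent.W66X (int_bdd abs_ff_le_one law_of_fluct)
open Pool.Agent.H447R2.ML (Loc C1)
open Pool.Agent.H305R2 (roughPart bounds gg LL measurable_gg abs_gg_le abs_gg_le_one LL_nonneg LL_cont
  LL_le_one ff NN measurable_ff ff_nonneg ff_le_one integrableOn_ff integrableOn_gg log_nat_tendsto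
  smp smp_mono one_le_smp log_smp_ge log_smp_le tendsto_smp log_smp_div cesaro window_asymp)

/-- **The law for curve families.** -/
theorem law_cur {c0 : ℝ} (hc0 : 0 ≤ c0) {h1 : ℝ → ℝ} {y y' y'' : ℕ → ℝ → ℝ}
    (hym : ∀ p, Measurable (y p))
    (hfam : ∀ a0 a1 : ℝ, c0 < a0 → a0 < a1 → ∃ D : ℝ, 0 ≤ D ∧
      ∀ᶠ p : ℕ in atTop, Cur a0 a1 D h1 p (y p) (y' p) (y'' p)) :
    ∀ᵐ t : ℝ, c0 < t → Tendsto (fun n : ℕ => C1 y t n / Real.log n) atTop
      (𝓝 (Real.exp Real.eulerMascheroniConstant / t)) := by
  have hwin : ∀ b0 b1 : ℝ, c0 < b0 → b0 < b1 → ∀ᵐ t ∂(volume.restrict (Set.Ioc b0 b1)),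
      Tendsto (fun n : ℕ => C1 y t n / Real.log n) atTop
      (𝓝 (Real.exp Real.eulerMascheroniConstant / t)) := by
    intro b0 b1 hb0 hb01
    set a0 := (c0 + b0) / 2 with ha0d
    set a1 := b1 + 1 with ha1d
    have ha0 : 0 < a0 := by rw [ha0d]; linarith
    have h0 : a0 < b0 := by rw [ha0d]; linarith
    have h1' : b1 < a1 := by rw [ha1d]; linarith
    obtain ⟨D, hD, hev⟩ := hfam a0 a1 (by rw [ha0d]; linarith) (by linarith)
    obtain ⟨P0, hP0⟩ := eventually_atTop.1 hev
    obtain ⟨κ, K1, hκ, hK1, P1, hfar⟩ := far_loc ha0 hD h0 hb01 h1'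
    obtain ⟨K2, hK2, P2, hmid⟩ := mid_loc ha0 hD h0 hb01 h1'
    obtain ⟨K3, hK3, P3, hnear⟩ := near_c (h1 := h1) (h2 := h1) ha0 hD h0 hb01 h1'
      (by norm_num : (0 : ℝ) < 3 / 4) (by norm_num)
    obtain ⟨K4, hK4, P4, hP43, hcor⟩ := corr_le ha0 hD h0 hb01 h1'
    obtain ⟨K5, hK5, P5, hP53, hone⟩ := one_loc ha0 hD h0 hb01 h1'
    obtain ⟨P7, h7⟩ := eventually_atTop.1 (log_nat_tendsto.eventually_ge_atTop κ)
    set Q := P0 + P1 + P2 + P3 + P4 + P5 + P7 with hQ
    set J : ℕ → ℕ → ℝ := fun p q => if Q ≤ p then
      ∫ t in Set.Ioc b0 b1, gg p (y p t) * gg q (y q t) else 0 with hJ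
    have hw0 : ∀ m : ℕ, 0 ≤ Real.log m / m := fun m =>
      div_nonneg (Real.log_natCast_nonneg m) (Nat.cast_nonneg m)
    set K := K1 + K2 + (K3 + 2 * K4) with hK
    obtain ⟨C, hC, P', hP', hP3', hrow⟩ := row_abs (κ := κ) (K := K) hκ (by positivity)
      (b := 2) le_rfl J Q
      (by
        intro q hq p hp
        have hr : 0 ≤ Real.log q / (q : ℝ) ^ 2 := div_nonneg (Real.log_natCast_nonneg q) (by positivity)
        simp only [hJ]
        split_ifs with hpQ
        · have hlq := h7 q (by omega)
          have hq0 : (0 : ℝ) < q := by exact_mod_cast (by omega : 0 < q)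
          have hpq : p ≤ q := by
            have hl : 0 < Real.log q := lt_of_lt_of_le hκ hlq
            have : (p : ℝ) ≤ q := by
              refine hp.trans ?_
              rw [div_le_iff₀ hl]
              nlinarith
            exact_mod_cast this
          refine (hfar p (by omega) q hpq _ _ _ _ (hP0 p (by omega)).loc (hP0 q (by omega)).loc hp).trans ?_
          exact mul_le_mul_of_nonneg_right (by rw [hK]; linarith) hr
        · rw [abs_zero]; positivity)
      (by
        intro p hp q hq
        simp only [hJ]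
        rw [if_pos hp]
        refine (hmid p (by omega) q hq _ _ _ _ (hP0 p (by omega)).loc (hP0 q (by omega)).loc).trans ?_
        exact mul_le_mul_of_nonneg_right (by rw [hK]; linarith) (mul_nonneg (hw0 p) (hw0 q)))
      (by
        intro p hp q hq hq2
        simp only [hJ]
        rw [if_pos hp]
        have e1 := hcor p (by omega) q (by omega) _ _ _ _ (hP0 p (by omega)).loc (hP0 q (by omega)).loc
        have e2 := hnear p (by omega) q hq.le hq2 _ _ _ _ _ _ (hP0 p (by omega)) (hP0 q (by omega))
          (fun t ht => by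
            have h2 := abs_le.1 ((hP0 p (by omega)).slope t ht)
            have h3 := abs_le.1 ((hP0 q (by omega)).slope t ht)
            have h4 : (p : ℝ) + 1 ≤ q := by exact_mod_cast hq
            linarith [h2.1, h2.2, h3.1, h3.2])
        have hp2 : (2 : ℝ) ≤ p := by exact_mod_cast (by omega : 2 ≤ p)
        have hp0 : (0 : ℝ) < p := by linarith
        have hpq' : (p : ℝ) ≤ q := by exact_mod_cast hq.le
        have hwq : Real.log q / q ≤ 2 * (Real.log p / p) := by
          have hq2' : (q : ℝ) ≤ p * p := by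
            have : (q : ℝ) ≤ 2 * p := by exact_mod_cast hq2
            nlinarith
          have hlq : Real.log q ≤ 2 * Real.log p := by
            calc Real.log q ≤ Real.log (p * p) := Real.log_le_log (by linarith) hq2'
              _ = 2 * Real.log p := by rw [Real.log_mul hp0.ne' hp0.ne']; ring
          have hlp := Real.log_natCast_nonneg p
          calc Real.log q / q ≤ (2 * Real.log p) / p := div_le_div₀ (by positivity) hlq hp0 hpq'
            _ = _ := by ring
        have hwp := hw0 p
        have e3 : K4 * ((Real.log p / p) * (Real.log q / q)) ≤ 2 * K4 * (Real.log p / p) ^ 2 := by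
          calc K4 * ((Real.log p / p) * (Real.log q / q)) ≤
                K4 * ((Real.log p / p) * (2 * (Real.log p / p))) := by gcongr
            _ = _ := by ring
        have e4 : 0 ≤ ((2 : ℝ) ^ (q - p))⁻¹ * (Real.log p / p) := by positivity
        have e5 : 0 ≤ (Real.log p / p) ^ 2 := sq_nonneg _
        push_cast
        rw [hK]
        calc _ ≤ _ := e1
          _ ≤ K3 * (Real.log p / p) ^ 2 + 2 * K4 * (Real.log p / p) ^ 2 := add_le_add e2 e3
          _ ≤ _ := by nlinarith [mul_nonneg hK1.le e5, mul_nonneg hK2.le e5, mul_nonneg hK1.le e4,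
              mul_nonneg hK2.le e4, mul_nonneg hK4.le e4, mul_nonneg hK3.le e4])
    have hfin : IsFiniteMeasure (volume.restrict (Set.Ioc b0 b1)) := ⟨by simp⟩
    have hmain := ae_abs (μ := volume.restrict (Set.Ioc b0 b1)) (G := fun p t => gg p (y p t))
      (fun p => (measurable_gg p).comp (hym p))
      (fun p t => abs_gg_le_one _ _) (C := C + K5) (by positivity) (P := P') hP3'
      (by
        intro p hp
        have e1 := ((hone p (by omega)).2 _ _ (hP0 p (by omega)).loc).2.2.2
        have e2 : ∫ t in Set.Ioc b0 b1, (gg p (y p t)) ^ 2 ≤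
            ∫ t in Set.Ioc b0 b1, |gg p (y p t)| := by
          have hmg : Measurable (fun t : ℝ => gg p (y p t)) := (measurable_gg p).comp (hym p)
          refine setIntegral_mono_on ?_ ?_ measurableSet_Ioc fun t _ => ?_
          · refine int_bdd (hmg.pow_const 2) (M := 1) (fun t => ?_) _ _
            rw [abs_pow]
            exact pow_le_one₀ (abs_nonneg _) (abs_gg_le_one _ _)
          · refine int_bdd hmg.abs (M := 1) (fun t => ?_) _ _
            rw [abs_abs]
            exact abs_gg_le_one _ _
          · have h1 := abs_gg_le_one p (y p t)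
            have h2 := abs_nonneg (gg p (y p t))
            rw [← sq_abs]
            nlinarith
        refine e2.trans (e1.trans ?_)
        exact mul_le_mul_of_nonneg_right (by linarith) (hw0 p))
      (by
        intro q hq
        have hsame : ∑ p ∈ (Finset.Ico P' q).filter Nat.Prime,
            |∫ t in Set.Ioc b0 b1, gg p (y p t) * gg q (y q t)| =
            ∑ p ∈ (Finset.Ico P' q).filter Nat.Prime, |J p q| := by
          refine Finset.sum_congr rfl fun p hp => ?_
          rw [mem_filter, mem_Ico] at hp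
          simp only [hJ]
          rw [if_pos (hP'.trans hp.1.1)]
        rw [hsame]
        refine (hrow q hq).trans ?_
        have hq3 : (3 : ℝ) ≤ q := by exact_mod_cast hP3'.trans hq
        have hll : 0 ≤ Real.log (Real.log q) := by
          refine Real.log_nonneg ?_
          rw [Real.le_log_iff_exp_le (by linarith)]
          have := Real.exp_one_lt_d9
          linarith
        refine mul_le_mul_of_nonneg_right (by linarith) ?_
        exact mul_nonneg (hw0 q) (by linarith))
    have hmem : ∀ᵐ t ∂(volume.restrict (Set.Ioc b0 b1)), t ∈ Set.Ioc b0 b1 :=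
      ae_restrict_mem measurableSet_Ioc
    filter_upwards [hmain, hmem] with t ht htm
    have ht0 : 0 < t := by linarith [htm.1]
    refine law_of_fluct ht0 (P0 := P') ?_ ht
    -- `y p t / p → t`
    have h9 : Tendsto (fun p : ℕ => y p t / p - t) atTop (𝓝 0) := by
      refine squeeze_zero_norm' ?_ (tendsto_const_nhds.div_atTop tendsto_natCast_atTop_atTop :
        Tendsto (fun p : ℕ => D / (p : ℝ)) atTop (𝓝 0))
      filter_upwards [eventually_ge_atTop P0, eventually_ge_atTop 1] with p hp hp1
      have hp0 : (0 : ℝ) < p := by exact_mod_cast hp1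
      have h10 := (hP0 p hp).loc.near t ⟨by linarith [htm.1], by linarith [htm.2]⟩
      have e : y p t / p - t = (y p t - p * t) / p := by field_simp
      rw [e, Real.norm_eq_abs, abs_div, abs_of_pos hp0]
      exact div_le_div_of_nonneg_right h10 hp0.le
    have h10 := h9.add_const t
    rw [zero_add] at h10
    refine h10.congr fun p => ?_
    ring
  have h2 : ∀ k : ℕ, ∀ᵐ t : ℝ, t ∈ Set.Ioc (c0 + 1 / ((k : ℝ) + 1)) (c0 + k + 2) →
      Tendsto (fun n : ℕ => C1 y t n / Real.log n) atTop
      (𝓝 (Real.exp Real.eulerMascheroniConstant / t)) := fun k => by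
    have hk : (0 : ℝ) ≤ k := Nat.cast_nonneg k
    have h3 : 0 < 1 / ((k : ℝ) + 1) := by positivity
    have h4 : 1 / ((k : ℝ) + 1) ≤ 1 := by rw [div_le_one (by linarith)]; linarith
    exact (ae_restrict_iff' measurableSet_Ioc).1 (hwin _ _ (by linarith) (by linarith))
  filter_upwards [ae_all_iff.2 h2] with t ht htc
  obtain ⟨k, hk⟩ := exists_nat_gt (max (1 / (t - c0)) (t - c0))
  have hk1 : 1 / (t - c0) < k := (le_max_left _ _).trans_lt hk
  have hk2 : t - c0 < k := (le_max_right _ _).trans_lt hk
  have htc' : 0 < t - c0 := by linarith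
  refine ht k ⟨?_, by linarith⟩
  have h3 : 1 / ((k : ℝ) + 1) < t - c0 := by
    rw [div_lt_iff₀ htc'] at hk1
    rw [div_lt_iff₀ (by linarith)]
    linarith
  linarith

end Pool.Agent.W66C
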