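import Mathlib
import Pool.Agent.W66.CH
import Pool.Agent.W66.XG

set_option autoImplicit false

/-!
# Curve families: perturbed exponentials, and the law for integer parts
-/

namespace Pool.Agent.W66C

open Finset Filter Topology MeasureTheory
open Pool.Agent.H447R2.ML (Loc C1 cv compare_counts ff_eq_floor)
open Pool.Agent.W66X (tendsto_transfer ae_of_exp')
open Pool.Agent.H305R2 (roughPart ff)

/-- the phase functions of a perturbed exponential -/
noncomputable def yy (m1 m0 s : ℝ) (H : ℝ → ℝ) (p : ℕ) (t : ℝ) : ℝ :=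
  p * t + Real.log (1 + s * Real.exp (-(p * (m1 * t - m0)))) + H t

/-- first derivative -/
noncomputable def yy1 (m1 m0 s : ℝ) (H' : ℝ → ℝ) (p : ℕ) (t : ℝ) : ℝ :=
  p + (-(p * m1) * (s * Real.exp (-(p * (m1 * t - m0))))) /
    (1 + s * Real.exp (-(p * (m1 * t - m0)))) + H' t

/-- second derivative -/
noncomputable def yy2 (m1 m0 s : ℝ) (H'' : ℝ → ℝ) (p : ℕ) (t : ℝ) : ℝ :=
  (p * m1) ^ 2 * (s * Real.exp (-(p * (m1 * t - m0)))) /
    (1 + s * Real.exp (-(p * (m1 * t - m0)))) ^ 2 + H'' t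

lemma measurable_yy (m1 m0 s : ℝ) {H : ℝ → ℝ} (hH : Measurable H) (p : ℕ) :
    Measurable (yy m1 m0 s H p) := by
  unfold yy
  fun_prop

lemma fam_cur {m1 m0 s c0 : ℝ} (hm1 : 0 < m1) (hs : |s| ≤ 1) (hc : m0 ≤ m1 * c0)
    {H H' H'' : ℝ → ℝ} (hH : ∀ t, c0 < t → HasDerivAt H (H' t) t)
    (hH' : ∀ t, c0 < t → HasDerivAt H' (H'' t) t) (hH'' : ContinuousOn H'' (Set.Ioi c0)) :
    ∀ a0 a1 : ℝ, c0 < a0 → a0 < a1 → ∃ D : ℝ, 0 ≤ D ∧
      ∀ᶠ p : ℕ in atTop, Cur a0 a1 D H' p (yy m1 m0 s H p) (yy1 m1 m0 s H' p) (yy2 m1 m0 s H'' p) := by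
  intro a0 a1 ha0 ha
  have hsub : Set.Icc a0 a1 ⊆ Set.Ioi c0 := fun t ht => ha0.trans_le ht.1
  obtain ⟨M, hM⟩ := isCompact_Icc.exists_bound_of_continuousOn (s := Set.Icc a0 a1) (f := H)
    (fun t ht => (hH t (hsub ht)).continuousAt.continuousWithinAt)
  obtain ⟨M', hM'⟩ := isCompact_Icc.exists_bound_of_continuousOn (s := Set.Icc a0 a1) (f := H')
    (fun t ht => (hH' t (hsub ht)).continuousAt.continuousWithinAt)
  obtain ⟨M'', hM''⟩ := isCompact_Icc.exists_bound_of_continuousOn (s := Set.Icc a0 a1) (f := H'')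
    (hH''.mono hsub)
  have haI : a0 ∈ Set.Icc a0 a1 := ⟨le_rfl, ha.le⟩
  have hM0 : 0 ≤ M := (norm_nonneg _).trans (hM a0 haI)
  have hM0' : 0 ≤ M' := (norm_nonneg _).trans (hM' a0 haI)
  have hM0'' : 0 ≤ M'' := (norm_nonneg _).trans (hM'' a0 haI)
  refine ⟨1 + M + M' + M'', by positivity, ?_⟩
  set μ0 := m1 * a0 - m0 with hμ0
  have hμ0pos : 0 < μ0 := by
    have : m1 * c0 < m1 * a0 := mul_lt_mul_of_pos_left ha0 hm1
    rw [hμ0]; linarith
  have hlin : Tendsto (fun p : ℕ => μ0 * (p : ℝ)) atTop atTop :=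
    tendsto_natCast_atTop_atTop.const_mul_atTop hμ0pos
  have l0 := (Real.tendsto_pow_mul_exp_neg_atTop_nhds_zero 0).comp hlin
  have l1 := (Real.tendsto_pow_mul_exp_neg_atTop_nhds_zero 1).comp hlin
  have l2 := (Real.tendsto_pow_mul_exp_neg_atTop_nhds_zero 2).comp hlin
  filter_upwards [l0.eventually_lt_const (show (0 : ℝ) < 1 / 2 by norm_num),
    l1.eventually_lt_const (show (0 : ℝ) < μ0 / (16 * m1) by positivity),
    l2.eventually_lt_const (show (0 : ℝ) < μ0 ^ 2 / (4 * m1 ^ 2) by positivity)] with p e0 e1 e2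
  simp only [Function.comp, pow_zero, one_mul, pow_one] at e0 e1 e2
  set E := Real.exp (-(μ0 * (p : ℝ))) with hE
  have hE0 : 0 < E := Real.exp_pos _
  have hp0 : (0 : ℝ) ≤ p := Nat.cast_nonneg p
  have f1 : p * m1 * E ≤ 1 / 16 := by
    rw [lt_div_iff₀ (by positivity)] at e1
    have h2 : μ0 * (p * m1 * E * 16) < μ0 * 1 := by
      calc μ0 * (p * m1 * E * 16) = μ0 * p * E * (16 * m1) := by ring
        _ < μ0 * 1 := by rw [mul_one]; exact e1
    have h3 := lt_of_mul_lt_mul_left h2 hμ0pos.le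
    linarith
  have f2 : (p * m1) ^ 2 * E ≤ 1 / 4 := by
    rw [lt_div_iff₀ (by positivity)] at e2
    have h2 : μ0 ^ 2 * ((p * m1) ^ 2 * E * 4) < μ0 ^ 2 * 1 := by
      calc μ0 ^ 2 * ((p * m1) ^ 2 * E * 4) = (μ0 * p) ^ 2 * E * (4 * m1 ^ 2) := by ring
        _ < μ0 ^ 2 * 1 := by rw [mul_one]; exact e2
    have h3 := lt_of_mul_lt_mul_left h2 (by positivity)
    linarith
  -- the perturbation
  set e : ℝ → ℝ := fun t => Real.exp (-(p * (m1 * t - m0))) with he
  have hele : ∀ t ∈ Set.Icc a0 a1, e t ≤ E := by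
    intro t ht
    simp only [he, hE]
    refine Real.exp_le_exp.2 ?_
    have h2 : m1 * a0 ≤ m1 * t := mul_le_mul_of_nonneg_left ht.1 hm1.le
    have h3 : (p : ℝ) * μ0 ≤ p * (m1 * t - m0) := mul_le_mul_of_nonneg_left (by rw [hμ0]; linarith) hp0
    linarith
  have hepos : ∀ t, 0 < e t := fun t => Real.exp_pos _
  have hse : ∀ t ∈ Set.Icc a0 a1, |s * e t| ≤ E := by
    intro t ht
    rw [abs_mul, abs_of_pos (hepos t)]
    calc |s| * e t ≤ 1 * E := mul_le_mul hs (hele t ht) (hepos t).le zero_le_one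
      _ = E := one_mul _
  have hden : ∀ t ∈ Set.Icc a0 a1, 1 / 2 ≤ 1 + s * e t ∧ 1 + s * e t ≤ 3 / 2 := by
    intro t ht
    have := abs_le.1 (hse t ht)
    constructor <;> linarith
  have hde : ∀ t : ℝ, HasDerivAt e (e t * (-(p * m1))) t := by
    intro t
    have h2 : HasDerivAt (fun t : ℝ => -(p * (m1 * t - m0))) (-(p * m1)) t := by
      have h3 : HasDerivAt (fun t : ℝ => m1 * t) m1 t := by simpa using (hasDerivAt_id t).const_mul m1
      exact ((h3.sub_const m0).const_mul (p : ℝ)).neg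
    exact h2.exp
  have hdd : ∀ t : ℝ, HasDerivAt (fun t => 1 + s * e t) (-(p * m1) * (s * e t)) t := by
    intro t
    have h2 := ((hde t).const_mul s).const_add 1
    have e3 : s * (e t * (-(p * m1))) = -(p * m1) * (s * e t) := by ring
    rwa [e3] at h2
  have hlin' : ∀ t : ℝ, HasDerivAt (fun t : ℝ => (p : ℝ) * t) p t := fun t => by
    simpa using (hasDerivAt_id t).const_mul (p : ℝ)
  have hfrac : ∀ t ∈ Set.Icc a0 a1, |(-(p * m1) * (s * e t)) / (1 + s * e t)| ≤ 1 / 8 := by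
    intro t ht
    rw [abs_div, div_le_iff₀ (abs_pos.2 (by have := (hden t ht).1; linarith)), abs_mul, abs_neg,
      abs_of_nonneg (by positivity : (0 : ℝ) ≤ p * m1)]
    have h2 := hse t ht
    have h3 : (p * m1) * |s * e t| ≤ p * m1 * E := mul_le_mul_of_nonneg_left h2 (by positivity)
    have h4 : 1 / 2 ≤ |1 + s * e t| := (hden t ht).1.trans (le_abs_self _)
    linarith
  have hHb : ∀ t ∈ Set.Icc a0 a1, |H t| ≤ M := fun t ht => hM t ht
  have hHb' : ∀ t ∈ Set.Icc a0 a1, |H' t| ≤ M' := fun t ht => hM' t ht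
  have hHb'' : ∀ t ∈ Set.Icc a0 a1, |H'' t| ≤ M'' := fun t ht => hM'' t ht
  refine ⟨⟨fun t ht => ?_, fun t ht => ?_, fun t ht => ?_⟩, fun t ht => ?_, ?_, fun t ht => ?_,
    fun t ht => ?_⟩
  · obtain ⟨g1, g2⟩ := hden t ht
    have h2 : |Real.log (1 + s * e t)| ≤ 1 := by
      rw [abs_le]
      constructor
      · have h3 := Real.one_sub_inv_le_log_of_pos (show 0 < 1 + s * e t by linarith)
        have h4 : (1 + s * e t)⁻¹ ≤ 2 := by
          rw [inv_le_comm₀ (by linarith) (by norm_num)]; linarith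
        linarith
      · have h3 := Real.log_le_sub_one_of_pos (show 0 < 1 + s * e t by linarith)
        linarith
    have h3 := abs_le.1 (hHb t ht)
    have h4 := abs_le.1 h2
    change |p * t + Real.log (1 + s * e t) + H t - p * t| ≤ _
    rw [abs_le]
    constructor <;> linarith
  · have h2 := (((hlin' t).add ((hdd t).log (by have := (hden t ht).1; linarith))).add
      (hH t (hsub ht)))
    exact h2
  · have h2 := abs_le.1 (hfrac t ht)
    have h3 := abs_le.1 (hHb' t ht)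
    change |p + (-(p * m1) * (s * e t)) / (1 + s * e t) + H' t - p| ≤ _
    rw [abs_le]
    constructor <;> linarith
  · have hne : 1 + s * e t ≠ 0 := by have := (hden t ht).1; linarith
    have h2 : HasDerivAt (fun t => -(p * m1) * (s * e t)) (-(p * m1) * (s * (e t * (-(p * m1))))) t :=
      ((hde t).const_mul s).const_mul _
    have h3 := (((h2.div (hdd t) hne).const_add (p : ℝ)).add (hH' t (hsub ht)))
    have e3 : (-(p * m1) * (s * (e t * (-(p * m1)))) * (1 + s * e t) -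
        -(p * m1) * (s * e t) * (-(p * m1) * (s * e t))) / (1 + s * e t) ^ 2 + H'' t =
        (p * m1) ^ 2 * (s * e t) / (1 + s * e t) ^ 2 + H'' t := by
      congr 2
      ring
    rw [e3] at h3
    exact h3
  · refine ContinuousOn.add ?_ (hH''.mono hsub)
    have hce : Continuous e := by
      simp only [he]
      fun_prop
    refine ContinuousOn.div (by fun_prop) (by fun_prop) fun t ht => ?_
    have := (hden t ht).1
    change (1 + s * e t) ^ 2 ≠ 0
    exact pow_ne_zero 2 (by linarith)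
  · change |p + (-(p * m1) * (s * e t)) / (1 + s * e t) + H' t - p - H' t| ≤ _
    have e3 : p + (-(p * m1) * (s * e t)) / (1 + s * e t) + H' t - p - H' t =
      (-(p * m1) * (s * e t)) / (1 + s * e t) := by ring
    rw [e3]
    exact hfrac t ht
  · change |(p * m1) ^ 2 * (s * e t) / (1 + s * e t) ^ 2 + H'' t| ≤ _
    have h2 : |(p * m1) ^ 2 * (s * e t) / (1 + s * e t) ^ 2| ≤ 1 := by
      have h3 := (hden t ht).1
      rw [abs_div, div_le_iff₀ (abs_pos.2 (pow_ne_zero 2 (by linarith))), abs_mul,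
        abs_of_nonneg (by positivity : (0 : ℝ) ≤ (p * m1) ^ 2)]
      have h4 : (p * m1) ^ 2 * |s * e t| ≤ (p * m1) ^ 2 * E :=
        mul_le_mul_of_nonneg_left (hse t ht) (by positivity)
      have h5 : 1 / 4 ≤ |(1 + s * e t) ^ 2| := by
        rw [abs_of_nonneg (sq_nonneg _)]
        nlinarith
      linarith
    refine (abs_add_le _ _).trans ?_
    linarith [hHb'' t ht]

/-- for almost every parameter the values are not integers -/
lemma ne_nat_ae {c0 : ℝ} {h1 : ℝ → ℝ} {y y' y'' : ℕ → ℝ → ℝ}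
    (hfam : ∀ a0 a1 : ℝ, c0 < a0 → a0 < a1 → ∃ D : ℝ, 0 ≤ D ∧
      ∀ᶠ p : ℕ in atTop, Cur a0 a1 D h1 p (y p) (y' p) (y'' p)) :
    ∀ᵐ t : ℝ, c0 < t → ∃ P : ℕ, ∀ p ≥ P, ∀ m : ℕ, Real.exp (y p t) ≠ m := by
  have hk : ∀ k : ℕ, ∀ᵐ t : ℝ, t ∈ Set.Icc (c0 + 1 / ((k : ℝ) + 1)) (c0 + k + 2) →
      ∃ P : ℕ, ∀ p ≥ P, ∀ m : ℕ, Real.exp (y p t) ≠ m := by
    intro k
    have hk0 : (0 : ℝ) ≤ k := Nat.cast_nonneg k
    have h3 : 0 < 1 / ((k : ℝ) + 1) := by positivity
    have h4 : 1 / ((k : ℝ) + 1) ≤ 1 := by rw [div_le_one (by linarith)]; linarith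
    obtain ⟨D, hD, hev⟩ := hfam (c0 + 1 / ((k : ℝ) + 1)) (c0 + k + 2) (by linarith) (by linarith)
    have hl : ∀ᶠ p : ℕ in atTop, 3 * D < p := tendsto_natCast_atTop_atTop.eventually_gt_atTop _
    obtain ⟨P, hP⟩ := eventually_atTop.1 (hev.and hl)
    set I := Set.Icc (c0 + 1 / ((k : ℝ) + 1)) (c0 + k + 2) with hI
    have hnull : volume (⋃ p : ℕ, ⋃ m : ℕ, {t : ℝ | t ∈ I ∧ P ≤ p ∧ Real.exp (y p t) = m}) = 0 := by
      refine Set.Countable.measure_zero ?_ volume
      refine Set.countable_iUnion fun p => Set.countable_iUnion fun m => ?_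
      refine Set.Subsingleton.countable ?_
      rintro s ⟨hs, hp, hs2⟩ t ⟨ht, _, ht2⟩
      have h5 : y p s = y p t := Real.exp_injective (by rw [hs2, ht2])
      exact ((hP p hp).1.loc.strict (hP p hp).2 hD).injOn hs ht h5
    rw [← compl_mem_ae_iff] at hnull
    filter_upwards [hnull] with t ht htI
    refine ⟨P, fun p hp m hm => ht ?_⟩
    simp only [Set.mem_iUnion]
    exact ⟨p, m, htI, hp, hm⟩
  filter_upwards [ae_all_iff.2 hk] with t ht htc
  obtain ⟨k, hk⟩ := exists_nat_gt (max (1 / (t - c0)) (t - c0))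
  have hk1 : 1 / (t - c0) < k := (le_max_left _ _).trans_lt hk
  have hk2 : t - c0 < k := (le_max_right _ _).trans_lt hk
  have htc' : 0 < t - c0 := by linarith
  refine ht k ⟨?_, by linarith⟩
  have h3 : 1 / ((k : ℝ) + 1) < t - c0 := by
    rw [div_lt_iff₀ htc'] at hk1
    rw [div_lt_iff₀ (by linarith)]
    linarith
  linarith

/-- **The law for the integer parts of a curve family.** -/
theorem law_val {c0 : ℝ} (hc0 : 0 ≤ c0) {h1 : ℝ → ℝ} {y y' y'' : ℕ → ℝ → ℝ}
    (hym : ∀ p, Measurable (y p))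
    (hfam : ∀ a0 a1 : ℝ, c0 < a0 → a0 < a1 → ∃ D : ℝ, 0 ≤ D ∧
      ∀ᶠ p : ℕ in atTop, Cur a0 a1 D h1 p (y p) (y' p) (y'' p)) {val : ℕ → ℝ → ℝ}
    (hval : ∀ t, c0 < t → ∀ᶠ p : ℕ in atTop, p.Prime → 0 < val p t ∧ Real.log (val p t) = y p t) :
    ∀ᵐ t : ℝ, c0 < t → Tendsto (fun n : ℕ => (cv val t n : ℝ) / Real.log n) atTop
      (𝓝 (Real.exp Real.eulerMascheroniConstant / t)) := by
  filter_upwards [law_cur hc0 hym hfam, ne_nat_ae hfam] with t h2 h3 htc
  obtain ⟨P1, hP1⟩ := h3 htc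
  obtain ⟨P2, hP2⟩ := eventually_atTop.1 (hval t htc)
  have hcomp : ∀ p, P1 + P2 ≤ p → p.Prime → ff p (y p t) =
      if (roughPart p ⌊val p t⌋₊).Prime then 1 else 0 := by
    intro p hp hpp
    obtain ⟨h4, h5⟩ := hP2 p (by omega) hpp
    rw [← h5]
    refine ff_eq_floor h4 fun m hm => hP1 p (by omega) m ?_
    rw [← h5, Real.exp_log h4]
    exact hm
  exact tendsto_transfer (P := ((P1 + P2 : ℕ) : ℝ))
    (fun n => (compare_counts val t y t hcomp n).1)
    (fun n => (compare_counts val t y t hcomp n).2) (h2 htc)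

end Pool.Agent.W66C
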