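import Mathlib
import Pool.Agent.W66.CI

set_option autoImplicit false

/-!
# The law for `(x ^ p - c ^ p) / (x - c)` and for Lucas sequences with a real parameter
-/

namespace Pool.Agent.W66C

open Finset Filter Topology MeasureTheory
open Pool.Agent.H447R2.ML (Loc C1 cv compare_counts ff_eq_floor)
open Pool.Agent.W66X (tendsto_transfer ae_of_exp')
open Pool.Agent.H305R2 (roughPart ff)

/-- **The law for `(x ^ p - c ^ p) / (x - c)` for almost every real `x > max 1 |c|`.** -/
theorem law_pow (c : ℝ) : ∀ᵐ x : ℝ, max 1 |c| < x →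
    Tendsto (fun n : ℕ => (cv (fun p x => (x ^ p - c ^ p) / (x - c)) x n : ℝ) / Real.log n) atTop
      (𝓝 (Real.exp Real.eulerMascheroniConstant / Real.log x)) := by
  set c0 := Real.log (max 1 |c|) with hc0d
  have hmax : (1 : ℝ) ≤ max 1 |c| := le_max_left _ _
  have hmax0 : (0 : ℝ) < max 1 |c| := by linarith
  have hc0 : 0 ≤ c0 := Real.log_nonneg hmax
  set s : ℝ := -(SignType.sign c : ℝ) with hs
  have hs1 : |s| ≤ 1 := by
    rw [hs, abs_neg]
    rcases lt_trichotomy c 0 with h | h | h
    · rw [sign_neg h]; simp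
    · rw [h]; simp
    · rw [sign_pos h]; simp
  have hmc : Real.log |c| ≤ 1 * c0 := by
    rw [one_mul, hc0d]
    rcases (abs_nonneg c).eq_or_lt with h | h
    · rw [← h, Real.log_zero]
      exact Real.log_nonneg (le_max_left _ _)
    · exact Real.log_le_log h (le_max_right _ _)
  have hexp : ∀ t, c0 < t → max 1 |c| < Real.exp t := fun t ht => (Real.log_lt_iff_lt_exp hmax0).1 ht
  have hpos : ∀ t, c0 < t → 0 < Real.exp t - c := fun t ht => by
    have h1 := hexp t ht
    have h2 := le_max_right 1 |c|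
    have h3 := le_abs_self c
    linarith
  have hfam := fam_cur (m1 := 1) (m0 := Real.log |c|) (s := s) (c0 := c0) one_pos hs1 hmc
    (H := fun t => -Real.log (Real.exp t - c))
    (H' := fun t => -(Real.exp t / (Real.exp t - c)))
    (H'' := fun t => -((Real.exp t * (Real.exp t - c) - Real.exp t * Real.exp t) /
      (Real.exp t - c) ^ 2))
    (fun t ht => ((((Real.hasDerivAt_exp t).sub_const c).log (hpos t ht).ne')).neg)
    (fun t ht => ((Real.hasDerivAt_exp t).div ((Real.hasDerivAt_exp t).sub_const c)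
      (hpos t ht).ne').neg)
    (by
      refine ContinuousOn.neg (ContinuousOn.div (by fun_prop) (by fun_prop) fun t ht => ?_)
      exact pow_ne_zero 2 (hpos t ht).ne')
  have hlaw := law_val hc0 (fun p => measurable_yy 1 (Real.log |c|) s (by fun_prop) p) hfam
    (val := fun p t => ((Real.exp t) ^ p - c ^ p) / (Real.exp t - c)) (by
      intro t ht
      filter_upwards [eventually_ge_atTop 3] with p hp hpp
      have hodd : Odd p := hpp.odd_of_ne_two (by omega)
      have h1 := hexp t ht
      have h2 : |c| < Real.exp t := (le_max_right _ _).trans_lt h1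
      have h3 : |c ^ p| < (Real.exp t) ^ p := by
        rw [abs_pow]
        exact pow_lt_pow_left₀ h2 (abs_nonneg _) (by omega)
      have h4 : 0 < (Real.exp t) ^ p - c ^ p := by
        have := le_abs_self (c ^ p)
        linarith
      have hE : 0 < Real.exp t ^ p := by positivity
      refine ⟨div_pos h4 (hpos t ht), ?_⟩
      rw [Real.log_div h4.ne' (hpos t ht).ne']
      have e1 : s * Real.exp (-(p * (1 * t - Real.log |c|))) = -(c ^ p / (Real.exp t) ^ p) := by
        rcases (abs_nonneg c).eq_or_lt with h | h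
        · have hc : c = 0 := abs_eq_zero.1 h.symm
          have hp0 : p ≠ 0 := by omega
          rw [hs, hc]
          simp [hp0]
        · have e2 : Real.exp (-(p * (1 * t - Real.log |c|))) = |c| ^ p / (Real.exp t) ^ p := by
            have e3 : -((p : ℝ) * (1 * t - Real.log |c|)) = (p : ℝ) * Real.log |c| - p * t := by ring
            rw [e3, Real.exp_sub, Real.exp_nat_mul, Real.exp_nat_mul, Real.exp_log h]
          rw [e2]
          have e4 : s * |c| ^ p = -c ^ p := by
            rw [hs]
            rcases lt_or_gt_of_ne (abs_pos.1 h) with h5 | h5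
            · rw [sign_neg h5, abs_of_neg h5, hodd.neg_pow]
              simp
            · rw [sign_pos h5, abs_of_pos h5]
              simp
          rw [← mul_div_assoc, e4, neg_div]
      have e5 : (Real.exp t) ^ p - c ^ p = (Real.exp t) ^ p * (1 + -(c ^ p / (Real.exp t) ^ p)) := by
        field_simp
        ring
      have h6 : 0 < 1 + -(c ^ p / (Real.exp t) ^ p) := by
        have : c ^ p / (Real.exp t) ^ p < 1 := by
          rw [div_lt_one hE]
          linarith
        linarith
      unfold yy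
      rw [e1, e5, Real.log_mul hE.ne' h6.ne', ← Real.exp_nat_mul, Real.log_exp]
      ring)
  have hfin := ae_of_exp' (P := fun x : ℝ => max 1 |c| < x →
    Tendsto (fun n : ℕ => (cv (fun p x => (x ^ p - c ^ p) / (x - c)) x n : ℝ) / Real.log n) atTop
      (𝓝 (Real.exp Real.eulerMascheroniConstant / Real.log x))) (by
    filter_upwards [hlaw] with t ht hx
    have h1 : c0 < t := by
      rw [hc0d, Real.log_lt_iff_lt_exp hmax0]
      exact hx
    rw [Real.log_exp]
    exact ht h1)
  filter_upwards [hfin] with x hx h1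
  exact hx (by linarith) h1

/-- Lucas sequence of the first kind with parameters `(P, -1)` -/
noncomputable def lU (P : ℝ) : ℕ → ℝ
  | 0 => 0
  | 1 => 1
  | (n + 2) => P * lU P (n + 1) + lU P n

/-- Lucas sequence of the second kind with parameters `(P, -1)` -/
noncomputable def lV (P : ℝ) : ℕ → ℝ
  | 0 => 2
  | 1 => P
  | (n + 2) => P * lV P (n + 1) + lV P n

lemma lU_closed (t : ℝ) : ∀ n : ℕ, lU (2 * Real.sinh t) n * (2 * Real.cosh t) =
    Real.exp t ^ n - (-Real.exp (-t)) ^ n
  | 0 => by simp [lU]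
  | 1 => by
      simp only [lU, pow_one]
      rw [Real.cosh_eq]; ring
  | (n + 2) => by
      have h1 := lU_closed t (n + 1)
      have h2 := lU_closed t n
      have e : lU (2 * Real.sinh t) (n + 2) =
          2 * Real.sinh t * lU (2 * Real.sinh t) (n + 1) + lU (2 * Real.sinh t) n := rfl
      have h3 : Real.exp t * Real.exp (-t) = 1 := by rw [← Real.exp_add]; simp
      rw [e, add_mul, mul_assoc, h1, h2, Real.sinh_eq]
      have e1 : Real.exp t ^ (n + 2) = Real.exp t ^ n * (Real.exp t * Real.exp t) := by ring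
      have e2 : (-Real.exp (-t)) ^ (n + 2) = (-Real.exp (-t)) ^ n * (Real.exp (-t) * Real.exp (-t)) := by
        ring
      rw [e1, e2, pow_succ, pow_succ]
      linear_combination (-(Real.exp t ^ n) + (-Real.exp (-t)) ^ n) * h3

lemma lV_closed (t : ℝ) : ∀ n : ℕ, lV (2 * Real.sinh t) n =
    Real.exp t ^ n + (-Real.exp (-t)) ^ n
  | 0 => by simp [lV]; norm_num
  | 1 => by
      simp only [lV, pow_one]
      rw [Real.sinh_eq]; ring
  | (n + 2) => by
      have h1 := lV_closed t (n + 1)
      have h2 := lV_closed t n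
      have e : lV (2 * Real.sinh t) (n + 2) =
          2 * Real.sinh t * lV (2 * Real.sinh t) (n + 1) + lV (2 * Real.sinh t) n := rfl
      have h3 : Real.exp t * Real.exp (-t) = 1 := by rw [← Real.exp_add]; simp
      rw [e, h1, h2, Real.sinh_eq]
      have e1 : Real.exp t ^ (n + 2) = Real.exp t ^ n * (Real.exp t * Real.exp t) := by ring
      have e2 : (-Real.exp (-t)) ^ (n + 2) = (-Real.exp (-t)) ^ n * (Real.exp (-t) * Real.exp (-t)) := by
        ring
      rw [e1, e2, pow_succ, pow_succ]
      linear_combination (-(Real.exp t ^ n) - (-Real.exp (-t)) ^ n) * h3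

/-- transfer to the parameter `P = 2 sinh t` -/
lemma ae_of_sinh {Q : ℝ → Prop} (h : ∀ᵐ t : ℝ, Q (2 * Real.sinh t)) : ∀ᵐ x : ℝ, Q x := by
  rw [ae_iff] at h ⊢
  have h1 : volume ((fun t : ℝ => 2 * Real.sinh t) '' {t : ℝ | ¬ Q (2 * Real.sinh t)}) = 0 :=
    addHaar_image_eq_zero_of_differentiableOn_of_addHaar_eq_zero volume
      (Real.differentiable_sinh.const_mul 2).differentiableOn h
  refine measure_mono_null ?_ h1
  intro x hx
  obtain ⟨t, ht⟩ := Real.sinh_surjective (x / 2)
  have e : 2 * Real.sinh t = x := by rw [ht]; ring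
  refine ⟨t, ?_, e⟩
  simp only [Set.mem_ofPred_eq] at hx ⊢
  rw [e]
  exact hx

lemma root_sinh (t : ℝ) : (2 * Real.sinh t + Real.sqrt ((2 * Real.sinh t) ^ 2 + 4)) / 2 = Real.exp t := by
  have h1 : (2 * Real.sinh t) ^ 2 + 4 = (2 * Real.cosh t) ^ 2 := by
    have := Real.cosh_sq t
    nlinarith
  rw [h1, Real.sqrt_sq (by have := Real.cosh_pos t; linarith), Real.cosh_eq, Real.sinh_eq]
  ring

/-- the law for hyperbolic curve families -/
theorem law_hyp {s : ℝ} (hs : |s| ≤ 1) {H H' H'' : ℝ → ℝ} (hHm : Measurable H)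
    (hH : ∀ t, 0 < t → HasDerivAt H (H' t) t)
    (hH' : ∀ t, 0 < t → HasDerivAt H' (H'' t) t) (hH'' : ContinuousOn H'' (Set.Ioi 0))
    {val : ℕ → ℝ → ℝ}
    (hval : ∀ t, 0 < t → ∀ᶠ p : ℕ in atTop, p.Prime → 0 < val p (2 * Real.sinh t) ∧
      Real.log (val p (2 * Real.sinh t)) =
        p * t + Real.log (1 + s * Real.exp (-(p * (2 * t - 0)))) + H t) :
    ∀ᵐ x : ℝ, 0 < x → Tendsto (fun n : ℕ => (cv val x n : ℝ) / Real.log n) atTop
      (𝓝 (Real.exp Real.eulerMascheroniConstant / Real.log ((x + Real.sqrt (x ^ 2 + 4)) / 2))) := by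
  refine ae_of_sinh (Q := fun x : ℝ => 0 < x → Tendsto (fun n : ℕ => (cv val x n : ℝ) / Real.log n) atTop
      (𝓝 (Real.exp Real.eulerMascheroniConstant / Real.log ((x + Real.sqrt (x ^ 2 + 4)) / 2)))) ?_
  have hfam := fam_cur (m1 := 2) (m0 := 0) (s := s) (c0 := 0) two_pos hs (by norm_num) hH hH' hH''
  have hlaw := law_val le_rfl (fun p => measurable_yy 2 0 s hHm p) hfam
    (val := fun p t => val p (2 * Real.sinh t)) hval
  filter_upwards [hlaw] with t ht hx
  have h1 : 0 < t := Real.sinh_pos_iff.1 (by linarith)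
  rw [root_sinh, Real.log_exp]
  exact ht h1

lemma hyp_odd (t : ℝ) {p : ℕ} (hp : Odd p) : (-Real.exp (-t)) ^ p = -(Real.exp (-(p * t))) := by
  rw [hp.neg_pow, ← Real.exp_nat_mul]
  congr 2
  ring

/-- **The law for the Lucas sequences `U_p(x, -1)`, almost every real `x > 0`.** -/
theorem law_U : ∀ᵐ x : ℝ, 0 < x →
    Tendsto (fun n : ℕ => (cv (fun p x => lU x p) x n : ℝ) / Real.log n) atTop
      (𝓝 (Real.exp Real.eulerMascheroniConstant / Real.log ((x + Real.sqrt (x ^ 2 + 4)) / 2))) := by
  have hne : ∀ t : ℝ, 2 * Real.cosh t ≠ 0 := fun t => by have := Real.cosh_pos t; positivity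
  refine law_hyp (s := 1) (by simp) (H := fun t => -Real.log (2 * Real.cosh t))
    (H' := fun t => -(2 * Real.sinh t / (2 * Real.cosh t)))
    (H'' := fun t => -((2 * Real.cosh t * (2 * Real.cosh t) - 2 * Real.sinh t * (2 * Real.sinh t)) /
      (2 * Real.cosh t) ^ 2)) (by fun_prop)
    (fun t _ => (((Real.hasDerivAt_cosh t).const_mul 2).log (hne t)).neg)
    (fun t _ => (((Real.hasDerivAt_sinh t).const_mul 2).div ((Real.hasDerivAt_cosh t).const_mul 2)
      (hne t)).neg)
    (ContinuousOn.neg (ContinuousOn.div (by fun_prop) (by fun_prop)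
      fun t _ => pow_ne_zero 2 (hne t))) (val := fun p x => lU x p) ?_
  intro t ht
  filter_upwards [eventually_ge_atTop 3] with p hp hpp
  have hodd : Odd p := hpp.odd_of_ne_two (by omega)
  have hcl := lU_closed t p
  rw [hyp_odd t hodd, sub_neg_eq_add, ← Real.exp_nat_mul] at hcl
  have hc : 0 < 2 * Real.cosh t := by have := Real.cosh_pos t; positivity
  have e1 : lU (2 * Real.sinh t) p = (Real.exp (p * t) + Real.exp (-(p * t))) / (2 * Real.cosh t) := by
    rw [← hcl]; field_simp
  have h2 : 0 < Real.exp (p * t) + Real.exp (-(p * t)) := by positivity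
  have e2 : Real.exp (p * t) + Real.exp (-(p * t)) =
      Real.exp (p * t) * (1 + 1 * Real.exp (-(p * (2 * t - 0)))) := by
    rw [one_mul, mul_add, mul_one, ← Real.exp_add]
    congr 2
    ring
  refine ⟨by rw [e1]; positivity, ?_⟩
  rw [e1, Real.log_div h2.ne' hc.ne', e2, Real.log_mul (Real.exp_pos _).ne' (by positivity),
    Real.log_exp]
  ring

/-- **The law for `V_p(x, -1) / k`, almost every real `x > 0`.** -/
theorem law_V {k : ℝ} (hk : 0 < k) : ∀ᵐ x : ℝ, 0 < x →
    Tendsto (fun n : ℕ => (cv (fun p x => lV x p / k) x n : ℝ) / Real.log n) atTop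
      (𝓝 (Real.exp Real.eulerMascheroniConstant / Real.log ((x + Real.sqrt (x ^ 2 + 4)) / 2))) := by
  refine law_hyp (s := -1) (by simp) (H := fun _ => -Real.log k) (H' := fun _ => 0)
    (H'' := fun _ => 0) measurable_const (fun t _ => hasDerivAt_const _ _)
    (fun t _ => hasDerivAt_const _ _) continuousOn_const (val := fun p x => lV x p / k) ?_
  intro t ht
  filter_upwards [eventually_ge_atTop 3] with p hp hpp
  have hodd : Odd p := hpp.odd_of_ne_two (by omega)
  have hp0 : (0 : ℝ) < p := by positivity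
  have e1 : lV (2 * Real.sinh t) p = Real.exp (p * t) - Real.exp (-(p * t)) := by
    rw [lV_closed, hyp_odd t hodd, ← Real.exp_nat_mul]; ring
  have h2 : Real.exp (-(p * (2 * t - 0))) < 1 := by
    rw [Real.exp_lt_one_iff]
    have : 0 < p * (2 * t - 0) := by
      rw [sub_zero]; positivity
    linarith
  have e2 : Real.exp (p * t) - Real.exp (-(p * t)) =
      Real.exp (p * t) * (1 + -1 * Real.exp (-(p * (2 * t - 0)))) := by
    rw [neg_one_mul, mul_add, mul_one, mul_neg, ← Real.exp_add, ← sub_eq_add_neg]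
    congr 2
    ring
  have h3 : 0 < Real.exp (p * t) * (1 + -1 * Real.exp (-(p * (2 * t - 0)))) :=
    mul_pos (Real.exp_pos _) (by linarith)
  rw [e1, e2]
  refine ⟨div_pos h3 hk, ?_⟩
  rw [Real.log_div h3.ne' hk.ne', Real.log_mul (Real.exp_pos _).ne' (by linarith), Real.log_exp]
  ring

end Pool.Agent.W66C
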