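import Mathlib
import Pool.Agent.W66.CJ

set_option autoImplicit false

/-!
# The law along `C ^ 2` curves of amplitudes
-/

namespace Pool.Agent.W66C

open Finset Filter Topology MeasureTheory
open Pool.Agent.H447R2.ML (Loc C1 cv compare_counts ff_eq_floor)
open Pool.Agent.W66X (tendsto_transfer ae_of_exp')
open Pool.Agent.H305R2 (roughPart ff)

lemma contdiff_der {A : ℝ → ℝ} {r : ℝ} (h : ContDiffOn ℝ 2 A (Set.Ioi r)) :
    (∀ x, r < x → HasDerivAt A (deriv A x) x) ∧
    (∀ x, r < x → HasDerivAt (deriv A) (deriv (deriv A) x) x) ∧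
    ContinuousOn (deriv (deriv A)) (Set.Ioi r) := by
  have h1 : ContDiffOn ℝ 1 (deriv A) (Set.Ioi r) := h.deriv_of_isOpen isOpen_Ioi (by norm_num)
  have h2 : ContDiffOn ℝ 0 (deriv (deriv A)) (Set.Ioi r) := h1.deriv_of_isOpen isOpen_Ioi (by norm_num)
  refine ⟨fun x hx => ?_, fun x hx => ?_, h2.continuousOn⟩
  · exact ((h.differentiableOn (by norm_num)).differentiableAt (isOpen_Ioi.mem_nhds hx)).hasDerivAt
  · exact ((h1.differentiableOn (by norm_num)).differentiableAt (isOpen_Ioi.mem_nhds hx)).hasDerivAt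

lemma amp {r c0 : ℝ} {A g g' g'' : ℝ → ℝ} (hA : ContDiffOn ℝ 2 A (Set.Ioi r))
    (hpos : ∀ x, r < x → 0 < A x) (hgm : Measurable g) (hg : ∀ t, HasDerivAt g (g' t) t)
    (hg' : ∀ t, HasDerivAt g' (g'' t) t) (hg'' : Continuous g'') (hgr : ∀ t, c0 < t → r < g t) :
    ∃ H H' H'' : ℝ → ℝ, Measurable H ∧ (∀ t, c0 < t → H t = Real.log (A (g t))) ∧
      (∀ t, c0 < t → HasDerivAt H (H' t) t) ∧ (∀ t, c0 < t → HasDerivAt H' (H'' t) t) ∧
      ContinuousOn H'' (Set.Ioi c0) := by
  classical
  obtain ⟨d1, d2, d3⟩ := contdiff_der hA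
  set A1 := deriv A with hA1
  set A2 := deriv (deriv A) with hA2
  set B : ℝ → ℝ := (Set.Ioi r).piecewise A (fun _ => 1) with hB
  have hBm : Measurable B := ContinuousOn.measurable_piecewise hA.continuousOn continuousOn_const
    measurableSet_Ioi
  have hBe : ∀ t, c0 < t → B (g t) = A (g t) := fun t ht => by
    rw [hB]; exact Set.piecewise_eq_of_mem _ _ _ (hgr t ht)
  refine ⟨fun t => Real.log (B (g t)), fun t => A1 (g t) * g' t / A (g t),
    fun t => ((A2 (g t) * g' t * g' t + A1 (g t) * g'' t) * A (g t) -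
      A1 (g t) * g' t * (A1 (g t) * g' t)) / (A (g t)) ^ 2,
    Real.measurable_log.comp (hBm.comp hgm), fun t ht => by simp only [hBe t ht], fun t ht => ?_,
    fun t ht => ?_, ?_⟩
  · have h1 : HasDerivAt (fun t => Real.log (A (g t))) (A1 (g t) * g' t / A (g t)) t :=
      ((d1 _ (hgr t ht)).comp t (hg t)).log (hpos _ (hgr t ht)).ne'
    refine h1.congr_of_eventuallyEq ?_
    filter_upwards [Ioi_mem_nhds ht] with s hs
    rw [hBe s hs]
  · have h1 : HasDerivAt (fun t => A1 (g t)) (A2 (g t) * g' t) t := (d2 _ (hgr t ht)).comp t (hg t)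
    have h2 : HasDerivAt (fun t => A (g t)) (A1 (g t) * g' t) t := (d1 _ (hgr t ht)).comp t (hg t)
    exact (h1.mul (hg' t)).div h2 (hpos _ (hgr t ht)).ne'
  · have hcg : Continuous g := continuous_iff_continuousAt.2 fun t => (hg t).continuousAt
    have hcg' : Continuous g' := continuous_iff_continuousAt.2 fun t => (hg' t).continuousAt
    have hmaps : Set.MapsTo g (Set.Ioi c0) (Set.Ioi r) := fun t ht => hgr t ht
    have c1 : ContinuousOn A1 (Set.Ioi r) := fun x hx => (d2 x hx).continuousAt.continuousWithinAt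
    have k0 : ContinuousOn (fun t => A (g t)) (Set.Ioi c0) := hA.continuousOn.comp hcg.continuousOn hmaps
    have k1 : ContinuousOn (fun t => A1 (g t)) (Set.Ioi c0) := c1.comp hcg.continuousOn hmaps
    have k2 : ContinuousOn (fun t => A2 (g t)) (Set.Ioi c0) := d3.comp hcg.continuousOn hmaps
    refine ContinuousOn.div ?_ (k0.pow 2) fun t ht => pow_ne_zero 2 (hpos _ (hgr t ht)).ne'
    exact ((((k2.mul hcg'.continuousOn).mul hcg'.continuousOn).add (k1.mul hg''.continuousOn)).mul k0).sub
      ((k1.mul hcg'.continuousOn).mul (k1.mul hcg'.continuousOn))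

/-- **The law for `A x * (x ^ p - c ^ p)`, almost every real `x > max 1 |c|`.** -/
theorem law_curve (c : ℝ) {A : ℝ → ℝ} (hA : ContDiffOn ℝ 2 A (Set.Ioi (max 1 |c|)))
    (hApos : ∀ x, max 1 |c| < x → 0 < A x) : ∀ᵐ x : ℝ, max 1 |c| < x →
    Tendsto (fun n : ℕ => (cv (fun p x => A x * (x ^ p - c ^ p)) x n : ℝ) / Real.log n) atTop
      (𝓝 (Real.exp Real.eulerMascheroniConstant / Real.log x)) := by
  set c0 := Real.log (max 1 |c|) with hc0d
  have hmax : (1 : ℝ) ≤ max 1 |c| := le_max_left _ _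
  have hmax0 : (0 : ℝ) < max 1 |c| := by linarith
  have hc0 : 0 ≤ c0 := Real.log_nonneg hmax
  set s : ℝ := -(SignType.sign c : ℝ) with hs
  have hs1 : |s| ≤ 1 := by
    rw [hs, abs_neg]
    rcases lt_trichotomy c 0 with h | h | h
    · rw [sign_neg h]; simp
    · rw [h]; simp
    · rw [sign_pos h]; simp
  have hmc : Real.log |c| ≤ 1 * c0 := by
    rw [one_mul, hc0d]
    rcases (abs_nonneg c).eq_or_lt with h | h
    · rw [← h, Real.log_zero]
      exact Real.log_nonneg (le_max_left _ _)
    · exact Real.log_le_log h (le_max_right _ _)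
  have hexp : ∀ t, c0 < t → max 1 |c| < Real.exp t := fun t ht => (Real.log_lt_iff_lt_exp hmax0).1 ht
  obtain ⟨H, H', H'', hHm, hHe, hH1, hH2, hH3⟩ := amp (c0 := c0) hA hApos (g := Real.exp)
    (g' := Real.exp) (g'' := Real.exp) Real.measurable_exp Real.hasDerivAt_exp Real.hasDerivAt_exp
    Real.continuous_exp hexp
  have hfam := fam_cur (m1 := 1) (m0 := Real.log |c|) (s := s) (c0 := c0) one_pos hs1 hmc hH1 hH2 hH3
  have hlaw := law_val hc0 (fun p => measurable_yy 1 (Real.log |c|) s hHm p) hfam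
    (val := fun p t => A (Real.exp t) * ((Real.exp t) ^ p - c ^ p)) (by
      intro t ht
      filter_upwards [eventually_ge_atTop 3] with p hp hpp
      have hodd : Odd p := hpp.odd_of_ne_two (by omega)
      have h1 := hexp t ht
      have h2 : |c| < Real.exp t := (le_max_right _ _).trans_lt h1
      have h3 : |c ^ p| < (Real.exp t) ^ p := by
        rw [abs_pow]
        exact pow_lt_pow_left₀ h2 (abs_nonneg _) (by omega)
      have h4 : 0 < (Real.exp t) ^ p - c ^ p := by
        have := le_abs_self (c ^ p)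
        linarith
      have hE : 0 < Real.exp t ^ p := by positivity
      have hAp := hApos _ h1
      refine ⟨mul_pos hAp h4, ?_⟩
      rw [Real.log_mul hAp.ne' h4.ne']
      have e1 : s * Real.exp (-(p * (1 * t - Real.log |c|))) = -(c ^ p / (Real.exp t) ^ p) := by
        rcases (abs_nonneg c).eq_or_lt with h | h
        · have hc : c = 0 := abs_eq_zero.1 h.symm
          have hp0 : p ≠ 0 := by omega
          rw [hs, hc]
          simp [hp0]
        · have e2 : Real.exp (-(p * (1 * t - Real.log |c|))) = |c| ^ p / (Real.exp t) ^ p := by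
            have e3 : -((p : ℝ) * (1 * t - Real.log |c|)) = (p : ℝ) * Real.log |c| - p * t := by ring
            rw [e3, Real.exp_sub, Real.exp_nat_mul, Real.exp_nat_mul, Real.exp_log h]
          rw [e2]
          have e4 : s * |c| ^ p = -c ^ p := by
            rw [hs]
            rcases lt_or_gt_of_ne (abs_pos.1 h) with h5 | h5
            · rw [sign_neg h5, abs_of_neg h5, hodd.neg_pow]
              simp
            · rw [sign_pos h5, abs_of_pos h5]
              simp
          rw [← mul_div_assoc, e4, neg_div]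
      have e5 : (Real.exp t) ^ p - c ^ p = (Real.exp t) ^ p * (1 + -(c ^ p / (Real.exp t) ^ p)) := by
        field_simp
        ring
      have h6 : 0 < 1 + -(c ^ p / (Real.exp t) ^ p) := by
        have : c ^ p / (Real.exp t) ^ p < 1 := by
          rw [div_lt_one hE]
          linarith
        linarith
      unfold yy
      rw [e1, e5, Real.log_mul hE.ne' h6.ne', ← Real.exp_nat_mul, Real.log_exp, hHe t ht]
      ring)
  have hfin := ae_of_exp' (P := fun x : ℝ => max 1 |c| < x →
    Tendsto (fun n : ℕ => (cv (fun p x => A x * (x ^ p - c ^ p)) x n : ℝ) / Real.log n) atTop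
      (𝓝 (Real.exp Real.eulerMascheroniConstant / Real.log x))) (by
    filter_upwards [hlaw] with t ht hx
    have h1 : c0 < t := by
      rw [hc0d, Real.log_lt_iff_lt_exp hmax0]
      exact hx
    rw [Real.log_exp]
    exact ht h1)
  filter_upwards [hfin] with x hx h1
  exact hx (by linarith) h1

lemma sinh_pos' {t : ℝ} (ht : 0 < t) : 0 < 2 * Real.sinh t := by
  have := Real.sinh_pos_iff.2 ht
  linarith

/-- **The law for `A x * U_p(x, -1)`, almost every real `x > 0`.** -/
theorem law_U_curve {A : ℝ → ℝ} (hA : ContDiffOn ℝ 2 A (Set.Ioi 0)) (hApos : ∀ x, 0 < x → 0 < A x) :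
    ∀ᵐ x : ℝ, 0 < x →
    Tendsto (fun n : ℕ => (cv (fun p x => A x * lU x p) x n : ℝ) / Real.log n) atTop
      (𝓝 (Real.exp Real.eulerMascheroniConstant / Real.log ((x + Real.sqrt (x ^ 2 + 4)) / 2))) := by
  have hne : ∀ t : ℝ, 2 * Real.cosh t ≠ 0 := fun t => by have := Real.cosh_pos t; positivity
  obtain ⟨H, H', H'', hHm, hHe, hH1, hH2, hH3⟩ := amp (c0 := 0) hA hApos
    (g := fun t => 2 * Real.sinh t) (g' := fun t => 2 * Real.cosh t) (g'' := fun t => 2 * Real.sinh t)
    (by fun_prop) (fun t => (Real.hasDerivAt_sinh t).const_mul 2)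
    (fun t => (Real.hasDerivAt_cosh t).const_mul 2) (by fun_prop) (fun t ht => sinh_pos' ht)
  refine law_hyp (s := 1) (by simp) (H := fun t => H t - Real.log (2 * Real.cosh t))
    (H' := fun t => H' t - (2 * Real.sinh t / (2 * Real.cosh t)))
    (H'' := fun t => H'' t - ((2 * Real.cosh t * (2 * Real.cosh t) - 2 * Real.sinh t * (2 * Real.sinh t)) /
      (2 * Real.cosh t) ^ 2)) (by fun_prop)
    (fun t ht => (hH1 t ht).sub (((Real.hasDerivAt_cosh t).const_mul 2).log (hne t)))
    (fun t ht => (hH2 t ht).sub (((Real.hasDerivAt_sinh t).const_mul 2).div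
      ((Real.hasDerivAt_cosh t).const_mul 2) (hne t)))
    (hH3.sub (ContinuousOn.div (by fun_prop) (by fun_prop)
      fun t _ => pow_ne_zero 2 (hne t))) (val := fun p x => A x * lU x p) ?_
  intro t ht
  filter_upwards [eventually_ge_atTop 3] with p hp hpp
  have hodd : Odd p := hpp.odd_of_ne_two (by omega)
  have hcl := lU_closed t p
  rw [hyp_odd t hodd, sub_neg_eq_add, ← Real.exp_nat_mul] at hcl
  have hc : 0 < 2 * Real.cosh t := by have := Real.cosh_pos t; positivity
  have e1 : lU (2 * Real.sinh t) p = (Real.exp (p * t) + Real.exp (-(p * t))) / (2 * Real.cosh t) := by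
    rw [← hcl]; field_simp
  have h2 : 0 < Real.exp (p * t) + Real.exp (-(p * t)) := by positivity
  have e2 : Real.exp (p * t) + Real.exp (-(p * t)) =
      Real.exp (p * t) * (1 + 1 * Real.exp (-(p * (2 * t - 0)))) := by
    rw [one_mul, mul_add, mul_one, ← Real.exp_add]
    congr 2
    ring
  have hAp := hApos _ (sinh_pos' ht)
  have h3 : 0 < lU (2 * Real.sinh t) p := by rw [e1]; positivity
  refine ⟨mul_pos hAp h3, ?_⟩
  rw [Real.log_mul hAp.ne' h3.ne', e1, Real.log_div h2.ne' hc.ne', e2,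
    Real.log_mul (Real.exp_pos _).ne' (by positivity), Real.log_exp, hHe t ht]
  ring

/-- **The law for `A x * V_p(x, -1)`, almost every real `x > 0`.** -/
theorem law_V_curve {A : ℝ → ℝ} (hA : ContDiffOn ℝ 2 A (Set.Ioi 0)) (hApos : ∀ x, 0 < x → 0 < A x) :
    ∀ᵐ x : ℝ, 0 < x →
    Tendsto (fun n : ℕ => (cv (fun p x => A x * lV x p) x n : ℝ) / Real.log n) atTop
      (𝓝 (Real.exp Real.eulerMascheroniConstant / Real.log ((x + Real.sqrt (x ^ 2 + 4)) / 2))) := by
  obtain ⟨H, H', H'', hHm, hHe, hH1, hH2, hH3⟩ := amp (c0 := 0) hA hApos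
    (g := fun t => 2 * Real.sinh t) (g' := fun t => 2 * Real.cosh t) (g'' := fun t => 2 * Real.sinh t)
    (by fun_prop) (fun t => (Real.hasDerivAt_sinh t).const_mul 2)
    (fun t => (Real.hasDerivAt_cosh t).const_mul 2) (by fun_prop) (fun t ht => sinh_pos' ht)
  refine law_hyp (s := -1) (by simp) hHm hH1 hH2 hH3 (val := fun p x => A x * lV x p) ?_
  intro t ht
  filter_upwards [eventually_ge_atTop 3] with p hp hpp
  have hodd : Odd p := hpp.odd_of_ne_two (by omega)
  have hp0 : (0 : ℝ) < p := by positivity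
  have e1 : lV (2 * Real.sinh t) p = Real.exp (p * t) - Real.exp (-(p * t)) := by
    rw [lV_closed, hyp_odd t hodd, ← Real.exp_nat_mul]; ring
  have h2 : Real.exp (-(p * (2 * t - 0))) < 1 := by
    rw [Real.exp_lt_one_iff]
    have : 0 < p * (2 * t - 0) := by
      rw [sub_zero]; positivity
    linarith
  have e2 : Real.exp (p * t) - Real.exp (-(p * t)) =
      Real.exp (p * t) * (1 + -1 * Real.exp (-(p * (2 * t - 0)))) := by
    rw [neg_one_mul, mul_add, mul_one, mul_neg, ← Real.exp_add, ← sub_eq_add_neg]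
    congr 2
    ring
  have h3 : 0 < Real.exp (p * t) * (1 + -1 * Real.exp (-(p * (2 * t - 0)))) :=
    mul_pos (Real.exp_pos _) (by linarith)
  have hAp := hApos _ (sinh_pos' ht)
  rw [e1, e2]
  refine ⟨mul_pos hAp h3, ?_⟩
  rw [Real.log_mul hAp.ne' h3.ne', Real.log_mul (Real.exp_pos _).ne' (by linarith), Real.log_exp, hHe t ht]
  ring

end Pool.Agent.W66C
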