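import Mathlib
import Pool.Agent.W66.GF
import Pool.Agent.H447R2.ML.Spec

set_option autoImplicit false

/-!
# The silver ratio and the negative Pell equation
-/

namespace Pool.Agent.W66V

open Finset

/-- `(sol n).1 + (sol n).2 √2 = (1 + √2) ^ n` -/
def sol : ℕ → ℕ × ℕ
  | 0 => (1, 0)
  | (n + 1) => ((sol n).1 + 2 * (sol n).2, (sol n).1 + (sol n).2)

lemma sol_succ1 (n : ℕ) : (sol (n + 1)).1 = (sol n).1 + 2 * (sol n).2 := rfl
lemma sol_succ2 (n : ℕ) : (sol (n + 1)).2 = (sol n).1 + (sol n).2 := rfl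

lemma sol_pow : ∀ n : ℕ, (1 + Real.sqrt 2) ^ n = (sol n).1 + (sol n).2 * Real.sqrt 2 ∧
    (1 - Real.sqrt 2) ^ n = (sol n).1 - (sol n).2 * Real.sqrt 2
  | 0 => by simp [sol]
  | (n + 1) => by
      obtain ⟨h1, h2⟩ := sol_pow n
      have hs : Real.sqrt 2 * Real.sqrt 2 = 2 := Real.mul_self_sqrt (by norm_num)
      rw [pow_succ, pow_succ, h1, h2, sol_succ1, sol_succ2]
      push_cast
      constructor
      · linear_combination ((sol n).2 : ℝ) * hs
      · linear_combination ((sol n).2 : ℝ) * hs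

lemma sol1_pos : ∀ n : ℕ, 0 < (sol n).1
  | 0 => one_pos
  | (n + 1) => by rw [sol_succ1]; have := sol1_pos n; omega

lemma sol2_pos : ∀ n : ℕ, 0 < (sol (n + 1)).2
  | 0 => by rw [sol_succ2]; exact Nat.add_pos_left (sol1_pos 0) _
  | (n + 1) => by rw [sol_succ2]; have := sol1_pos (n + 1); omega

lemma irr_silver_pow {h : ℕ} (hh : 1 ≤ h) : Irrational ((1 + Real.sqrt 2) ^ h) := by
  obtain ⟨n, rfl⟩ := Nat.exists_eq_add_of_le' hh
  rw [(sol_pow (n + 1)).1]
  have h1 : (sol (n + 1)).2 ≠ 0 := (sol2_pos n).ne'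
  have h2 : Irrational (((sol (n + 1)).2 : ℝ) * Real.sqrt 2) := by
    rw [mul_comm]; exact irrational_sqrt_two.mul_natCast h1
  rw [add_comm]
  exact h2.add_natCast _

lemma silver_conj_abs : |1 - Real.sqrt 2| < 1 := by
  have h1 : 1 < Real.sqrt 2 := by rw [Real.lt_sqrt (by norm_num)]; norm_num
  have h2 : Real.sqrt 2 < 2 := by rw [Real.sqrt_lt' (by norm_num)]; norm_num
  rw [abs_lt]
  constructor <;> linarith

lemma noCoinc_silver : NoCoinc (1 + Real.sqrt 2) 1 := by
  have hs : Real.sqrt 2 * Real.sqrt 2 = 2 := Real.mul_self_sqrt (by norm_num)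
  have h := noCoinc_quad (P := 2) (Q := -1) (α := 1 + Real.sqrt 2) (ψ := 1 - Real.sqrt 2)
    (by push_cast; ring) (by push_cast; linear_combination -hs) (fun h hh => irr_silver_pow hh)
  have e : max 1 |1 - Real.sqrt 2| = 1 := max_eq_left silver_conj_abs.le
  rwa [e] at h

/-- relation with the Lucas sequences for the parameters `(2, -1)` -/
lemma sol_UV : ∀ n : ℕ, Pool.Agent.H447R2.ML.V 2 n = 2 * (sol n).1 ∧
    Pool.Agent.H447R2.ML.U 2 n = (sol n).2 ∧
    Pool.Agent.H447R2.ML.V 2 (n + 1) = 2 * (sol (n + 1)).1 ∧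
    Pool.Agent.H447R2.ML.U 2 (n + 1) = (sol (n + 1)).2
  | 0 => by simp [sol, Pool.Agent.H447R2.ML.V, Pool.Agent.H447R2.ML.U]
  | (n + 1) => by
      obtain ⟨h1, h2, h3, h4⟩ := sol_UV n
      refine ⟨h3, h4, ?_, ?_⟩
      · rw [Pool.Agent.H447R2.ML.V_add_two, h3, h1, sol_succ1 (n + 1), sol_succ1 n, sol_succ2 n]
        ring
      · rw [Pool.Agent.H447R2.ML.U_add_two, h4, h2, sol_succ2 (n + 1), sol_succ1 n, sol_succ2 n]
        ring

lemma sol_norm : ∀ n : ℕ, ((sol n).1 : ℤ) ^ 2 - 2 * ((sol n).2 : ℤ) ^ 2 = (-1) ^ n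
  | 0 => by simp [sol]
  | (n + 1) => by
      have h := sol_norm n
      rw [sol_succ1, sol_succ2, pow_succ]
      push_cast
      linear_combination -h

lemma sol_two (n : ℕ) : sol (n + 2) = (3 * (sol n).1 + 4 * (sol n).2, 2 * (sol n).1 + 3 * (sol n).2) := by
  ext
  · rw [sol_succ1 (n + 1), sol_succ1, sol_succ2]; ring
  · rw [sol_succ2 (n + 1), sol_succ1, sol_succ2]; ring

/-- the solutions of the negative Pell equation -/
theorem pell_class : ∀ y x : ℕ, x ^ 2 + 1 = 2 * y ^ 2 → ∃ k : ℕ, sol (2 * k + 1) = (x, y) := by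
  intro y
  induction y using Nat.strong_induction_on with
  | _ y ih =>
    intro x hx
    rcases Nat.lt_or_ge y 3 with h3 | h3
    · interval_cases y
      · simp at hx
      · have : x = 1 := by nlinarith
        subst this
        exact ⟨0, rfl⟩
      · exfalso
        have h1 : x ^ 2 = 7 := by omega
        have h2 : x ≤ 2 := by nlinarith
        interval_cases x <;> omega
    · have h1 : 2 * x < 3 * y := by
        by_contra hc
        push Not at hc
        nlinarith
      have h2 : y < x := by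
        by_contra hc
        push Not at hc
        nlinarith
      have h4 : 4 * y < 3 * x := by
        by_contra hc
        push Not at hc
        nlinarith
      obtain ⟨k, hk⟩ := ih (3 * y - 2 * x) (by omega) (3 * x - 4 * y) (by
        zify [h1.le, h4.le]
        have hx' : (x : ℤ) ^ 2 + 1 = 2 * (y : ℤ) ^ 2 := by exact_mod_cast hx
        linear_combination hx')
      refine ⟨k + 1, ?_⟩
      rw [show 2 * (k + 1) + 1 = (2 * k + 1) + 2 by ring, sol_two, hk]
      ext
      · show 3 * (3 * x - 4 * y) + 4 * (3 * y - 2 * x) = x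
        omega
      · show 2 * (3 * x - 4 * y) + 3 * (3 * y - 2 * x) = y
        omega

/-- `(sol m).1` divides `(sol (m (2 j + 1))).1` -/
lemma sol1_dvd (m : ℕ) : ∀ j : ℕ, (sol m).1 ∣ (sol (m * (2 * j + 1))).1 := by
  have key : ∀ j : ℕ, ∃ A B : ℤ, (1 + Real.sqrt 2) ^ (m * (2 * j + 1)) =
      ((sol m).1 : ℝ) * A + B * Real.sqrt 2 := by
    intro j
    induction j with
    | zero => exact ⟨1, (sol m).2, by rw [mul_zero, zero_add, mul_one, (sol_pow m).1]; push_cast; ring⟩
    | succ j ih =>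
      obtain ⟨A, B, h⟩ := ih
      have hs : Real.sqrt 2 * Real.sqrt 2 = 2 := Real.mul_self_sqrt (by norm_num)
      refine ⟨A * ((sol m).1 ^ 2 + 2 * (sol m).2 ^ 2) + 4 * B * (sol m).2,
        2 * (sol m).1 ^ 2 * (sol m).2 * A + B * ((sol m).1 ^ 2 + 2 * (sol m).2 ^ 2), ?_⟩
      rw [show m * (2 * (j + 1) + 1) = m * (2 * j + 1) + (m + m) by ring, pow_add, pow_add, h,
        (sol_pow m).1]
      push_cast
      generalize ((sol m).1 : ℝ) = a
      generalize ((sol m).2 : ℝ) = b
      generalize (A : ℝ) = A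
      generalize (B : ℝ) = B
      linear_combination (a * A * b ^ 2 + 2 * a * b * B + B * b ^ 2 * Real.sqrt 2) * hs
  intro j
  obtain ⟨A, B, h⟩ := key j
  rw [(sol_pow _).1] at h
  have hirr := irrational_sqrt_two
  have h2 : (((sol (m * (2 * j + 1))).1 : ℤ) - (sol m).1 * A : ℝ) =
      (B - ((sol (m * (2 * j + 1))).2 : ℤ) : ℝ) * Real.sqrt 2 := by
    push_cast
    linear_combination h
  have h3 : B - ((sol (m * (2 * j + 1))).2 : ℤ) = 0 := by
    by_contra hc
    have h4 : Irrational ((B - ((sol (m * (2 * j + 1))).2 : ℤ) : ℤ) * Real.sqrt 2 : ℝ) := by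
      rw [mul_comm]; exact hirr.mul_intCast hc
    apply h4
    refine ⟨((((sol (m * (2 * j + 1))).1 : ℤ) - (sol m).1 * A : ℤ) : ℚ), ?_⟩
    push_cast
    push_cast at h2
    linarith
  have h5 : (((sol (m * (2 * j + 1))).1 : ℤ) : ℝ) = (((sol m).1 : ℤ) * A : ℤ) := by
    have h6 : (B - ((sol (m * (2 * j + 1))).2 : ℤ) : ℝ) = 0 := by
      have : ((B - ((sol (m * (2 * j + 1))).2 : ℤ) : ℤ) : ℝ) = 0 := by rw [h3]; simp
      push_cast at this ⊢
      exact this
    rw [h6, zero_mul] at h2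
    push_cast at h2 ⊢
    linarith
  have h7 : ((sol (m * (2 * j + 1))).1 : ℤ) = ((sol m).1 : ℤ) * A := by exact_mod_cast h5
  exact Int.natCast_dvd_natCast.1 ⟨A, h7⟩

lemma sol1_strict : ∀ n : ℕ, (sol (n + 1)).1 < (sol (n + 2)).1 := by
  intro n
  rw [sol_succ1 (n + 1)]
  have := sol2_pos n
  omega

lemma sol1_mono {m n : ℕ} (hm : 1 ≤ m) (h : m < n) : (sol m).1 < (sol n).1 := by
  induction n with
  | zero => omega
  | succ n ih =>
    have hs : (sol n).1 < (sol (n + 1)).1 := by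
      obtain ⟨k, rfl⟩ : ∃ k, n = k + 1 := ⟨n - 1, by omega⟩
      exact sol1_strict k
    rcases Nat.lt_or_ge m n with h1 | h1
    · exact (ih h1).trans hs
    · have : m = n := by omega
      rw [this]; exact hs

/-- an odd index with a prime value is prime -/
lemma sol1_prime_index {n : ℕ} (ho : Odd n) (h : (sol n).1.Prime) : n.Prime := by
  by_contra hn
  have hn1 : n ≠ 1 := by
    rintro rfl
    exact Nat.not_prime_one (by simpa [sol] using h)
  have hn0 : n ≠ 0 := by rintro rfl; exact absurd ho (by decide)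
  obtain ⟨e, he⟩ := Nat.minFac_dvd n
  set m := n.minFac with hm
  have hmp : m.Prime := Nat.minFac_prime hn1
  have hmn : m < n := (Nat.not_prime_iff_minFac_lt (by omega)).1 hn
  have hoe : Odd (m * e) := he ▸ ho
  obtain ⟨j, hj⟩ := (Nat.odd_mul.1 hoe).2
  have hd : (sol m).1 ∣ (sol n).1 := by
    have := sol1_dvd m j
    rwa [← hj, ← he] at this
  rcases (Nat.dvd_prime h).1 hd with h1 | h1
  · have := sol1_mono (m := 1) le_rfl hmp.one_lt
    rw [h1] at this
    simp [sol] at this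
  · have := sol1_mono hmp.one_lt.le hmn
    omega

end Pool.Agent.W66V
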