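import Mathlib
import Pool.Agent.W66.GH
import Pool.Agent.W66.GG

set_option autoImplicit false

/-!
# Pairs of rough parts: almost every amplitude
-/

namespace Pool.Agent.W66V

open Finset MeasureTheory Filter Topology
open Pool.Agent.W66X (ysh measurable_ysh pert8 exp_ysh)
open Pool.Agent.H305R2 (roughPart NN ff measurable_ff ff_nonneg ff_le_one)

lemma countable_avoid {a b : ℝ} (ha : a ≠ 0) (m : ℕ) : {t : ℝ | Real.exp t * a + b = m}.Countable := by
  refine Set.Subsingleton.countable ?_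
  intro s hs t ht
  simp only [Set.mem_ofPred_eq] at hs ht
  have h3 : Real.exp s * a = Real.exp t * a := by linarith
  exact Real.exp_injective (mul_right_cancel₀ ha h3)

lemma avoid {a b : ℕ → ℝ} (ha : ∀ p, a p ≠ 0) : ∀ᵐ t : ℝ, ∀ p m : ℕ, Real.exp t * a p + b p ≠ m := by
  have hnull : volume (⋃ p : ℕ, ⋃ m : ℕ, {t : ℝ | Real.exp t * a p + b p = m}) = 0 :=
    Set.Countable.measure_zero (Set.countable_iUnion fun p => Set.countable_iUnion fun m =>
      countable_avoid (ha p) m) volume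
  have hae : ∀ᵐ t : ℝ, t ∉ ⋃ p : ℕ, ⋃ m : ℕ, {t : ℝ | Real.exp t * a p + b p = m} := by
    rw [ae_iff]
    refine measure_mono_null (fun t ht => ?_) hnull
    simpa only [Set.mem_ofPred_eq, not_not] using ht
  filter_upwards [hae] with t ht p m hm
  refine ht ?_
  simp only [Set.mem_iUnion]
  exact ⟨p, m, hm⟩

/-- **Two linear forms at the same exponent: only finitely many exponents have both rough parts
prime, for almost every amplitude.** -/
theorem pairs_ae {α κ C A ρ : ℝ} (hα : 1 < α) (hκ0 : 0 ≤ κ) (hκ : κ < α) {g k : ℕ → ℝ}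
    (hg : ∀ p, |g p| ≤ C * κ ^ p) (hk : ∀ p, |k p| ≤ C * κ ^ p)
    (hA : 1 ≤ A) (hAα : A < α) (hρ : 1 ≤ ρ)
    (hdio : ∀ a b : ℕ, 1 ≤ a → 1 ≤ b → 1 ≤ |(a : ℝ) - b * ρ| * (A * (a + b))) :
    ∀ᵐ β : ℝ, 0 < β → {n : ℕ | (roughPart n ⌊β * α ^ n + g n⌋₊).Prime ∧
      (roughPart n ⌊ρ * (β * α ^ n) + (ρ * g n + k n)⌋₊).Prime}.Finite := by
  have hα0 : 0 < α := by linarith
  have hρ0 : 0 < ρ := by linarith
  refine Pool.Agent.H447R2.ML.ae_exp1 (P := fun β : ℝ =>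
    {n : ℕ | (roughPart n ⌊β * α ^ n + g n⌋₊).Prime ∧
      (roughPart n ⌊ρ * (β * α ^ n) + (ρ * g n + k n)⌋₊).Prime}.Finite) ?_
  have hw : ∀ j : ℤ, ∀ᵐ t : ℝ, t ∈ Set.Ioc (j : ℝ) (j + 1) → ∀ᶠ p : ℕ in atTop,
      ff p (ysh α g p t) * ff p (Real.log (ρ * Real.exp (ysh α g p t) + k p)) < 1 := by
    intro j
    obtain ⟨K, hK, P, hP⟩ := pair_int hα hκ0 hκ hg hk hA hAα hρ hdio (j : ℝ)
    have h := bc (b0 := (j : ℝ)) (F := fun p t => ff p (ysh α g p t) *
      ff p (Real.log (ρ * Real.exp (ysh α g p t) + k p)))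
      (fun p => ((measurable_ff p).comp (measurable_ysh _ _ _)).mul
        ((measurable_ff p).comp (Real.measurable_log.comp
          (((Real.measurable_exp.comp (measurable_ysh _ _ _)).const_mul _).add_const _))))
      (fun p t => mul_nonneg (ff_nonneg _ _) (ff_nonneg _ _))
      (fun p t => mul_le_one₀ (ff_le_one _ _) (ff_nonneg _ _) (ff_le_one _ _)) hK hP
    exact (ae_restrict_iff' measurableSet_Ioc).1 h
  have ha1 := avoid (a := fun n : ℕ => α ^ n) (b := g) (fun n => (pow_pos hα0 n).ne')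
  have ha2 := avoid (a := fun n : ℕ => ρ * α ^ n) (b := fun n => ρ * g n + k n)
    (fun n => (mul_pos hρ0 (pow_pos hα0 n)).ne')
  filter_upwards [ae_all_iff.2 hw, ha1, ha2] with t ht h1 h2
  have hev := ht (⌈t⌉ - 1) ⟨by push_cast; linarith [Int.ceil_lt_add_one t],
    by push_cast; linarith [Int.le_ceil t]⟩
  have hsmall := pert8 hα0 hκ0 hκ hg t 8
  have hg2 : ∀ p, |ρ * g p + k p| ≤ ((ρ + 1) * C) * κ ^ p := by
    intro p
    calc |ρ * g p + k p| ≤ |ρ * g p| + |k p| := abs_add_le _ _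
      _ = ρ * |g p| + |k p| := by rw [abs_mul, abs_of_pos hρ0]
      _ ≤ ρ * (C * κ ^ p) + C * κ ^ p := by
          have h1 := mul_le_mul_of_nonneg_left (hg p) hρ0.le
          have h2 := hk p
          linarith
      _ = _ := by ring
  have hsmall2 := pert8 hα0 hκ0 hκ hg2 t 8
  obtain ⟨P, hP⟩ := eventually_atTop.1 (hev.and (hsmall.and hsmall2))
  refine (Set.finite_lt_nat P).subset fun n hn => ?_
  by_contra hc
  have hPn : P ≤ n := not_lt.1 hc
  obtain ⟨h3, h4, h5⟩ := hP n hPn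
  obtain ⟨e1, e2, _⟩ := exp_ysh hα0 h4 (t := t) le_rfl
  have hy : ff n (ysh α g n t) = 1 := by
    unfold ysh
    rw [Pool.Agent.H447R2.ML.ff_eq_floor e2 (fun m => h1 n m), if_pos hn.1]
  have e3 : ρ * Real.exp (ysh α g n t) + k n = ρ * (Real.exp t * α ^ n) + (ρ * g n + k n) := by
    rw [e1]; ring
  have e4 : 0 < ρ * (Real.exp t * α ^ n) + (ρ * g n + k n) := by
    have h6 := (exp_ysh (g := fun p => ρ * g p + k p) hα0 h5 (t := t) le_rfl).2.1
    have h7 : Real.exp t * α ^ n ≤ ρ * (Real.exp t * α ^ n) :=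
      le_mul_of_one_le_left (by positivity) hρ
    linarith
  have hx : ff n (Real.log (ρ * Real.exp (ysh α g n t) + k n)) = 1 := by
    rw [e3, Pool.Agent.H447R2.ML.ff_eq_floor e4 (fun m => ?_), if_pos hn.2]
    have := h2 n m
    intro h8
    apply this
    rw [← h8]; ring
  rw [hy, hx] at h3
  norm_num at h3

lemma dio_sqrt2 : ∀ a b : ℕ, 1 ≤ a → 1 ≤ b →
    1 ≤ |(a : ℝ) - b * Real.sqrt 2| * (Real.sqrt 2 * (a + b)) := by
  intro a b ha hb
  have hs : Real.sqrt 2 * Real.sqrt 2 = 2 := Real.mul_self_sqrt (by norm_num)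
  have h1 : 1 ≤ Real.sqrt 2 := Real.one_le_sqrt.2 (by norm_num)
  have ha0 : (0 : ℝ) < a := by exact_mod_cast ha
  have hb0 : (0 : ℝ) < b := by exact_mod_cast hb
  have hz : ((a : ℤ) ^ 2 - 2 * b ^ 2 : ℤ) ≠ 0 := by
    intro h0
    have h2 : Irrational ((b : ℝ) * Real.sqrt 2) := by
      rw [mul_comm]; exact irrational_sqrt_two.mul_natCast (by omega)
    have h3 : ((a : ℝ)) ^ 2 = (b * Real.sqrt 2) ^ 2 := by
      have : ((a : ℝ)) ^ 2 - 2 * (b : ℝ) ^ 2 = 0 := by exact_mod_cast h0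
      rw [mul_pow, Real.sq_sqrt (by norm_num)]; linarith
    have h4 : (a : ℝ) = b * Real.sqrt 2 := by
      rwa [sq_eq_sq₀ ha0.le (by positivity)] at h3
    rw [← h4] at h2
    exact h2.ne_nat a rfl
  have hz1 : (1 : ℝ) ≤ |(a : ℝ) ^ 2 - 2 * (b : ℝ) ^ 2| := by
    have : 1 ≤ |(a : ℤ) ^ 2 - 2 * b ^ 2| := Int.one_le_abs hz
    exact_mod_cast this
  have e : (a : ℝ) ^ 2 - 2 * (b : ℝ) ^ 2 = (a - b * Real.sqrt 2) * (a + b * Real.sqrt 2) := by
    linear_combination (b : ℝ) ^ 2 * hs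
  rw [e, abs_mul, abs_of_pos (by positivity : 0 < (a : ℝ) + b * Real.sqrt 2)] at hz1
  refine hz1.trans (mul_le_mul_of_nonneg_left ?_ (abs_nonneg _))
  have : (a : ℝ) ≤ Real.sqrt 2 * a := le_mul_of_one_le_left ha0.le h1
  linarith

end Pool.Agent.W66V
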