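import Mathlib
import Pool.Agent.W66.CK
import Pool.Agent.W66.GH

set_option autoImplicit false

/-!
# Pairs of curve families at the same exponent
-/

namespace Pool.Agent.W66C

open Finset Filter Topology MeasureTheory
open Pool.Agent.H447R2.ML (Loc C1 cv compare_counts ff_eq_floor)
open Pool.Agent.W66X (tendsto_transfer ae_of_exp')
open Pool.Agent.H305R2 (roughPart ff measurable_ff ff_nonneg ff_le_one)

lemma Cur.mono {a0 a1 D D' : ℝ} {h1 : ℝ → ℝ} {p : ℕ} {y y' y'' : ℝ → ℝ}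
    (h : Cur a0 a1 D h1 p y y' y'') (hD : D ≤ D') : Cur a0 a1 D' h1 p y y' y'' :=
  ⟨⟨fun t ht => (h.loc.near t ht).trans hD, h.loc.der, fun t ht => (h.loc.slope t ht).trans hD⟩,
    h.der2, h.cont2, h.slope, fun t ht => (h.curv t ht).trans hD⟩

/-- **Pairs at the same exponent.** -/
theorem pairs_cur {c0 : ℝ} (hc0 : 0 ≤ c0) {h1 h2 : ℝ → ℝ} {y y' y'' z z' z'' : ℕ → ℝ → ℝ}
    (hym : ∀ p, Measurable (y p)) (hzm : ∀ p, Measurable (z p))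
    (hy : ∀ a0 a1 : ℝ, c0 < a0 → a0 < a1 → ∃ D : ℝ, 0 ≤ D ∧
      ∀ᶠ p : ℕ in atTop, Cur a0 a1 D h1 p (y p) (y' p) (y'' p))
    (hz : ∀ a0 a1 : ℝ, c0 < a0 → a0 < a1 → ∃ D : ℝ, 0 ≤ D ∧
      ∀ᶠ p : ℕ in atTop, Cur a0 a1 D h2 p (z p) (z' p) (z'' p))
    (hd : ∀ a0 a1 : ℝ, c0 < a0 → a0 < a1 → ∃ δ : ℝ, 0 < δ ∧
      ∀ᶠ p : ℕ in atTop, ∀ t ∈ Set.Icc a0 a1, δ ≤ z' p t - y' p t) :
    ∀ᵐ t : ℝ, c0 < t → ∀ᶠ p : ℕ in atTop, ff p (y p t) * ff p (z p t) < 1 := by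
  have hwin : ∀ b0 : ℝ, c0 < b0 → ∀ᵐ t ∂(volume.restrict (Set.Ioc b0 (b0 + 1))),
      ∀ᶠ p : ℕ in atTop, ff p (y p t) * ff p (z p t) < 1 := by
    intro b0 hb0
    set a0 := (c0 + b0) / 2 with ha0d
    set a1 := b0 + 2 with ha1d
    have ha0 : 0 < a0 := by rw [ha0d]; linarith
    have h0 : a0 < b0 := by rw [ha0d]; linarith
    have hc0' : c0 < a0 := by rw [ha0d]; linarith
    obtain ⟨D1, hD1, hev1⟩ := hy a0 a1 hc0' (by linarith)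
    obtain ⟨D2, hD2, hev2⟩ := hz a0 a1 hc0' (by linarith)
    obtain ⟨δ, hδ, hevd⟩ := hd a0 a1 hc0' (by linarith)
    obtain ⟨K, hK, P1, hnear⟩ := near_c (h1 := h1) (h2 := h2) (a0 := a0) (a1 := a1)
      (D := max D1 D2) (b0 := b0) (b1 := b0 + 1) (δ := min δ 1) ha0 (le_max_of_le_left hD1) h0
      (by linarith) (by rw [ha1d]; linarith) (lt_min hδ one_pos) (min_le_right _ _)
    obtain ⟨P2, hP2⟩ := eventually_atTop.1 (hev1.and (hev2.and hevd))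
    exact Pool.Agent.W66V.bc (b0 := b0) (F := fun p t => ff p (y p t) * ff p (z p t))
      (fun p => ((measurable_ff p).comp (hym p)).mul ((measurable_ff p).comp (hzm p)))
      (fun p t => mul_nonneg (ff_nonneg _ _) (ff_nonneg _ _))
      (fun p t => mul_le_one₀ (ff_le_one _ _) (ff_nonneg _ _) (ff_le_one _ _)) hK (P := P1 + P2)
      (fun p hp => by
        obtain ⟨e1, e2, e3⟩ := hP2 p (by omega)
        exact hnear p (by omega) p le_rfl (by omega) _ _ _ _ _ _ (e1.mono (le_max_left _ _))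
          (e2.mono (le_max_right _ _)) (fun t ht => (min_le_left _ _).trans (e3 t ht)))
  have h2 : ∀ k j : ℕ, ∀ᵐ t : ℝ, t ∈ Set.Ioc (c0 + 1 / ((k : ℝ) + 1) + j) (c0 + 1 / ((k : ℝ) + 1) + j + 1) →
      ∀ᶠ p : ℕ in atTop, ff p (y p t) * ff p (z p t) < 1 := fun k j => by
    have hk : (0 : ℝ) ≤ k := Nat.cast_nonneg k
    have hj : (0 : ℝ) ≤ j := Nat.cast_nonneg j
    have h3 : 0 < 1 / ((k : ℝ) + 1) := by positivity
    exact (ae_restrict_iff' measurableSet_Ioc).1 (hwin _ (by linarith))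
  filter_upwards [ae_all_iff.2 fun k => ae_all_iff.2 (h2 k)] with t ht htc
  have htc' : 0 < t - c0 := by linarith
  obtain ⟨k, hk⟩ := exists_nat_gt (1 / (t - c0))
  have h3 : 1 / ((k : ℝ) + 1) < t - c0 := by
    rw [div_lt_iff₀ htc'] at hk
    rw [div_lt_iff₀ (by positivity)]
    linarith
  set r := t - c0 - 1 / ((k : ℝ) + 1) with hr
  have hr0 : 0 < r := by rw [hr]; linarith
  have hc1 : 0 < ⌈r⌉₊ := Nat.ceil_pos.2 hr0
  have hc2 : r ≤ ⌈r⌉₊ := Nat.le_ceil r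
  have hc3 : (⌈r⌉₊ : ℝ) < r + 1 := Nat.ceil_lt_add_one hr0.le
  have hc4 : (((⌈r⌉₊ - 1 : ℕ)) : ℝ) = (⌈r⌉₊ : ℝ) - 1 := by
    rw [Nat.cast_sub hc1, Nat.cast_one]
  refine ht k (⌈r⌉₊ - 1) ⟨?_, ?_⟩
  · rw [hc4]; linarith
  · rw [hc4]; linarith

/-- **Pairs at the same exponent, integer parts.** -/
theorem pairs_val {c0 : ℝ} (hc0 : 0 ≤ c0) {h1 h2 : ℝ → ℝ} {y y' y'' z z' z'' : ℕ → ℝ → ℝ}
    (hym : ∀ p, Measurable (y p)) (hzm : ∀ p, Measurable (z p))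
    (hy : ∀ a0 a1 : ℝ, c0 < a0 → a0 < a1 → ∃ D : ℝ, 0 ≤ D ∧
      ∀ᶠ p : ℕ in atTop, Cur a0 a1 D h1 p (y p) (y' p) (y'' p))
    (hz : ∀ a0 a1 : ℝ, c0 < a0 → a0 < a1 → ∃ D : ℝ, 0 ≤ D ∧
      ∀ᶠ p : ℕ in atTop, Cur a0 a1 D h2 p (z p) (z' p) (z'' p))
    (hd : ∀ a0 a1 : ℝ, c0 < a0 → a0 < a1 → ∃ δ : ℝ, 0 < δ ∧
      ∀ᶠ p : ℕ in atTop, ∀ t ∈ Set.Icc a0 a1, δ ≤ z' p t - y' p t)
    {Q : ℕ → Prop} {val wal : ℕ → ℝ → ℝ}
    (hval : ∀ t, c0 < t → ∀ᶠ p : ℕ in atTop, Q p → 0 < val p t ∧ Real.log (val p t) = y p t)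
    (hwal : ∀ t, c0 < t → ∀ᶠ p : ℕ in atTop, Q p → 0 < wal p t ∧ Real.log (wal p t) = z p t) :
    ∀ᵐ t : ℝ, c0 < t → {p : ℕ | Q p ∧ (roughPart p ⌊val p t⌋₊).Prime ∧
      (roughPart p ⌊wal p t⌋₊).Prime}.Finite := by
  filter_upwards [pairs_cur hc0 hym hzm hy hz hd, ne_nat_ae hy, ne_nat_ae hz] with t k1 k2 k3 htc
  obtain ⟨P1, hP1⟩ := k2 htc
  obtain ⟨P2, hP2⟩ := k3 htc
  obtain ⟨P3, hP3⟩ := eventually_atTop.1 ((k1 htc).and ((hval t htc).and (hwal t htc)))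
  refine (Set.finite_lt_nat (P1 + P2 + P3)).subset fun n hn => ?_
  by_contra hc
  have hPn : P1 + P2 + P3 ≤ n := not_lt.1 hc
  obtain ⟨n1, n2, n3⟩ := hn
  obtain ⟨g1, g2, g3⟩ := hP3 n (by omega)
  obtain ⟨v1, v2⟩ := g2 n1
  obtain ⟨w1, w2⟩ := g3 n1
  have f1 : ff n (y n t) = 1 := by
    rw [← v2, ff_eq_floor v1 (fun m hm => hP1 n (by omega) m (by rw [← v2, Real.exp_log v1]; exact hm)),
      if_pos n2]
  have f2 : ff n (z n t) = 1 := by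
    rw [← w2, ff_eq_floor w1 (fun m hm => hP2 n (by omega) m (by rw [← w2, Real.exp_log w1]; exact hm)),
      if_pos n3]
  rw [f1, f2] at g1
  norm_num at g1

/-- the perturbation of the slope tends to zero -/
lemma slope_small {m1 m0 s c0 : ℝ} (hm1 : 0 < m1) (hs : |s| ≤ 1) (hc : m0 ≤ m1 * c0)
    {H' : ℝ → ℝ} {a0 a1 : ℝ} (ha0 : c0 < a0) {ε : ℝ} (hε : 0 < ε) :
    ∀ᶠ p : ℕ in atTop, ∀ t ∈ Set.Icc a0 a1, |yy1 m1 m0 s H' p t - p - H' t| ≤ ε := by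
  set μ0 := m1 * a0 - m0 with hμ0
  have hμ0pos : 0 < μ0 := by
    have : m1 * c0 < m1 * a0 := mul_lt_mul_of_pos_left ha0 hm1
    rw [hμ0]; linarith
  have hlin : Tendsto (fun p : ℕ => μ0 * (p : ℝ)) atTop atTop :=
    tendsto_natCast_atTop_atTop.const_mul_atTop hμ0pos
  have l0 := (Real.tendsto_pow_mul_exp_neg_atTop_nhds_zero 0).comp hlin
  have l1 := (Real.tendsto_pow_mul_exp_neg_atTop_nhds_zero 1).comp hlin
  filter_upwards [l0.eventually_lt_const (show (0 : ℝ) < 1 / 2 by norm_num),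
    l1.eventually_lt_const (show (0 : ℝ) < μ0 * ε / (2 * m1) by positivity)] with p e0 e1 t ht
  simp only [Function.comp, pow_zero, one_mul, pow_one] at e0 e1
  set E := Real.exp (-(μ0 * (p : ℝ))) with hE
  have hE0 : 0 < E := Real.exp_pos _
  have hp0 : (0 : ℝ) ≤ p := Nat.cast_nonneg p
  have f1 : p * m1 * E ≤ ε / 2 := by
    rw [lt_div_iff₀ (by positivity)] at e1
    have h2 : μ0 * (p * m1 * E * 2) < μ0 * ε := by
      calc μ0 * (p * m1 * E * 2) = μ0 * p * E * (2 * m1) := by ring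
        _ < μ0 * ε := e1
    have h3 := lt_of_mul_lt_mul_left h2 hμ0pos.le
    linarith
  set e : ℝ := Real.exp (-(p * (m1 * t - m0))) with he
  have hele : e ≤ E := by
    rw [he, hE]
    refine Real.exp_le_exp.2 ?_
    have h2 : m1 * a0 ≤ m1 * t := mul_le_mul_of_nonneg_left ht.1 hm1.le
    have h3 : (p : ℝ) * μ0 ≤ p * (m1 * t - m0) := mul_le_mul_of_nonneg_left (by rw [hμ0]; linarith) hp0
    linarith
  have hepos : 0 < e := Real.exp_pos _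
  have hse : |s * e| ≤ E := by
    rw [abs_mul, abs_of_pos hepos]
    calc |s| * e ≤ 1 * E := mul_le_mul hs hele hepos.le zero_le_one
      _ = E := one_mul _
  have hden : 1 / 2 ≤ 1 + s * e := by
    have := abs_le.1 hse
    linarith
  have e3 : yy1 m1 m0 s H' p t - p - H' t = (-(p * m1) * (s * e)) / (1 + s * e) := by
    unfold yy1
    ring
  rw [e3, abs_div, div_le_iff₀ (abs_pos.2 (by linarith)), abs_mul, abs_neg,
    abs_of_nonneg (by positivity : (0 : ℝ) ≤ p * m1)]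
  have h3 : (p * m1) * |s * e| ≤ p * m1 * E := mul_le_mul_of_nonneg_left hse (by positivity)
  have h4 : 1 / 2 ≤ |1 + s * e| := hden.trans (le_abs_self _)
  have h5 : ε * (1 / 2) ≤ ε * |1 + s * e| := mul_le_mul_of_nonneg_left h4 hε.le
  linarith

/-- the difference of the slopes -/
lemma slope_diff {m1 m0 s k1 k0 r c0 : ℝ} (hm1 : 0 < m1) (hs : |s| ≤ 1) (hc : m0 ≤ m1 * c0)
    (hk1 : 0 < k1) (hr : |r| ≤ 1) (hk : k0 ≤ k1 * c0)
    {H' G' : ℝ → ℝ} (hH : ContinuousOn H' (Set.Ioi c0)) (hG : ContinuousOn G' (Set.Ioi c0))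
    (hpos : ∀ t, c0 < t → 0 < G' t - H' t) :
    ∀ a0 a1 : ℝ, c0 < a0 → a0 < a1 → ∃ δ : ℝ, 0 < δ ∧
      ∀ᶠ p : ℕ in atTop, ∀ t ∈ Set.Icc a0 a1, δ ≤ yy1 k1 k0 r G' p t - yy1 m1 m0 s H' p t := by
  intro a0 a1 ha0 ha
  have hsub : Set.Icc a0 a1 ⊆ Set.Ioi c0 := fun t ht => ha0.trans_le ht.1
  obtain ⟨t0, ht0, hmin⟩ := isCompact_Icc.exists_isMinOn (s := Set.Icc a0 a1) ⟨a0, le_rfl, ha.le⟩
    ((hG.mono hsub).sub (hH.mono hsub))
  set d := G' t0 - H' t0 with hd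
  have hd0 : 0 < d := hpos t0 (hsub ht0)
  refine ⟨d / 2, by positivity, ?_⟩
  filter_upwards [slope_small (H' := H') (a1 := a1) hm1 hs hc ha0 (ε := d / 4) (by positivity),
    slope_small (H' := G') (a1 := a1) hk1 hr hk ha0 (ε := d / 4) (by positivity)] with p e1 e2 t ht
  have h1 := abs_le.1 (e1 t ht)
  have h2 := abs_le.1 (e2 t ht)
  have h3 : d ≤ G' t - H' t := hmin ht
  linarith [h1.1, h1.2, h2.1, h2.2]

end Pool.Agent.W66C
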