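import Mathlib
import Pool.Agent.W66.CL

set_option autoImplicit false

/-!
# The Pell equation `X ^ 2 - (u ^ 2 + 1) Y ^ 2 = ± 1` with a real parameter `u`
-/

namespace Pool.Agent.W66C

open Finset Filter Topology MeasureTheory
open Pool.Agent.H447R2.ML (Loc C1 cv compare_counts ff_eq_floor)
open Pool.Agent.W66X (tendsto_transfer ae_of_exp')
open Pool.Agent.H305R2 (roughPart ff)

/-- transfer to the parameter `u = sinh t` -/
lemma ae_of_sinh1 {Q : ℝ → Prop} (h : ∀ᵐ t : ℝ, Q (Real.sinh t)) : ∀ᵐ x : ℝ, Q x := by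
  rw [ae_iff] at h ⊢
  have h1 : volume (Real.sinh '' {t : ℝ | ¬ Q (Real.sinh t)}) = 0 :=
    addHaar_image_eq_zero_of_differentiableOn_of_addHaar_eq_zero volume
      Real.differentiable_sinh.differentiableOn h
  refine measure_mono_null ?_ h1
  intro x hx
  obtain ⟨t, ht⟩ := Real.sinh_surjective x
  refine ⟨t, ?_, ht⟩
  simp only [Set.mem_ofPred_eq] at hx ⊢
  rw [ht]
  exact hx

/-- `(pell u n).1 + (pell u n).2 √(u ^ 2 + 1) = (u + √(u ^ 2 + 1)) ^ n` -/
noncomputable def pell (u : ℝ) : ℕ → ℝ × ℝ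
  | 0 => (1, 0)
  | (n + 1) => (u * (pell u n).1 + (u ^ 2 + 1) * (pell u n).2, (pell u n).1 + u * (pell u n).2)

lemma pell_succ1 (u : ℝ) (n : ℕ) :
    (pell u (n + 1)).1 = u * (pell u n).1 + (u ^ 2 + 1) * (pell u n).2 := rfl
lemma pell_succ2 (u : ℝ) (n : ℕ) : (pell u (n + 1)).2 = (pell u n).1 + u * (pell u n).2 := rfl

lemma pell_closed (t : ℝ) : ∀ n : ℕ,
    2 * (pell (Real.sinh t) n).1 = Real.exp t ^ n + (-Real.exp (-t)) ^ n ∧
    2 * Real.cosh t * (pell (Real.sinh t) n).2 = Real.exp t ^ n - (-Real.exp (-t)) ^ n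
  | 0 => by simp [pell]; norm_num
  | (n + 1) => by
      obtain ⟨h1, h2⟩ := pell_closed t n
      have e1 : Real.exp t = Real.cosh t + Real.sinh t := (Real.cosh_add_sinh t).symm
      have e2 : Real.exp (-t) = Real.cosh t - Real.sinh t := (Real.cosh_sub_sinh t).symm
      have e3 : Real.cosh t ^ 2 = Real.sinh t ^ 2 + 1 := Real.cosh_sq t
      rw [pell_succ1, pell_succ2, pow_succ (Real.exp t) n, pow_succ (-Real.exp (-t)) n]
      generalize (pell (Real.sinh t) n).1 = X at h1 ⊢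
      generalize (pell (Real.sinh t) n).2 = Y at h2 ⊢
      generalize Real.exp t ^ n = P at h1 h2 ⊢
      generalize (-Real.exp (-t)) ^ n = M at h1 h2 ⊢
      rw [e2]
      rw [e1]
      constructor
      · linear_combination Real.sinh t * h1 + Real.cosh t * h2 - 2 * Y * e3
      · linear_combination Real.cosh t * h1 + Real.sinh t * h2

lemma pell_norm (u : ℝ) : ∀ n : ℕ, (pell u n).1 ^ 2 - (u ^ 2 + 1) * (pell u n).2 ^ 2 = (-1) ^ n
  | 0 => by simp [pell]
  | (n + 1) => by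
      rw [pell_succ1, pell_succ2, pow_succ (-1 : ℝ) n, ← pell_norm u n]
      ring

/-- the sign for the parity of the index -/
lemma hyp_pow (t : ℝ) (p : ℕ) : (-Real.exp (-t)) ^ p = (-1) ^ p * Real.exp (-(p * t)) := by
  rw [neg_pow, ← Real.exp_nat_mul]
  congr 2
  ring

lemma logX {t : ℝ} (ht : 0 < t) {p : ℕ} (hp : 1 ≤ p) {s : ℝ} (hs : (-1 : ℝ) ^ p = s) :
    0 < (pell (Real.sinh t) p).1 ∧ Real.log ((pell (Real.sinh t) p).1) =
      p * t + Real.log (1 + s * Real.exp (-(p * (2 * t - 0)))) - Real.log 2 := by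
  have hp0 : (1 : ℝ) ≤ p := by exact_mod_cast hp
  have h := (pell_closed t p).1
  rw [hyp_pow, hs, ← Real.exp_nat_mul] at h
  have hs1 : |s| ≤ 1 := by rw [← hs, abs_pow]; simp
  have h2 : Real.exp (-(p * (2 * t - 0))) < 1 := by
    rw [Real.exp_lt_one_iff]
    have : 0 < p * (2 * t - 0) := by
      rw [sub_zero]; positivity
    linarith
  have h4 : 0 < 1 + s * Real.exp (-(p * (2 * t - 0))) := by
    have h5 := abs_le.1 hs1
    have h6 := Real.exp_pos (-(p * (2 * t - 0)))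
    nlinarith [h5.1, h5.2]
  have e2 : Real.exp (p * t) + s * Real.exp (-(p * t)) =
      Real.exp (p * t) * (1 + s * Real.exp (-(p * (2 * t - 0)))) := by
    rw [mul_add, mul_one, mul_left_comm, ← Real.exp_add]
    congr 3
    ring
  have e1 : (pell (Real.sinh t) p).1 =
      Real.exp (p * t) * (1 + s * Real.exp (-(p * (2 * t - 0)))) / 2 := by
    rw [← e2, ← h]; ring
  have h3 : 0 < Real.exp (p * t) * (1 + s * Real.exp (-(p * (2 * t - 0)))) :=
    mul_pos (Real.exp_pos _) h4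
  rw [e1]
  refine ⟨by positivity, ?_⟩
  rw [Real.log_div h3.ne' two_ne_zero, Real.log_mul (Real.exp_pos _).ne' h4.ne', Real.log_exp]

lemma logY {t : ℝ} (ht : 0 < t) {p : ℕ} (hp : 1 ≤ p) {s : ℝ} (hs : (-1 : ℝ) ^ p = -s) :
    0 < (pell (Real.sinh t) p).2 ∧ Real.log ((pell (Real.sinh t) p).2) =
      p * t + Real.log (1 + s * Real.exp (-(p * (2 * t - 0)))) - Real.log (2 * Real.cosh t) := by
  have hp0 : (1 : ℝ) ≤ p := by exact_mod_cast hp
  have hc : 0 < 2 * Real.cosh t := by have := Real.cosh_pos t; positivity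
  have h := (pell_closed t p).2
  rw [hyp_pow, hs, ← Real.exp_nat_mul] at h
  have hs1 : |s| ≤ 1 := by
    have h1 : s = -((-1 : ℝ) ^ p) := by rw [hs]; ring
    rw [h1, abs_neg, abs_pow]; simp
  have h2 : Real.exp (-(p * (2 * t - 0))) < 1 := by
    rw [Real.exp_lt_one_iff]
    have : 0 < p * (2 * t - 0) := by
      rw [sub_zero]; positivity
    linarith
  have h4 : 0 < 1 + s * Real.exp (-(p * (2 * t - 0))) := by
    have h5 := abs_le.1 hs1
    have h6 := Real.exp_pos (-(p * (2 * t - 0)))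
    nlinarith [h5.1, h5.2]
  have e2 : Real.exp (p * t) + s * Real.exp (-(p * t)) =
      Real.exp (p * t) * (1 + s * Real.exp (-(p * (2 * t - 0)))) := by
    rw [mul_add, mul_one, mul_left_comm, ← Real.exp_add]
    congr 3
    ring
  have e1 : (pell (Real.sinh t) p).2 =
      Real.exp (p * t) * (1 + s * Real.exp (-(p * (2 * t - 0)))) / (2 * Real.cosh t) := by
    rw [← e2]
    have h7 : 2 * Real.cosh t * (pell (Real.sinh t) p).2 =
        Real.exp (p * t) + s * Real.exp (-(p * t)) := by linear_combination h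
    rw [← h7]
    field_simp
  have h3 : 0 < Real.exp (p * t) * (1 + s * Real.exp (-(p * (2 * t - 0)))) :=
    mul_pos (Real.exp_pos _) h4
  rw [e1]
  refine ⟨by positivity, ?_⟩
  rw [Real.log_div h3.ne' hc.ne', Real.log_mul (Real.exp_pos _).ne' h4.ne', Real.log_exp]

lemma root_sinh1 (t : ℝ) : Real.sinh t + Real.sqrt (Real.sinh t ^ 2 + 1) = Real.exp t := by
  rw [← Real.cosh_sq, Real.sqrt_sq (Real.cosh_pos t).le, add_comm, Real.cosh_add_sinh]

lemma amp_sinh {A : ℝ → ℝ} (hA : ContDiffOn ℝ 2 A (Set.Ioi 0)) (hApos : ∀ x, 0 < x → 0 < A x) :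
    ∃ H H' H'' : ℝ → ℝ, Measurable H ∧ (∀ t, 0 < t → H t = Real.log (A (Real.sinh t))) ∧
      (∀ t, 0 < t → HasDerivAt H (H' t) t) ∧ (∀ t, 0 < t → HasDerivAt H' (H'' t) t) ∧
      ContinuousOn H'' (Set.Ioi 0) :=
  amp (c0 := 0) hA hApos (g := Real.sinh) (g' := Real.cosh) (g'' := Real.sinh)
    (by fun_prop) Real.hasDerivAt_sinh Real.hasDerivAt_cosh (by fun_prop)
    (fun t ht => Real.sinh_pos_iff.2 ht)

/-- **The law for the first components.** -/
theorem law_pell {A : ℝ → ℝ} (hA : ContDiffOn ℝ 2 A (Set.Ioi 0)) (hApos : ∀ x, 0 < x → 0 < A x) :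
    ∀ᵐ u : ℝ, 0 < u →
    Tendsto (fun n : ℕ => (cv (fun p u => A u * (pell u p).1) u n : ℝ) / Real.log n) atTop
      (𝓝 (Real.exp Real.eulerMascheroniConstant / Real.log (u + Real.sqrt (u ^ 2 + 1)))) := by
  obtain ⟨H, H', H'', hHm, hHe, hH1, hH2, hH3⟩ := amp_sinh hA hApos
  refine ae_of_sinh1 (Q := fun u : ℝ => 0 < u → Tendsto (fun n : ℕ =>
      (cv (fun p u => A u * (pell u p).1) u n : ℝ) / Real.log n) atTop
      (𝓝 (Real.exp Real.eulerMascheroniConstant / Real.log (u + Real.sqrt (u ^ 2 + 1))))) ?_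
  have hfam := fam_cur (m1 := 2) (m0 := 0) (s := -1) (c0 := 0) (H := fun t => H t - Real.log 2)
    two_pos (by simp) (by norm_num) (fun t ht => (hH1 t ht).sub_const _) hH2 hH3
  have hlaw := law_val le_rfl (fun p => measurable_yy 2 0 (-1) (hHm.sub_const _) p) hfam
    (val := fun p t => A (Real.sinh t) * (pell (Real.sinh t) p).1) (by
      intro t ht
      filter_upwards [eventually_ge_atTop 3] with p hp hpp
      have hodd : Odd p := hpp.odd_of_ne_two (by omega)
      obtain ⟨h1, h2⟩ := logX ht (p := p) (by omega) (s := -1) hodd.neg_one_pow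
      have hAp := hApos _ (Real.sinh_pos_iff.2 ht)
      refine ⟨mul_pos hAp h1, ?_⟩
      rw [Real.log_mul hAp.ne' h1.ne', h2, ← hHe t ht]
      unfold yy
      ring)
  filter_upwards [hlaw] with t ht hx
  rw [root_sinh1, Real.log_exp]
  exact ht (Real.sinh_pos_iff.1 hx)

/-- **Both components.** -/
theorem pairs_pell {A : ℝ → ℝ} (hA : ContDiffOn ℝ 2 A (Set.Ioi 0)) (hApos : ∀ x, 0 < x → 0 < A x) :
    ∀ᵐ u : ℝ, 0 < u → {n : ℕ | (roughPart n ⌊A u * (pell u n).1⌋₊).Prime ∧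
      (roughPart n ⌊A u * (pell u n).2⌋₊).Prime}.Finite := by
  obtain ⟨H, H', H'', hHm, hHe, hH1, hH2, hH3⟩ := amp_sinh hA hApos
  have hne : ∀ t : ℝ, 2 * Real.cosh t ≠ 0 := fun t => by have := Real.cosh_pos t; positivity
  refine ae_of_sinh1 (Q := fun u : ℝ => 0 < u → {n : ℕ | (roughPart n ⌊A u * (pell u n).1⌋₊).Prime ∧
      (roughPart n ⌊A u * (pell u n).2⌋₊).Prime}.Finite) ?_
  have key : ∀ (s : ℝ) (Q : ℕ → Prop), |s| ≤ 1 → (∀ p, Q p → (-1 : ℝ) ^ p = s) →
      ∀ᵐ t : ℝ, 0 < t → {n : ℕ | Q n ∧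
        (roughPart n ⌊A (Real.sinh t) * (pell (Real.sinh t) n).2⌋₊).Prime ∧
        (roughPart n ⌊A (Real.sinh t) * (pell (Real.sinh t) n).1⌋₊).Prime}.Finite := by
    intro s Q hs hQ
    have hns : |-s| ≤ 1 := by rw [abs_neg]; exact hs
    have hcontH' : ContinuousOn H' (Set.Ioi 0) := fun t ht => (hH2 t ht).continuousAt.continuousWithinAt
    have hG1 : ∀ t, 0 < t → HasDerivAt (fun t => H t - Real.log (2 * Real.cosh t))
        (H' t - (2 * Real.sinh t / (2 * Real.cosh t))) t := fun t ht =>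
      (hH1 t ht).sub (((Real.hasDerivAt_cosh t).const_mul 2).log (hne t))
    have hG2 : ∀ t, 0 < t → HasDerivAt (fun t => H' t - (2 * Real.sinh t / (2 * Real.cosh t)))
        (H'' t - ((2 * Real.cosh t * (2 * Real.cosh t) - 2 * Real.sinh t * (2 * Real.sinh t)) /
          (2 * Real.cosh t) ^ 2)) t := fun t ht =>
      (hH2 t ht).sub (((Real.hasDerivAt_sinh t).const_mul 2).div
        ((Real.hasDerivAt_cosh t).const_mul 2) (hne t))
    have hG3 : ContinuousOn (fun t => H'' t - ((2 * Real.cosh t * (2 * Real.cosh t) -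
        2 * Real.sinh t * (2 * Real.sinh t)) / (2 * Real.cosh t) ^ 2)) (Set.Ioi 0) :=
      hH3.sub (ContinuousOn.div (by fun_prop) (by fun_prop) fun t _ => pow_ne_zero 2 (hne t))
    have hfamY := fam_cur (m1 := 2) (m0 := 0) (s := -s) (c0 := 0) two_pos hns (by norm_num) hG1 hG2 hG3
    have hfamX := fam_cur (m1 := 2) (m0 := 0) (s := s) (c0 := 0) (H := fun t => H t - Real.log 2)
      two_pos hs (by norm_num) (fun t ht => (hH1 t ht).sub_const _) hH2 hH3
    refine pairs_val (c0 := 0) le_rfl (Q := Q)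
      (fun p => measurable_yy 2 0 (-s) (H := fun t => H t - Real.log (2 * Real.cosh t))
        (hHm.sub (by fun_prop)) p)
      (fun p => measurable_yy 2 0 s (hHm.sub_const _) p) hfamY hfamX
      (slope_diff (c0 := 0) two_pos hns (by norm_num) two_pos hs (by norm_num)
        (fun t ht => (hG2 t ht).continuousAt.continuousWithinAt) hcontH' ?_)
      (val := fun p t => A (Real.sinh t) * (pell (Real.sinh t) p).2)
      (wal := fun p t => A (Real.sinh t) * (pell (Real.sinh t) p).1) ?_ ?_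
    · intro t ht
      have h1 : 0 < Real.sinh t := Real.sinh_pos_iff.2 ht
      have h2 := Real.cosh_pos t
      have : 0 < 2 * Real.sinh t / (2 * Real.cosh t) := by positivity
      linarith
    · intro t ht
      filter_upwards [eventually_ge_atTop 1] with p hp hq
      obtain ⟨h1, h2⟩ := logY ht hp (s := -s) (by rw [neg_neg]; exact hQ p hq)
      have hAp := hApos _ (Real.sinh_pos_iff.2 ht)
      refine ⟨mul_pos hAp h1, ?_⟩
      rw [Real.log_mul hAp.ne' h1.ne', h2, ← hHe t ht]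
      unfold yy
      ring
    · intro t ht
      filter_upwards [eventually_ge_atTop 1] with p hp hq
      obtain ⟨h1, h2⟩ := logX ht hp (s := s) (hQ p hq)
      have hAp := hApos _ (Real.sinh_pos_iff.2 ht)
      refine ⟨mul_pos hAp h1, ?_⟩
      rw [Real.log_mul hAp.ne' h1.ne', h2, ← hHe t ht]
      unfold yy
      ring
  filter_upwards [key (-1) Odd (by simp) (fun p hp => hp.neg_one_pow),
    key 1 Even (by simp) (fun p hp => hp.neg_one_pow)] with t h1 h2 hx
  have ht := Real.sinh_pos_iff.1 hx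
  refine ((h1 ht).union (h2 ht)).subset ?_
  intro n hn
  rcases Nat.even_or_odd n with he | ho
  · exact Or.inr ⟨he, hn.2, hn.1⟩
  · exact Or.inl ⟨ho, hn.2, hn.1⟩

end Pool.Agent.W66C
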