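import Pool.Agent.W66.QD

set_option autoImplicit false

/-!
# Decorrelation of distant exponents: the bilinear bound
-/

open Filter Topology Set MeasureTheory Metric
open scoped Real

namespace Pool.Agent.W66

open Pool.Agent.H305R2 (ff NN roughPart SM SMz VV ZZ measurable_ff ff_nonneg ff_le_one LL)

lemma LL_eq_w (q : ℕ) (y : ℝ) : LL q y = ∫ w in (0 : ℝ)..1, ff q (y + w) := by
  unfold LL
  rw [← intervalIntegral.integral_of_le (by linarith),
    intervalIntegral.integral_comp_add_left (fun t => ff q t) y]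
  simp

theorem gg_split (q : ℕ) (φ : ℝ → ℝ) (hφ : Measurable φ) (hφ1 : ∀ x, |φ x| ≤ 1) (Y μ : ℝ) :
    ∫ u in Y..(Y + 1), φ u * Pool.Agent.H305R2.gg q u =
      (∫ u in Y..(Y + 1), φ u * (ff q u - μ)) -
      ∫ w in (0 : ℝ)..1, ∫ u in (Y + w)..(Y + w + 1), φ (u - w) * (ff q u - μ) := by
  have hffm := measurable_ff q
  have hff1 : ∀ x, |ff q x| ≤ 1 := fun x => by
    rw [abs_of_nonneg (ff_nonneg q x)]; exact ff_le_one q x
  have h1 : ∀ w : ℝ, ∫ u in (Y + w)..(Y + w + 1), φ (u - w) * (ff q u - μ) =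
      ∫ u in Y..(Y + 1), φ u * (ff q (u + w) - μ) := by
    intro w
    have := intervalIntegral.integral_comp_add_right (a := Y) (b := Y + 1)
      (fun u => φ (u - w) * (ff q u - μ)) w
    rw [show Y + w + 1 = Y + 1 + w by ring, ← this]
    simp only [add_sub_cancel_right]
  simp only [h1]
  have hb : ∀ w u : ℝ, |φ u * (ff q (u + w) - μ)| ≤ 1 + |μ| := by
    intro w u
    rw [abs_mul]
    have h2 : |ff q (u + w) - μ| ≤ 1 + |μ| := (abs_sub _ _).trans (add_le_add (hff1 _) le_rfl)
    calc |φ u| * |ff q (u + w) - μ| ≤ 1 * (1 + |μ|) :=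
          mul_le_mul (hφ1 u) h2 (abs_nonneg _) zero_le_one
      _ = _ := one_mul _
  have hswap : ∫ w in (0 : ℝ)..1, ∫ u in Y..(Y + 1), φ u * (ff q (u + w) - μ) =
      ∫ u in Y..(Y + 1), ∫ w in (0 : ℝ)..1, φ u * (ff q (u + w) - μ) := by
    simp only [intervalIntegral.integral_of_le (show Y ≤ Y + 1 by linarith),
      intervalIntegral.integral_of_le (show (0 : ℝ) ≤ 1 by norm_num)]
    apply integral_integral_swap
    refine Integrable.of_bound ?_ (1 + |μ|) (Eventually.of_forall fun z => ?_)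
    · apply Measurable.aestronglyMeasurable
      unfold Function.uncurry
      simp only
      exact (hφ.comp measurable_snd).mul
        ((hffm.comp (measurable_snd.add measurable_fst)).sub measurable_const)
    · unfold Function.uncurry
      simp only
      rw [Real.norm_eq_abs]
      exact hb _ _
  rw [hswap]
  have h2 : ∀ u : ℝ, ∫ w in (0 : ℝ)..1, φ u * (ff q (u + w) - μ) = φ u * (LL q u - μ) := by
    intro u
    rw [intervalIntegral.integral_const_mul, LL_eq_w]
    congr 1
    have hm : Measurable fun w => ff q (u + w) := hffm.comp (by fun_prop)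
    rw [intervalIntegral.integral_sub (ii_of_bdd hm (M := 1) (fun x => hff1 _) 0 1)
      intervalIntegrable_const]
    simp
  simp only [h2]
  have hLm : Measurable (LL q) := (Pool.Agent.H305R2.LL_cont q).measurable
  have hL1 : ∀ x, |LL q x| ≤ 1 := fun x => by
    rw [abs_of_nonneg (Pool.Agent.H305R2.LL_nonneg q x)]
    exact Pool.Agent.H305R2.LL_le_one q x
  have i1 : IntervalIntegrable (fun u => φ u * (ff q u - μ)) volume Y (Y + 1) :=
    ii_of_bdd (hφ.mul (hffm.sub measurable_const)) (M := 1 + |μ|) (fun x => by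
      have := hb 0 x
      simpa using this) _ _
  have hm2 : Measurable fun u => φ u * (LL q u - μ) := hφ.mul (hLm.sub measurable_const)
  have i2 : IntervalIntegrable (fun u => φ u * (LL q u - μ)) volume Y (Y + 1) :=
    ii_of_bdd hm2 (M := 1 + |μ|) (fun x => by
      rw [abs_mul]
      have h2 : |LL q x - μ| ≤ 1 + |μ| := (abs_sub _ _).trans (add_le_add (hL1 _) le_rfl)
      calc |φ x| * |LL q x - μ| ≤ 1 * (1 + |μ|) :=
            mul_le_mul (hφ1 x) h2 (abs_nonneg _) zero_le_one
        _ = _ := one_mul _) _ _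
  rw [← intervalIntegral.integral_sub i1 i2]
  congr 1
  ext u
  unfold Pool.Agent.H305R2.gg
  ring

theorem far {c1 : ℝ} (hc1 : 0 < c1) : ∃ κ K : ℝ, 0 < κ ∧ 0 < K ∧ ∃ P : ℕ, ∀ q ≥ P,
    ∀ (p : ℕ) (lam c Y : ℝ), c1 * q ≤ Y → 0 < lam → lam ≤ 1 →
      lam * (Y + 3) + c ≤ κ * Y / Real.log Y →
      |∫ u in Y..(Y + 1), Pool.Agent.H305R2.gg p (lam * u + c) * Pool.Agent.H305R2.gg q u| ≤
        K * (Real.log q / q ^ 2) := by
  obtain ⟨cc, K, hcc, hK, P, hP⟩ := cv_L1 hc1
  obtain ⟨Y1, hY1⟩ := (ev_Y (cc / 2) 1 (by positivity) one_pos).exists_forall_of_atTop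
  have hlin : ∀ᶠ q : ℕ in atTop, Y1 ≤ c1 * q :=
    (tendsto_natCast_atTop_atTop.const_mul_atTop hc1).eventually_ge_atTop _
  have hlogq : ∀ᶠ q : ℕ in atTop, 1 ≤ Real.log q :=
    (Real.tendsto_log_atTop.comp tendsto_natCast_atTop_atTop).eventually_ge_atTop 1
  obtain ⟨P2, hP2⟩ := (hlin.and (hlogq.and (eventually_ge_atTop 1))).exists_forall_of_atTop
  refine ⟨cc / 2, 2 * (K + 5 / c1 ^ 2), by positivity, by positivity, max P P2,
    fun q hq p lam c Y hYq hlam hlam1 hc => ?_⟩
  obtain ⟨b1, b2, b3⟩ := hP2 q ((le_max_right _ _).trans hq)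
  obtain ⟨⟨a1, a2, a3⟩, μ, hμ⟩ := hP q ((le_max_left _ _).trans hq) Y hYq
  obtain ⟨d1, d2, d3, d4, d5, d6⟩ := hY1 Y (b1.trans hYq)
  have hY0 : 0 < Y := by linarith
  have hq0 : (0 : ℝ) < q := by exact_mod_cast b3
  set h := hs cc Y with hh
  have hh0 : 0 < h := hs_pos _ _
  have hY2 : 0 < 1 / Y ^ 2 := by positivity
  have hh1 : h ≤ 1 := a1.trans (by
    rw [div_le_one (by positivity)]
    nlinarith)
  have hYinv : 1 / Y ^ 2 ≤ 1 / c1 ^ 2 * (1 / (q : ℝ) ^ 2) := by
    have e : 1 / c1 ^ 2 * (1 / (q : ℝ) ^ 2) = 1 / (c1 * q) ^ 2 := by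
      rw [mul_pow]
      field_simp
    rw [e]
    apply one_div_le_one_div_of_le (by positivity)
    exact pow_le_pow_left₀ (by positivity) hYq 2
  -- the bound for one window
  have key : ∀ w : ℝ, 0 ≤ w → w ≤ 1 → |∫ u in (Y + w)..(Y + w + 1),
      Pool.Agent.H305R2.gg p (lam * (u - w) + c) * (ff q u - μ)| ≤
      (K + 5 / c1 ^ 2) * (Real.log q / q ^ 2) := by
    intro w hw0 hw1
    have hφ : Measurable fun u => Pool.Agent.H305R2.gg p (lam * (u - w) + c) :=
      (Pool.Agent.H305R2.measurable_gg p).comp (by fun_prop)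
    have h1 := smoothing q hh0 (fun u => Pool.Agent.H305R2.gg p (lam * (u - w) + c)) hφ
      (fun x => Pool.Agent.H305R2.abs_gg_le_one p _) (Y + w) μ
      (h * Real.exp (lam * (Y + 2) + c) + 2 * h) (by
        intro v hv
        have h2 := gg_modulus p (lam := lam) (c := c - lam * w) (h := h) (Y := Y + w) hlam hlam1
          hh0.le hv
        have e1 : ∀ u : ℝ, lam * (u + v) + (c - lam * w) = lam * (u + v - w) + c := fun u => by ring
        have e2 : ∀ u : ℝ, lam * u + (c - lam * w) = lam * (u - w) + c := fun u => by ring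
        simp only [e1, e2] at h2
        refine h2.trans ?_
        have h3 : Real.exp (lam * (Y + w + 1 + h - w) + c) ≤
            Real.exp (lam * (Y + 2) + c) := by
          apply Real.exp_le_exp.2
          nlinarith
        have h4 := mul_le_mul_of_nonneg_left h3 hh0.le
        linarith) (cv_continuous q hh0)
    refine h1.trans ?_
    have h2 := hμ (Y + w) (by linarith) (by linarith)
    have h3 : h * Real.exp (lam * (Y + 2) + c) ≤ 1 / Y ^ 2 := by
      rw [hh]
      unfold hs
      rw [← Real.exp_add]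
      refine le_trans (Real.exp_le_exp.2 ?_) d3
      have e1 : lam * (Y + 2) + c ≤ cc / 2 * Y / Real.log Y := by
        refine le_trans ?_ hc
        nlinarith
      have e2 : √Y ≤ cc / 2 * Y / Real.log Y := le_trans (Real.sqrt_le_sqrt (by linarith)) d1
      have e3 : cc * Y / Real.log Y = 2 * (cc / 2 * Y / Real.log Y) := by ring
      rw [e3]
      linarith
    have h4 : 1 / (q : ℝ) ^ 2 ≤ Real.log q / q ^ 2 := by gcongr
    have h5 : 5 * (1 / Y ^ 2) ≤ 5 / c1 ^ 2 * (Real.log q / q ^ 2) := by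
      calc 5 * (1 / Y ^ 2) ≤ 5 * (1 / c1 ^ 2 * (Real.log q / q ^ 2)) := by
            apply mul_le_mul_of_nonneg_left _ (by norm_num)
            exact hYinv.trans (mul_le_mul_of_nonneg_left h4 (by positivity))
        _ = _ := by ring
    have e : (K + 5 / c1 ^ 2) * (Real.log q / q ^ 2) =
      K * (Real.log q / q ^ 2) + 5 / c1 ^ 2 * (Real.log q / q ^ 2) := by ring
    rw [e]
    linarith
  rw [gg_split q (fun u => Pool.Agent.H305R2.gg p (lam * u + c))
    ((Pool.Agent.H305R2.measurable_gg p).comp (by fun_prop))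
    (fun x => Pool.Agent.H305R2.abs_gg_le_one p _) Y μ]
  have k0 := key 0 le_rfl zero_le_one
  simp only [add_zero, sub_zero] at k0
  have k1 : |∫ w in (0 : ℝ)..1, ∫ u in (Y + w)..(Y + w + 1),
      Pool.Agent.H305R2.gg p (lam * (u - w) + c) * (ff q u - μ)| ≤
      (K + 5 / c1 ^ 2) * (Real.log q / q ^ 2) := by
    have := intervalIntegral.norm_integral_le_of_norm_le_const (a := (0 : ℝ)) (b := 1)
      (f := fun w => ∫ u in (Y + w)..(Y + w + 1),
        Pool.Agent.H305R2.gg p (lam * (u - w) + c) * (ff q u - μ))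
      (C := (K + 5 / c1 ^ 2) * (Real.log q / q ^ 2)) (fun w hw => by
        rw [Set.uIoc_of_le zero_le_one] at hw
        rw [Real.norm_eq_abs]
        exact key w hw.1.le hw.2)
    rw [Real.norm_eq_abs] at this
    simpa using this
  refine (abs_sub _ _).trans ?_
  linarith

end Pool.Agent.W66
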