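import Mathlib
import Pool.Agent.W66.QE
import Pool.Agent.W66.RE
import Pool.Agent.H447R2.ML.R1

set_option autoImplicit false

/-!
# Bounds for the correlation of two indices, base `b`
-/

namespace Pool.Agent.W66S

open Finset Filter Topology MeasureTheory
open Pool.Agent.W66 (far near)
open Pool.Agent.H305R2 (roughPart bounds gg LL measurable_gg abs_gg_le abs_gg_le_one LL_nonneg LL_cont
  LL_le_one ff NN measurable_ff ff_nonneg ff_le_one integrableOn_ff integrableOn_gg log_nat_tendsto)

/-- correlation of the indices `p` and `q` on a window for the amplitude -/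
noncomputable def JJ (a b0 : ℝ) (p q : ℕ) : ℝ :=
  ∫ t in Set.Ioc b0 (b0 + 1), gg p (a * p + t) * gg q (a * q + t)

lemma shift_window (F : ℝ → ℝ) (c s : ℝ) : ∫ t in Set.Ioc s (s + 1), F (c + t) =
    ∫ u in Set.Ioc (c + s) (c + s + 1), F u := by
  rw [← intervalIntegral.integral_of_le (by linarith), ← intervalIntegral.integral_of_le (by linarith)]
  have := intervalIntegral.integral_comp_add_left (a := s) (b := s + 1) F c
  rw [this]
  congr 1
  ring

lemma far1 {a : ℝ} (ha : 0 < a) (b0 : ℝ) : ∃ κ K : ℝ, 0 < κ ∧ 0 < K ∧ ∃ P : ℕ, ∀ q ≥ P, ∀ p : ℕ,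
    (p : ℝ) ≤ κ * q / Real.log q → |JJ a b0 p q| ≤ K * (Real.log q / q ^ 2) := by
  obtain ⟨κ, K, hκ, hK, P, hP⟩ := far (c1 := a / 2) (by positivity)
  refine ⟨κ / 8, K, by positivity, hK, ?_⟩
  have h1 : ∀ᶠ q : ℕ in atTop, |b0| * 2 / a ≤ q :=
    tendsto_natCast_atTop_atTop.eventually_ge_atTop _
  have h2 : ∀ᶠ q : ℕ in atTop, 2 * a ≤ q := tendsto_natCast_atTop_atTop.eventually_ge_atTop _
  have h3 : ∀ᶠ q : ℕ in atTop, Real.log q / q ≤ κ * a / (8 * (|b0| + 3)) := by
    have h4 : Tendsto (fun q : ℕ => Real.log q / q) atTop (𝓝 0) := by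
      have h5 : Tendsto (fun x : ℝ => Real.log x / x) atTop (𝓝 0) := by
        have := Real.tendsto_pow_log_div_mul_add_atTop 1 0 1 one_ne_zero
        simpa using this
      exact h5.comp tendsto_natCast_atTop_atTop
    exact (h4.eventually_lt_const (by positivity)).mono fun q hq => hq.le
  have h4 : ∀ᶠ q : ℕ in atTop, 2 / a < q := tendsto_natCast_atTop_atTop.eventually_gt_atTop _
  obtain ⟨P2, hP2⟩ := eventually_atTop.1 (h1.and (h2.and (h3.and ((log_nat_tendsto.eventually_ge_atTop 1).and
    (h4.and (eventually_ge_atTop P))))))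
  refine ⟨P2, fun q hq p hpq => ?_⟩
  obtain ⟨e1, e2, e3, e4, e5, e6⟩ := hP2 q hq
  have hb0 : 0 ≤ |b0| := abs_nonneg _
  have hq0 : (0 : ℝ) < q := lt_trans (by positivity) e5
  set Y := a * q + b0 with hY
  have hYlo : a / 2 * q ≤ Y := by
    rw [div_le_iff₀ ha] at e1
    have := neg_abs_le b0
    linarith
  have hYhi : Y ≤ 2 * a * q := by
    rw [div_le_iff₀ ha] at e1
    have := le_abs_self b0
    linarith
  have hY1 : 1 < Y := by
    rw [div_lt_iff₀ ha] at e5
    linarith
  have hlY : 0 < Real.log Y := Real.log_pos hY1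
  have hlY2 : Real.log Y ≤ 2 * Real.log q := by
    calc Real.log Y ≤ Real.log (q * q) := Real.log_le_log (by linarith) (hYhi.trans (by
          have := mul_le_mul_of_nonneg_right e2 hq0.le
          linarith))
      _ = 2 * Real.log q := by rw [Real.log_mul hq0.ne' hq0.ne']; ring
  have hcond : (1 : ℝ) * (Y + 3) + (a * p - a * q) ≤ κ * Y / Real.log Y := by
    have h5 : κ * a / 4 * (q / Real.log q) ≤ κ * Y / Real.log Y := by
      calc κ * a / 4 * (q / Real.log q) = κ * (a / 2 * q) / (2 * Real.log q) := by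
            field_simp; ring
        _ ≤ κ * Y / Real.log Y := by gcongr
    have h6 : a * p ≤ κ * a / 8 * (q / Real.log q) := by
      calc a * p ≤ a * (κ / 8 * q / Real.log q) := mul_le_mul_of_nonneg_left hpq ha.le
        _ = _ := by ring
    have h7 : |b0| + 3 ≤ κ * a / 8 * (q / Real.log q) := by
      rw [div_le_div_iff₀ hq0 (by positivity)] at e3
      rw [mul_div_assoc', le_div_iff₀ (by linarith)]
      linarith
    have h8 := le_abs_self b0
    have h9 : (1 : ℝ) * (Y + 3) + (a * p - a * q) = a * p + (b0 + 3) := by rw [hY]; ring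
    rw [h9]
    linarith
  have hmain := hP q e6 p 1 (a * p - a * q) Y hYlo one_pos le_rfl hcond
  have e : JJ a b0 p q = ∫ u in Y..(Y + 1), gg p (1 * u + (a * p - a * q)) * gg q u := by
    unfold JJ
    rw [intervalIntegral.integral_of_le (by linarith)]
    rw [hY, ← shift_window]
    refine setIntegral_congr_fun measurableSet_Ioc fun t _ => ?_
    congr 2
    ring
  rw [e]
  exact hmain

/-- reduction of the correlation to the joint event -/
lemma JJ_le {a : ℝ} (ha : 0 < a) (b0 : ℝ) : ∃ K : ℝ, 0 < K ∧ ∃ P : ℕ, ∀ p ≥ P, ∀ q ≥ P,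
    |JJ a b0 p q| ≤ (∫ t in Set.Ioc b0 (b0 + 1), ff p (a * p + t) * ff q (a * q + t)) +
      K * ((Real.log p / p) * (Real.log q / q)) := by
  obtain ⟨K, hK, hev⟩ := bounds (c := a / 2) (by positivity)
  refine ⟨5 * K ^ 2, by positivity, ?_⟩
  have hlarge : ∀ᶠ p : ℕ in atTop, (|b0| + 1) * 2 / a < p :=
    tendsto_natCast_atTop_atTop.eventually_gt_atTop _
  obtain ⟨P, hP⟩ := eventually_atTop.1 (hev.and (hlarge.and (eventually_ge_atTop 3)))
  refine ⟨P, fun p hp q hq => ?_⟩
  have key : ∀ m ≥ P, (∀ t ∈ Set.Ioc b0 (b0 + 1), LL m (a * m + t) ≤ K * (Real.log m / m)) ∧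
      ∫ t in Set.Ioc b0 (b0 + 1), ff m (a * m + t) ≤ 2 * K * (Real.log m / m) := by
    intro m hm
    obtain ⟨⟨h1, h2, _, _⟩, h3, h4⟩ := hP m hm
    have hm3 : (3 : ℝ) ≤ m := by exact_mod_cast h4
    rw [div_lt_iff₀ ha] at h3
    have h5 := neg_abs_le b0
    have hlog : 0 ≤ Real.log m / m := div_nonneg (Real.log_natCast_nonneg m) (by linarith)
    constructor
    · intro t ht
      refine h1 _ ?_
      linarith [ht.1]
    · rw [shift_window (fun u => ff m u)]
      refine (h2 (a * m + b0) (a * m + b0 + 1) (by linarith) (by linarith)).trans ?_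
      have h6 : 1 / (m : ℝ) ≤ 1 := by rw [div_le_one (by linarith)]; linarith
      have h7 : (a * m + b0 + 1 - (a * m + b0)) + 1 / (m : ℝ) ≤ 2 := by linarith
      calc K * ((a * m + b0 + 1 - (a * m + b0)) + 1 / m) * (Real.log m / m) ≤
            K * 2 * (Real.log m / m) := by gcongr
        _ = _ := by ring
  obtain ⟨hp1, hp2⟩ := key p hp
  obtain ⟨hq1, hq2⟩ := key q hq
  set I := Set.Ioc b0 (b0 + 1) with hI
  have hwp : 0 ≤ Real.log p / p := div_nonneg (Real.log_natCast_nonneg p) (Nat.cast_nonneg p)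
  have hwq : 0 ≤ Real.log q / q := div_nonneg (Real.log_natCast_nonneg q) (Nat.cast_nonneg q)
  set wp := Real.log p / p with hwpd
  set wq := Real.log q / q with hwqd
  -- integrability
  have hmf : ∀ m : ℕ, Measurable (fun t : ℝ => ff m (a * m + t)) := fun m =>
    (measurable_ff m).comp (measurable_const.add measurable_id)
  have hmg : ∀ m : ℕ, Measurable (fun t : ℝ => gg m (a * m + t)) := fun m =>
    (measurable_gg m).comp (measurable_const.add measurable_id)
  have hif : ∀ m : ℕ, IntegrableOn (fun t : ℝ => ff m (a * m + t)) I := fun m => by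
    refine Measure.integrableOn_of_bounded (M := 1) (by simp [hI]) (hmf m).aestronglyMeasurable ?_
    refine Eventually.of_forall fun t => ?_
    rw [Real.norm_of_nonneg (ff_nonneg _ _)]
    exact ff_le_one _ _
  have hiff : IntegrableOn (fun t : ℝ => ff p (a * p + t) * ff q (a * q + t)) I := by
    refine Measure.integrableOn_of_bounded (M := 1) (by simp [hI]) ((hmf p).mul (hmf q)).aestronglyMeasurable ?_
    refine Eventually.of_forall fun t => ?_
    have h1 := ff_nonneg p (a * p + t)
    have h2 := ff_nonneg q (a * q + t)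
    have h3 := ff_le_one p (a * p + t)
    have h4 := ff_le_one q (a * q + t)
    rw [Real.norm_of_nonneg (mul_nonneg h1 h2)]
    nlinarith
  have higg : IntegrableOn (fun t : ℝ => |gg p (a * p + t) * gg q (a * q + t)|) I := by
    refine Measure.integrableOn_of_bounded (M := 1) (by simp [hI])
      ((hmg p).mul (hmg q)).abs.aestronglyMeasurable ?_
    refine Eventually.of_forall fun t => ?_
    rw [Real.norm_of_nonneg (abs_nonneg _), abs_mul]
    have h3 := abs_gg_le_one p (a * p + t)
    have h4 := abs_gg_le_one q (a * q + t)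
    have h5 := abs_nonneg (gg p (a * p + t))
    have h6 := abs_nonneg (gg q (a * q + t))
    nlinarith
  have hc0 : IntegrableOn (fun _ : ℝ => K * wp * (K * wq)) I := integrableOn_const (by simp [hI])
  have hr1 : IntegrableOn (fun t : ℝ => K * wq * ff p (a * p + t)) I := (hif p).const_mul _
  have hr2 : IntegrableOn (fun t : ℝ => K * wp * ff q (a * q + t)) I := (hif q).const_mul _
  have hr3 : IntegrableOn (fun t : ℝ => K * wq * ff p (a * p + t) + K * wp * ff q (a * q + t)) I :=
    hr1.add hr2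
  have hr4 : IntegrableOn (fun t : ℝ => K * wq * ff p (a * p + t) + K * wp * ff q (a * q + t) +
      K * wp * (K * wq)) I := hr3.add hc0
  have hbig : IntegrableOn (fun t : ℝ => ff p (a * p + t) * ff q (a * q + t) +
      (K * wq * ff p (a * p + t) + K * wp * ff q (a * q + t) + K * wp * (K * wq))) I :=
    hiff.add hr4
  calc |JJ a b0 p q| ≤ ∫ t in I, |gg p (a * p + t) * gg q (a * q + t)| := by
        unfold JJ
        have := norm_integral_le_integral_norm (μ := volume.restrict I)
          (fun t => gg p (a * p + t) * gg q (a * q + t))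
        simpa [Real.norm_eq_abs] using this
    _ ≤ ∫ t in I, (ff p (a * p + t) * ff q (a * q + t) +
      (K * wq * ff p (a * p + t) + K * wp * ff q (a * q + t) + K * wp * (K * wq))) := by
        refine setIntegral_mono_on higg hbig measurableSet_Ioc fun t ht => ?_
        rw [abs_mul]
        have h1 := abs_gg_le p (a * p + t)
        have h2 := abs_gg_le q (a * q + t)
        have h3 := hp1 t ht
        have h4 := hq1 t ht
        have h5 := ff_nonneg p (a * p + t)
        have h6 := ff_nonneg q (a * q + t)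
        have h7 := LL_nonneg p (a * p + t)
        have h8 := LL_nonneg q (a * q + t)
        have h9 : |gg p (a * p + t)| ≤ ff p (a * p + t) + K * wp := by linarith
        have h10 : |gg q (a * q + t)| ≤ ff q (a * q + t) + K * wq := by linarith
        calc |gg p (a * p + t)| * |gg q (a * q + t)| ≤
              (ff p (a * p + t) + K * wp) * (ff q (a * q + t) + K * wq) :=
              mul_le_mul h9 h10 (abs_nonneg _) (by positivity)
          _ = _ := by ring
    _ = (∫ t in I, ff p (a * p + t) * ff q (a * q + t)) +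
        (K * wq * (∫ t in I, ff p (a * p + t)) + K * wp * (∫ t in I, ff q (a * q + t)) +
          K * wp * (K * wq)) := by
        rw [integral_add hiff hr4, integral_add hr3 hc0, integral_add hr1 hr2, integral_const_mul,
          integral_const_mul, setIntegral_const, hI, Real.volume_real_Ioc_of_le (by linarith)]
        simp
    _ ≤ (∫ t in I, ff p (a * p + t) * ff q (a * q + t)) +
        (K * wq * (2 * K * wp) + K * wp * (2 * K * wq) + K * wp * (K * wq)) := by
        gcongr
    _ = _ := by ring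

/-- pairs with `2 p ≤ q` -/
lemma mid1 {a : ℝ} (ha : 0 < a) (b0 : ℝ) : ∃ K : ℝ, 0 < K ∧ ∃ P : ℕ, ∀ p ≥ P, ∀ q : ℕ, 2 * p ≤ q →
    |JJ a b0 p q| ≤ K * ((Real.log p / p) * (Real.log q / q)) := by
  obtain ⟨K1, hK1, P1, h1⟩ := JJ_le ha b0
  obtain ⟨K2, hK2, P2, h2⟩ := Pool.Agent.H447R2.ML.pair_bound_sh (a := a) (a0 := b0 - 1) (a1 := b0 + 2)
    (b0 := b0) (b1 := b0 + 1) ha (by linarith) (by linarith)
  refine ⟨K1 + 4 * K2, by positivity, ?_⟩
  have hgap : ∀ᶠ q : ℕ in atTop, 64 / a * (Real.log q * Real.log (Real.log q)) ≤ q / 2 := by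
    have h1 : ∀ᶠ x : ℝ in atTop, 64 / a * (Real.log x * Real.log (Real.log x)) ≤ x / 2 := by
      have h2 : ∀ᶠ x : ℝ in atTop, (Real.log x) ^ 2 ≤ 1 / (2 * (64 / a)) * x := by
        have h3 := (Real.isLittleO_pow_log_id_atTop (n := 2)).bound
          (show (0 : ℝ) < 1 / (2 * (64 / a)) by positivity)
        filter_upwards [h3, eventually_gt_atTop 0] with x hx hx0
        rw [Real.norm_eq_abs, Real.norm_eq_abs, abs_of_nonneg (by positivity)] at hx
        simpa [abs_of_pos hx0] using hx
      filter_upwards [h2, Real.tendsto_log_atTop.eventually_ge_atTop 1, eventually_gt_atTop 0]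
        with x hx hx1 hx0
      have h4 : Real.log (Real.log x) ≤ Real.log x := by
        have := Real.log_le_sub_one_of_pos (show 0 < Real.log x by linarith)
        linarith
      calc 64 / a * (Real.log x * Real.log (Real.log x)) ≤ 64 / a * (Real.log x * Real.log x) := by gcongr
        _ = 64 / a * (Real.log x) ^ 2 := by ring
        _ ≤ 64 / a * (1 / (2 * (64 / a)) * x) := by gcongr
        _ = x / 2 := by field_simp
    exact tendsto_natCast_atTop_atTop.eventually h1
  obtain ⟨P3, hP3⟩ := eventually_atTop.1 hgap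
  refine ⟨P1 + P2 + P3 + 1, fun p hp q hpq => ?_⟩
  have hp1 : (1 : ℝ) ≤ p := by exact_mod_cast (by omega : 1 ≤ p)
  have hpq' : 2 * (p : ℝ) ≤ q := by exact_mod_cast hpq
  have hSh : ∀ m : ℕ, Pool.Agent.H447R2.ML.Sh a (b0 - 1) (b0 + 2) m (fun t => a * m + t)
      (fun _ => 1) := by
    intro m
    refine ⟨fun t _ => ?_, fun t _ => ?_, fun t _ => ?_⟩
    · rw [sub_self, abs_zero]; positivity
    · simpa using (hasDerivAt_id t).const_add (a * (m : ℝ))
    · rw [sub_self, abs_zero]; positivity
  have h3 := h2 p q (by omega) (by omega) _ _ _ _ (hSh p) (hSh q) (by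
    have := hP3 q (by omega)
    linarith) b0 (b0 + 1) le_rfl (by linarith) le_rfl
  have h4 := h1 p (by omega) q (by omega)
  have hwp : 0 ≤ Real.log p / p := div_nonneg (Real.log_natCast_nonneg p) (Nat.cast_nonneg p)
  have hlq : 0 ≤ Real.log q := Real.log_natCast_nonneg q
  have hq0 : (0 : ℝ) < q := by linarith
  have h5 : K2 * ((b0 + 1 - b0) + 1 / p) * (Real.log p / p) * (Real.log q / (q - p)) ≤
      4 * K2 * ((Real.log p / p) * (Real.log q / q)) := by
    have h6 : (b0 + 1 - b0) + 1 / (p : ℝ) ≤ 2 := by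
      have : 1 / (p : ℝ) ≤ 1 := by rw [div_le_one (by linarith)]; exact hp1
      linarith
    have h7 : Real.log q / (q - p) ≤ 2 * (Real.log q / q) := by
      calc Real.log q / (q - p) ≤ Real.log q / (q / 2) :=
            div_le_div_of_nonneg_left hlq (by positivity) (by linarith)
        _ = _ := by field_simp
    have h8 : 0 ≤ Real.log q / (q - p) := div_nonneg hlq (by linarith)
    calc K2 * ((b0 + 1 - b0) + 1 / p) * (Real.log p / p) * (Real.log q / (q - p)) ≤
          K2 * 2 * (Real.log p / p) * (2 * (Real.log q / q)) := by gcongr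
      _ = _ := by ring
  calc |JJ a b0 p q| ≤ _ := h4
    _ ≤ 4 * K2 * ((Real.log p / p) * (Real.log q / q)) + K1 * ((Real.log p / p) * (Real.log q / q)) := by
        linarith
    _ = _ := by ring

/-- pairs with `p < q ≤ 2 p` -/
lemma near1 {b : ℕ} (hb : 2 ≤ b) (b0 : ℝ) : ∃ K : ℝ, 0 < K ∧ ∃ P : ℕ, ∀ p ≥ P, ∀ q : ℕ, p < q → q ≤ 2 * p →
    |JJ (Real.log b) b0 p q| ≤
      K * ((Real.log p / p) ^ 2 + ((b : ℝ) ^ (q - p))⁻¹ * (Real.log p / p)) := by
  have hlb : 0 < Real.log b := Real.log_pos (by exact_mod_cast hb)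
  obtain ⟨K1, hK1, P1, h1⟩ := JJ_le hlb b0
  obtain ⟨K2, hK2, hev⟩ := near hb
  obtain ⟨P2, hP2⟩ := eventually_atTop.1 hev
  have hlarge : ∀ᶠ p : ℕ in atTop, |b0| * 2 / Real.log b < p :=
    tendsto_natCast_atTop_atTop.eventually_gt_atTop _
  obtain ⟨P3, hP3⟩ := eventually_atTop.1 hlarge
  refine ⟨2 * K1 + K2, by positivity, P1 + P2 + P3 + 2, fun p hp q hpq hq2 => ?_⟩
  have hp2 : (2 : ℝ) ≤ p := by exact_mod_cast (by omega : 2 ≤ p)
  have hp0 : (0 : ℝ) < p := by linarith
  have h4 := h1 p (by omega) q (by omega)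
  have hY : Real.log b / 2 * p ≤ Real.log b * p + b0 := by
    have h5 := hP3 p (by omega)
    rw [div_lt_iff₀ hlb] at h5
    have := neg_abs_le b0
    linarith
  have h5 := hP2 p (by omega) (q - p) (by omega) (Real.log b * p + b0) hY
  have e : ∫ t in Set.Ioc b0 (b0 + 1), ff p (Real.log b * p + t) * ff q (Real.log b * q + t) =
      ∫ y in Set.Ioc (Real.log b * p + b0) (Real.log b * p + b0 + 1),
        ff p y * ff (p + (q - p)) (y + (q - p : ℕ) * Real.log b) := by
    rw [← shift_window]
    refine setIntegral_congr_fun measurableSet_Ioc fun t _ => ?_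
    have e1 : p + (q - p) = q := by omega
    rw [e1, Nat.cast_sub hpq.le]
    congr 2
    ring
  rw [e] at h4
  have hwp : 0 ≤ Real.log p / p := div_nonneg (Real.log_natCast_nonneg p) (Nat.cast_nonneg p)
  have hpq' : (p : ℝ) ≤ q := by exact_mod_cast hpq.le
  have hwq : Real.log q / q ≤ 2 * (Real.log p / p) := by
    have hq2' : (q : ℝ) ≤ p * p := by
      have : (q : ℝ) ≤ 2 * p := by exact_mod_cast hq2
      nlinarith
    have hlq : Real.log q ≤ 2 * Real.log p := by
      calc Real.log q ≤ Real.log (p * p) := Real.log_le_log (by linarith) hq2'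
        _ = 2 * Real.log p := by rw [Real.log_mul hp0.ne' hp0.ne']; ring
    have hlp := Real.log_natCast_nonneg p
    calc Real.log q / q ≤ (2 * Real.log p) / p := div_le_div₀ (by positivity) hlq hp0 hpq'
      _ = _ := by ring
  have hB : 0 ≤ ((b : ℝ) ^ (q - p))⁻¹ * (Real.log p / p) := by positivity
  calc |JJ (Real.log b) b0 p q| ≤ _ := h4
    _ ≤ K2 * ((Real.log p / p) ^ 2 + ((b : ℝ) ^ (q - p))⁻¹ * (Real.log p / p)) +
        K1 * ((Real.log p / p) * (2 * (Real.log p / p))) := by gcongr
    _ ≤ _ := by nlinarith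

end Pool.Agent.W66S
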