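import Mathlib
import Pool.Agent.W66.SC
import Pool.Agent.W66.SA

set_option autoImplicit false

/-!
# The almost everywhere law with the integer base fixed
-/

namespace Pool.Agent.W66S

open Finset Filter Topology MeasureTheory
open Pool.Agent.H305R2 (bounds gg LL measurable_gg abs_gg_le_one SS CC all_n along_squares smp
  log_nat_tendsto)

lemma diag1 {a : ℝ} (ha : 0 < a) (b0 : ℝ) : ∃ K : ℝ, 0 < K ∧ ∃ P : ℕ, ∀ p ≥ P,
    ∫ t in Set.Ioc b0 (b0 + 1), (gg p (a * p + t)) ^ 2 ≤ K * (Real.log p / p) := by
  obtain ⟨K, hK, hev⟩ := bounds (c := a / 2) (by positivity)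
  refine ⟨2 * K, by positivity, ?_⟩
  have hlarge : ∀ᶠ p : ℕ in atTop, (|b0| + 1) * 2 / a < p :=
    tendsto_natCast_atTop_atTop.eventually_gt_atTop _
  obtain ⟨P, hP⟩ := eventually_atTop.1 (hev.and (hlarge.and (eventually_ge_atTop 3)))
  refine ⟨P, fun p hp => ?_⟩
  obtain ⟨⟨_, _, _, h2⟩, h3, h4⟩ := hP p hp
  have hm3 : (3 : ℝ) ≤ p := by exact_mod_cast h4
  rw [div_lt_iff₀ ha] at h3
  have h5 := neg_abs_le b0
  have hlog : 0 ≤ Real.log p / p := div_nonneg (Real.log_natCast_nonneg p) (by linarith)
  have hmg : Measurable (fun t : ℝ => gg p (a * p + t)) :=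
    (measurable_gg p).comp (measurable_const.add measurable_id)
  calc ∫ t in Set.Ioc b0 (b0 + 1), (gg p (a * p + t)) ^ 2 ≤
        ∫ t in Set.Ioc b0 (b0 + 1), |gg p (a * p + t)| := by
        refine setIntegral_mono_on ?_ ?_ measurableSet_Ioc fun t _ => ?_
        · refine Measure.integrableOn_of_bounded (M := 1) (by simp) (hmg.pow_const 2).aestronglyMeasurable ?_
          refine Eventually.of_forall fun t => ?_
          rw [Real.norm_eq_abs, abs_pow]
          exact pow_le_one₀ (abs_nonneg _) (abs_gg_le_one _ _)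
        · refine Measure.integrableOn_of_bounded (M := 1) (by simp) hmg.abs.aestronglyMeasurable ?_
          refine Eventually.of_forall fun t => ?_
          rw [Real.norm_eq_abs, abs_abs]
          exact abs_gg_le_one _ _
        · have h1 := abs_gg_le_one p (a * p + t)
          have h2 := abs_nonneg (gg p (a * p + t))
          rw [← sq_abs]
          nlinarith
    _ = ∫ u in Set.Ioc (a * p + b0) (a * p + b0 + 1), |gg p u| :=
        Pool.Agent.W66S.shift_window (fun u => |gg p u|) _ _
    _ ≤ K * ((a * p + b0 + 1 - (a * p + b0)) + 1 / p) * (Real.log p / p) :=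
        h2 _ _ (by linarith) (by linarith)
    _ ≤ K * 2 * (Real.log p / p) := by
        have h6 : 1 / (p : ℝ) ≤ 1 := by rw [div_le_one (by linarith)]; linarith
        have h7 : (a * p + b0 + 1 - (a * p + b0)) + 1 / (p : ℝ) ≤ 2 := by linarith
        gcongr
    _ = _ := by ring

/-- convergence along the sampling points on one window -/
lemma ae_window {b : ℕ} (hb : 2 ≤ b) (b0 : ℝ) : ∀ᵐ t ∂(volume.restrict (Set.Ioc b0 (b0 + 1))),
    Tendsto (fun n : ℕ => CC (Real.log b) t n / Real.log n) atTop
      (𝓝 (Real.exp Real.eulerMascheroniConstant / Real.log b)) := by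
  have hlb : 0 < Real.log b := Real.log_pos (by exact_mod_cast hb)
  set a := Real.log b with ha
  obtain ⟨κ, K1, hκ, hK1, P1, h1⟩ := far1 hlb b0
  obtain ⟨K2, hK2, P2, h2⟩ := mid1 hlb b0
  obtain ⟨K3, hK3, P3, h3⟩ := near1 hb b0
  obtain ⟨K4, hK4, P4, h4⟩ := diag1 hlb b0
  set K := K1 + K2 + K3 with hK
  have hw0 : ∀ m : ℕ, 0 ≤ Real.log m / m := fun m =>
    div_nonneg (Real.log_natCast_nonneg m) (Nat.cast_nonneg m)
  obtain ⟨C, hC, P', hP', hP3', hrow⟩ := row_abs (κ := κ) (K := K) hκ (by positivity) hb (JJ a b0)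
    (P1 + P2 + P3 + P4)
    (by
      intro q hq p hp
      refine (h1 q (by omega) p hp).trans ?_
      have : 0 ≤ Real.log q / (q : ℝ) ^ 2 := div_nonneg (Real.log_natCast_nonneg q) (by positivity)
      exact mul_le_mul_of_nonneg_right (by rw [hK]; linarith) this)
    (by
      intro p hp q hq
      refine (h2 p (by omega) q hq).trans ?_
      exact mul_le_mul_of_nonneg_right (by rw [hK]; linarith) (mul_nonneg (hw0 p) (hw0 q)))
    (by
      intro p hp q hq hq2
      refine (h3 p (by omega) q hq hq2).trans ?_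
      refine mul_le_mul_of_nonneg_right (by rw [hK]; linarith) ?_
      exact add_nonneg (sq_nonneg _) (mul_nonneg (by positivity) (hw0 p)))
  have hfin : IsFiniteMeasure (volume.restrict (Set.Ioc b0 (b0 + 1))) := ⟨by simp⟩
  have hmain := ae_abs (μ := volume.restrict (Set.Ioc b0 (b0 + 1))) (G := fun p t => gg p (a * p + t))
    (fun p => (measurable_gg p).comp (measurable_const.add measurable_id))
    (fun p t => abs_gg_le_one _ _) (C := C + K4) (by positivity) (P := P') hP3'
    (by
      intro p hp
      refine (h4 p (by omega)).trans ?_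
      exact mul_le_mul_of_nonneg_right (by linarith) (hw0 p))
    (by
      intro q hq
      refine (hrow q hq).trans ?_
      have hq3 : (3 : ℝ) ≤ q := by exact_mod_cast hP3'.trans hq
      have hll : 0 ≤ Real.log (Real.log q) := by
        refine Real.log_nonneg ?_
        rw [Real.le_log_iff_exp_le (by linarith)]
        have := Real.exp_one_lt_d9
        linarith
      refine mul_le_mul_of_nonneg_right (by linarith) ?_
      exact mul_nonneg (hw0 q) (by linarith))
  filter_upwards [hmain] with t ht
  exact all_n (along_squares (z := (a, t)) hlb (P0 := P') ht)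

/-- the almost everywhere law in logarithmic coordinates, the base being fixed -/
theorem ae_base {b : ℕ} (hb : 2 ≤ b) : ∀ᵐ t : ℝ,
    Tendsto (fun n : ℕ => CC (Real.log b) t n / Real.log n) atTop
      (𝓝 (Real.exp Real.eulerMascheroniConstant / Real.log b)) := by
  have h1 : ∀ j : ℤ, ∀ᵐ t : ℝ, t ∈ Set.Ioc (j : ℝ) (j + 1) →
      Tendsto (fun n : ℕ => CC (Real.log b) t n / Real.log n) atTop
      (𝓝 (Real.exp Real.eulerMascheroniConstant / Real.log b)) := fun j =>
    (ae_restrict_iff' measurableSet_Ioc).1 (ae_window hb (j : ℝ))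
  filter_upwards [ae_all_iff.2 h1] with t ht
  refine ht (⌈t⌉ - 1) ⟨?_, ?_⟩
  · push_cast
    linarith [Int.ceil_lt_add_one t]
  · push_cast
    linarith [Int.le_ceil t]

end Pool.Agent.W66S
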