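import Mathlib
import Pool.Agent.W66.SD
import Pool.Agent.H447R2.ML.Quot

set_option autoImplicit false

/-!
# The law for almost every amplitude, and the special amplitude
-/

namespace Pool.Agent.W66S

open Finset Filter Topology MeasureTheory
open Pool.Agent.H305R2 (roughPart CC ff NN)

/-- the coordinate change -/
lemma ae_of_exp {P : ℝ → Prop} (h : ∀ᵐ t : ℝ, P (Real.exp t)) : ∀ᵐ x : ℝ, 0 < x → P x := by
  rw [ae_iff] at h ⊢
  have h1 : volume (Real.exp '' {t : ℝ | ¬ P (Real.exp t)}) = 0 :=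
    addHaar_image_eq_zero_of_differentiableOn_of_addHaar_eq_zero volume
      Real.differentiable_exp.differentiableOn h
  refine measure_mono_null ?_ h1
  intro x hx
  simp only [Set.mem_ofPred_eq, Classical.not_imp] at hx
  refine ⟨Real.log x, ?_, Real.exp_log hx.1⟩
  simp only [Set.mem_ofPred_eq]
  rw [Real.exp_log hx.1]
  exact hx.2

/-- the number of primes `p ≤ n` for which the `p`-rough part of the largest integer below
`β b ^ p` is prime -/
noncomputable def cnt (b : ℕ) (β : ℝ) (n : ℕ) : ℕ :=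
  ((Finset.range (n + 1)).filter (fun p => p.Prime ∧ (roughPart p (⌈β * (b : ℝ) ^ p⌉₊ - 1)).Prime)).card

lemma cnt_eq {b : ℕ} (hb : 2 ≤ b) (t : ℝ) (n : ℕ) :
    (cnt b (Real.exp t) n : ℝ) = CC (Real.log b) t n := by
  have hb0 : (0 : ℝ) < b := by positivity
  unfold cnt CC
  rw [Finset.card_filter]
  push_cast
  have hset : (Finset.range (n + 1)).filter Nat.Prime = (Finset.Icc 1 n).filter Nat.Prime := by
    ext p
    simp only [Finset.mem_filter, Finset.mem_range, Finset.mem_Icc]
    constructor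
    · rintro ⟨h1, h2⟩; exact ⟨⟨h2.one_lt.le, by omega⟩, h2⟩
    · rintro ⟨h1, h2⟩; exact ⟨by omega, h2⟩
  rw [← hset, Finset.sum_filter]
  refine Finset.sum_congr rfl fun p _ => ?_
  by_cases hp : p.Prime
  · have e2 : Real.exp (Real.log b * p + t) = Real.exp t * (b : ℝ) ^ p := by
      rw [Real.exp_add, mul_comm (Real.log b), Real.exp_nat_mul, Real.exp_log hb0]
      ring
    have e3 : ff p (Real.log b * p + t) =
        if (roughPart p (⌈Real.exp t * (b : ℝ) ^ p⌉₊ - 1)).Prime then (1 : ℝ) else 0 := by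
      unfold ff NN
      rw [e2]
    rw [if_pos hp, e3]
    by_cases hW : (roughPart p (⌈Real.exp t * (b : ℝ) ^ p⌉₊ - 1)).Prime
    · rw [if_pos hW, if_pos ⟨hp, hW⟩]
    · rw [if_neg hW, if_neg (fun h => hW h.2)]
  · rw [if_neg hp, if_neg (fun h => hp h.1)]

/-- the asymptotic law for almost every amplitude -/
theorem law_base {b : ℕ} (hb : 2 ≤ b) : ∀ᵐ β : ℝ, 0 < β →
    Tendsto (fun n : ℕ => (cnt b β n : ℝ) / Real.log n) atTop
      (𝓝 (Real.exp Real.eulerMascheroniConstant / Real.log b)) := by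
  refine ae_of_exp (P := fun β : ℝ => Tendsto (fun n : ℕ => (cnt b β n : ℝ) / Real.log n) atTop
      (𝓝 (Real.exp Real.eulerMascheroniConstant / Real.log b))) ?_
  filter_upwards [ae_base hb] with t ht
  refine ht.congr fun n => ?_
  rw [cnt_eq hb]

lemma roughPart_self {p m : ℕ} (hm : m ≠ 0) (h : ∀ q : ℕ, q.Prime → q ∣ m → p < q) :
    roughPart p m = m := by
  unfold roughPart
  have h2 : m.primeFactorsList.filter (fun r => p < r) = m.primeFactorsList := by
    rw [List.filter_eq_self]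
    intro r hr
    exact decide_eq_true (h r (Nat.prime_of_mem_primeFactorsList hr)
      (Nat.dvd_of_mem_primeFactorsList hr))
  rw [h2]
  exact Nat.prod_primeFactorsList hm

/-- the special amplitude `1 / (b - 1)` gives the repunits in base `b` -/
theorem repunit_special {b : ℕ} (hb : 2 ≤ b) {p : ℕ} (hp : p.Prime) (hpd : ¬ p ∣ b - 1) :
    roughPart p (⌈(1 / ((b : ℝ) - 1)) * (b : ℝ) ^ p⌉₊ - 1) = ∑ i ∈ Finset.range p, b ^ i := by
  set R := ∑ i ∈ Finset.range p, b ^ i with hR
  have hb1 : (0 : ℝ) < (b : ℝ) - 1 := by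
    have : (2 : ℝ) ≤ b := by exact_mod_cast hb
    linarith
  have hgeom : (R : ℝ) * ((b : ℝ) - 1) = (b : ℝ) ^ p - 1 := by
    rw [hR]
    push_cast
    exact geom_sum_mul _ _
  have hval : (1 / ((b : ℝ) - 1)) * (b : ℝ) ^ p = R + 1 / ((b : ℝ) - 1) := by
    field_simp
    linarith
  have hceil : ⌈(1 / ((b : ℝ) - 1)) * (b : ℝ) ^ p⌉₊ = R + 1 := by
    rw [hval, Nat.ceil_eq_iff (by omega)]
    have h1 : 1 / ((b : ℝ) - 1) ≤ 1 := by
      rw [div_le_one hb1]
      have : (2 : ℝ) ≤ b := by exact_mod_cast hb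
      linarith
    have h2 : 0 < 1 / ((b : ℝ) - 1) := by positivity
    constructor
    · simp only [Nat.add_sub_cancel]
      linarith
    · push_cast
      linarith
  rw [hceil, Nat.add_sub_cancel]
  have hR0 : R ≠ 0 := by
    have : 1 ≤ R := by
      rw [hR]
      calc 1 = b ^ 0 := (pow_zero b).symm
        _ ≤ ∑ i ∈ Finset.range p, b ^ i :=
            Finset.single_le_sum (f := fun i => b ^ i) (fun i _ => Nat.zero_le _)
              (Finset.mem_range.2 hp.pos)
    omega
  refine roughPart_self hR0 fun q hq hqR => ?_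
  refine Pool.Agent.H447R2.ML.lt_of_dvd_quot (a := b) (b := 1) isCoprime_one_right hp ?_ hq ?_
  · intro h
    apply hpd
    have h1 : ((b : ℤ) - 1) = ((b - 1 : ℕ) : ℤ) := by
      rw [Nat.cast_sub (by omega)]; simp
    rw [h1] at h
    exact_mod_cast h
  · have h1 : (q : ℤ) ∣ (R : ℤ) := by exact_mod_cast hqR
    rw [hR] at h1
    push_cast at h1
    simpa using h1

end Pool.Agent.W66S
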