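import Pool.Agent.W66.LT
import Pool.Agent.H447R2.ML.Quot

set_option autoImplicit false

/-!
# Special values
-/

open Filter Topology Finset MeasureTheory

namespace Pool.Agent.W66L

open Pool.Agent.H305R2 (roughPart)

lemma roughPart_self {p m : ℕ} (hm : m ≠ 0) (h : ∀ q : ℕ, q.Prime → q ∣ m → p < q) :
    roughPart p m = m := by
  unfold roughPart
  have h2 : m.primeFactorsList.filter (fun r => p < r) = m.primeFactorsList := by
    rw [List.filter_eq_self]
    intro r hr
    exact decide_eq_true (h r (Nat.prime_of_mem_primeFactorsList hr)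
      (Nat.dvd_of_mem_primeFactorsList hr))
  rw [h2]
  exact Nat.prod_primeFactorsList hm

/-- the rough part of `(a ^ p - b ^ p) / (a - b)` is the number itself -/
theorem rough_quot {a b : ℤ} (hab : IsCoprime a b) {p : ℕ} (hp : p.Prime)
    (hpd : ¬ (p : ℤ) ∣ a - b) {m : ℕ} (hm : m ≠ 0)
    (he : (m : ℤ) = ∑ i ∈ Finset.range p, a ^ i * b ^ (p - 1 - i)) : roughPart p m = m := by
  refine roughPart_self hm fun q hq hqm => ?_
  refine Pool.Agent.H447R2.ML.lt_of_dvd_quot hab hp hpd hq ?_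
  rw [← he]
  exact_mod_cast hqm

/-- repunits -/
theorem rough_repunit {b : ℕ} (hb : 2 ≤ b) {p : ℕ} (hp : p.Prime) (hpd : ¬ p ∣ b - 1) :
    roughPart p (∑ i ∈ Finset.range p, b ^ i) = ∑ i ∈ Finset.range p, b ^ i := by
  have hR0 : (∑ i ∈ Finset.range p, b ^ i) ≠ 0 := by
    have : 1 ≤ ∑ i ∈ Finset.range p, b ^ i := by
      calc 1 = b ^ 0 := (pow_zero b).symm
        _ ≤ ∑ i ∈ Finset.range p, b ^ i :=
            Finset.single_le_sum (f := fun i => b ^ i) (fun i _ => Nat.zero_le _)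
              (Finset.mem_range.2 hp.pos)
    omega
  refine rough_quot (a := (b : ℤ)) (b := 1) isCoprime_one_right hp ?_ hR0 ?_
  · intro h
    apply hpd
    have h1 : ((b : ℤ) - 1) = ((b - 1 : ℕ) : ℤ) := by
      rw [Nat.cast_sub (by omega)]; simp
    rw [h1] at h
    exact_mod_cast h
  · push_cast
    simp

/-- generalized Wagstaff numbers -/
theorem rough_wagstaff {b : ℕ} (hb : 2 ≤ b) {p : ℕ} (hp : p.Prime) (hp2 : p ≠ 2)
    (hpd : ¬ p ∣ b + 1) {m : ℕ} (hm : m * (b + 1) = b ^ p + 1) : roughPart p m = m := by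
  have hodd : Odd p := hp.odd_of_ne_two hp2
  have hm0 : m ≠ 0 := by
    rintro rfl
    simp at hm
  refine rough_quot (a := (b : ℤ)) (b := -1) (IsCoprime.neg_right isCoprime_one_right) hp ?_ hm0 ?_
  · intro h
    apply hpd
    have : ((p : ℕ) : ℤ) ∣ ((b + 1 : ℕ) : ℤ) := by push_cast; simpa using h
    exact_mod_cast this
  · have hgeom : (∑ i ∈ Finset.range p, (b : ℤ) ^ i * (-1) ^ (p - 1 - i)) * ((b : ℤ) - -1) =
        (b : ℤ) ^ p - (-1) ^ p := (Commute.all (b : ℤ) (-1)).geom_sum₂_mul p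
    rw [hodd.neg_one_pow] at hgeom
    have h1 : (m : ℤ) * ((b : ℤ) - -1) = (b : ℤ) ^ p - -1 := by
      have : ((m * (b + 1) : ℕ) : ℤ) = ((b ^ p + 1 : ℕ) : ℤ) := by rw [hm]
      push_cast at this
      linarith
    have hne : ((b : ℤ) - -1) ≠ 0 := by omega
    exact mul_right_cancel₀ hne (h1.trans hgeom.symm)

/-- Mersenne numbers -/
theorem rough_mersenne {p : ℕ} (hp : p.Prime) : roughPart p (2 ^ p - 1) = 2 ^ p - 1 := by
  have h := rough_repunit (b := 2) le_rfl hp (by
    intro h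
    exact hp.one_lt.ne' (Nat.dvd_one.1 h))
  rw [Nat.geomSum_eq le_rfl] at h
  simpa using h

end Pool.Agent.W66L
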