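import Pool.Agent.W66.LA

set_option autoImplicit false

/-!
# Zero free region of `L(s, χ)` for complex characters
-/

open Complex Filter Topology Set MeasureTheory Metric
open scoped ArithmeticFunction.vonMangoldt ArithmeticFunction.Moebius

namespace Pool.Agent.W66L

open H370 H370.Loc Pool.Agent.W66

/-- zero free region for complex characters -/
theorem zfl : ∃ c : ℝ, 0 < c ∧ c ≤ 1 / 2 ∧ ∀ (Q : ℕ) [NeZero Q] (χ : DirichletCharacter ℂ Q),
    χ ^ 2 ≠ 1 → ∀ ρ : ℂ, χ.LFunction ρ = 0 → ρ.re ≤ 1 - c / lq Q ρ.im := by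
  obtain ⟨K, hK, hD⟩ := DL_re
  obtain ⟨K0, hK0, hD0⟩ := D_re
  set K' : ℝ := 6 * K + 3 * K0 + 5 with hK'
  set κ : ℝ := 1 / (2 * K') with hκ
  have hK'0 : 0 < K' := by positivity
  have hκ0 : 0 < κ := by positivity
  have hκ1 : κ ≤ 1 / 10 := by
    rw [hκ]
    exact one_div_le_one_div_of_le (by norm_num) (by linarith)
  refine ⟨κ / 7, by positivity, by linarith, fun Q _ χ hχ2 ρ hρ => ?_⟩
  have hχ : χ ≠ 1 := by
    rintro rfl
    exact hχ2 (one_pow 2)
  set t := ρ.im with ht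
  have hell := one_le_lq Q t
  have hell0 : 0 < lq Q t := by linarith
  by_cases hre : ρ.re < 1 / 2
  · have : κ / 7 / lq Q t ≤ κ / 7 := div_le_self (by positivity) hell
    linarith
  push Not at hre
  have hre1 : ρ.re < 1 := by
    by_contra hcon
    exact LF_ne_zero hχ (not_lt.1 hcon) hρ
  set σ : ℝ := 1 + κ / lq Q t with hσ
  have hκell : 0 < κ / lq Q t := by positivity
  have hκell1 : κ / lq Q t ≤ 1 / 10 := (div_le_self hκ0.le hell).trans hκ1
  have hσ1 : 1 < σ := by linarith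
  have hσ2 : σ ≤ 2 := by linarith
  have h341 := three_four_one_char χ hσ1 t
  rw [LSeries_eq_DD (by simpa using hσ1), LSeries_eq_DL χ hχ (by simpa using hσ1),
    LSeries_eq_DL (χ ^ 2) hχ2 (by simpa using hσ1), sub_re, neg_re, neg_re] at h341
  have d0 := (hD0 0 σ hσ1 hσ2).1
  have d2 := (hD Q (χ ^ 2) hχ2 (2 * t) σ hσ1 hσ2).1
  have hball : ρ ∈ closedBall (⟨2, t⟩ : ℂ) (3 / 2) := by
    rw [mem_closedBall, dist_eq_norm]
    have e : ρ - ⟨2, t⟩ = ((ρ.re - 2 : ℝ) : ℂ) := by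
      apply Complex.ext <;> simp [ht]
    rw [e, Complex.norm_real, Real.norm_eq_abs, abs_le]
    constructor <;> linarith
  have d1 := (hD Q χ hχ t σ hσ1 hσ2).2 ρ hball hρ
  change _ ≤ (DD _).re at d0
  have e1 : (1 / ((⟨σ, t⟩ : ℂ) - ρ)).re = 1 / (σ - ρ.re) := by
    have e : (⟨σ, t⟩ : ℂ) - ρ = ((σ - ρ.re : ℝ) : ℂ) := by
      apply Complex.ext <;> simp [ht]
    rw [e, ← Complex.ofReal_one, ← Complex.ofReal_div, Complex.ofReal_re]
  rw [e1] at d1
  have e0 : (1 / ((⟨σ, 0⟩ : ℂ) - 1)).re = 1 / (σ - 1) := by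
    have e : (⟨σ, 0⟩ : ℂ) - 1 = ((σ - 1 : ℝ) : ℂ) := by
      apply Complex.ext <;> simp
    rw [e, ← Complex.ofReal_one, ← Complex.ofReal_div, Complex.ofReal_re]
  have l0 : ell 0 ≤ lq Q t := (ell_mono (by simp)).trans (ell_le_lq Q t)
  have l2 : lq Q (2 * t) ≤ 2 * lq Q t := by
    have l2' : ell (2 * t) ≤ 2 * ell t := by
      unfold ell
      have habs : |2 * t| = 2 * |t| := by rw [abs_mul]; norm_num
      rw [habs]
      have ht0 := abs_nonneg t
      have h2 : Real.log (2 * |t| + 3) ≤ Real.log ((|t| + 3) ^ 2) :=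
        Real.log_le_log (by positivity) (by nlinarith)
      rw [Real.log_pow] at h2
      exact_mod_cast h2
    have := Real.log_natCast_nonneg Q
    unfold lq
    linarith
  rw [e0] at h341
  have hsb : 0 < σ - ρ.re := by linarith
  have hmain : 4 / (σ - ρ.re) ≤ 3 / (σ - 1) + K' * lq Q t := by
    have m0 : -(DD ⟨σ, 0⟩).re ≤ K0 * lq Q t := by nlinarith
    have m2 : -(deriv (χ ^ 2).LFunction ⟨σ, 2 * t⟩ / (χ ^ 2).LFunction ⟨σ, 2 * t⟩).re ≤
        2 * K * lq Q t := by nlinarith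
    have a1 : 4 / (σ - ρ.re) = 4 * (1 / (σ - ρ.re)) := by ring
    have a2 : 3 / (σ - 1) = 3 * (1 / (σ - 1)) := by ring
    rw [a1, a2, hK']
    nlinarith
  have hs1 : σ - 1 = κ / lq Q t := by rw [hσ]; ring
  have h3 : 3 / (σ - 1) + K' * lq Q t = 7 / 2 * (lq Q t / κ) := by
    rw [hs1, hκ]
    field_simp
    ring
  rw [h3, div_le_iff₀ hsb] at hmain
  have h4 : 8 / 7 * (κ / lq Q t) ≤ σ - ρ.re := by
    have h5 : 0 < lq Q t / κ := by positivity
    have h6 : 8 / 7 * (κ / lq Q t) * (7 / 2 * (lq Q t / κ)) = 4 := by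
      field_simp
      norm_num
    by_contra hcon
    push Not at hcon
    have : (σ - ρ.re) * (7 / 2 * (lq Q t / κ)) < 8 / 7 * (κ / lq Q t) * (7 / 2 * (lq Q t / κ)) :=
      mul_lt_mul_of_pos_right hcon (by positivity)
    rw [h6] at this
    linarith
  have h7 : κ / 7 / lq Q t = 1 / 7 * (κ / lq Q t) := by ring
  rw [h7]
  rw [hσ] at h4
  linarith

/-- the logarithmic derivative of `L(s, χ)` -/
noncomputable def DX {Q : ℕ} [NeZero Q] (χ : DirichletCharacter ℂ Q) (s : ℂ) : ℂ :=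
  deriv χ.LFunction s / χ.LFunction s

/-- the logarithmic derivative of `L(s,χ)` in the classical region -/
theorem zfl_bound : ∃ c C : ℝ, 0 < c ∧ c ≤ 1 / 8 ∧ 0 < C ∧
    ∀ (Q : ℕ) [NeZero Q] (χ : DirichletCharacter ℂ Q), χ ^ 2 ≠ 1 →
    ∀ z : ℂ, 1 - c / lq Q z.im ≤ z.re → z.re ≤ 2 →
    χ.LFunction z ≠ 0 ∧ ‖DX χ z‖ ≤ C * (lq Q z.im) ^ 2 := by
  obtain ⟨c, hc, hc1, hzf⟩ := zfl
  obtain ⟨K0, hK0, hball⟩ := LF_const
  set K2 : ℝ := K0 * (4 / c) with hK2
  have hK2pos : 0 < K2 := by positivity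
  refine ⟨c / 4, K0 + K2, by positivity, by linarith, by positivity, fun Q _ χ hχ2 z hz hz2 => ?_⟩
  have hχ : χ ≠ 1 := by
    rintro rfl
    exact hχ2 (one_pow 2)
  set t := z.im with ht
  have hell := one_le_lq Q t
  have hell0 : 0 < lq Q t := by linarith
  obtain ⟨M, hM1, hMb, hbd2, hbd⟩ := hball Q χ hχ t
  have hcn : χ.LFunction ⟨2, t⟩ ≠ 0 := LF_ne_zero hχ (by norm_num)
  have hcb : ‖χ.LFunction ⟨2, t⟩‖ ≤ M := hMb _ (mem_closedBall_self (by norm_num))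
  have hcell : c / 4 / lq Q t ≤ 1 / 8 := by
    refine (div_le_self (by positivity) hell).trans (by linarith)
  have hzb : z ∈ closedBall (⟨2, t⟩ : ℂ) (9 / 8) := by
    rw [mem_closedBall, dist_eq_norm]
    have e : z - ⟨2, t⟩ = ((z.re - 2 : ℝ) : ℂ) := by
      apply Complex.ext <;> simp [ht]
    rw [e, Complex.norm_real, Real.norm_eq_abs, abs_le]
    constructor <;> linarith
  have hdist : ∀ ρ ∈ closedBall (⟨2, t⟩ : ℂ) (3 / 2), χ.LFunction ρ = 0 →
      c / (4 * lq Q t) ≤ ‖z - ρ‖ := by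
    intro ρ hρ h0
    have h1 := hzf Q χ hχ2 ρ h0
    rw [mem_closedBall, dist_eq_norm] at hρ
    have h2 := (Complex.abs_im_le_norm (ρ - ⟨2, t⟩)).trans hρ
    simp only [sub_im] at h2
    have h3 : lq Q ρ.im ≤ 2 * lq Q t := lq_near (by linarith)
    have h4 : 0 < lq Q ρ.im := by linarith [one_le_lq Q ρ.im]
    have h5 : c / (2 * lq Q t) ≤ c / lq Q ρ.im := div_le_div_of_nonneg_left hc.le h4 h3
    refine le_trans ?_ ((le_abs_self _).trans (Complex.abs_re_le_norm (z - ρ)))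
    rw [sub_re]
    have h6 : c / 4 / lq Q t = c / (4 * lq Q t) := by rw [div_div]
    have h7 : c / (2 * lq Q t) = 2 * (c / (4 * lq Q t)) := by
      field_simp
      norm_num
    rw [h6] at hz
    linarith
  obtain ⟨h1, h2⟩ := landau (f := χ.LFunction) (c := ⟨2, t⟩) (r := 3 / 2) (r1 := 11 / 8)
    (r2 := 9 / 8) (R := 7 / 4) (M := M) (by norm_num) (by norm_num) (by norm_num) (by norm_num)
    (by norm_num) hM1 hcb (fun z _ => (DirichletCharacter.differentiable_LFunction hχ).analyticAt z)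
    hcn hMb z hzb (c / (4 * lq Q t)) (by positivity) hdist
  refine ⟨h1, h2.trans ?_⟩
  have hbd2 : Real.log (M / ‖χ.LFunction ⟨2, t⟩‖) / Real.log (7 / 4 / (3 / 2)) /
      (c / (4 * lq Q t)) ≤ K2 * (lq Q t) ^ 2 := by
    calc _ ≤ (K0 * lq Q t) / (c / (4 * lq Q t)) := by gcongr
      _ = K2 * (lq Q t) ^ 2 := by rw [hK2]; field_simp
  have h8 : K0 * lq Q t ≤ K0 * (lq Q t) ^ 2 := by
    apply mul_le_mul_of_nonneg_left _ hK0.le
    nlinarith
  linarith

end Pool.Agent.W66L
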