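import Pool.Agent.W66.LD

set_option autoImplicit false

/-!
# Orthogonality of characters: mean square of the second factor
-/

open Complex Filter Topology Set MeasureTheory Metric
open scoped Real
open scoped ArithmeticFunction.vonMangoldt

namespace Pool.Agent.W66L

open Pool.Agent.W66

variable {Q : ℕ} [NeZero Q]

/-- orthogonality -/
lemma sum_chi (a b : ZMod Q) :
    ∑ χ : DirichletCharacter ℂ Q, χ a * (starRingEnd ℂ) (χ b) =
      if a = b ∧ IsUnit b then (Q.totient : ℂ) else 0 := by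
  by_cases hb : IsUnit b
  · have h6 : ∀ χ : DirichletCharacter ℂ Q, χ a * (starRingEnd ℂ) (χ b) = χ b⁻¹ * χ a := by
      intro χ
      have h2 : (starRingEnd ℂ) (χ b) = χ⁻¹ b := MulChar.star_apply' χ _
      rw [h2, mul_comm]
      congr 1
      obtain ⟨u, hu⟩ := hb
      rw [← hu, MulChar.inv_apply, Ring.inverse_unit, ZMod.inv_coe_unit]
    simp only [h6]
    rw [DirichletCharacter.sum_char_inv_mul_char_eq ℂ hb a]
    by_cases hab : a = b
    · rw [if_pos hab.symm, if_pos ⟨hab, hb⟩]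
    · rw [if_neg fun h => hab h.symm, if_neg fun h => hab h.1]
  · rw [if_neg fun h => hb h.2]
    refine Finset.sum_eq_zero fun χ _ => ?_
    rw [MulChar.map_nonunit χ hb, map_zero, mul_zero]

lemma sum_chi_norm (a b : ZMod Q) :
    ‖∑ χ : DirichletCharacter ℂ Q, χ a * (starRingEnd ℂ) (χ b)‖ ≤ if a = b then (Q : ℝ) else 0 := by
  rw [sum_chi]
  by_cases hab : a = b
  · rw [if_pos hab]
    split_ifs
    · rw [Complex.norm_natCast]
      exact_mod_cast Nat.totient_le Q
    · rw [norm_zero]; positivity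
  · rw [if_neg hab, if_neg fun h => hab h.1, norm_zero]

lemma card_class (A B : ℝ) (hA : 0 ≤ A) (hAB : A ≤ B) (s : Finset ℕ) (l : ℕ)
    (hs : ∀ m ∈ s, (m : ZMod Q) = l ∧ A ≤ m ∧ m ≤ B) :
    (s.card : ℝ) ≤ (B - A) / Q + 1 := by
  have hQ : 0 < Q := Nat.pos_of_ne_zero (NeZero.ne Q)
  have hQr : (0 : ℝ) < Q := by exact_mod_cast hQ
  rcases s.eq_empty_or_nonempty with h0 | hne
  · rw [h0]
    simp only [Finset.card_empty, Nat.cast_zero]
    have : 0 ≤ (B - A) / Q := div_nonneg (by linarith) hQr.le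
    linarith
  set m0 := s.min' hne with hm0
  have hm0s := s.min'_mem hne
  have h1 : s.image (fun m => (m - m0) / Q) ⊆ Finset.range (⌊(B - A) / Q⌋₊ + 1) := by
    intro k hk
    rw [Finset.mem_image] at hk
    obtain ⟨m, hm, rfl⟩ := hk
    rw [Finset.mem_range, Nat.lt_succ_iff]
    apply Nat.le_floor
    have h2 : m0 ≤ m := s.min'_le m hm
    have h3 := (hs m hm).2.2
    have h4 := (hs m0 hm0s).2.1
    have h5 : (((m - m0) / Q : ℕ) : ℝ) ≤ ((m - m0 : ℕ) : ℝ) / Q := Nat.cast_div_le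
    refine h5.trans ?_
    rw [Nat.cast_sub h2]
    gcongr
  have hinj : Set.InjOn (fun m => (m - m0) / Q) (s : Set ℕ) := by
    intro a ha b hb hab
    simp only at hab
    have ha' := hs a (by exact_mod_cast ha)
    have hb' := hs b (by exact_mod_cast hb)
    have h0' := hs m0 hm0s
    have h2 : m0 ≤ a := s.min'_le a (by exact_mod_cast ha)
    have h3 : m0 ≤ b := s.min'_le b (by exact_mod_cast hb)
    have h4 : Q ∣ a - m0 := by
      have : (m0 : ZMod Q) = (a : ZMod Q) := by rw [ha'.1, h0'.1]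
      exact (Nat.modEq_iff_dvd' h2).1 ((ZMod.natCast_eq_natCast_iff _ _ _).1 this)
    have h5 : Q ∣ b - m0 := by
      have : (m0 : ZMod Q) = (b : ZMod Q) := by rw [hb'.1, h0'.1]
      exact (Nat.modEq_iff_dvd' h3).1 ((ZMod.natCast_eq_natCast_iff _ _ _).1 this)
    have h6 : a - m0 = b - m0 := by
      rw [← Nat.div_mul_cancel h4, ← Nat.div_mul_cancel h5, hab]
    omega
  have h2 : s.card ≤ ⌊(B - A) / Q⌋₊ + 1 := by
    rw [← Finset.card_image_of_injOn hinj]
    refine (Finset.card_le_card h1).trans ?_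
    rw [Finset.card_range]
  have h3 : ((⌊(B - A) / Q⌋₊ + 1 : ℕ) : ℝ) ≤ (B - A) / Q + 1 := by
    push_cast
    have := Nat.floor_le (show 0 ≤ (B - A) / Q from div_nonneg (by linarith) hQr.le)
    linarith
  refine le_trans ?_ h3
  exact_mod_cast h2

lemma card_windowQ {h : ℝ} (hh : 0 < h) (hh1 : h ≤ 1) (L : Finset ℕ) (l : ℕ) (hl : 0 < l)
    (hL : ∀ m ∈ L, 0 < m) (hhl : (Q : ℝ) ≤ h * l) :
    ((L.filter fun m : ℕ => (m : ZMod Q) = l ∧ |Real.log l - Real.log m| < h).card : ℝ) ≤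
      5 * (h * l) / Q := by
  have hQ : 0 < Q := Nat.pos_of_ne_zero (NeZero.ne Q)
  have hQr : (0 : ℝ) < Q := by exact_mod_cast hQ
  have hl0 : (0 : ℝ) < l := by exact_mod_cast hl
  have h4 : Real.exp h ≤ 1 + 3 * h := by
    have e1 := Real.exp_bound_div_one_sub_of_interval (x := h / 2) (by linarith) (by linarith)
    have e2 : Real.exp h = Real.exp (h / 2) ^ 2 := by rw [← Real.exp_nat_mul]; congr 1; push_cast; ring
    rw [e2]
    have e3 : 1 / (1 - h / 2) ≤ 1 + h := by
      rw [div_le_iff₀ (by linarith)]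
      nlinarith
    have e4 : Real.exp (h / 2) ≤ 1 + h := e1.trans e3
    have e5 : 0 ≤ Real.exp (h / 2) := (Real.exp_pos _).le
    nlinarith
  have h5 : 1 - h ≤ Real.exp (-h) := by
    have := Real.add_one_le_exp (-h)
    linarith
  have h1 := card_class (Q := Q) (l * Real.exp (-h)) (l * Real.exp h) (by positivity)
    (by
      apply mul_le_mul_of_nonneg_left _ hl0.le
      exact Real.exp_le_exp.2 (by linarith))
    (L.filter fun m : ℕ => (m : ZMod Q) = l ∧ |Real.log l - Real.log m| < h) l (by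
      intro m hm
      rw [Finset.mem_filter] at hm
      have hm0 : (0 : ℝ) < m := by exact_mod_cast hL m hm.1
      refine ⟨hm.2.1, ?_⟩
      have hm2 := hm.2.2
      rw [abs_lt] at hm2
      constructor
      · rw [← Real.exp_log hl0, ← Real.exp_add, ← Real.le_log_iff_exp_le hm0]
        linarith
      · rw [← Real.exp_log hl0, ← Real.exp_add, ← Real.log_le_iff_le_exp hm0]
        linarith)
  refine h1.trans ?_
  rw [le_div_iff₀ hQr, add_mul, div_mul_cancel₀ _ hQr.ne', one_mul]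
  have h6 : l * Real.exp h - l * Real.exp (-h) ≤ 4 * (h * l) := by nlinarith
  linarith

theorem bbC_sum {h : ℝ} (hh : 0 < h) (hh1 : h ≤ 1) (L : Finset ℕ) (c : ℕ → ℝ)
    (hL : ∀ l ∈ L, 0 < l) (hc : ∀ l ∈ L, c l ≠ 0 → (Q : ℝ) ≤ h * l) :
    ∑ χ : DirichletCharacter ℂ Q, ∫ x, ‖bbC h L (fun l => χ l * (c l : ℂ)) x‖ ^ 2 ≤
      5 * ∑ l ∈ L, l * c l ^ 2 := by
  have hQ : 0 < Q := Nat.pos_of_ne_zero (NeZero.ne Q)
  have hQr : (0 : ℝ) < Q := by exact_mod_cast hQ
  have hint : ∀ a b : ℝ, Integrable fun y : ℝ => box h (y - a) * box h (y - b) := by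
    intro a b
    refine ((box_integrable h).comp_sub_right b).bdd_mul (c := 1 / h)
      ((box_integrable h).comp_sub_right a).aestronglyMeasurable (Eventually.of_forall fun x => ?_)
    rw [Real.norm_of_nonneg (box_nonneg hh _)]
    exact box_le hh _
  have h1 : ∀ χ : DirichletCharacter ℂ Q,
      ((∫ x, ‖bbC h L (fun l => χ l * (c l : ℂ)) x‖ ^ 2 : ℝ) : ℂ) =
      ∑ l ∈ L, ∑ m ∈ L, (χ l * (starRingEnd ℂ) (χ m)) *
        ((c l * c m * tri h (Real.log (l : ℝ) - Real.log (m : ℝ)) : ℝ) : ℂ) := by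
    intro χ
    have e : ∀ x, ((‖bbC h L (fun l => χ l * (c l : ℂ)) x‖ ^ 2 : ℝ) : ℂ) =
        ∑ l ∈ L, ∑ m ∈ L, (χ l * (starRingEnd ℂ) (χ m)) * ((c l * c m : ℝ) : ℂ) *
        ((box h (x - Real.log l) * box h (x - Real.log m) : ℝ) : ℂ) := by
      intro x
      have e1 : ((‖bbC h L (fun l => χ l * (c l : ℂ)) x‖ ^ 2 : ℝ) : ℂ) =
          bbC h L (fun l => χ l * (c l : ℂ)) x *
            (starRingEnd ℂ) (bbC h L (fun l => χ l * (c l : ℂ)) x) := by
        rw [Complex.mul_conj, Complex.normSq_eq_norm_sq]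
      rw [e1]
      unfold bbC
      rw [map_sum, Finset.sum_mul_sum]
      refine Finset.sum_congr rfl fun l _ => Finset.sum_congr rfl fun m _ => ?_
      unfold boxC
      rw [map_mul, map_mul, Complex.conj_ofReal, Complex.conj_ofReal]
      push_cast
      ring
    rw [← integral_complex_ofReal]
    simp only [e]
    have hi : ∀ l m : ℕ, Integrable fun x : ℝ => (χ l * (starRingEnd ℂ) (χ m)) *
        ((c l * c m : ℝ) : ℂ) *
        ((box h (x - Real.log l) * box h (x - Real.log m) : ℝ) : ℂ) := fun l m =>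
      ((hint (Real.log l) (Real.log m)).ofReal).const_mul _
    rw [integral_finsetSum _ fun (l : ℕ) _ => integrable_finsetSum _ fun (m : ℕ) _ => hi l m]
    refine Finset.sum_congr rfl fun l _ => ?_
    rw [integral_finsetSum _ fun (m : ℕ) _ => hi l m]
    refine Finset.sum_congr rfl fun m _ => ?_
    rw [integral_const_mul, integral_complex_ofReal, box_conv_gen hh]
    push_cast
    ring
  have h2 : ((∑ χ : DirichletCharacter ℂ Q,
      ∫ x, ‖bbC h L (fun l => χ l * (c l : ℂ)) x‖ ^ 2 : ℝ) : ℂ) =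
      ∑ l ∈ L, ∑ m ∈ L, (∑ χ : DirichletCharacter ℂ Q, χ l * (starRingEnd ℂ) (χ m)) *
        ((c l * c m * tri h (Real.log (l : ℝ) - Real.log (m : ℝ)) : ℝ) : ℂ) := by
    rw [Complex.ofReal_sum]
    simp only [h1]
    rw [Finset.sum_comm]
    refine Finset.sum_congr rfl fun l _ => ?_
    rw [Finset.sum_comm]
    refine Finset.sum_congr rfl fun m _ => ?_
    rw [Finset.sum_mul]
  have h3 : ∑ χ : DirichletCharacter ℂ Q,
      ∫ x, ‖bbC h L (fun l => χ l * (c l : ℂ)) x‖ ^ 2 ≤
      ∑ l ∈ L, ∑ m ∈ L, (c l ^ 2 / 2 + c m ^ 2 / 2) *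
        (if (l : ZMod Q) = m then Q * tri h (Real.log (l : ℝ) - Real.log (m : ℝ)) else 0) := by
    have h4 : ∑ χ : DirichletCharacter ℂ Q,
      ∫ x, ‖bbC h L (fun l => χ l * (c l : ℂ)) x‖ ^ 2 = ‖((∑ χ : DirichletCharacter ℂ Q,
      ∫ x, ‖bbC h L (fun l => χ l * (c l : ℂ)) x‖ ^ 2 : ℝ) : ℂ)‖ := by
      rw [Complex.norm_real, Real.norm_of_nonneg]
      exact Finset.sum_nonneg fun χ _ => integral_nonneg fun x => by positivity
    rw [h4, h2]
    refine (norm_sum_le _ _).trans (Finset.sum_le_sum fun l _ => ?_)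
    refine (norm_sum_le _ _).trans (Finset.sum_le_sum fun m _ => ?_)
    rw [norm_mul, Complex.norm_real, Real.norm_eq_abs, abs_mul, abs_of_nonneg (tri_nonneg hh _)]
    have h5 := sum_chi_norm (Q := Q) (l : ZMod Q) (m : ZMod Q)
    have h6 : |c l * c m| ≤ c l ^ 2 / 2 + c m ^ 2 / 2 := by
      rw [abs_le]
      constructor
      · nlinarith [sq_nonneg (c l + c m)]
      · nlinarith [sq_nonneg (c l - c m)]
    have h7 := tri_nonneg hh (Real.log l - Real.log m)
    calc _ ≤ (if (l : ZMod Q) = m then (Q : ℝ) else 0) * ((c l ^ 2 / 2 + c m ^ 2 / 2) *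
          tri h (Real.log l - Real.log m)) := by
          apply mul_le_mul h5 _ (by positivity)
          · split_ifs <;> positivity
          · exact mul_le_mul_of_nonneg_right h6 h7
      _ = _ := by split_ifs <;> ring
  refine h3.trans ?_
  have h4 : ∑ l ∈ L, ∑ m ∈ L, (c l ^ 2 / 2 + c m ^ 2 / 2) *
        (if (l : ZMod Q) = m then Q * tri h (Real.log (l : ℝ) - Real.log (m : ℝ)) else 0) =
      ∑ l ∈ L, c l ^ 2 * ∑ m ∈ L,
        (if (l : ZMod Q) = m then Q * tri h (Real.log (l : ℝ) - Real.log (m : ℝ)) else 0) := by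
    simp only [add_mul, Finset.sum_add_distrib]
    have e1 : ∑ l ∈ L, ∑ m ∈ L, c m ^ 2 / 2 *
        (if (l : ZMod Q) = m then Q * tri h (Real.log (l : ℝ) - Real.log (m : ℝ)) else 0) =
        ∑ l ∈ L, ∑ m ∈ L, c l ^ 2 / 2 *
        (if (l : ZMod Q) = m then Q * tri h (Real.log (l : ℝ) - Real.log (m : ℝ)) else 0) := by
      rw [Finset.sum_comm]
      refine Finset.sum_congr rfl fun l _ => Finset.sum_congr rfl fun m _ => ?_
      rw [← tri_neg h (Real.log l - Real.log m), neg_sub]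
      simp only [eq_comm]
    rw [e1, ← Finset.sum_add_distrib]
    refine Finset.sum_congr rfl fun l _ => ?_
    rw [← Finset.sum_add_distrib, Finset.mul_sum]
    refine Finset.sum_congr rfl fun m _ => ?_
    ring
  rw [h4, Finset.mul_sum]
  refine Finset.sum_le_sum fun l hl => ?_
  by_cases hcl : c l = 0
  · simp [hcl]
  have hhl := hc l hl hcl
  have h5 : ∑ m ∈ L, (if (l : ZMod Q) = m then
      Q * tri h (Real.log (l : ℝ) - Real.log (m : ℝ)) else 0) ≤ 5 * l := by
    have h6 : ∑ m ∈ L, (if (l : ZMod Q) = m then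
        Q * tri h (Real.log (l : ℝ) - Real.log (m : ℝ)) else 0) ≤
        ∑ m ∈ L, if (m : ZMod Q) = l ∧ |Real.log l - Real.log m| < h then Q * (1 / h) else 0 := by
      refine Finset.sum_le_sum fun m _ => ?_
      by_cases h7 : (l : ZMod Q) = m
      · rw [if_pos h7]
        by_cases h8 : |Real.log l - Real.log m| < h
        · rw [if_pos ⟨h7.symm, h8⟩]
          exact mul_le_mul_of_nonneg_left (tri_le hh _) hQr.le
        · rw [if_neg fun h9 => h8 h9.2, tri_zero_of hh (not_lt.1 h8), mul_zero]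
      · rw [if_neg h7, if_neg fun h9 => h7 h9.1.symm]
    refine h6.trans ?_
    rw [← Finset.sum_filter, Finset.sum_const, nsmul_eq_mul]
    have h7 := card_windowQ (Q := Q) hh hh1 L l (hL l hl) hL hhl
    calc _ ≤ 5 * (h * l) / Q * (Q * (1 / h)) := by gcongr
      _ = _ := by field_simp
  calc c l ^ 2 * ∑ m ∈ L, (if (l : ZMod Q) = m then
      Q * tri h (Real.log (l : ℝ) - Real.log (m : ℝ)) else 0) ≤ c l ^ 2 * (5 * l) := by gcongr
    _ = _ := by ring

end Pool.Agent.W66L
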