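import Pool.Agent.W66.LE

set_option autoImplicit false

/-!
# The decomposition of the smoothed character sum over primes
-/

open Complex Filter Topology Set MeasureTheory Metric
open scoped Real
open scoped ArithmeticFunction.vonMangoldt

namespace Pool.Agent.W66L

open Pool.Agent.W66

variable {Q : ℕ} [NeZero Q]

omit [NeZero Q] in
lemma abelX (S : ℕ → ℂ) (χ : DirichletCharacter ℂ Q)
    (hS : ∀ m, S m = ∑ k ∈ Finset.Ioc 0 m, χ k) (F : ℕ → ℝ) (N : ℕ) :
    ∑ m ∈ Finset.Ioc 0 N, χ m * (F m : ℂ) =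
      ∑ m ∈ Finset.Ioc 0 N, S m * ((F m - F (m + 1) : ℝ) : ℂ) + S N * (F (N + 1) : ℂ) := by
  induction N with
  | zero => simp [hS]
  | succ n ih =>
    rw [Finset.sum_Ioc_succ_top (by omega), Finset.sum_Ioc_succ_top (by omega), ih]
    have h1 : S (n + 1) = S n + χ ((n + 1 : ℕ) : ZMod Q) := by
      rw [hS, hS, Finset.sum_Ioc_succ_top (by omega)]
    rw [h1]
    push_cast
    ring

lemma abel_le {χ : DirichletCharacter ℂ Q} (hχ : χ ≠ 1) (F : ℕ → ℝ) (N : ℕ)
    (hF : F (N + 1) = 0) :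
    ‖∑ m ∈ Finset.Ioc 0 N, χ m * (F m : ℂ)‖ ≤ Q * ∑ m ∈ Finset.Ioc 0 N, |F m - F (m + 1)| := by
  set S : ℕ → ℂ := fun m => ∑ k ∈ Finset.Ioc 0 m, χ k with hS
  have hSb : ∀ m, ‖S m‖ ≤ Q := by
    intro m
    have hsum : ∑ a : ZMod Q, χ a = 0 := MulChar.sum_eq_zero_of_ne_one hχ
    have := H307R2.sum_Ioc_block (fun a => χ a) hsum (fun a => χ.norm_le_one a) 0 m
    rw [zero_add] at this
    exact this
  rw [abelX S χ (fun m => rfl) F N, hF, Complex.ofReal_zero, mul_zero, add_zero, Finset.mul_sum]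
  refine (norm_sum_le _ _).trans (Finset.sum_le_sum fun m _ => ?_)
  rw [norm_mul, Complex.norm_real, Real.norm_eq_abs]
  exact mul_le_mul_of_nonneg_right (hSb m) (abs_nonneg _)

lemma inv_sq_window {h x : ℝ} (hh1 : h ≤ 1) (hx : 2 ≤ x) (N : ℕ) :
    ∑ m ∈ (Finset.Ioc 0 N).filter (fun m : ℕ => x - h < Real.log ((m + 1 : ℕ) : ℝ)),
      ((m : ℝ) ^ 2)⁻¹ ≤ 16 * Real.exp (-x) := by
  set k := ⌊Real.exp (x - 2)⌋₊ with hk
  have hsub : (Finset.Ioc 0 N).filter (fun m : ℕ => x - h < Real.log ((m + 1 : ℕ) : ℝ)) ⊆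
      Finset.Ioo k (N + 1) := by
    intro m hm
    rw [Finset.mem_filter, Finset.mem_Ioc] at hm
    rw [Finset.mem_Ioo]
    refine ⟨?_, by omega⟩
    have h2 : Real.exp (x - 1) < (m : ℝ) + 1 := by
      have h3 : Real.exp (x - h) < ((m + 1 : ℕ) : ℝ) := by
        rw [← Real.lt_log_iff_exp_lt (by positivity)]
        exact hm.2
      push_cast at h3
      refine lt_of_le_of_lt (Real.exp_le_exp.2 (by linarith)) h3
    have h3 : Real.exp (x - 2) + 1 ≤ Real.exp (x - 1) := by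
      have e : Real.exp (x - 1) = Real.exp (x - 2) * Real.exp 1 := by
        rw [← Real.exp_add]; congr 1; ring
      rw [e]
      have h4 : 1 ≤ Real.exp (x - 2) := Real.one_le_exp (by linarith)
      have h5 := Real.exp_one_gt_d9
      nlinarith
    rw [Nat.floor_lt (Real.exp_pos _).le]
    linarith
  have h2 : ∑ m ∈ (Finset.Ioc 0 N).filter (fun m : ℕ => x - h < Real.log ((m + 1 : ℕ) : ℝ)),
      ((m : ℝ) ^ 2)⁻¹ ≤ 2 / (k + 1) :=
    (Finset.sum_le_sum_of_subset_of_nonneg hsub fun _ _ _ => by positivity).trans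
      (sum_Ioo_inv_sq_le k (N + 1))
  have h3 : 2 / ((k : ℝ) + 1) ≤ 2 * Real.exp (2 - x) := by
    have h4 : Real.exp (x - 2) ≤ (k : ℝ) + 1 := (Nat.lt_floor_add_one _).le
    have h5 : Real.exp (2 - x) = 1 / Real.exp (x - 2) := by
      rw [one_div, ← Real.exp_neg]; congr 1; ring
    rw [h5, mul_one_div]
    exact div_le_div_of_nonneg_left (by norm_num) (Real.exp_pos _) h4
  have h4 : Real.exp (2 - x) ≤ 8 * Real.exp (-x) := by
    have e : Real.exp (2 - x) = Real.exp 1 ^ 2 * Real.exp (-x) := by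
      rw [← Real.exp_nat_mul, ← Real.exp_add]; congr 1; push_cast; ring
    rw [e]
    have h5 : Real.exp 1 ^ 2 ≤ 8 := by
      have := Real.exp_one_lt_d9
      have := Real.exp_pos 1
      nlinarith
    have := Real.exp_pos (-x)
    gcongr
  linarith

/-- smooth character sums are small -/
theorem charsum {χ : DirichletCharacter ℂ Q} (hχ : χ ≠ 1) (ω : ℝ → ℝ) {h x K : ℝ} (hh : 0 < h)
    (hh1 : h ≤ 1) (hx : 2 ≤ x) (hK : 1 ≤ K) (hω : ∀ v, 0 ≤ v → v ≤ x + 2 → |ω v| ≤ K)
    (hω2 : ∀ v w, |ω v - ω w| ≤ |v - w|) (N : ℕ) (hN : Real.exp (x + h) ≤ N) :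
    ‖∑ m ∈ Finset.Ioc 0 N, χ m * ((ω (Real.log m) / m * tri h (x - Real.log m) : ℝ) : ℂ)‖ ≤
      Q * (48 * K * (Real.exp (-x) / h ^ 2)) := by
  set F : ℕ → ℝ := fun m => ω (Real.log m) / m * tri h (x - Real.log m) with hF
  have hN0 : (0 : ℝ) < N := lt_of_lt_of_le (Real.exp_pos _) hN
  have hlogN : x + h ≤ Real.log ((N + 1 : ℕ) : ℝ) := by
    rw [Real.le_log_iff_exp_le (by positivity)]
    refine hN.trans ?_
    push_cast
    linarith
  have hFN : F (N + 1) = 0 := by
    simp only [hF]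
    rw [tri_zero_of hh, mul_zero]
    rw [abs_of_nonpos (by linarith)]
    linarith
  refine (abel_le hχ F N hFN).trans ?_
  apply mul_le_mul_of_nonneg_left _ (Nat.cast_nonneg _)
  have h1 : ∀ m ∈ Finset.Ioc 0 N, |F m - F (m + 1)| ≤
      if x - h < Real.log ((m + 1 : ℕ) : ℝ) then 3 * K / h ^ 2 * ((m : ℝ) ^ 2)⁻¹ else 0 := by
    intro m hm
    rw [Finset.mem_Ioc] at hm
    have hm0 : (0 : ℝ) < m := by exact_mod_cast hm.1
    have hm1 : (1 : ℝ) ≤ m := by exact_mod_cast hm.1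
    obtain ⟨g1, g2, -⟩ := log_gap hm.1
    set a := Real.log m with ha
    set b := Real.log ((m + 1 : ℕ) : ℝ) with hb
    have ha0 : 0 ≤ a := Real.log_nonneg hm1
    have hFm : F m = ω a / m * tri h (x - a) := rfl
    have hFm1 : F (m + 1) = ω b / ((m + 1 : ℕ) : ℝ) * tri h (x - b) := rfl
    rw [hFm, hFm1]
    split_ifs with hc
    · rcases le_or_gt (x + h) a with h2 | h2
      · rw [tri_zero_of hh (show h ≤ |x - a| by rw [abs_of_nonpos (by linarith)]; linarith),
          tri_zero_of hh (show h ≤ |x - b| by rw [abs_of_nonpos (by linarith)]; linarith)]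
        simp only [mul_zero, sub_zero, abs_zero]
        positivity
      · have hb2 : b ≤ x + 2 := by
          have : (1 : ℝ) / m ≤ 1 := by
            rw [div_le_one hm0]; exact hm1
          linarith
        have t1 := tri_le hh (x - a)
        have t2 := tri_lip hh (x - a) (x - b)
        have t3 : |x - a - (x - b)| ≤ 1 / m := by
          rw [show x - a - (x - b) = b - a by ring, abs_of_nonneg g1]
          exact g2
        have t4 := tri_nonneg hh (x - a)
        have w1 := hω a ha0 (by linarith)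
        have w2 := hω b (by linarith) hb2
        have w3 : |ω b - ω a| ≤ 1 / m := by
          refine (hω2 b a).trans ?_
          rw [abs_of_nonneg g1]
          exact g2
        have hh2 : 1 / h ≤ 1 / h ^ 2 := by
          apply one_div_le_one_div_of_le (by positivity)
          nlinarith
        have e : ω a / m * tri h (x - a) - ω b / ((m + 1 : ℕ) : ℝ) * tri h (x - b) =
            ω a * tri h (x - a) * (1 / m - 1 / ((m + 1 : ℕ) : ℝ)) +
            (-(ω b - ω a)) * tri h (x - a) * (1 / ((m + 1 : ℕ) : ℝ)) +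
            ω b * (tri h (x - a) - tri h (x - b)) * (1 / ((m + 1 : ℕ) : ℝ)) := by
          ring
        rw [e]
        have hm1' : (1 : ℝ) / ((m + 1 : ℕ) : ℝ) ≤ 1 / m := by
          apply one_div_le_one_div_of_le hm0
          push_cast
          linarith
        have d1 : 0 ≤ (1 : ℝ) / m - 1 / ((m + 1 : ℕ) : ℝ) := by linarith
        have d2 : (1 : ℝ) / m - 1 / ((m + 1 : ℕ) : ℝ) ≤ 1 / (m : ℝ) ^ 2 := by
          have e2 : (1 : ℝ) / m - 1 / ((m + 1 : ℕ) : ℝ) = 1 / (m * (m + 1)) := by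
            push_cast
            field_simp
            ring
          rw [e2]
          apply one_div_le_one_div_of_le (by positivity)
          nlinarith
        have p1 : |ω a * tri h (x - a) * (1 / m - 1 / ((m + 1 : ℕ) : ℝ))| ≤
            K * (1 / h ^ 2) * (1 / (m : ℝ) ^ 2) := by
          rw [abs_mul, abs_mul, abs_of_nonneg t4, abs_of_nonneg d1]
          gcongr
          linarith
        have p2 : |(-(ω b - ω a)) * tri h (x - a) * (1 / ((m + 1 : ℕ) : ℝ))| ≤
            (1 / m) * (1 / h ^ 2) * (1 / m) := by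
          rw [abs_mul, abs_mul, abs_neg, abs_of_nonneg t4,
            abs_of_nonneg (by positivity : (0 : ℝ) ≤ 1 / ((m + 1 : ℕ) : ℝ))]
          gcongr
          linarith
        have p3 : |ω b * (tri h (x - a) - tri h (x - b)) * (1 / ((m + 1 : ℕ) : ℝ))| ≤
            K * (1 / h ^ 2 * (1 / m)) * (1 / m) := by
          rw [abs_mul, abs_mul, abs_of_nonneg (by positivity : (0 : ℝ) ≤ 1 / ((m + 1 : ℕ) : ℝ))]
          gcongr
          refine t2.trans ?_
          gcongr
        refine (abs_add_three _ _ _).trans ?_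
        have e3 : (1 / (m : ℝ)) * (1 / h ^ 2) * (1 / m) ≤ K * (1 / h ^ 2) * (1 / (m : ℝ) ^ 2) := by
          have : (1 / (m : ℝ)) * (1 / h ^ 2) * (1 / m) = 1 * (1 / h ^ 2) * (1 / (m : ℝ) ^ 2) := by
            field_simp
          rw [this]
          gcongr
        have e4 : K * (1 / h ^ 2 * (1 / (m : ℝ))) * (1 / m) = K * (1 / h ^ 2) * (1 / (m : ℝ) ^ 2) := by
          field_simp
        have e5 : 3 * K / h ^ 2 * ((m : ℝ) ^ 2)⁻¹ = 3 * (K * (1 / h ^ 2) * (1 / (m : ℝ) ^ 2)) := by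
          field_simp
        rw [e5]
        linarith
    · rw [not_lt] at hc
      rw [tri_zero_of hh (show h ≤ |x - a| by rw [abs_of_nonneg (by linarith)]; linarith),
        tri_zero_of hh (show h ≤ |x - b| by rw [abs_of_nonneg (by linarith)]; linarith)]
      simp
  refine (Finset.sum_le_sum h1).trans ?_
  rw [← Finset.sum_filter, ← Finset.mul_sum]
  have h2 := inv_sq_window hh1 hx N
  calc 3 * K / h ^ 2 * _ ≤ 3 * K / h ^ 2 * (16 * Real.exp (-x)) := by gcongr
    _ = _ := by ring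

/-- the hyperbola rearrangement -/
lemma hyperC (F : ℕ → ℕ → ℂ) (N : ℕ) (hF : ∀ a b, 0 < a → 0 < b → N < a * b → F a b = 0) :
    ∑ n ∈ Finset.Ioc 0 N, ∑ p ∈ n.divisorsAntidiagonal, F p.1 p.2 =
      ∑ m ∈ Finset.Ioc 0 N, ∑ l ∈ Finset.Ioc 0 N, F m l := by
  have h0 : ∑ n ∈ Finset.Ioc 0 N, ∑ p ∈ n.divisorsAntidiagonal, F p.1 p.2 =
      ∑ p ∈ (Finset.Ioc 0 N ×ˢ Finset.Ioc 0 N).filter (fun p => p.1 * p.2 ≤ N), F p.1 p.2 := by
    rw [← Finset.sum_fiberwise_of_maps_to (t := Finset.Ioc 0 N) (g := fun p : ℕ × ℕ => p.1 * p.2)]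
    · refine Finset.sum_congr rfl fun n hn => Finset.sum_congr ?_ fun _ _ => rfl
      rw [Finset.mem_Ioc] at hn
      ext p
      rw [Nat.mem_divisorsAntidiagonal]
      simp only [Finset.mem_filter, Finset.mem_product, Finset.mem_Ioc]
      constructor
      · intro ⟨h1, h2⟩
        have h3 : 0 < p.1 * p.2 := by omega
        have h4 : 0 < p.1 := Nat.pos_of_mul_pos_right h3
        have h5 : 0 < p.2 := Nat.pos_of_mul_pos_left h3
        have h6 : p.1 ≤ p.1 * p.2 := Nat.le_mul_of_pos_right _ h5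
        have h7 : p.2 ≤ p.1 * p.2 := Nat.le_mul_of_pos_left _ h4
        exact ⟨⟨⟨⟨h4, by omega⟩, h5, by omega⟩, by omega⟩, h1⟩
      · intro ⟨_, h2⟩
        exact ⟨h2, by omega⟩
    · intro p hp
      simp only [Finset.mem_filter, Finset.mem_product, Finset.mem_Ioc] at hp
      rw [Finset.mem_Ioc]
      exact ⟨Nat.mul_pos hp.1.1.1 hp.1.2.1, hp.2⟩
  rw [h0, ← Finset.sum_product', Finset.sum_filter]
  refine Finset.sum_congr rfl fun p hp => ?_
  rw [Finset.mem_product, Finset.mem_Ioc, Finset.mem_Ioc] at hp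
  split_ifs with h
  · rfl
  · exact (hF _ _ hp.1.1 hp.2.1 (not_le.1 h)).symm

omit [NeZero Q] in
/-- the convolution rearrangement -/
lemma conv_sumX (χ : DirichletCharacter ℂ Q) (f g : ArithmeticFunction ℝ) (h z : ℝ) (hh : 0 < h)
    (N : ℕ) (hN : Real.exp (z + h) ≤ N) :
    ∑ n ∈ Finset.Ioc 0 N, χ n * (((f * g) n / n : ℝ) : ℂ) * triC h (z - Real.log n) =
      ∑ m ∈ Finset.Ioc 0 N, (χ m * ((f m / m : ℝ) : ℂ)) *
        ∑ l ∈ Finset.Ioc 0 N, (χ l * ((g l / l : ℝ) : ℂ)) *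
          triC h (z - Real.log m - Real.log l) := by
  have h1 : ∀ n ∈ Finset.Ioc 0 N, χ n * (((f * g) n / n : ℝ) : ℂ) * triC h (z - Real.log n) =
      ∑ p ∈ n.divisorsAntidiagonal, (χ p.1 * ((f p.1 / p.1 : ℝ) : ℂ)) *
        ((χ p.2 * ((g p.2 / p.2 : ℝ) : ℂ)) * triC h (z - Real.log p.1 - Real.log p.2)) := by
    intro n hn
    rw [Finset.mem_Ioc] at hn
    rw [ArithmeticFunction.mul_apply, Finset.sum_div, Complex.ofReal_sum, Finset.mul_sum,
      Finset.sum_mul]
    refine Finset.sum_congr rfl fun p hp => ?_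
    rw [Nat.mem_divisorsAntidiagonal] at hp
    have h2 : (p.1 : ℝ) ≠ 0 := by
      have : p.1 ≠ 0 := by
        rintro h0
        rw [h0, zero_mul] at hp
        omega
      exact_mod_cast this
    have h3 : (p.2 : ℝ) ≠ 0 := by
      have : p.2 ≠ 0 := by
        rintro h0
        rw [h0, mul_zero] at hp
        omega
      exact_mod_cast this
    have h4 : χ (n : ZMod Q) = χ p.1 * χ p.2 := by
      rw [← hp.1]
      push_cast
      rw [map_mul]
    have h5 : Real.log n = Real.log p.1 + Real.log p.2 := by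
      rw [← Real.log_mul h2 h3, ← hp.1]
      push_cast
      rfl
    have h6 : f p.1 * g p.2 / (n : ℝ) = (f p.1 / p.1) * (g p.2 / p.2) := by
      rw [← hp.1]
      push_cast
      field_simp
    rw [h4, h5, h6, sub_sub]
    push_cast
    ring
  rw [Finset.sum_congr rfl h1,
    hyperC (fun a b => (χ a * ((f a / a : ℝ) : ℂ)) *
        ((χ b * ((g b / b : ℝ) : ℂ)) * triC h (z - Real.log a - Real.log b)))]
  · refine Finset.sum_congr rfl fun m _ => ?_
    rw [Finset.mul_sum]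
  · intro a b ha hb hab
    have ha0 : (a : ℝ) ≠ 0 := by exact_mod_cast ha.ne'
    have hb0 : (b : ℝ) ≠ 0 := by exact_mod_cast hb.ne'
    have h2 : z + h ≤ Real.log a + Real.log b := by
      rw [← Real.log_mul ha0 hb0, Real.le_log_iff_exp_le (by positivity)]
      refine hN.trans ?_
      exact_mod_cast hab.le
    unfold triC
    rw [tri_zero_of hh, Complex.ofReal_zero, mul_zero, mul_zero]
    rw [abs_of_nonpos (by linarith)]
    linarith

lemma ggC_zero {h : ℝ} (hh : 0 < h) (L : Finset ℕ) (c : ℕ → ℂ) (hL : ∀ l ∈ L, 0 < l) {x : ℝ}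
    (hx : x ≤ -h) : ggC h L c x = 0 := by
  unfold ggC
  apply Finset.sum_eq_zero
  intro l hl
  have h1 : 0 ≤ Real.log l := Real.log_nonneg (by exact_mod_cast hL l hl)
  unfold triC
  rw [tri_zero_of hh, Complex.ofReal_zero, mul_zero]
  rw [abs_of_nonpos (by linarith)]
  linarith

omit [NeZero Q] in
/-- the decomposition of the type II sum -/
theorem typeIIX (χ : DirichletCharacter ℂ Q) {h z : ℝ} (hh : 0 < h) (N u0 U : ℕ) (hu : u0 ≤ U)
    (hz : z + h ≤ U) (L : Finset ℕ) (hL : ∀ l ∈ L, 0 < l) (c : ℕ → ℂ) :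
    ∑ m ∈ Finset.Ioc 0 N, (χ m * ((Λ m / m : ℝ) : ℂ)) * ggC h L c (z - Real.log m) =
      ∑ m ∈ Finset.Ioc 0 N, (χ m * ((Λ m / m * (1 - rp u0 (Real.log m)) : ℝ) : ℂ)) *
        ggC h L c (z - Real.log m) +
      ∑ u ∈ Finset.Icc u0 U, FX χ u h N L c z := by
  unfold FX
  rw [Finset.sum_comm, ← Finset.sum_add_distrib]
  refine Finset.sum_congr rfl fun m _ => ?_
  have h3 : ∑ u ∈ Finset.Icc u0 U, (χ m * ((Λ m / m * hat (u - Real.log m) : ℝ) : ℂ)) *
      ggC h L c (z - Real.log m) =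
      (χ m * ((Λ m / m * (∑ u ∈ Finset.Icc u0 U, hat (u - Real.log m)) : ℝ) : ℂ)) *
        ggC h L c (z - Real.log m) := by
    rw [← Finset.sum_mul, ← Finset.mul_sum, ← Complex.ofReal_sum, ← Finset.mul_sum]
  rw [h3]
  rcases le_or_gt (Real.log m) U with h4 | h4
  · rw [hat_partition_rp u0 U hu h4, ← add_mul, ← mul_add, ← Complex.ofReal_add]
    congr 3
    ring_nf
  · rw [ggC_zero hh L c hL (by linarith)]
    ring

/-- the smoothed character sum over primes -/
noncomputable def TX (χ : DirichletCharacter ℂ Q) (h : ℝ) (N : ℕ) (z : ℝ) : ℂ :=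
  ∑ n ∈ Finset.Ioc 0 N, χ n * ((Λ n / n : ℝ) : ℂ) * triC h (z - Real.log n)

lemma muw_sumC (w N : ℕ) (hwN : w ≤ N) (X : ℕ → ℂ) (a : ℕ → ℂ) :
    ∑ d ∈ Finset.Ioc 0 N, (a d * ((muw w d / d : ℝ) : ℂ)) * X d =
      ∑ d ∈ Finset.Ioc 0 w, (a d * ((((ArithmeticFunction.moebius d : ℤ) : ℝ) / d : ℝ) : ℂ)) * X d := by
  have h1 : Finset.Ioc 0 w ⊆ Finset.Ioc 0 N := Finset.Ioc_subset_Ioc_right hwN
  rw [← Finset.sum_subset h1]
  · refine Finset.sum_congr rfl fun d hd => ?_
    rw [Finset.mem_Ioc] at hd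
    rw [muw_apply, if_pos hd.2]
  · intro d hd hd2
    rw [Finset.mem_Ioc] at hd hd2
    rw [muw_apply, if_neg (by omega), zero_div, Complex.ofReal_zero, mul_zero, zero_mul]

/-- sums over `d ≤ w` -/
lemma dsum_le {χ : DirichletCharacter ℂ Q} (hχ : χ ≠ 1) (ω : ℝ → ℝ) {h z K : ℝ} (hh : 0 < h)
    (hh1 : h ≤ 1) (w N : ℕ) (hw : 1 ≤ w) (hz : Real.log w + 2 ≤ z) (hK : 1 ≤ K)
    (hω : ∀ v, 0 ≤ v → v ≤ z + 2 → |ω v| ≤ K)
    (hω2 : ∀ v w, |ω v - ω w| ≤ |v - w|) (hN : Real.exp (z + h) ≤ N) :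
    ‖∑ d ∈ Finset.Ioc 0 w, (χ d * ((((ArithmeticFunction.moebius d : ℤ) : ℝ) / d : ℝ) : ℂ)) *
      ∑ m ∈ Finset.Ioc 0 N, (χ m * ((ω (Real.log m) / m : ℝ) : ℂ)) *
        triC h (z - Real.log d - Real.log m)‖ ≤
      w * (Q * (48 * K * (Real.exp (-z) / h ^ 2))) := by
  have hw0 : (0 : ℝ) < w := by exact_mod_cast hw
  refine (norm_sum_le _ _).trans ?_
  have h3 : ∀ d ∈ Finset.Ioc 0 w,
      ‖(χ d * ((((ArithmeticFunction.moebius d : ℤ) : ℝ) / d : ℝ) : ℂ)) *
      ∑ m ∈ Finset.Ioc 0 N, (χ m * ((ω (Real.log m) / m : ℝ) : ℂ)) *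
        triC h (z - Real.log d - Real.log m)‖ ≤ Q * (48 * K * (Real.exp (-z) / h ^ 2)) := by
    intro d hd
    rw [Finset.mem_Ioc] at hd
    have hd0 : (0 : ℝ) < d := by exact_mod_cast hd.1
    have hd1 : (1 : ℝ) ≤ d := by exact_mod_cast hd.1
    have hld : Real.log d ≤ Real.log w := Real.log_le_log hd0 (by exact_mod_cast hd.2)
    have hld0 : 0 ≤ Real.log d := Real.log_nonneg hd1
    have h3 := charsum hχ ω hh hh1 (x := z - Real.log d) (by linarith) hK
      (fun v hv hv2 => hω v hv (by linarith)) hω2 N (by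
      refine le_trans (Real.exp_le_exp.2 ?_) hN
      linarith)
    have e1 : ∑ m ∈ Finset.Ioc 0 N, (χ m * ((ω (Real.log m) / m : ℝ) : ℂ)) *
        triC h (z - Real.log d - Real.log m) = ∑ m ∈ Finset.Ioc 0 N, χ m *
        ((ω (Real.log m) / m * tri h (z - Real.log d - Real.log m) : ℝ) : ℂ) := by
      refine Finset.sum_congr rfl fun m _ => ?_
      unfold triC
      push_cast
      ring
    rw [e1, norm_mul, norm_mul, Complex.norm_real, Real.norm_eq_abs, abs_div, abs_of_pos hd0]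
    have h4 := mu_abs d
    have h5 : Real.exp (-(z - Real.log d)) = d * Real.exp (-z) := by
      rw [neg_sub, sub_eq_add_neg, Real.exp_add, Real.exp_log hd0]
    rw [h5] at h3
    have h6 := χ.norm_le_one (d : ZMod Q)
    calc _ ≤ (1 * (1 / (d : ℝ))) * (Q * (48 * K * (d * Real.exp (-z) / h ^ 2))) := by gcongr
      _ = _ := by field_simp
  refine (Finset.sum_le_sum h3).trans ?_
  rw [Finset.sum_const, Nat.card_Ioc, nsmul_eq_mul, Nat.sub_zero]

/-- the smoothed sum of the second factor is small -/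
theorem ggC_small {χ : DirichletCharacter ℂ Q} (hχ : χ ≠ 1) {h x : ℝ} (hh : 0 < h) (hh1 : h ≤ 1)
    (w N : ℕ) (hw : 1 ≤ w) (hx : Real.log w + 2 ≤ x) (hN : Real.exp (x + h) ≤ N) :
    ‖ggC h (Finset.Ioc 0 N) (fun l => χ l * ((aw w l / l : ℝ) : ℂ)) x‖ ≤
      w * (Q * (48 * 1 * (Real.exp (-x) / h ^ 2))) := by
  have hw0 : (0 : ℝ) < w := by exact_mod_cast hw
  have hlw : 0 ≤ Real.log w := Real.log_nonneg (by exact_mod_cast hw)
  have hwN : w ≤ N := by
    have h1 : (w : ℝ) ≤ N := by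
      refine le_trans ?_ hN
      rw [← Real.log_le_iff_le_exp hw0]
      linarith
    exact_mod_cast h1
  have h0 : ggC h (Finset.Ioc 0 N) (fun l => χ l * ((aw w l / l : ℝ) : ℂ)) x =
      ∑ l ∈ Finset.Ioc 0 N, χ l * (((if l = 1 then (1 : ℝ) else 0) / l : ℝ) : ℂ) *
        triC h (x - Real.log l) -
      ∑ l ∈ Finset.Ioc 0 N, χ l * (((muw w * ((ArithmeticFunction.zeta : ArithmeticFunction ℕ) :
        ArithmeticFunction ℝ)) l / l : ℝ) : ℂ) * triC h (x - Real.log l) := by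
    unfold ggC
    rw [← Finset.sum_sub_distrib]
    refine Finset.sum_congr rfl fun l _ => ?_
    simp only []
    rw [aw_apply, ArithmeticFunction.coe_mul_zeta_apply]
    push_cast
    ring
  have h1 : ∑ l ∈ Finset.Ioc 0 N, χ l * (((if l = 1 then (1 : ℝ) else 0) / l : ℝ) : ℂ) *
        triC h (x - Real.log l) = 0 := by
    apply Finset.sum_eq_zero
    intro l _
    split_ifs with h2
    · rw [h2]
      simp only [Nat.cast_one, Real.log_one, sub_zero]
      unfold triC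
      rw [tri_zero_of hh, Complex.ofReal_zero, mul_zero]
      rw [abs_of_nonneg (by linarith)]
      linarith
    · simp
  rw [h0, h1, zero_sub, norm_neg, conv_sumX χ _ _ h x hh N hN, muw_sumC w N hwN]
  have h3 := dsum_le hχ (fun _ => (1 : ℝ)) hh hh1 w N hw hx le_rfl (by intro v _ _; simp)
    (by intro v w; simp) hN
  refine le_trans (le_of_eq ?_) h3
  congr 1
  refine Finset.sum_congr rfl fun d _ => ?_
  congr 1
  refine Finset.sum_congr rfl fun l hl => ?_
  rw [Finset.mem_Ioc] at hl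
  rw [ArithmeticFunction.natCoe_apply, ArithmeticFunction.zeta_apply, if_neg (by omega)]
  simp

/-- pointwise decomposition -/
theorem KT_ineqX {χ : DirichletCharacter ℂ Q} (hχ : χ ≠ 1) {h z Z : ℝ} (hh : 0 < h) (hh1 : h ≤ 1)
    (w N u0 U : ℕ) (hw : 1 ≤ w) (hz1 : Z ≤ z) (hz2 : z ≤ Z + 1) (hu0 : 1 ≤ u0) (hu : u0 ≤ U)
    (hU : Z + 2 ≤ U) (hN : Real.exp (U + 1) ≤ N) (hZ : Real.log w + u0 + 3 ≤ Z) :
    ‖TX χ h N z - ∑ u ∈ Finset.Icc u0 U, FX χ u h N (Finset.Ioc 0 N)
        (fun l => χ l * ((aw w l / l : ℝ) : ℂ)) z‖ ≤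
      w * (Q * (48 * (z + 2) * (Real.exp (-z) / h ^ 2))) +
      u0 * (1 + u0) * (w * (Q * (48 * 1 * (Real.exp (u0 - Z) / h ^ 2)))) := by
  have hw0 : (0 : ℝ) < w := by exact_mod_cast hw
  have hlw : 0 ≤ Real.log w := Real.log_nonneg (by exact_mod_cast hw)
  have hu0' : (1 : ℝ) ≤ u0 := by exact_mod_cast hu0
  have hzN : Real.exp (z + h) ≤ N := by
    refine le_trans (Real.exp_le_exp.2 ?_) hN
    linarith
  have hN0 : (0 : ℝ) < N := lt_of_lt_of_le (Real.exp_pos _) hN
  have hwN : w ≤ N := by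
    have h1 : (w : ℝ) ≤ N := by
      refine le_trans ?_ hN
      rw [← Real.log_le_iff_le_exp hw0]
      linarith
    exact_mod_cast h1
  set L := Finset.Ioc 0 N with hL
  have hLpos : ∀ l ∈ L, 0 < l := fun l hl => (Finset.mem_Ioc.1 hl).1
  set c : ℕ → ℂ := fun l => χ l * ((aw w l / l : ℝ) : ℂ) with hc
  -- the identity
  have hT : TX χ h N z = ∑ d ∈ L, (χ d * ((muw w d / d : ℝ) : ℂ)) * ∑ m ∈ L,
      (χ m * ((ArithmeticFunction.log m / m : ℝ) : ℂ)) * triC h (z - Real.log d - Real.log m) +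
      ∑ m ∈ L, (χ m * ((Λ m / m : ℝ) : ℂ)) * ggC h L c (z - Real.log m) := by
    have h1 : TX χ h N z = ∑ n ∈ L, χ n * (((muw w * ArithmeticFunction.log) n / n : ℝ) : ℂ) *
          triC h (z - Real.log n) +
        ∑ n ∈ L, χ n * (((ArithmeticFunction.vonMangoldt * aw w) n / n : ℝ) : ℂ) *
          triC h (z - Real.log n) := by
      unfold TX
      rw [← Finset.sum_add_distrib]
      refine Finset.sum_congr rfl fun n _ => ?_
      conv_lhs => rw [La_identity w]
      rw [ArithmeticFunction.add_apply]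
      push_cast
      ring
    rw [h1, conv_sumX χ _ _ h z hh N hzN, conv_sumX χ _ _ h z hh N hzN]
    rfl
  rw [typeIIX χ hh N u0 U hu (by linarith) L hLpos c] at hT
  -- type I
  have hI : ‖∑ d ∈ L, (χ d * ((muw w d / d : ℝ) : ℂ)) * ∑ m ∈ L,
      (χ m * ((ArithmeticFunction.log m / m : ℝ) : ℂ)) *
        triC h (z - Real.log d - Real.log m)‖ ≤
      w * (Q * (48 * (z + 2) * (Real.exp (-z) / h ^ 2))) := by
    rw [muw_sumC w N hwN]
    have h3 := dsum_le hχ (fun v => v) (z := z) (K := z + 2) hh hh1 w N hw (by linarith)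
      (by linarith) (by
        intro v hv hv2
        rw [abs_of_nonneg hv]
        exact hv2) (by intro v w; exact le_rfl) hzN
    exact h3
  -- the bound for `gg`
  have hgg : ∀ x : ℝ, Z - u0 ≤ x → x ≤ z → ‖ggC h L c x‖ ≤
      w * (Q * (48 * 1 * (Real.exp (u0 - Z) / h ^ 2))) := by
    intro x hx1 hx2
    refine (ggC_small hχ hh hh1 w N hw (by linarith) (by
      refine le_trans (Real.exp_le_exp.2 ?_) hzN
      linarith)).trans ?_
    have : Real.exp (-x) ≤ Real.exp (u0 - Z) := Real.exp_le_exp.2 (by linarith)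
    gcongr
  set ε := w * (Q * (48 * 1 * (Real.exp (u0 - Z) / h ^ 2))) with hε
  have hε0 : 0 ≤ ε := by positivity
  -- the first part
  have hP1 : ‖∑ m ∈ L, (χ m * ((Λ m / m * (1 - rp u0 (Real.log m)) : ℝ) : ℂ)) *
        ggC h L c (z - Real.log m)‖ ≤ u0 * (1 + u0) * ε := by
    refine (norm_sum_le _ _).trans ?_
    have h1 : ∀ m ∈ L, ‖(χ m * ((Λ m / m * (1 - rp u0 (Real.log m)) : ℝ) : ℂ)) *
        ggC h L c (z - Real.log m)‖ ≤
        if Real.log m < u0 then ArithmeticFunction.vonMangoldt m / m * ε else 0 := by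
      intro m hm
      have hm0 := hLpos m hm
      have h2 : 0 ≤ ArithmeticFunction.vonMangoldt m / (m : ℝ) :=
        div_nonneg ArithmeticFunction.vonMangoldt_nonneg (by positivity)
      have h5 : 0 ≤ Real.log m := Real.log_nonneg (by exact_mod_cast hm0)
      split_ifs with h3
      · rw [norm_mul, norm_mul, Complex.norm_real, Real.norm_eq_abs, abs_mul, abs_of_nonneg h2,
          abs_of_nonneg (by linarith [rp_le_one (u0 : ℝ) (Real.log m)])]
        have h4 := hgg (z - Real.log m) (by linarith) (by linarith)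
        have h6 := χ.norm_le_one (m : ZMod Q)
        have h7 := rp_nonneg (u0 : ℝ) (Real.log m)
        have h8 := rp_le_one (u0 : ℝ) (Real.log m)
        calc _ ≤ 1 * (Λ m / m * 1) * ε := by
              apply mul_le_mul _ h4 (norm_nonneg _) (by positivity)
              apply mul_le_mul h6 _ (mul_nonneg h2 (by linarith)) zero_le_one
              exact mul_le_mul_of_nonneg_left (by linarith) h2
          _ = _ := by ring
      · rw [rp_one (not_lt.1 h3)]
        simp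
    refine (Finset.sum_le_sum h1).trans ?_
    rw [← Finset.sum_filter, ← Finset.sum_mul]
    apply mul_le_mul_of_nonneg_right _ hε0
    exact La_sum_le N (by positivity)
  rw [hT]
  set I1 := ∑ d ∈ L, (χ d * ((muw w d / d : ℝ) : ℂ)) * ∑ m ∈ L,
      (χ m * ((ArithmeticFunction.log m / m : ℝ) : ℂ)) *
        triC h (z - Real.log d - Real.log m) with hI1
  set P1 := ∑ m ∈ L, (χ m * ((Λ m / m * (1 - rp u0 (Real.log m)) : ℝ) : ℂ)) *
        ggC h L c (z - Real.log m) with hP1'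
  set F1 := ∑ u ∈ Finset.Icc u0 U, FX χ u h N L c z with hF1
  have e : I1 + (P1 + F1) - F1 = I1 + P1 := by ring
  rw [e]
  exact (norm_add_le _ _).trans (add_le_add hI hP1)

end Pool.Agent.W66L
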