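import Pool.Agent.W66.LF

set_option autoImplicit false

/-!
# Primes in almost all residue classes, in a smoothed mean square form
-/

open Complex Filter Topology Set MeasureTheory Metric
open scoped Real FourierTransform
open scoped ArithmeticFunction.vonMangoldt

namespace Pool.Agent.W66L

open Pool.Agent.W66

lemma PX_triv {Q : ℕ} (χ : DirichletCharacter ℂ Q) {u : ℝ} (hu : 1 ≤ u) (ξ : ℝ) :
    ‖PX χ u (2 * π * ξ)‖ ≤ (u + 1) * (u + 2) := by
  rw [PX_fin χ u ξ _ (Nat.le_ceil _)]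
  refine (norm_sum_le _ _).trans ?_
  have h1 : ∀ n ∈ Finset.Ioc 0 ⌈Real.exp (u + 1)⌉₊,
      ‖(χ n * ((Λ n / n * hat (u - Real.log n) : ℝ) : ℂ)) *
      Complex.exp (-(((2 * π * ξ * Real.log n : ℝ) : ℂ) * Complex.I))‖ ≤
      if Real.log n < u + 1 then ArithmeticFunction.vonMangoldt n / n else 0 := by
    intro n _
    have h2 : 0 ≤ ArithmeticFunction.vonMangoldt n / (n : ℝ) :=
      div_nonneg ArithmeticFunction.vonMangoldt_nonneg (by positivity)
    rw [norm_mul, norm_mul, show -(((2 * π * ξ * Real.log n : ℝ) : ℂ) * Complex.I) =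
      ((-(2 * π * ξ * Real.log n) : ℝ) : ℂ) * Complex.I by push_cast; ring,
      Complex.norm_exp_ofReal_mul_I, mul_one, Complex.norm_real,
      Real.norm_of_nonneg (mul_nonneg h2 (hat_nonneg _))]
    have h4 := χ.norm_le_one (n : ZMod Q)
    split_ifs with h3
    · calc _ ≤ 1 * (ArithmeticFunction.vonMangoldt n / n * 1) :=
            mul_le_mul h4 (mul_le_mul_of_nonneg_left (hat_le_one _) h2)
              (mul_nonneg h2 (hat_nonneg _)) zero_le_one
        _ = _ := by ring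
    · rw [hat_zero_of, mul_zero, mul_zero]
      rw [not_lt] at h3
      rw [abs_of_nonpos (by linarith)]
      linarith
  refine (Finset.sum_le_sum h1).trans ?_
  rw [← Finset.sum_filter]
  refine (La_sum_le _ (by linarith)).trans (le_of_eq (by ring))

/-- uniform bound of the transform -/
theorem M_boundX (D B : ℕ) : ∃ C0 K : ℝ, 0 < C0 ∧ 0 < K ∧ ∀ (Q : ℕ) [NeZero Q]
    (χ : DirichletCharacter ℂ Q), χ ^ 2 ≠ 1 → ∀ Z h u : ℝ, 20 ≤ Z →
    11 * (Z ^ (D + B) * Real.exp (-√Z)) ≤ 1 → √Z ≤ Real.log Q → Real.log Q ≤ Z →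
    1 / Z ^ B ≤ h →
    1 ≤ u → C0 * Real.log Q * Real.log Z ≤ u → u ≤ Z + 4 → ∀ ξ : ℝ,
    ‖PX χ u (2 * π * ξ)‖ * ‖𝓕 (boxC h) ξ‖ ≤ K * (Z ^ 2 / Z ^ D) := by
  obtain ⟨c, C, hc, hc1, hC, hPE⟩ := PX_bound
  refine ⟨2 * D / c + 1, C * 13 + 2, by positivity, by positivity,
    fun Q _ χ hχ2 Z h u hZ hZD hlam1 hlam2 hh hu1 hu2 hu3 ξ => ?_⟩
  set lam := Real.log Q with hlam
  have hZ0 : 0 < Z := by linarith
  have hh0 : 0 < h := lt_of_lt_of_le (by positivity) hh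
  have hsq1 : 1 ≤ √Z := by rw [Real.one_le_sqrt]; linarith
  have hlam0 : 1 ≤ lam := hsq1.trans hlam1
  have hZD0 : 0 < Z ^ D := by positivity
  have hZB1 : 1 ≤ Z ^ B := one_le_pow₀ (by linarith)
  have hZD1 : 1 ≤ Z ^ D := one_le_pow₀ (by linarith)
  rcases le_or_gt |ξ| (Z ^ D / h) with hξ | hξ
  · have h1 := hPE Q χ hχ2 u (2 * π * ξ) (Z ^ D) hu1 hZD1
    set ℓ := lq Q (|2 * π * ξ| + Z ^ D) with hℓ
    have hℓ1 : 1 ≤ ℓ := one_le_lq _ _
    have hpi := Real.pi_lt_d2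
    have hpi0 := Real.pi_pos
    have hℓ2 : ℓ ≤ 2 * lam := by
      rw [hℓ]
      unfold lq ell
      rw [abs_of_nonneg (by positivity), ← hlam]
      have e1 : |2 * π * ξ| + Z ^ D + 3 ≤ 11 * Z ^ (D + B) := by
        have e2 : |2 * π * ξ| ≤ 7 * Z ^ (D + B) := by
          rw [abs_mul, abs_of_pos (by positivity : 0 < 2 * π)]
          have e3 : Z ^ D / h ≤ Z ^ (D + B) := by
            rw [div_le_iff₀ hh0, pow_add, mul_assoc]
            rw [div_le_iff₀ (by positivity)] at hh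
            exact le_mul_of_one_le_right hZD0.le (by rw [mul_comm]; exact hh)
          have hξ' := hξ.trans e3
          have h0 : 0 ≤ |ξ| := abs_nonneg _
          have h7 : 2 * π ≤ 7 := by linarith only [hpi]
          exact mul_le_mul h7 hξ' h0 (by norm_num)
        have e4 : Z ^ D ≤ Z ^ (D + B) := pow_le_pow_right₀ (by linarith) (by omega)
        have e5 : 1 ≤ Z ^ (D + B) := one_le_pow₀ (by linarith)
        linarith
      have e2 : 11 * Z ^ (D + B) ≤ Real.exp lam := by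
        have e3 : 11 * Z ^ (D + B) ≤ Real.exp (√Z) := by
          rw [Real.exp_neg, ← div_eq_mul_inv, ← mul_div_assoc, div_le_one (Real.exp_pos _)] at hZD
          exact hZD
        exact e3.trans (Real.exp_le_exp.2 hlam1)
      have e3 : Real.log (|2 * π * ξ| + Z ^ D + 3) ≤ lam := by
        rw [Real.log_le_iff_le_exp (by positivity)]
        exact e1.trans e2
      linarith
    have hexp : Real.exp (-(c * u / ℓ)) ≤ 1 / Z ^ D := by
      have e1 : (D : ℝ) * Real.log Z ≤ c * u / ℓ := by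
        rw [le_div_iff₀ (by linarith)]
        have hlZ : 0 ≤ Real.log Z := Real.log_nonneg (by linarith)
        calc (D : ℝ) * Real.log Z * ℓ ≤ D * Real.log Z * (2 * lam) := by gcongr
          _ = c * ((2 * D / c) * lam * Real.log Z) := by field_simp
          _ ≤ c * ((2 * D / c + 1) * lam * Real.log Z) := by gcongr; linarith
          _ ≤ c * u := by gcongr
      have e2 : 1 / Z ^ D = Real.exp (-((D : ℝ) * Real.log Z)) := by
        rw [Real.exp_neg, Real.exp_nat_mul, Real.exp_log hZ0, one_div]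
      rw [e2]
      exact Real.exp_le_exp.2 (by linarith)
    have hℓsq : ℓ ^ 2 ≤ 4 * Z ^ 2 := by
      calc ℓ ^ 2 ≤ (2 * Z) ^ 2 := by gcongr; linarith
        _ = _ := by ring
    have h2 : ℓ ^ 2 * Real.exp (-(c * u / ℓ)) + ℓ ^ 2 / (Z ^ D) ^ 2 + u / Z ^ D ≤
        13 * (Z ^ 2 / Z ^ D) := by
      have e1 : ℓ ^ 2 * Real.exp (-(c * u / ℓ)) ≤ 4 * Z ^ 2 * (1 / Z ^ D) := by gcongr
      have e2 : ℓ ^ 2 / (Z ^ D) ^ 2 ≤ 4 * Z ^ 2 / Z ^ D := by
        have : Z ^ D ≤ (Z ^ D) ^ 2 := by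
          rw [sq]
          exact le_mul_of_one_le_left hZD0.le hZD1
        gcongr
      have e3 : u / Z ^ D ≤ 5 * Z ^ 2 / Z ^ D := by
        gcongr
        have h20 : 20 * Z ≤ Z * Z := mul_le_mul_of_nonneg_right hZ hZ0.le
        rw [sq]
        linarith only [h20, hu3, hZ]
      calc _ ≤ 4 * Z ^ 2 * (1 / Z ^ D) + 4 * Z ^ 2 / Z ^ D + 5 * Z ^ 2 / Z ^ D := by linarith
        _ = _ := by ring
    have h3 := norm_four_box_le_one hh0 ξ
    have h4 : 0 ≤ Z ^ 2 / Z ^ D := by positivity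
    calc ‖PX χ u (2 * π * ξ)‖ * ‖𝓕 (boxC h) ξ‖ ≤
          (C * (13 * (Z ^ 2 / Z ^ D))) * 1 := by
          apply mul_le_mul _ h3 (norm_nonneg _) (by positivity)
          refine h1.trans ?_
          gcongr
      _ = C * 13 * (Z ^ 2 / Z ^ D) := by ring
      _ ≤ _ := by
          apply mul_le_mul_of_nonneg_right _ h4
          linarith
  · have hξ0 : ξ ≠ 0 := by
      intro h0
      rw [h0, abs_zero] at hξ
      have : 0 < Z ^ D / h := by positivity
      linarith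
    have h1 := norm_four_box_le hh0 hξ0
    have h2 : 1 / (h * |ξ|) ≤ 1 / Z ^ D := by
      apply one_div_le_one_div_of_le hZD0
      rw [div_lt_iff₀ hh0] at hξ
      linarith
    have h3 := PX_triv χ hu1 ξ
    have h4 : (u + 1) * (u + 2) ≤ 2 * Z ^ 2 := by
      have h20 : 20 * Z ≤ Z * Z := mul_le_mul_of_nonneg_right hZ hZ0.le
      calc (u + 1) * (u + 2) ≤ (Z + 5) * (Z + 6) :=
            mul_le_mul (by linarith only [hu3]) (by linarith only [hu3]) (by linarith only [hu1])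
              (by linarith only [hZ])
        _ = Z * Z + 11 * Z + 30 := by ring
        _ ≤ 2 * (Z * Z) := by linarith only [h20, hZ]
        _ = _ := by ring
    have h5 : 0 ≤ Z ^ 2 / Z ^ D := by positivity
    calc ‖PX χ u (2 * π * ξ)‖ * ‖𝓕 (boxC h) ξ‖ ≤ (2 * Z ^ 2) * (1 / Z ^ D) := by
          apply mul_le_mul (h3.trans h4) (h1.trans h2) (norm_nonneg _) (by positivity)
      _ = 2 * (Z ^ 2 / Z ^ D) := by ring
      _ ≤ _ := by
          apply mul_le_mul_of_nonneg_right _ h5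
          have : 0 < C * 13 := by positivity
          linarith

lemma TX_le {Q : ℕ} (χ : DirichletCharacter ℂ Q) {h z : ℝ} (hh : 0 < h) {N N' : ℕ}
    (hN : Real.exp (z + h) ≤ N) (hNN : N ≤ N') : TX χ h N' z = TX χ h N z := by
  unfold TX
  symm
  apply Finset.sum_subset (Finset.Ioc_subset_Ioc_right hNN)
  intro n hn hn2
  rw [Finset.mem_Ioc] at hn hn2
  have h1 : N < n := by omega
  have h2 : z + h ≤ Real.log n := by
    rw [Real.le_log_iff_exp_le (by exact_mod_cast hn.1)]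
    refine hN.trans ?_
    exact_mod_cast h1.le
  unfold triC
  rw [tri_zero_of hh, Complex.ofReal_zero, mul_zero]
  rw [abs_of_nonpos (by linarith)]
  linarith

lemma TX_indep {Q : ℕ} (χ : DirichletCharacter ℂ Q) {h z : ℝ} (hh : 0 < h) {N N' : ℕ}
    (hN : Real.exp (z + h) ≤ N) (hN' : Real.exp (z + h) ≤ N') : TX χ h N' z = TX χ h N z := by
  rcases le_total N N' with h1 | h1
  · exact TX_le χ hh hN h1
  · exact (TX_le χ hh hN' h1).symm

lemma TX_continuous {Q : ℕ} (χ : DirichletCharacter ℂ Q) (h : ℝ) (N : ℕ) :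
    Continuous (TX χ h N) := by
  unfold TX
  apply continuous_finsetSum
  intro n _
  exact continuous_const.mul ((triC_continuous h).comp (by fun_prop))

lemma norm_sum_sq_le (s : Finset ℕ) (f : ℕ → ℂ) :
    ‖∑ u ∈ s, f u‖ ^ 2 ≤ s.card * ∑ u ∈ s, ‖f u‖ ^ 2 := by
  have h1 := norm_sum_le s f
  calc ‖∑ u ∈ s, f u‖ ^ 2 ≤ (∑ u ∈ s, ‖f u‖) ^ 2 := by gcongr
    _ ≤ _ := sum_sq_le s fun u => ‖f u‖

/-- the characters which are not real -/
noncomputable def nr (Q : ℕ) [NeZero Q] : Finset (DirichletCharacter ℂ Q) :=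
  Finset.univ.filter fun χ => χ ^ 2 ≠ 1

theorem KTX (A B : ℕ) : ∃ c0 Z0 : ℝ, 0 < c0 ∧ 1 ≤ Z0 ∧ ∀ (Q : ℕ) [NeZero Q] (Z h : ℝ), Z0 ≤ Z →
    1 / Z ^ B ≤ h → h ≤ 1 → √Z ≤ Real.log Q → Real.log Q * Real.log Z ≤ c0 * Z →
    ∀ N : ℕ, Real.exp (Z + 2) ≤ N →
    ∑ χ ∈ nr Q, ∫ z in Z..(Z + 1), ‖TX χ h N z‖ ^ 2 ≤ 1 / Z ^ A := by
  set D := A + 6 with hD
  obtain ⟨C0, K, hC0, hK, hM⟩ := M_boundX D B
  -- the constants
  set K3 : ℝ := 2 + 2 * (64 * K ^ 2 * 5) with hK3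
  have hlim1 : ∀ᶠ Z : ℝ in atTop, 11 * (Z ^ (D + B) * Real.exp (-√Z)) ≤ 1 := by
    have h1 := (Real.tendsto_pow_mul_exp_neg_atTop_nhds_zero (2 * (D + B))).comp
      Real.tendsto_sqrt_atTop
    have h2 : ∀ᶠ Z : ℝ in atTop, (√Z) ^ (2 * (D + B)) * Real.exp (-√Z) < 1 / 11 :=
      h1.eventually_lt_const (by norm_num)
    filter_upwards [h2, eventually_ge_atTop 0] with Z h3 h4
    rw [pow_mul, Real.sq_sqrt h4] at h3
    linarith
  have hlim2 : ∀ᶠ Z : ℝ in atTop, 288 ^ 2 * 9 * (Z ^ (6 * B + 4 + 2 * D) * Real.exp (-Z)) ≤ 1 := by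
    have h1 := Real.tendsto_pow_mul_exp_neg_atTop_nhds_zero (6 * B + 4 + 2 * D)
    have h2 : ∀ᶠ Z : ℝ in atTop, Z ^ (6 * B + 4 + 2 * D) * Real.exp (-Z) < 1 / (288 ^ 2 * 9) :=
      h1.eventually_lt_const (by positivity)
    filter_upwards [h2] with Z h3
    rw [lt_div_iff₀ (by positivity)] at h3
    linarith
  have hlim3 : ∀ᶠ Z : ℝ in atTop, (B : ℝ) * Real.log Z + 2 ≤ Z / 12 := by
    have h1 : Tendsto (fun Z : ℝ => Real.log Z / Z) atTop (𝓝 0) := by
      simpa using Real.tendsto_pow_log_div_mul_add_atTop 1 0 1 one_ne_zero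
    have h2 : ∀ᶠ Z : ℝ in atTop, Real.log Z / Z < 1 / (24 * (B + 1)) :=
      h1.eventually_lt_const (by positivity)
    filter_upwards [h2, eventually_ge_atTop 100] with Z h3 h4
    rw [div_lt_iff₀ (by linarith)] at h3
    have h5 : (B : ℝ) * Real.log Z ≤ (B + 1) * (1 / (24 * (B + 1)) * Z) := by
      have h6 : 0 ≤ Real.log Z := Real.log_nonneg (by linarith)
      have h7 : (0 : ℝ) ≤ B := Nat.cast_nonneg _
      exact mul_le_mul (by linarith only) h3.le h6 (by linarith only [h7])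
    have h6 : ((B : ℝ) + 1) * (1 / (24 * (B + 1)) * Z) = Z / 24 := by
      field_simp
    rw [h6] at h5
    linarith
  obtain ⟨Z1, hZ1⟩ := (hlim1.and (hlim2.and hlim3)).exists_forall_of_atTop
  refine ⟨min (1 / 12) (1 / (4 * C0)), max (max Z1 K3) 20, by positivity, by
    refine le_trans ?_ (le_max_right _ _); norm_num, fun Q _ Z h hZ hh hh1 hlam1 hlam2 N hN => ?_⟩
  have hQ : 0 < Q := Nat.pos_of_ne_zero (NeZero.ne Q)
  have hQr : (0 : ℝ) < Q := by exact_mod_cast hQ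
  set lam := Real.log Q with hlam
  have hQe : (Q : ℝ) = Real.exp lam := by rw [hlam, Real.exp_log hQr]
  have hZ20 : 20 ≤ Z := (le_max_right _ _).trans hZ
  have hZK : K3 ≤ Z := ((le_max_right _ _).trans (le_max_left _ _)).trans hZ
  obtain ⟨hE1, hE2, hE3⟩ := hZ1 Z (((le_max_left _ _).trans (le_max_left _ _)).trans hZ)
  have hZ0 : 0 < Z := by linarith
  have hZD0 : 0 < Z ^ D := by positivity
  have hZB0 : 0 < Z ^ B := by positivity
  have hZB1 : 1 ≤ Z ^ B := one_le_pow₀ (by linarith)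
  have hh0 : 0 < h := lt_of_lt_of_le (by positivity) hh
  have hsq1 : 1 ≤ √Z := by rw [Real.one_le_sqrt]; linarith
  have hlam0 : 1 ≤ lam := hsq1.trans hlam1
  have hlogZ : 1 ≤ Real.log Z := by
    rw [Real.le_log_iff_exp_le hZ0]
    linarith [Real.exp_one_lt_d9]
  have hlam12 : lam ≤ Z / 12 := by
    calc lam ≤ lam * Real.log Z := le_mul_of_one_le_right (by linarith only [hlam0]) hlogZ
      _ ≤ min (1 / 12) (1 / (4 * C0)) * Z := hlam2
      _ ≤ 1 / 12 * Z := by gcongr; exact min_le_left _ _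
      _ = _ := by ring
  -- parameters
  have hQ1 : (1 : ℝ) ≤ Q := by exact_mod_cast hQ
  set w := ⌈(Q : ℝ) * Z ^ B⌉₊ with hw
  have hw1 : (Q : ℝ) * Z ^ B ≤ w := Nat.le_ceil _
  have hQZ1 : 1 ≤ (Q : ℝ) * Z ^ B := one_le_mul_of_one_le_of_one_le hQ1 hZB1
  have hw2 : (w : ℝ) ≤ 2 * (Q * Z ^ B) := by
    have h1 : (w : ℝ) < Q * Z ^ B + 1 := Nat.ceil_lt_add_one (by positivity)
    linarith
  have hw0 : (0 : ℝ) < w := by linarith
  have hwn : 1 ≤ w := by exact_mod_cast hw0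
  have hlw2 : Real.log w ≤ Z / 6 := by
    have h1 : Real.log w ≤ Real.log (2 * (Q * Z ^ B)) := Real.log_le_log hw0 hw2
    rw [Real.log_mul (by norm_num) (by positivity), Real.log_mul hQr.ne' (by positivity),
      Real.log_pow, ← hlam] at h1
    have h2 : Real.log 2 ≤ 1 := by linarith [Real.log_two_lt_d9]
    linarith
  set u0 := ⌈C0 * lam * Real.log Z⌉₊ with hu0
  have hu0a : C0 * lam * Real.log Z ≤ u0 := Nat.le_ceil _
  have hu0pos : 0 < C0 * lam * Real.log Z := by positivity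
  have hu0b : (u0 : ℝ) ≤ Z / 4 + 1 := by
    have h1 : (u0 : ℝ) < C0 * lam * Real.log Z + 1 := Nat.ceil_lt_add_one hu0pos.le
    have h2 : C0 * lam * Real.log Z ≤ Z / 4 := by
      calc C0 * lam * Real.log Z = C0 * (lam * Real.log Z) := by ring
        _ ≤ C0 * (min (1 / 12) (1 / (4 * C0)) * Z) := by gcongr
        _ ≤ C0 * (1 / (4 * C0) * Z) := by gcongr; exact min_le_right _ _
        _ = _ := by field_simp
    linarith
  have hu01 : 1 ≤ u0 := Nat.ceil_pos.2 hu0pos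
  set U := ⌈Z + 2⌉₊ with hU
  have hU1 : Z + 2 ≤ U := Nat.le_ceil _
  have hU2 : (U : ℝ) ≤ Z + 3 := by
    have := Nat.ceil_lt_add_one (show 0 ≤ Z + 2 by linarith)
    linarith
  have hu0U : u0 ≤ U := by
    have : (u0 : ℝ) ≤ U := by linarith
    exact_mod_cast this
  set N' := ⌈Real.exp ((U : ℝ) + 1)⌉₊ with hN'
  have hN'1 : Real.exp ((U : ℝ) + 1) ≤ N' := Nat.le_ceil _
  have hN'0 : (0 : ℝ) < N' := lt_of_lt_of_le (Real.exp_pos _) hN'1
  have hN'n : 1 ≤ N' := by exact_mod_cast (Nat.ceil_pos.2 (Real.exp_pos _))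
  have hN'2 : Real.log N' ≤ Z + 5 := by
    rw [Real.log_le_iff_le_exp hN'0]
    have h1 : (N' : ℝ) < Real.exp ((U : ℝ) + 1) + 1 := Nat.ceil_lt_add_one (Real.exp_pos _).le
    have h2 : Real.exp ((U : ℝ) + 1) ≤ Real.exp (Z + 4) := Real.exp_le_exp.2 (by linarith)
    have h3 : Real.exp (Z + 5) = Real.exp (Z + 4) * Real.exp 1 := by
      rw [← Real.exp_add]; congr 1; ring
    have h4 : 1 ≤ Real.exp (Z + 4) := Real.one_le_exp (by linarith)
    have h5 : (2 : ℝ) ≤ Real.exp 1 := by linarith [Real.exp_one_gt_d9]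
    have h6 := mul_le_mul_of_nonneg_left h5 (Real.exp_pos (Z + 4)).le
    rw [h3]
    linarith
  -- the pointwise error
  set c : (χ : DirichletCharacter ℂ Q) → ℕ → ℂ := fun χ l => χ l * ((aw w l / l : ℝ) : ℂ) with hc
  set F : DirichletCharacter ℂ Q → ℝ → ℂ := fun χ z => ∑ u ∈ Finset.Icc u0 U,
    FX χ u h N' (Finset.Ioc 0 N') (c χ) z with hF
  set E : ℝ := 288 * (Q ^ 2 * Z ^ (3 * B + 2) * Real.exp (u0 - Z)) with hE
  have hE0 : 0 ≤ E := by positivity
  have hhinv : ∀ a : ℝ, 0 ≤ a → a / h ^ 2 ≤ a * Z ^ (2 * B) := by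
    intro a ha
    have h1 : 1 ≤ h * Z ^ B := by rwa [div_le_iff₀ hZB0] at hh
    have h2 : 1 ≤ (h * Z ^ B) ^ 2 := one_le_pow₀ h1
    rw [div_le_iff₀ (by positivity), mul_assoc, mul_comm 2 B, pow_mul]
    have h3 : (Z ^ B) ^ 2 * h ^ 2 = (h * Z ^ B) ^ 2 := by ring
    rw [h3]
    exact le_mul_of_one_le_right ha h2
  have hpt : ∀ χ ∈ nr Q, ∀ z, Z ≤ z → z ≤ Z + 1 → ‖TX χ h N z - F χ z‖ ≤ E := by
    intro χ hχ z hz1 hz2
    unfold nr at hχ
    rw [Finset.mem_filter] at hχ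
    have hχ1 : χ ≠ 1 := by
      rintro rfl
      exact hχ.2 (one_pow 2)
    have hzN : Real.exp (z + h) ≤ N := le_trans (Real.exp_le_exp.2 (by linarith)) hN
    have hzN' : Real.exp (z + h) ≤ N' := le_trans (Real.exp_le_exp.2 (by linarith)) hN'1
    rw [TX_indep χ hh0 hzN' hzN]
    have h1 := KT_ineqX hχ1 hh0 hh1 w N' u0 U hwn hz1 hz2 hu01 hu0U hU1 hN'1 (by linarith)
    refine h1.trans ?_
    have hi1 := hhinv (Real.exp (-z)) (Real.exp_pos _).le
    have hi2 := hhinv (Real.exp (u0 - Z)) (Real.exp_pos _).le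
    have hez : Real.exp (-z) ≤ Real.exp (u0 - Z) := by
      apply Real.exp_le_exp.2
      have : (0 : ℝ) ≤ u0 := Nat.cast_nonneg _
      linarith
    have t1 : w * (Q * (48 * (z + 2) * (Real.exp (-z) / h ^ 2))) ≤
        (2 * (Q * Z ^ B)) * (Q * (48 * (2 * Z) * (Real.exp (u0 - Z) * Z ^ (2 * B)))) := by
      have : 0 ≤ z + 2 := by linarith
      have hi3 : Real.exp (-z) / h ^ 2 ≤ Real.exp (u0 - Z) * Z ^ (2 * B) :=
        hi1.trans (mul_le_mul_of_nonneg_right hez (by positivity))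
      have hz3 : z + 2 ≤ 2 * Z := by linarith
      gcongr
    have t2 : u0 * (1 + u0) * (w * (Q * (48 * 1 * (Real.exp (u0 - Z) / h ^ 2)))) ≤
        Z ^ 2 * ((2 * (Q * Z ^ B)) * (Q * (48 * 1 * (Real.exp (u0 - Z) * Z ^ (2 * B))))) := by
      have h5 : (1 : ℝ) ≤ u0 := by exact_mod_cast hu01
      have h6 : u0 * (1 + u0) ≤ Z ^ 2 := by
        rw [sq]
        exact mul_le_mul (by linarith) (by linarith) (by linarith) hZ0.le
      gcongr
    have e1 : (2 * ((Q : ℝ) * Z ^ B)) * (Q * (48 * (2 * Z) * (Real.exp (u0 - Z) * Z ^ (2 * B)))) =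
        192 * (Q ^ 2 * Z ^ (3 * B + 1) * Real.exp (u0 - Z)) := by ring
    have e2 : Z ^ 2 * ((2 * ((Q : ℝ) * Z ^ B)) * (Q * (48 * 1 * (Real.exp (u0 - Z) * Z ^ (2 * B))))) =
        96 * (Q ^ 2 * Z ^ (3 * B + 2) * Real.exp (u0 - Z)) := by ring
    have e3 : (Q : ℝ) ^ 2 * Z ^ (3 * B + 1) * Real.exp (u0 - Z) ≤
        Q ^ 2 * Z ^ (3 * B + 2) * Real.exp (u0 - Z) := by
      have : Z ^ (3 * B + 1) ≤ Z ^ (3 * B + 2) := pow_le_pow_right₀ (by linarith) (by omega)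
      gcongr
    rw [e1] at t1
    rw [e2] at t2
    rw [hE]
    linarith
  -- the error is small
  have hEs : (Q : ℝ) * E ^ 2 ≤ 1 / (Z ^ D) ^ 2 := by
    have e1 : (Q : ℝ) * E ^ 2 = 288 ^ 2 * (Z ^ (6 * B + 4) * Real.exp (5 * lam + 2 * u0 - 2 * Z)) := by
      rw [hE]
      have e2 : (Q : ℝ) ^ 5 = Real.exp (5 * lam) := by
        rw [hQe, ← Real.exp_nat_mul]; norm_num
      have e3 : Real.exp (u0 - Z) ^ 2 = Real.exp (2 * u0 - 2 * Z) := by
        rw [← Real.exp_nat_mul]; congr 1; push_cast; ring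
      have e4 : Real.exp (5 * lam + 2 * u0 - 2 * Z) = Real.exp (5 * lam) * Real.exp (2 * u0 - 2 * Z) := by
        rw [← Real.exp_add]; congr 1; ring
      rw [e4, ← e2, ← e3]
      ring
    rw [e1, le_div_iff₀ (by positivity)]
    have e2 : Real.exp (5 * lam + 2 * u0 - 2 * Z) ≤ 9 * Real.exp (-Z) := by
      have e3 : Real.exp (5 * lam + 2 * u0 - 2 * Z) ≤ Real.exp (2 + -Z) :=
        Real.exp_le_exp.2 (by linarith)
      rw [Real.exp_add] at e3
      have e4 : Real.exp 2 ≤ 9 := by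
        have : Real.exp 2 = Real.exp 1 ^ 2 := by rw [← Real.exp_nat_mul]; norm_num
        rw [this]
        have h1 : Real.exp 1 ≤ 3 := by linarith only [Real.exp_one_lt_d9]
        have h2 : Real.exp 1 ^ 2 ≤ 3 ^ 2 := pow_le_pow_left₀ (Real.exp_pos 1).le h1 2
        linarith only [h2]
      have e5 : Real.exp 2 * Real.exp (-Z) ≤ 9 * Real.exp (-Z) := by gcongr
      linarith
    calc 288 ^ 2 * (Z ^ (6 * B + 4) * Real.exp (5 * lam + 2 * u0 - 2 * Z)) * (Z ^ D) ^ 2 ≤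
          288 ^ 2 * (Z ^ (6 * B + 4) * (9 * Real.exp (-Z))) * (Z ^ D) ^ 2 := by gcongr
      _ = 288 ^ 2 * 9 * (Z ^ (6 * B + 4 + 2 * D) * Real.exp (-Z)) := by
          rw [pow_add Z (6 * B + 4) (2 * D), mul_comm 2 D, pow_mul]
          ring
      _ ≤ 1 := hE2
  -- the mean square
  have hFc : ∀ χ, Continuous (F χ) := by
    intro χ
    apply continuous_finsetSum
    intro u _
    exact FX_continuous χ h u N' _ _
  have hdom : ∀ χ, Integrable fun z => ((Finset.Icc u0 U).card : ℝ) * ∑ u ∈ Finset.Icc u0 U,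
        ‖FX χ u h N' (Finset.Ioc 0 N') (c χ) z‖ ^ 2 := fun χ =>
      (integrable_finsetSum _ fun (u : ℕ) _ => FX_sq_integrable χ hh0 u N' _ _).const_mul _
  have hFint : ∀ χ, Integrable fun z => ‖F χ z‖ ^ 2 := by
    intro χ
    refine (hdom χ).mono' ((hFc χ).norm.pow 2).aestronglyMeasurable (Eventually.of_forall fun z => ?_)
    rw [Real.norm_of_nonneg (by positivity)]
    exact norm_sum_sq_le _ _
  have hFsq : ∑ χ ∈ nr Q, ∫ z, ‖F χ z‖ ^ 2 ≤ 64 * K ^ 2 * 5 * (Z ^ 10 / (Z ^ D) ^ 2) := by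
    have h1 : ∀ χ ∈ nr Q, ∫ z, ‖F χ z‖ ^ 2 ≤ ((Finset.Icc u0 U).card : ℝ) *
        ∑ u ∈ Finset.Icc u0 U, (K * (Z ^ 2 / Z ^ D)) ^ 2 *
          ∫ x, ‖bbC h (Finset.Ioc 0 N') (c χ) x‖ ^ 2 := by
      intro χ hχ
      unfold nr at hχ
      rw [Finset.mem_filter] at hχ
      have h2 : ∫ z, ‖F χ z‖ ^ 2 ≤ ∫ z, ((Finset.Icc u0 U).card : ℝ) * ∑ u ∈ Finset.Icc u0 U,
          ‖FX χ u h N' (Finset.Ioc 0 N') (c χ) z‖ ^ 2 := by
        apply integral_mono (hFint χ) (hdom χ)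
        intro z
        exact norm_sum_sq_le _ _
      refine h2.trans ?_
      rw [integral_const_mul, integral_finsetSum _ fun (u : ℕ) _ => FX_sq_integrable χ hh0 u N' _ _]
      apply mul_le_mul_of_nonneg_left _ (Nat.cast_nonneg _)
      apply Finset.sum_le_sum
      intro u hu
      rw [Finset.mem_Icc] at hu
      have hu1 : (u0 : ℝ) ≤ u := by exact_mod_cast hu.1
      have hu2 : (u : ℝ) ≤ U := by exact_mod_cast hu.2
      have hu3 : (1 : ℝ) ≤ u := by exact_mod_cast hu01.trans hu.1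
      exact dispersionX χ (u := (u : ℝ)) hh0 N' (by
        refine le_trans (Real.exp_le_exp.2 ?_) hN'1
        linarith) (Finset.Ioc 0 N') (c χ)
        (M := K * (Z ^ 2 / Z ^ D)) (by positivity)
        (hM Q χ hχ.2 Z h u hZ20 hE1 hlam1 (by linarith) hh hu3 (hu0a.trans hu1) (by linarith))
    have h3 : ((Finset.Icc u0 U).card : ℝ) ≤ 2 * Z := by
      rw [Nat.card_Icc]
      have h4 : ((U + 1 - u0 : ℕ) : ℝ) ≤ ((U : ℕ) : ℝ) := by
        exact_mod_cast (by omega : U + 1 - u0 ≤ U)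
      linarith
    have h5 : ∑ χ ∈ nr Q, ∫ x, ‖bbC h (Finset.Ioc 0 N') (c χ) x‖ ^ 2 ≤ 5 * (2 * Z) ^ 4 := by
      have h6 : ∑ χ ∈ nr Q, ∫ x, ‖bbC h (Finset.Ioc 0 N') (c χ) x‖ ^ 2 ≤
          ∑ χ : DirichletCharacter ℂ Q, ∫ x, ‖bbC h (Finset.Ioc 0 N') (c χ) x‖ ^ 2 :=
        Finset.sum_le_sum_of_subset_of_nonneg (Finset.filter_subset _ _) fun χ _ _ =>
          integral_nonneg fun x => by positivity
      refine h6.trans ((bbC_sum hh0 hh1 (Finset.Ioc 0 N') (fun l => aw w l / l)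
        (fun l hl => (Finset.mem_Ioc.1 hl).1) ?_).trans ?_)
      · intro l hl hne
        have hl0 := (Finset.mem_Ioc.1 hl).1
        have hlw : w < l := by
          by_contra hc
          apply hne
          change aw w l / l = 0
          rw [aw_zero_of hl0 (not_lt.1 hc), zero_div]
        have h4 : (Q : ℝ) * Z ^ B ≤ l := hw1.trans (by exact_mod_cast hlw.le)
        have h6 : 1 / Z ^ B * l ≤ h * l := mul_le_mul_of_nonneg_right hh (Nat.cast_nonneg _)
        refine le_trans ?_ h6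
        rw [one_div_mul_eq_div, le_div_iff₀ hZB0]
        exact h4
      · have h4 := aw_sum w N' hN'n
        have h5 : 0 ≤ Real.log N' := Real.log_nonneg (by exact_mod_cast hN'n)
        have h6 : (1 + Real.log N') ^ 4 ≤ (2 * Z) ^ 4 := by
          gcongr
          linarith
        linarith
    refine (Finset.sum_le_sum h1).trans ?_
    simp only [Finset.sum_const, nsmul_eq_mul]
    have e1 : ∑ χ ∈ nr Q, ((Finset.Icc u0 U).card : ℝ) * (((Finset.Icc u0 U).card : ℝ) *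
        ((K * (Z ^ 2 / Z ^ D)) ^ 2 * ∫ x, ‖bbC h (Finset.Ioc 0 N') (c χ) x‖ ^ 2)) =
        ((Finset.Icc u0 U).card : ℝ) * (((Finset.Icc u0 U).card : ℝ) *
        ((K * (Z ^ 2 / Z ^ D)) ^ 2 * ∑ χ ∈ nr Q, ∫ x, ‖bbC h (Finset.Ioc 0 N') (c χ) x‖ ^ 2)) := by
      simp only [Finset.mul_sum]
    rw [e1]
    have h0 : 0 ≤ ∑ χ ∈ nr Q, ∫ x, ‖bbC h (Finset.Ioc 0 N') (c χ) x‖ ^ 2 :=
      Finset.sum_nonneg fun χ _ => integral_nonneg fun x => by positivity
    have h7 : (K * (Z ^ 2 / Z ^ D)) ^ 2 *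
        ∑ χ ∈ nr Q, ∫ x, ‖bbC h (Finset.Ioc 0 N') (c χ) x‖ ^ 2 ≤
        (K * (Z ^ 2 / Z ^ D)) ^ 2 * (5 * (2 * Z) ^ 4) :=
      mul_le_mul_of_nonneg_left h5 (by positivity)
    have h8 : 0 ≤ (K * (Z ^ 2 / Z ^ D)) ^ 2 *
        ∑ χ ∈ nr Q, ∫ x, ‖bbC h (Finset.Ioc 0 N') (c χ) x‖ ^ 2 := mul_nonneg (by positivity) h0
    have h9 := mul_le_mul h3 h7 h8 (by positivity)
    have h10 := mul_le_mul h3 h9 (mul_nonneg (Nat.cast_nonneg _) h8) (by positivity)
    refine h10.trans (le_of_eq ?_)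
    field_simp
    ring
  -- conclusion
  have h1 : ∀ χ ∈ nr Q, ∫ z in Z..(Z + 1), ‖TX χ h N z‖ ^ 2 ≤ 2 * E ^ 2 + 2 * ∫ z, ‖F χ z‖ ^ 2 := by
    intro χ hχ
    have hTc := TX_continuous χ h N
    have h1 : ∫ z in Z..(Z + 1), ‖TX χ h N z‖ ^ 2 ≤
        ∫ z in Z..(Z + 1), (2 * E ^ 2 + 2 * ‖F χ z‖ ^ 2) := by
      apply intervalIntegral.integral_mono_on (by linarith)
      · exact (hTc.norm.pow 2).intervalIntegrable _ _
      · exact (intervalIntegrable_const).add (((hFint χ).const_mul 2).intervalIntegrable)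
      · intro z hz
        have h2 := hpt χ hχ z hz.1 hz.2
        have h3 : ‖TX χ h N z‖ ≤ E + ‖F χ z‖ := by
          have : TX χ h N z = (TX χ h N z - F χ z) + F χ z := by ring
          rw [this]
          exact (norm_add_le _ _).trans (add_le_add h2 le_rfl)
        have h4 : ‖TX χ h N z‖ ^ 2 ≤ (E + ‖F χ z‖) ^ 2 := by gcongr
        have h5 : (E + ‖F χ z‖) ^ 2 = 2 * E ^ 2 + 2 * ‖F χ z‖ ^ 2 - (E - ‖F χ z‖) ^ 2 := by ring
        have h6 := sq_nonneg (E - ‖F χ z‖)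
        rw [h5] at h4
        linarith only [h4, h6]
    refine h1.trans ?_
    rw [intervalIntegral.integral_add intervalIntegrable_const
      (((hFint χ).const_mul 2).intervalIntegrable),
      intervalIntegral.integral_const, intervalIntegral.integral_const_mul, smul_eq_mul]
    have h2 : ∫ z in Z..(Z + 1), ‖F χ z‖ ^ 2 ≤ ∫ z, ‖F χ z‖ ^ 2 := by
      rw [intervalIntegral.integral_of_le (by linarith)]
      exact setIntegral_le_integral (hFint χ) (Eventually.of_forall fun z => by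
        simp only [Pi.zero_apply]; positivity)
    have e : (Z + 1 - Z) * (2 * E ^ 2) = 2 * E ^ 2 := by ring
    rw [e]
    linarith
  refine (Finset.sum_le_sum h1).trans ?_
  have hsplit : ∑ χ ∈ nr Q, (2 * E ^ 2 + 2 * ∫ z, ‖F χ z‖ ^ 2) =
      ((nr Q).card : ℝ) * (2 * E ^ 2) + 2 * ∑ χ ∈ nr Q, ∫ z, ‖F χ z‖ ^ 2 := by
    rw [Finset.sum_add_distrib, Finset.sum_const, nsmul_eq_mul, Finset.mul_sum]
  rw [hsplit]
  have hcard : ((nr Q).card : ℝ) ≤ Q := by
    have h2 : (nr Q).card ≤ Fintype.card (DirichletCharacter ℂ Q) := Finset.card_le_univ _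
    have h3 : Fintype.card (DirichletCharacter ℂ Q) ≤ Q := by
      rw [← Nat.card_eq_fintype_card,
        DirichletCharacter.card_eq_totient_of_hasEnoughRootsOfUnity ℂ Q]
      exact Nat.totient_le Q
    exact_mod_cast h2.trans h3
  have h4 : Z ^ 10 / (Z ^ D) ^ 2 * K3 ≤ 1 / Z ^ A := by
    calc Z ^ 10 / (Z ^ D) ^ 2 * K3 ≤ Z ^ 10 / (Z ^ D) ^ 2 * Z := by gcongr
      _ = Z ^ 11 / Z ^ (2 * A + 12) := by
          rw [← pow_mul, hD]
          rw [show (A + 6) * 2 = 2 * A + 12 by ring]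
          ring
      _ ≤ 1 / Z ^ A := by
          rw [div_le_div_iff₀ (by positivity) (by positivity), one_mul, ← pow_add]
          exact pow_le_pow_right₀ (by linarith) (by omega)
  have h5 : ((nr Q).card : ℝ) * (2 * E ^ 2) ≤ 2 * (Z ^ 10 / (Z ^ D) ^ 2) := by
    have h6 : ((nr Q).card : ℝ) * (2 * E ^ 2) ≤ 2 * (Q * E ^ 2) := by
      have h7 := mul_le_mul_of_nonneg_right hcard (sq_nonneg E)
      calc ((nr Q).card : ℝ) * (2 * E ^ 2) = 2 * (((nr Q).card : ℝ) * E ^ 2) := by ring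
        _ ≤ _ := by linarith only [h7]
    have h7 : 1 / (Z ^ D) ^ 2 ≤ Z ^ 10 / (Z ^ D) ^ 2 := by
      gcongr
      exact one_le_pow₀ (by linarith)
    linarith
  calc _ ≤ 2 * (Z ^ 10 / (Z ^ D) ^ 2) + 2 * (64 * K ^ 2 * 5 * (Z ^ 10 / (Z ^ D) ^ 2)) := by
        linarith
    _ = Z ^ 10 / (Z ^ D) ^ 2 * K3 := by rw [hK3]; ring
    _ ≤ _ := h4

end Pool.Agent.W66L
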