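import Pool.Agent.W66.LG
import Pool.Agent.H379R2.SWMain

set_option autoImplicit false

/-!
# Real characters modulo a power of `b`
-/

open Complex Filter Topology Set MeasureTheory Metric
open scoped Real
open scoped ArithmeticFunction.vonMangoldt

namespace Pool.Agent.W66L

open Pool.Agent.W66

/-- lifting square roots -/
lemma sq_lift (b : ℕ) (u : ℤ) (hu : (b : ℤ) ^ 3 ∣ u - 1) (j : ℕ) (hj : 3 ≤ j) :
    ∃ s : ℤ, (b : ℤ) ∣ s - 1 ∧ (b : ℤ) ^ j ∣ s ^ 2 - u := by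
  induction j, hj using Nat.le_induction with
  | base =>
    refine ⟨1, by simp, ?_⟩
    rw [one_pow, ← dvd_neg]
    simpa using hu
  | succ j hj ih =>
    obtain ⟨s, ⟨r, hr⟩, t, ht⟩ := ih
    rcases Int.even_or_odd' (b : ℤ) with ⟨c, hc | hc⟩
    · refine ⟨s - (b : ℤ) ^ (j - 1) * c * t, ?_, ?_⟩
      · have e : s - (b : ℤ) ^ (j - 1) * c * t - 1 =
            b * r - b * ((b : ℤ) ^ (j - 2) * c * t) := by
          have : (b : ℤ) ^ (j - 1) = b * (b : ℤ) ^ (j - 2) := by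
            rw [← pow_succ']; congr 1; omega
          rw [this]
          linear_combination hr
        rw [e]
        exact dvd_sub (dvd_mul_right _ _) (dvd_mul_right _ _)
      · have e1 : (b : ℤ) ^ j = 2 * c * (b : ℤ) ^ (j - 1) := by
          rw [← hc, ← pow_succ']; congr 1; omega
        have e2 : ((b : ℤ) ^ (j - 1)) ^ 2 = (b : ℤ) ^ (j + 1) * (b : ℤ) ^ (j - 3) := by
          rw [← pow_mul, ← pow_add]; congr 1; omega
        have e : (s - (b : ℤ) ^ (j - 1) * c * t) ^ 2 - u =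
            (b : ℤ) ^ (j + 1) * (-(t * r) + (b : ℤ) ^ (j - 3) * c ^ 2 * t ^ 2) := by
          have h1 : (s - (b : ℤ) ^ (j - 1) * c * t) ^ 2 - u =
              (s ^ 2 - u) - (2 * c * (b : ℤ) ^ (j - 1)) * s * t +
                ((b : ℤ) ^ (j - 1)) ^ 2 * c ^ 2 * t ^ 2 := by ring
          rw [h1, ← e1, ht, e2]
          have hs : s = 1 + b * r := by linear_combination hr
          rw [hs]
          ring
        rw [e]
        exact dvd_mul_right _ _
    · refine ⟨s - (b : ℤ) ^ j * (c + 1) * t, ?_, ?_⟩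
      · have e : s - (b : ℤ) ^ j * (c + 1) * t - 1 =
            b * r - b * ((b : ℤ) ^ (j - 1) * (c + 1) * t) := by
          have : (b : ℤ) ^ j = b * (b : ℤ) ^ (j - 1) := by
            rw [← pow_succ']; congr 1; omega
          rw [this]
          linear_combination hr
        rw [e]
        exact dvd_sub (dvd_mul_right _ _) (dvd_mul_right _ _)
      · have e2 : ((b : ℤ) ^ j) ^ 2 = (b : ℤ) ^ (j + 1) * (b : ℤ) ^ (j - 1) := by
          rw [← pow_mul, ← pow_add]; congr 1; omega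
        have e : (s - (b : ℤ) ^ j * (c + 1) * t) ^ 2 - u =
            (b : ℤ) ^ (j + 1) * (-(t * r) - t * s + (b : ℤ) ^ (j - 1) * (c + 1) ^ 2 * t ^ 2) := by
          have h1 : (s - (b : ℤ) ^ j * (c + 1) * t) ^ 2 - u =
              (s ^ 2 - u) - (2 * (c + 1)) * (b : ℤ) ^ j * s * t +
                ((b : ℤ) ^ j) ^ 2 * (c + 1) ^ 2 * t ^ 2 := by ring
          have h2 : 2 * (c + 1) = (b : ℤ) + 1 := by rw [hc]; ring
          rw [h1, h2, ht, e2]
          have hs : s = 1 + b * r := by linear_combination hr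
          rw [hs]
          ring
        rw [e]
        exact dvd_mul_right _ _

/-- a real character modulo `b ^ k` comes from `b ^ 3` -/
lemma real_factors {b k : ℕ} (hb : 2 ≤ b) (hk : 3 ≤ k) [NeZero (b ^ k)]
    {χ : DirichletCharacter ℂ (b ^ k)} (hχ : χ ^ 2 = 1) : χ.FactorsThrough (b ^ 3) := by
  have hd : b ^ 3 ∣ b ^ k := pow_dvd_pow b hk
  have hb0 : 0 < b := by omega
  rw [DirichletCharacter.factorsThrough_iff_ker_unitsMap hd]
  intro x hx
  rw [MonoidHom.mem_ker] at hx ⊢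
  have h1 : ZMod.cast (x : ZMod (b ^ k)) = (1 : ZMod (b ^ 3)) := by
    have := congrArg Units.val hx
    rw [ZMod.unitsMap_val] at this
    simpa using this
  set n : ℕ := (x : ZMod (b ^ k)).val with hn
  have hxn : ((n : ℕ) : ZMod (b ^ k)) = x := ZMod.natCast_zmod_val _
  have h2 : ((n : ℕ) : ZMod (b ^ 3)) = 1 := by
    rw [← h1, ← hxn, ZMod.cast_natCast hd]
  have h3 : (b : ℤ) ^ 3 ∣ (n : ℤ) - 1 := by
    have h4 : ((((n : ℤ) - 1 : ℤ)) : ZMod (b ^ 3)) = 0 := by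
      push_cast
      rw [h2, sub_self]
    rw [ZMod.intCast_zmod_eq_zero_iff_dvd] at h4
    exact_mod_cast h4
  obtain ⟨s, -, hs⟩ := sq_lift b (n : ℤ) h3 k hk
  have h5 : ((s : ℤ) : ZMod (b ^ k)) ^ 2 = x := by
    have h6 : (((s ^ 2 - (n : ℤ) : ℤ)) : ZMod (b ^ k)) = 0 := by
      rw [ZMod.intCast_zmod_eq_zero_iff_dvd]
      exact_mod_cast hs
    push_cast at h6
    rw [sub_eq_zero] at h6
    rw [h6, hxn]
  have h7 : χ (x : ZMod (b ^ k)) = 1 := by
    rw [← h5, map_pow, ← MulChar.pow_apply' χ (by norm_num : 2 ≠ 0), hχ]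
    have h8 : IsUnit (((s : ℤ) : ZMod (b ^ k))) := by
      have h9 : IsUnit (((s : ℤ) : ZMod (b ^ k)) ^ 2) := by rw [h5]; exact x.isUnit
      exact (isUnit_pow_iff (by norm_num)).1 h9
    exact MulChar.one_apply h8
  apply Units.ext
  rw [MulChar.coe_toUnitHom, h7, Units.val_one]

/-- the values agree -/
lemma values_agree {b k : ℕ} (hb : 2 ≤ b) (hk : 3 ≤ k) [NeZero (b ^ k)]
    {χ : DirichletCharacter ℂ (b ^ k)} {ψ : DirichletCharacter ℂ (b ^ 3)}
    (h : χ = DirichletCharacter.changeLevel (pow_dvd_pow b hk) ψ) (n : ℕ) :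
    χ (n : ZMod (b ^ k)) = ψ (n : ZMod (b ^ 3)) := by
  by_cases hn : Nat.Coprime n b
  · have hnk : Nat.Coprime n (b ^ k) := hn.pow_right k
    have hu := DirichletCharacter.changeLevel_eq_cast_of_dvd ψ (pow_dvd_pow b hk)
      (ZMod.unitOfCoprime n hnk)
    rw [← h] at hu
    simp only [ZMod.coe_unitOfCoprime] at hu
    rw [hu, ZMod.cast_natCast (pow_dvd_pow b hk)]
  · have h1 : ¬ IsUnit (n : ZMod (b ^ k)) := by
      rw [ZMod.isUnit_iff_coprime]
      intro h2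
      exact hn (Nat.Coprime.coprime_dvd_right (dvd_pow_self b (by omega)) h2)
    have h3 : ¬ IsUnit (n : ZMod (b ^ 3)) := by
      rw [ZMod.isUnit_iff_coprime]
      intro h2
      exact hn (Nat.Coprime.coprime_dvd_right (dvd_pow_self b (by omega)) h2)
    rw [MulChar.map_nonunit _ h1, MulChar.map_nonunit _ h3]

/-- uniform lower bound for the values at one -/
lemma low_one (q : ℕ) [NeZero q] : ∃ c : ℝ, 0 < c ∧ c ≤ 1 ∧ ∀ ψ : DirichletCharacter ℂ q, ψ ≠ 1 →
    c ≤ ‖ψ.LFunction 1‖ := by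
  classical
  have hfin : ∀ s : Finset (DirichletCharacter ℂ q), (∀ ψ ∈ s, ψ ≠ 1) →
      ∃ c : ℝ, 0 < c ∧ c ≤ 1 ∧ ∀ ψ ∈ s, c ≤ ‖ψ.LFunction 1‖ := by
    intro s
    induction s using Finset.induction_on with
    | empty => intro _; exact ⟨1, one_pos, le_rfl, by simp⟩
    | insert a s ha ih =>
      intro h
      obtain ⟨c, hc, hc1, hcs⟩ := ih fun ψ hψ => h ψ (Finset.mem_insert_of_mem hψ)
      have ha1 := h a (Finset.mem_insert_self a s)
      have hpos : 0 < ‖a.LFunction 1‖ := norm_pos_iff.2 (LF_ne_zero ha1 (by simp))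
      refine ⟨min c ‖a.LFunction 1‖, lt_min hc hpos, (min_le_left _ _).trans hc1, ?_⟩
      intro ψ hψ
      rw [Finset.mem_insert] at hψ
      rcases hψ with rfl | hψ
      · exact min_le_right _ _
      · exact (min_le_left _ _).trans (hcs ψ hψ)
  obtain ⟨c, hc, hc1, h⟩ := hfin (Finset.univ.filter fun ψ => ψ ≠ 1) (by simp)
  exact ⟨c, hc, hc1, fun ψ hψ => h ψ (by simp [hψ])⟩

/-- the log weighted sum, for one modulus -/
lemma psiLog_one (q : ℕ) [NeZero q] (V : ℕ) : ∃ C : ℝ, 0 < C ∧ ∀ ψ : DirichletCharacter ℂ q,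
    ψ ≠ 1 → ∀ x : ℝ, Real.exp 1 ≤ x →
      ‖Pool.Agent.H410R2.psiLog x q ψ‖ ≤ C * x / (Real.log x) ^ V := by
  obtain ⟨c, hc, hc1, hlow⟩ := low_one q
  obtain ⟨C, hC, h⟩ := Pool.Agent.H379R2.SW.psiLog_bound V (θ := 1 / 2) (by norm_num) le_rfl hc hc1
  have hq1 : (1 : ℝ) ≤ q := by exact_mod_cast NeZero.one_le
  refine ⟨C * (q : ℝ) ^ (1 / 2 : ℝ), by positivity, fun ψ hψ x hx => ?_⟩
  have h1 := h q ψ hψ (by
    intro _
    refine le_trans ?_ (hlow ψ hψ)
    have h2 : (q : ℝ) ^ (-((1 / 2 : ℝ) / (17 * ((V : ℝ) + 1)))) ≤ 1 := by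
      apply Real.rpow_le_one_of_one_le_of_nonpos hq1
      have : (0 : ℝ) ≤ (1 / 2 : ℝ) / (17 * ((V : ℝ) + 1)) := by positivity
      linarith
    calc c * _ ≤ c * 1 := mul_le_mul_of_nonneg_left h2 hc.le
      _ = c := mul_one c) x hx
  refine h1.trans (le_of_eq ?_)
  ring

end Pool.Agent.W66L
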