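import Pool.Agent.W66.QA

set_option autoImplicit false

/-!
# The smoothed indicator is close to a slowly varying function in mean
-/

open Filter Topology Set MeasureTheory Metric
open scoped Real

namespace Pool.Agent.W66

open Pool.Agent.H305R2 (ff NN roughPart SM SMz VV ZZ measurable_ff ff_nonneg ff_le_one)

/-- reciprocals of integers with logarithm in a short interval -/
lemma recip_window (a : ℝ) (T : Finset ℕ) (hT : ∀ m ∈ T, 1 ≤ m ∧ a ≤ Real.log m ∧ Real.log m ≤ a + 4) :
    ∑ m ∈ T, 1 / (m : ℝ) ≤ 10 := by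
  have h1 : ∀ m ∈ T, 1 / (m : ℝ) ≤ 2 * ∫ t in Set.Ioc a (a + 5),
      (Set.Ioc (Real.log m) (Real.log ((m + 1 : ℕ) : ℝ))).indicator (fun _ => (1 : ℝ)) t := by
    intro m hm
    obtain ⟨h1, h2, h3⟩ := hT m hm
    have hm0 : (1 : ℝ) ≤ m := by exact_mod_cast h1
    have h4 := Pool.Agent.H305R2.integral_ind_ge h1 (y := a) (y' := a + 5) h2 (by
      obtain ⟨_, g2, _⟩ := log_gap h1
      have : 1 / (m : ℝ) ≤ 1 := by rw [div_le_one (by linarith)]; exact hm0
      linarith)
    have h5 : 1 / (m : ℝ) ≤ 2 * (1 / ((m : ℝ) + 1)) := by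
      rw [mul_one_div, div_le_div_iff₀ (by linarith) (by linarith)]
      linarith
    linarith
  refine (Finset.sum_le_sum h1).trans ?_
  rw [← Finset.mul_sum, ← Pool.Agent.H305R2.integral_ind T (fun m hm => (hT m hm).1)]
  have h2 : ∫ t in Set.Ioc a (a + 5), (if NN t ∈ T then (1 : ℝ) else 0) ≤
      ∫ t in Set.Ioc a (a + 5), (1 : ℝ) := by
    apply setIntegral_mono_on
    · refine Measure.integrableOn_of_bounded (M := 1) (by simp) ?_ ?_
      · exact ((measurable_from_nat (f := fun n : ℕ => if n ∈ T then (1 : ℝ) else 0)).comp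
          Pool.Agent.H305R2.measurable_NN).aestronglyMeasurable
      · refine Eventually.of_forall fun t => ?_
        split_ifs <;> simp
    · exact integrableOn_const (by simp)
    · exact measurableSet_Ioc
    · intro t _
      split_ifs <;> norm_num
  rw [setIntegral_const, smul_eq_mul, mul_one, Real.volume_real_Ioc_of_le (by linarith)] at h2
  linarith

/-- the slowly varying main term -/
noncomputable def mt (q : ℕ) (S y : ℝ) : ℝ := ∑ s ∈ SMz q S, 1 / ((s : ℝ) * (y - Real.log s))

/-- contribution of the small smooth parts -/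
noncomputable def RA (q : ℕ) (h S : ℝ) (N : ℕ) (y : ℝ) : ℝ :=
  ∑ s ∈ SMz q S, 1 / (s : ℝ) * PP h (N / s) (y - Real.log s)

/-- contribution of the large smooth parts -/
noncomputable def RB (q : ℕ) (h S : ℝ) (N : ℕ) (y : ℝ) : ℝ :=
  ∑ s ∈ (SMz q N).filter (fun s : ℕ => S < s), 1 / (s : ℝ) *
    ∑ l ∈ (Finset.Ioc 0 (N / s)).filter (fun l => l.Prime ∧ q < l),
      1 / (l : ℝ) * tri h (y - Real.log s - Real.log l)

lemma RS_split (q : ℕ) {h y S : ℝ} (hh : 0 < h) (hh1 : h ≤ 1) (N : ℕ)
    (hS0 : 1 ≤ S) (hSN : S ≤ N) (hyS : Real.log S + Real.log q + 1 ≤ y) :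
    RS q h N y = RA q h S N y + RB q h S N y := by
  have h1 : RS q h N y = ∑ s ∈ SMz q N, 1 / (s : ℝ) *
      ∑ l ∈ (Finset.Ioc 0 (N / s)).filter (fun l => l.Prime ∧ q < l),
        1 / (l : ℝ) * tri h (y - Real.log s - Real.log l) := by
    unfold RS RF
    rw [Pool.Agent.H305R2.sum_rough_eq q 0 N (fun m => 1 / (m : ℝ) * tri h (y - Real.log m))]
    refine Finset.sum_congr rfl fun s hs => ?_
    rw [Nat.zero_div, Finset.mul_sum]
    have hs0 : (0 : ℝ) < s := by
      exact_mod_cast Pool.Agent.H305R2.SM_pos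
        ((Pool.Agent.H305R2.mem_SMz (by positivity)).1 hs).1
    refine Finset.sum_congr rfl fun l hl => ?_
    have hl0 : (0 : ℝ) < l := by
      exact_mod_cast (Finset.mem_Ioc.1 (Finset.mem_filter.1 hl).1).1
    push_cast
    rw [Real.log_mul hs0.ne' hl0.ne', sub_sub]
    field_simp
  rw [h1, ← Finset.sum_filter_add_sum_filter_not (SMz q N) (fun s : ℕ => (s : ℝ) ≤ S)]
  congr 1
  · unfold RA
    have h2 : (SMz q N).filter (fun s : ℕ => (s : ℝ) ≤ S) = SMz q S := by
      ext s
      rw [Finset.mem_filter, Pool.Agent.H305R2.mem_SMz (by positivity),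
        Pool.Agent.H305R2.mem_SMz (by linarith)]
      constructor
      · exact fun h => ⟨h.1.1, h.2⟩
      · exact fun h => ⟨⟨h.1, h.2.trans hSN⟩, h.2⟩
    rw [h2]
    refine Finset.sum_congr rfl fun s hs => ?_
    have hs1 := (Pool.Agent.H305R2.mem_SMz (by linarith)).1 hs
    have hs0 : (0 : ℝ) < s := by exact_mod_cast Pool.Agent.H305R2.SM_pos hs1.1
    congr 1
    unfold PP
    apply Finset.sum_subset_zero_on_sdiff
    · intro l hl
      rw [Finset.mem_filter] at hl ⊢
      exact ⟨hl.1, hl.2.1⟩
    · intro l hl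
      rw [Finset.mem_sdiff, Finset.mem_filter, Finset.mem_filter] at hl
      have h3 : l ≤ q := by
        by_contra hc
        exact hl.2 ⟨hl.1.1, hl.1.2, not_le.1 hc⟩
      have hl0 : (0 : ℝ) < l := by exact_mod_cast (Finset.mem_Ioc.1 hl.1.1).1
      have h4 : Real.log l ≤ Real.log q := Real.log_le_log hl0 (by exact_mod_cast h3)
      have h5 : Real.log s ≤ Real.log S := Real.log_le_log hs0 hs1.2
      rw [tri_zero_of hh, mul_zero]
      rw [abs_of_nonneg (by linarith)]
      linarith
    · intro l _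
      rfl
  · unfold RB
    simp only [not_le]

lemma RB_nonneg (q : ℕ) {h : ℝ} (hh : 0 < h) (S : ℝ) (N : ℕ) (y : ℝ) : 0 ≤ RB q h S N y :=
  Finset.sum_nonneg fun s _ => mul_nonneg (by positivity) (Finset.sum_nonneg fun l _ =>
    mul_nonneg (by positivity) (tri_nonneg hh _))

lemma RB_continuous (q : ℕ) (h S : ℝ) (N : ℕ) : Continuous (RB q h S N) := by
  unfold RB
  apply continuous_finsetSum
  intro s _
  apply continuous_const.mul
  apply continuous_finsetSum
  intro l _
  exact continuous_const.mul ((tri_continuous h).comp (by fun_prop))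

lemma PP_continuous (h : ℝ) (N : ℕ) : Continuous (PP h N) := by
  unfold PP
  apply continuous_finsetSum
  intro l _
  exact continuous_const.mul ((tri_continuous h).comp (by fun_prop))

lemma RA_continuous (q : ℕ) (h S : ℝ) (N : ℕ) : Continuous (RA q h S N) := by
  unfold RA
  apply continuous_finsetSum
  intro s _
  exact continuous_const.mul ((PP_continuous h _).comp (by fun_prop))

lemma integral_tri_shift_le {h : ℝ} (hh : 0 < h) (a Y Y' : ℝ) (hY : Y ≤ Y') :
    ∫ y in Y..Y', tri h (y - a) ≤ 1 := by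
  rw [intervalIntegral.integral_of_le hY, ← integral_tri hh,
    ← integral_sub_right_eq_self (fun v => tri h v) a]
  exact setIntegral_le_integral ((tri_integrable hh).comp_sub_right a)
    (Eventually.of_forall fun y => tri_nonneg hh _)

theorem RB_L1 (q : ℕ) {h S : ℝ} (hh : 0 < h) (hh1 : h ≤ 1) (hS : 0 < S) (N : ℕ) (Y : ℝ) :
    ∫ y in Y..(Y + 1), RB q h S N y ≤ 10 * (S ^ (-(1 / 2) : ℝ) * ZZ q) := by
  unfold RB
  rw [intervalIntegral.integral_finsetSum]
  · have h1 : ∀ s ∈ (SMz q N).filter (fun s : ℕ => S < s), ∫ y in Y..(Y + 1), 1 / (s : ℝ) *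
        ∑ l ∈ (Finset.Ioc 0 (N / s)).filter (fun l => l.Prime ∧ q < l),
        1 / (l : ℝ) * tri h (y - Real.log s - Real.log l) ≤ 10 * (s : ℝ)⁻¹ := by
      intro s _
      rw [intervalIntegral.integral_const_mul, intervalIntegral.integral_finsetSum]
      · have h2 : ∀ l ∈ (Finset.Ioc 0 (N / s)).filter (fun l => l.Prime ∧ q < l),
            ∫ y in Y..(Y + 1), 1 / (l : ℝ) * tri h (y - Real.log s - Real.log l) ≤
            if Y - Real.log s - 1 ≤ Real.log l ∧ Real.log l ≤ Y - Real.log s + 3 then 1 / (l : ℝ)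
              else 0 := by
          intro l _
          rw [intervalIntegral.integral_const_mul]
          split_ifs with h3
          · have h4 : ∫ y in Y..(Y + 1), tri h (y - Real.log s - Real.log l) ≤ 1 := by
              have := integral_tri_shift_le hh (Real.log s + Real.log l) Y (Y + 1) (by linarith)
              simpa only [sub_sub] using this
            calc _ ≤ 1 / (l : ℝ) * 1 := by gcongr
              _ = _ := mul_one _
          · have h4 : ∀ y ∈ Set.uIcc Y (Y + 1), tri h (y - Real.log s - Real.log l) = 0 := by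
              intro y hy
              rw [Set.uIcc_of_le (by linarith)] at hy
              apply tri_zero_of hh
              by_contra hc
              rw [not_le, abs_lt] at hc
              apply h3
              exact ⟨by linarith [hy.1, hc.2], by linarith [hy.2, hc.1]⟩
            rw [intervalIntegral.integral_congr (g := fun _ => (0 : ℝ)) h4]
            simp
        have h3 : ∑ l ∈ (Finset.Ioc 0 (N / s)).filter (fun l => l.Prime ∧ q < l),
            ∫ y in Y..(Y + 1), 1 / (l : ℝ) * tri h (y - Real.log s - Real.log l) ≤ 10 := by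
          refine (Finset.sum_le_sum h2).trans ?_
          rw [← Finset.sum_filter]
          refine recip_window (Y - Real.log s - 1) _ ?_
          intro m hm
          rw [Finset.mem_filter, Finset.mem_filter, Finset.mem_Ioc] at hm
          exact ⟨hm.1.1.1, hm.2.1, by linarith [hm.2.2]⟩
        calc _ ≤ 1 / (s : ℝ) * 10 := by gcongr
          _ = _ := by ring
      · intro l _
        exact (continuous_const.mul ((tri_continuous h).comp (by fun_prop))).intervalIntegrable _ _
    refine (Finset.sum_le_sum h1).trans ?_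
    rw [← Finset.mul_sum]
    apply mul_le_mul_of_nonneg_left _ (by norm_num)
    refine Pool.Agent.H305R2.tail_le q hS _ ?_
    intro n hn
    rw [Finset.mem_filter, Pool.Agent.H305R2.mem_SMz (by positivity)] at hn
    exact ⟨hn.1.1, hn.2.le⟩
  · intro s _
    apply Continuous.intervalIntegrable
    apply continuous_const.mul
    apply continuous_finsetSum
    intro l _
    exact continuous_const.mul ((tri_continuous h).comp (by fun_prop))

/-- Cauchy-Schwarz on a unit interval -/
lemma cs_unit {f : ℝ → ℝ} (hf : Continuous f) (Z : ℝ) {E : ℝ} (hE : 0 ≤ E)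
    (h : ∫ z in Z..(Z + 1), f z ^ 2 ≤ E ^ 2) : ∫ z in Z..(Z + 1), |f z| ≤ E := by
  rcases hE.eq_or_lt with rfl | hE0
  · -- degenerate case
    have h0 : ∫ z in Z..(Z + 1), f z ^ 2 = 0 := by
      apply le_antisymm (by simpa using h)
      exact intervalIntegral.integral_nonneg (by linarith) fun z _ => sq_nonneg _
    have h1 : ∀ n : ℕ, ∫ z in Z..(Z + 1), |f z| ≤ 1 / ((n : ℝ) + 1) := by
      intro n
      have hn : 0 < (n : ℝ) + 1 := by positivity
      have hc1 : Continuous fun z => ((n : ℝ) + 1) * f z ^ 2 := by fun_prop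
      have hc2 : Continuous fun z => 1 / ((n : ℝ) + 1) + ((n : ℝ) + 1) * f z ^ 2 := by fun_prop
      have h2 : ∫ z in Z..(Z + 1), |f z| ≤
          ∫ z in Z..(Z + 1), (1 / ((n : ℝ) + 1) + ((n : ℝ) + 1) * f z ^ 2) := by
        apply intervalIntegral.integral_mono_on (by linarith) (hf.abs.intervalIntegrable _ _)
          (hc2.intervalIntegrable _ _)
        intro z _
        rw [← sub_nonneg]
        have e : 1 / ((n : ℝ) + 1) + ((n : ℝ) + 1) * f z ^ 2 - |f z| =
          (((n : ℝ) + 1) * |f z| - 1 / 2) ^ 2 / ((n : ℝ) + 1) + 3 / 4 / ((n : ℝ) + 1) := by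
          rw [← sq_abs (f z)]
          field_simp
          ring
        rw [e]
        positivity
      rw [intervalIntegral.integral_add intervalIntegrable_const (hc1.intervalIntegrable _ _),
        intervalIntegral.integral_const_mul, h0] at h2
      simpa using h2
    exact ge_of_tendsto' tendsto_one_div_add_atTop_nhds_zero_nat h1
  · have hc1 : Continuous fun z => 1 / (2 * E) * f z ^ 2 := by fun_prop
    have hc2 : Continuous fun z => E / 2 + 1 / (2 * E) * f z ^ 2 := by fun_prop
    have h2 : ∫ z in Z..(Z + 1), |f z| ≤ ∫ z in Z..(Z + 1), (E / 2 + 1 / (2 * E) * f z ^ 2) := by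
      apply intervalIntegral.integral_mono_on (by linarith) (hf.abs.intervalIntegrable _ _)
        (hc2.intervalIntegrable _ _)
      intro z _
      rw [← sub_nonneg]
      have e : E / 2 + 1 / (2 * E) * f z ^ 2 - |f z| = (|f z| - E) ^ 2 / (2 * E) := by
        rw [← sq_abs (f z)]
        field_simp
        ring
      rw [e]
      positivity
    rw [intervalIntegral.integral_add intervalIntegrable_const (hc1.intervalIntegrable _ _),
      intervalIntegral.integral_const_mul, intervalIntegral.integral_const, smul_eq_mul] at h2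
    have h3 : 1 / (2 * E) * ∫ z in Z..(Z + 1), f z ^ 2 ≤ 1 / (2 * E) * E ^ 2 := by gcongr
    have h4 : 1 / (2 * E) * E ^ 2 = E / 2 := by field_simp
    linarith

/-- one smooth part -/
theorem PP_L1 : ∃ C : ℝ, 0 < C ∧ ∀ (h Z : ℝ) (N : ℕ), 0 < h → h ≤ 1 → 2 ≤ Z →
    Real.exp (Z + 2) ≤ N → ∀ E : ℝ, 0 ≤ E → ∫ z in Z..(Z + 1), (TT h N z - 1) ^ 2 ≤ E ^ 2 →
    ∫ z in Z..(Z + 1), |PP h N z - 1 / z| ≤ h * (1 + 32 * Real.exp (-Z) / h ^ 2) +
      C / h * Real.exp (-(Z / 2)) + E := by
  obtain ⟨C, hC, hPP⟩ := PP_approx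
  refine ⟨C, hC, fun h Z N hh hh1 hZ hN E hE hTT => ?_⟩
  have hTc : Continuous fun z => TT h N z - 1 := (TT_continuous h N).sub continuous_const
  have h1 : ∫ z in Z..(Z + 1), |PP h N z - 1 / z| ≤ ∫ z in Z..(Z + 1),
      (h * (1 + 32 * Real.exp (-Z) / h ^ 2) + C / h * Real.exp (-(Z / 2)) + |TT h N z - 1|) := by
    apply intervalIntegral.integral_mono_on (by linarith)
    · apply ContinuousOn.intervalIntegrable
      apply ContinuousOn.abs
      apply (PP_continuous h N).continuousOn.sub
      apply ContinuousOn.div continuousOn_const continuousOn_id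
      intro x hx
      rw [Set.uIcc_of_le (by linarith)] at hx
      simp only [id]
      linarith [hx.1]
    · exact (continuous_const.add hTc.abs).intervalIntegrable _ _
    · intro z hz
      have hz0 : 0 < z := by linarith [hz.1]
      have h2 := hPP h z N hh hh1 (by linarith [hz.1]) (by
        refine le_trans (Real.exp_le_exp.2 ?_) hN
        linarith [hz.2])
      have h3 : PP h N z - 1 / z = (PP h N z - TT h N z / z) + (TT h N z - 1) / z := by ring
      have h4 : |(TT h N z - 1) / z| ≤ |TT h N z - 1| := by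
        rw [abs_div, abs_of_pos hz0]
        exact div_le_self (abs_nonneg _) (by linarith [hz.1])
      have h5 : h * (1 + 32 * Real.exp (-z) / h ^ 2) ≤ h * (1 + 32 * Real.exp (-Z) / h ^ 2) := by
        have : Real.exp (-z) ≤ Real.exp (-Z) := Real.exp_le_exp.2 (by linarith [hz.1])
        gcongr
      have h6 : C / h * Real.exp (-(z / 2)) ≤ C / h * Real.exp (-(Z / 2)) := by
        have : Real.exp (-(z / 2)) ≤ Real.exp (-(Z / 2)) := Real.exp_le_exp.2 (by linarith [hz.1])
        gcongr
      rw [h3]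
      refine (abs_add_le _ _).trans ?_
      linarith
  refine h1.trans ?_
  rw [intervalIntegral.integral_add (by simp) (hTc.abs.intervalIntegrable _ _),
    intervalIntegral.integral_const, smul_eq_mul]
  have h2 := cs_unit hTc Z hE hTT
  linarith

/-- the smooth parts up to `S` -/
theorem RA_L1 : ∃ C : ℝ, 0 < C ∧ ∀ (q : ℕ) (h S Y : ℝ) (N : ℕ), 0 < h → h ≤ 1 → 1 ≤ S →
    2 ≤ Y - Real.log S → Real.exp (Y + 3) ≤ N → ∀ E : ℝ, 0 ≤ E →
    (∀ Z : ℝ, Y - Real.log S ≤ Z → Z ≤ Y → ∀ N' : ℕ, Real.exp (Z + 2) ≤ N' →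
      ∫ z in Z..(Z + 1), (TT h N' z - 1) ^ 2 ≤ E ^ 2) →
    ∫ y in Y..(Y + 1), |RA q h S N y - mt q S y| ≤ VV q *
      (h * (1 + 32 * Real.exp (-(Y - Real.log S)) / h ^ 2) +
      C / h * Real.exp (-((Y - Real.log S) / 2)) + E) := by
  obtain ⟨C, hC, hPP⟩ := PP_L1
  refine ⟨C, hC, fun q h S Y N hh hh1 hS hY hN E hE hTT => ?_⟩
  have hmem : ∀ s ∈ SMz q S, (0 : ℝ) < s ∧ 0 ≤ Real.log s ∧ Real.log s ≤ Real.log S := by
    intro s hs
    have hs1 := (Pool.Agent.H305R2.mem_SMz (by linarith)).1 hs
    have hs0 : 0 < s := Pool.Agent.H305R2.SM_pos hs1.1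
    have hs0' : (0 : ℝ) < s := by exact_mod_cast hs0
    exact ⟨hs0', Real.log_nonneg (by exact_mod_cast hs0), Real.log_le_log hs0' hs1.2⟩
  have hcont : ∀ s ∈ SMz q S, ContinuousOn (fun y => 1 / (s : ℝ) *
      |PP h (N / s) (y - Real.log s) - 1 / (y - Real.log s)|) (Set.uIcc Y (Y + 1)) := by
    intro s hs
    obtain ⟨h1, h2, h3⟩ := hmem s hs
    apply continuousOn_const.mul
    apply ContinuousOn.abs
    apply ContinuousOn.sub
    · exact ((PP_continuous h _).comp (by fun_prop)).continuousOn
    · apply ContinuousOn.div continuousOn_const (by fun_prop)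
      intro y hy
      rw [Set.uIcc_of_le (by linarith)] at hy
      have : 0 < y - Real.log s := by linarith [hy.1]
      exact this.ne'
  have h1 : ∫ y in Y..(Y + 1), |RA q h S N y - mt q S y| ≤ ∫ y in Y..(Y + 1), ∑ s ∈ SMz q S,
      1 / (s : ℝ) * |PP h (N / s) (y - Real.log s) - 1 / (y - Real.log s)| := by
    apply intervalIntegral.integral_mono_on (by linarith)
    · apply ContinuousOn.intervalIntegrable
      apply ContinuousOn.abs
      apply (RA_continuous q h S N).continuousOn.sub
      unfold mt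
      apply continuousOn_finsetSum
      intro s hs
      obtain ⟨h1, h2, h3⟩ := hmem s hs
      apply ContinuousOn.div continuousOn_const (by fun_prop)
      intro y hy
      rw [Set.uIcc_of_le (by linarith)] at hy
      have : 0 < y - Real.log s := by linarith [hy.1]
      positivity
    · apply ContinuousOn.intervalIntegrable
      exact continuousOn_finsetSum _ hcont
    · intro y hy
      unfold RA mt
      rw [← Finset.sum_sub_distrib]
      refine (Finset.abs_sum_le_sum_abs _ _).trans (Finset.sum_le_sum fun s hs => ?_)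
      obtain ⟨h1, h2, h3⟩ := hmem s hs
      have h4 : 0 < y - Real.log s := by linarith [hy.1]
      have e : 1 / (s : ℝ) * PP h (N / s) (y - Real.log s) - 1 / (s * (y - Real.log s)) =
          1 / (s : ℝ) * (PP h (N / s) (y - Real.log s) - 1 / (y - Real.log s)) := by
        field_simp
      rw [e, abs_mul, abs_of_pos (by positivity : 0 < 1 / (s : ℝ))]
  refine h1.trans ?_
  rw [intervalIntegral.integral_finsetSum fun s hs => (hcont s hs).intervalIntegrable]
  set D := h * (1 + 32 * Real.exp (-(Y - Real.log S)) / h ^ 2) +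
      C / h * Real.exp (-((Y - Real.log S) / 2)) + E with hD
  have hD0 : 0 ≤ D := by positivity
  have h2 : ∀ s ∈ SMz q S, ∫ y in Y..(Y + 1), 1 / (s : ℝ) *
      |PP h (N / s) (y - Real.log s) - 1 / (y - Real.log s)| ≤ (s : ℝ)⁻¹ * D := by
    intro s hs
    obtain ⟨h1, h2, h3⟩ := hmem s hs
    rw [intervalIntegral.integral_const_mul, one_div]
    apply mul_le_mul_of_nonneg_left _ (by positivity)
    rw [intervalIntegral.integral_comp_sub_right (fun v => |PP h (N / s) v - 1 / v|)]
    rw [show Y + 1 - Real.log s = (Y - Real.log s) + 1 by ring]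
    have hNs : Real.exp (Y - Real.log s + 2) ≤ ((N / s : ℕ) : ℝ) := by
      have h4 : Real.exp (Y - Real.log s + 2) + 1 ≤ (N : ℝ) / s := by
        have h5 : Real.exp (Y + 3 - Real.log s) ≤ (N : ℝ) / s := by
          rw [Real.exp_sub, Real.exp_log h1]
          gcongr
        refine le_trans ?_ h5
        have e : Real.exp (Y + 3 - Real.log s) = Real.exp (Y - Real.log s + 2) * Real.exp 1 := by
          rw [← Real.exp_add]; congr 1; ring
        rw [e]
        have h6 : 1 ≤ Real.exp (Y - Real.log s + 2) := Real.one_le_exp (by linarith)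
        have h7 := Real.exp_one_gt_d9
        nlinarith
      have hs0 : 0 < s := by exact_mod_cast h1
      have h5 : (N : ℝ) / s < ((N / s : ℕ) : ℝ) + 1 := by
        rw [div_lt_iff₀ h1]
        exact_mod_cast Nat.lt_mul_of_div_lt (Nat.lt_succ_self _) hs0
      linarith
    have h4 := hPP h (Y - Real.log s) (N / s) hh hh1 (by linarith) hNs E hE
      (hTT (Y - Real.log s) (by linarith) (by linarith) (N / s) hNs)
    refine h4.trans ?_
    rw [hD]
    have h5 : Real.exp (-(Y - Real.log s)) ≤ Real.exp (-(Y - Real.log S)) :=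
      Real.exp_le_exp.2 (by linarith)
    have h6 : Real.exp (-((Y - Real.log s) / 2)) ≤ Real.exp (-((Y - Real.log S) / 2)) :=
      Real.exp_le_exp.2 (by linarith)
    gcongr
  refine (Finset.sum_le_sum h2).trans ?_
  rw [← Finset.sum_mul]
  apply mul_le_mul_of_nonneg_right _ hD0
  exact Pool.Agent.H305R2.sum_le_VV q _ fun n hn =>
    ((Pool.Agent.H305R2.mem_SMz (by linarith)).1 hn).1

lemma mt_var (q : ℕ) {S Y y : ℝ} (hS : 1 ≤ S) (hY : 0 < Y - Real.log S) (hy1 : Y ≤ y) (hy2 : y ≤ Y + 2) :
    |mt q S y - mt q S Y| ≤ VV q * (2 / (Y - Real.log S) ^ 2) := by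
  unfold mt
  rw [← Finset.sum_sub_distrib]
  refine (Finset.abs_sum_le_sum_abs _ _).trans ?_
  have h1 : ∀ s ∈ SMz q S, |1 / ((s : ℝ) * (y - Real.log s)) - 1 / ((s : ℝ) * (Y - Real.log s))| ≤
      (s : ℝ)⁻¹ * (2 / (Y - Real.log S) ^ 2) := by
    intro s hs
    have hs1 := (Pool.Agent.H305R2.mem_SMz (by linarith)).1 hs
    have hs0 : 0 < s := Pool.Agent.H305R2.SM_pos hs1.1
    have hs0' : (0 : ℝ) < s := by exact_mod_cast hs0
    have h2 : Real.log s ≤ Real.log S := Real.log_le_log hs0' hs1.2
    set d := Y - Real.log S with hd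
    have h3 : d ≤ Y - Real.log s := by linarith
    have h4 : d ≤ y - Real.log s := by linarith
    have e : 1 / ((s : ℝ) * (y - Real.log s)) - 1 / ((s : ℝ) * (Y - Real.log s)) =
        -((s : ℝ)⁻¹ * ((y - Y) / ((Y - Real.log s) * (y - Real.log s)))) := by
      have : y - Real.log s ≠ 0 := by linarith
      have : Y - Real.log s ≠ 0 := by linarith
      field_simp
      ring
    rw [e, abs_neg, abs_mul, abs_of_pos (by positivity : 0 < (s : ℝ)⁻¹)]
    apply mul_le_mul_of_nonneg_left _ (by positivity)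
    rw [abs_of_nonneg (div_nonneg (by linarith) (mul_nonneg (by linarith) (by linarith)))]
    rw [sq]
    exact div_le_div₀ (by norm_num) (by linarith) (by positivity)
      (mul_le_mul h3 h4 hY.le (by linarith))
  refine (Finset.sum_le_sum h1).trans ?_
  rw [← Finset.sum_mul]
  apply mul_le_mul_of_nonneg_right _ (by positivity)
  exact Pool.Agent.H305R2.sum_le_VV q _ fun n hn =>
    ((Pool.Agent.H305R2.mem_SMz (by linarith)).1 hn).1

end Pool.Agent.W66
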