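import Pool.Agent.W66.LH
import Pool.Agent.W66.QB

set_option autoImplicit false

/-!
# All nonprincipal characters modulo a power of `b`
-/

open Complex Filter Topology Set MeasureTheory Metric
open scoped Real
open scoped ArithmeticFunction.vonMangoldt

namespace Pool.Agent.W66L

open Pool.Agent.W66

/-- from logarithmic weights to sharp cutoff -/
lemma log_to_plain (V : ℕ) {C0 : ℝ} (hC0 : 0 < C0) : ∃ C : ℝ, 0 < C ∧ ∀ a : ℕ → ℂ,
    (∀ n, ‖a n‖ ≤ Λ n) → (∀ x : ℝ, Real.exp 1 ≤ x →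
      ‖∑ n ∈ Finset.Icc 1 ⌊x⌋₊, a n * ((Real.log (x / n) : ℝ) : ℂ)‖ ≤
        C0 * x / (Real.log x) ^ (2 * V + 1)) →
    ∀ N : ℕ, 2 ≤ N → ‖∑ n ∈ Finset.Ioc 0 N, a n‖ ≤ C * (N / (Real.log N) ^ V) := by
  refine ⟨6 * C0 + 3, by positivity, fun a ha hPL N hN => ?_⟩
  have hNr : (2 : ℝ) ≤ N := by exact_mod_cast hN
  have hN0 : (0 : ℝ) < N := by linarith
  rcases eq_or_lt_of_le hN with h2 | h3
  · rw [← h2]
    have e : Finset.Ioc 0 2 = ({1, 2} : Finset ℕ) := by decide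
    rw [e, Finset.sum_pair (by norm_num)]
    have h1 : ‖a 1 + a 2‖ ≤ 1 := by
      refine (norm_add_le _ _).trans ?_
      have a1 := ha 1
      have a2 := ha 2
      rw [ArithmeticFunction.vonMangoldt_apply_one] at a1
      have a3 : Λ 2 ≤ Real.log 2 := by
        have := ArithmeticFunction.vonMangoldt_le_log (n := 2)
        exact_mod_cast this
      have := Real.log_two_lt_d9
      linarith
    refine h1.trans ?_
    have hl : (Real.log ((2 : ℕ) : ℝ)) ^ V ≤ 1 := by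
      apply pow_le_one₀
      · exact Real.log_nonneg (by norm_num)
      · have := Real.log_two_lt_d9
        push_cast
        linarith
    have hlp : 0 < (Real.log ((2 : ℕ) : ℝ)) ^ V := by
      have : 0 < Real.log ((2 : ℕ) : ℝ) := Real.log_pos (by norm_num)
      positivity
    have h4 : (1 : ℝ) ≤ ((2 : ℕ) : ℝ) / (Real.log ((2 : ℕ) : ℝ)) ^ V := by
      rw [le_div_iff₀ hlp]
      push_cast at hl ⊢
      linarith
    nlinarith
  have hN3 : (3 : ℝ) ≤ N := by exact_mod_cast h3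
  have he : Real.exp 1 ≤ N := by linarith [Real.exp_one_lt_d9]
  set l := Real.log N with hl
  have hl1 : 1 ≤ l := by rw [hl, Real.le_log_iff_exp_le hN0]; exact he
  have hl0 : 0 < l := by linarith
  set δ : ℝ := 1 / l ^ (V + 1) with hδ
  have hδ0 : 0 < δ := by positivity
  have hδ1 : δ ≤ 1 := by rw [hδ, div_le_one (by positivity)]; exact one_le_pow₀ hl1
  set y : ℝ := N * (1 + δ) with hy
  have hyN : (N : ℝ) ≤ y := by rw [hy]; nlinarith
  have hy2 : y ≤ 2 * N := by rw [hy]; nlinarith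
  have hy0 : 0 < y := by linarith
  have p1 := hPL N he
  have p2 := hPL y (he.trans hyN)
  rw [Nat.floor_natCast] at p1
  set M := ⌊y⌋₊ with hM
  have hNM : N ≤ M := Nat.le_floor hyN
  have hsplit : Finset.Icc 1 M = Finset.Icc 1 N ∪ Finset.Ioc N M := by
    ext n
    simp only [Finset.mem_Icc, Finset.mem_union, Finset.mem_Ioc]
    omega
  have hdisj : Disjoint (Finset.Icc 1 N) (Finset.Ioc N M) := by
    rw [Finset.disjoint_left]
    intro n hn hn2
    rw [Finset.mem_Icc] at hn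
    rw [Finset.mem_Ioc] at hn2
    omega
  set A := ∑ n ∈ Finset.Ioc 0 N, a n with hA
  have hIcc : Finset.Ioc 0 N = Finset.Icc 1 N := by
    ext n
    simp only [Finset.mem_Icc, Finset.mem_Ioc]
    omega
  set L := Real.log (1 + δ) with hL
  have hLpos : δ / 2 ≤ L := by
    have h5 := Real.one_sub_inv_le_log_of_pos (show 0 < 1 + δ by linarith)
    have h6 : δ / 2 ≤ 1 - (1 + δ)⁻¹ := by
      rw [← sub_nonneg]
      have : 1 - (1 + δ)⁻¹ - δ / 2 = δ * (1 - δ) / (2 * (1 + δ)) := by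
        field_simp
        ring
      rw [this]
      apply div_nonneg _ (by positivity)
      exact mul_nonneg hδ0.le (by linarith)
    linarith
  have hL0 : 0 < L := by linarith
  have key : (L : ℂ) * A = (∑ n ∈ Finset.Icc 1 M, a n * ((Real.log (y / n) : ℝ) : ℂ)) -
      (∑ n ∈ Finset.Icc 1 N, a n * ((Real.log ((N : ℝ) / n) : ℝ) : ℂ)) -
      ∑ n ∈ Finset.Ioc N M, a n * ((Real.log (y / n) : ℝ) : ℂ) := by
    rw [hsplit, Finset.sum_union hdisj, hA, hIcc, Finset.mul_sum]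
    have : ∀ n ∈ Finset.Icc 1 N, (L : ℂ) * a n = a n * ((Real.log (y / n) : ℝ) : ℂ) -
        a n * ((Real.log ((N : ℝ) / n) : ℝ) : ℂ) := by
      intro n hn
      rw [Finset.mem_Icc] at hn
      have hn0 : (0 : ℝ) < n := by exact_mod_cast hn.1
      have : Real.log (y / n) = L + Real.log ((N : ℝ) / n) := by
        rw [hL, ← Real.log_mul (by linarith) (by positivity)]
        congr 1
        rw [hy]
        ring
      rw [this]
      push_cast
      ring
    rw [Finset.sum_congr rfl this, Finset.sum_sub_distrib]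
    ring
  have htail : ‖∑ n ∈ Finset.Ioc N M, a n * ((Real.log (y / n) : ℝ) : ℂ)‖ ≤
      (δ * N) * ((2 * l) * L) := by
    refine (norm_sum_le _ _).trans ?_
    have h5 : ∀ n ∈ Finset.Ioc N M, ‖a n * ((Real.log (y / n) : ℝ) : ℂ)‖ ≤ (2 * l) * L := by
      intro n hn
      rw [Finset.mem_Ioc] at hn
      have hn1 : (N : ℝ) ≤ n := by exact_mod_cast hn.1.le
      have hn0 : (0 : ℝ) < n := by linarith
      have hny : (n : ℝ) ≤ y := (Nat.le_floor_iff hy0.le).1 hn.2
      rw [norm_mul, Complex.norm_real, Real.norm_of_nonneg (Real.log_nonneg (by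
        rw [le_div_iff₀ hn0]; linarith))]
      have h6 : ‖a n‖ ≤ 2 * l := by
        refine (ha n).trans (ArithmeticFunction.vonMangoldt_le_log.trans ?_)
        have h7 : Real.log n ≤ Real.log (2 * N) := Real.log_le_log hn0 (hny.trans hy2)
        rw [Real.log_mul (by norm_num) hN0.ne', ← hl] at h7
        have := Real.log_two_lt_d9
        linarith
      have h7 : Real.log (y / n) ≤ L := by
        rw [hL]
        apply Real.log_le_log (by positivity)
        rw [div_le_iff₀ hn0, hy]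
        nlinarith
      exact mul_le_mul h6 h7 (Real.log_nonneg (by rw [le_div_iff₀ hn0]; linarith)) (by positivity)
    refine (Finset.sum_le_sum h5).trans ?_
    rw [Finset.sum_const, Nat.card_Ioc, nsmul_eq_mul]
    apply mul_le_mul_of_nonneg_right _ (by positivity)
    rw [Nat.cast_sub hNM]
    have : (M : ℝ) ≤ y := Nat.floor_le hy0.le
    rw [hy] at this
    linarith
  have hnorm : L * ‖A‖ ≤ C0 * y / (Real.log y) ^ (2 * V + 1) + C0 * N / l ^ (2 * V + 1) +
      (δ * N) * ((2 * l) * L) := by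
    have h5 : L * ‖A‖ = ‖(L : ℂ) * A‖ := by
      rw [norm_mul, Complex.norm_real, Real.norm_of_nonneg hL0.le]
    rw [h5, key]
    refine (norm_sub_le _ _).trans (add_le_add ((norm_sub_le _ _).trans (add_le_add p2 p1)) htail)
  have hy3 : C0 * y / (Real.log y) ^ (2 * V + 1) ≤ 2 * (C0 * N / l ^ (2 * V + 1)) := by
    have h5 : l ≤ Real.log y := Real.log_le_log hN0 hyN
    calc C0 * y / (Real.log y) ^ (2 * V + 1) ≤ C0 * (2 * N) / l ^ (2 * V + 1) := by gcongr
      _ = _ := by ring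
  have h6 : L * ‖A‖ ≤ L * ((6 * C0 + 3) * (N / l ^ V)) := by
    have h7 : 3 * (C0 * N / l ^ (2 * V + 1)) ≤ L * (6 * C0 * (N / l ^ V)) := by
      have h8 : δ / 2 * (6 * C0 * (N / l ^ V)) ≤ L * (6 * C0 * (N / l ^ V)) := by gcongr
      refine le_trans (le_of_eq ?_) h8
      rw [hδ]
      have : l ^ (2 * V + 1) = l ^ (V + 1) * l ^ V := by rw [← pow_add]; congr 1; ring
      rw [this]
      field_simp
      norm_num
    have h8 : (δ * N) * ((2 * l) * L) = L * (2 * (N / l ^ V)) := by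
      rw [hδ, pow_succ]
      field_simp
    have h9 : 0 ≤ L * (N / l ^ V) := by positivity
    nlinarith
  exact le_of_mul_le_mul_left h6 hL0

/-- sharp sums over primes of real characters -/
theorem real_psi {b : ℕ} (hb : 2 ≤ b) (V : ℕ) : ∃ C : ℝ, 0 < C ∧ ∀ (k : ℕ) [NeZero (b ^ k)], 3 ≤ k →
    ∀ χ : DirichletCharacter ℂ (b ^ k), χ ^ 2 = 1 → χ ≠ 1 → ∀ N : ℕ, 2 ≤ N →
    ‖∑ n ∈ Finset.Ioc 0 N, χ n * ((Λ n : ℝ) : ℂ)‖ ≤ C * (N / (Real.log N) ^ V) := by
  have : NeZero (b ^ 3) := ⟨by positivity⟩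
  obtain ⟨C0, hC0, h0⟩ := psiLog_one (b ^ 3) (2 * V + 1)
  obtain ⟨C, hC, h⟩ := log_to_plain V hC0
  refine ⟨C, hC, fun k _ hk χ hχ2 hχ1 N hN => ?_⟩
  obtain ⟨hd, ψ, hψ⟩ := real_factors hb hk hχ2
  have hψ1 : ψ ≠ 1 := by
    rintro rfl
    exact hχ1 (by rw [hψ, map_one])
  have hv := values_agree hb hk hψ
  refine h (fun n => χ n * ((Λ n : ℝ) : ℂ)) ?_ ?_ N hN
  · intro n
    rw [norm_mul, Complex.norm_real, Real.norm_of_nonneg ArithmeticFunction.vonMangoldt_nonneg]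
    calc _ ≤ 1 * Λ n := mul_le_mul_of_nonneg_right (χ.norm_le_one _)
          ArithmeticFunction.vonMangoldt_nonneg
      _ = _ := one_mul _
  · intro x hx
    have h1 := h0 ψ hψ1 x hx
    unfold Pool.Agent.H410R2.psiLog at h1
    refine le_trans (le_of_eq ?_) h1
    congr 1
    refine Finset.sum_congr rfl fun n _ => ?_
    simp only [hv]
    ring

lemma tri_var {h x : ℝ} (hh : 0 < h) (hh1 : h ≤ 1) {m : ℕ} (hm : 0 < m) :
    |1 / (m : ℝ) * tri h (x - Real.log m) -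
      1 / ((m + 1 : ℕ) : ℝ) * tri h (x - Real.log ((m + 1 : ℕ) : ℝ))| ≤
      if x - h < Real.log ((m + 1 : ℕ) : ℝ) ∧ Real.log m < x + h then
        2 / h ^ 2 * ((m : ℝ) ^ 2)⁻¹ else 0 := by
  have hm0 : (0 : ℝ) < m := by exact_mod_cast hm
  have hm1 : (1 : ℝ) ≤ m := by exact_mod_cast hm
  obtain ⟨g1, g2, -⟩ := log_gap hm
  set a := Real.log m with ha
  set b := Real.log ((m + 1 : ℕ) : ℝ) with hb
  split_ifs with hc
  · have t1 := tri_le hh (x - a)
    have t2 := tri_lip hh (x - a) (x - b)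
    have t3 : |x - a - (x - b)| ≤ 1 / m := by
      rw [show x - a - (x - b) = b - a by ring, abs_of_nonneg g1]
      exact g2
    have t4 := tri_nonneg hh (x - a)
    have hh2 : 1 / h ≤ 1 / h ^ 2 := by
      apply one_div_le_one_div_of_le (by positivity)
      nlinarith
    have e : 1 / (m : ℝ) * tri h (x - a) - 1 / ((m + 1 : ℕ) : ℝ) * tri h (x - b) =
        tri h (x - a) * (1 / m - 1 / ((m + 1 : ℕ) : ℝ)) +
        (tri h (x - a) - tri h (x - b)) * (1 / ((m + 1 : ℕ) : ℝ)) := by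
      ring
    rw [e]
    have hm1' : (1 : ℝ) / ((m + 1 : ℕ) : ℝ) ≤ 1 / m := by
      apply one_div_le_one_div_of_le hm0
      push_cast
      linarith
    have d1 : 0 ≤ (1 : ℝ) / m - 1 / ((m + 1 : ℕ) : ℝ) := by linarith
    have d2 : (1 : ℝ) / m - 1 / ((m + 1 : ℕ) : ℝ) ≤ 1 / (m : ℝ) ^ 2 := by
      have e2 : (1 : ℝ) / m - 1 / ((m + 1 : ℕ) : ℝ) = 1 / (m * (m + 1)) := by
        push_cast
        field_simp
        ring
      rw [e2]
      apply one_div_le_one_div_of_le (by positivity)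
      nlinarith
    have p1 : |tri h (x - a) * (1 / m - 1 / ((m + 1 : ℕ) : ℝ))| ≤
        (1 / h ^ 2) * (1 / (m : ℝ) ^ 2) := by
      rw [abs_mul, abs_of_nonneg t4, abs_of_nonneg d1]
      gcongr
      linarith
    have p3 : |(tri h (x - a) - tri h (x - b)) * (1 / ((m + 1 : ℕ) : ℝ))| ≤
        (1 / h ^ 2 * (1 / m)) * (1 / m) := by
      rw [abs_mul, abs_of_nonneg (by positivity : (0 : ℝ) ≤ 1 / ((m + 1 : ℕ) : ℝ))]
      gcongr
      refine t2.trans ?_
      gcongr
    refine (abs_add_le _ _).trans ?_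
    have e4 : (1 / h ^ 2 * (1 / (m : ℝ))) * (1 / m) = (1 / h ^ 2) * (1 / (m : ℝ) ^ 2) := by
      field_simp
    have e5 : 2 / h ^ 2 * ((m : ℝ) ^ 2)⁻¹ = 2 * ((1 / h ^ 2) * (1 / (m : ℝ) ^ 2)) := by
      field_simp
    rw [e5]
    linarith
  · rw [not_and_or, not_lt, not_lt] at hc
    rcases hc with hc | hc
    · rw [tri_zero_of hh (show h ≤ |x - a| by rw [abs_of_nonneg (by linarith)]; linarith),
        tri_zero_of hh (show h ≤ |x - b| by rw [abs_of_nonneg (by linarith)]; linarith)]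
      simp
    · rw [tri_zero_of hh (show h ≤ |x - a| by rw [abs_of_nonpos (by linarith)]; linarith),
        tri_zero_of hh (show h ≤ |x - b| by rw [abs_of_nonpos (by linarith)]; linarith)]
      simp

/-- the smoothed sum for real characters -/
theorem TX_real {b : ℕ} (hb : 2 ≤ b) (V : ℕ) : ∃ C : ℝ, 0 < C ∧ ∀ (k : ℕ) [NeZero (b ^ k)], 3 ≤ k →
    ∀ χ : DirichletCharacter ℂ (b ^ k), χ ^ 2 = 1 → χ ≠ 1 → ∀ (h z : ℝ) (N : ℕ), 0 < h → h ≤ 1 →
    4 ≤ z → Real.exp (z + h) ≤ N → ‖TX χ h N z‖ ≤ C / h ^ 2 / z ^ V := by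
  obtain ⟨C, hC, hψ⟩ := real_psi hb V
  refine ⟨20 * C * 2 ^ V, by positivity, fun k _ hk χ hχ2 hχ1 h z N hh hh1 hz hN => ?_⟩
  set A : ℕ → ℂ := fun m => ∑ n ∈ Finset.Ioc 0 m, χ n * ((Λ n : ℝ) : ℂ) with hA
  set F : ℕ → ℝ := fun m => 1 / (m : ℝ) * tri h (z - Real.log m) with hF
  have hN0 : (0 : ℝ) < N := lt_of_lt_of_le (Real.exp_pos _) hN
  have hlogN : z + h ≤ Real.log ((N + 1 : ℕ) : ℝ) := by
    rw [Real.le_log_iff_exp_le (by positivity)]
    refine hN.trans ?_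
    push_cast
    linarith
  have hFN : F (N + 1) = 0 := by
    simp only [hF]
    rw [tri_zero_of hh, mul_zero]
    rw [abs_of_nonpos (by linarith)]
    linarith
  have habel : ∀ M : ℕ, ∑ m ∈ Finset.Ioc 0 M, (χ m * ((Λ m : ℝ) : ℂ)) * (F m : ℂ) =
      ∑ m ∈ Finset.Ioc 0 M, A m * ((F m - F (m + 1) : ℝ) : ℂ) + A M * (F (M + 1) : ℂ) := by
    intro M
    induction M with
    | zero => simp [hA]
    | succ n ih =>
      rw [Finset.sum_Ioc_succ_top (by omega), Finset.sum_Ioc_succ_top (by omega), ih]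
      have h1 : A (n + 1) = A n + χ ((n + 1 : ℕ) : ZMod (b ^ k)) * ((Λ (n + 1) : ℝ) : ℂ) := by
        simp only [hA]
        rw [Finset.sum_Ioc_succ_top (by omega)]
      rw [h1]
      push_cast
      ring
  have hT : TX χ h N z = ∑ m ∈ Finset.Ioc 0 N, A m * ((F m - F (m + 1) : ℝ) : ℂ) := by
    have h1 := habel N
    rw [hFN, Complex.ofReal_zero, mul_zero, add_zero] at h1
    rw [← h1]
    unfold TX
    refine Finset.sum_congr rfl fun n _ => ?_
    simp only [hF]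
    unfold triC
    push_cast
    ring
  rw [hT]
  refine (norm_sum_le _ _).trans ?_
  have hz2 : Real.exp (z / 2) + 1 ≤ Real.exp (z - 1) := by
    have e : Real.exp (z - 1) = Real.exp (z / 2) * Real.exp (z / 2 - 1) := by
      rw [← Real.exp_add]; congr 1; ring
    rw [e]
    have h1 : Real.exp 1 ≤ Real.exp (z / 2 - 1) := Real.exp_le_exp.2 (by linarith)
    have h2 := Real.exp_one_gt_d9
    have h3 : 1 ≤ Real.exp (z / 2) := Real.one_le_exp (by linarith)
    nlinarith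
  have hbound : ∀ m ∈ Finset.Ioc 0 N, ‖A m * ((F m - F (m + 1) : ℝ) : ℂ)‖ ≤
      if z - h < Real.log ((m + 1 : ℕ) : ℝ) ∧ Real.log m < z + h then
        (2 * C * 2 ^ V / h ^ 2 / z ^ V) * (1 / (m : ℝ)) else 0 := by
    intro m hm
    rw [Finset.mem_Ioc] at hm
    have hv := tri_var hh hh1 (x := z) hm.1
    rw [norm_mul, Complex.norm_real, Real.norm_eq_abs]
    split_ifs with hc
    · rw [if_pos hc] at hv
      have hm0 : (0 : ℝ) < m := by exact_mod_cast hm.1
      have hmz : Real.exp (z / 2) ≤ m := by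
        have h3 : Real.exp (z - h) < ((m + 1 : ℕ) : ℝ) := by
          rw [← Real.lt_log_iff_exp_lt (by positivity)]
          exact hc.1
        push_cast at h3
        have h4 : Real.exp (z - 1) ≤ Real.exp (z - h) := Real.exp_le_exp.2 (by linarith)
        linarith
      have hlm : z / 2 ≤ Real.log m := by
        rw [Real.le_log_iff_exp_le hm0]; exact hmz
      have hm2 : 2 ≤ m := by
        have : (2 : ℝ) ≤ m := by
          refine le_trans ?_ hmz
          have := Real.add_one_le_exp (z / 2)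
          linarith
        exact_mod_cast this
      have h5 := hψ k hk χ hχ2 hχ1 m hm2
      have h6 : ‖A m‖ ≤ C * (m / (z / 2) ^ V) := by
        refine h5.trans ?_
        gcongr
      calc ‖A m‖ * |F m - F (m + 1)| ≤ (C * (m / (z / 2) ^ V)) * (2 / h ^ 2 * ((m : ℝ) ^ 2)⁻¹) := by
            exact mul_le_mul h6 hv (abs_nonneg _) (by positivity)
        _ = _ := by
            rw [div_pow]
            field_simp
    · rw [if_neg hc] at hv
      have : |F m - F (m + 1)| = 0 := le_antisymm hv (abs_nonneg _)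
      rw [this, mul_zero]
  refine (Finset.sum_le_sum hbound).trans ?_
  rw [← Finset.sum_filter, ← Finset.mul_sum]
  have hrec := recip_window (z - 2) ((Finset.Ioc 0 N).filter fun m : ℕ =>
      z - h < Real.log ((m + 1 : ℕ) : ℝ) ∧ Real.log m < z + h) (by
    intro m hm
    rw [Finset.mem_filter, Finset.mem_Ioc] at hm
    have hm0 : (0 : ℝ) < m := by exact_mod_cast hm.1.1
    obtain ⟨g1, g2, -⟩ := log_gap hm.1.1
    have hm1 : (1 : ℝ) ≤ m := by exact_mod_cast hm.1.1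
    have : (1 : ℝ) / m ≤ 1 := by
      rw [div_le_one hm0]; exact hm1
    exact ⟨hm.1.1, by linarith [hm.2.1], by linarith [hm.2.2]⟩)
  have hpos : 0 ≤ 2 * C * 2 ^ V / h ^ 2 / z ^ V := by positivity
  calc _ ≤ (2 * C * 2 ^ V / h ^ 2 / z ^ V) * 10 := mul_le_mul_of_nonneg_left hrec hpos
    _ = _ := by ring

/-- the nonprincipal characters -/
noncomputable def np (Q : ℕ) [NeZero Q] : Finset (DirichletCharacter ℂ Q) :=
  Finset.univ.filter fun χ => χ ≠ 1

/-- mean square over all nonprincipal characters modulo `b ^ k` -/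
theorem KTall {b : ℕ} (hb : 2 ≤ b) (A B : ℕ) : ∃ c0 Z0 : ℝ, 0 < c0 ∧ 1 ≤ Z0 ∧
    ∀ (k : ℕ) [NeZero (b ^ k)] (Z h : ℝ), 3 ≤ k → Z0 ≤ Z →
    1 / Z ^ B ≤ h → h ≤ 1 → √Z ≤ Real.log (b ^ k : ℕ) → Real.log (b ^ k : ℕ) * Real.log Z ≤ c0 * Z →
    ∀ N : ℕ, Real.exp (Z + 2) ≤ N →
    ∑ χ ∈ np (b ^ k), ∫ z in Z..(Z + 1), ‖TX χ h N z‖ ^ 2 ≤ 1 / Z ^ A := by
  classical
  obtain ⟨c0, Z0, hc0, hZ0, hKT⟩ := KTX (A + 1) B
  set V := 2 * B + A + 1 with hV
  obtain ⟨C, hC, hreal⟩ := TX_real hb V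
  refine ⟨c0, max (max Z0 4) (max 2 (2 * ((b : ℝ) ^ 3 * C ^ 2))), hc0,
    hZ0.trans ((le_max_left _ _).trans (le_max_left _ _)),
    fun k _ Z h hk hZ hh hh1 h1 h2 N hN => ?_⟩
  have hZa : Z0 ≤ Z := ((le_max_left _ _).trans (le_max_left _ _)).trans hZ
  have hZb : 4 ≤ Z := ((le_max_right _ _).trans (le_max_left _ _)).trans hZ
  have hZc : 2 ≤ Z := ((le_max_left _ _).trans (le_max_right _ _)).trans hZ
  have hZd : 2 * ((b : ℝ) ^ 3 * C ^ 2) ≤ Z := ((le_max_right _ _).trans (le_max_right _ _)).trans hZ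
  have hZpos : 0 < Z := by linarith
  have hZB0 : 0 < Z ^ B := by positivity
  have hh0 : 0 < h := lt_of_lt_of_le (by positivity) hh
  have hb0 : 0 < b := by omega
  have hmain := hKT (b ^ k) Z h hZa hh hh1 h1 h2 N hN
  have hsplit : ∑ χ ∈ np (b ^ k), ∫ z in Z..(Z + 1), ‖TX χ h N z‖ ^ 2 =
      (∑ χ ∈ nr (b ^ k), ∫ z in Z..(Z + 1), ‖TX χ h N z‖ ^ 2) +
      (∑ χ ∈ (np (b ^ k)).filter (fun χ => χ ^ 2 = 1), ∫ z in Z..(Z + 1), ‖TX χ h N z‖ ^ 2) := by
    rw [← Finset.sum_filter_not_add_sum_filter (np (b ^ k)) (fun χ => χ ^ 2 = 1)]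
    congr 1
    apply Finset.sum_congr _ fun _ _ => rfl
    ext χ
    unfold np nr
    simp only [Finset.mem_filter, Finset.mem_univ, true_and]
    constructor
    · intro h
      exact h.2
    · intro h
      refine ⟨?_, h⟩
      rintro rfl
      exact h (one_pow 2)
  have hcard : (((np (b ^ k)).filter (fun χ => χ ^ 2 = 1)).card : ℝ) ≤ (b : ℝ) ^ 3 := by
    have : NeZero (b ^ 3) := ⟨by positivity⟩
    have h3 : ∀ χ : DirichletCharacter ℂ (b ^ k), χ ^ 2 = 1 →
        ∃ ψ : DirichletCharacter ℂ (b ^ 3),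
          χ = DirichletCharacter.changeLevel (pow_dvd_pow b hk) ψ := by
      intro χ hχ
      obtain ⟨hd, ψ, hψ⟩ := real_factors hb hk hχ
      exact ⟨ψ, hψ⟩
    have h4 : ((np (b ^ k)).filter (fun χ => χ ^ 2 = 1)) ⊆
        Finset.univ.image (DirichletCharacter.changeLevel (R := ℂ) (pow_dvd_pow b hk)) := by
      intro χ hχ
      rw [Finset.mem_filter] at hχ
      rw [Finset.mem_image]
      obtain ⟨ψ, hψ⟩ := h3 χ hχ.2
      exact ⟨ψ, Finset.mem_univ _, hψ.symm⟩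
    have h5 := (Finset.card_le_card h4).trans Finset.card_image_le
    have h6 : (Finset.univ : Finset (DirichletCharacter ℂ (b ^ 3))).card ≤ b ^ 3 := by
      rw [Finset.card_univ, ← Nat.card_eq_fintype_card,
        DirichletCharacter.card_eq_totient_of_hasEnoughRootsOfUnity ℂ (b ^ 3)]
      exact Nat.totient_le _
    exact_mod_cast h5.trans h6
  have hr : ∀ χ ∈ (np (b ^ k)).filter (fun χ => χ ^ 2 = 1),
      ∫ z in Z..(Z + 1), ‖TX χ h N z‖ ^ 2 ≤ (C / Z ^ (A + 1)) ^ 2 := by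
    intro χ hχ
    unfold np at hχ
    simp only [Finset.mem_filter, Finset.mem_univ, true_and] at hχ
    have h3 : ∀ z ∈ Set.Icc Z (Z + 1), ‖TX χ h N z‖ ^ 2 ≤ (C / Z ^ (A + 1)) ^ 2 := by
      intro z hz
      have h4 := hreal k hk χ hχ.2 hχ.1 h z N hh0 hh1 (by linarith [hz.1]) (by
        refine le_trans (Real.exp_le_exp.2 ?_) hN
        linarith [hz.2])
      have h5 : C / h ^ 2 / z ^ V ≤ C / Z ^ (A + 1) := by
        have h6 : C / h ^ 2 ≤ C * Z ^ (2 * B) := by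
          have h1 : 1 ≤ h * Z ^ B := by rwa [div_le_iff₀ hZB0] at hh
          have h2 : 1 ≤ (h * Z ^ B) ^ 2 := one_le_pow₀ h1
          rw [div_le_iff₀ (by positivity), mul_assoc, mul_comm 2 B, pow_mul]
          have h3 : (Z ^ B) ^ 2 * h ^ 2 = (h * Z ^ B) ^ 2 := by ring
          rw [h3]
          nlinarith
        have h7 : Z ^ V ≤ z ^ V := pow_le_pow_left₀ hZpos.le hz.1 V
        have h8 : C / h ^ 2 / z ^ V ≤ C * Z ^ (2 * B) / Z ^ V := by
          have : 0 < z := by linarith [hz.1]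
          gcongr
        refine h8.trans (le_of_eq ?_)
        rw [hV, show 2 * B + A + 1 = 2 * B + (A + 1) by ring, pow_add Z (2 * B) (A + 1)]
        field_simp
      exact pow_le_pow_left₀ (norm_nonneg _) (h4.trans h5) 2
    have h4 : ∫ z in Z..(Z + 1), ‖TX χ h N z‖ ^ 2 ≤ ∫ z in Z..(Z + 1), (C / Z ^ (A + 1)) ^ 2 := by
      apply intervalIntegral.integral_mono_on (by linarith)
        (((TX_continuous χ h N).norm.pow 2).intervalIntegrable _ _) intervalIntegrable_const h3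
    refine h4.trans (le_of_eq ?_)
    rw [intervalIntegral.integral_const]
    simp
  rw [hsplit]
  have hs := Finset.sum_le_sum hr
  rw [Finset.sum_const, nsmul_eq_mul] at hs
  have h5 : (b : ℝ) ^ 3 * (C / Z ^ (A + 1)) ^ 2 ≤ 1 / 2 * (1 / Z ^ A) := by
    rw [div_pow, ← mul_div_assoc, ← pow_mul]
    have h6 : (b : ℝ) ^ 3 * C ^ 2 / Z ^ ((A + 1) * 2) ≤ (Z / 2) / Z ^ (A + 1) := by
      have h7 : Z ^ (A + 1) ≤ Z ^ ((A + 1) * 2) := pow_le_pow_right₀ (by linarith) (by omega)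
      have h8 : (b : ℝ) ^ 3 * C ^ 2 ≤ Z / 2 := by linarith
      calc (b : ℝ) ^ 3 * C ^ 2 / Z ^ ((A + 1) * 2) ≤ (Z / 2) / Z ^ ((A + 1) * 2) := by gcongr
        _ ≤ _ := by gcongr
    refine h6.trans (le_of_eq ?_)
    rw [pow_succ]
    field_simp
  have h6 : 1 / Z ^ (A + 1) ≤ 1 / 2 * (1 / Z ^ A) := by
    rw [pow_succ, one_div_mul_one_div]
    apply one_div_le_one_div_of_le (by positivity)
    nlinarith [pow_pos hZpos A]
  have h7 : (((np (b ^ k)).filter (fun χ => χ ^ 2 = 1)).card : ℝ) * (C / Z ^ (A + 1)) ^ 2 ≤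
      (b : ℝ) ^ 3 * (C / Z ^ (A + 1)) ^ 2 := by gcongr
  linarith

end Pool.Agent.W66L
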