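import Pool.Agent.W66.LI

set_option autoImplicit false

/-!
# Class sums and characters
-/

open Complex Filter Topology Set MeasureTheory Metric
open scoped Real
open scoped ArithmeticFunction.vonMangoldt

namespace Pool.Agent.W66L

open Pool.Agent.W66

variable {Q : ℕ} [NeZero Q]

/-- the sum of a weight over a residue class -/
noncomputable def cs (Q : ℕ) (s : Finset ℕ) (w : ℕ → ℝ) (a : (ZMod Q)ˣ) : ℝ :=
  ∑ n ∈ s, if ((n : ZMod Q) = (a : ZMod Q)) then w n else 0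

/-- the mean over the reduced classes -/
noncomputable def cm (Q : ℕ) [NeZero Q] (s : Finset ℕ) (w : ℕ → ℝ) : ℝ :=
  (∑ a : (ZMod Q)ˣ, cs Q s w a) / (Q.totient : ℝ)

lemma card_units' : ((Finset.univ : Finset (ZMod Q)ˣ).card : ℝ) = (Q.totient : ℝ) := by
  rw [Finset.card_univ, ZMod.card_units_eq_totient]

lemma tot_pos : (0 : ℝ) < (Q.totient : ℝ) := by
  exact_mod_cast Nat.totient_pos.2 (Nat.pos_of_ne_zero (NeZero.ne Q))

lemma unit_ind (x y : ZMod Q) : ∑ a : (ZMod Q)ˣ,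
    (if x = (a : ZMod Q) then (1 : ℝ) else 0) * (if y = (a : ZMod Q) then (1 : ℝ) else 0) =
      if x = y ∧ IsUnit y then 1 else 0 := by
  by_cases hy : x = y ∧ IsUnit y
  · rw [if_pos hy]
    obtain ⟨rfl, u, hu⟩ := hy
    rw [Finset.sum_eq_single u]
    · rw [if_pos hu.symm]; norm_num
    · intro b _ hb
      rw [if_neg, zero_mul]
      rw [← hu]
      intro h
      exact hb (Units.ext h.symm)
    · intro h; exact absurd (Finset.mem_univ _) h
  · rw [if_neg hy]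
    refine Finset.sum_eq_zero fun a _ => ?_
    by_cases h1 : x = (a : ZMod Q)
    · by_cases h2 : y = (a : ZMod Q)
      · exfalso
        apply hy
        exact ⟨h1.trans h2.symm, h2 ▸ a.isUnit⟩
      · rw [if_neg h2, mul_zero]
    · rw [if_neg h1, zero_mul]

/-- Parseval -/
lemma parseval (s : Finset ℕ) (w : ℕ → ℝ) :
    ∑ χ : DirichletCharacter ℂ Q, ‖∑ n ∈ s, χ n * (w n : ℂ)‖ ^ 2 =
      (Q.totient : ℝ) * ∑ a : (ZMod Q)ˣ, cs Q s w a ^ 2 := by
  have h1 : ((∑ χ : DirichletCharacter ℂ Q, ‖∑ n ∈ s, χ n * (w n : ℂ)‖ ^ 2 : ℝ) : ℂ) =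
      ∑ n ∈ s, ∑ m ∈ s, (w n : ℂ) * (w m : ℂ) *
        (if ((n : ZMod Q) = (m : ZMod Q) ∧ IsUnit (m : ZMod Q)) then (Q.totient : ℂ) else 0) := by
    push_cast
    have h2 : ∀ χ : DirichletCharacter ℂ Q, ((‖∑ n ∈ s, χ n * (w n : ℂ)‖ : ℝ) : ℂ) ^ 2 =
        ∑ n ∈ s, ∑ m ∈ s, (w n : ℂ) * (w m : ℂ) * (χ n * (starRingEnd ℂ) (χ m)) := by
      intro χ
      rw [← Complex.conj_mul', mul_comm, map_sum, Finset.sum_mul_sum]
      refine Finset.sum_congr rfl fun n _ => Finset.sum_congr rfl fun m _ => ?_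
      rw [map_mul, Complex.conj_ofReal]
      ring
    simp only [h2]
    rw [Finset.sum_comm]
    refine Finset.sum_congr rfl fun n _ => ?_
    rw [Finset.sum_comm]
    refine Finset.sum_congr rfl fun m _ => ?_
    rw [← Finset.mul_sum, sum_chi]
  have h3 : (Q.totient : ℝ) * ∑ a : (ZMod Q)ˣ, cs Q s w a ^ 2 =
      ∑ n ∈ s, ∑ m ∈ s, w n * w m *
        (if ((n : ZMod Q) = (m : ZMod Q) ∧ IsUnit (m : ZMod Q)) then (Q.totient : ℝ) else 0) := by
    have h4 : ∀ a : (ZMod Q)ˣ, cs Q s w a ^ 2 = ∑ n ∈ s, ∑ m ∈ s, w n * w m *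
        ((if (n : ZMod Q) = (a : ZMod Q) then (1 : ℝ) else 0) *
          (if (m : ZMod Q) = (a : ZMod Q) then (1 : ℝ) else 0)) := by
      intro a
      unfold cs
      rw [sq, Finset.sum_mul_sum]
      refine Finset.sum_congr rfl fun n _ => Finset.sum_congr rfl fun m _ => ?_
      split_ifs <;> simp
    simp only [h4]
    rw [Finset.sum_comm, Finset.mul_sum]
    refine Finset.sum_congr rfl fun n _ => ?_
    rw [Finset.sum_comm, Finset.mul_sum]
    refine Finset.sum_congr rfl fun m _ => ?_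
    rw [← Finset.mul_sum, unit_ind]
    split_ifs <;> ring
  have h5 : ((∑ χ : DirichletCharacter ℂ Q, ‖∑ n ∈ s, χ n * (w n : ℂ)‖ ^ 2 : ℝ) : ℂ) =
      (((Q.totient : ℝ) * ∑ a : (ZMod Q)ˣ, cs Q s w a ^ 2 : ℝ) : ℂ) := by
    rw [h1, h3]
    push_cast
    refine Finset.sum_congr rfl fun n _ => Finset.sum_congr rfl fun m _ => ?_
    split_ifs <;> simp
  exact_mod_cast h5

lemma chi_one_sum (s : Finset ℕ) (w : ℕ → ℝ) :
    ∑ n ∈ s, (1 : DirichletCharacter ℂ Q) n * (w n : ℂ) =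
      ((∑ a : (ZMod Q)ˣ, cs Q s w a : ℝ) : ℂ) := by
  unfold cs
  rw [Finset.sum_comm]
  push_cast
  refine Finset.sum_congr rfl fun n _ => ?_
  by_cases hn : IsUnit (n : ZMod Q)
  · rw [MulChar.one_apply hn, one_mul]
    obtain ⟨u, hu⟩ := hn
    rw [Finset.sum_eq_single u]
    · rw [if_pos hu.symm]
    · intro b _ hb
      rw [if_neg]
      · simp
      · rw [← hu]
        intro h
        exact hb (Units.ext h.symm)
    · intro h; exact absurd (Finset.mem_univ _) h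
  · rw [MulChar.map_nonunit _ hn, zero_mul]
    symm
    refine Finset.sum_eq_zero fun a _ => ?_
    rw [if_neg]
    · simp
    · intro h
      exact hn (h ▸ a.isUnit)

/-- the mean absolute deviation over the classes is at most the mean square over the characters -/
theorem L1_chi (s : Finset ℕ) (w : ℕ → ℝ) :
    (∑ a : (ZMod Q)ˣ, |cs Q s w a - cm Q s w|) ^ 2 ≤
      ∑ χ ∈ np Q, ‖∑ n ∈ s, χ n * (w n : ℂ)‖ ^ 2 := by
  have hφ := tot_pos (Q := Q)
  have h1 : (∑ a : (ZMod Q)ˣ, |cs Q s w a - cm Q s w|) ^ 2 ≤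
      (Q.totient : ℝ) * ∑ a : (ZMod Q)ˣ, (cs Q s w a - cm Q s w) ^ 2 := by
    have := sq_sum_le_card_mul_sum_sq (s := (Finset.univ : Finset (ZMod Q)ˣ))
      (f := fun a => |cs Q s w a - cm Q s w|)
    rw [card_units'] at this
    simpa [sq_abs] using this
  have h2 : (Q.totient : ℝ) * ∑ a : (ZMod Q)ˣ, (cs Q s w a - cm Q s w) ^ 2 =
      (Q.totient : ℝ) * (∑ a : (ZMod Q)ˣ, cs Q s w a ^ 2) - (∑ a : (ZMod Q)ˣ, cs Q s w a) ^ 2 := by
    have h3 : ∑ a : (ZMod Q)ˣ, (cs Q s w a - cm Q s w) ^ 2 =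
        (∑ a : (ZMod Q)ˣ, cs Q s w a ^ 2) - 2 * cm Q s w * (∑ a : (ZMod Q)ˣ, cs Q s w a) +
          (Q.totient : ℝ) * cm Q s w ^ 2 := by
      have h4 : ∀ a : (ZMod Q)ˣ, (cs Q s w a - cm Q s w) ^ 2 =
          cs Q s w a ^ 2 - 2 * cm Q s w * cs Q s w a + cm Q s w ^ 2 := fun a => by ring
      simp only [h4]
      rw [Finset.sum_add_distrib, Finset.sum_sub_distrib, ← Finset.mul_sum, Finset.sum_const,
        nsmul_eq_mul, card_units']
    rw [h3]
    have h5 : (∑ a : (ZMod Q)ˣ, cs Q s w a) = cm Q s w * (Q.totient : ℝ) := by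
      unfold cm
      field_simp
    rw [h5]
    ring
  have h6 : ∑ χ ∈ np Q, ‖∑ n ∈ s, χ n * (w n : ℂ)‖ ^ 2 =
      (Q.totient : ℝ) * (∑ a : (ZMod Q)ˣ, cs Q s w a ^ 2) - (∑ a : (ZMod Q)ˣ, cs Q s w a) ^ 2 := by
    rw [← parseval]
    unfold np
    rw [Finset.filter_ne' Finset.univ (1 : DirichletCharacter ℂ Q),
      ← Finset.add_sum_erase _ _ (Finset.mem_univ (1 : DirichletCharacter ℂ Q)), chi_one_sum]
    have : ‖((∑ a : (ZMod Q)ˣ, cs Q s w a : ℝ) : ℂ)‖ ^ 2 = (∑ a : (ZMod Q)ˣ, cs Q s w a) ^ 2 := by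
      rw [Complex.norm_real, Real.norm_eq_abs, sq_abs]
    rw [this]
    ring
  rw [h6, ← h2]
  exact h1

lemma cs_add (s : Finset ℕ) (w v : ℕ → ℝ) (a : (ZMod Q)ˣ) :
    cs Q s (fun n => w n + v n) a = cs Q s w a + cs Q s v a := by
  unfold cs
  rw [← Finset.sum_add_distrib]
  refine Finset.sum_congr rfl fun n _ => ?_
  split_ifs <;> simp

lemma cm_add (s : Finset ℕ) (w v : ℕ → ℝ) :
    cm Q s (fun n => w n + v n) = cm Q s w + cm Q s v := by
  unfold cm
  simp only [cs_add]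
  rw [Finset.sum_add_distrib, add_div]

lemma sum_cs_abs (s : Finset ℕ) (w : ℕ → ℝ) : ∑ a : (ZMod Q)ˣ, |cs Q s w a| ≤ ∑ n ∈ s, |w n| := by
  calc ∑ a : (ZMod Q)ˣ, |cs Q s w a| ≤ ∑ a : (ZMod Q)ˣ, ∑ n ∈ s,
        (if ((n : ZMod Q) = (a : ZMod Q)) then |w n| else 0) := by
        refine Finset.sum_le_sum fun a _ => ?_
        unfold cs
        refine (Finset.abs_sum_le_sum_abs _ _).trans (Finset.sum_le_sum fun n _ => ?_)
        split_ifs <;> simp
    _ = ∑ n ∈ s, ∑ a : (ZMod Q)ˣ, (if ((n : ZMod Q) = (a : ZMod Q)) then |w n| else 0) :=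
        Finset.sum_comm
    _ ≤ ∑ n ∈ s, |w n| := by
        refine Finset.sum_le_sum fun n _ => ?_
        by_cases hn : IsUnit (n : ZMod Q)
        · obtain ⟨u, hu⟩ := hn
          rw [Finset.sum_eq_single u]
          · rw [if_pos hu.symm]
          · intro b _ hb
            rw [if_neg]
            rw [← hu]
            intro h
            exact hb (Units.ext h.symm)
          · intro h; exact absurd (Finset.mem_univ _) h
        · rw [Finset.sum_eq_zero]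
          · exact abs_nonneg _
          · intro a _
            rw [if_neg]
            intro h
            exact hn (h ▸ a.isUnit)

lemma L1_triv (s : Finset ℕ) (w : ℕ → ℝ) :
    ∑ a : (ZMod Q)ˣ, |cs Q s w a - cm Q s w| ≤ 2 * ∑ n ∈ s, |w n| := by
  have hφ := tot_pos (Q := Q)
  have h1 := sum_cs_abs (Q := Q) s w
  have h2 : (Q.totient : ℝ) * |cm Q s w| ≤ ∑ n ∈ s, |w n| := by
    unfold cm
    rw [abs_div, abs_of_pos hφ, mul_div_cancel₀ _ hφ.ne']
    exact (Finset.abs_sum_le_sum_abs _ _).trans h1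
  calc ∑ a : (ZMod Q)ˣ, |cs Q s w a - cm Q s w| ≤ ∑ a : (ZMod Q)ˣ, (|cs Q s w a| + |cm Q s w|) :=
        Finset.sum_le_sum fun a _ => abs_sub _ _
    _ = ∑ a : (ZMod Q)ˣ, |cs Q s w a| + (Q.totient : ℝ) * |cm Q s w| := by
        rw [Finset.sum_add_distrib, Finset.sum_const, nsmul_eq_mul, card_units']
    _ ≤ _ := by linarith

/-- splitting the weight -/
theorem L1_split (s : Finset ℕ) (w v : ℕ → ℝ) {E F : ℝ} (hE : 0 ≤ E)
    (h1 : ∑ χ ∈ np Q, ‖∑ n ∈ s, χ n * (v n : ℂ)‖ ^ 2 ≤ E ^ 2) (h2 : ∑ n ∈ s, |w n - v n| ≤ F) :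
    ∑ a : (ZMod Q)ˣ, |cs Q s w a - cm Q s w| ≤ E + 2 * F := by
  have e : w = fun n => v n + (w n - v n) := by ext n; ring
  have h3 := L1_triv (Q := Q) s (fun n => w n - v n)
  have h4 : ∑ a : (ZMod Q)ˣ, |cs Q s v a - cm Q s v| ≤ E := by
    have := L1_chi (Q := Q) s v
    exact abs_le_of_sq_le_sq' (this.trans h1) hE |>.2
  calc ∑ a : (ZMod Q)ˣ, |cs Q s w a - cm Q s w| ≤
        ∑ a : (ZMod Q)ˣ, (|cs Q s v a - cm Q s v| +
          |cs Q s (fun n => w n - v n) a - cm Q s (fun n => w n - v n)|) := by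
        refine Finset.sum_le_sum fun a _ => ?_
        conv_lhs => rw [e]
        rw [cs_add, cm_add]
        have : cs Q s v a + cs Q s (fun n => w n - v n) a - (cm Q s v + cm Q s (fun n => w n - v n)) =
          (cs Q s v a - cm Q s v) + (cs Q s (fun n => w n - v n) a - cm Q s (fun n => w n - v n)) := by
          ring
        rw [this]
        exact abs_add_le _ _
    _ = _ := Finset.sum_add_distrib
    _ ≤ _ := by linarith

end Pool.Agent.W66L
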