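import Pool.Agent.W66.LI

set_option autoImplicit false

/-!
# The smooth weight approximating the indicator of the primes
-/

open Complex Filter Topology Set MeasureTheory Metric
open scoped Real
open scoped ArithmeticFunction.vonMangoldt

namespace Pool.Agent.W66L

open Pool.Agent.W66

/-- the averaged weight -/
noncomputable def GW (h A B : ℝ) (n : ℕ) : ℝ :=
  1 / (n : ℝ) * ∫ z in A..B, Real.exp z / z * tri h (z - Real.log n)

lemma tri_full {h : ℝ} (hh : 0 < h) {A B t : ℝ} (hA : A ≤ t - h) (hB : t + h ≤ B) :
    ∫ z in A..B, tri h (z - t) = 1 := by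
  rw [intervalIntegral.integral_comp_sub_right (fun u => tri h u), ← integral_tri hh]
  apply intervalIntegral.integral_eq_integral_of_support_subset
  intro u hu
  rw [Function.mem_support] at hu
  have h1 : |u| < h := by
    by_contra hcon
    exact hu (tri_zero_of hh (not_lt.1 hcon))
  rw [abs_lt] at h1
  exact ⟨by linarith, by linarith⟩

lemma kern_cont {h A B : ℝ} (hA : 0 < A) (hAB : A ≤ B) (t : ℝ) :
    ContinuousOn (fun z => Real.exp z / z * tri h (z - t)) (Set.uIcc A B) := by
  rw [Set.uIcc_of_le hAB]
  apply ContinuousOn.mul
  · apply ContinuousOn.div Real.continuous_exp.continuousOn continuousOn_id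
    intro z hz
    have : 0 < z := by linarith [hz.1]
    exact this.ne'
  · exact ((tri_continuous h).comp (by fun_prop)).continuousOn

lemma GW_nonneg {h A B : ℝ} (hh : 0 < h) (hA : 0 < A) (hAB : A ≤ B) (n : ℕ) : 0 ≤ GW h A B n := by
  unfold GW
  apply mul_nonneg (by positivity)
  apply intervalIntegral.integral_nonneg hAB
  intro z hz
  have hz0 : 0 < z := by linarith [hz.1]
  exact mul_nonneg (by positivity) (tri_nonneg hh _)

lemma GW_zero {h A B : ℝ} (hh : 0 < h) (hAB : A ≤ B) {n : ℕ}
    (hn : B + h ≤ Real.log n) : GW h A B n = 0 := by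
  unfold GW
  have : ∫ z in A..B, Real.exp z / z * tri h (z - Real.log n) = 0 := by
    have h1 : ∫ z in A..B, Real.exp z / z * tri h (z - Real.log n) = ∫ z in A..B, (0 : ℝ) := by
      apply intervalIntegral.integral_congr
      intro z hz
      rw [Set.uIcc_of_le hAB] at hz
      simp only
      rw [tri_zero_of hh, mul_zero]
      rw [abs_of_nonpos (by linarith [hz.2])]
      linarith [hz.2]
    rw [h1]
    simp
  rw [this, mul_zero]

lemma GW_le {h A B : ℝ} (hh : 0 < h) (hh1 : h ≤ 1) (hA : 0 < A) (hAB : A ≤ B) {n : ℕ} (hn : 0 < n) :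
    GW h A B n ≤ 3 / A := by
  unfold GW
  have hn0 : (0 : ℝ) < n := by exact_mod_cast hn
  set t := Real.log n with ht
  have h1 : ∫ z in A..B, Real.exp z / z * tri h (z - t) ≤
      ∫ z in A..B, (Real.exp (t + h) / A) * tri h (z - t) := by
    apply intervalIntegral.integral_mono_on hAB (kern_cont hA hAB t).intervalIntegrable
    · apply Continuous.intervalIntegrable
      exact continuous_const.mul ((tri_continuous h).comp (by fun_prop))
    · intro z hz
      have hz0 : 0 < z := by linarith [hz.1]
      by_cases hzt : h ≤ |z - t|
      · rw [tri_zero_of hh hzt]; simp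
      · push Not at hzt
        rw [abs_lt] at hzt
        apply mul_le_mul_of_nonneg_right _ (tri_nonneg hh _)
        apply div_le_div₀ (Real.exp_pos _).le (Real.exp_le_exp.2 (by linarith)) hA hz.1
  have h2 : ∫ z in A..B, (Real.exp (t + h) / A) * tri h (z - t) ≤ Real.exp (t + h) / A := by
    rw [intervalIntegral.integral_const_mul]
    have h3 : ∫ z in A..B, tri h (z - t) ≤ 1 := integral_tri_shift_le hh t A B hAB
    have h4 : 0 ≤ Real.exp (t + h) / A := by positivity
    nlinarith
  have h5 : Real.exp (t + h) ≤ n * 3 := by
    rw [Real.exp_add, ht, Real.exp_log hn0]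
    apply mul_le_mul_of_nonneg_left _ hn0.le
    have : Real.exp h ≤ Real.exp 1 := Real.exp_le_exp.2 hh1
    linarith [Real.exp_one_lt_d9]
  calc 1 / (n : ℝ) * ∫ z in A..B, Real.exp z / z * tri h (z - t) ≤
      1 / (n : ℝ) * (Real.exp (t + h) / A) := by
        apply mul_le_mul_of_nonneg_left (h1.trans h2) (by positivity)
    _ ≤ 1 / (n : ℝ) * (n * 3 / A) := by gcongr
    _ = 3 / A := by field_simp

lemma GW_interior {h A B : ℝ} (hh : 0 < h) (hh1 : h ≤ 1) (hA : 2 ≤ A) {n : ℕ} (hn : 0 < n)
    (h1 : A + h ≤ Real.log n) (h2 : Real.log n + h ≤ B) :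
    |1 - Real.log n * GW h A B n| ≤ 5 * h := by
  unfold GW
  have hn0 : (0 : ℝ) < n := by exact_mod_cast hn
  set t := Real.log n with ht
  have ht2 : 2 ≤ t := by linarith
  have ht0 : 0 < t := by linarith
  have hAB : A ≤ B := by linarith
  have hfull := tri_full hh (A := A) (B := B) (t := t) (by linarith) h2
  have hexp : Real.exp t = n := by rw [ht, Real.exp_log hn0]
  have h3 : |(∫ z in A..B, Real.exp z / z * tri h (z - t)) - n / t| ≤ 5 * h * (n / t) := by
    have e1 : (n : ℝ) / t = ∫ z in A..B, (n : ℝ) / t * tri h (z - t) := by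
      rw [intervalIntegral.integral_const_mul, hfull, mul_one]
    have hc : ContinuousOn (fun z => (n : ℝ) / t * tri h (z - t)) (Set.uIcc A B) :=
      (continuous_const.mul ((tri_continuous h).comp (by fun_prop))).continuousOn
    have e2 : (∫ z in A..B, Real.exp z / z * tri h (z - t)) - n / t =
        ∫ z in A..B, (Real.exp z / z * tri h (z - t) - (n : ℝ) / t * tri h (z - t)) := by
      rw [intervalIntegral.integral_sub (kern_cont (by linarith) hAB t).intervalIntegrable
        hc.intervalIntegrable, ← e1]
    rw [e2]
    calc |∫ z in A..B, (Real.exp z / z * tri h (z - t) - (n : ℝ) / t * tri h (z - t))| ≤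
        ∫ z in A..B, |Real.exp z / z * tri h (z - t) - (n : ℝ) / t * tri h (z - t)| :=
          intervalIntegral.abs_integral_le_integral_abs hAB
      _ ≤ ∫ z in A..B, (5 * h * (n / t)) * tri h (z - t) := by
          apply intervalIntegral.integral_mono_on hAB
          · exact (((kern_cont (by linarith) hAB t).sub hc).abs).intervalIntegrable
          · apply Continuous.intervalIntegrable
            exact continuous_const.mul ((tri_continuous h).comp (by fun_prop))
          · intro z hz
            rw [← sub_mul, abs_mul, abs_of_nonneg (tri_nonneg hh _)]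
            by_cases hzt : h ≤ |z - t|
            · rw [tri_zero_of hh hzt]; simp
            · push Not at hzt
              apply mul_le_mul_of_nonneg_right _ (tri_nonneg hh _)
              have hzt' := abs_lt.1 hzt
              have hz0 : 0 < z := by linarith
              have hz2 : t / 2 ≤ z := by linarith
              have hv : |Real.exp (z - t) - 1| ≤ 2 * |z - t| :=
                Real.abs_exp_sub_one_le (by linarith)
              have e3 : Real.exp z / z - n / t =
                  n * ((Real.exp (z - t) - 1) / z + (t - z) / (z * t)) := by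
                have : Real.exp z = n * Real.exp (z - t) := by
                  rw [← hexp, ← Real.exp_add]; ring_nf
                rw [this]
                field_simp
                ring
              rw [e3, abs_mul, abs_of_pos hn0]
              have h4 : |(Real.exp (z - t) - 1) / z + (t - z) / (z * t)| ≤ 5 * h / t := by
                refine (abs_add_le _ _).trans ?_
                rw [abs_div, abs_div, abs_of_pos hz0, abs_of_pos (by positivity : 0 < z * t)]
                have h5 : |Real.exp (z - t) - 1| / z ≤ 4 * h / t := by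
                  rw [div_le_div_iff₀ hz0 ht0]
                  have : |Real.exp (z - t) - 1| ≤ 2 * h := by linarith
                  nlinarith
                have h6 : |t - z| / (z * t) ≤ h / t := by
                  rw [div_le_div_iff₀ (by positivity) ht0]
                  have h7 : |t - z| ≤ h := by rw [abs_sub_comm]; exact hzt.le
                  have h8 : 1 ≤ z := by linarith
                  have h9 : |t - z| * t ≤ h * t := mul_le_mul_of_nonneg_right h7 ht0.le
                  nlinarith [mul_pos hh ht0]
                have : 5 * h / t = 4 * h / t + h / t := by ring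
                linarith
              calc (n : ℝ) * |(Real.exp (z - t) - 1) / z + (t - z) / (z * t)| ≤ n * (5 * h / t) :=
                    mul_le_mul_of_nonneg_left h4 hn0.le
                _ = _ := by ring
      _ = _ := by rw [intervalIntegral.integral_const_mul, hfull, mul_one]
  have e4 : 1 - t * (1 / (n : ℝ) * ∫ z in A..B, Real.exp z / z * tri h (z - t)) =
      -(t / n * ((∫ z in A..B, Real.exp z / z * tri h (z - t)) - n / t)) := by
    field_simp
    ring
  rw [e4, abs_neg, abs_mul, abs_of_pos (by positivity : 0 < t / n)]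
  calc t / n * |(∫ z in A..B, Real.exp z / z * tri h (z - t)) - n / t| ≤
      t / n * (5 * h * (n / t)) := mul_le_mul_of_nonneg_left h3 (by positivity)
    _ = 5 * h := by field_simp

/-- the indicator of the primes up to `N` -/
noncomputable def pi1 (N n : ℕ) : ℝ := if n.Prime ∧ n ≤ N then 1 else 0

lemma card_window1 {x h : ℝ} (hh : 0 < h) (hh1 : h ≤ 1) (s : Finset ℕ)
    (hs : ∀ m ∈ s, 0 < m ∧ x - h ≤ Real.log m ∧ Real.log m ≤ x + h) :
    (s.card : ℝ) ≤ 3 * h * Real.exp x + 1 := by
  have h1 := card_class (Q := 1) (Real.exp (x - h)) (Real.exp (x + h)) (Real.exp_pos _).le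
    (Real.exp_le_exp.2 (by linarith)) s 0 (by
      intro m hm
      obtain ⟨h1, h2, h3⟩ := hs m hm
      have hm0 : (0 : ℝ) < m := by exact_mod_cast h1
      exact ⟨Subsingleton.elim _ _, by rwa [← Real.le_log_iff_exp_le hm0],
        by rwa [← Real.log_le_iff_le_exp hm0]⟩)
  refine h1.trans ?_
  have h2 : Real.exp h ≤ 1 + 2 * h := by
    have := Real.abs_exp_sub_one_le (x := h) (by rw [abs_of_pos hh]; exact hh1)
    rw [abs_of_pos hh] at this
    have := (abs_le.1 this).2
    linarith
  have h3 : 1 - h ≤ Real.exp (-h) := by
    have := Real.add_one_le_exp (-h)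
    linarith
  have e1 : Real.exp (x - h) = Real.exp x * Real.exp (-h) := by rw [← Real.exp_add]; ring_nf
  have e2 : Real.exp (x + h) = Real.exp x * Real.exp h := by rw [← Real.exp_add]
  rw [e1, e2]
  have h4 := Real.exp_pos x
  push_cast
  rw [div_one]
  nlinarith

end Pool.Agent.W66L
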