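import Pool.Agent.W66.LJ
import Pool.Agent.W66.LK

set_option autoImplicit false

/-!
# Primes in almost all classes modulo a power of `b`
-/

open Complex Filter Topology Set MeasureTheory Metric
open scoped Real
open scoped ArithmeticFunction.vonMangoldt

namespace Pool.Agent.W66L

open Pool.Agent.W66

lemma x_le {N n : ℕ} {h A : ℝ} (hn : 0 < n) (hL : 8 ≤ Real.log N) (hh : 0 < h) (hh1 : h ≤ 1)
    (hA1 : Real.log N / 2 ≤ A) (hA2 : A ≤ Real.log N / 2 + 1) :
    |pi1 N n - Λ n * GW h A (Real.log N) n| ≤ (if n ≤ N then 5 * h else 0) +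
      (if Real.log n ≤ A + h then 8 else 0) +
      (if Real.log N - h ≤ Real.log n ∧ Real.log n ≤ Real.log N + h then 8 else 0) +
      (if ¬ n.Prime ∧ Real.log n ≤ Real.log N + h then 3 / A * Λ n else 0) := by
  have hn0 : (0 : ℝ) < n := by exact_mod_cast hn
  set L := Real.log N with hLdef
  set t := Real.log n with ht
  have hA0 : 0 < A := by linarith
  have hAL : A ≤ L := by linarith
  have hN0 : (0 : ℝ) < N := by
    rcases Nat.eq_zero_or_pos N with h0 | h0
    · rw [hLdef, h0] at hL; norm_num at hL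
    · exact_mod_cast h0
  have hG0 := GW_nonneg hh hA0 hAL n
  have hG1 := GW_le hh hh1 hA0 hAL hn
  have hΛ0 : 0 ≤ Λ n := ArithmeticFunction.vonMangoldt_nonneg
  have ha1 : (0 : ℝ) ≤ (if n ≤ N then 5 * h else 0) := by split_ifs <;> positivity
  have ha2 : (0 : ℝ) ≤ (if t ≤ A + h then 8 else 0) := by split_ifs <;> norm_num
  have ha3 : (0 : ℝ) ≤ (if L - h ≤ t ∧ t ≤ L + h then 8 else 0) := by split_ifs <;> norm_num
  have ha4 : (0 : ℝ) ≤ (if ¬ n.Prime ∧ t ≤ L + h then 3 / A * Λ n else 0) := by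
    split_ifs <;> positivity
  by_cases hp : n.Prime
  · have hΛ : Λ n = t := ArithmeticFunction.vonMangoldt_apply_prime hp
    have hpi0 : 0 ≤ pi1 N n := by unfold pi1; split_ifs <;> norm_num
    have hpi1 : pi1 N n ≤ 1 := by unfold pi1; split_ifs <;> norm_num
    rw [hΛ]
    rw [hΛ] at hΛ0 ha4
    by_cases h1 : L + h ≤ t
    · rw [GW_zero hh hAL h1, mul_zero, sub_zero]
      have : pi1 N n = 0 := by
        unfold pi1
        rw [if_neg]
        rintro ⟨_, h2⟩
        have : t ≤ L := Real.log_le_log hn0 (by exact_mod_cast h2)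
        linarith
      rw [this, abs_zero]
      linarith
    · push Not at h1
      have hb8 : |pi1 N n - t * GW h A L n| ≤ 8 := by
        have h2 : t * GW h A L n ≤ 7 := by
          calc t * GW h A L n ≤ (L + 1) * (3 / A) := by
                apply mul_le_mul (by linarith) hG1 hG0 (by linarith)
            _ ≤ 7 := by
                rw [mul_div_assoc', div_le_iff₀ hA0]
                linarith
        have h3 : 0 ≤ t * GW h A L n := mul_nonneg hΛ0 hG0
        rw [abs_le]
        constructor <;> linarith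
      by_cases h2 : t ≤ A + h
      · rw [if_pos h2]
        linarith
      · push Not at h2
        by_cases h3 : L - h ≤ t
        · rw [if_pos (show L - h ≤ t ∧ t ≤ L + h from ⟨h3, h1.le⟩)]
          linarith
        · push Not at h3
          have h4 := GW_interior hh hh1 (B := L) (A := A) (by linarith) hn h2.le (by linarith)
          have hnN : n ≤ N := by
            have : (n : ℝ) ≤ N := by
              rw [← Real.log_le_log_iff hn0 hN0]
              linarith
            exact_mod_cast this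
          have : pi1 N n = 1 := by unfold pi1; rw [if_pos ⟨hp, hnN⟩]
          rw [this, if_pos hnN]
          linarith
  · have : pi1 N n = 0 := by
      unfold pi1
      rw [if_neg]
      rintro ⟨h2, _⟩
      exact hp h2
    rw [this, zero_sub, abs_neg, abs_of_nonneg (mul_nonneg hΛ0 hG0)]
    by_cases h1 : L + h ≤ t
    · rw [GW_zero hh hAL h1, mul_zero]
      linarith
    · push Not at h1
      rw [if_pos (show ¬ n.Prime ∧ t ≤ L + h from ⟨hp, h1.le⟩)]
      have : Λ n * GW h A L n ≤ 3 / A * Λ n := by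
        rw [mul_comm]
        exact mul_le_mul_of_nonneg_right hG1 hΛ0
      linarith

theorem sum_x : ∃ C : ℝ, 0 < C ∧ ∀ (N N' : ℕ) (h A : ℝ), 8 ≤ Real.log N → 0 < h → h ≤ 1 →
    Real.log N / 2 ≤ A → A ≤ Real.log N / 2 + 1 →
    ∑ n ∈ Finset.Ioc 0 N', |pi1 N n - Λ n * GW h A (Real.log N) n| ≤ 29 * h * N + C * √(N : ℝ) := by
  obtain ⟨C, hC, hpp⟩ := prime_powers
  refine ⟨100 + 2 * C, by positivity, fun N N' h A hL hh hh1 hA1 hA2 => ?_⟩
  set L := Real.log N with hLdef
  have hN0 : (0 : ℝ) < N := by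
    rcases Nat.eq_zero_or_pos N with h0 | h0
    · rw [hLdef, h0] at hL; norm_num at hL
    · exact_mod_cast h0
  have hA0 : 0 < A := by linarith
  have hexpL : Real.exp L = N := Real.exp_log hN0
  have hsqrt : Real.exp (L / 2) = √(N : ℝ) := by
    rw [← hexpL, ← Real.exp_half]
  have hs1 : 1 ≤ √(N : ℝ) := by
    rw [← hsqrt]
    exact Real.one_le_exp (by linarith)
  have hsum : ∑ n ∈ Finset.Ioc 0 N', |pi1 N n - Λ n * GW h A L n| ≤
      ∑ n ∈ Finset.Ioc 0 N', ((if n ≤ N then 5 * h else 0) +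
      (if Real.log n ≤ A + h then 8 else 0) +
      (if L - h ≤ Real.log n ∧ Real.log n ≤ L + h then 8 else 0) +
      (if ¬ n.Prime ∧ Real.log n ≤ L + h then 3 / A * Λ n else 0)) := by
    refine Finset.sum_le_sum fun n hn => ?_
    exact x_le (Finset.mem_Ioc.1 hn).1 hL hh hh1 hA1 hA2
  refine hsum.trans ?_
  rw [Finset.sum_add_distrib, Finset.sum_add_distrib, Finset.sum_add_distrib]
  have s1 : ∑ n ∈ Finset.Ioc 0 N', (if n ≤ N then 5 * h else 0) ≤ 5 * h * N := by
    rw [← Finset.sum_filter, Finset.sum_const, nsmul_eq_mul, mul_comm]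
    apply mul_le_mul_of_nonneg_left _ (by positivity)
    have : ((Finset.Ioc 0 N').filter (fun n => n ≤ N)).card ≤ (Finset.Ioc 0 N).card := by
      apply Finset.card_le_card
      intro n hn
      rw [Finset.mem_filter, Finset.mem_Ioc] at hn
      rw [Finset.mem_Ioc]
      exact ⟨hn.1.1, hn.2⟩
    rw [Nat.card_Ioc, Nat.sub_zero] at this
    exact_mod_cast this
  have s2 : ∑ n ∈ Finset.Ioc 0 N', (if Real.log n ≤ A + h then (8 : ℝ) else 0) ≤ 8 * (8 * √(N : ℝ)) := by
    rw [← Finset.sum_filter, Finset.sum_const, nsmul_eq_mul, mul_comm]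
    apply mul_le_mul_of_nonneg_left _ (by norm_num)
    have h1 : ((Finset.Ioc 0 N').filter (fun n : ℕ => Real.log n ≤ A + h)).card ≤
        (Finset.Ioc 0 ⌊Real.exp (A + h)⌋₊).card := by
      apply Finset.card_le_card
      intro n hn
      rw [Finset.mem_filter, Finset.mem_Ioc] at hn
      rw [Finset.mem_Ioc]
      refine ⟨hn.1.1, ?_⟩
      have hn0 : (0 : ℝ) < n := by exact_mod_cast hn.1.1
      rw [Nat.le_floor_iff (Real.exp_pos _).le, ← Real.log_le_iff_le_exp hn0]
      exact hn.2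
    rw [Nat.card_Ioc, Nat.sub_zero] at h1
    have h2 : (((Finset.Ioc 0 N').filter (fun n : ℕ => Real.log n ≤ A + h)).card : ℝ) ≤
        Real.exp (A + h) := by
      refine le_trans (by exact_mod_cast h1) (Nat.floor_le (Real.exp_pos _).le)
    refine h2.trans ?_
    calc Real.exp (A + h) ≤ Real.exp (L / 2 + (1 + 1)) := Real.exp_le_exp.2 (by linarith)
      _ = √(N : ℝ) * (Real.exp 1 * Real.exp 1) := by rw [Real.exp_add, hsqrt, Real.exp_add]
      _ ≤ √(N : ℝ) * 8 := by
          apply mul_le_mul_of_nonneg_left _ (by positivity)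
          have := Real.exp_one_lt_d9
          have := Real.exp_pos 1
          nlinarith
      _ = _ := by ring
  have s3 : ∑ n ∈ Finset.Ioc 0 N', (if L - h ≤ Real.log n ∧ Real.log n ≤ L + h then (8 : ℝ) else 0) ≤
      8 * (3 * h * N + 1) := by
    rw [← Finset.sum_filter, Finset.sum_const, nsmul_eq_mul, mul_comm]
    apply mul_le_mul_of_nonneg_left _ (by norm_num)
    rw [← hexpL]
    apply card_window1 hh hh1
    intro m hm
    rw [Finset.mem_filter, Finset.mem_Ioc] at hm
    exact ⟨hm.1.1, hm.2⟩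
  have s4 : ∑ n ∈ Finset.Ioc 0 N', (if ¬ n.Prime ∧ Real.log n ≤ L + h then 3 / A * Λ n else 0) ≤
      2 * C * √(N : ℝ) := by
    rw [← Finset.sum_filter, ← Finset.mul_sum]
    have h1 : ∑ n ∈ (Finset.Ioc 0 N').filter (fun n : ℕ => ¬ n.Prime ∧ Real.log n ≤ L + h), Λ n ≤
        ∑ n ∈ (Finset.Ioc 0 ⌊Real.exp (L + h)⌋₊).filter (fun n : ℕ => ¬ n.Prime), Λ n := by
      apply Finset.sum_le_sum_of_subset_of_nonneg
      · intro n hn
        rw [Finset.mem_filter, Finset.mem_Ioc] at hn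
        rw [Finset.mem_filter, Finset.mem_Ioc]
        have hn0 : (0 : ℝ) < n := by exact_mod_cast hn.1.1
        refine ⟨⟨hn.1.1, ?_⟩, hn.2.1⟩
        rw [Nat.le_floor_iff (Real.exp_pos _).le, ← Real.log_le_iff_le_exp hn0]
        exact hn.2.2
      · intro i _ _
        exact ArithmeticFunction.vonMangoldt_nonneg
    have h2 := hpp ⌊Real.exp (L + h)⌋₊
    have h3 : √((⌊Real.exp (L + h)⌋₊ : ℕ) : ℝ) ≤ 2 * √(N : ℝ) := by
      have h4 : ((⌊Real.exp (L + h)⌋₊ : ℕ) : ℝ) ≤ 2 ^ 2 * N := by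
        refine (Nat.floor_le (Real.exp_pos _).le).trans ?_
        calc Real.exp (L + h) ≤ Real.exp (L + 1) := Real.exp_le_exp.2 (by linarith)
          _ = N * Real.exp 1 := by rw [Real.exp_add, hexpL]
          _ ≤ _ := by
            have := Real.exp_one_lt_d9
            nlinarith
      calc √((⌊Real.exp (L + h)⌋₊ : ℕ) : ℝ) ≤ √(2 ^ 2 * N) := Real.sqrt_le_sqrt h4
        _ = 2 * √(N : ℝ) := by
            rw [Real.sqrt_mul (by norm_num), Real.sqrt_sq (by norm_num)]
    have h5 : 3 / A ≤ 1 := by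
      rw [div_le_one hA0]; linarith
    have h6 : ∑ n ∈ (Finset.Ioc 0 N').filter (fun n : ℕ => ¬ n.Prime ∧ Real.log n ≤ L + h), Λ n ≤
        C * (2 * √(N : ℝ)) := (h1.trans h2).trans (mul_le_mul_of_nonneg_left h3 hC.le)
    have h7 : 0 ≤ ∑ n ∈ (Finset.Ioc 0 N').filter (fun n : ℕ => ¬ n.Prime ∧ Real.log n ≤ L + h), Λ n :=
      Finset.sum_nonneg fun i _ => ArithmeticFunction.vonMangoldt_nonneg
    have h8 : 0 ≤ 3 / A := by positivity
    nlinarith
  have : (8 : ℝ) ≤ 8 * √(N : ℝ) := by linarith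
  calc _ ≤ 5 * h * N + 8 * (8 * √(N : ℝ)) + 8 * (3 * h * N + 1) + 2 * C * √(N : ℝ) := by
        linarith
    _ ≤ _ := by nlinarith

/-- Cauchy-Schwarz for a unit interval -/
lemma cs_interval {Q : ℕ} (χ : DirichletCharacter ℂ Q) (h : ℝ) (N' : ℕ) {M Z : ℝ} (hZ : 1 ≤ Z)
    (hM : Real.exp (Z + 1) ≤ M) :
    ‖∫ z in Z..(Z + 1), ((Real.exp z / z : ℝ) : ℂ) * TX χ h N' z‖ ^ 2 ≤
      M ^ 2 * ∫ z in Z..(Z + 1), ‖TX χ h N' z‖ ^ 2 := by
  have hc := TX_continuous χ h N'
  have hM0 : 0 < M := lt_of_lt_of_le (Real.exp_pos _) hM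
  have hI0 : 0 ≤ ∫ z in Z..(Z + 1), ‖TX χ h N' z‖ ^ 2 :=
    intervalIntegral.integral_nonneg (by linarith) fun z _ => by positivity
  have h1 : ∫ z in Z..(Z + 1), |‖TX χ h N' z‖| ≤ √(∫ z in Z..(Z + 1), ‖TX χ h N' z‖ ^ 2) := by
    apply cs_unit hc.norm Z (Real.sqrt_nonneg _)
    rw [Real.sq_sqrt hI0]
  simp only [abs_norm] at h1
  have h2 : ‖∫ z in Z..(Z + 1), ((Real.exp z / z : ℝ) : ℂ) * TX χ h N' z‖ ≤
      M * √(∫ z in Z..(Z + 1), ‖TX χ h N' z‖ ^ 2) := by
    calc ‖∫ z in Z..(Z + 1), ((Real.exp z / z : ℝ) : ℂ) * TX χ h N' z‖ ≤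
        ∫ z in Z..(Z + 1), M * ‖TX χ h N' z‖ := by
          apply intervalIntegral.norm_integral_le_of_norm_le (by linarith)
          · refine Eventually.of_forall fun z hz => ?_
            rw [norm_mul, Complex.norm_real, Real.norm_eq_abs]
            apply mul_le_mul_of_nonneg_right _ (norm_nonneg _)
            have hz0 : 1 ≤ z := by linarith [hz.1]
            rw [abs_of_nonneg (by positivity), div_le_iff₀ (by linarith)]
            have h3 : Real.exp z ≤ M := (Real.exp_le_exp.2 hz.2).trans hM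
            nlinarith
          · exact (continuous_const.mul hc.norm).intervalIntegrable _ _
      _ = M * ∫ z in Z..(Z + 1), ‖TX χ h N' z‖ := intervalIntegral.integral_const_mul _ _
      _ ≤ _ := mul_le_mul_of_nonneg_left h1 hM0.le
  calc ‖∫ z in Z..(Z + 1), ((Real.exp z / z : ℝ) : ℂ) * TX χ h N' z‖ ^ 2 ≤
      (M * √(∫ z in Z..(Z + 1), ‖TX χ h N' z‖ ^ 2)) ^ 2 :=
        pow_le_pow_left₀ (norm_nonneg _) h2 2
    _ = _ := by rw [mul_pow, Real.sq_sqrt hI0]

lemma S_eq {Q : ℕ} (χ : DirichletCharacter ℂ Q) {h : ℝ} (N' : ℕ) {A B : ℝ} (hA : 0 < A)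
    (hAB : A ≤ B) :
    ∑ n ∈ Finset.Ioc 0 N', χ n * ((Λ n * GW h A B n : ℝ) : ℂ) =
      ∫ z in A..B, ((Real.exp z / z : ℝ) : ℂ) * TX χ h N' z := by
  unfold TX
  have h1 : ∀ z : ℝ, ((Real.exp z / z : ℝ) : ℂ) *
      (∑ n ∈ Finset.Ioc 0 N', χ n * ((Λ n / n : ℝ) : ℂ) * triC h (z - Real.log n)) =
      ∑ n ∈ Finset.Ioc 0 N', (χ n * ((Λ n / n : ℝ) : ℂ)) *
        ((Real.exp z / z * tri h (z - Real.log n) : ℝ) : ℂ) := by
    intro z
    rw [Finset.mul_sum]
    refine Finset.sum_congr rfl fun n _ => ?_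
    unfold triC
    push_cast
    ring
  simp only [h1]
  rw [intervalIntegral.integral_finsetSum]
  · refine Finset.sum_congr rfl fun n _ => ?_
    rw [intervalIntegral.integral_const_mul]
    unfold GW
    rw [intervalIntegral.integral_ofReal]
    push_cast
    ring
  · intro n _
    apply IntervalIntegrable.const_mul
    exact (Complex.continuous_ofReal.comp_continuousOn (kern_cont hA hAB _)).intervalIntegrable

/-- **Primes in almost all reduced classes modulo `b ^ k`.** -/
theorem primes_L1 {b : ℕ} (hb : 2 ≤ b) (A : ℕ) : ∃ c0 K L0 : ℝ, 0 < c0 ∧ 0 < K ∧ 8 ≤ L0 ∧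
    ∀ (k : ℕ) [NeZero (b ^ k)] (N : ℕ), 3 ≤ k → L0 ≤ Real.log N →
    √(Real.log N) ≤ Real.log (b ^ k : ℕ) →
    Real.log (b ^ k : ℕ) * Real.log (Real.log N) ≤ c0 * Real.log N →
    ∑ a : (ZMod (b ^ k))ˣ, |cs (b ^ k) (Finset.Ioc 0 N) (pi1 N) a -
      cm (b ^ k) (Finset.Ioc 0 N) (pi1 N)| ≤ K * (N / (Real.log N) ^ A) := by
  obtain ⟨c0, Z0, hc0, hZ0, hKT⟩ := KTall hb (2 * A + 2) A
  obtain ⟨C, hC, hx⟩ := sum_x
  refine ⟨c0 / 2, (59 + 2 * C * (A.factorial : ℝ)) * 2 ^ A, 8 + 2 * Z0, by positivity, by positivity,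
    by linarith, ?_⟩
  intro k hk0 N hk hL0 hsq hlog
  set L := Real.log N with hLdef
  have hL8 : 8 ≤ L := by linarith
  have hL : 0 < L := by linarith
  have hN0 : (0 : ℝ) < N := by
    rcases Nat.eq_zero_or_pos N with h0 | h0
    · rw [hLdef, h0] at hL8; norm_num at hL8
    · exact_mod_cast h0
  have hexpL : Real.exp L = N := Real.exp_log hN0
  set Q := b ^ k with hQ
  set n0 := ⌊L / 2⌋₊ with hn0
  have hn1 : (n0 : ℝ) ≤ L / 2 := Nat.floor_le (by positivity)
  have hn2 : L / 2 < n0 + 1 := Nat.lt_floor_add_one _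
  set A1 := L - n0 with hA1
  have hA1a : L / 2 ≤ A1 := by linarith
  have hA1b : A1 ≤ L / 2 + 1 := by linarith
  have hA1L : A1 ≤ L := by linarith
  set h := (2 / L) ^ A with hh
  have h2L : 0 < 2 / L := by positivity
  have h2L1 : 2 / L ≤ 1 := by rw [div_le_one hL]; linarith
  have hh0 : 0 < h := by positivity
  have hh1 : h ≤ 1 := pow_le_one₀ h2L.le h2L1
  set N' := ⌈Real.exp (L + 2)⌉₊ with hN'
  have hN'1 : Real.exp (L + 2) ≤ N' := Nat.le_ceil _
  have hNN' : N ≤ N' := by
    have : (N : ℝ) ≤ N' := by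
      rw [← hexpL]
      exact (Real.exp_le_exp.2 (by linarith)).trans hN'1
    exact_mod_cast this
  -- the sums do not see the larger range
  have hcs : ∀ a : (ZMod Q)ˣ, cs Q (Finset.Ioc 0 N) (pi1 N) a = cs Q (Finset.Ioc 0 N') (pi1 N) a := by
    intro a
    unfold cs
    apply Finset.sum_subset (Finset.Ioc_subset_Ioc_right hNN')
    intro n _ hn
    have : pi1 N n = 0 := by
      unfold pi1
      rw [if_neg]
      rintro ⟨h1, h2⟩
      exact hn (Finset.mem_Ioc.2 ⟨h1.pos, h2⟩)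
    rw [this, ite_self]
  have hcm : cm Q (Finset.Ioc 0 N) (pi1 N) = cm Q (Finset.Ioc 0 N') (pi1 N) := by
    unfold cm
    congr 1
    exact Finset.sum_congr rfl fun a _ => hcs a
  have hgoal : ∑ a : (ZMod Q)ˣ, |cs Q (Finset.Ioc 0 N) (pi1 N) a - cm Q (Finset.Ioc 0 N) (pi1 N)| =
      ∑ a : (ZMod Q)ˣ, |cs Q (Finset.Ioc 0 N') (pi1 N) a - cm Q (Finset.Ioc 0 N') (pi1 N)| :=
    Finset.sum_congr rfl fun a _ => by rw [hcs a, hcm]
  refine hgoal.trans_le ?_
  have hE : ∑ χ ∈ np Q, ‖∑ n ∈ Finset.Ioc 0 N', χ n * ((Λ n * GW h A1 L n : ℝ) : ℂ)‖ ^ 2 ≤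
      (N * (2 / L) ^ A) ^ 2 := by
    have h1 : ∀ χ : DirichletCharacter ℂ Q,
        ‖∑ n ∈ Finset.Ioc 0 N', χ n * ((Λ n * GW h A1 L n : ℝ) : ℂ)‖ ^ 2 ≤
        n0 * ((N : ℝ) ^ 2 * ∑ u ∈ Finset.range n0,
          ∫ z in (A1 + u)..(A1 + u + 1), ‖TX χ h N' z‖ ^ 2) := by
      intro χ
      rw [S_eq χ N' (by linarith) hA1L]
      have hcont : ContinuousOn (fun z : ℝ => ((Real.exp z / z : ℝ) : ℂ) * TX χ h N' z)
          (Set.Icc A1 L) := by
        apply ContinuousOn.mul
        · apply Complex.continuous_ofReal.comp_continuousOn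
          apply ContinuousOn.div Real.continuous_exp.continuousOn continuousOn_id
          intro z hz
          have : 0 < z := by linarith [hz.1]
          exact this.ne'
        · exact (TX_continuous χ h N').continuousOn
      have h2 : ∫ z in A1..L, ((Real.exp z / z : ℝ) : ℂ) * TX χ h N' z =
          ∑ u ∈ Finset.range n0, ∫ z in (A1 + u)..(A1 + u + 1),
            ((Real.exp z / z : ℝ) : ℂ) * TX χ h N' z := by
        have h3 := intervalIntegral.sum_integral_adjacent_intervals (μ := volume)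
          (f := fun z : ℝ => ((Real.exp z / z : ℝ) : ℂ) * TX χ h N' z)
          (a := fun u : ℕ => A1 + u) (n := n0) (by
            intro u hu
            apply ContinuousOn.intervalIntegrable
            apply hcont.mono
            have hu' : (u : ℝ) + 1 ≤ n0 := by exact_mod_cast hu
            have hu0 : (0 : ℝ) ≤ u := Nat.cast_nonneg _
            push_cast
            rw [Set.uIcc_of_le (by linarith)]
            apply Set.Icc_subset_Icc (by linarith)
            rw [hA1]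
            linarith)
        simp only [Nat.cast_zero, add_zero] at h3
        have e1 : A1 + (n0 : ℝ) = L := by rw [hA1]; ring
        rw [e1] at h3
        rw [← h3]
        refine Finset.sum_congr rfl fun u _ => ?_
        push_cast
        rw [add_assoc]
      rw [h2]
      refine (norm_sum_sq_le (Finset.range n0) _).trans ?_
      rw [Finset.card_range]
      apply mul_le_mul_of_nonneg_left _ (by positivity)
      rw [Finset.mul_sum]
      refine Finset.sum_le_sum fun u hu => ?_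
      have hu' : (u : ℝ) + 1 ≤ n0 := by exact_mod_cast Finset.mem_range.1 hu
      have hu0 : (0 : ℝ) ≤ u := Nat.cast_nonneg _
      apply cs_interval χ h N' (by linarith)
      rw [← hexpL]
      apply Real.exp_le_exp.2
      rw [hA1]
      linarith
    calc ∑ χ ∈ np Q, ‖∑ n ∈ Finset.Ioc 0 N', χ n * ((Λ n * GW h A1 L n : ℝ) : ℂ)‖ ^ 2 ≤
        ∑ χ ∈ np Q, n0 * ((N : ℝ) ^ 2 * ∑ u ∈ Finset.range n0,
          ∫ z in (A1 + u)..(A1 + u + 1), ‖TX χ h N' z‖ ^ 2) := Finset.sum_le_sum fun χ _ => h1 χ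
      _ = n0 * ((N : ℝ) ^ 2 * ∑ u ∈ Finset.range n0, ∑ χ ∈ np Q,
          ∫ z in (A1 + u)..(A1 + u + 1), ‖TX χ h N' z‖ ^ 2) := by
          rw [← Finset.mul_sum, ← Finset.mul_sum, Finset.sum_comm]
      _ ≤ n0 * ((N : ℝ) ^ 2 * ∑ u ∈ Finset.range n0, (2 / L) ^ (2 * A + 2)) := by
          apply mul_le_mul_of_nonneg_left _ (by positivity)
          apply mul_le_mul_of_nonneg_left _ (by positivity)
          refine Finset.sum_le_sum fun u hu => ?_
          have hu' : (u : ℝ) + 1 ≤ n0 := by exact_mod_cast Finset.mem_range.1 hu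
          have hu0 : (0 : ℝ) ≤ u := Nat.cast_nonneg _
          have hZ1 : L / 2 ≤ A1 + u := by linarith
          have hZ2 : A1 + u + 1 ≤ L := by rw [hA1]; linarith
          have hZpos : 0 < A1 + u := by linarith
          have hinv : 1 / (A1 + u) ≤ 2 / L := by
            rw [div_le_div_iff₀ hZpos hL]; linarith
          refine (hKT k (A1 + u) h hk (by linarith) ?_ hh1 ?_ ?_ N' ?_).trans ?_
          · rw [← one_div_pow]
            exact pow_le_pow_left₀ (by positivity) hinv A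
          · refine le_trans (Real.sqrt_le_sqrt ?_) hsq
            linarith
          · have hlQ : 0 ≤ Real.log (b ^ k : ℕ) := Real.log_natCast_nonneg _
            have h3 : Real.log (A1 + u) ≤ Real.log L := Real.log_le_log hZpos (by linarith)
            have h4 : Real.log (b ^ k : ℕ) * Real.log (A1 + u) ≤ Real.log (b ^ k : ℕ) * Real.log L :=
              mul_le_mul_of_nonneg_left h3 hlQ
            have h5 : c0 / 2 * L ≤ c0 * (A1 + u) := by nlinarith
            exact (h4.trans hlog).trans h5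
          · exact (Real.exp_le_exp.2 (by linarith)).trans hN'1
          · rw [← one_div_pow]
            exact pow_le_pow_left₀ (by positivity) hinv _
      _ = (n0 * N * (2 / L) ^ (A + 1)) ^ 2 := by
          rw [Finset.sum_const, Finset.card_range, nsmul_eq_mul]
          ring
      _ ≤ (N * (2 / L) ^ A) ^ 2 := by
          apply pow_le_pow_left₀ (by positivity)
          calc (n0 : ℝ) * N * (2 / L) ^ (A + 1) ≤ (L / 2) * N * (2 / L) ^ (A + 1) := by gcongr
            _ = _ := by rw [pow_succ]; field_simp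
  have hF := hx N N' h A1 hL8 hh0 hh1 hA1a hA1b
  have hfin := L1_split (Q := Q) (Finset.Ioc 0 N') (pi1 N) (fun n => Λ n * GW h A1 L n)
    (E := N * (2 / L) ^ A) (F := 29 * h * N + C * √(N : ℝ)) (by positivity) hE hF
  refine hfin.trans ?_
  have hsqN : √(N : ℝ) ≤ (A.factorial : ℝ) * (N * (2 / L) ^ A) := by
    have h1 := Real.pow_div_factorial_le_exp (L / 2) (by positivity) A
    have hsqrt : Real.exp (L / 2) = √(N : ℝ) := by rw [← hexpL, ← Real.exp_half]
    rw [hsqrt] at h1
    have hf : (0 : ℝ) < A.factorial := by exact_mod_cast A.factorial_pos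
    have hNs : (N : ℝ) = √(N : ℝ) * √(N : ℝ) := (Real.mul_self_sqrt hN0.le).symm
    have h2 : (1 : ℝ) ≤ (A.factorial : ℝ) * (√(N : ℝ) * (2 / L) ^ A) := by
      calc (1 : ℝ) = (A.factorial : ℝ) * ((L / 2) ^ A / A.factorial * (2 / L) ^ A) := by
            have : (L / 2) ^ A * (2 / L) ^ A = 1 := by
              rw [← mul_pow]
              have : L / 2 * (2 / L) = 1 := by field_simp
              rw [this, one_pow]
            field_simp
            linarith
        _ ≤ _ := by gcongr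
    calc √(N : ℝ) = √(N : ℝ) * 1 := (mul_one _).symm
      _ ≤ √(N : ℝ) * ((A.factorial : ℝ) * (√(N : ℝ) * (2 / L) ^ A)) :=
          mul_le_mul_of_nonneg_left h2 (Real.sqrt_nonneg _)
      _ = (A.factorial : ℝ) * ((√(N : ℝ) * √(N : ℝ)) * (2 / L) ^ A) := by ring
      _ = _ := by rw [← hNs]
  have hX0 : 0 ≤ (N : ℝ) * (2 / L) ^ A := by positivity
  calc N * (2 / L) ^ A + 2 * (29 * h * N + C * √(N : ℝ)) ≤
      N * (2 / L) ^ A + 2 * (29 * (2 / L) ^ A * N + C * ((A.factorial : ℝ) * (N * (2 / L) ^ A))) := by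
        gcongr
    _ = (59 + 2 * C * (A.factorial : ℝ)) * 2 ^ A * (N / L ^ A) := by
        rw [div_pow]
        ring

end Pool.Agent.W66L
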