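import Pool.Agent.W66.LL
import Pool.Agent.W66.RB
import Pool.Agent.H305R2.Rough

set_option autoImplicit false

/-!
# Integers with prime rough part in almost all classes modulo a power of `b`
-/

open Filter Topology
open scoped Real

namespace Pool.Agent.W66L

open Pool.Agent.W66
open Pool.Agent.H305R2 (roughPart SM SM_pos SMz mem_SMz ZZ VV sum_rough_eq sum_le_VV tail_le
  ZZ_le_exp ZZ_nonneg VV_nonneg)

section dev

variable {Q : ℕ} [NeZero Q]

/-- mean over the reduced classes -/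
noncomputable def mn (g : (ZMod Q)ˣ → ℝ) : ℝ := (∑ a, g a) / (Q.totient : ℝ)

/-- total deviation from the mean over the reduced classes -/
noncomputable def dev (g : (ZMod Q)ˣ → ℝ) : ℝ := ∑ a, |g a - mn g|

lemma dev_nonneg (g : (ZMod Q)ˣ → ℝ) : 0 ≤ dev g := Finset.sum_nonneg fun _ _ => abs_nonneg _

lemma mn_add (g g' : (ZMod Q)ˣ → ℝ) : mn (fun a => g a + g' a) = mn g + mn g' := by
  unfold mn
  rw [Finset.sum_add_distrib, add_div]

lemma dev_add (g g' : (ZMod Q)ˣ → ℝ) : dev (fun a => g a + g' a) ≤ dev g + dev g' := by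
  unfold dev
  rw [← Finset.sum_add_distrib]
  refine Finset.sum_le_sum fun a _ => ?_
  rw [mn_add]
  have : g a + g' a - (mn g + mn g') = (g a - mn g) + (g' a - mn g') := by ring
  rw [this]
  exact abs_add_le _ _

lemma dev_zero : dev (fun _ : (ZMod Q)ˣ => (0 : ℝ)) = 0 := by
  unfold dev mn
  simp

lemma dev_sum (T : Finset ℕ) (g : ℕ → (ZMod Q)ˣ → ℝ) :
    dev (fun a => ∑ s ∈ T, g s a) ≤ ∑ s ∈ T, dev (g s) := by
  classical
  induction T using Finset.induction_on with
  | empty => simp [dev_zero]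
  | insert s T hs ih =>
    rw [Finset.sum_insert hs]
    have e : (fun a => ∑ s ∈ insert s T, g s a) = fun a => g s a + ∑ s ∈ T, g s a := by
      ext a; rw [Finset.sum_insert hs]
    rw [e]
    exact (dev_add _ _).trans (by linarith)

lemma dev_perm (g : (ZMod Q)ˣ → ℝ) (u : (ZMod Q)ˣ) : dev (fun a => g (u * a)) = dev g := by
  have h1 : mn (fun a => g (u * a)) = mn g := by
    unfold mn
    congr 1
    exact Fintype.sum_equiv (Equiv.mulLeft u) _ _ fun a => rfl
  unfold dev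
  rw [h1]
  exact Fintype.sum_equiv (Equiv.mulLeft u) _ _ fun a => rfl

lemma dev_triv (g : (ZMod Q)ˣ → ℝ) : dev g ≤ 2 * ∑ a, |g a| := by
  have hφ := tot_pos (Q := Q)
  have h2 : (Q.totient : ℝ) * |mn g| ≤ ∑ a, |g a| := by
    unfold mn
    rw [abs_div, abs_of_pos hφ, mul_div_cancel₀ _ hφ.ne']
    exact Finset.abs_sum_le_sum_abs _ _
  unfold dev
  calc ∑ a : (ZMod Q)ˣ, |g a - mn g| ≤ ∑ a : (ZMod Q)ˣ, (|g a| + |mn g|) :=
        Finset.sum_le_sum fun a _ => abs_sub _ _
    _ = ∑ a : (ZMod Q)ˣ, |g a| + (Q.totient : ℝ) * |mn g| := by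
        rw [Finset.sum_add_distrib, Finset.sum_const, nsmul_eq_mul, card_units']
    _ ≤ _ := by linarith

/-- indicator sums over the units -/
lemma sum_unit_ind (x : ZMod Q) : ∑ a : (ZMod Q)ˣ, (if x = (a : ZMod Q) then (1 : ℝ) else 0) ≤ 1 := by
  by_cases hx : IsUnit x
  · obtain ⟨u, hu⟩ := hx
    rw [Finset.sum_eq_single u]
    · split_ifs <;> norm_num
    · intro b _ hb
      rw [if_neg]
      rw [← hu]
      intro h
      exact hb (Units.ext h.symm)
    · intro h; exact absurd (Finset.mem_univ _) h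
  · rw [Finset.sum_eq_zero]
    · norm_num
    · intro a _
      rw [if_neg]
      intro h
      exact hx (h ▸ a.isUnit)

/-- the primes `ℓ > q`, `ℓ ≤ X / s` with `s ℓ` in the class -/
noncomputable def IN (Q X q s : ℕ) (a : (ZMod Q)ˣ) : ℝ :=
  ∑ l ∈ (Finset.Ioc 0 (X / s)).filter (fun l => l.Prime ∧ q < l),
    if ((s * l : ℕ) : ZMod Q) = (a : ZMod Q) then 1 else 0

/-- the integers up to `X` with prime `q`-rough part in the class -/
noncomputable def RN (Q X q : ℕ) (a : (ZMod Q)ˣ) : ℝ :=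
  ∑ m ∈ (Finset.Ioc 0 X).filter (fun m => (roughPart q m).Prime),
    if (m : ZMod Q) = (a : ZMod Q) then 1 else 0

omit [NeZero Q] in
lemma RN_eq (X q : ℕ) (a : (ZMod Q)ˣ) : RN Q X q a = ∑ s ∈ SMz q X, IN Q X q s a := by
  unfold RN IN
  rw [sum_rough_eq q 0 X (fun m => if (m : ZMod Q) = (a : ZMod Q) then 1 else 0)]
  simp only [Nat.zero_div]

lemma IN_nonneg (X q s : ℕ) (a : (ZMod Q)ˣ) : 0 ≤ IN Q X q s a :=
  Finset.sum_nonneg fun _ _ => by split_ifs <;> norm_num

lemma IN_total (X q s : ℕ) : ∑ a, |IN Q X q s a| ≤ (X : ℝ) * (s : ℝ)⁻¹ := by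
  have h1 : ∀ a, |IN Q X q s a| = IN Q X q s a := fun a => abs_of_nonneg (IN_nonneg X q s a)
  simp only [h1]
  unfold IN
  rw [Finset.sum_comm]
  calc ∑ l ∈ (Finset.Ioc 0 (X / s)).filter (fun l => l.Prime ∧ q < l),
        ∑ a : (ZMod Q)ˣ, (if ((s * l : ℕ) : ZMod Q) = (a : ZMod Q) then (1 : ℝ) else 0) ≤
      ∑ l ∈ (Finset.Ioc 0 (X / s)).filter (fun l => l.Prime ∧ q < l), 1 :=
        Finset.sum_le_sum fun l _ => sum_unit_ind _
    _ ≤ ∑ l ∈ Finset.Ioc 0 (X / s), 1 :=
        Finset.sum_le_sum_of_subset_of_nonneg (Finset.filter_subset _ _) fun _ _ _ => by norm_num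
    _ = ((X / s : ℕ) : ℝ) := by rw [Finset.sum_const, Nat.card_Ioc]; simp
    _ ≤ (X : ℝ) / s := Nat.cast_div_le
    _ = _ := div_eq_mul_inv _ _

lemma dev_IN_triv (X q s : ℕ) : dev (IN Q X q s) ≤ 2 * ((X : ℝ) * (s : ℝ)⁻¹) :=
  (dev_triv _).trans (by linarith [IN_total (Q := Q) X q s])

lemma dev_IN_nonunit (X q s : ℕ) (hs : ¬ IsUnit (s : ZMod Q)) : dev (IN Q X q s) = 0 := by
  have h : IN Q X q s = fun _ => 0 := by
    ext a
    unfold IN
    refine Finset.sum_eq_zero fun l _ => ?_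
    rw [if_neg]
    intro h
    apply hs
    have h1 : IsUnit (((s * l : ℕ) : ZMod Q)) := h ▸ a.isUnit
    rw [Nat.cast_mul] at h1
    exact isUnit_of_mul_isUnit_left h1
  rw [h, dev_zero]

lemma dev_IN_unit (X q s : ℕ) (hs : IsUnit (s : ZMod Q)) : dev (IN Q X q s) ≤
    ∑ a : (ZMod Q)ˣ, |cs Q (Finset.Ioc 0 (X / s)) (pi1 (X / s)) a -
      cm Q (Finset.Ioc 0 (X / s)) (pi1 (X / s))| + 2 * q := by
  obtain ⟨u, hu⟩ := hs
  set M := X / s with hM
  set D : (ZMod Q)ˣ → ℝ := fun a => -∑ l ∈ (Finset.Ioc 0 M).filter (fun l => l.Prime ∧ ¬ q < l),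
    (if ((s * l : ℕ) : ZMod Q) = (a : ZMod Q) then (1 : ℝ) else 0) with hD
  have e : IN Q X q s = fun a => cs Q (Finset.Ioc 0 M) (pi1 M) (u⁻¹ * a) + D a := by
    ext a
    have h1 : cs Q (Finset.Ioc 0 M) (pi1 M) (u⁻¹ * a) =
        ∑ l ∈ (Finset.Ioc 0 M).filter (fun l => l.Prime),
          (if ((s * l : ℕ) : ZMod Q) = (a : ZMod Q) then (1 : ℝ) else 0) := by
      unfold cs
      rw [Finset.sum_filter]
      refine Finset.sum_congr rfl fun l hl => ?_
      have h2 : ((l : ZMod Q) = ((u⁻¹ * a : (ZMod Q)ˣ) : ZMod Q)) ↔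
          ((s * l : ℕ) : ZMod Q) = (a : ZMod Q) := by
        rw [Nat.cast_mul, ← hu, Units.val_mul]
        constructor
        · intro h
          rw [h, ← mul_assoc, Units.mul_inv, one_mul]
        · intro h
          rw [← h, ← mul_assoc, Units.inv_mul, one_mul]
      unfold pi1
      by_cases h3 : ((s * l : ℕ) : ZMod Q) = (a : ZMod Q)
      · rw [if_pos h3, if_pos (h2.2 h3)]
        by_cases h4 : l.Prime
        · rw [if_pos h4, if_pos ⟨h4, (Finset.mem_Ioc.1 hl).2⟩]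
        · rw [if_neg h4, if_neg fun h => h4 h.1]
      · rw [if_neg h3, if_neg fun h => h3 (h2.1 h)]
        split_ifs <;> rfl
    rw [h1, hD]
    unfold IN
    simp only
    have h5 := Finset.sum_filter_add_sum_filter_not
      ((Finset.Ioc 0 M).filter (fun l => l.Prime)) (fun l => q < l)
      (fun l => if ((s * l : ℕ) : ZMod Q) = (a : ZMod Q) then (1 : ℝ) else 0)
    rw [Finset.filter_filter, Finset.filter_filter] at h5
    rw [← hM, ← h5]
    ring
  rw [e]
  refine (dev_add _ _).trans ?_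
  have h6 : dev (fun a => cs Q (Finset.Ioc 0 M) (pi1 M) (u⁻¹ * a)) =
      ∑ a : (ZMod Q)ˣ, |cs Q (Finset.Ioc 0 M) (pi1 M) a - cm Q (Finset.Ioc 0 M) (pi1 M)| := by
    rw [dev_perm (cs Q (Finset.Ioc 0 M) (pi1 M)) u⁻¹]
    rfl
  rw [h6]
  have h7 : dev D ≤ 2 * q := by
    refine (dev_triv _).trans ?_
    apply mul_le_mul_of_nonneg_left _ (by norm_num)
    have h8 : ∀ a, |D a| = ∑ l ∈ (Finset.Ioc 0 M).filter (fun l => l.Prime ∧ ¬ q < l),
        (if ((s * l : ℕ) : ZMod Q) = (a : ZMod Q) then (1 : ℝ) else 0) := by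
      intro a
      rw [hD]
      simp only
      rw [abs_neg, abs_of_nonneg]
      exact Finset.sum_nonneg fun _ _ => by split_ifs <;> norm_num
    simp only [h8]
    rw [Finset.sum_comm]
    calc ∑ l ∈ (Finset.Ioc 0 M).filter (fun l => l.Prime ∧ ¬ q < l),
          ∑ a : (ZMod Q)ˣ, (if ((s * l : ℕ) : ZMod Q) = (a : ZMod Q) then (1 : ℝ) else 0) ≤
        ∑ l ∈ (Finset.Ioc 0 M).filter (fun l => l.Prime ∧ ¬ q < l), 1 :=
          Finset.sum_le_sum fun l _ => sum_unit_ind _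
      _ ≤ ∑ l ∈ Finset.Ioc 0 q, 1 := by
          apply Finset.sum_le_sum_of_subset_of_nonneg
          · intro l hl
            rw [Finset.mem_filter, Finset.mem_Ioc] at hl
            rw [Finset.mem_Ioc]
            exact ⟨hl.1.1, not_lt.1 hl.2.2⟩
          · intro _ _ _; norm_num
      _ = (q : ℝ) := by rw [Finset.sum_const, Nat.card_Ioc]; simp
  linarith

end dev

lemma poly_exp {c : ℝ} (hc : 0 < c) (n : ℕ) : ∀ᶠ q : ℕ in atTop,
    (q : ℝ) ^ n * Real.exp (-(c * q)) ≤ 1 := by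
  have h3 := (Real.tendsto_pow_mul_exp_neg_atTop_nhds_zero n).comp
    ((tendsto_natCast_atTop_atTop (R := ℝ)).const_mul_atTop hc)
  filter_upwards [h3.eventually_lt_const (show 0 < c ^ n by positivity)] with q hq
  simp only [Function.comp] at hq
  have h4 : (c * q) ^ n * Real.exp (-(c * q)) = c ^ n * ((q : ℝ) ^ n * Real.exp (-(c * q))) := by ring
  rw [h4] at hq
  have hcn : 0 < c ^ n := by positivity
  by_contra hcon
  push Not at hcon
  have h5 := mul_lt_mul_of_pos_left hcon hcn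
  rw [mul_one] at h5
  linarith only [h5, hq]

/-- **Rough parts in almost all classes.** -/
theorem rough_L1 {b : ℕ} (hb : 2 ≤ b) : ∃ κ K : ℝ, 0 < κ ∧ 0 < K ∧ ∀ᶠ q : ℕ in atTop,
    ∀ (k : ℕ) [NeZero (b ^ k)], k = ⌊κ * q / Real.log q⌋₊ →
    k ≤ q ∧ dev (RN (b ^ k) (b ^ q - 1) q) ≤ K * ((b : ℝ) ^ q * (Real.log q / (q : ℝ) ^ 2)) := by
  obtain ⟨c0, K, L0, hc0, hK, hL0, hP⟩ := primes_L1 hb 4
  obtain ⟨C, hC, hVV⟩ := VV_le_log
  set lb := Real.log b with hlb
  have hlb0 : 0 < lb := Real.log_pos (by exact_mod_cast hb)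
  set κ := min (c0 / 8) 1 with hκ
  have hκ0 : 0 < κ := lt_min (by positivity) one_pos
  have hκ1 : κ ≤ c0 / 8 := min_le_left _ _
  have hκ2 : κ ≤ 1 := min_le_right _ _
  refine ⟨κ, K * C * (4 / lb) ^ 4 + 4, hκ0, by positivity, ?_⟩
  have hq : Tendsto (fun q : ℕ => (q : ℝ)) atTop atTop := tendsto_natCast_atTop_atTop
  have e1 : ∀ᶠ q : ℕ in atTop, 4 * L0 / lb ≤ (q : ℝ) := hq.eventually_ge_atTop _
  have e2 : ∀ᶠ q : ℕ in atTop, lb ≤ (q : ℝ) := hq.eventually_ge_atTop _
  -- `√(q lb) + lb ≤ κ lb q / log q`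
  have e3 : ∀ᶠ q : ℕ in atTop, √((q : ℝ) * lb) ≤ (κ * q / Real.log q - 1) * lb := by
    have h1 : Tendsto (fun x : ℝ => Real.log x / x ^ (1 / 4 : ℝ)) atTop (𝓝 0) := by
      have := isLittleO_log_rpow_atTop (r := 1 / 4) (by norm_num)
      exact this.tendsto_div_nhds_zero
    have h2 := h1.comp hq
    filter_upwards [h2.eventually_lt_const (show (0 : ℝ) < κ / 2 by positivity),
      hq.eventually_ge_atTop 3,
      hq.eventually_ge_atTop ((1 / √lb) ^ 4), hq.eventually_ge_atTop 16] with q h3 h4 h5 h6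
    simp only [Function.comp] at h3
    have hq0 : (0 : ℝ) < q := by linarith
    have hl0 : 0 < Real.log q := Real.log_pos (by linarith)
    set x := (q : ℝ) ^ (1 / 4 : ℝ) with hx
    have hx0 : 0 < x := by positivity
    have hx4 : x ^ 4 = q := by
      rw [hx, ← Real.rpow_natCast, ← Real.rpow_mul hq0.le]; norm_num
    have hlx : Real.log q < κ / 2 * x := by rwa [div_lt_iff₀ hx0] at h3
    have h7 : 2 * x ^ 3 ≤ κ * q / Real.log q := by
      rw [le_div_iff₀ hl0]
      calc 2 * x ^ 3 * Real.log q ≤ 2 * x ^ 3 * (κ / 2 * x) := by gcongr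
        _ = κ * x ^ 4 := by ring
        _ = κ * q := by rw [hx4]
    have hx2 : 2 ≤ x := by
      by_contra hcon
      push Not at hcon
      have : x ^ 4 < 2 ^ 4 := pow_lt_pow_left₀ hcon hx0.le (by norm_num)
      linarith
    have h8 : √((q : ℝ) * lb) = x ^ 2 * √lb := by
      rw [Real.sqrt_mul hq0.le, ← hx4]
      congr 1
      rw [show x ^ 4 = (x ^ 2) ^ 2 by ring, Real.sqrt_sq (by positivity)]
    have hslb : 0 < √lb := Real.sqrt_pos.2 hlb0
    have h9 : 1 / √lb ≤ x := by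
      by_contra hcon
      push Not at hcon
      have : x ^ 4 < (1 / √lb) ^ 4 := pow_lt_pow_left₀ hcon hx0.le (by norm_num)
      linarith
    have h10 : 1 ≤ x * √lb := by rwa [div_le_iff₀ hslb] at h9
    rw [h8]
    have h11 : √lb ≤ x * lb := by
      have : √lb * 1 ≤ √lb * (x * √lb) := mul_le_mul_of_nonneg_left h10 hslb.le
      have h12 : √lb * √lb = lb := Real.mul_self_sqrt hlb0.le
      calc √lb = √lb * 1 := (mul_one _).symm
        _ ≤ √lb * (x * √lb) := this
        _ = x * (√lb * √lb) := by ring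
        _ = x * lb := by rw [h12]
    have h13 : x ^ 3 ≤ κ * q / Real.log q - 1 := by
      have : 1 ≤ x ^ 3 := one_le_pow₀ (by linarith)
      linarith
    calc x ^ 2 * √lb ≤ x ^ 2 * (x * lb) := by gcongr
      _ = x ^ 3 * lb := by ring
      _ ≤ _ := mul_le_mul_of_nonneg_right h13 hlb0.le
  have e4 := poly_exp (c := lb / 8) (by positivity) 3
  have e5 : ∀ᶠ q : ℕ in atTop, ZZ q ≤ Real.exp (lb / 8 * q) := ZZ_le_exp (by positivity)
  have e6 : ∀ᶠ q : ℕ in atTop, (12 : ℝ) ≤ lb * q := by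
    filter_upwards [hq.eventually_ge_atTop (12 / lb)] with q hq
    rwa [div_le_iff₀ hlb0, mul_comm] at hq
  have e7 : ∀ᶠ q : ℕ in atTop, (4 : ℝ) ≤ κ * q / Real.log q := by
    filter_upwards [e3, hq.eventually_ge_atTop (9 / lb * lb ^ 2), hq.eventually_ge_atTop 3]
      with q h1 h2 h3
    have h4 : √((q : ℝ) * lb) ≥ 3 * lb := by
      apply Real.le_sqrt_of_sq_le
      have : 9 / lb * lb ^ 2 = 9 * lb := by field_simp
      rw [this] at h2
      calc (3 * lb) ^ 2 = 9 * lb * lb := by ring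
        _ ≤ q * lb := mul_le_mul_of_nonneg_right h2 hlb0.le
    have h5 : 3 * lb ≤ (κ * q / Real.log q - 1) * lb := h4.trans h1
    have h6 : 3 ≤ κ * q / Real.log q - 1 := le_of_mul_le_mul_right h5 hlb0
    linarith
  filter_upwards [e1, e2, e3, e4, e5, e6, e7, hVV, hq.eventually_ge_atTop 3, eventually_ge_atTop 1]
    with q f1 f2 f3 f4 f5 f6 f7 f8 f9 f10
  intro k hk0 hk
  have hq0 : (0 : ℝ) < q := by linarith
  have hlq : 1 ≤ Real.log q := by
    rw [Real.le_log_iff_exp_le hq0]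
    linarith [Real.exp_one_lt_d9]
  have hlq0 : 0 < Real.log q := by linarith
  have hk1 : (k : ℝ) ≤ κ * q / Real.log q := by
    rw [hk]
    exact Nat.floor_le (by positivity)
  have hk2 : κ * q / Real.log q < k + 1 := by
    rw [hk]
    exact Nat.lt_floor_add_one _
  have hk3 : 3 ≤ k := by
    have : (3 : ℝ) < k + 1 := by linarith
    have h2 : 3 < k + 1 := by exact_mod_cast this
    omega
  have hkq : k ≤ q := by
    have : (k : ℝ) ≤ q := by
      refine hk1.trans ?_
      rw [div_le_iff₀ hlq0]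
      calc κ * q ≤ 1 * q := mul_le_mul_of_nonneg_right hκ2 hq0.le
        _ = q * 1 := by ring
        _ ≤ q * Real.log q := mul_le_mul_of_nonneg_left hlq hq0.le
    exact_mod_cast this
  refine ⟨hkq, ?_⟩
  set X := b ^ q - 1 with hX
  have hbr : (2 : ℝ) ≤ b := by exact_mod_cast hb
  have hbq : (b : ℝ) ^ q = Real.exp (lb * q) := by
    rw [mul_comm, Real.exp_nat_mul, hlb, Real.exp_log (by linarith)]
  have hbk : Real.log ((b ^ k : ℕ) : ℝ) = k * lb := by
    push_cast
    rw [Real.log_pow]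
  have hXr : (X : ℝ) = (b : ℝ) ^ q - 1 := by
    rw [hX, Nat.cast_sub (Nat.one_le_pow _ _ (by omega))]
    push_cast
    rfl
  have hXle : (X : ℝ) ≤ (b : ℝ) ^ q := by linarith
  have hX0 : (0 : ℝ) ≤ X := Nat.cast_nonneg _
  set S := Real.exp (lb * q / 2) with hS
  have hS0 : 0 < S := Real.exp_pos _
  have hS1 : 1 ≤ S := Real.one_le_exp (by positivity)
  have hRN : RN (b ^ k) X q = fun a => ∑ s ∈ SMz q X, IN (b ^ k) X q s a := by
    ext a; exact RN_eq X q a
  rw [hRN]
  refine (dev_sum _ _).trans ?_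
  rw [← Finset.sum_filter_add_sum_filter_not (SMz q (X : ℝ)) (fun s : ℕ => (s : ℝ) ≤ S)]
  -- small smooth parts
  have hsmall : ∑ s ∈ (SMz q (X : ℝ)).filter (fun s : ℕ => (s : ℝ) ≤ S), dev (IN (b ^ k) X q s) ≤
      K * C * (4 / lb) ^ 4 * ((b : ℝ) ^ q * (Real.log q / q ^ 4)) + 2 * q * S := by
    have hterm : ∀ s ∈ (SMz q (X : ℝ)).filter (fun s : ℕ => (s : ℝ) ≤ S),
        dev (IN (b ^ k) X q s) ≤ K * ((X : ℝ) * (s : ℝ)⁻¹ / (lb * q / 4) ^ 4) + 2 * q := by
      intro s hs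
      rw [Finset.mem_filter, mem_SMz hX0] at hs
      obtain ⟨⟨hs1, _⟩, hsS⟩ := hs
      have hs0 : 0 < s := SM_pos hs1
      have hs0' : (0 : ℝ) < s := by exact_mod_cast hs0
      have hs1' : (1 : ℝ) ≤ s := by exact_mod_cast hs0
      by_cases hu : IsUnit (s : ZMod (b ^ k))
      · refine (dev_IN_unit X q s hu).trans ?_
        set M := X / s with hM
        have hM1 : (M : ℝ) ≤ (X : ℝ) * (s : ℝ)⁻¹ := by
          rw [← div_eq_mul_inv]; exact Nat.cast_div_le
        have hM2 : (X : ℝ) * (s : ℝ)⁻¹ < M + 1 := by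
          rw [← div_eq_mul_inv, div_lt_iff₀ hs0']
          have := Nat.lt_div_mul_add (a := X) hs0
          have h2 : X < (M + 1) * s := by rw [hM]; linarith
          exact_mod_cast h2
        have hMlow : Real.exp (lb * q / 4) ≤ M := by
          have h1 : Real.exp (lb * q / 2) - 1 ≤ (X : ℝ) * (s : ℝ)⁻¹ := by
            rw [← div_eq_mul_inv, le_div_iff₀ hs0', hXr, hbq]
            have h3 : Real.exp (lb * q) = Real.exp (lb * q / 2) * S := by
              rw [hS, ← Real.exp_add]; ring_nf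
            rw [h3]
            have h4 : 1 ≤ Real.exp (lb * q / 2) := hS1
            have h5 := mul_le_mul_of_nonneg_left hsS (zero_le_one.trans h4)
            linarith only [h5, hs1']
          have h2 : Real.exp (lb * q / 4) + 2 ≤ Real.exp (lb * q / 2) := by
            have h3 : Real.exp (lb * q / 2) = Real.exp (lb * q / 4) * Real.exp (lb * q / 4) := by
              rw [← Real.exp_add]; ring_nf
            have h4 : 4 ≤ Real.exp (lb * q / 4) := by
              have := Real.add_one_le_exp (lb * q / 4)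
              linarith
            have h5 := mul_le_mul_of_nonneg_right h4 (Real.exp_pos (lb * q / 4)).le
            rw [h3]
            linarith only [h4, h5]
          linarith
        have hMpos : (0 : ℝ) < M := lt_of_lt_of_le (Real.exp_pos _) hMlow
        have hlM1 : lb * q / 4 ≤ Real.log M := by
          rw [Real.le_log_iff_exp_le hMpos]; exact hMlow
        have hlM2 : Real.log M ≤ lb * q := by
          rw [Real.log_le_iff_le_exp hMpos, ← hbq]
          refine hM1.trans (le_trans ?_ hXle)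
          have : (s : ℝ)⁻¹ ≤ 1 := inv_le_one_of_one_le₀ hs1'
          exact mul_le_of_le_one_right hX0 this
        have hlMpos : 0 < Real.log M := by
          have : 0 < lb * q / 4 := by positivity
          linarith
        have hL0M : L0 ≤ Real.log M := by
          refine le_trans ?_ hlM1
          rw [div_le_iff₀ hlb0] at f1
          linarith
        have h := hP k M hk3 hL0M ?_ ?_
        · have h2 : (M : ℝ) / Real.log M ^ 4 ≤ (X : ℝ) * (s : ℝ)⁻¹ / (lb * q / 4) ^ 4 := by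
            apply div_le_div₀ (by positivity) hM1 (by positivity)
            exact pow_le_pow_left₀ (by positivity) hlM1 4
          have h3 := mul_le_mul_of_nonneg_left h2 hK.le
          linarith
        · rw [hbk]
          calc √(Real.log M) ≤ √((q : ℝ) * lb) := Real.sqrt_le_sqrt (by linarith)
            _ ≤ (κ * q / Real.log q - 1) * lb := f3
            _ ≤ k * lb := mul_le_mul_of_nonneg_right (by linarith) hlb0.le
        · rw [hbk]
          have h2 : Real.log (Real.log M) ≤ 2 * Real.log q := by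
            calc Real.log (Real.log M) ≤ Real.log ((q : ℝ) * q) := by
                  apply Real.log_le_log hlMpos
                  exact hlM2.trans (mul_le_mul_of_nonneg_right f2 hq0.le)
              _ = _ := by rw [Real.log_mul hq0.ne' hq0.ne']; ring
          have h3 : (k : ℝ) * Real.log q ≤ c0 / 8 * q := by
            rw [le_div_iff₀ hlq0] at hk1
            exact hk1.trans (mul_le_mul_of_nonneg_right hκ1 hq0.le)
          calc (k : ℝ) * lb * Real.log (Real.log M) ≤ k * lb * (2 * Real.log q) := by gcongr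
            _ = 2 * lb * (k * Real.log q) := by ring
            _ ≤ 2 * lb * (c0 / 8 * q) := by gcongr
            _ = c0 * (lb * q / 4) := by ring
            _ ≤ _ := mul_le_mul_of_nonneg_left hlM1 hc0.le
      · rw [dev_IN_nonunit X q s hu]
        positivity
    refine (Finset.sum_le_sum hterm).trans ?_
    rw [Finset.sum_add_distrib]
    have hF : ∀ n ∈ (SMz q (X : ℝ)).filter (fun s : ℕ => (s : ℝ) ≤ S), n ∈ SM q := by
      intro n hn
      rw [Finset.mem_filter, mem_SMz hX0] at hn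
      exact hn.1.1
    have h1 : ∑ s ∈ (SMz q (X : ℝ)).filter (fun s : ℕ => (s : ℝ) ≤ S),
        K * ((X : ℝ) * (s : ℝ)⁻¹ / (lb * q / 4) ^ 4) ≤
        K * C * (4 / lb) ^ 4 * ((b : ℝ) ^ q * (Real.log q / q ^ 4)) := by
      have h2 : ∑ s ∈ (SMz q (X : ℝ)).filter (fun s : ℕ => (s : ℝ) ≤ S),
        K * ((X : ℝ) * (s : ℝ)⁻¹ / (lb * q / 4) ^ 4) = K * X / (lb * q / 4) ^ 4 *
          ∑ s ∈ (SMz q (X : ℝ)).filter (fun s : ℕ => (s : ℝ) ≤ S), (s : ℝ)⁻¹ := by
        rw [Finset.mul_sum]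
        refine Finset.sum_congr rfl fun s _ => ?_
        ring
      rw [h2]
      have h3 := (sum_le_VV q _ hF).trans f8
      calc K * X / (lb * q / 4) ^ 4 *
          ∑ s ∈ (SMz q (X : ℝ)).filter (fun s : ℕ => (s : ℝ) ≤ S), (s : ℝ)⁻¹ ≤
          K * (b : ℝ) ^ q / (lb * q / 4) ^ 4 * (C * Real.log q) := by gcongr
        _ = _ := by field_simp
    have h4 : ∑ s ∈ (SMz q (X : ℝ)).filter (fun s : ℕ => (s : ℝ) ≤ S), (2 * (q : ℝ)) ≤ 2 * q * S := by
      rw [Finset.sum_const, nsmul_eq_mul, mul_comm]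
      apply mul_le_mul_of_nonneg_left _ (by positivity)
      have h5 : ((SMz q (X : ℝ)).filter (fun s : ℕ => (s : ℝ) ≤ S)).card ≤
          (Finset.Ioc 0 ⌊S⌋₊).card := by
        apply Finset.card_le_card
        intro n hn
        have hn' := hF n hn
        rw [Finset.mem_filter] at hn
        rw [Finset.mem_Ioc]
        exact ⟨SM_pos hn', (Nat.le_floor_iff hS0.le).2 hn.2⟩
      rw [Nat.card_Ioc, Nat.sub_zero] at h5
      exact le_trans (by exact_mod_cast h5) (Nat.floor_le hS0.le)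
    linarith
  have hlarge : ∑ s ∈ (SMz q (X : ℝ)).filter (fun s : ℕ => ¬ (s : ℝ) ≤ S), dev (IN (b ^ k) X q s) ≤
      2 * ((b : ℝ) ^ q * Real.exp (-(lb / 8 * q))) := by
    have h1 : ∑ s ∈ (SMz q (X : ℝ)).filter (fun s : ℕ => ¬ (s : ℝ) ≤ S), dev (IN (b ^ k) X q s) ≤
        2 * (X * ∑ s ∈ (SMz q (X : ℝ)).filter (fun s : ℕ => ¬ (s : ℝ) ≤ S), (s : ℝ)⁻¹) := by
      rw [Finset.mul_sum, Finset.mul_sum]
      exact Finset.sum_le_sum fun s _ => dev_IN_triv X q s
    refine h1.trans ?_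
    apply mul_le_mul_of_nonneg_left _ (by norm_num)
    have h2 := tail_le q hS0 ((SMz q (X : ℝ)).filter (fun s : ℕ => ¬ (s : ℝ) ≤ S)) (by
      intro n hn
      rw [Finset.mem_filter, mem_SMz hX0] at hn
      exact ⟨hn.1.1, (not_le.1 hn.2).le⟩)
    have h3 : S ^ (-(1 / 2) : ℝ) * ZZ q ≤ Real.exp (-(lb / 8 * q)) := by
      have h4 : S ^ (-(1 / 2) : ℝ) = Real.exp (-(lb * q / 4)) := by
        rw [hS, ← Real.exp_mul]; ring_nf
      rw [h4]
      calc Real.exp (-(lb * q / 4)) * ZZ q ≤ Real.exp (-(lb * q / 4)) * Real.exp (lb / 8 * q) := by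
            gcongr
        _ = _ := by rw [← Real.exp_add]; ring_nf
    calc (X : ℝ) * ∑ s ∈ (SMz q (X : ℝ)).filter (fun s : ℕ => ¬ (s : ℝ) ≤ S), (s : ℝ)⁻¹ ≤
        X * Real.exp (-(lb / 8 * q)) := mul_le_mul_of_nonneg_left (h2.trans h3) hX0
      _ ≤ _ := mul_le_mul_of_nonneg_right hXle (Real.exp_pos _).le
  refine (add_le_add hsmall hlarge).trans ?_
  -- final numerology
  have hbq0 : (0 : ℝ) < (b : ℝ) ^ q := by positivity
  have hlq2 : 0 < Real.log q / (q : ℝ) ^ 2 := by positivity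
  have g1 : Real.log q / (q : ℝ) ^ 4 ≤ Real.log q / (q : ℝ) ^ 2 := by
    apply div_le_div_of_nonneg_left hlq0.le (by positivity)
    exact pow_le_pow_right₀ (by linarith) (by norm_num)
  have g2 : Real.exp (-(lb / 8 * q)) ≤ 1 / (q : ℝ) ^ 3 := by
    rw [le_div_iff₀ (by positivity)]; linarith
  have g3 : 1 / (q : ℝ) ^ 3 ≤ Real.log q / (q : ℝ) ^ 2 := by
    rw [div_le_div_iff₀ (by positivity) (by positivity)]
    have : (q : ℝ) ^ 2 ≤ (q : ℝ) ^ 3 := pow_le_pow_right₀ (by linarith) (by norm_num)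
    have h3 := mul_le_mul_of_nonneg_right hlq (pow_pos hq0 3).le
    linarith only [this, h3]
  have g4 : 2 * q * S ≤ 2 * ((b : ℝ) ^ q * (Real.log q / (q : ℝ) ^ 2)) := by
    have h1 : S = (b : ℝ) ^ q * Real.exp (-(lb * q / 2)) := by
      rw [hS, hbq, ← Real.exp_add]; ring_nf
    have h2 : Real.exp (-(lb * q / 2)) ≤ Real.exp (-(lb / 8 * q)) * Real.exp (-(lb / 8 * q)) := by
      rw [← Real.exp_add]
      apply Real.exp_le_exp.2
      have : 0 < lb * q := by positivity
      linarith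
    have h3 : Real.exp (-(lb * q / 2)) ≤ 1 / (q : ℝ) ^ 3 * (1 / (q : ℝ) ^ 3) :=
      h2.trans (mul_le_mul g2 g2 (Real.exp_pos _).le (by positivity))
    have h4 : (q : ℝ) * Real.exp (-(lb * q / 2)) ≤ Real.log q / (q : ℝ) ^ 2 := by
      refine le_trans ?_ g3
      calc (q : ℝ) * Real.exp (-(lb * q / 2)) ≤ q * (1 / (q : ℝ) ^ 3 * (1 / (q : ℝ) ^ 3)) := by gcongr
        _ = 1 / (q : ℝ) ^ 3 * (1 / (q : ℝ) ^ 2) := by field_simp
        _ ≤ 1 / (q : ℝ) ^ 3 * 1 := by
            apply mul_le_mul_of_nonneg_left _ (by positivity)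
            rw [div_le_one (by positivity)]
            exact one_le_pow₀ (by linarith)
        _ = _ := mul_one _
    rw [h1]
    have h5 := mul_le_mul_of_nonneg_left h4 hbq0.le
    linarith only [h5]
  have g5 : 2 * ((b : ℝ) ^ q * Real.exp (-(lb / 8 * q))) ≤
      2 * ((b : ℝ) ^ q * (Real.log q / (q : ℝ) ^ 2)) := by
    gcongr
    exact g2.trans g3
  have g6 : K * C * (4 / lb) ^ 4 * ((b : ℝ) ^ q * (Real.log q / q ^ 4)) ≤
      K * C * (4 / lb) ^ 4 * ((b : ℝ) ^ q * (Real.log q / q ^ 2)) := by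
    gcongr
  calc _ ≤ K * C * (4 / lb) ^ 4 * ((b : ℝ) ^ q * (Real.log q / q ^ 2)) +
        2 * ((b : ℝ) ^ q * (Real.log q / (q : ℝ) ^ 2)) +
        2 * ((b : ℝ) ^ q * (Real.log q / (q : ℝ) ^ 2)) := by linarith
    _ = _ := by ring

end Pool.Agent.W66L
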