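import Pool.Agent.W66.RB
import Pool.Agent.H305R2.Rough
import Pool.Agent.Helper601.PNT

set_option autoImplicit false

/-!
# The mean of the indicator of a prime rough part over the reduced residues below `b ^ q`
-/

open Filter Topology
open scoped Real

namespace Pool.Agent.W66L

open Pool.Agent.W66
open Pool.Agent.H305R2 (roughPart SM SM_pos SMz mem_SMz ZZ VV sum_rough_eq sum_le_VV tail_le
  ZZ_le_exp ZZ_nonneg VV_nonneg VV_tendsto primesBelow_succ_eq inv_le_rpow hasSum_ZZ sum_le_ZZ)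

/-- the multiplicative function `1/n` on integers prime to `b` -/
noncomputable def copHom (b : ℕ) : ℕ →* ℝ where
  toFun n := if n.Coprime b then (n : ℝ)⁻¹ else 0
  map_one' := by simp
  map_mul' m n := by
    by_cases hm : m.Coprime b
    · by_cases hn : n.Coprime b
      · rw [if_pos (Nat.Coprime.mul_left hm hn), if_pos hm, if_pos hn]
        push_cast
        rw [mul_inv]
      · rw [if_neg hn, mul_zero, if_neg]
        intro h
        exact hn (Nat.Coprime.coprime_mul_left h)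
    · rw [if_neg hm, zero_mul, if_neg]
      intro h
      exact hm (Nat.Coprime.coprime_mul_right h)

lemma copHom_apply (b n : ℕ) : copHom b n = if n.Coprime b then (n : ℝ)⁻¹ else 0 := rfl

lemma copHom_nonneg (b n : ℕ) : 0 ≤ copHom b n := by
  rw [copHom_apply]; split_ifs <;> positivity

lemma copHom_le (b n : ℕ) : copHom b n ≤ (n : ℝ)⁻¹ := by
  rw [copHom_apply]; split_ifs
  · exact le_rfl
  · positivity

/-- Euler product of the primes up to `q` not dividing `b` -/
noncomputable def VB (b q : ℕ) : ℝ :=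
  ∏ r ∈ (Finset.Icc 1 q).filter Nat.Prime, (1 - copHom b r)⁻¹

lemma hasSum_VB (b q : ℕ) : HasSum ((SM q).indicator (fun n : ℕ => copHom b n)) (VB b q) := by
  have h := (EulerProduct.summable_and_hasSum_smoothNumbers_prod_primesBelow_geometric
    (f := copHom b) (fun {r} hr => by
      have h2 : (1 : ℝ) < r := by exact_mod_cast hr.one_lt
      rw [Real.norm_of_nonneg (copHom_nonneg b r)]
      exact (copHom_le b r).trans_lt (inv_lt_one_of_one_lt₀ h2)) (q + 1)).2
  rw [primesBelow_succ_eq] at h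
  rw [← hasSum_subtype_iff_indicator]
  exact h

lemma VB_eq {b q : ℕ} (hb : 2 ≤ b) (hq : b ≤ q) :
    VB b q = VV q * ((b.totient : ℝ) / b) := by
  have hb0 : (0 : ℝ) < b := by exact_mod_cast (by omega : 0 < b)
  have h1 : ((b.totient : ℝ) / b) = ∏ p ∈ b.primeFactors, (1 - (p : ℝ)⁻¹) := by
    have := Nat.totient_eq_mul_prod_factors b
    have h2 : ((b.totient : ℚ) : ℝ) = (((b : ℚ) * ∏ p ∈ b.primeFactors, (1 - (p : ℚ)⁻¹) : ℚ) : ℝ) := by
      rw [this]
    push_cast at h2
    rw [h2]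
    field_simp
  have h2 : ∏ p ∈ b.primeFactors, (1 - (p : ℝ)⁻¹) =
      ∏ p ∈ (Finset.Icc 1 q).filter Nat.Prime, (if p ∣ b then (1 - (p : ℝ)⁻¹) else 1) := by
    rw [← Finset.prod_filter]
    congr 1
    ext p
    simp only [Nat.mem_primeFactors, Finset.mem_filter, Finset.mem_Icc]
    constructor
    · rintro ⟨h3, h4, h5⟩
      exact ⟨⟨⟨h3.pos, (Nat.le_of_dvd (by omega) h4).trans hq⟩, h3⟩, h4⟩
    · rintro ⟨⟨_, h3⟩, h4⟩
      exact ⟨h3, h4, by omega⟩
  rw [h1, h2]
  unfold VB VV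
  rw [← Finset.prod_mul_distrib]
  refine Finset.prod_congr rfl fun p hp => ?_
  have hpp := (Finset.mem_filter.1 hp).2
  have h3 : (1 : ℝ) < p := by exact_mod_cast hpp.one_lt
  have h4 : (1 - (p : ℝ)⁻¹) ≠ 0 := by
    have : (p : ℝ)⁻¹ < 1 := inv_lt_one_of_one_lt₀ h3
    linarith
  rw [copHom_apply]
  by_cases h5 : p ∣ b
  · rw [if_pos h5, if_neg, sub_zero, inv_one, inv_mul_cancel₀ h4]
    intro h
    exact (Nat.Prime.coprime_iff_not_dvd hpp).1 h h5
  · rw [if_neg h5, if_pos ((Nat.Prime.coprime_iff_not_dvd hpp).2 h5), mul_one]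

lemma sum_le_VB (b q : ℕ) (F : Finset ℕ) (hF : ∀ n ∈ F, n ∈ SM q) :
    ∑ n ∈ F, copHom b n ≤ VB b q := by
  have h := hasSum_VB b q
  have h2 : ∑ n ∈ F, copHom b n = ∑ n ∈ F, (SM q).indicator (fun n : ℕ => copHom b n) n := by
    refine Finset.sum_congr rfl fun n hn => ?_
    rw [Set.indicator_of_mem (hF n hn)]
  rw [h2]
  apply sum_le_hasSum F _ h
  intro i _
  exact Set.indicator_nonneg (fun n _ => copHom_nonneg b n) i

lemma VB_le (b q : ℕ) {z : ℝ} (hz : 0 < z) :
    VB b q ≤ ∑ n ∈ SMz q z, copHom b n + z ^ (-(1 / 2) : ℝ) * ZZ q := by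
  have h := hasSum_VB b q
  have hZ := hasSum_ZZ q
  have hfin : HasSum (fun n : ℕ => if n ∈ SMz q z then copHom b n else 0)
      (∑ n ∈ SMz q z, copHom b n) := by
    have h1 : HasSum (fun n : ℕ => if n ∈ SMz q z then copHom b n else 0)
        (∑ n ∈ SMz q z, if n ∈ SMz q z then copHom b n else 0) :=
      hasSum_sum_of_ne_finset_zero (fun n hn => if_neg hn)
    have h2 : ∑ n ∈ SMz q z, (if n ∈ SMz q z then copHom b n else 0) =
        ∑ n ∈ SMz q z, copHom b n := Finset.sum_congr rfl fun n hn => if_pos hn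
    rwa [h2] at h1
  refine hasSum_le ?_ h (hfin.add (hZ.mul_left (z ^ (-(1 / 2) : ℝ))))
  intro n
  by_cases hn : n ∈ SM q
  · rw [Set.indicator_of_mem hn, Set.indicator_of_mem hn]
    by_cases hnz : (n : ℝ) ≤ z
    · rw [if_pos ((mem_SMz hz.le).2 ⟨hn, hnz⟩)]
      have : 0 ≤ z ^ (-(1 / 2) : ℝ) * (n : ℝ) ^ (-(1 / 2) : ℝ) := by positivity
      linarith
    · rw [if_neg fun h => hnz ((mem_SMz hz.le).1 h).2, zero_add]
      exact (copHom_le b n).trans (inv_le_rpow hz (not_le.1 hnz).le)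
  · rw [Set.indicator_of_notMem hn, Set.indicator_of_notMem hn, mul_zero, add_zero]
    split_ifs
    · exact copHom_nonneg b n
    · exact le_rfl

/-- the indicator of a prime rough part -/
noncomputable def rpi (q m : ℕ) : ℝ := if (roughPart q m).Prime then 1 else 0

/-- the number of integers below `b ^ q` prime to `b` with prime rough part -/
noncomputable def AA (b q : ℕ) : ℝ :=
  ∑ m ∈ (Finset.Ioc 0 (b ^ q - 1)).filter (fun m => (roughPart q m).Prime),
    if m.Coprime b then (1 : ℝ) else 0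

lemma AA_eq {b q : ℕ} (hb : 2 ≤ b) (hq : b ≤ q) :
    AA b q = ∑ s ∈ SMz q ((b ^ q - 1 : ℕ) : ℝ), (if s.Coprime b then (1 : ℝ) else 0) *
      (((Finset.Ioc 0 ((b ^ q - 1) / s)).filter (fun l => l.Prime ∧ q < l)).card : ℝ) := by
  unfold AA
  rw [sum_rough_eq q 0 (b ^ q - 1) (fun m => if m.Coprime b then (1 : ℝ) else 0)]
  refine Finset.sum_congr rfl fun s _ => ?_
  rw [Nat.zero_div, Finset.card_eq_sum_ones]
  push_cast
  rw [Finset.mul_sum]
  refine Finset.sum_congr rfl fun l hl => ?_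
  obtain ⟨_, h1, h2⟩ := Finset.mem_filter.1 hl
  have h3 : l.Coprime b := by
    rw [Nat.Prime.coprime_iff_not_dvd h1]
    intro h
    have := Nat.le_of_dvd (by omega) h
    omega
  by_cases hs : s.Coprime b
  · rw [if_pos hs, if_pos (Nat.Coprime.mul_left hs h3)]; norm_num
  · rw [if_neg hs, if_neg, zero_mul]
    intro h
    exact hs (Nat.Coprime.coprime_mul_right h)

lemma card_primes_eq (M : ℕ) : ((Finset.Ioc 0 M).filter (fun l => l.Prime)).card =
    Nat.primeCounting M := by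
  rw [Nat.primeCounting, Nat.primeCounting', Nat.count_eq_card_filter_range]
  congr 1
  ext l
  simp only [Finset.mem_filter, Finset.mem_Ioc, Finset.mem_range]
  constructor
  · rintro ⟨⟨h1, h2⟩, h3⟩; exact ⟨by omega, h3⟩
  · rintro ⟨h1, h2⟩; exact ⟨⟨h2.pos, by omega⟩, h2⟩

lemma card_inner_le (M q : ℕ) :
    (((Finset.Ioc 0 M).filter (fun l => l.Prime ∧ q < l)).card : ℝ) ≤ Nat.primeCounting M := by
  rw [← card_primes_eq]
  exact_mod_cast Finset.card_le_card (fun l hl => by
    rw [Finset.mem_filter] at hl ⊢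
    exact ⟨hl.1, hl.2.1⟩)

lemma le_card_inner (M q : ℕ) :
    (Nat.primeCounting M : ℝ) - q ≤
      (((Finset.Ioc 0 M).filter (fun l => l.Prime ∧ q < l)).card : ℝ) := by
  have h1 : ((Finset.Ioc 0 M).filter (fun l => l.Prime)).card ≤
      ((Finset.Ioc 0 M).filter (fun l => l.Prime ∧ q < l)).card + (Finset.Ioc 0 q).card := by
    refine le_trans (Finset.card_le_card ?_) (Finset.card_union_le _ _)
    intro l hl
    rw [Finset.mem_filter, Finset.mem_Ioc] at hl
    rw [Finset.mem_union, Finset.mem_filter, Finset.mem_Ioc, Finset.mem_Ioc]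
    by_cases h : q < l
    · left; exact ⟨hl.1, hl.2, h⟩
    · right; exact ⟨hl.1.1, by omega⟩
  rw [card_primes_eq, Nat.card_Ioc, Nat.sub_zero] at h1
  have h2 : (Nat.primeCounting M : ℝ) ≤
    (((Finset.Ioc 0 M).filter (fun l => l.Prime ∧ q < l)).card : ℝ) + q := by exact_mod_cast h1
  linarith

lemma AA_upper {b : ℕ} (hb : 2 ≤ b) {δ : ℝ} (hδ : 0 < δ) (hδ1 : δ < 1 / 4) : ∀ᶠ q : ℕ in atTop,
    AA b q ≤ (b : ℝ) ^ q * ((1 + δ) / ((1 - 2 * δ) * (Real.log b * q)) * VB b q +
      Real.exp (-(δ * (Real.log b * q) / 2)) * ZZ q) := by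
  set lb := Real.log b with hlb
  have hlb0 : 0 < lb := Real.log_pos (by exact_mod_cast hb)
  have hPNT := Pool.Agent.Helper601.PNT.pi_tendsto
  obtain ⟨x0, hx0⟩ := eventually_atTop.1
    (hPNT.eventually_lt_const (show (1 : ℝ) < 1 + δ by linarith))
  have hq : Tendsto (fun q : ℕ => (q : ℝ)) atTop atTop := tendsto_natCast_atTop_atTop
  have hq2 : Tendsto (fun q : ℕ => lb * q) atTop atTop := hq.const_mul_atTop hlb0
  have hq3 : Tendsto (fun q : ℕ => δ * (lb * q)) atTop atTop := hq2.const_mul_atTop hδ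
  filter_upwards [hq3.eventually_ge_atTop (max (x0 + 1) 3), eventually_ge_atTop b] with q h1 h2
  have hX0 : x0 + 1 ≤ δ * (lb * q) := (le_max_left _ _).trans h1
  have hX3 : 3 ≤ δ * (lb * q) := (le_max_right _ _).trans h1
  have hq0 : (0 : ℝ) < q := by exact_mod_cast (by omega : 0 < q)
  have hlq : 0 < lb * q := by positivity
  set X := b ^ q - 1 with hX
  have hbr : (2 : ℝ) ≤ b := by exact_mod_cast hb
  have hbq : (b : ℝ) ^ q = Real.exp (lb * q) := by
    rw [mul_comm, Real.exp_nat_mul, hlb, Real.exp_log (by linarith)]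
  have hXr : (X : ℝ) = (b : ℝ) ^ q - 1 := by
    rw [hX, Nat.cast_sub (Nat.one_le_pow _ _ (by omega))]
    push_cast
    rfl
  have hXle : (X : ℝ) ≤ (b : ℝ) ^ q := by linarith
  have hXnn : (0 : ℝ) ≤ X := Nat.cast_nonneg _
  set S := Real.exp (δ * (lb * q)) with hS
  have hS0 : 0 < S := Real.exp_pos _
  have hS1 : 1 ≤ S := Real.one_le_exp (by linarith)
  rw [AA_eq hb h2, ← Finset.sum_filter_add_sum_filter_not (SMz q (X : ℝ)) (fun s : ℕ => (s : ℝ) ≤ S),
    mul_add]
  have hF : ∀ n ∈ (SMz q (X : ℝ)).filter (fun s : ℕ => (s : ℝ) ≤ S), n ∈ SM q := by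
    intro n hn
    rw [Finset.mem_filter, mem_SMz hXnn] at hn
    exact hn.1.1
  apply add_le_add
  · have hterm : ∀ s ∈ (SMz q (X : ℝ)).filter (fun s : ℕ => (s : ℝ) ≤ S),
        (if s.Coprime b then (1 : ℝ) else 0) *
          (((Finset.Ioc 0 (X / s)).filter (fun l => l.Prime ∧ q < l)).card : ℝ) ≤
        (b : ℝ) ^ q * ((1 + δ) / ((1 - 2 * δ) * (lb * q))) * copHom b s := by
      intro s hs
      rw [Finset.mem_filter, mem_SMz hXnn] at hs
      obtain ⟨⟨hs1, _⟩, hsS⟩ := hs
      have hs0 : 0 < s := SM_pos hs1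
      have hs0' : (0 : ℝ) < s := by exact_mod_cast hs0
      have hs1' : (1 : ℝ) ≤ s := by exact_mod_cast hs0
      rw [copHom_apply]
      by_cases hc : s.Coprime b
      · rw [if_pos hc, if_pos hc, one_mul]
        refine (card_inner_le _ _).trans ?_
        set x := (X : ℝ) / s with hx
        have hfl : X / s = ⌊x⌋₊ := by rw [hx, Nat.floor_div_eq_div]
        have hxlow : Real.exp ((1 - 2 * δ) * (lb * q)) ≤ x := by
          rw [hx, le_div_iff₀ hs0', hXr, hbq]
          have e1 : Real.exp (lb * q) = Real.exp ((1 - 2 * δ) * (lb * q)) *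
              (Real.exp (δ * (lb * q)) * Real.exp (δ * (lb * q))) := by
            rw [← Real.exp_add, ← Real.exp_add]; ring_nf
          rw [e1, ← hS]
          have e2 : 1 ≤ Real.exp ((1 - 2 * δ) * (lb * q)) := Real.one_le_exp (by
            apply mul_nonneg (by linarith) hlq.le)
          have e3 : 4 ≤ S := by
            have := Real.add_one_le_exp (δ * (lb * q))
            linarith
          have e4 : Real.exp ((1 - 2 * δ) * (lb * q)) * s ≤ Real.exp ((1 - 2 * δ) * (lb * q)) * S :=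
            mul_le_mul_of_nonneg_left hsS (Real.exp_pos _).le
          have e5 : 1 ≤ Real.exp ((1 - 2 * δ) * (lb * q)) * S := by nlinarith
          have e6 : Real.exp ((1 - 2 * δ) * (lb * q)) * S * 4 ≤
              Real.exp ((1 - 2 * δ) * (lb * q)) * S * S :=
            mul_le_mul_of_nonneg_left e3 (by positivity)
          nlinarith
        have hx0' : 0 < x := lt_of_lt_of_le (Real.exp_pos _) hxlow
        have hxx0 : x0 ≤ x := by
          have e1 := Real.add_one_le_exp ((1 - 2 * δ) * (lb * q))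
          have e2 : δ * (lb * q) ≤ (1 - 2 * δ) * (lb * q) :=
            mul_le_mul_of_nonneg_right (by linarith) hlq.le
          linarith
        have hlogx : (1 - 2 * δ) * (lb * q) ≤ Real.log x := by
          rw [Real.le_log_iff_exp_le hx0']; exact hxlow
        have hpos : 0 < (1 - 2 * δ) * (lb * q) := mul_pos (by linarith) hlq
        have h3 := hx0 x hxx0
        rw [div_lt_iff₀ hx0'] at h3
        have h4 : (Nat.primeCounting (X / s) : ℝ) ≤ (1 + δ) * x / ((1 - 2 * δ) * (lb * q)) := by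
          rw [hfl, le_div_iff₀ hpos]
          have : (Nat.primeCounting ⌊x⌋₊ : ℝ) * ((1 - 2 * δ) * (lb * q)) ≤
            (Nat.primeCounting ⌊x⌋₊ : ℝ) * Real.log x := mul_le_mul_of_nonneg_left hlogx (by positivity)
          linarith
        refine h4.trans ?_
        have h5 : x ≤ (b : ℝ) ^ q * (s : ℝ)⁻¹ := by
          rw [hx, div_eq_mul_inv]
          exact mul_le_mul_of_nonneg_right hXle (by positivity)
        calc (1 + δ) * x / ((1 - 2 * δ) * (lb * q)) ≤
            (1 + δ) * ((b : ℝ) ^ q * (s : ℝ)⁻¹) / ((1 - 2 * δ) * (lb * q)) := by gcongr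
          _ = _ := by ring
      · rw [if_neg hc, if_neg hc]; simp
    refine (Finset.sum_le_sum hterm).trans ?_
    rw [← Finset.mul_sum]
    have h3 := sum_le_VB b q _ hF
    have hpos : 0 < (1 - 2 * δ) * (lb * q) := mul_pos (by linarith) hlq
    calc (b : ℝ) ^ q * ((1 + δ) / ((1 - 2 * δ) * (lb * q))) *
          ∑ s ∈ (SMz q (X : ℝ)).filter (fun s : ℕ => (s : ℝ) ≤ S), copHom b s ≤
        (b : ℝ) ^ q * ((1 + δ) / ((1 - 2 * δ) * (lb * q))) * VB b q := by gcongr
      _ = _ := by ring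
  · have hterm : ∀ s ∈ (SMz q (X : ℝ)).filter (fun s : ℕ => ¬ (s : ℝ) ≤ S),
        (if s.Coprime b then (1 : ℝ) else 0) *
          (((Finset.Ioc 0 (X / s)).filter (fun l => l.Prime ∧ q < l)).card : ℝ) ≤
        (b : ℝ) ^ q * (s : ℝ)⁻¹ := by
      intro s _
      have h3 : (((Finset.Ioc 0 (X / s)).filter (fun l => l.Prime ∧ q < l)).card : ℝ) ≤
          (X : ℝ) * (s : ℝ)⁻¹ := by
        have h4 : ((Finset.Ioc 0 (X / s)).filter (fun l => l.Prime ∧ q < l)).card ≤ X / s := by
          refine (Finset.card_filter_le _ _).trans ?_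
          rw [Nat.card_Ioc, Nat.sub_zero]
        rw [← div_eq_mul_inv]
        exact le_trans (by exact_mod_cast h4) Nat.cast_div_le
      have h5 : (if s.Coprime b then (1 : ℝ) else 0) ≤ 1 := by split_ifs <;> norm_num
      have h6 : (0 : ℝ) ≤ (if s.Coprime b then (1 : ℝ) else 0) := by split_ifs <;> norm_num
      calc _ ≤ 1 * ((X : ℝ) * (s : ℝ)⁻¹) := mul_le_mul h5 h3 (by positivity) (by norm_num)
        _ ≤ _ := by
          rw [one_mul]
          exact mul_le_mul_of_nonneg_right hXle (by positivity)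
    refine (Finset.sum_le_sum hterm).trans ?_
    rw [← Finset.mul_sum]
    apply mul_le_mul_of_nonneg_left _ (by positivity)
    have h3 := tail_le q hS0 ((SMz q (X : ℝ)).filter (fun s : ℕ => ¬ (s : ℝ) ≤ S)) (by
      intro n hn
      rw [Finset.mem_filter, mem_SMz hXnn] at hn
      exact ⟨hn.1.1, (not_le.1 hn.2).le⟩)
    refine h3.trans (le_of_eq ?_)
    rw [hS, ← Real.exp_mul]
    ring_nf

lemma AA_lower {b : ℕ} (hb : 2 ≤ b) {δ : ℝ} (hδ : 0 < δ) (hδ1 : δ < 1 / 4) : ∀ᶠ q : ℕ in atTop,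
    (b : ℝ) ^ q * ((1 - δ) ^ 2 / (Real.log b * q) *
      (VB b q - Real.exp (-(δ * (Real.log b * q) / 2)) * ZZ q) -
      q * Real.exp (-((1 - δ) * (Real.log b * q)))) ≤ AA b q := by
  set lb := Real.log b with hlb
  have hlb0 : 0 < lb := Real.log_pos (by exact_mod_cast hb)
  have hPNT := Pool.Agent.Helper601.PNT.pi_tendsto
  obtain ⟨x0, hx0⟩ := eventually_atTop.1
    (hPNT.eventually_const_lt (show (1 : ℝ) - δ < 1 by linarith))
  have hq : Tendsto (fun q : ℕ => (q : ℝ)) atTop atTop := tendsto_natCast_atTop_atTop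
  have hq2 : Tendsto (fun q : ℕ => lb * q) atTop atTop := hq.const_mul_atTop hlb0
  have hq3 : Tendsto (fun q : ℕ => δ * (lb * q)) atTop atTop := hq2.const_mul_atTop hδ
  filter_upwards [hq3.eventually_ge_atTop (max (max (x0 + 1) 3) (1 / δ)), eventually_ge_atTop b]
    with q h1 h2
  have hX0 : x0 + 1 ≤ δ * (lb * q) := ((le_max_left _ _).trans (le_max_left _ _)).trans h1
  have hX3 : 3 ≤ δ * (lb * q) := ((le_max_right _ _).trans (le_max_left _ _)).trans h1
  have hXδ : 1 / δ ≤ δ * (lb * q) := (le_max_right _ _).trans h1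
  have hq0 : (0 : ℝ) < q := by exact_mod_cast (by omega : 0 < q)
  have hlq : 0 < lb * q := by positivity
  set X := b ^ q - 1 with hX
  have hbr : (2 : ℝ) ≤ b := by exact_mod_cast hb
  have hbq : (b : ℝ) ^ q = Real.exp (lb * q) := by
    rw [mul_comm, Real.exp_nat_mul, hlb, Real.exp_log (by linarith)]
  have hXr : (X : ℝ) = (b : ℝ) ^ q - 1 := by
    rw [hX, Nat.cast_sub (Nat.one_le_pow _ _ (by omega))]
    push_cast
    rfl
  have hbig : 1 / δ ≤ (b : ℝ) ^ q := by
    rw [hbq]
    have e1 := Real.add_one_le_exp (lb * q)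
    have e2 : δ * (lb * q) ≤ 1 * (lb * q) := mul_le_mul_of_nonneg_right (by linarith) hlq.le
    linarith
  have hXge : (1 - δ) * (b : ℝ) ^ q ≤ X := by
    rw [hXr]
    rw [div_le_iff₀ hδ] at hbig
    linarith
  have hXnn : (0 : ℝ) ≤ X := Nat.cast_nonneg _
  have hXle : (X : ℝ) ≤ (b : ℝ) ^ q := by linarith
  set S := Real.exp (δ * (lb * q)) with hS
  have hS0 : 0 < S := Real.exp_pos _
  have hSX : S ≤ X := by
    refine le_trans ?_ hXge
    rw [hbq]
    have e1 : Real.exp (lb * q) = Real.exp ((1 - δ) * (lb * q)) * S := by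
      rw [hS, ← Real.exp_add]; ring_nf
    rw [e1]
    have e2 : 2 ≤ Real.exp ((1 - δ) * (lb * q)) := by
      have := Real.add_one_le_exp ((1 - δ) * (lb * q))
      have e3 : δ * (lb * q) ≤ (1 - δ) * (lb * q) := mul_le_mul_of_nonneg_right (by linarith) hlq.le
      linarith
    nlinarith
  rw [AA_eq hb h2]
  have hsub : SMz q S ⊆ SMz q (X : ℝ) := by
    intro n hn
    rw [mem_SMz hS0.le] at hn
    rw [mem_SMz hXnn]
    exact ⟨hn.1, hn.2.trans hSX⟩
  refine le_trans ?_ (Finset.sum_le_sum_of_subset_of_nonneg hsub fun i _ _ => by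
    split_ifs <;> positivity)
  have hterm : ∀ s ∈ SMz q S, (b : ℝ) ^ q * ((1 - δ) ^ 2 / (lb * q)) * copHom b s - q ≤
      (if s.Coprime b then (1 : ℝ) else 0) *
        (((Finset.Ioc 0 (X / s)).filter (fun l => l.Prime ∧ q < l)).card : ℝ) := by
    intro s hs
    rw [mem_SMz hS0.le] at hs
    obtain ⟨hs1, hsS⟩ := hs
    have hs0 : 0 < s := SM_pos hs1
    have hs0' : (0 : ℝ) < s := by exact_mod_cast hs0
    have hs1' : (1 : ℝ) ≤ s := by exact_mod_cast hs0
    rw [copHom_apply]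
    by_cases hc : s.Coprime b
    · rw [if_pos hc, if_pos hc, one_mul]
      refine le_trans ?_ (le_card_inner _ _)
      set x := (X : ℝ) / s with hx
      have hfl : X / s = ⌊x⌋₊ := by rw [hx, Nat.floor_div_eq_div]
      have hxlow : Real.exp ((1 - 2 * δ) * (lb * q)) ≤ x := by
        rw [hx, le_div_iff₀ hs0', hXr, hbq]
        have e1 : Real.exp (lb * q) = Real.exp ((1 - 2 * δ) * (lb * q)) *
            (Real.exp (δ * (lb * q)) * Real.exp (δ * (lb * q))) := by
          rw [← Real.exp_add, ← Real.exp_add]; ring_nf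
        rw [e1, ← hS]
        have e2 : 1 ≤ Real.exp ((1 - 2 * δ) * (lb * q)) := Real.one_le_exp (by
          apply mul_nonneg (by linarith) hlq.le)
        have e3 : 4 ≤ S := by
          have := Real.add_one_le_exp (δ * (lb * q))
          linarith
        have e4 : Real.exp ((1 - 2 * δ) * (lb * q)) * s ≤ Real.exp ((1 - 2 * δ) * (lb * q)) * S :=
          mul_le_mul_of_nonneg_left hsS (Real.exp_pos _).le
        have e5 : 1 ≤ Real.exp ((1 - 2 * δ) * (lb * q)) * S := by nlinarith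
        have e6 : Real.exp ((1 - 2 * δ) * (lb * q)) * S * 4 ≤
            Real.exp ((1 - 2 * δ) * (lb * q)) * S * S :=
          mul_le_mul_of_nonneg_left e3 (by positivity)
        nlinarith
      have hx0' : 0 < x := lt_of_lt_of_le (Real.exp_pos _) hxlow
      have hx1' : 1 < x := lt_of_lt_of_le (by
        have e1 := Real.add_one_le_exp ((1 - 2 * δ) * (lb * q))
        have e2 : δ * (lb * q) ≤ (1 - 2 * δ) * (lb * q) :=
          mul_le_mul_of_nonneg_right (by linarith) hlq.le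
        linarith : (1 : ℝ) < Real.exp ((1 - 2 * δ) * (lb * q))) hxlow
      have hxx0 : x0 ≤ x := by
        have e1 := Real.add_one_le_exp ((1 - 2 * δ) * (lb * q))
        have e2 : δ * (lb * q) ≤ (1 - 2 * δ) * (lb * q) :=
          mul_le_mul_of_nonneg_right (by linarith) hlq.le
        linarith
      have hlogx : Real.log x ≤ lb * q := by
        rw [Real.log_le_iff_le_exp hx0', ← hbq, hx, div_le_iff₀ hs0']
        have : (0 : ℝ) < (b : ℝ) ^ q := by positivity
        nlinarith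
      have hlogx0 : 0 < Real.log x := Real.log_pos hx1'
      have h3 := hx0 x hxx0
      rw [lt_div_iff₀ hx0'] at h3
      have h4 : (1 - δ) * x / (lb * q) ≤ (Nat.primeCounting (X / s) : ℝ) := by
        rw [hfl, div_le_iff₀ hlq]
        have : (Nat.primeCounting ⌊x⌋₊ : ℝ) * Real.log x ≤
          (Nat.primeCounting ⌊x⌋₊ : ℝ) * (lb * q) := mul_le_mul_of_nonneg_left hlogx (by positivity)
        linarith
      have h5 : (1 - δ) * (b : ℝ) ^ q * (s : ℝ)⁻¹ ≤ x := by
        rw [hx, div_eq_mul_inv]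
        exact mul_le_mul_of_nonneg_right hXge (by positivity)
      have h6 : (b : ℝ) ^ q * ((1 - δ) ^ 2 / (lb * q)) * (s : ℝ)⁻¹ ≤ (1 - δ) * x / (lb * q) := by
        have e1 : (b : ℝ) ^ q * ((1 - δ) ^ 2 / (lb * q)) * (s : ℝ)⁻¹ =
            (1 - δ) * ((1 - δ) * (b : ℝ) ^ q * (s : ℝ)⁻¹) / (lb * q) := by ring
        rw [e1]
        apply div_le_div_of_nonneg_right _ hlq.le
        exact mul_le_mul_of_nonneg_left h5 (by linarith)
      linarith
    · rw [if_neg hc, if_neg hc]
      simp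
  refine le_trans ?_ (Finset.sum_le_sum hterm)
  rw [Finset.sum_sub_distrib, ← Finset.mul_sum, Finset.sum_const, nsmul_eq_mul]
  have hcard : ((SMz q S).card : ℝ) * q ≤ S * q := by
    apply mul_le_mul_of_nonneg_right _ hq0.le
    have h5 : (SMz q S).card ≤ (Finset.Ioc 0 ⌊S⌋₊).card := by
      apply Finset.card_le_card
      intro n hn
      rw [mem_SMz hS0.le] at hn
      rw [Finset.mem_Ioc]
      exact ⟨SM_pos hn.1, (Nat.le_floor_iff hS0.le).2 hn.2⟩
    rw [Nat.card_Ioc, Nat.sub_zero] at h5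
    exact le_trans (by exact_mod_cast h5) (Nat.floor_le hS0.le)
  have hV := VB_le b q hS0
  have hSm : S ^ (-(1 / 2) : ℝ) = Real.exp (-(δ * (lb * q) / 2)) := by
    rw [hS, ← Real.exp_mul]; ring_nf
  rw [hSm] at hV
  have h7 : (b : ℝ) ^ q * ((1 - δ) ^ 2 / (lb * q)) *
      (VB b q - Real.exp (-(δ * (lb * q) / 2)) * ZZ q) ≤
      (b : ℝ) ^ q * ((1 - δ) ^ 2 / (lb * q)) * ∑ s ∈ SMz q S, copHom b s := by
    apply mul_le_mul_of_nonneg_left (by linarith)
    have : 0 ≤ (1 - δ) ^ 2 / (lb * q) := by positivity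
    positivity
  have h8 : (b : ℝ) ^ q * (q * Real.exp (-((1 - δ) * (lb * q)))) = S * q := by
    rw [hbq, hS]
    have : Real.exp (lb * q) * Real.exp (-((1 - δ) * (lb * q))) = Real.exp (δ * (lb * q)) := by
      rw [← Real.exp_add]; ring_nf
    rw [← this]; ring
  have e9 : (b : ℝ) ^ q * ((1 - δ) ^ 2 / (lb * q) *
      (VB b q - Real.exp (-(δ * (lb * q) / 2)) * ZZ q) - q * Real.exp (-((1 - δ) * (lb * q)))) =
      (b : ℝ) ^ q * ((1 - δ) ^ 2 / (lb * q)) *
      (VB b q - Real.exp (-(δ * (lb * q) / 2)) * ZZ q) -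
      (b : ℝ) ^ q * (q * Real.exp (-((1 - δ) * (lb * q)))) := by ring
  rw [e9, h8]
  linarith

end Pool.Agent.W66L
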