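import Pool.Agent.W66.LN
import Pool.Agent.H305R2.AE2

set_option autoImplicit false

/-!
# The limit of the mean
-/

open Filter Topology
open scoped Real

namespace Pool.Agent.W66L

open Pool.Agent.W66
open Pool.Agent.H305R2 (roughPart SM SM_pos SMz mem_SMz ZZ VV sum_rough_eq sum_le_VV tail_le
  ZZ_le_exp ZZ_nonneg VV_nonneg VV_tendsto log_nat_tendsto)

lemma tot_pow {b q : ℕ} (hb : 2 ≤ b) (hq : 1 ≤ q) :
    (((b ^ q).totient : ℕ) : ℝ) = (b : ℝ) ^ q * ((b.totient : ℝ) / b) := by
  have key : ∀ n : ℕ, ((n.totient : ℕ) : ℝ) = (n : ℝ) * ∏ p ∈ n.primeFactors, (1 - (p : ℝ)⁻¹) := by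
    intro n
    have := Nat.totient_eq_mul_prod_factors n
    have h2 : ((n.totient : ℚ) : ℝ) = (((n : ℚ) * ∏ p ∈ n.primeFactors, (1 - (p : ℚ)⁻¹) : ℚ) : ℝ) := by
      rw [this]
    push_cast at h2
    exact h2
  have hb0 : (b : ℝ) ≠ 0 := by
    have : (0 : ℝ) < b := by exact_mod_cast (by omega : 0 < b)
    exact this.ne'
  rw [key (b ^ q), key b, Nat.primeFactors_pow b (by omega)]
  push_cast
  field_simp

lemma tot_ratio_pos {b : ℕ} (hb : 2 ≤ b) : 0 < (b.totient : ℝ) / b := by
  have h1 : (0 : ℝ) < b := by exact_mod_cast (by omega : 0 < b)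
  have h2 : (0 : ℝ) < b.totient := by exact_mod_cast Nat.totient_pos.2 (by omega)
  positivity

lemma VB_tendsto {b : ℕ} (hb : 2 ≤ b) : Tendsto (fun q : ℕ => VB b q / Real.log q) atTop
    (𝓝 (Real.exp Real.eulerMascheroniConstant * ((b.totient : ℝ) / b))) := by
  refine (VV_tendsto.mul_const ((b.totient : ℝ) / b)).congr' ?_
  filter_upwards [eventually_ge_atTop b] with q hq
  rw [VB_eq hb hq]
  ring

lemma err_tendsto {c : ℝ} (hc : 0 < c) :
    Tendsto (fun q : ℕ => (q : ℝ) * (Real.exp (-(c * q)) * ZZ q)) atTop (𝓝 0) := by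
  have h3 := (Real.tendsto_pow_mul_exp_neg_atTop_nhds_zero 1).comp
    ((tendsto_natCast_atTop_atTop (R := ℝ)).const_mul_atTop (show 0 < c / 2 by positivity))
  have h4 : Tendsto (fun q : ℕ => (q : ℝ) * Real.exp (-(c / 2 * q))) atTop (𝓝 0) := by
    have h5 := h3.const_mul (1 / (c / 2))
    rw [mul_zero] at h5
    refine h5.congr fun q => ?_
    simp only [Function.comp, pow_one]
    field_simp
  refine squeeze_zero' ?_ ?_ h4
  · filter_upwards with q
    have := ZZ_nonneg q
    positivity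
  · filter_upwards [ZZ_le_exp (c := c / 2) (by positivity)] with q hq
    apply mul_le_mul_of_nonneg_left _ (Nat.cast_nonneg q)
    calc Real.exp (-(c * q)) * ZZ q ≤ Real.exp (-(c * q)) * Real.exp (c / 2 * q) := by gcongr
      _ = _ := by rw [← Real.exp_add]; ring_nf

lemma inv_log_tendsto : Tendsto (fun q : ℕ => (Real.log q)⁻¹) atTop (𝓝 0) :=
  tendsto_inv_atTop_zero.comp log_nat_tendsto

theorem AA_tendsto {b : ℕ} (hb : 2 ≤ b) :
    Tendsto (fun q : ℕ => AA b q / (b : ℝ) ^ q * (q / Real.log q)) atTop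
      (𝓝 (Real.exp Real.eulerMascheroniConstant * ((b.totient : ℝ) / b) / Real.log b)) := by
  set lb := Real.log b with hlb
  have hlb0 : 0 < lb := Real.log_pos (by exact_mod_cast hb)
  set V0 := Real.exp Real.eulerMascheroniConstant * ((b.totient : ℝ) / b) with hV0
  have hV := VB_tendsto hb
  rw [← hV0] at hV
  have hb0 : (0 : ℝ) < b := by exact_mod_cast (by omega : 0 < b)
  have hlogpos : ∀ᶠ q : ℕ in atTop, 0 < Real.log q := log_nat_tendsto.eventually_gt_atTop 0
  rw [tendsto_order]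
  constructor
  · intro a ha
    have hcont : Tendsto (fun δ : ℝ => (1 - δ) ^ 2 / lb * V0) (𝓝[>] 0) (𝓝 (V0 / lb)) := by
      have h1 : Continuous (fun δ : ℝ => (1 - δ) ^ 2 / lb * V0) := by fun_prop
      have h2 := (h1.tendsto 0).mono_left (nhdsWithin_le_nhds (s := Set.Ioi 0))
      have e : (1 - (0 : ℝ)) ^ 2 / lb * V0 = V0 / lb := by ring
      rwa [e] at h2
    have hev := (hcont.eventually_const_lt ha).and (Ioo_mem_nhdsGT (show (0 : ℝ) < 1 / 4 by norm_num))
    obtain ⟨δ, hδa, hδ0, hδ1⟩ := hev.exists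
    have hlim : Tendsto (fun q : ℕ => (1 - δ) ^ 2 / lb * (VB b q / Real.log q) -
        (1 - δ) ^ 2 / lb * ((q : ℝ) * (Real.exp (-(δ * lb / 2 * q)) * ZZ q)) * (Real.log q)⁻¹ * (q : ℝ)⁻¹ -
        ((q : ℝ) ^ 2 * Real.exp (-((1 - δ) * lb * q))) * (Real.log q)⁻¹) atTop
        (𝓝 ((1 - δ) ^ 2 / lb * V0 - (1 - δ) ^ 2 / lb * 0 * 0 * 0 - 0 * 0)) := by
      apply Tendsto.sub
      · apply Tendsto.sub
        · exact hV.const_mul _
        · exact (((err_tendsto (by positivity)).const_mul _).mul inv_log_tendsto).mul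
            (tendsto_inv_atTop_zero.comp tendsto_natCast_atTop_atTop)
      · apply Tendsto.mul _ inv_log_tendsto
        have hc : 0 < (1 - δ) * lb := mul_pos (by linarith) hlb0
        have h3 := (Real.tendsto_pow_mul_exp_neg_atTop_nhds_zero 2).comp
          ((tendsto_natCast_atTop_atTop (R := ℝ)).const_mul_atTop hc)
        have h5 := h3.const_mul (1 / ((1 - δ) * lb) ^ 2)
        rw [mul_zero] at h5
        refine h5.congr fun q => ?_
        simp only [Function.comp]
        have h1δ : (1 - δ) ≠ 0 := by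
          have : 0 < 1 - δ := by linarith
          exact this.ne'
        field_simp
    have e0 : (1 - δ) ^ 2 / lb * V0 - (1 - δ) ^ 2 / lb * 0 * 0 * 0 - 0 * 0 = (1 - δ) ^ 2 / lb * V0 := by
      ring
    rw [e0] at hlim
    filter_upwards [hlim.eventually_const_lt hδa, AA_lower hb hδ0 hδ1, hlogpos,
      eventually_ge_atTop 1] with q h1 h2 h3 h4
    refine h1.trans_le ?_
    have hq0 : (0 : ℝ) < q := by exact_mod_cast h4
    have hbq : (0 : ℝ) < (b : ℝ) ^ q := by positivity
    have h5 : (1 - δ) ^ 2 / (lb * q) * (VB b q - Real.exp (-(δ * (lb * q) / 2)) * ZZ q) -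
      q * Real.exp (-((1 - δ) * (lb * q))) ≤ AA b q / (b : ℝ) ^ q := by
      rw [le_div_iff₀ hbq, mul_comm]
      exact h2
    refine le_trans (le_of_eq ?_) (mul_le_mul_of_nonneg_right h5 (by positivity))
    have e1 : δ * (lb * q) / 2 = δ * lb / 2 * q := by ring
    have e2 : (1 - δ) * (lb * q) = (1 - δ) * lb * q := by ring
    rw [e1, e2]
    field_simp
  · intro a ha
    have hcont : Tendsto (fun δ : ℝ => (1 + δ) / ((1 - 2 * δ) * lb) * V0) (𝓝[>] 0) (𝓝 (V0 / lb)) := by
      have h1 : ContinuousAt (fun δ : ℝ => (1 + δ) / ((1 - 2 * δ) * lb) * V0) 0 := by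
        apply ContinuousAt.mul _ continuousAt_const
        apply ContinuousAt.div
        · fun_prop
        · fun_prop
        · simpa using hlb0.ne'
      have h2 := h1.tendsto.mono_left (nhdsWithin_le_nhds (s := Set.Ioi 0))
      have e : (1 + (0 : ℝ)) / ((1 - 2 * 0) * lb) * V0 = V0 / lb := by
        rw [add_zero, mul_zero, sub_zero, one_mul]; ring
      rwa [e] at h2
    have hev := (hcont.eventually_lt_const ha).and (Ioo_mem_nhdsGT (show (0 : ℝ) < 1 / 4 by norm_num))
    obtain ⟨δ, hδa, hδ0, hδ1⟩ := hev.exists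
    have hlim : Tendsto (fun q : ℕ => (1 + δ) / ((1 - 2 * δ) * lb) * (VB b q / Real.log q) +
        ((q : ℝ) * (Real.exp (-(δ * lb / 2 * q)) * ZZ q)) * (Real.log q)⁻¹) atTop
        (𝓝 ((1 + δ) / ((1 - 2 * δ) * lb) * V0 + 0 * 0)) := by
      apply Tendsto.add
      · exact hV.const_mul _
      · exact (err_tendsto (by positivity)).mul inv_log_tendsto
    rw [mul_zero, add_zero] at hlim
    filter_upwards [hlim.eventually_lt_const hδa, AA_upper hb hδ0 hδ1, hlogpos,
      eventually_ge_atTop 1] with q h1 h2 h3 h4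
    refine lt_of_le_of_lt ?_ h1
    have hq0 : (0 : ℝ) < q := by exact_mod_cast h4
    have hbq : (0 : ℝ) < (b : ℝ) ^ q := by positivity
    have h5 : AA b q / (b : ℝ) ^ q ≤ (1 + δ) / ((1 - 2 * δ) * (lb * q)) * VB b q +
      Real.exp (-(δ * (lb * q) / 2)) * ZZ q := by
      rw [div_le_iff₀ hbq, mul_comm]
      exact h2
    refine (mul_le_mul_of_nonneg_right h5 (by positivity)).trans (le_of_eq ?_)
    have e1 : δ * (lb * q) / 2 = δ * lb / 2 * q := by ring
    have e2 : (0 : ℝ) < 1 - 2 * δ := by linarith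
    rw [e1]
    field_simp

/-- the mean of the indicator -/
noncomputable def mq (b q : ℕ) : ℝ := AA b q / ((b ^ q).totient : ℝ)

lemma AA_nonneg (b q : ℕ) : 0 ≤ AA b q := by
  unfold AA
  exact Finset.sum_nonneg fun _ _ => by split_ifs <;> norm_num

lemma mq_nonneg (b q : ℕ) : 0 ≤ mq b q := div_nonneg (AA_nonneg b q) (Nat.cast_nonneg _)

theorem mq_tendsto {b : ℕ} (hb : 2 ≤ b) :
    Tendsto (fun q : ℕ => mq b q * (q / Real.log q)) atTop
      (𝓝 (Real.exp Real.eulerMascheroniConstant / Real.log b)) := by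
  have h1 := (AA_tendsto hb).mul_const ((b.totient : ℝ) / b)⁻¹
  have hr := tot_ratio_pos hb
  have e : Real.exp Real.eulerMascheroniConstant * ((b.totient : ℝ) / b) / Real.log b *
      ((b.totient : ℝ) / b)⁻¹ = Real.exp Real.eulerMascheroniConstant / Real.log b := by
    rw [mul_div_right_comm, mul_assoc, mul_inv_cancel₀ hr.ne', mul_one]
  rw [e] at h1
  refine h1.congr' ?_
  filter_upwards [eventually_ge_atTop 1] with q hq
  unfold mq
  rw [tot_pow hb hq]
  have hb0 : (0 : ℝ) < b := by exact_mod_cast (by omega : 0 < b)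
  have hφ : (0 : ℝ) < b.totient := by exact_mod_cast Nat.totient_pos.2 (by omega)
  field_simp

/-- order of magnitude of the mean -/
theorem mq_le {b : ℕ} (hb : 2 ≤ b) : ∃ K : ℝ, 0 < K ∧ ∀ᶠ q : ℕ in atTop,
    mq b q ≤ K * (Real.log q / q) := by
  have h := mq_tendsto hb
  have hlb0 : 0 < Real.log b := Real.log_pos (by exact_mod_cast hb)
  refine ⟨Real.exp Real.eulerMascheroniConstant / Real.log b + 1, by positivity, ?_⟩
  filter_upwards [h.eventually_lt_const (lt_add_one _), eventually_ge_atTop 1,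
    log_nat_tendsto.eventually_gt_atTop 0] with q h1 h2 h3
  have hq0 : (0 : ℝ) < q := by exact_mod_cast h2
  have e : mq b q = mq b q * (q / Real.log q) * (Real.log q / q) := by field_simp
  rw [e]
  exact mul_le_mul_of_nonneg_right h1.le (by positivity)

end Pool.Agent.W66L
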