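import Pool.Agent.W66.LO
import Pool.Agent.W66.RC

set_option autoImplicit false

/-!
# Near pairs for the low digits
-/

open Filter Topology Finset
open scoped Real
open Pool.Agent.Helper112.E456.SieveAux (DD)

namespace Pool.Agent.W66L

open Pool.Agent.W66
open Pool.Agent.H305R2 (roughPart roughPart_prime SM SM_pos SMz mem_SMz ZZ VV sum_rough_eq sum_le_VV
  tail_le ZZ_le_exp ZZ_nonneg VV_nonneg VV_tendsto log_nat_tendsto)

lemma near_t {b : ℕ} (hb : 2 ≤ b) : ∃ C : ℝ, 0 < C ∧ ∀ᶠ p : ℕ in atTop, ∀ h t : ℕ, h ≤ p → 0 < t →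
    t < b ^ h →
    (((Icc 1 (b ^ p)).filter (fun x : ℕ => Real.exp (3 * (Real.log b * p) / 4) ≤ x ∧
      ((roughPart p x).Prime ∧ ((x / roughPart p x : ℕ) : ℝ) < Real.exp (Real.log b * p / 2)) ∧
      ((roughPart (p + h) (x + b ^ p * t)).Prime ∧
        (((x + b ^ p * t) / roughPart (p + h) (x + b ^ p * t) : ℕ) : ℝ) <
          Real.exp (Real.log b * p / 2)))).card : ℝ) ≤
      C * (Real.log p / p) ^ 2 * (b : ℝ) ^ p := by
  obtain ⟨C0, hC0, hsv⟩ := sift_two
  obtain ⟨C1, hC1, hrat⟩ := ratio_bound hb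
  set lb := Real.log b with hlb
  have hlb0 : 0 < lb := Real.log_pos (by exact_mod_cast hb)
  refine ⟨C0 * (2 * C1) ^ 2 / lb ^ 2, by positivity, ?_⟩
  obtain ⟨P, hP⟩ := eventually_atTop.1 hrat
  filter_upwards [eventually_ge_atTop P, eventually_ge_atTop 2] with p hpP hp2 h t hhp ht htb
  have hp2' : (2 : ℝ) ≤ p := by exact_mod_cast hp2
  have hp0 : (0 : ℝ) < p := by linarith
  set q := p + h with hq
  have hbr : (2 : ℝ) ≤ b := by exact_mod_cast hb
  have hbp : (b : ℝ) ^ p = Real.exp (lb * p) := by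
    rw [mul_comm, Real.exp_nat_mul, hlb, Real.exp_log (by linarith)]
  have hH2 : 2 ≤ b ^ p := by
    calc 2 ≤ b ^ 1 := by simpa using hb
      _ ≤ b ^ p := Nat.pow_le_pow_right (by omega) (by omega)
  have htp : t < b ^ p := lt_of_lt_of_le htb (Nat.pow_le_pow_right (by omega) hhp)
  set S := (Icc 1 (b ^ p)).filter (fun x : ℕ => Real.exp (3 * (lb * p) / 4) ≤ x ∧
      ((roughPart p x).Prime ∧ ((x / roughPart p x : ℕ) : ℝ) < Real.exp (lb * p / 2)) ∧
      ((roughPart q (x + b ^ p * t)).Prime ∧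
        (((x + b ^ p * t) / roughPart q (x + b ^ p * t) : ℕ) : ℝ) <
          Real.exp (lb * p / 2))) with hS
  have hq2 : 2 ≤ q := by omega
  have hM0 : MM q b p t ≠ 0 := MM_ne hb ht
  have hDD : DD 1 0 1 (b ^ p * t) ∣ MM q b p t := by
    have e : DD 1 0 1 (b ^ p * t) = b ^ p * t := by
      unfold DD
      have e2 : ((((1 * (b ^ p * t) : ℕ) : ℤ)) - ((1 * 0 : ℕ) : ℤ)) = ((b ^ p * t : ℕ) : ℤ) := by
        push_cast; ring
      rw [e2, Int.natAbs_natCast, one_mul, one_mul]
    rw [e]; unfold MM; exact dvd_mul_left _ _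
  have hcastN : ((b ^ p : ℕ) : ℝ) = (b : ℝ) ^ p := by push_cast; rfl
  have hz : ((b ^ p : ℕ) : ℝ) ^ ((1 : ℝ) / 8) = Real.exp (lb * p / 8) := by
    rw [hcastN, hbp, ← Real.exp_mul]; ring_nf
  have hzS : Real.exp (lb * p / 8) * Real.exp (lb * p / 2) ≤ Real.exp (3 * (lb * p) / 4) := by
    rw [← Real.exp_add]
    apply Real.exp_le_exp.2
    have : 0 < lb * p := by positivity
    linarith
  have hmain := hsv 1 0 1 (b ^ p * t) (b ^ p) (MM q b p t) one_pos one_pos
    (two_dvd_MM hq2) hM0 hDD hH2 S (filter_subset _ _) (by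
      intro n hn l hl hlz hlM
      have hql := lt_of_not_dvd_MM hl hlM
      rw [hS, mem_filter, mem_Icc] at hn
      obtain ⟨⟨hn1, _⟩, hn2, hn3, hn4⟩ := hn
      rw [hz] at hlz
      have e1 : 1 * n + 0 = n := by ring
      have e2 : 1 * n + b ^ p * t = n + b ^ p * t := by ring
      rw [e1, e2]
      constructor
      · exact no_mid_prime hn3.1 hn3.2 (hzS.trans hn2) hl (by omega) hlz
      · have : (n : ℝ) ≤ ((n + b ^ p * t : ℕ) : ℝ) := by
          push_cast
          have : (0 : ℝ) ≤ (b : ℝ) ^ p * t := by positivity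
          linarith
        exact no_mid_prime hn4.1 hn4.2 ((hzS.trans hn2).trans this) hl hql hlz)
  have hr1 := hP q (by omega) p t (by omega) ht htp
  have hlq : Real.log q ≤ 2 * Real.log p := by
    have hq2p : (q : ℝ) ≤ p * p := by
      have : q ≤ p * p := by nlinarith
      exact_mod_cast this
    calc Real.log q ≤ Real.log (p * p) := Real.log_le_log (by positivity) hq2p
      _ = 2 * Real.log p := by rw [Real.log_mul hp0.ne' hp0.ne']; ring
  have hlq0 : 0 ≤ Real.log q := Real.log_natCast_nonneg q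
  have hlp0 : 0 ≤ Real.log p := Real.log_natCast_nonneg p
  have hr2 : ((MM q b p t : ℕ) : ℝ) / (Nat.totient (MM q b p t) : ℝ) ≤ 2 * C1 * Real.log p := by
    calc _ ≤ C1 * Real.log q := hr1
      _ ≤ C1 * (2 * Real.log p) := by gcongr
      _ = _ := by ring
  have hr0 : 0 ≤ ((MM q b p t : ℕ) : ℝ) / (Nat.totient (MM q b p t) : ℝ) := by positivity
  have hlogH : Real.log ((b ^ p : ℕ) : ℝ) = lb * p := by
    rw [hcastN, hbp, Real.log_exp]
  have hlbp : 0 < lb * p := by positivity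
  calc (S.card : ℝ) ≤ C0 * (((MM q b p t : ℕ) : ℝ) / (Nat.totient (MM q b p t) : ℝ)) ^ 2 *
        (b ^ p : ℕ) / (Real.log ((b ^ p : ℕ) : ℝ)) ^ 2 := hmain
    _ ≤ C0 * (2 * C1 * Real.log p) ^ 2 * (b ^ p : ℕ) / (lb * p) ^ 2 := by
        rw [hlogH]
        gcongr
    _ = _ := by rw [hcastN]; field_simp

/-- the joint count -/
noncomputable def JC (b p q : ℕ) : ℝ :=
  ∑ m ∈ (range (b ^ q)).filter (fun m => m.Coprime b), rpi p (m % b ^ p) * rpi q m

lemma rpi_nonneg (q m : ℕ) : 0 ≤ rpi q m := by unfold rpi; split_ifs <;> norm_num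

lemma rpi_le_one (q m : ℕ) : rpi q m ≤ 1 := by unfold rpi; split_ifs <;> norm_num

lemma rpi_zero (q : ℕ) : rpi q 0 = 0 := by
  unfold rpi
  rw [if_neg]
  unfold roughPart
  simp [Nat.not_prime_one]

lemma AA_eq_range (b q : ℕ) : AA b q =
    ∑ m ∈ (range (b ^ q)).filter (fun m => m.Coprime b), rpi q m := by
  unfold AA
  rw [Finset.sum_filter, Finset.sum_filter]
  have h1 : ∑ m ∈ range (b ^ q), (if m.Coprime b then rpi q m else 0) =
      ∑ m ∈ Ioc 0 (b ^ q - 1), (if m.Coprime b then rpi q m else 0) := by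
    symm
    apply Finset.sum_subset
    · intro m hm
      rw [mem_Ioc] at hm
      rw [mem_range]
      omega
    · intro m hm hm'
      rw [mem_range] at hm
      rw [mem_Ioc] at hm'
      have : m = 0 := by omega
      rw [this, rpi_zero, ite_self]
  rw [h1]
  refine Finset.sum_congr rfl fun m _ => ?_
  unfold rpi
  by_cases h2 : (roughPart q m).Prime
  · rw [if_pos h2, if_pos h2]
  · rw [if_neg h2, if_neg h2, ite_self]

lemma exp_small2 {c : ℝ} (hc : 0 < c) : ∀ᶠ p : ℕ in atTop, Real.exp (-(c * p)) ≤ (Real.log p / p) ^ 2 := by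
  have h3 := (Real.tendsto_pow_mul_exp_neg_atTop_nhds_zero 2).comp
    ((tendsto_natCast_atTop_atTop (R := ℝ)).const_mul_atTop hc)
  filter_upwards [h3.eventually_lt_const (show 0 < c ^ 2 by positivity),
    log_nat_tendsto.eventually_ge_atTop 1, eventually_ge_atTop 1] with p hp hl hp1
  have hp0 : (0 : ℝ) < p := by exact_mod_cast hp1
  simp only [Function.comp] at hp
  rw [div_pow, le_div_iff₀ (by positivity)]
  have h4 : (c * p) ^ 2 * Real.exp (-(c * p)) = c ^ 2 * (Real.exp (-(c * p)) * p ^ 2) := by ring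
  rw [h4] at hp
  have h5 : Real.exp (-(c * p)) * (p : ℝ) ^ 2 < 1 := by
    by_contra hcon
    push Not at hcon
    have : 0 < c ^ 2 := by positivity
    nlinarith
  nlinarith

theorem near_count {b : ℕ} (hb : 2 ≤ b) : ∃ K : ℝ, 0 < K ∧ ∀ᶠ p : ℕ in atTop, ∀ q : ℕ, p < q →
    q ≤ 2 * p → JC b p q ≤ AA b p + K * (b : ℝ) ^ q * (Real.log p / p) ^ 2 := by
  classical
  set lb := Real.log b with hlb
  have hlb0 : 0 < lb := Real.log_pos (by exact_mod_cast hb)
  obtain ⟨C, hC, hnt⟩ := near_t hb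
  obtain ⟨P3, hP3⟩ := eventually_atTop.1 (ZZ_le_exp (c := lb / 16) (by positivity))
  have hsm := exp_small2 (c := lb / 8) (by positivity)
  refine ⟨C + 4, by positivity, ?_⟩
  filter_upwards [hnt, eventually_ge_atTop P3, hsm, eventually_ge_atTop 2] with p hntp hpP3 hsmp hp2
    q hpq hq2p
  obtain ⟨h, rfl⟩ := Nat.exists_eq_add_of_le hpq.le
  have hhp : h ≤ p := by omega
  have hp0 : (0 : ℝ) < p := by exact_mod_cast (by omega : 0 < p)
  have hbr : (2 : ℝ) ≤ b := by exact_mod_cast hb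
  have hb0 : 0 < b := by omega
  have hbp : (b : ℝ) ^ p = Real.exp (lb * p) := by
    rw [mul_comm, Real.exp_nat_mul, hlb, Real.exp_log (by linarith)]
  set q := p + h with hq
  have hlbp : 0 < lb * p := by positivity
  set S := Real.exp (lb * p / 2) with hS
  have hS0 : 0 < S := Real.exp_pos _
  have hSm : S ^ (-(1 / 2) : ℝ) = Real.exp (-(lb * p / 4)) := by
    rw [hS, ← Real.exp_mul]; ring_nf
  have hqr : (q : ℝ) ≤ 2 * p := by exact_mod_cast hq2p
  have hdecay : ∀ m : ℕ, p ≤ m → (m : ℝ) ≤ 2 * p →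
      S ^ (-(1 / 2) : ℝ) * ZZ m ≤ (Real.log p / p) ^ 2 := by
    intro m hpm hm
    rw [hSm]
    calc Real.exp (-(lb * p / 4)) * ZZ m ≤ Real.exp (-(lb * p / 4)) * Real.exp (lb / 16 * m) :=
          mul_le_mul_of_nonneg_left (hP3 m (by omega)) (Real.exp_pos _).le
      _ = Real.exp (-(lb * p / 4) + lb / 16 * m) := (Real.exp_add _ _).symm
      _ ≤ Real.exp (-(lb / 8 * p)) := by
          rw [Real.exp_le_exp]
          nlinarith
      _ ≤ _ := hsmp
  have hw0 : 0 ≤ (Real.log p / p) ^ 2 := by positivity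
  set N := b ^ p with hN
  have hN0 : 0 < N := by positivity
  have hNr : (N : ℝ) = (b : ℝ) ^ p := by rw [hN]; push_cast; rfl
  have hqN : b ^ q = N * b ^ h := by rw [hq, pow_add]
  have hqNr : (b : ℝ) ^ q = (N : ℝ) * (b : ℝ) ^ h := by rw [hNr, hq, pow_add]
  -- the set of pairs
  set T := (range (b ^ q)).filter (fun m => m.Coprime b ∧ (roughPart p (m % N)).Prime ∧
    (roughPart q m).Prime) with hT
  have hJC : JC b p q = (T.card : ℝ) := by
    unfold JC
    rw [hT, Finset.card_eq_sum_ones, Finset.sum_filter, Finset.sum_filter]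
    push_cast
    refine Finset.sum_congr rfl fun m _ => ?_
    unfold rpi
    have e2 : m % b ^ p = m % N := rfl
    rw [e2]
    by_cases h1 : m.Coprime b <;> by_cases h2 : (roughPart p (m % N)).Prime <;>
      by_cases h3 : (roughPart q m).Prime <;> simp [h1, h2, h3]
  rw [hJC]
  set T0 := T.filter (fun m => m / N = 0) with hT0
  set T1 := T.filter (fun m => ((m % N : ℕ) : ℝ) < Real.exp (3 * (lb * p) / 4)) with hT1
  set T2 := T.filter (fun m => S ≤ (((m % N) / roughPart p (m % N) : ℕ) : ℝ)) with hT2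
  set T3 := T.filter (fun m => S ≤ ((m / roughPart q m : ℕ) : ℝ)) with hT3
  set T4 := T.filter (fun m => m / N ≠ 0 ∧ Real.exp (3 * (lb * p) / 4) ≤ ((m % N : ℕ) : ℝ) ∧
    (((m % N) / roughPart p (m % N) : ℕ) : ℝ) < S ∧ ((m / roughPart q m : ℕ) : ℝ) < S) with hT4
  have hTsub : T ⊆ (((T0 ∪ T1) ∪ T2) ∪ T3) ∪ T4 := by
    intro m hm
    simp only [mem_union]
    by_cases h0 : m / N = 0
    · left; left; left; left; exact mem_filter.2 ⟨hm, h0⟩
    by_cases h1 : ((m % N : ℕ) : ℝ) < Real.exp (3 * (lb * p) / 4)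
    · left; left; left; right; exact mem_filter.2 ⟨hm, h1⟩
    by_cases h2 : S ≤ (((m % N) / roughPart p (m % N) : ℕ) : ℝ)
    · left; left; right; exact mem_filter.2 ⟨hm, h2⟩
    by_cases h3 : S ≤ ((m / roughPart q m : ℕ) : ℝ)
    · left; right; exact mem_filter.2 ⟨hm, h3⟩
    · right
      exact mem_filter.2 ⟨hm, h0, not_lt.1 h1, not_le.1 h2, not_le.1 h3⟩
  have hmemT : ∀ m ∈ T, m < b ^ q ∧ m.Coprime b ∧ (roughPart p (m % N)).Prime ∧
      (roughPart q m).Prime := by
    intro m hm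
    rw [hT, mem_filter, mem_range] at hm
    exact hm
  have hpos1 : ∀ m : ℕ, (roughPart p m).Prime → 1 ≤ m := by
    intro m hm
    rcases Nat.eq_zero_or_pos m with h0 | h0
    · exfalso
      rw [h0] at hm
      unfold roughPart at hm
      simp [Nat.not_prime_one] at hm
    · exact h0
  have hpos2 : ∀ m : ℕ, (roughPart q m).Prime → 1 ≤ m := by
    intro m hm
    rcases Nat.eq_zero_or_pos m with h0 | h0
    · exfalso
      rw [h0] at hm
      unfold roughPart at hm
      simp [Nat.not_prime_one] at hm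
    · exact h0
  -- T0
  have c0 : (T0.card : ℝ) ≤ AA b p := by
    rw [AA_eq_range]
    have h1 : ∑ m ∈ (range (b ^ p)).filter (fun m => m.Coprime b), rpi p m =
        (((range (b ^ p)).filter (fun m => m.Coprime b ∧ (roughPart p m).Prime)).card : ℝ) := by
      rw [Finset.card_eq_sum_ones, Finset.sum_filter, Finset.sum_filter]
      push_cast
      refine Finset.sum_congr rfl fun m _ => ?_
      unfold rpi
      by_cases h1 : m.Coprime b
      · by_cases h2 : (roughPart p m).Prime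
        · rw [if_pos h1, if_pos h2, if_pos ⟨h1, h2⟩]
        · rw [if_pos h1, if_neg h2, if_neg fun h9 => h2 h9.2]
      · rw [if_neg h1, if_neg fun h9 => h1 h9.1]
    rw [h1]
    have h2 : T0 ⊆ (range (b ^ p)).filter (fun m => m.Coprime b ∧ (roughPart p m).Prime) := by
      intro m hm
      rw [hT0, mem_filter] at hm
      obtain ⟨hm1, hm2⟩ := hm
      obtain ⟨_, h3, h4, _⟩ := hmemT m hm1
      have h5 : m < N := by
        rcases (Nat.div_eq_zero_iff).1 hm2 with h6 | h6
        · omega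
        · exact h6
      rw [mem_filter, mem_range]
      rw [Nat.mod_eq_of_lt h5] at h4
      exact ⟨h5, h3, h4⟩
    exact_mod_cast Finset.card_le_card h2
  -- pairs
  have hpair : ∀ (U : Finset ℕ) (F : Finset ℕ), (∀ m ∈ U, m < b ^ q ∧ m % N ∈ F) →
      (U.card : ℝ) ≤ (F.card : ℝ) * (b : ℝ) ^ h := by
    intro U F hUF
    have hinj : Set.InjOn (fun m : ℕ => (m % N, m / N)) (U : Set ℕ) := by
      intro m _ m' _ hmm
      simp only [Prod.mk.injEq] at hmm
      rw [← Nat.mod_add_div m N, ← Nat.mod_add_div m' N, hmm.1, hmm.2]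
    have hsub : U.image (fun m : ℕ => (m % N, m / N)) ⊆ F ×ˢ (range (b ^ h)) := by
      intro x hx
      rw [mem_image] at hx
      obtain ⟨m, hm, rfl⟩ := hx
      rw [mem_product, mem_range]
      refine ⟨(hUF m hm).2, ?_⟩
      rw [Nat.div_lt_iff_lt_mul hN0, mul_comm, ← hqN]
      exact (hUF m hm).1
    have h1 := Finset.card_le_card hsub
    rw [Finset.card_image_of_injOn hinj, card_product, card_range] at h1
    calc (U.card : ℝ) ≤ ((F.card * b ^ h : ℕ) : ℝ) := by exact_mod_cast h1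
      _ = _ := by push_cast; ring
  have hexpw : Real.exp (-(lb * p / 4)) ≤ (Real.log p / p) ^ 2 := by
    refine le_trans (Real.exp_le_exp.2 ?_) hsmp
    linarith
  -- T1
  have c1 : (T1.card : ℝ) ≤ (b : ℝ) ^ q * (Real.log p / p) ^ 2 := by
    have h1 := hpair T1 (Ioc 0 ⌊Real.exp (3 * (lb * p) / 4)⌋₊) (by
      intro m hm
      rw [hT1, mem_filter] at hm
      obtain ⟨h3, h4, h5, _⟩ := hmemT m hm.1
      refine ⟨h3, ?_⟩
      rw [mem_Ioc]
      refine ⟨hpos1 _ h5, ?_⟩
      rw [Nat.le_floor_iff (Real.exp_pos _).le]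
      exact hm.2.le)
    rw [Nat.card_Ioc, Nat.sub_zero] at h1
    refine h1.trans ?_
    rw [hqNr]
    have h2 : (⌊Real.exp (3 * (lb * p) / 4)⌋₊ : ℝ) ≤ N * (Real.log p / p) ^ 2 := by
      refine (Nat.floor_le (Real.exp_pos _).le).trans ?_
      calc Real.exp (3 * (lb * p) / 4) = N * Real.exp (-(lb * p / 4)) := by
            rw [hNr, hbp, ← Real.exp_add]; ring_nf
        _ ≤ _ := mul_le_mul_of_nonneg_left hexpw (by positivity)
    calc (⌊Real.exp (3 * (lb * p) / 4)⌋₊ : ℝ) * (b : ℝ) ^ h ≤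
        N * (Real.log p / p) ^ 2 * (b : ℝ) ^ h := mul_le_mul_of_nonneg_right h2 (by positivity)
      _ = _ := by ring
  -- T2
  have c2 : (T2.card : ℝ) ≤ (b : ℝ) ^ q * (Real.log p / p) ^ 2 := by
    have h1 := hpair T2 ((Icc 1 N).filter (fun m => (roughPart p m).Prime ∧
      S ≤ ((m / roughPart p m : ℕ) : ℝ))) (by
      intro m hm
      rw [hT2, mem_filter] at hm
      obtain ⟨h3, h4, h5, _⟩ := hmemT m hm.1
      refine ⟨h3, ?_⟩
      rw [mem_filter, mem_Icc]
      exact ⟨⟨hpos1 _ h5, (Nat.mod_lt _ hN0).le⟩, h5, hm.2⟩)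
    refine h1.trans ?_
    rw [hqNr]
    have h2 := large_smooth_count p N hS0
    have h3 := hdecay p le_rfl (by linarith)
    calc _ ≤ (N * (S ^ (-(1 / 2) : ℝ) * ZZ p)) * (b : ℝ) ^ h :=
          mul_le_mul_of_nonneg_right h2 (by positivity)
      _ ≤ (N * (Real.log p / p) ^ 2) * (b : ℝ) ^ h := by gcongr
      _ = _ := by ring
  -- T3
  have c3 : (T3.card : ℝ) ≤ (b : ℝ) ^ q * (Real.log p / p) ^ 2 := by
    have h1 : T3 ⊆ (Icc 1 (b ^ q)).filter (fun m => (roughPart q m).Prime ∧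
      S ≤ ((m / roughPart q m : ℕ) : ℝ)) := by
      intro m hm
      rw [hT3, mem_filter] at hm
      obtain ⟨h3, h4, _, h5⟩ := hmemT m hm.1
      rw [mem_filter, mem_Icc]
      exact ⟨⟨hpos2 _ h5, h3.le⟩, h5, hm.2⟩
    have h2 := large_smooth_count q (b ^ q) hS0
    have h3 := hdecay q (by omega) hqr
    calc (T3.card : ℝ) ≤ _ := by exact_mod_cast Finset.card_le_card h1
      _ ≤ ((b ^ q : ℕ) : ℝ) * (S ^ (-(1 / 2) : ℝ) * ZZ q) := h2
      _ ≤ ((b ^ q : ℕ) : ℝ) * (Real.log p / p) ^ 2 := by gcongr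
      _ = _ := by push_cast; ring
  -- T4
  have c4 : (T4.card : ℝ) ≤ C * (b : ℝ) ^ q * (Real.log p / p) ^ 2 := by
    have h1 := Finset.card_eq_sum_card_fiberwise (f := fun m : ℕ => m / N) (s := T4)
      (t := range (b ^ h)) (by
        intro m hm
        have hm' := (mem_filter.1 (Finset.mem_coe.1 hm)).1
        rw [Finset.mem_coe, mem_range, Nat.div_lt_iff_lt_mul hN0, mul_comm, ← hqN]
        exact (hmemT m hm').1)
    rw [h1]
    push_cast
    have h2 : ∀ t ∈ range (b ^ h), ((T4.filter (fun m => m / N = t)).card : ℝ) ≤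
        C * (Real.log p / p) ^ 2 * (b : ℝ) ^ p := by
      intro t ht
      rw [mem_range] at ht
      rcases Nat.eq_zero_or_pos t with h0 | h0
      · have : T4.filter (fun m => m / N = t) = ∅ := by
          rw [Finset.filter_eq_empty_iff]
          intro m hm hmt
          rw [hT4, mem_filter] at hm
          exact hm.2.1 (hmt.trans h0)
        rw [this]
        simp only [Finset.card_empty, Nat.cast_zero]
        positivity
      · refine le_trans ?_ (hntp h t hhp h0 ht)
        have hinj3 : Set.InjOn (fun m : ℕ => m % N) (T4.filter (fun m => m / N = t) : Set ℕ) := by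
          intro m hm m' hm' hmm
          rw [Finset.mem_coe, mem_filter] at hm hm'
          simp only at hmm
          rw [← Nat.mod_add_div m N, ← Nat.mod_add_div m' N, hmm, hm.2, hm'.2]
        rw [← Finset.card_image_of_injOn hinj3]
        have hsub : (T4.filter (fun m => m / N = t)).image (fun m : ℕ => m % N) ⊆
            (Icc 1 (b ^ p)).filter (fun x : ℕ => Real.exp (3 * (lb * p) / 4) ≤ x ∧
      ((roughPart p x).Prime ∧ ((x / roughPart p x : ℕ) : ℝ) < Real.exp (lb * p / 2)) ∧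
      ((roughPart (p + h) (x + b ^ p * t)).Prime ∧
        (((x + b ^ p * t) / roughPart (p + h) (x + b ^ p * t) : ℕ) : ℝ) <
          Real.exp (lb * p / 2))) := by
          intro x hx
          rw [mem_image] at hx
          obtain ⟨m, hm, rfl⟩ := hx
          rw [mem_filter, hT4, mem_filter] at hm
          obtain ⟨⟨hmT, hm1, hm2, hm3, hm4⟩, hm5⟩ := hm
          obtain ⟨h3, h4, h5, h6⟩ := hmemT m hmT
          have e : m % N + b ^ p * t = m := by rw [← hm5, ← hN]; exact Nat.mod_add_div m N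
          rw [mem_filter, mem_Icc, e]
          exact ⟨⟨hpos1 _ h5, (Nat.mod_lt _ hN0).le⟩, hm2, ⟨h5, hm3⟩, h6, hm4⟩
        exact_mod_cast Finset.card_le_card hsub
    calc ∑ t ∈ range (b ^ h), ((T4.filter (fun m => m / N = t)).card : ℝ) ≤
          ∑ t ∈ range (b ^ h), C * (Real.log p / p) ^ 2 * (b : ℝ) ^ p := Finset.sum_le_sum h2
      _ = _ := by
          rw [Finset.sum_const, card_range, nsmul_eq_mul, hqNr, hNr]
          push_cast
          ring
  have hcard : (T.card : ℝ) ≤ T0.card + T1.card + T2.card + T3.card + T4.card := by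
    have h1 := Finset.card_le_card hTsub
    have h2 := Finset.card_union_le (((T0 ∪ T1) ∪ T2) ∪ T3) T4
    have h3 := Finset.card_union_le ((T0 ∪ T1) ∪ T2) T3
    have h4 := Finset.card_union_le (T0 ∪ T1) T2
    have h5 := Finset.card_union_le T0 T1
    exact_mod_cast (by omega : T.card ≤ T0.card + T1.card + T2.card + T3.card + T4.card)
  have hY0 : 0 ≤ (b : ℝ) ^ q * (Real.log p / p) ^ 2 := by positivity
  calc (T.card : ℝ) ≤ AA b p + (b : ℝ) ^ q * (Real.log p / p) ^ 2 +
        (b : ℝ) ^ q * (Real.log p / p) ^ 2 + (b : ℝ) ^ q * (Real.log p / p) ^ 2 +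
        C * (b : ℝ) ^ q * (Real.log p / p) ^ 2 := by linarith
    _ ≤ _ := by nlinarith

end Pool.Agent.W66L
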