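import Pool.Agent.W66.LP
import Pool.Agent.W38.PRb

set_option autoImplicit false

/-!
# Pairs with `2 p ≤ q` for the low digits
-/

open Filter Topology Finset
open scoped Real

namespace Pool.Agent.W66L

open Pool.Agent.W66
open Pool.Agent.H305R2 (roughPart roughPart_prime SM SM_pos SMz mem_SMz ZZ VV sum_rough_eq sum_le_VV
  tail_le ZZ_le_exp ZZ_nonneg VV_nonneg VV_tendsto log_nat_tendsto)

/-- the reduced residues below `b ^ p` -/
def UU (b p : ℕ) : Finset ℕ := (range (b ^ p)).filter (fun m => m.Coprime b)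

lemma mem_UU {b p m : ℕ} : m ∈ UU b p ↔ m < b ^ p ∧ m.Coprime b := by
  unfold UU; rw [mem_filter, mem_range]

lemma mod_coprime {b p m : ℕ} (hp : 1 ≤ p) : (m % b ^ p).Coprime b ↔ m.Coprime b := by
  have h1 : m % b ^ p ≡ m [MOD b] := Nat.mod_mod_of_dvd m (dvd_pow_self b (by omega))
  rw [Nat.Coprime, Nat.Coprime, h1.gcd_eq]

lemma perm_sum {b p s : ℕ} (hb : 2 ≤ b) (hp : 1 ≤ p) (hs : s.Coprime b) (f : ℕ → ℝ)
    (hf : ∀ x, 0 ≤ f x) :
    ∑ c ∈ UU b p, f ((s * c) % b ^ p) ≤ ∑ c ∈ UU b p, f c := by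
  have hinj : Set.InjOn (fun c => (s * c) % b ^ p) (UU b p : Set ℕ) := by
    intro c hc d hd hcd
    rw [Finset.mem_coe, mem_UU] at hc hd
    have h1 : s * c ≡ s * d [MOD b ^ p] := hcd
    have h2 : c ≡ d [MOD b ^ p] :=
      Nat.ModEq.cancel_left_of_coprime (by
        rw [Nat.gcd_comm]
        exact Nat.Coprime.pow_right p hs) h1
    have h3 : c % b ^ p = d % b ^ p := h2
    rwa [Nat.mod_eq_of_lt hc.1, Nat.mod_eq_of_lt hd.1] at h3
  rw [← Finset.sum_image (f := f) hinj]
  apply Finset.sum_le_sum_of_subset_of_nonneg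
  · intro x hx
    rw [mem_image] at hx
    obtain ⟨c, hc, rfl⟩ := hx
    rw [mem_UU] at hc ⊢
    refine ⟨Nat.mod_lt _ (by positivity), ?_⟩
    rw [mod_coprime hp]
    exact Nat.Coprime.mul_left hs hc.2
  · intro i _ _
    exact hf i

lemma bt_class {b p M c : ℕ} (hb : 2 ≤ b) (hp : 1 ≤ p) (hM : b ^ p ≤ M) :
    (((Ioc 0 M).filter (fun l => l.Prime ∧ l % b ^ p = c)).card : ℝ) ≤
      20 * ((b : ℝ) / b.totient) * (((M / b ^ p + 1 : ℕ) : ℝ) / Real.log ((M / b ^ p + 1 : ℕ) : ℝ)) := by
  have hQ : 1 ≤ b ^ p := Nat.one_le_pow _ _ (by omega)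
  have hN : 2 ≤ M / b ^ p + 1 := by
    have : 1 ≤ M / b ^ p := (Nat.one_le_div_iff hQ).2 hM
    omega
  have h1 := Pool.Agent.W38.PR.bt_unif (a := c) (q := b ^ p) (N := M / b ^ p + 1) hQ hN
  have h2 : (((b ^ p : ℕ) : ℝ) / Nat.totient (b ^ p)) = (b : ℝ) / b.totient := by
    rw [tot_pow hb hp]
    have hb0 : (0 : ℝ) < b := by exact_mod_cast (by omega : 0 < b)
    have hφ : (0 : ℝ) < b.totient := by exact_mod_cast Nat.totient_pos.2 (by omega)
    push_cast
    field_simp
  rw [h2] at h1
  refine le_trans ?_ h1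
  have hinj : Set.InjOn (fun l => l / b ^ p)
      ((Ioc 0 M).filter (fun l => l.Prime ∧ l % b ^ p = c) : Set ℕ) := by
    intro l hl l' hl' h
    rw [Finset.mem_coe, mem_filter] at hl hl'
    simp only at h
    rw [← Nat.mod_add_div l (b ^ p), ← Nat.mod_add_div l' (b ^ p), h, hl.2.2, hl'.2.2]
  rw [← Finset.card_image_of_injOn hinj]
  have hsub : ((Ioc 0 M).filter (fun l => l.Prime ∧ l % b ^ p = c)).image (fun l => l / b ^ p) ⊆
      (range (M / b ^ p + 1)).filter (fun k => (c + k * b ^ p).Prime) := by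
    intro k hk
    rw [mem_image] at hk
    obtain ⟨l, hl, rfl⟩ := hk
    rw [mem_filter, mem_Ioc] at hl
    rw [mem_filter, mem_range]
    refine ⟨?_, ?_⟩
    · have := Nat.div_le_div_right (c := b ^ p) hl.1.2
      omega
    · have e : c + l / b ^ p * b ^ p = l := by
        rw [← hl.2.2, mul_comm]; exact Nat.mod_add_div l (b ^ p)
      rw [e]
      exact hl.2.1
  exact_mod_cast Finset.card_le_card hsub

theorem mid_count {b : ℕ} (hb : 2 ≤ b) : ∃ K : ℝ, 0 < K ∧ ∀ᶠ p : ℕ in atTop, ∀ q : ℕ,
    2 * p ≤ q → JC b p q ≤ K * (b : ℝ) ^ q * ((Real.log p / p) * (Real.log q / q)) := by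
  classical
  set lb := Real.log b with hlb
  have hlb0 : 0 < lb := Real.log_pos (by exact_mod_cast hb)
  obtain ⟨K1, hK1, hmq⟩ := mq_le hb
  obtain ⟨C, hC, hVV⟩ := VV_le_log
  obtain ⟨P2, hP2⟩ := eventually_atTop.1 hVV
  obtain ⟨P3, hP3⟩ := eventually_atTop.1 (ZZ_le_exp (c := lb / 16) (by positivity))
  obtain ⟨P4, hP4⟩ := eventually_atTop.1 (exp_small2 (c := lb / 16) (by positivity))
  obtain ⟨P5, hP5⟩ := eventually_atTop.1 ((tendsto_natCast_atTop_atTop (R := ℝ)).eventually_ge_atTop
    (24 / lb))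
  have hb0 : (0 : ℝ) < b := by exact_mod_cast (by omega : 0 < b)
  have hφ : (0 : ℝ) < b.totient := by exact_mod_cast Nat.totient_pos.2 (by omega)
  refine ⟨320 / lb * C * K1 + 1, by positivity, ?_⟩
  filter_upwards [hmq, eventually_ge_atTop P2, eventually_ge_atTop P3, eventually_ge_atTop P4,
    eventually_ge_atTop P5, eventually_ge_atTop 3, eventually_ge_atTop b] with p f1 f2 f3 f4 f5 f6 f7
    q hq
  have hp0 : (0 : ℝ) < p := by exact_mod_cast (by omega : 0 < p)
  have hq0 : (0 : ℝ) < q := by exact_mod_cast (by omega : 0 < q)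
  have hbr : (2 : ℝ) ≤ b := by exact_mod_cast hb
  have hbq : (b : ℝ) ^ q = Real.exp (lb * q) := by
    rw [mul_comm, Real.exp_nat_mul, hlb, Real.exp_log (by linarith)]
  have hbp : (b : ℝ) ^ p = Real.exp (lb * p) := by
    rw [mul_comm, Real.exp_nat_mul, hlb, Real.exp_log (by linarith)]
  have hlq24 : 24 ≤ lb * q := by
    have := hP5 q (by omega)
    rwa [div_le_iff₀ hlb0, mul_comm] at this
  have hlq : 0 < lb * q := by positivity
  have hlogp0 : 0 ≤ Real.log p := Real.log_natCast_nonneg p
  have hlogq0 : 0 ≤ Real.log q := Real.log_natCast_nonneg q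
  have hpq2 : 2 * (p : ℝ) ≤ q := by exact_mod_cast hq
  set X := b ^ q - 1 with hX
  have hXr : (X : ℝ) = (b : ℝ) ^ q - 1 := by
    rw [hX, Nat.cast_sub (Nat.one_le_pow _ _ (by omega))]
    push_cast
    rfl
  have hXle : (X : ℝ) ≤ (b : ℝ) ^ q := by linarith
  have hXnn : (0 : ℝ) ≤ X := Nat.cast_nonneg _
  set S := Real.exp (lb * q / 4) with hS
  have hS0 : 0 < S := Real.exp_pos _
  set N := b ^ p with hN
  have hNpos : 0 < N := by positivity
  have hNr : (N : ℝ) = (b : ℝ) ^ p := by rw [hN]; push_cast; rfl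
  have hNr0 : (0 : ℝ) < N := by exact_mod_cast hNpos
  -- the weight
  set w : ℕ → ℝ := fun m => if m.Coprime b then rpi p (m % N) else 0 with hw
  have hw0 : ∀ m, 0 ≤ w m := by
    intro m
    simp only [hw]
    split_ifs
    · exact rpi_nonneg _ _
    · exact le_rfl
  have hw1 : ∀ m, w m ≤ 1 := by
    intro m
    simp only [hw]
    split_ifs
    · exact rpi_le_one _ _
    · norm_num
  have hJC : JC b p q = ∑ s ∈ SMz q (X : ℝ), ∑ l ∈ (Ioc 0 (X / s)).filter (fun l => l.Prime ∧ q < l),
      w (s * l) := by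
    have h1 := sum_rough_eq q 0 X w
    simp only [Nat.zero_div] at h1
    rw [← h1]
    unfold JC
    rw [Finset.sum_filter, Finset.sum_filter]
    have h2 : ∑ m ∈ range (b ^ q), (if m.Coprime b then rpi p (m % b ^ p) * rpi q m else 0) =
        ∑ m ∈ Ioc 0 X, (if m.Coprime b then rpi p (m % b ^ p) * rpi q m else 0) := by
      symm
      apply Finset.sum_subset
      · intro m hm
        rw [mem_Ioc] at hm
        rw [mem_range]
        omega
      · intro m hm hm'
        rw [mem_range] at hm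
        rw [mem_Ioc] at hm'
        have : m = 0 := by omega
        rw [this, rpi_zero q, mul_zero, ite_self]
    rw [h2]
    refine Finset.sum_congr rfl fun m _ => ?_
    simp only [hw]
    have e2 : m % b ^ p = m % N := rfl
    rw [e2]
    have e3 : rpi q m = if (roughPart q m).Prime then 1 else 0 := rfl
    rw [e3]
    by_cases h3 : m.Coprime b <;> by_cases h4 : (roughPart q m).Prime <;> simp [h3, h4]
  rw [hJC, ← Finset.sum_filter_add_sum_filter_not (SMz q (X : ℝ)) (fun s : ℕ => (s : ℝ) ≤ S)]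
  have hF : ∀ n ∈ (SMz q (X : ℝ)).filter (fun s : ℕ => (s : ℝ) ≤ S), n ∈ SM q := by
    intro n hn
    rw [Finset.mem_filter, mem_SMz hXnn] at hn
    exact hn.1.1
  have hAA : ∑ c ∈ UU b p, rpi p c = AA b p := (AA_eq_range b p).symm
  have hAAle : AA b p ≤ K1 * (Real.log p / p) * (N * ((b.totient : ℝ) / b)) := by
    have h1 := f1
    unfold mq at h1
    rw [tot_pow hb (by omega), div_le_iff₀ (by positivity)] at h1
    rw [hNr]
    exact h1
  -- main part
  have hmain : ∑ s ∈ (SMz q (X : ℝ)).filter (fun s : ℕ => (s : ℝ) ≤ S),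
      ∑ l ∈ (Ioc 0 (X / s)).filter (fun l => l.Prime ∧ q < l), w (s * l) ≤
      320 / lb * C * K1 * (b : ℝ) ^ q * ((Real.log p / p) * (Real.log q / q)) := by
    have hterm : ∀ s ∈ (SMz q (X : ℝ)).filter (fun s : ℕ => (s : ℝ) ≤ S),
        ∑ l ∈ (Ioc 0 (X / s)).filter (fun l => l.Prime ∧ q < l), w (s * l) ≤
        (320 * ((b : ℝ) / b.totient) * ((b : ℝ) ^ q / N) / (lb * q) * AA b p) * (s : ℝ)⁻¹ := by
      intro s hs
      rw [Finset.mem_filter, mem_SMz hXnn] at hs
      obtain ⟨⟨hs1, _⟩, hsS⟩ := hs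
      have hs0 : 0 < s := SM_pos hs1
      have hs0' : (0 : ℝ) < s := by exact_mod_cast hs0
      have hAA0 := AA_nonneg b p
      by_cases hc : s.Coprime b
      · -- lower bound for `X / (s N)`
        set M := X / s with hM
        have hM1 : (M : ℝ) ≤ (X : ℝ) / s := Nat.cast_div_le
        have hM2 : (X : ℝ) / s < M + 1 := by
          rw [div_lt_iff₀ hs0']
          have := Nat.lt_div_mul_add (a := X) hs0
          have h2 : X < (M + 1) * s := by rw [hM]; linarith
          exact_mod_cast h2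
        have hNhalf : (N : ℝ) ≤ Real.exp (lb * q / 2) := by
          rw [hNr, hbp]
          apply Real.exp_le_exp.2
          nlinarith
        have hlow : Real.exp (lb * q / 8) * Real.exp (lb * q / 2) + 1 ≤ (X : ℝ) / s := by
          rw [le_div_iff₀ hs0', hXr, hbq]
          have h1 : (Real.exp (lb * q / 8) * Real.exp (lb * q / 2) + 1) * s ≤
              (Real.exp (lb * q / 8) * Real.exp (lb * q / 2) + 1) * S :=
            mul_le_mul_of_nonneg_left hsS (by positivity)
          have h2 : Real.exp (lb * q) = Real.exp (lb * q / 8) *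
              (Real.exp (lb * q / 8) * Real.exp (lb * q / 2) * S) := by
            rw [hS, ← Real.exp_add, ← Real.exp_add, ← Real.exp_add]; ring_nf
          have h3 : 4 ≤ Real.exp (lb * q / 8) := by
            have := Real.add_one_le_exp (lb * q / 8)
            linarith
          have h4 : 1 ≤ Real.exp (lb * q / 2) := Real.one_le_exp (by positivity)
          have h5 : 1 ≤ S := Real.one_le_exp (by positivity)
          have h6 : 1 ≤ Real.exp (lb * q / 8) * Real.exp (lb * q / 2) := by nlinarith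
          have h7 : S ≤ Real.exp (lb * q / 8) * Real.exp (lb * q / 2) * S := by nlinarith
          have h8 : 4 * (Real.exp (lb * q / 8) * Real.exp (lb * q / 2) * S) ≤
              Real.exp (lb * q / 8) * (Real.exp (lb * q / 8) * Real.exp (lb * q / 2) * S) :=
            mul_le_mul_of_nonneg_right h3 (by positivity)
          nlinarith
        have hMN : N ≤ M := by
          have h1 : (N : ℝ) ≤ M := by
            have h2 : Real.exp (lb * q / 2) ≤ Real.exp (lb * q / 8) * Real.exp (lb * q / 2) := by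
              have : 1 ≤ Real.exp (lb * q / 8) := Real.one_le_exp (by positivity)
              nlinarith [Real.exp_pos (lb * q / 2)]
            linarith
          exact_mod_cast h1
        set R := M / N + 1 with hR
        have hR1 : (R : ℝ) ≤ 2 * ((b : ℝ) ^ q / N * (s : ℝ)⁻¹) := by
          have h1 : 1 ≤ M / N := (Nat.one_le_div_iff hNpos).2 hMN
          have h2 : ((M / N : ℕ) : ℝ) ≤ (M : ℝ) / N := Nat.cast_div_le
          have h3 : (R : ℝ) ≤ 2 * ((M / N : ℕ) : ℝ) := by
            rw [hR]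
            push_cast
            have : (1 : ℝ) ≤ ((M / N : ℕ) : ℝ) := by exact_mod_cast h1
            linarith
          have h4 : (M : ℝ) / N ≤ (b : ℝ) ^ q / N * (s : ℝ)⁻¹ := by
            calc (M : ℝ) / N ≤ ((X : ℝ) / s) / N := by gcongr
              _ ≤ ((b : ℝ) ^ q / s) / N := by gcongr
              _ = _ := by ring
          linarith
        have hR2 : Real.exp (lb * q / 8) ≤ R := by
          have h1 : (M : ℝ) < R * N := by
            have h2 := Nat.lt_div_mul_add (a := M) hNpos
            have h3 : M < R * N := by rw [hR]; linarith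
            exact_mod_cast h3
          have h2 : Real.exp (lb * q / 8) * N ≤ Real.exp (lb * q / 8) * Real.exp (lb * q / 2) :=
            mul_le_mul_of_nonneg_left hNhalf (Real.exp_pos _).le
          have h3 : Real.exp (lb * q / 8) * N ≤ R * N := by linarith
          exact le_of_mul_le_mul_right h3 hNr0
        have hRpos : (0 : ℝ) < R := lt_of_lt_of_le (Real.exp_pos _) hR2
        have hlogR : lb * q / 8 ≤ Real.log R := by
          rw [Real.le_log_iff_exp_le hRpos]; exact hR2
        set Bd := 320 * ((b : ℝ) / b.totient) * ((b : ℝ) ^ q / N) / (lb * q) * (s : ℝ)⁻¹ with hBd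
        have hBd0 : 0 ≤ Bd := by positivity
        have hcls : ∀ c, (((Ioc 0 M).filter (fun l => l.Prime ∧ l % N = c)).card : ℝ) ≤ Bd := by
          intro c
          refine (bt_class hb (by omega) hMN).trans ?_
          rw [← hN, ← hR]
          have h1 : (R : ℝ) / Real.log R ≤ 2 * ((b : ℝ) ^ q / N * (s : ℝ)⁻¹) / (lb * q / 8) :=
            div_le_div₀ (by positivity) hR1 (by positivity) hlogR
          calc 20 * ((b : ℝ) / b.totient) * ((R : ℝ) / Real.log R) ≤
              20 * ((b : ℝ) / b.totient) * (2 * ((b : ℝ) ^ q / N * (s : ℝ)⁻¹) / (lb * q / 8)) := by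
                gcongr
            _ = Bd := by rw [hBd]; field_simp; ring
        set Ps := (Ioc 0 M).filter (fun l => l.Prime ∧ q < l) with hPs
        have hmaps : ∀ l ∈ Ps, l % N ∈ UU b p := by
          intro l hl
          rw [hPs, mem_filter] at hl
          rw [mem_UU]
          refine ⟨Nat.mod_lt _ hNpos, ?_⟩
          rw [hN, mod_coprime (by omega), Nat.Prime.coprime_iff_not_dvd hl.2.1]
          intro h
          have := Nat.le_of_dvd (by omega) h
          omega
        rw [← Finset.sum_fiberwise_of_maps_to hmaps]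
        have hinner : ∀ c ∈ UU b p, ∑ l ∈ Ps.filter (fun l => l % N = c), w (s * l) ≤
            Bd * rpi p ((s * c) % b ^ p) := by
          intro c hc'
          have h1 : ∀ l ∈ Ps.filter (fun l => l % N = c), w (s * l) ≤ rpi p ((s * c) % b ^ p) := by
            intro l hl
            rw [mem_filter] at hl
            simp only [hw]
            split_ifs
            · have : s * l % N = (s * c) % b ^ p := by
                rw [← hl.2, ← hN, Nat.mul_mod, Nat.mul_mod s (l % N), Nat.mod_mod]
              rw [this]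
            · exact rpi_nonneg _ _
          refine (Finset.sum_le_sum h1).trans ?_
          rw [Finset.sum_const, nsmul_eq_mul]
          apply mul_le_mul_of_nonneg_right _ (rpi_nonneg _ _)
          refine le_trans ?_ (hcls c)
          have h2 : Ps.filter (fun l => l % N = c) ⊆ (Ioc 0 M).filter (fun l => l.Prime ∧ l % N = c) := by
            intro l hl
            rw [mem_filter, hPs, mem_filter] at hl
            rw [mem_filter]
            exact ⟨hl.1.1, hl.1.2.1, hl.2⟩
          exact_mod_cast Finset.card_le_card h2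
        refine (Finset.sum_le_sum hinner).trans ?_
        rw [← Finset.mul_sum]
        have h3 := perm_sum (p := p) hb (by omega) hc (rpi p) (rpi_nonneg p)
        rw [hAA] at h3
        calc Bd * ∑ c ∈ UU b p, rpi p ((s * c) % b ^ p) ≤ Bd * AA b p :=
              mul_le_mul_of_nonneg_left h3 hBd0
          _ = _ := by rw [hBd]; ring
      · have h0 : ∑ l ∈ (Ioc 0 (X / s)).filter (fun l => l.Prime ∧ q < l), w (s * l) = 0 := by
          refine Finset.sum_eq_zero fun l _ => ?_
          simp only [hw]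
          rw [if_neg]
          intro h
          exact hc (Nat.Coprime.coprime_mul_right h)
        rw [h0]
        positivity
    refine (Finset.sum_le_sum hterm).trans ?_
    rw [← Finset.mul_sum]
    have h1 := (sum_le_VV q _ hF).trans (hP2 q (by omega))
    have hAA0 := AA_nonneg b p
    calc 320 * ((b : ℝ) / b.totient) * ((b : ℝ) ^ q / N) / (lb * q) * AA b p *
          ∑ s ∈ (SMz q (X : ℝ)).filter (fun s : ℕ => (s : ℝ) ≤ S), (s : ℝ)⁻¹ ≤
        320 * ((b : ℝ) / b.totient) * ((b : ℝ) ^ q / N) / (lb * q) *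
          (K1 * (Real.log p / p) * (N * ((b.totient : ℝ) / b))) * (C * Real.log q) := by
          gcongr
      _ = _ := by field_simp
  have htail : ∑ s ∈ (SMz q (X : ℝ)).filter (fun s : ℕ => ¬ (s : ℝ) ≤ S),
      ∑ l ∈ (Ioc 0 (X / s)).filter (fun l => l.Prime ∧ q < l), w (s * l) ≤
      (b : ℝ) ^ q * ((Real.log p / p) * (Real.log q / q)) := by
    have hterm : ∀ s ∈ (SMz q (X : ℝ)).filter (fun s : ℕ => ¬ (s : ℝ) ≤ S),
        ∑ l ∈ (Ioc 0 (X / s)).filter (fun l => l.Prime ∧ q < l), w (s * l) ≤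
        (b : ℝ) ^ q * (s : ℝ)⁻¹ := by
      intro s _
      calc ∑ l ∈ (Ioc 0 (X / s)).filter (fun l => l.Prime ∧ q < l), w (s * l) ≤
          ∑ l ∈ (Ioc 0 (X / s)).filter (fun l => l.Prime ∧ q < l), 1 :=
            Finset.sum_le_sum fun l _ => hw1 _
        _ ≤ ∑ l ∈ Ioc 0 (X / s), 1 :=
            Finset.sum_le_sum_of_subset_of_nonneg (Finset.filter_subset _ _)
              fun _ _ _ => by norm_num
        _ = ((X / s : ℕ) : ℝ) := by rw [Finset.sum_const, Nat.card_Ioc]; simp
        _ ≤ (X : ℝ) / s := Nat.cast_div_le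
        _ = (X : ℝ) * (s : ℝ)⁻¹ := div_eq_mul_inv _ _
        _ ≤ _ := mul_le_mul_of_nonneg_right hXle (by positivity)
    refine (Finset.sum_le_sum hterm).trans ?_
    rw [← Finset.mul_sum]
    apply mul_le_mul_of_nonneg_left _ (by positivity)
    have h3 := tail_le q hS0 ((SMz q (X : ℝ)).filter (fun s : ℕ => ¬ (s : ℝ) ≤ S)) (by
      intro n hn
      rw [Finset.mem_filter, mem_SMz hXnn] at hn
      exact ⟨hn.1.1, (not_le.1 hn.2).le⟩)
    refine h3.trans ?_
    have hSm : S ^ (-(1 / 2) : ℝ) = Real.exp (-(lb * q / 8)) := by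
      rw [hS, ← Real.exp_mul]; ring_nf
    rw [hSm]
    have h4 : Real.log q / q ≤ Real.log p / p := by
      apply Real.log_div_self_antitoneOn
      · show Real.exp 1 ≤ (p : ℝ)
        have : (3 : ℝ) ≤ p := by exact_mod_cast f6
        linarith [Real.exp_one_lt_d9]
      · show Real.exp 1 ≤ (q : ℝ)
        have : (3 : ℝ) ≤ q := by exact_mod_cast (by omega : 3 ≤ q)
        linarith [Real.exp_one_lt_d9]
      · have : p ≤ q := by omega
        exact_mod_cast this
    calc Real.exp (-(lb * q / 8)) * ZZ q ≤ Real.exp (-(lb * q / 8)) * Real.exp (lb / 16 * q) :=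
          mul_le_mul_of_nonneg_left (hP3 q (by omega)) (Real.exp_pos _).le
      _ = Real.exp (-(lb / 16 * q)) := by rw [← Real.exp_add]; ring_nf
      _ ≤ (Real.log q / q) ^ 2 := hP4 q (by omega)
      _ = (Real.log q / q) * (Real.log q / q) := sq _
      _ ≤ _ := mul_le_mul_of_nonneg_right h4 (by positivity)
  refine (add_le_add hmain htail).trans (le_of_eq ?_)
  ring

end Pool.Agent.W66L
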