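import Pool.Agent.W66.LM
import Pool.Agent.W66.LQ
import Pool.Agent.W66.SC

set_option autoImplicit false

/-!
# Correlations for the low digits
-/

open Filter Topology Finset MeasureTheory
open scoped Real

namespace Pool.Agent.W66L

open Pool.Agent.W66
open Pool.Agent.H305R2 (roughPart roughPart_prime SM SM_pos SMz mem_SMz ZZ VV sum_rough_eq sum_le_VV
  tail_le ZZ_le_exp ZZ_nonneg VV_nonneg VV_tendsto log_nat_tendsto)

lemma card_UU {b n : ℕ} (hb : 2 ≤ b) (hn : 1 ≤ n) : (UU b n).card = (b ^ n).totient := by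
  rw [Nat.totient_eq_card_coprime]
  congr 1
  ext m
  rw [mem_UU, mem_filter, mem_range, Nat.coprime_pow_left_iff (by omega), Nat.coprime_comm]

lemma tot_pow_pos {b : ℕ} (hb : 2 ≤ b) (n : ℕ) : (0 : ℝ) < ((b ^ n).totient : ℝ) := by
  exact_mod_cast Nat.totient_pos.2 (by positivity)

lemma mq_le_one {b n : ℕ} (hb : 2 ≤ b) (hn : 1 ≤ n) : mq b n ≤ 1 := by
  unfold mq
  rw [div_le_one (tot_pow_pos hb n), AA_eq_range, ← card_UU hb hn]
  calc ∑ m ∈ UU b n, rpi n m ≤ ∑ m ∈ UU b n, (1 : ℝ) := Finset.sum_le_sum fun m _ => rpi_le_one n m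
    _ = _ := by simp

/-- the class of a unit consists of `b ^ (q - k)` integers below `b ^ q` -/
lemma card_cls {b k q : ℕ} (hb : 2 ≤ b) (hkq : k ≤ q) {c : ℕ} (hc : c < b ^ k) :
    ((range (b ^ q)).filter (fun m => m % b ^ k = c)).card = b ^ (q - k) := by
  have hbk : 0 < b ^ k := by positivity
  have e : (range (b ^ q)).filter (fun m => m % b ^ k = c) =
      (range (b ^ (q - k))).image (fun t => c + b ^ k * t) := by
    ext m
    rw [mem_filter, mem_range, mem_image]
    constructor
    · rintro ⟨h1, h2⟩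
      refine ⟨m / b ^ k, ?_, ?_⟩
      · rw [mem_range, Nat.div_lt_iff_lt_mul hbk, ← pow_add, Nat.sub_add_cancel hkq]
        exact h1
      · rw [← h2]; exact Nat.mod_add_div m (b ^ k)
    · rintro ⟨t, ht, rfl⟩
      rw [mem_range] at ht
      refine ⟨?_, ?_⟩
      · calc c + b ^ k * t < b ^ k + b ^ k * t := by omega
          _ = b ^ k * (t + 1) := by ring
          _ ≤ b ^ k * b ^ (q - k) := Nat.mul_le_mul_left _ ht
          _ = b ^ q := by rw [← pow_add]; congr 1; omega
      · rw [Nat.add_mul_mod_self_left, Nat.mod_eq_of_lt hc]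
  rw [e, Finset.card_image_of_injective, card_range]
  intro t t' h
  simp only at h
  have h2 : b ^ k * t = b ^ k * t' := by omega
  exact Nat.eq_of_mul_eq_mul_left hbk h2

/-- the deviation bound for sums over the reduced residues -/
theorem far_sum {b k q p : ℕ} (hb : 2 ≤ b) [NeZero (b ^ k)] (hp1 : 1 ≤ p) (hpk : p ≤ k)
    (hkq : k ≤ q) :
    |∑ m ∈ UU b q, (rpi p (m % b ^ p) - mq b p) * (rpi q m - mq b q)| ≤
      dev (RN (b ^ k) (b ^ q - 1) q) := by
  set Q := b ^ k with hQ
  have hbk : 0 < b ^ k := by positivity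
  have hk1 : 1 ≤ k := hp1.trans hpk
  have hq1 : 1 ≤ q := hk1.trans hkq
  set u : ℕ → ℝ := fun c => rpi p (c % b ^ p) - mq b p with hu
  have hu1 : ∀ c, |u c| ≤ 1 := by
    intro c
    have h1 := rpi_nonneg p (c % b ^ p)
    have h2 := rpi_le_one p (c % b ^ p)
    have h3 := mq_nonneg b p
    have h4 := mq_le_one hb hp1
    rw [abs_le]
    constructor <;> simp only [hu] <;> linarith
  have hunit : ∀ m : ℕ, m.Coprime b → IsUnit (m : ZMod Q) := by
    intro m hm
    rw [ZMod.isUnit_iff_coprime]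
    exact Nat.Coprime.pow_right k hm
  have hcop : ∀ (m : ℕ) (a : (ZMod Q)ˣ), (m : ZMod Q) = (a : ZMod Q) → m.Coprime b := by
    intro m a h
    have h1 : IsUnit (m : ZMod Q) := h ▸ a.isUnit
    rw [ZMod.isUnit_iff_coprime] at h1
    exact Nat.Coprime.coprime_dvd_right (dvd_pow_self b (by omega)) h1
  -- rewrite the sum by classes
  have h1 : ∑ m ∈ UU b q, (rpi p (m % b ^ p) - mq b p) * (rpi q m - mq b q) =
      ∑ a : (ZMod Q)ˣ, u (a : ZMod Q).val * ∑ m ∈ UU b q,
        (if (m : ZMod Q) = (a : ZMod Q) then rpi q m - mq b q else 0) := by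
    have h2 : ∀ m ∈ UU b q, (rpi p (m % b ^ p) - mq b p) * (rpi q m - mq b q) =
        ∑ a : (ZMod Q)ˣ, u (a : ZMod Q).val *
          (if (m : ZMod Q) = (a : ZMod Q) then rpi q m - mq b q else 0) := by
      intro m hm
      obtain ⟨a, ha⟩ := hunit m (mem_UU.1 hm).2
      rw [Finset.sum_eq_single a]
      · rw [if_pos ha.symm, ha]
        have e1 : ((m : ZMod Q)).val = m % b ^ k := by rw [ZMod.val_natCast]
        rw [e1]
        simp only [hu]
        rw [Nat.mod_mod_of_dvd m (pow_dvd_pow b hpk)]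
      · intro a' _ ha'
        rw [if_neg, mul_zero]
        intro h
        apply ha'
        apply Units.ext
        rw [← h, ha]
      · intro h; exact absurd (Finset.mem_univ _) h
    rw [Finset.sum_congr rfl h2, Finset.sum_comm]
    refine Finset.sum_congr rfl fun a _ => ?_
    rw [Finset.mul_sum]
  rw [h1]
  have hφk := tot_pow_pos hb k
  have hφq := tot_pow_pos hb q
  -- the inner sums
  have h3 : ∀ a : (ZMod Q)ˣ, ∑ m ∈ UU b q,
      (if (m : ZMod Q) = (a : ZMod Q) then rpi q m - mq b q else 0) =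
      RN Q (b ^ q - 1) q a - mn (RN Q (b ^ q - 1) q) := by
    intro a
    have h4 : ∑ m ∈ UU b q, (if (m : ZMod Q) = (a : ZMod Q) then rpi q m - mq b q else 0) =
        ∑ m ∈ UU b q, (if (m : ZMod Q) = (a : ZMod Q) then rpi q m else 0) -
        mq b q * ∑ m ∈ UU b q, (if (m : ZMod Q) = (a : ZMod Q) then (1 : ℝ) else 0) := by
      rw [Finset.mul_sum, ← Finset.sum_sub_distrib]
      refine Finset.sum_congr rfl fun m _ => ?_
      split_ifs <;> ring
    have h5 : ∑ m ∈ UU b q, (if (m : ZMod Q) = (a : ZMod Q) then (1 : ℝ) else 0) =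
        (b : ℝ) ^ (q - k) := by
      have e1 : ∑ m ∈ UU b q, (if (m : ZMod Q) = (a : ZMod Q) then (1 : ℝ) else 0) =
          (((range (b ^ q)).filter (fun m => m % b ^ k = (a : ZMod Q).val)).card : ℝ) := by
        rw [Finset.card_eq_sum_ones, Finset.sum_filter]
        push_cast
        unfold UU
        rw [Finset.sum_filter]
        refine Finset.sum_congr rfl fun m _ => ?_
        have hiff : ((m : ZMod Q) = (a : ZMod Q)) ↔ m % b ^ k = (a : ZMod Q).val := by
          rw [← ZMod.val_natCast]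
          constructor
          · intro h; rw [h]
          · intro h; exact ZMod.val_injective Q h
        by_cases h6 : (m : ZMod Q) = (a : ZMod Q)
        · rw [if_pos (hcop m a h6), if_pos h6, if_pos (hiff.1 h6)]
        · rw [if_neg h6, if_neg fun h => h6 (hiff.2 h), ite_self]
      rw [e1, card_cls hb hkq (ZMod.val_lt _)]
      push_cast
      rfl
    have h6 : ∀ a : (ZMod Q)ˣ, ∑ m ∈ UU b q, (if (m : ZMod Q) = (a : ZMod Q) then rpi q m else 0) =
        RN Q (b ^ q - 1) q a := by
      intro a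
      unfold RN UU
      rw [Finset.sum_filter, Finset.sum_filter]
      have e2 : ∑ m ∈ range (b ^ q), (if m.Coprime b then
          (if (m : ZMod Q) = (a : ZMod Q) then rpi q m else 0) else 0) =
          ∑ m ∈ Ioc 0 (b ^ q - 1), (if m.Coprime b then
          (if (m : ZMod Q) = (a : ZMod Q) then rpi q m else 0) else 0) := by
        symm
        apply Finset.sum_subset
        · intro m hm
          rw [mem_Ioc] at hm
          rw [mem_range]
          omega
        · intro m hm hm'
          rw [mem_range] at hm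
          rw [mem_Ioc] at hm'
          have : m = 0 := by omega
          rw [this, rpi_zero q, ite_self, ite_self]
      rw [e2]
      refine Finset.sum_congr rfl fun m _ => ?_
      by_cases h7 : (m : ZMod Q) = (a : ZMod Q)
      · rw [if_pos (hcop m a h7), if_pos h7, if_pos h7]
        rfl
      · rw [if_neg h7, if_neg h7, ite_self, ite_self]
    have h7 : mn (RN Q (b ^ q - 1) q) = mq b q * (b : ℝ) ^ (q - k) := by
      have e3 : ∑ a : (ZMod Q)ˣ, RN Q (b ^ q - 1) q a = AA b q := by
        rw [AA_eq_range]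
        have e4 : ∑ a : (ZMod Q)ˣ, RN Q (b ^ q - 1) q a =
            ∑ a : (ZMod Q)ˣ, ∑ m ∈ UU b q, (if (m : ZMod Q) = (a : ZMod Q) then rpi q m else 0) :=
          Finset.sum_congr rfl fun a _ => (h6 a).symm
        rw [e4, Finset.sum_comm]
        refine Finset.sum_congr rfl fun m hm => ?_
        obtain ⟨a, ha⟩ := hunit m (mem_UU.1 hm).2
        rw [Finset.sum_eq_single a]
        · rw [if_pos ha.symm]
        · intro a' _ ha'
          rw [if_neg]
          intro h
          apply ha'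
          apply Units.ext
          rw [← h, ha]
        · intro h; exact absurd (Finset.mem_univ _) h
      unfold mn
      rw [e3]
      unfold mq
      have e5 : (((b ^ q).totient : ℕ) : ℝ) = ((Q.totient : ℕ) : ℝ) * (b : ℝ) ^ (q - k) := by
        rw [hQ, tot_pow hb hq1, tot_pow hb hk1]
        have : (b : ℝ) ^ q = (b : ℝ) ^ k * (b : ℝ) ^ (q - k) := by
          rw [← pow_add]; congr 1; omega
        rw [this]
        ring
      have hb0 : (0 : ℝ) < b := by exact_mod_cast (by omega : 0 < b)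
      rw [e5]
      have hQφ : (0 : ℝ) < (Q.totient : ℝ) := hφk
      field_simp
    rw [h4, h5, h6, h7]
  calc |∑ a : (ZMod Q)ˣ, u (a : ZMod Q).val * ∑ m ∈ UU b q,
        (if (m : ZMod Q) = (a : ZMod Q) then rpi q m - mq b q else 0)| ≤
      ∑ a : (ZMod Q)ˣ, |u (a : ZMod Q).val * ∑ m ∈ UU b q,
        (if (m : ZMod Q) = (a : ZMod Q) then rpi q m - mq b q else 0)| :=
        Finset.abs_sum_le_sum_abs _ _
    _ ≤ ∑ a : (ZMod Q)ˣ, |RN Q (b ^ q - 1) q a - mn (RN Q (b ^ q - 1) q)| := by
        refine Finset.sum_le_sum fun a _ => ?_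
        rw [h3 a, abs_mul]
        calc |u (a : ZMod Q).val| * |RN Q (b ^ q - 1) q a - mn (RN Q (b ^ q - 1) q)| ≤
            1 * |RN Q (b ^ q - 1) q a - mn (RN Q (b ^ q - 1) q)| :=
              mul_le_mul_of_nonneg_right (hu1 _) (abs_nonneg _)
          _ = _ := one_mul _
    _ = _ := rfl

/-- the correlation of the indices `p` and `q` -/
noncomputable def CO (b p q : ℕ) : ℝ :=
  (∑ m ∈ UU b q, (rpi p (m % b ^ p) - mq b p) * (rpi q m - mq b q)) / ((b ^ q).totient : ℝ)

lemma sum_UU_rpi {b q : ℕ} (hb : 2 ≤ b) : ∑ m ∈ UU b q, rpi q m = mq b q * ((b ^ q).totient : ℝ) := by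
  unfold mq
  rw [div_mul_cancel₀ _ (tot_pow_pos hb q).ne', AA_eq_range]
  rfl

/-- every class below `b ^ p` has the same number of lifts -/
lemma sum_UU_mod {b p q : ℕ} (hb : 2 ≤ b) (hp : 1 ≤ p) (hpq : p ≤ q) (f : ℕ → ℝ) :
    ∑ m ∈ UU b q, f (m % b ^ p) = (b : ℝ) ^ (q - p) * ∑ c ∈ UU b p, f c := by
  have hbp : 0 < b ^ p := by positivity
  have hmaps : ∀ m ∈ UU b q, m % b ^ p ∈ UU b p := by
    intro m hm
    rw [mem_UU] at hm ⊢
    exact ⟨Nat.mod_lt _ hbp, (mod_coprime hp).2 hm.2⟩
  rw [← Finset.sum_fiberwise_of_maps_to hmaps, Finset.mul_sum]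
  refine Finset.sum_congr rfl fun c hc => ?_
  rw [mem_UU] at hc
  have h1 : ∀ m ∈ (UU b q).filter (fun m => m % b ^ p = c), f (m % b ^ p) = f c := by
    intro m hm
    rw [(mem_filter.1 hm).2]
  rw [Finset.sum_congr rfl h1, Finset.sum_const, nsmul_eq_mul]
  congr 1
  have h2 : (UU b q).filter (fun m => m % b ^ p = c) =
      (range (b ^ q)).filter (fun m => m % b ^ p = c) := by
    ext m
    rw [mem_filter, mem_UU, mem_filter, mem_range]
    constructor
    · rintro ⟨⟨h1, h2⟩, h3⟩; exact ⟨h1, h3⟩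
    · rintro ⟨h1, h3⟩
      refine ⟨⟨h1, ?_⟩, h3⟩
      rw [← mod_coprime hp, h3]
      exact hc.2
  rw [h2, card_cls hb hpq hc.1]
  push_cast
  rfl

lemma tot_lift {b p q : ℕ} (hb : 2 ≤ b) (hp : 1 ≤ p) (hpq : p ≤ q) :
    (((b ^ q).totient : ℕ) : ℝ) = (b : ℝ) ^ (q - p) * ((b ^ p).totient : ℝ) := by
  rw [tot_pow hb (hp.trans hpq), tot_pow hb hp]
  have : (b : ℝ) ^ q = (b : ℝ) ^ p * (b : ℝ) ^ (q - p) := by
    rw [← pow_add]; congr 1; omega
  rw [this]
  ring

/-- the correlation in terms of the joint count -/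
lemma CO_eq {b p q : ℕ} (hb : 2 ≤ b) (hp : 1 ≤ p) (hpq : p ≤ q) :
    CO b p q = JC b p q / ((b ^ q).totient : ℝ) - mq b p * mq b q := by
  have hφ := tot_pow_pos hb q
  have h1 : ∑ m ∈ UU b q, (rpi p (m % b ^ p) - mq b p) * (rpi q m - mq b q) =
      JC b p q - mq b p * mq b q * ((b ^ q).totient : ℝ) := by
    have h2 : ∀ m : ℕ, (rpi p (m % b ^ p) - mq b p) * (rpi q m - mq b q) =
        rpi p (m % b ^ p) * rpi q m - mq b p * rpi q m - mq b q * rpi p (m % b ^ p) +
          mq b p * mq b q := fun m => by ring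
    simp only [h2]
    rw [Finset.sum_add_distrib, Finset.sum_sub_distrib, Finset.sum_sub_distrib, ← Finset.mul_sum,
      ← Finset.mul_sum, sum_UU_rpi hb, sum_UU_mod hb hp hpq (rpi p), sum_UU_rpi hb, Finset.sum_const,
      nsmul_eq_mul, card_UU hb (hp.trans hpq)]
    have h3 := tot_lift hb hp hpq
    have h4 : (b : ℝ) ^ (q - p) * (mq b p * ((b ^ p).totient : ℝ)) =
        mq b p * ((b ^ q).totient : ℝ) := by rw [h3]; ring
    rw [h4]
    have h5 : ∑ m ∈ UU b q, rpi p (m % b ^ p) * rpi q m = JC b p q := rfl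
    rw [h5]
    ring
  unfold CO
  rw [h1]
  field_simp

/-- the row sums of the correlation matrix -/
theorem CO_row {b : ℕ} (hb : 2 ≤ b) : ∃ C : ℝ, 0 < C ∧ ∃ P : ℕ, 3 ≤ P ∧ ∀ q ≥ P,
    ∑ p ∈ (Finset.Ico P q).filter Nat.Prime, |CO b p q| ≤
        C * ((Real.log q / q) * (1 + Real.log (Real.log q))) := by
  classical
  obtain ⟨κ, K1, hκ, hK1, hfar⟩ := rough_L1 hb
  obtain ⟨P1, hP1⟩ := eventually_atTop.1 hfar
  obtain ⟨K2, hK2, hmid⟩ := mid_count hb
  obtain ⟨P2, hP2⟩ := eventually_atTop.1 hmid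
  obtain ⟨K3, hK3, hnear⟩ := near_count hb
  obtain ⟨P3, hP3⟩ := eventually_atTop.1 hnear
  obtain ⟨K4, hK4, hmq⟩ := mq_le hb
  obtain ⟨P4, hP4⟩ := eventually_atTop.1 hmq
  have hρ := tot_ratio_pos hb
  set ρ := (b.totient : ℝ) / b with hρdef
  set J : ℕ → ℕ → ℝ := fun p q => if 1 ≤ p then CO b p q else 0 with hJ
  set K := K1 / ρ + (K2 / ρ + K4 ^ 2) + (K3 / ρ + K4 + K4 ^ 2) with hK
  have hKpos : 0 < K := by positivity
  have hw0 : ∀ m : ℕ, 0 ≤ Real.log m / m := fun m =>
    div_nonneg (Real.log_natCast_nonneg m) (Nat.cast_nonneg m)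
  have hanti : ∀ p q : ℕ, 3 ≤ p → p ≤ q → Real.log q / q ≤ Real.log p / p := by
    intro p q hp hpq
    apply Real.log_div_self_antitoneOn
    · show Real.exp 1 ≤ (p : ℝ)
      have : (3 : ℝ) ≤ p := by exact_mod_cast hp
      linarith [Real.exp_one_lt_d9]
    · show Real.exp 1 ≤ (q : ℝ)
      have : (3 : ℝ) ≤ q := by exact_mod_cast hp.trans hpq
      linarith [Real.exp_one_lt_d9]
    · exact_mod_cast hpq
  obtain ⟨C, hC, P', hP', hP3', hrow⟩ := Pool.Agent.W66S.row_abs (κ := κ) (K := K) hκ hKpos hb J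
    (P1 + P2 + P3 + P4 + 3)
    (by
      intro q hq p hp
      have hlq : 0 ≤ Real.log q / (q : ℝ) ^ 2 :=
        div_nonneg (Real.log_natCast_nonneg q) (by positivity)
      simp only [hJ]
      split_ifs with hp1
      · haveI : NeZero b := ⟨by omega⟩
        obtain ⟨h1, h2⟩ := hP1 q (by omega) ⌊κ * q / Real.log q⌋₊ rfl
        have hpk : p ≤ ⌊κ * q / Real.log q⌋₊ := Nat.le_floor hp
        have h3 := far_sum (p := p) hb hp1 hpk h1
        have hφ := tot_pow_pos hb q
        unfold CO
        rw [abs_div, abs_of_pos hφ, div_le_iff₀ hφ, tot_pow hb (by omega)]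
        refine (h3.trans h2).trans ?_
        rw [← hρdef]
        have hKK : K1 ≤ K * ρ := by
          have : K1 / ρ ≤ K := by rw [hK]; have : 0 < K2 / ρ := by positivity
                                  have : 0 < K3 / ρ := by positivity
                                  nlinarith [sq_nonneg K4]
          rwa [div_le_iff₀ hρ] at this
        calc K1 * ((b : ℝ) ^ q * (Real.log q / (q : ℝ) ^ 2)) ≤
            (K * ρ) * ((b : ℝ) ^ q * (Real.log q / (q : ℝ) ^ 2)) :=
              mul_le_mul_of_nonneg_right hKK (by positivity)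
          _ = _ := by ring
      · rw [abs_zero]; exact mul_nonneg hKpos.le hlq)
    (by
      intro p hp q hq
      have hp1 : 1 ≤ p := by omega
      simp only [hJ]
      rw [if_pos hp1, CO_eq hb hp1 (by omega), tot_pow hb (by omega), ← hρdef]
      have h1 := hP2 p (by omega) q hq
      have h2 := hP4 p (by omega)
      have h3 := hP4 q (by omega)
      have hm1 := mq_nonneg b p
      have hm2 := mq_nonneg b q
      have hwp := hw0 p
      have hwq := hw0 q
      have hJC0 : 0 ≤ JC b p q :=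
        Finset.sum_nonneg fun m _ => mul_nonneg (rpi_nonneg _ _) (rpi_nonneg _ _)
      have hbq : (0 : ℝ) < (b : ℝ) ^ q := by positivity
      have h4 : JC b p q / ((b : ℝ) ^ q * ρ) ≤ K2 / ρ * ((Real.log p / p) * (Real.log q / q)) := by
        rw [div_le_iff₀ (by positivity)]
        refine h1.trans (le_of_eq ?_)
        field_simp
      have h4' : 0 ≤ JC b p q / ((b : ℝ) ^ q * ρ) := by positivity
      have h5 : mq b p * mq b q ≤ K4 ^ 2 * ((Real.log p / p) * (Real.log q / q)) := by
        calc mq b p * mq b q ≤ (K4 * (Real.log p / p)) * (K4 * (Real.log q / q)) :=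
              mul_le_mul h2 h3 hm2 (by positivity)
          _ = _ := by ring
      have h5' : 0 ≤ mq b p * mq b q := mul_nonneg hm1 hm2
      have h6 : 0 ≤ (Real.log p / p) * (Real.log q / q) := mul_nonneg hwp hwq
      have hKK : K2 / ρ + K4 ^ 2 ≤ K := by
        rw [hK]
        have : 0 < K1 / ρ := by positivity
        have : 0 < K3 / ρ := by positivity
        nlinarith [sq_nonneg K4]
      calc |JC b p q / ((b : ℝ) ^ q * ρ) - mq b p * mq b q| ≤
          JC b p q / ((b : ℝ) ^ q * ρ) + mq b p * mq b q := by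
            rw [abs_le]; constructor <;> linarith
        _ ≤ (K2 / ρ + K4 ^ 2) * ((Real.log p / p) * (Real.log q / q)) := by linarith
        _ ≤ _ := mul_le_mul_of_nonneg_right hKK h6)
    (by
      intro p hp q hpq hq2
      have hp1 : 1 ≤ p := by omega
      simp only [hJ]
      rw [if_pos hp1, CO_eq hb hp1 hpq.le]
      have h1 := hP3 p (by omega) q hpq hq2
      have h2 := hP4 p (by omega)
      have h3 := hP4 q (by omega)
      have hm1 := mq_nonneg b p
      have hm2 := mq_nonneg b q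
      have hwp := hw0 p
      have hwq := hw0 q
      have hJC0 : 0 ≤ JC b p q :=
        Finset.sum_nonneg fun m _ => mul_nonneg (rpi_nonneg _ _) (rpi_nonneg _ _)
      have hφ := tot_pow_pos hb q
      have hφp := tot_pow_pos hb p
      have hbqp : (0 : ℝ) < (b : ℝ) ^ (q - p) := by
        have : (0 : ℝ) < b := by exact_mod_cast (by omega : 0 < b)
        positivity
      have e1 : AA b p / ((b ^ q).totient : ℝ) = ((b : ℝ) ^ (q - p))⁻¹ * mq b p := by
        rw [tot_lift hb hp1 hpq.le]
        unfold mq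
        field_simp
      have h4 : JC b p q / ((b ^ q).totient : ℝ) ≤
          ((b : ℝ) ^ (q - p))⁻¹ * mq b p + K3 / ρ * (Real.log p / p) ^ 2 := by
        rw [← e1, div_le_iff₀ hφ, add_mul, div_mul_cancel₀ _ hφ.ne']
        refine h1.trans ?_
        rw [tot_pow hb (by omega), ← hρdef]
        apply le_of_eq
        field_simp
      have h4' : 0 ≤ JC b p q / ((b ^ q).totient : ℝ) := by positivity
      have h5 : mq b p * mq b q ≤ K4 ^ 2 * (Real.log p / p) ^ 2 := by
        calc mq b p * mq b q ≤ (K4 * (Real.log p / p)) * (K4 * (Real.log q / q)) :=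
              mul_le_mul h2 h3 hm2 (by positivity)
          _ ≤ (K4 * (Real.log p / p)) * (K4 * (Real.log p / p)) := by
              apply mul_le_mul_of_nonneg_left _ (by positivity)
              exact mul_le_mul_of_nonneg_left (hanti p q (by omega) hpq.le) hK4.le
          _ = _ := by ring
      have h5' : 0 ≤ mq b p * mq b q := mul_nonneg hm1 hm2
      have h6 : ((b : ℝ) ^ (q - p))⁻¹ * mq b p ≤ K4 * (((b : ℝ) ^ (q - p))⁻¹ * (Real.log p / p)) := by
        calc ((b : ℝ) ^ (q - p))⁻¹ * mq b p ≤ ((b : ℝ) ^ (q - p))⁻¹ * (K4 * (Real.log p / p)) :=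
              mul_le_mul_of_nonneg_left h2 (by positivity)
          _ = _ := by ring
      have h7 : 0 ≤ ((b : ℝ) ^ (q - p))⁻¹ * (Real.log p / p) := mul_nonneg (by positivity) hwp
      have h8 : 0 ≤ (Real.log p / p) ^ 2 := sq_nonneg _
      have hKK1 : K3 / ρ + K4 ^ 2 ≤ K := by
        rw [hK]
        have : 0 < K1 / ρ := by positivity
        have : 0 < K2 / ρ := by positivity
        nlinarith [sq_nonneg K4]
      have hKK2 : K4 ≤ K := by
        rw [hK]
        have : 0 < K1 / ρ := by positivity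
        have : 0 < K2 / ρ := by positivity
        have : 0 < K3 / ρ := by positivity
        nlinarith [sq_nonneg K4]
      calc |JC b p q / ((b ^ q).totient : ℝ) - mq b p * mq b q| ≤
          JC b p q / ((b ^ q).totient : ℝ) + mq b p * mq b q := by
            rw [abs_le]; constructor <;> linarith
        _ ≤ K4 * (((b : ℝ) ^ (q - p))⁻¹ * (Real.log p / p)) +
            (K3 / ρ + K4 ^ 2) * (Real.log p / p) ^ 2 := by linarith
        _ ≤ K * (((b : ℝ) ^ (q - p))⁻¹ * (Real.log p / p)) + K * (Real.log p / p) ^ 2 :=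
            add_le_add (mul_le_mul_of_nonneg_right hKK2 h7) (mul_le_mul_of_nonneg_right hKK1 h8)
        _ = _ := by ring)
  refine ⟨C, hC, P', hP3', fun q hq => ?_⟩
  refine le_trans (le_of_eq ?_) (hrow q hq)
  refine Finset.sum_congr rfl fun p hp => ?_
  have hp1 : 1 ≤ p := (mem_filter.1 hp).2.pos
  simp only [hJ]
  rw [if_pos hp1]

end Pool.Agent.W66L
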