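import Pool.Agent.W66.LR
import Pool.Agent.W66.SB

set_option autoImplicit false

/-!
# The almost sure law for uniformly distributed low digits
-/

open Filter Topology Finset MeasureTheory
open scoped Real

namespace Pool.Agent.W66L

open Pool.Agent.W66
open Pool.Agent.H305R2 (roughPart smp smp_mono one_le_smp log_smp_ge log_smp_le tendsto_smp log_smp_div
  log_nat_tendsto cesaro)

/-- from the sampling points to all integers, for monotone functions -/
lemma all_n_mono {F : ℕ → ℝ} (hF : Monotone F) (hF0 : ∀ n, 0 ≤ F n) {L : ℝ}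
    (h : Tendsto (fun k : ℕ => F (smp (k ^ 2)) / ((k ^ 2 : ℕ) : ℝ)) atTop (𝓝 L)) :
    Tendsto (fun n : ℕ => F n / Real.log n) atTop (𝓝 L) := by
  have h1 : Tendsto (fun m : ℕ => F (smp m) / (m : ℝ)) atTop (𝓝 L) := by
    refine tendsto_div_of_monotone_of_exists_subseq_tendsto_div (fun m => F (smp m)) L
      (fun m n hmn => hF (smp_mono hmn)) fun c hc => ?_
    refine ⟨fun k => k ^ 2, ?_, tendsto_pow_atTop two_ne_zero, h⟩
    have h2 : Tendsto (fun k : ℕ => (1 + 1 / (k : ℝ)) ^ 2) atTop (𝓝 ((1 + 0) ^ 2)) :=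
      ((tendsto_one_div_atTop_nhds_zero_nat (𝕜 := ℝ)).const_add 1).pow 2
    have h3 : ∀ᶠ k : ℕ in atTop, (1 + 1 / (k : ℝ)) ^ 2 < c := h2.eventually (gt_mem_nhds (by simpa using hc))
    filter_upwards [h3, eventually_ge_atTop 1] with k hk hk1
    have hk0 : (0 : ℝ) < k := by exact_mod_cast hk1
    have e : (((k + 1) ^ 2 : ℕ) : ℝ) = (1 + 1 / (k : ℝ)) ^ 2 * ((k ^ 2 : ℕ) : ℝ) := by
      push_cast
      field_simp
    rw [e]
    gcongr
  -- integer part of the logarithm
  set m : ℕ → ℕ := fun n => ⌊Real.log n⌋₊ with hm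
  have hmt : Tendsto m atTop atTop := tendsto_nat_floor_atTop.comp log_nat_tendsto
  have hlow : Tendsto (fun n : ℕ => F (smp (m n)) / ((m n : ℝ) + 1)) atTop (𝓝 L) := by
    have h2 : Tendsto (fun k : ℕ => F (smp k) / (k : ℝ) * ((k : ℝ) / (k + 1))) atTop (𝓝 (L * 1)) :=
      h1.mul (tendsto_natCast_div_add_atTop (1 : ℝ))
    rw [mul_one] at h2
    refine (h2.comp hmt).congr' ?_
    filter_upwards [hmt.eventually (eventually_ge_atTop 1)] with n hn
    have : (0 : ℝ) < m n := by exact_mod_cast hn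
    simp only [Function.comp]
    field_simp
  have hup : Tendsto (fun n : ℕ => F (smp (m n + 1)) / (m n : ℝ)) atTop (𝓝 L) := by
    have h2 : Tendsto (fun k : ℕ => F (smp (k + 1)) / ((k + 1 : ℕ) : ℝ) * (1 + 1 / (k : ℝ))) atTop
        (𝓝 (L * (1 + 0))) :=
      ((tendsto_add_atTop_iff_nat (f := fun m : ℕ => F (smp m) / (m : ℝ)) 1).mpr h1).mul
        ((tendsto_one_div_atTop_nhds_zero_nat (𝕜 := ℝ)).const_add 1)
    rw [add_zero, mul_one] at h2
    refine (h2.comp hmt).congr' ?_
    filter_upwards [hmt.eventually (eventually_ge_atTop 1)] with n hn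
    have : (0 : ℝ) < m n := by exact_mod_cast hn
    simp only [Function.comp]
    push_cast
    field_simp
  refine tendsto_of_tendsto_of_tendsto_of_le_of_le' hlow hup ?_ ?_
  · filter_upwards [eventually_ge_atTop 3] with n hn
    have hn0 : (3 : ℝ) ≤ n := by exact_mod_cast hn
    have hlog : 0 < Real.log n := Real.log_pos (by linarith)
    have h2 : Real.log n < m n + 1 := Nat.lt_floor_add_one _
    have h3 : smp (m n) ≤ n := by
      have h4 : Real.exp (m n : ℝ) ≤ n := by
        rw [← Real.le_log_iff_exp_le (by linarith)]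
        exact Nat.floor_le hlog.le
      unfold smp
      exact Nat.floor_le_of_le h4
    exact div_le_div₀ (hF0 n) (hF h3) hlog h2.le
  · filter_upwards [eventually_ge_atTop 3, hmt.eventually (eventually_ge_atTop 1)] with n hn hmn
    have hn0 : (3 : ℝ) ≤ n := by exact_mod_cast hn
    have hlog : 0 < Real.log n := Real.log_pos (by linarith)
    have hm0 : (0 : ℝ) < m n := by exact_mod_cast hmn
    have h2 : (m n : ℝ) ≤ Real.log n := Nat.floor_le hlog.le
    have h3 : n ≤ smp (m n + 1) := by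
      have h4 : (n : ℝ) ≤ Real.exp ((m n + 1 : ℕ) : ℝ) := by
        rw [← Real.log_le_iff_le_exp (by linarith)]
        push_cast
        exact (Nat.lt_floor_add_one _).le
      unfold smp
      exact Nat.le_floor h4
    exact div_le_div₀ (hF0 _) (hF h3) hm0 h2

/-- `r n` is the residue modulo `b ^ n` of a random `b`-adic unit -/
structure Low {Ω : Type*} [MeasurableSpace Ω] (b : ℕ) (μ : Measure Ω) (r : ℕ → Ω → ℕ) : Prop where
  meas : ∀ n, Measurable (r n)
  compat : ∀ n x, r (n + 1) x % b ^ n = r n x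
  unif : ∀ n, 1 ≤ n → ∀ a, a < b ^ n → a.Coprime b →
    μ.real {x | r n x = a} = 1 / ((b ^ n).totient : ℝ)

section law

variable {Ω : Type*} [MeasurableSpace Ω] {μ : Measure Ω} [IsProbabilityMeasure μ] {b : ℕ}
  {r : ℕ → Ω → ℕ}

lemma Low.lt (hr : Low b μ r) (hb : 2 ≤ b) (n : ℕ) (x : Ω) : r n x < b ^ n := by
  rw [← hr.compat n x]
  exact Nat.mod_lt _ (by positivity)

lemma Low.mod (hr : Low b μ r) {p q : ℕ} (hpq : p ≤ q) (hb : 2 ≤ b) (x : Ω) :
    r q x % b ^ p = r p x := by
  obtain ⟨h, rfl⟩ := Nat.exists_eq_add_of_le hpq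
  induction h with
  | zero => exact Nat.mod_eq_of_lt (hr.lt hb p x)
  | succ h ih =>
    rw [← ih (by omega), ← hr.compat (p + h) x, Nat.mod_mod_of_dvd _ (pow_dvd_pow b (by omega))]
    rfl

lemma Low.measSet (hr : Low b μ r) (n a : ℕ) : MeasurableSet {x | r n x = a} :=
  (hr.meas n) (measurableSet_singleton a)

lemma Low.expand (hr : Low b μ r) (hb : 2 ≤ b) (n : ℕ) (f : ℕ → ℝ) (x : Ω) :
    f (r n x) = ∑ a ∈ range (b ^ n), Set.indicator {x | r n x = a} (fun _ => f a) x := by
  rw [Finset.sum_eq_single (r n x)]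
  · rw [Set.indicator_of_mem]
    rfl
  · intro a _ ha
    rw [Set.indicator_of_notMem]
    exact fun h => ha h.symm
  · intro h
    exact absurd (mem_range.2 (hr.lt hb n x)) h

lemma Low.integral_all (hr : Low b μ r) (hb : 2 ≤ b) (n : ℕ) (f : ℕ → ℝ) :
    ∫ x, f (r n x) ∂μ = ∑ a ∈ range (b ^ n), f a * μ.real {x | r n x = a} := by
  have h1 : ∀ x, f (r n x) = ∑ a ∈ range (b ^ n), Set.indicator {x | r n x = a} (fun _ => f a) x :=
    fun x => hr.expand hb n f x
  simp only [h1]
  rw [integral_finsetSum]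
  · refine Finset.sum_congr rfl fun a _ => ?_
    rw [integral_indicator (hr.measSet n a), setIntegral_const, smul_eq_mul, mul_comm]
  · intro a _
    exact (integrable_const (f a)).indicator (hr.measSet n a)

lemma Low.zero_of_not (hr : Low b μ r) (hb : 2 ≤ b) {n : ℕ} (hn : 1 ≤ n) :
    ∀ a ∈ range (b ^ n), ¬ a.Coprime b → μ.real {x | r n x = a} = 0 := by
  have h1 := hr.integral_all hb n (fun _ => (1 : ℝ))
  simp only [one_mul] at h1
  rw [integral_const, smul_eq_mul, mul_one, probReal_univ,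
    ← Finset.sum_filter_add_sum_filter_not (range (b ^ n)) (fun a => a.Coprime b)] at h1
  have h2 : ∑ a ∈ (range (b ^ n)).filter (fun a => a.Coprime b), μ.real {x | r n x = a} = 1 := by
    have h3 : ∀ a ∈ (range (b ^ n)).filter (fun a => a.Coprime b),
        μ.real {x | r n x = a} = 1 / ((b ^ n).totient : ℝ) := by
      intro a ha
      rw [mem_filter, mem_range] at ha
      exact hr.unif n hn a ha.1 ha.2
    rw [Finset.sum_congr rfl h3, Finset.sum_const, nsmul_eq_mul]
    have h4 : (((range (b ^ n)).filter (fun a => a.Coprime b)).card : ℝ) = ((b ^ n).totient : ℝ) := by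
      have := card_UU hb hn
      unfold UU at this
      exact_mod_cast this
    rw [h4]
    have := tot_pow_pos hb n
    field_simp
  rw [h2] at h1
  have h5 : ∑ a ∈ (range (b ^ n)).filter (fun a => ¬ a.Coprime b), μ.real {x | r n x = a} = 0 := by
    linarith
  intro a ha hc
  exact (Finset.sum_eq_zero_iff_of_nonneg (fun i _ => measureReal_nonneg)).1 h5 a
    (mem_filter.2 ⟨ha, hc⟩)

/-- expectations of functions of the residue -/
lemma Low.integral (hr : Low b μ r) (hb : 2 ≤ b) {n : ℕ} (hn : 1 ≤ n) (f : ℕ → ℝ) :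
    ∫ x, f (r n x) ∂μ = (∑ a ∈ UU b n, f a) / ((b ^ n).totient : ℝ) := by
  rw [hr.integral_all hb n f]
  unfold UU
  rw [Finset.sum_div, Finset.sum_filter]
  refine Finset.sum_congr rfl fun a ha => ?_
  by_cases hc : a.Coprime b
  · rw [if_pos hc, hr.unif n hn a (mem_range.1 ha) hc]
    ring
  · rw [if_neg hc, hr.zero_of_not hb hn a ha hc, mul_zero]

/-- the centred indicators -/
noncomputable def Gc (b : ℕ) (r : ℕ → Ω → ℕ) (p : ℕ) (x : Ω) : ℝ :=
  if p.Prime then rpi p (r p x) - mq b p else 0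

lemma Gc_meas (hr : Low b μ r) (p : ℕ) : Measurable (Gc b r p) := by
  unfold Gc
  split_ifs
  · exact (measurable_from_nat (f := rpi p)).comp (hr.meas p) |>.sub_const _
  · exact measurable_const

omit [MeasurableSpace Ω] in
lemma Gc_le (hb : 2 ≤ b) (p : ℕ) (x : Ω) : |Gc b r p x| ≤ 1 := by
  unfold Gc
  split_ifs with hp
  · have h1 := rpi_nonneg p (r p x)
    have h2 := rpi_le_one p (r p x)
    have h3 := mq_nonneg b p
    have h4 := mq_le_one hb hp.one_lt.le
    rw [abs_le]
    constructor <;> linarith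
  · simp

lemma Gc_diag (hr : Low b μ r) (hb : 2 ≤ b) (p : ℕ) (hp1 : 1 ≤ p) :
    ∫ x, (Gc b r p x) ^ 2 ∂μ ≤ mq b p := by
  by_cases hp : p.Prime
  · have h1 : ∀ x, (Gc b r p x) ^ 2 = (fun m : ℕ => (rpi p m - mq b p) ^ 2) (r p x) := by
      intro x
      unfold Gc
      rw [if_pos hp]
    simp only [h1]
    have h2 := hr.integral hb hp1 (fun m : ℕ => (rpi p m - mq b p) ^ 2)
    rw [h2, div_le_iff₀ (tot_pow_pos hb p)]
    have h3 : ∀ m : ℕ, (rpi p m - mq b p) ^ 2 = rpi p m - 2 * mq b p * rpi p m + mq b p ^ 2 := by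
      intro m
      have : rpi p m ^ 2 = rpi p m := by unfold rpi; split_ifs <;> norm_num
      calc (rpi p m - mq b p) ^ 2 = rpi p m ^ 2 - 2 * mq b p * rpi p m + mq b p ^ 2 := by ring
        _ = _ := by rw [this]
    simp only [h3]
    rw [Finset.sum_add_distrib, Finset.sum_sub_distrib, ← Finset.mul_sum, sum_UU_rpi hb,
      Finset.sum_const, nsmul_eq_mul, card_UU hb hp1]
    have h4 := tot_pow_pos hb p
    nlinarith [sq_nonneg (mq b p), mul_nonneg (sq_nonneg (mq b p)) h4.le]
  · have h1 : ∀ x, (Gc b r p x) ^ 2 = 0 := by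
      intro x
      unfold Gc
      rw [if_neg hp]
      norm_num
    simp only [h1]
    rw [integral_zero]
    exact mq_nonneg b p

lemma Gc_prod (hr : Low b μ r) (hb : 2 ≤ b) {p q : ℕ} (hp : p.Prime) (hpq : p < q) :
    |∫ x, Gc b r p x * Gc b r q x ∂μ| ≤ |CO b p q| := by
  by_cases hq : q.Prime
  · have h1 : ∀ x, Gc b r p x * Gc b r q x =
        (fun m : ℕ => (rpi p (m % b ^ p) - mq b p) * (rpi q m - mq b q)) (r q x) := by
      intro x
      unfold Gc
      rw [if_pos hp, if_pos hq]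
      simp only
      rw [hr.mod hpq.le hb x]
    simp only [h1]
    have h2 := hr.integral hb (n := q) (by omega)
      (fun m : ℕ => (rpi p (m % b ^ p) - mq b p) * (rpi q m - mq b q))
    rw [h2]
    exact le_rfl
  · have h1 : ∀ x, Gc b r p x * Gc b r q x = 0 := by
      intro x
      unfold Gc
      rw [if_neg hq, mul_zero]
    simp only [h1]
    rw [integral_zero, abs_zero]
    exact abs_nonneg _

/-- the number of primes `p ≤ n` for which the `p`-rough part of `s p` is prime -/
def cntR (s : ℕ → ℕ) (n : ℕ) : ℕ :=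
  ((Finset.Icc 1 n).filter fun p => p.Prime ∧ (roughPart p (s p)).Prime).card

omit [MeasurableSpace Ω] in
lemma cntR_eq (s : ℕ → ℕ) (n : ℕ) : (cntR s n : ℝ) =
    ∑ p ∈ (Finset.Icc 1 n).filter Nat.Prime, rpi p (s p) := by
  unfold cntR rpi
  rw [Finset.card_eq_sum_ones, Finset.sum_filter, Finset.sum_filter]
  push_cast
  refine Finset.sum_congr rfl fun p _ => ?_
  by_cases h1 : p.Prime <;> by_cases h2 : (roughPart p (s p)).Prime <;> simp [h1, h2]

/-- **The almost sure law.** -/
theorem law_low (hb : 2 ≤ b) (hr : Low b μ r) : ∀ᵐ x ∂μ,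
    Tendsto (fun n : ℕ => (cntR (fun p => r p x) n : ℝ) / Real.log n) atTop
      (𝓝 (Real.exp Real.eulerMascheroniConstant / Real.log b)) := by
  obtain ⟨C, hC, P, hP3, hrow⟩ := CO_row hb
  obtain ⟨K, hK, hmq⟩ := mq_le hb
  obtain ⟨P1, hP1⟩ := eventually_atTop.1 hmq
  have hw0 : ∀ m : ℕ, 0 ≤ Real.log m / m := fun m =>
    div_nonneg (Real.log_natCast_nonneg m) (Nat.cast_nonneg m)
  set P' := P + P1 with hP'
  have hmain := Pool.Agent.W66S.ae_abs (μ := μ) (G := Gc b r) (Gc_meas hr) (Gc_le hb) (C := C + K)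
    (by positivity) (P := P') (by omega)
    (by
      intro p hp
      refine ((Gc_diag hr hb p (by omega)).trans (hP1 p (by omega))).trans ?_
      exact mul_le_mul_of_nonneg_right (by linarith) (hw0 p))
    (by
      intro q hq
      have hq3 : (3 : ℝ) ≤ q := by exact_mod_cast (by omega : 3 ≤ q)
      have hll : 0 ≤ Real.log (Real.log q) := by
        refine Real.log_nonneg ?_
        rw [Real.le_log_iff_exp_le (by linarith)]
        have := Real.exp_one_lt_d9
        linarith
      calc ∑ p ∈ (Finset.Ico P' q).filter Nat.Prime, |∫ x, Gc b r p x * Gc b r q x ∂μ| ≤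
          ∑ p ∈ (Finset.Ico P' q).filter Nat.Prime, |CO b p q| := by
            refine Finset.sum_le_sum fun p hp => ?_
            rw [mem_filter, mem_Ico] at hp
            exact Gc_prod hr hb hp.2 hp.1.2
        _ ≤ ∑ p ∈ (Finset.Ico P q).filter Nat.Prime, |CO b p q| := by
            apply Finset.sum_le_sum_of_subset_of_nonneg
            · intro p hp
              rw [mem_filter, mem_Ico] at hp
              rw [mem_filter, mem_Ico]
              exact ⟨⟨by omega, hp.1.2⟩, hp.2⟩
            · intro _ _ _; exact abs_nonneg _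
        _ ≤ C * ((Real.log q / q) * (1 + Real.log (Real.log q))) := hrow q (by omega)
        _ ≤ _ := by
            apply mul_le_mul_of_nonneg_right (by linarith)
            exact mul_nonneg (hw0 q) (by linarith))
  filter_upwards [hmain] with x hx
  set L := Real.exp Real.eulerMascheroniConstant / Real.log b with hL
  set F : ℕ → ℝ := fun n => ∑ p ∈ (Finset.Icc 1 n).filter Nat.Prime, rpi p (r p x) with hF
  have hFe : ∀ n : ℕ, (cntR (fun p => r p x) n : ℝ) = F n := fun n => cntR_eq (fun p => r p x) n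
  simp only [hFe]
  have hFmono : Monotone F := by
    intro m n h
    simp only [hF]
    refine Finset.sum_le_sum_of_subset_of_nonneg ?_ fun p _ _ => rpi_nonneg p _
    exact Finset.filter_subset_filter _ (Finset.Icc_subset_Icc_right h)
  have hF0 : ∀ n, 0 ≤ F n := fun n => Finset.sum_nonneg fun p _ => rpi_nonneg p _
  refine all_n_mono hFmono hF0 ?_
  have hmean : Tendsto (fun n : ℕ => (∑ p ∈ (Finset.Icc 1 n).filter Nat.Prime, mq b p) /
      Real.log n) atTop (𝓝 L) := cesaro (mq b) _ (mq_tendsto hb)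
  have hsq : Tendsto (fun k : ℕ => k ^ 2) atTop atTop := tendsto_pow_atTop two_ne_zero
  have h1 := (hmean.comp tendsto_smp).comp hsq
  have h2 := log_smp_div.comp hsq
  have h3 := h1.mul h2
  rw [mul_one] at h3
  have h4 : Tendsto (fun k : ℕ => ((P' : ℝ) + 1) / ((k ^ 2 : ℕ) : ℝ)) atTop (𝓝 0) :=
    (tendsto_natCast_atTop_atTop.comp hsq).const_div_atTop _
  have hsub : ∀ n : ℕ, |F n - (∑ p ∈ (Finset.Icc 1 n).filter Nat.Prime, mq b p) -
      ∑ p ∈ (Finset.Icc P' n).filter Nat.Prime, Gc b r p x| ≤ P' + 1 := by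
    intro n
    have g1 : F n - (∑ p ∈ (Finset.Icc 1 n).filter Nat.Prime, mq b p) =
        ∑ p ∈ (Finset.Icc 1 n).filter Nat.Prime, Gc b r p x := by
      simp only [hF]
      rw [← Finset.sum_sub_distrib]
      refine Finset.sum_congr rfl fun p hp => ?_
      unfold Gc
      rw [if_pos (mem_filter.1 hp).2]
    have g2 : ∑ p ∈ (Finset.Icc 1 n).filter Nat.Prime, Gc b r p x =
        ∑ p ∈ (Finset.Icc P' n).filter Nat.Prime, Gc b r p x +
        ∑ p ∈ ((Finset.Icc 1 n).filter Nat.Prime).filter (fun p => p < P'), Gc b r p x := by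
      rw [← Finset.sum_filter_add_sum_filter_not ((Finset.Icc 1 n).filter Nat.Prime)
        (fun p => p < P'), add_comm]
      congr 1
      refine Finset.sum_congr ?_ fun _ _ => rfl
      ext p
      simp only [Finset.mem_filter, Finset.mem_Icc, not_lt]
      constructor
      · rintro ⟨⟨⟨h1, h2⟩, h3⟩, h4⟩
        exact ⟨⟨h4, h2⟩, h3⟩
      · rintro ⟨⟨h1, h2⟩, h3⟩
        exact ⟨⟨⟨h3.one_lt.le, h2⟩, h3⟩, h1⟩
    rw [g1, g2, add_sub_cancel_left]
    refine (Finset.abs_sum_le_sum_abs _ _).trans ?_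
    calc ∑ p ∈ ((Finset.Icc 1 n).filter Nat.Prime).filter (fun p => p < P'), |Gc b r p x|
        ≤ ∑ p ∈ ((Finset.Icc 1 n).filter Nat.Prime).filter (fun p => p < P'), (1 : ℝ) :=
          Finset.sum_le_sum fun p _ => Gc_le hb _ _
      _ ≤ ∑ p ∈ Finset.range (P' + 1), (1 : ℝ) := by
          refine Finset.sum_le_sum_of_subset_of_nonneg ?_ fun _ _ _ => zero_le_one
          intro p hp
          have := (Finset.mem_filter.mp hp).2
          exact Finset.mem_range.mpr (by omega)
      _ = P' + 1 := by simp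
  have h5 : Tendsto (fun k : ℕ => (F (smp (k ^ 2)) -
      (∑ p ∈ (Finset.Icc 1 (smp (k ^ 2))).filter Nat.Prime, mq b p) -
      ∑ p ∈ (Finset.Icc P' (smp (k ^ 2))).filter Nat.Prime, Gc b r p x) /
        ((k ^ 2 : ℕ) : ℝ)) atTop (𝓝 0) := by
    refine squeeze_zero_norm (fun k => ?_) h4
    rw [Real.norm_eq_abs, abs_div, abs_of_nonneg (show (0 : ℝ) ≤ ((k ^ 2 : ℕ) : ℝ) from
      Nat.cast_nonneg _)]
    exact div_le_div_of_nonneg_right (hsub _) (Nat.cast_nonneg _)
  have h6 := (h5.add h3).add hx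
  rw [zero_add, add_zero] at h6
  refine h6.congr' ?_
  filter_upwards [eventually_ge_atTop 2] with k hk
  have hk0 : (2 : ℝ) ≤ k := by exact_mod_cast hk
  have hlog : 0 < Real.log (smp (k ^ 2)) := by
    have := log_smp_ge (k ^ 2)
    push_cast at this
    nlinarith
  simp only [Function.comp]
  push_cast
  field_simp
  ring

end law

end Pool.Agent.W66L
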