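import Pool.Agent.W66.LV

set_option autoImplicit false

/-!
# Near pairs for the low digits with a multiplier
-/

open Filter Topology Finset
open scoped Real
open Pool.Agent.Helper112.E456.SieveAux (DD)

namespace Pool.Agent.W66L

open Pool.Agent.W66
open Pool.Agent.H305R2 (roughPart roughPart_prime SM SM_pos SMz mem_SMz ZZ VV sum_rough_eq sum_le_VV
  tail_le ZZ_le_exp ZZ_nonneg VV_nonneg VV_tendsto log_nat_tendsto)

/-- the count for a fixed carry `s` and fixed higher digits `t` -/
lemma near_st {a B : ℕ} (hB1 : 1 ≤ B) (hBa : B < a) : ∃ C : ℝ, 0 < C ∧ ∀ᶠ p : ℕ in atTop,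
    ∀ h s t : ℕ, 1 ≤ h → h ≤ p → s < B ^ h → t < a ^ h → s ≠ t →
    (((Icc 1 (a ^ p)).filter (fun x : ℕ => x * B ^ h / a ^ p = s ∧
      Real.exp (3 * (Real.log a * p) / 4) ≤ x ∧
      ((roughPart p x).Prime ∧ ((x / roughPart p x : ℕ) : ℝ) < Real.exp (Real.log a * p / 2)) ∧
      Real.exp (3 * (Real.log a * p) / 4) ≤ ((x * B ^ h % a ^ p + a ^ p * t : ℕ) : ℝ) ∧
      ((roughPart (p + h) (x * B ^ h % a ^ p + a ^ p * t)).Prime ∧
        (((x * B ^ h % a ^ p + a ^ p * t) /
          roughPart (p + h) (x * B ^ h % a ^ p + a ^ p * t) : ℕ) : ℝ) <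
          Real.exp (Real.log a * p / 2)))).card : ℝ) ≤
      C * (Real.log p / p) ^ 2 * ((a : ℝ) ^ p / (B : ℝ) ^ h) := by
  classical
  have ha : 2 ≤ a := by omega
  obtain ⟨C0, hC0, hsv⟩ := sift_two
  obtain ⟨C1, hC1, hrat⟩ := ratio_bound ha
  set lb := Real.log a with hlb
  have hlb0 : 0 < lb := Real.log_pos (by exact_mod_cast ha)
  have hBr1 : (1 : ℝ) ≤ B := by exact_mod_cast hB1
  have hBr0 : (0 : ℝ) < B := by linarith
  have har : (2 : ℝ) ≤ a := by exact_mod_cast ha
  set lc := Real.log (a / B) with hlc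
  have hlc0 : 0 < lc := by
    apply Real.log_pos
    rw [one_lt_div hBr0]
    exact_mod_cast hBa
  refine ⟨2 * (C0 * (2 * C1) ^ 2) / lc ^ 2 + 1, by positivity, ?_⟩
  obtain ⟨P, hP⟩ := eventually_atTop.1 hrat
  have hsm := exp_small2 hlc0
  have hev2 : ∀ᶠ p : ℕ in atTop, 8 * Real.log 2 / lb ≤ (p : ℝ) :=
    (tendsto_natCast_atTop_atTop (R := ℝ)).eventually_ge_atTop _
  filter_upwards [eventually_ge_atTop P, eventually_ge_atTop 2, hsm, hev2] with p hpP hp2 hsmp he2p
    h s t hh1 hhp hs ht hst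
  have hp2' : (2 : ℝ) ≤ p := by exact_mod_cast hp2
  have hp0 : (0 : ℝ) < p := by linarith
  set q := p + h with hq
  have hbp : (a : ℝ) ^ p = Real.exp (lb * p) := by
    rw [mul_comm, Real.exp_nat_mul, hlb, Real.exp_log (by linarith)]
  set A := a ^ p with hA
  set D := B ^ h with hD
  have hA0 : 0 < A := by positivity
  have hD0 : 0 < D := by positivity
  have hAr : (A : ℝ) = (a : ℝ) ^ p := by rw [hA]; push_cast; rfl
  have hDr : (D : ℝ) = (B : ℝ) ^ h := by rw [hD]; push_cast; rfl
  have hDr0 : (0 : ℝ) < D := by exact_mod_cast hD0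
  have hAr0 : (0 : ℝ) < A := by exact_mod_cast hA0
  -- `A / D` is large
  have hratio : Real.exp (lc * p) ≤ (A : ℝ) / D := by
    have e1 : Real.exp (lc * p) = ((a : ℝ) / B) ^ p := by
      rw [mul_comm, Real.exp_nat_mul, hlc, Real.exp_log (by positivity)]
    rw [e1, div_pow, hAr, hDr]
    apply div_le_div_of_nonneg_left (by positivity) (by positivity)
    exact pow_le_pow_right₀ hBr1 hhp
  have hDA : D < A := by
    have h1 : (1 : ℝ) < (A : ℝ) / D := lt_of_lt_of_le (by
      have : 0 < lc * p := by positivity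
      exact Real.one_lt_exp_iff.2 this) hratio
    rw [one_lt_div hDr0] at h1
    exact_mod_cast h1
  -- base point
  set c1 := (A * s - 1) / D + 1 with hc1
  have hc1lo : A * s ≤ D * c1 := by
    have := Nat.lt_mul_div_succ (A * s - 1) hD0
    rw [← hc1] at this
    omega
  set N := A / D + 1 with hN
  have hAD1 : 1 ≤ A / D := (Nat.one_le_div_iff hD0).2 hDA.le
  have hN2 : 2 ≤ N := by omega
  have hNr1 : (N : ℝ) ≤ 2 * ((A : ℝ) / D) := by
    have h2 : ((A / D : ℕ) : ℝ) ≤ (A : ℝ) / D := Nat.cast_div_le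
    have h1 : (1 : ℝ) ≤ ((A / D : ℕ) : ℝ) := by exact_mod_cast hAD1
    rw [hN]
    push_cast
    linarith
  have hNr2 : (A : ℝ) / D ≤ N := by
    rw [div_le_iff₀ hDr0]
    have h2 := Nat.lt_div_mul_add (a := A) hD0
    have h3 : A ≤ N * D := by rw [hN]; linarith
    exact_mod_cast h3
  have hN0 : (0 : ℝ) < N := by
    have : (2 : ℝ) ≤ N := by exact_mod_cast hN2
    linarith
  have hNA : N ≤ A ∨ D = 1 := by
    rcases Nat.lt_or_ge 1 D with h1 | h1
    · left
      have : A / D ≤ A / 2 := Nat.div_le_div_left h1 (by norm_num)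
      have hA2 : 2 ≤ A := by omega
      omega
    · right; omega
  set Fl := (Icc 1 A).filter (fun x : ℕ => x * D / A = s ∧
      Real.exp (3 * (lb * p) / 4) ≤ x ∧
      ((roughPart p x).Prime ∧ ((x / roughPart p x : ℕ) : ℝ) < Real.exp (lb * p / 2)) ∧
      Real.exp (3 * (lb * p) / 4) ≤ ((x * D % A + A * t : ℕ) : ℝ) ∧
      ((roughPart q (x * D % A + A * t)).Prime ∧
        (((x * D % A + A * t) /
          roughPart q (x * D % A + A * t) : ℕ) : ℝ) <
          Real.exp (lb * p / 2))) with hFl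
  -- the element `c1` itself
  set F1 := Fl.filter (fun x => c1 < x) with hF1
  have hsplit : (Fl.card : ℝ) ≤ 1 + (F1.card : ℝ) := by
    have h1 : Fl ⊆ {c1} ∪ F1 := by
      intro x hx
      rw [mem_union, mem_singleton]
      by_cases h2 : c1 < x
      · right; exact mem_filter.2 ⟨hx, h2⟩
      · left
        rw [hFl, mem_filter, mem_Icc] at hx
        obtain ⟨⟨h3, _⟩, h4, _⟩ := hx
        -- `x D ≥ A s`
        have h5 : A * s ≤ x * D := by rw [← h4]; exact Nat.mul_div_le _ _
        have h6 : c1 ≤ x := by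
          rw [hc1]
          rcases Nat.eq_zero_or_pos s with h7 | h7
          · rw [h7, mul_zero, Nat.zero_sub, Nat.zero_div]
            omega
          · have h8 : (A * s - 1) / D < x := by
              rw [Nat.div_lt_iff_lt_mul hD0]
              have : 0 < A * s := Nat.mul_pos hA0 h7
              omega
            omega
        omega
    have h2 := Finset.card_le_card h1
    have h3 := Finset.card_union_le ({c1} : Finset ℕ) F1
    rw [card_singleton] at h3
    exact_mod_cast h2.trans h3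
  set S := F1.image (fun x => x - c1) with hS
  have hcardS : F1.card = S.card := by
    rw [hS, Finset.card_image_of_injOn]
    intro x hx y hy hxy
    rw [Finset.mem_coe, hF1, mem_filter] at hx hy
    simp only at hxy
    omega
  have hmemF : ∀ x ∈ F1, A * s ≤ x * D ∧ x * D < A * (s + 1) ∧ c1 < x := by
    intro x hx
    rw [hF1, mem_filter, hFl, mem_filter] at hx
    obtain ⟨⟨_, h4, _⟩, h5⟩ := hx
    refine ⟨by rw [← h4]; exact Nat.mul_div_le _ _, ?_, h5⟩
    have := Nat.lt_mul_div_succ (x * D) hA0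
    rw [h4] at this
    exact this
  have hSsub : S ⊆ Icc 1 N := by
    intro n hn
    rw [hS, mem_image] at hn
    obtain ⟨x, hx, rfl⟩ := hn
    obtain ⟨h1, h2, h3⟩ := hmemF x hx
    rw [mem_Icc]
    refine ⟨by omega, ?_⟩
    -- `(x - c1) D < A`
    have h4 : (x - c1) * D < A := by
      rw [Nat.sub_mul]
      have h5 : c1 * D = D * c1 := mul_comm _ _
      rw [mul_add, mul_one] at h2
      omega
    have h5 : x - c1 ≤ A / D := by
      rw [Nat.le_div_iff_mul_le hD0]
      exact h4.le
    omega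
  -- the second linear form
  set b2 := D * c1 - A * s + A * t with hb2
  set r := (if s < t then t - s else s - t) * D with hr
  have hr0 : 0 < r := by
    rw [hr]
    apply Nat.mul_pos _ hD0
    split_ifs <;> omega
  have hrlt : r < a ^ q := by
    have hah : 0 < a ^ h := by positivity
    have hDh : D ≤ a ^ h := Nat.pow_le_pow_left hBa.le h
    have h1 : (if s < t then t - s else s - t) < a ^ h := by
      split_ifs
      · omega
      · omega
    calc r < a ^ h * a ^ h := by
          rw [hr]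
          exact Nat.mul_lt_mul_of_lt_of_le h1 hDh (by omega)
      _ = a ^ (2 * h) := by rw [← pow_add]; congr 1; omega
      _ ≤ a ^ q := Nat.pow_le_pow_right (by omega) (by omega)
  have hDD : DD 1 c1 D b2 ∣ MM q a q r := by
    have e : DD 1 c1 D b2 = D * (A * (if s < t then t - s else s - t)) := by
      unfold Pool.Agent.Helper112.E456.SieveAux.DD
      have e2 : ((((1 * b2 : ℕ) : ℤ)) - ((D * c1 : ℕ) : ℤ)) = (A : ℤ) * ((t : ℤ) - s) := by
        rw [hb2]
        push_cast [Nat.cast_sub hc1lo]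
        ring
      rw [e2, one_mul, Int.natAbs_mul, Int.natAbs_natCast]
      congr 2
      split_ifs with h1
      · omega
      · omega
    rw [e]
    unfold MM
    have h1 : D * (A * (if s < t then t - s else s - t)) ∣ a ^ q * r := by
      rw [hr]
      have h2 : D * (A * (if s < t then t - s else s - t)) =
          A * ((if s < t then t - s else s - t) * D) := by ring
      rw [h2]
      exact Nat.mul_dvd_mul (pow_dvd_pow a (by omega)) dvd_rfl
    exact h1.trans (dvd_mul_left _ _)
  have hq2 : 2 ≤ q := by omega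
  have hM0 : MM q a q r ≠ 0 := MM_ne ha hr0
  have hzN : (N : ℝ) ^ ((1 : ℝ) / 8) ≤ Real.exp (lb * p / 8) * 2 := by
    have h1 : (N : ℝ) ≤ Real.exp (lb * p) * 2 := by
      refine hNr1.trans ?_
      rw [← hbp, ← hAr]
      have : (A : ℝ) / D ≤ A := by
        apply div_le_self hAr0.le
        exact_mod_cast hD0
      linarith
    calc (N : ℝ) ^ ((1 : ℝ) / 8) ≤ (Real.exp (lb * p) * 2) ^ ((1 : ℝ) / 8) :=
          Real.rpow_le_rpow hN0.le h1 (by norm_num)
      _ = Real.exp (lb * p) ^ ((1 : ℝ) / 8) * 2 ^ ((1 : ℝ) / 8) :=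
          Real.mul_rpow (Real.exp_pos _).le (by norm_num)
      _ ≤ Real.exp (lb * p / 8) * 2 := by
          have e1 : Real.exp (lb * p) ^ ((1 : ℝ) / 8) = Real.exp (lb * p / 8) := by
            rw [← Real.exp_mul]; ring_nf
          rw [e1]
          apply mul_le_mul_of_nonneg_left _ (Real.exp_pos _).le
          calc (2 : ℝ) ^ ((1 : ℝ) / 8) ≤ 2 ^ (1 : ℝ) :=
                Real.rpow_le_rpow_of_exponent_le (by norm_num) (by norm_num)
            _ = 2 := Real.rpow_one 2
  have hlbp : 0 < lb * p := by positivity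
  have h2exp : (2 : ℝ) ≤ Real.exp (lb * p / 8) := by
    rw [div_le_iff₀ hlb0] at he2p
    calc (2 : ℝ) = Real.exp (Real.log 2) := (Real.exp_log (by norm_num)).symm
      _ ≤ Real.exp (lb * p / 8) := Real.exp_le_exp.2 (by linarith)
  have hzS : Real.exp (lb * p / 8) * 2 * Real.exp (lb * p / 2) ≤ Real.exp (3 * (lb * p) / 4) := by
    have e1 : Real.exp (3 * (lb * p) / 4) =
        Real.exp (lb * p / 8) * Real.exp (lb * p / 8) * Real.exp (lb * p / 2) := by
      rw [← Real.exp_add, ← Real.exp_add]; ring_nf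
    rw [e1]
    exact mul_le_mul_of_nonneg_right (mul_le_mul_of_nonneg_left h2exp (Real.exp_pos _).le)
      (Real.exp_pos _).le
  have hmain := hsv 1 c1 D b2 N (MM q a q r) one_pos hD0
    (two_dvd_MM hq2) hM0 hDD hN2 S hSsub (by
      intro n hn l hl hlz hlM
      have hql := lt_of_not_dvd_MM hl hlM
      rw [hS, mem_image] at hn
      obtain ⟨x, hx, rfl⟩ := hn
      obtain ⟨k1, k2, k3⟩ := hmemF x hx
      rw [hF1, mem_filter, hFl, mem_filter] at hx
      obtain ⟨⟨_, g1, g2, g3, g4, g5⟩, _⟩ := hx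
      have hlz' := hlz.trans hzN
      have e1 : 1 * (x - c1) + c1 = x := by omega
      have e2 : D * (x - c1) + b2 = x * D % A + A * t := by
        have h1 := Nat.div_add_mod (x * D) A
        rw [g1] at h1
        have h2 : D * (x - c1) = D * x - D * c1 := Nat.mul_sub _ _ _
        have h3 : D * c1 ≤ D * x := Nat.mul_le_mul_left _ k3.le
        have h4 : x * D = D * x := mul_comm _ _
        rw [h2, hb2]
        omega
      rw [e1, e2]
      exact ⟨no_mid_prime g3.1 g3.2 (hzS.trans g2) hl (by omega) hlz',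
        no_mid_prime g5.1 g5.2 (hzS.trans g4) hl hql hlz'⟩)
  have hr1 := hP q (by omega) q r le_rfl hr0 hrlt
  have hlq : Real.log q ≤ 2 * Real.log p := by
    have hq2p : (q : ℝ) ≤ p * p := by
      have : q ≤ p * p := by nlinarith
      exact_mod_cast this
    calc Real.log q ≤ Real.log (p * p) := Real.log_le_log (by positivity) hq2p
      _ = 2 * Real.log p := by rw [Real.log_mul hp0.ne' hp0.ne']; ring
  have hlq0 : 0 ≤ Real.log q := Real.log_natCast_nonneg q
  have hlp0 : 0 ≤ Real.log p := Real.log_natCast_nonneg p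
  have hr2 : ((MM q a q r : ℕ) : ℝ) / (Nat.totient (MM q a q r) : ℝ) ≤ 2 * C1 * Real.log p := by
    calc _ ≤ C1 * Real.log q := hr1
      _ ≤ C1 * (2 * Real.log p) := by gcongr
      _ = _ := by ring
  have hr00 : 0 ≤ ((MM q a q r : ℕ) : ℝ) / (Nat.totient (MM q a q r) : ℝ) := by positivity
  have hlogN : lc * p ≤ Real.log N := by
    have h1 : Real.exp (lc * p) ≤ N := hratio.trans hNr2
    have h2 := Real.log_le_log (Real.exp_pos _) h1
    rwa [Real.log_exp] at h2
  have hlcp : 0 < lc * p := by positivity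
  have hSc : (S.card : ℝ) ≤ 2 * (C0 * (2 * C1) ^ 2) / lc ^ 2 * (Real.log p / p) ^ 2 * ((A : ℝ) / D) := by
    calc (S.card : ℝ) ≤ C0 * (((MM q a q r : ℕ) : ℝ) / (Nat.totient (MM q a q r) : ℝ)) ^ 2 *
          N / (Real.log N) ^ 2 := hmain
      _ ≤ C0 * (2 * C1 * Real.log p) ^ 2 * (2 * ((A : ℝ) / D)) / (lc * p) ^ 2 := by
          gcongr
      _ = _ := by field_simp
  have hone : (1 : ℝ) ≤ (Real.log p / p) ^ 2 * ((A : ℝ) / D) := by
    calc (1 : ℝ) = Real.exp (-(lc * p)) * Real.exp (lc * p) := by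
          rw [← Real.exp_add]; simp
      _ ≤ (Real.log p / p) ^ 2 * ((A : ℝ) / D) := by
          apply mul_le_mul hsmp hratio (Real.exp_pos _).le (by positivity)
  rw [← hAr, ← hDr]
  calc (Fl.card : ℝ) ≤ 1 + (S.card : ℝ) := by rw [← hcardS]; exact hsplit
    _ ≤ (Real.log p / p) ^ 2 * ((A : ℝ) / D) +
        2 * (C0 * (2 * C1) ^ 2) / lc ^ 2 * (Real.log p / p) ^ 2 * ((A : ℝ) / D) :=
        add_le_add hone hSc
    _ = _ := by ring

end Pool.Agent.W66L
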