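import Pool.Agent.W66.LW

set_option autoImplicit false

/-!
# Near pairs with a multiplier: the total
-/

open Filter Topology Finset
open scoped Real

namespace Pool.Agent.W66L

open Pool.Agent.W66
open Pool.Agent.H305R2 (roughPart roughPart_prime SM SM_pos SMz mem_SMz ZZ VV sum_rough_eq sum_le_VV
  tail_le ZZ_le_exp ZZ_nonneg VV_nonneg VV_tendsto log_nat_tendsto)

lemma pos_of_rough {n m : ℕ} (hm : (roughPart n m).Prime) : 1 ≤ m := by
  rcases Nat.eq_zero_or_pos m with h0 | h0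
  · exfalso
    rw [h0] at hm
    unfold roughPart at hm
    simp [Nat.not_prime_one] at hm
  · exact h0

theorem near_pair {a B : ℕ} (hB1 : 1 ≤ B) (hBa : B < a) : ∃ K : ℝ, 0 < K ∧ ∀ᶠ p : ℕ in atTop,
    ∀ h : ℕ, 1 ≤ h → h ≤ p → ∀ τ : ℕ → ℕ,
    (∀ m, τ m < a ^ p ∧ (τ m * B ^ h) % a ^ p = m % a ^ p) →
    ∑ m ∈ UU a (p + h), rpi p (τ m) * rpi (p + h) m ≤
      AA a p + K * (a : ℝ) ^ (p + h) * (Real.log p / p) ^ 2 := by
  classical
  have ha : 2 ≤ a := by omega
  set lb := Real.log a with hlb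
  have hlb0 : 0 < lb := Real.log_pos (by exact_mod_cast ha)
  obtain ⟨C, hC, hnt⟩ := near_st hB1 hBa
  obtain ⟨P3, hP3⟩ := eventually_atTop.1 (ZZ_le_exp (c := lb / 16) (by positivity))
  have hsm := exp_small2 (c := lb / 8) (by positivity)
  refine ⟨C + 4, by positivity, ?_⟩
  filter_upwards [hnt, eventually_ge_atTop P3, hsm, eventually_ge_atTop 2] with p hntp hpP3 hsmp hp2
    h hh1 hhp τ hτ
  have hp0 : (0 : ℝ) < p := by exact_mod_cast (by omega : 0 < p)
  have hbr : (2 : ℝ) ≤ a := by exact_mod_cast ha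
  have hb0 : 0 < a := by omega
  have hbp : (a : ℝ) ^ p = Real.exp (lb * p) := by
    rw [mul_comm, Real.exp_nat_mul, hlb, Real.exp_log (by linarith)]
  set q := p + h with hq
  have hlbp : 0 < lb * p := by positivity
  set S := Real.exp (lb * p / 2) with hS
  have hS0 : 0 < S := Real.exp_pos _
  have hSm : S ^ (-(1 / 2) : ℝ) = Real.exp (-(lb * p / 4)) := by
    rw [hS, ← Real.exp_mul]; ring_nf
  have hqr : (q : ℝ) ≤ 2 * p := by
    have : q ≤ 2 * p := by omega
    exact_mod_cast this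
  have hdecay : ∀ m : ℕ, p ≤ m → (m : ℝ) ≤ 2 * p →
      S ^ (-(1 / 2) : ℝ) * ZZ m ≤ (Real.log p / p) ^ 2 := by
    intro m hpm hm
    rw [hSm]
    calc Real.exp (-(lb * p / 4)) * ZZ m ≤ Real.exp (-(lb * p / 4)) * Real.exp (lb / 16 * m) :=
          mul_le_mul_of_nonneg_left (hP3 m (by omega)) (Real.exp_pos _).le
      _ = Real.exp (-(lb * p / 4) + lb / 16 * m) := (Real.exp_add _ _).symm
      _ ≤ Real.exp (-(lb / 8 * p)) := by
          rw [Real.exp_le_exp]
          nlinarith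
      _ ≤ _ := hsmp
  have hw0 : 0 ≤ (Real.log p / p) ^ 2 := by positivity
  set N := a ^ p with hN
  set D := B ^ h with hD
  have hD0 : 0 < D := by positivity
  have hDr0 : (0 : ℝ) < D := by exact_mod_cast hD0
  have hDr : (D : ℝ) = (B : ℝ) ^ h := by rw [hD]; push_cast; rfl
  have hN0 : 0 < N := by positivity
  have hNr : (N : ℝ) = (a : ℝ) ^ p := by rw [hN]; push_cast; rfl
  have hqN : a ^ q = N * a ^ h := by rw [hq, pow_add]
  have hqNr : (a : ℝ) ^ q = (N : ℝ) * (a : ℝ) ^ h := by rw [hNr, hq, pow_add]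
  have hah1 : (1 : ℝ) ≤ (a : ℝ) ^ h := one_le_pow₀ (by linarith)
  -- the set of pairs
  set T := (range (a ^ q)).filter (fun m => m.Coprime a ∧ (roughPart p (τ m)).Prime ∧
    (roughPart q m).Prime) with hT
  have hJC : ∑ m ∈ UU a q, rpi p (τ m) * rpi q m = (T.card : ℝ) := by
    unfold UU
    rw [hT, Finset.card_eq_sum_ones, Finset.sum_filter, Finset.sum_filter]
    push_cast
    refine Finset.sum_congr rfl fun m _ => ?_
    unfold rpi
    by_cases h1 : m.Coprime a <;> by_cases h2 : (roughPart p (τ m)).Prime <;>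
      by_cases h3 : (roughPart q m).Prime <;> simp [h1, h2, h3]
  rw [hJC]
  set T0 := T.filter (fun m => m / N = τ m * D / N) with hT0
  set T1 := T.filter (fun m => ((τ m : ℕ) : ℝ) < Real.exp (3 * (lb * p) / 4)) with hT1
  set T5 := T.filter (fun m => ((m : ℕ) : ℝ) < Real.exp (3 * (lb * p) / 4)) with hT5
  set T2 := T.filter (fun m => S ≤ (((τ m) / roughPart p (τ m) : ℕ) : ℝ)) with hT2
  set T3 := T.filter (fun m => S ≤ ((m / roughPart q m : ℕ) : ℝ)) with hT3
  set T4 := T.filter (fun m => m / N ≠ τ m * D / N ∧ Real.exp (3 * (lb * p) / 4) ≤ ((τ m : ℕ) : ℝ) ∧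
    Real.exp (3 * (lb * p) / 4) ≤ ((m : ℕ) : ℝ) ∧
    (((τ m) / roughPart p (τ m) : ℕ) : ℝ) < S ∧ ((m / roughPart q m : ℕ) : ℝ) < S) with hT4
  have hTsub : T ⊆ ((((T0 ∪ T1) ∪ T5) ∪ T2) ∪ T3) ∪ T4 := by
    intro m hm
    simp only [mem_union]
    by_cases h0 : m / N = τ m * D / N
    · left; left; left; left; left; exact mem_filter.2 ⟨hm, h0⟩
    by_cases h1 : ((τ m : ℕ) : ℝ) < Real.exp (3 * (lb * p) / 4)
    · left; left; left; left; right; exact mem_filter.2 ⟨hm, h1⟩
    by_cases h5 : ((m : ℕ) : ℝ) < Real.exp (3 * (lb * p) / 4)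
    · left; left; left; right; exact mem_filter.2 ⟨hm, h5⟩
    by_cases h2 : S ≤ (((τ m) / roughPart p (τ m) : ℕ) : ℝ)
    · left; left; right; exact mem_filter.2 ⟨hm, h2⟩
    by_cases h3 : S ≤ ((m / roughPart q m : ℕ) : ℝ)
    · left; right; exact mem_filter.2 ⟨hm, h3⟩
    · right
      exact mem_filter.2 ⟨hm, h0, not_lt.1 h1, not_lt.1 h5, not_le.1 h2, not_le.1 h3⟩
  have hmemT : ∀ m ∈ T, m < a ^ q ∧ m.Coprime a ∧ (roughPart p (τ m)).Prime ∧
      (roughPart q m).Prime := by
    intro m hm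
    rw [hT, mem_filter, mem_range] at hm
    exact hm
  -- T0
  have c0 : (T0.card : ℝ) ≤ AA a p := by
    rw [AA_eq_range]
    have h1 : ∑ m ∈ (range (a ^ p)).filter (fun m => m.Coprime a), rpi p m =
        (((range (a ^ p)).filter (fun m => m.Coprime a ∧ (roughPart p m).Prime)).card : ℝ) := by
      rw [Finset.card_eq_sum_ones, Finset.sum_filter, Finset.sum_filter]
      push_cast
      refine Finset.sum_congr rfl fun m _ => ?_
      unfold rpi
      by_cases h1 : m.Coprime a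
      · by_cases h2 : (roughPart p m).Prime
        · rw [if_pos h1, if_pos h2, if_pos ⟨h1, h2⟩]
        · rw [if_pos h1, if_neg h2, if_neg fun h9 => h2 h9.2]
      · rw [if_neg h1, if_neg fun h9 => h1 h9.1]
    rw [h1]
    have hval : ∀ m ∈ T0, m = τ m * D := by
      intro m hm
      rw [hT0, mem_filter] at hm
      have e1 := (hτ m).2
      have e2 := Nat.div_add_mod (τ m * D) N
      have e3 := Nat.div_add_mod m N
      rw [← hm.2, e1] at e2
      omega
    have hinj : Set.InjOn τ (T0 : Set ℕ) := by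
      intro m hm m' hm' hmm
      rw [hval m (Finset.mem_coe.1 hm), hval m' (Finset.mem_coe.1 hm'), hmm]
    rw [← Finset.card_image_of_injOn hinj]
    have h2 : T0.image τ ⊆ (range (a ^ p)).filter (fun m => m.Coprime a ∧ (roughPart p m).Prime) := by
      intro x hx
      rw [mem_image] at hx
      obtain ⟨m, hm, rfl⟩ := hx
      have e1 := hval m hm
      rw [hT0, mem_filter] at hm
      obtain ⟨hm1, hm2⟩ := hm
      obtain ⟨_, h3, h4, _⟩ := hmemT m hm1
      rw [mem_filter, mem_range]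
      refine ⟨(hτ m).1, ?_, h4⟩
      rw [e1] at h3
      exact Nat.Coprime.coprime_dvd_left (dvd_mul_right _ _) h3
    exact_mod_cast Finset.card_le_card h2
  have hinjτ : ∀ m m' : ℕ, τ m = τ m' → m / N = m' / N → m = m' := by
    intro m m' h1 h2
    have e1 := (hτ m).2
    have e2 := (hτ m').2
    rw [h1, e2] at e1
    rw [← Nat.mod_add_div m N, ← Nat.mod_add_div m' N, h2, e1]
  -- pairs
  have hpair : ∀ (U : Finset ℕ) (F : Finset ℕ), (∀ m ∈ U, m < a ^ q ∧ τ m ∈ F) →
      (U.card : ℝ) ≤ (F.card : ℝ) * (a : ℝ) ^ h := by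
    intro U F hUF
    have hinj : Set.InjOn (fun m : ℕ => (τ m, m / N)) (U : Set ℕ) := by
      intro m _ m' _ hmm
      simp only [Prod.mk.injEq] at hmm
      exact hinjτ m m' hmm.1 hmm.2
    have hsub : U.image (fun m : ℕ => (τ m, m / N)) ⊆ F ×ˢ (range (a ^ h)) := by
      intro x hx
      rw [mem_image] at hx
      obtain ⟨m, hm, rfl⟩ := hx
      rw [mem_product, mem_range]
      refine ⟨(hUF m hm).2, ?_⟩
      rw [Nat.div_lt_iff_lt_mul hN0, mul_comm, ← hqN]
      exact (hUF m hm).1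
    have h1 := Finset.card_le_card hsub
    rw [Finset.card_image_of_injOn hinj, card_product, card_range] at h1
    calc (U.card : ℝ) ≤ ((F.card * a ^ h : ℕ) : ℝ) := by exact_mod_cast h1
      _ = _ := by push_cast; ring
  have hexpw : Real.exp (-(lb * p / 4)) ≤ (Real.log p / p) ^ 2 := by
    refine le_trans (Real.exp_le_exp.2 ?_) hsmp
    linarith
  have h34 : (⌊Real.exp (3 * (lb * p) / 4)⌋₊ : ℝ) ≤ N * (Real.log p / p) ^ 2 := by
    refine (Nat.floor_le (Real.exp_pos _).le).trans ?_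
    calc Real.exp (3 * (lb * p) / 4) = N * Real.exp (-(lb * p / 4)) := by
          rw [hNr, hbp, ← Real.exp_add]; ring_nf
      _ ≤ _ := mul_le_mul_of_nonneg_left hexpw (by positivity)
  -- T1
  have c1 : (T1.card : ℝ) ≤ (a : ℝ) ^ q * (Real.log p / p) ^ 2 := by
    have h1 := hpair T1 (Ioc 0 ⌊Real.exp (3 * (lb * p) / 4)⌋₊) (by
      intro m hm
      rw [hT1, mem_filter] at hm
      obtain ⟨h3, h4, h5, _⟩ := hmemT m hm.1
      refine ⟨h3, ?_⟩
      rw [mem_Ioc]
      refine ⟨pos_of_rough h5, ?_⟩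
      rw [Nat.le_floor_iff (Real.exp_pos _).le]
      exact hm.2.le)
    rw [Nat.card_Ioc, Nat.sub_zero] at h1
    refine h1.trans ?_
    rw [hqNr]
    calc (⌊Real.exp (3 * (lb * p) / 4)⌋₊ : ℝ) * (a : ℝ) ^ h ≤
        N * (Real.log p / p) ^ 2 * (a : ℝ) ^ h := mul_le_mul_of_nonneg_right h34 (by positivity)
      _ = _ := by ring
  -- T5
  have c5 : (T5.card : ℝ) ≤ (a : ℝ) ^ q * (Real.log p / p) ^ 2 := by
    have h1 : T5 ⊆ Ioc 0 ⌊Real.exp (3 * (lb * p) / 4)⌋₊ := by
      intro m hm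
      rw [hT5, mem_filter] at hm
      obtain ⟨_, _, _, h5⟩ := hmemT m hm.1
      rw [mem_Ioc]
      refine ⟨pos_of_rough h5, ?_⟩
      rw [Nat.le_floor_iff (Real.exp_pos _).le]
      exact hm.2.le
    have h2 := Finset.card_le_card h1
    rw [Nat.card_Ioc, Nat.sub_zero] at h2
    calc (T5.card : ℝ) ≤ (⌊Real.exp (3 * (lb * p) / 4)⌋₊ : ℝ) := by exact_mod_cast h2
      _ ≤ N * (Real.log p / p) ^ 2 := h34
      _ = N * (Real.log p / p) ^ 2 * 1 := (mul_one _).symm
      _ ≤ N * (Real.log p / p) ^ 2 * (a : ℝ) ^ h := mul_le_mul_of_nonneg_left hah1 (by positivity)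
      _ = _ := by rw [hqNr]; ring
  -- T2
  have c2 : (T2.card : ℝ) ≤ (a : ℝ) ^ q * (Real.log p / p) ^ 2 := by
    have h1 := hpair T2 ((Icc 1 N).filter (fun m => (roughPart p m).Prime ∧
      S ≤ ((m / roughPart p m : ℕ) : ℝ))) (by
      intro m hm
      rw [hT2, mem_filter] at hm
      obtain ⟨h3, h4, h5, _⟩ := hmemT m hm.1
      refine ⟨h3, ?_⟩
      rw [mem_filter, mem_Icc]
      exact ⟨⟨pos_of_rough h5, (hτ m).1.le⟩, h5, hm.2⟩)
    refine h1.trans ?_
    rw [hqNr]
    have h2 := large_smooth_count p N hS0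
    have h3 := hdecay p le_rfl (by linarith)
    calc _ ≤ (N * (S ^ (-(1 / 2) : ℝ) * ZZ p)) * (a : ℝ) ^ h :=
          mul_le_mul_of_nonneg_right h2 (by positivity)
      _ ≤ (N * (Real.log p / p) ^ 2) * (a : ℝ) ^ h := by gcongr
      _ = _ := by ring
  -- T3
  have c3 : (T3.card : ℝ) ≤ (a : ℝ) ^ q * (Real.log p / p) ^ 2 := by
    have h1 : T3 ⊆ (Icc 1 (a ^ q)).filter (fun m => (roughPart q m).Prime ∧
      S ≤ ((m / roughPart q m : ℕ) : ℝ)) := by
      intro m hm
      rw [hT3, mem_filter] at hm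
      obtain ⟨h3, h4, _, h5⟩ := hmemT m hm.1
      rw [mem_filter, mem_Icc]
      exact ⟨⟨pos_of_rough h5, h3.le⟩, h5, hm.2⟩
    have h2 := large_smooth_count q (a ^ q) hS0
    have h3 := hdecay q (by omega) hqr
    calc (T3.card : ℝ) ≤ _ := by exact_mod_cast Finset.card_le_card h1
      _ ≤ ((a ^ q : ℕ) : ℝ) * (S ^ (-(1 / 2) : ℝ) * ZZ q) := h2
      _ ≤ ((a ^ q : ℕ) : ℝ) * (Real.log p / p) ^ 2 := by gcongr
      _ = _ := by push_cast; ring
  -- T4
  have c4 : (T4.card : ℝ) ≤ C * (a : ℝ) ^ q * (Real.log p / p) ^ 2 := by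
    have h1 := Finset.card_eq_sum_card_fiberwise (f := fun m : ℕ => (τ m * D / N, m / N)) (s := T4)
      (t := range D ×ˢ range (a ^ h)) (by
        intro m hm
        have hm' := (mem_filter.1 (Finset.mem_coe.1 hm)).1
        rw [Finset.mem_coe, mem_product, mem_range, mem_range]
        constructor
        · simp only
          rw [Nat.div_lt_iff_lt_mul hN0, mul_comm D N]
          exact Nat.mul_lt_mul_of_pos_right (hτ m).1 hD0
        · simp only
          rw [Nat.div_lt_iff_lt_mul hN0, mul_comm, ← hqN]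
          exact (hmemT m hm').1)
    rw [h1]
    push_cast
    have h2 : ∀ st ∈ range D ×ˢ range (a ^ h),
        ((T4.filter (fun m => (τ m * D / N, m / N) = st)).card : ℝ) ≤
        C * (Real.log p / p) ^ 2 * ((a : ℝ) ^ p / (B : ℝ) ^ h) := by
      rintro ⟨s, t⟩ hst
      rw [mem_product, mem_range, mem_range] at hst
      simp only at hst
      by_cases h0 : s = t
      · have : T4.filter (fun m => (τ m * D / N, m / N) = (s, t)) = ∅ := by
          rw [Finset.filter_eq_empty_iff]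
          intro m hm hmt
          rw [hT4, mem_filter] at hm
          rw [Prod.mk.injEq] at hmt
          exact hm.2.1 (by rw [hmt.1, hmt.2, h0])
        rw [this]
        simp only [Finset.card_empty, Nat.cast_zero]
        positivity
      · refine le_trans ?_ (hntp h s t hh1 hhp hst.1 hst.2 h0)
        have hinj3 : Set.InjOn τ (T4.filter (fun m => (τ m * D / N, m / N) = (s, t)) : Set ℕ) := by
          intro m hm m' hm' hmm
          rw [Finset.mem_coe, mem_filter, Prod.mk.injEq] at hm hm'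
          exact hinjτ m m' hmm (by rw [hm.2.2, hm'.2.2])
        rw [← Finset.card_image_of_injOn hinj3]
        have hsub : (T4.filter (fun m => (τ m * D / N, m / N) = (s, t))).image τ ⊆
            (Icc 1 (a ^ p)).filter (fun x : ℕ => x * B ^ h / a ^ p = s ∧
      Real.exp (3 * (Real.log a * p) / 4) ≤ x ∧
      ((roughPart p x).Prime ∧ ((x / roughPart p x : ℕ) : ℝ) < Real.exp (Real.log a * p / 2)) ∧
      Real.exp (3 * (Real.log a * p) / 4) ≤ ((x * B ^ h % a ^ p + a ^ p * t : ℕ) : ℝ) ∧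
      ((roughPart (p + h) (x * B ^ h % a ^ p + a ^ p * t)).Prime ∧
        (((x * B ^ h % a ^ p + a ^ p * t) /
          roughPart (p + h) (x * B ^ h % a ^ p + a ^ p * t) : ℕ) : ℝ) <
          Real.exp (Real.log a * p / 2))) := by
          intro x hx
          rw [mem_image] at hx
          obtain ⟨m, hm, rfl⟩ := hx
          rw [mem_filter, hT4, mem_filter, Prod.mk.injEq] at hm
          obtain ⟨⟨hmT, hm1, hm2, hm2', hm3, hm4⟩, hm5, hm6⟩ := hm
          obtain ⟨h3, h4, h5, h6⟩ := hmemT m hmT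
          have e : τ m * B ^ h % a ^ p + a ^ p * t = m := by
            rw [(hτ m).2, ← hm6, ← hN]; exact Nat.mod_add_div m N
          rw [mem_filter, mem_Icc, e]
          exact ⟨⟨pos_of_rough h5, (hτ m).1.le⟩, hm5, hm2, ⟨h5, hm3⟩, hm2', h6, hm4⟩
        exact_mod_cast Finset.card_le_card hsub
    calc ∑ st ∈ range D ×ˢ range (a ^ h), ((T4.filter (fun m => (τ m * D / N, m / N) = st)).card : ℝ) ≤
          ∑ _st ∈ range D ×ˢ range (a ^ h), C * (Real.log p / p) ^ 2 * ((a : ℝ) ^ p / (B : ℝ) ^ h) :=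
          Finset.sum_le_sum h2
      _ = _ := by
          rw [Finset.sum_const, card_product, card_range, card_range, nsmul_eq_mul, hqNr, hNr, ← hDr]
          push_cast
          field_simp
  have hcard : (T.card : ℝ) ≤ T0.card + T1.card + T5.card + T2.card + T3.card + T4.card := by
    have h1 := Finset.card_le_card hTsub
    have h2 := Finset.card_union_le ((((T0 ∪ T1) ∪ T5) ∪ T2) ∪ T3) T4
    have h3 := Finset.card_union_le (((T0 ∪ T1) ∪ T5) ∪ T2) T3
    have h4 := Finset.card_union_le ((T0 ∪ T1) ∪ T5) T2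
    have h5 := Finset.card_union_le (T0 ∪ T1) T5
    have h6 := Finset.card_union_le T0 T1
    have h7 : T.card ≤ T0.card + T1.card + T5.card + T2.card + T3.card + T4.card := by omega
    exact_mod_cast h7
  linarith

end Pool.Agent.W66L
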