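import Pool.Agent.W66.LX

set_option autoImplicit false

/-!
# Low digits times `b ^ p`: algebra and correlations
-/

open Filter Topology Finset MeasureTheory
open scoped Real

namespace Pool.Agent.W66L

open Pool.Agent.W66
open Pool.Agent.H305R2 (roughPart)

/-- the residue of `b ^ p` modulo `a ^ p` -/
def sg (a : ℕ) (b : ℤ) (p : ℕ) : ℕ := (b ^ p % ((a ^ p : ℕ) : ℤ)).toNat

/-- the residue of `c b ^ p` modulo `a ^ p` -/
def TT (a : ℕ) (b : ℤ) (p c : ℕ) : ℕ := (sg a b p * c) % a ^ p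

lemma sg_int {a : ℕ} (ha : 2 ≤ a) (b : ℤ) (p : ℕ) : ((sg a b p : ℕ) : ℤ) = b ^ p % ((a ^ p : ℕ) : ℤ) := by
  unfold sg
  apply Int.toNat_of_nonneg
  apply Int.emod_nonneg
  have : 0 < a ^ p := by positivity
  omega

lemma sg_zmod {a : ℕ} (ha : 2 ≤ a) (b : ℤ) (p : ℕ) :
    ((sg a b p : ℕ) : ZMod (a ^ p)) = ((b : ℤ) : ZMod (a ^ p)) ^ p := by
  have h1 : (((sg a b p : ℕ) : ℤ) : ZMod (a ^ p)) = ((b ^ p % ((a ^ p : ℕ) : ℤ) : ℤ) : ZMod (a ^ p)) := by
    rw [sg_int ha]
  rw [ZMod.intCast_mod] at h1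
  push_cast at h1
  simpa using h1

lemma sg_coprime {a : ℕ} (ha : 2 ≤ a) {b : ℤ} (hab : IsCoprime (a : ℤ) b) {p : ℕ} (hp : 1 ≤ p) :
    (sg a b p).Coprime a := by
  rw [← Nat.isCoprime_iff_coprime, sg_int ha]
  obtain ⟨n, rfl⟩ : ∃ n, p = n + 1 := ⟨p - 1, by omega⟩
  have h1 : IsCoprime (b ^ (n + 1)) (a : ℤ) := hab.symm.pow_left
  have h2 := Int.emod_add_mul_ediv (b ^ (n + 1)) ((a ^ (n + 1) : ℕ) : ℤ)
  rw [← h2] at h1
  have h3 : ((a ^ (n + 1) : ℕ) : ℤ) * (b ^ (n + 1) / ((a ^ (n + 1) : ℕ) : ℤ)) =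
      (a : ℤ) * ((a : ℤ) ^ n * (b ^ (n + 1) / ((a ^ (n + 1) : ℕ) : ℤ))) := by
    push_cast
    ring
  rw [h3] at h1
  exact IsCoprime.of_add_mul_left_left h1

lemma perm_sum_eq {b p s : ℕ} (hb : 2 ≤ b) (hp : 1 ≤ p) (hs : s.Coprime b) (f : ℕ → ℝ) :
    ∑ c ∈ UU b p, f ((s * c) % b ^ p) = ∑ c ∈ UU b p, f c := by
  have hinj : Set.InjOn (fun c => (s * c) % b ^ p) (UU b p : Set ℕ) := by
    intro c hc d hd hcd
    rw [Finset.mem_coe, mem_UU] at hc hd
    have h1 : s * c ≡ s * d [MOD b ^ p] := hcd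
    have h2 : c ≡ d [MOD b ^ p] :=
      Nat.ModEq.cancel_left_of_coprime (by
        rw [Nat.gcd_comm]
        exact Nat.Coprime.pow_right p hs) h1
    have h3 : c % b ^ p = d % b ^ p := h2
    rwa [Nat.mod_eq_of_lt hc.1, Nat.mod_eq_of_lt hd.1] at h3
  have himg : (UU b p).image (fun c => (s * c) % b ^ p) = UU b p := by
    apply Finset.eq_of_subset_of_card_le
    · intro x hx
      rw [mem_image] at hx
      obtain ⟨c, hc, rfl⟩ := hx
      rw [mem_UU] at hc ⊢
      refine ⟨Nat.mod_lt _ (by positivity), ?_⟩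
      rw [mod_coprime hp]
      exact Nat.Coprime.mul_left hs hc.2
    · rw [Finset.card_image_of_injOn hinj]
  rw [← Finset.sum_image (f := f) hinj, himg]

/-- the inverse change of variables -/
lemma exists_tau {a B p q : ℕ} (ha : 2 ≤ a) {b : ℤ} (hp : 1 ≤ p) (hpq : p ≤ q)
    (hco : B.Coprime a) (hbB : b ^ (q - p) = ((B ^ (q - p) : ℕ) : ℤ)) :
    ∃ τ : ℕ → ℕ, (∀ m, τ m < a ^ p ∧ (τ m * B ^ (q - p)) % a ^ p = m % a ^ p) ∧
      (∀ m, τ (m % a ^ p) = τ m) ∧ (∀ c, TT a b p (c % a ^ p) = τ (TT a b q c)) ∧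
      ∀ f : ℕ → ℝ, ∑ c ∈ UU a p, f (τ c) = ∑ c ∈ UU a p, f c := by
  have hN1 : 1 < a ^ p := Nat.one_lt_pow (by omega) (by omega)
  obtain ⟨i, _, hi⟩ := Nat.exists_mul_mod_eq_one_of_coprime
    (k := a ^ p) (n := B ^ (q - p)) (Nat.Coprime.pow _ _ hco) hN1
  set D := B ^ (q - p) with hD
  have hiz : (D : ZMod (a ^ p)) * (i : ZMod (a ^ p)) = 1 := by
    have h1 : ((D * i : ℕ) : ZMod (a ^ p)) = ((1 : ℕ) : ZMod (a ^ p)) := by
      rw [ZMod.natCast_eq_natCast_iff', hi, Nat.mod_eq_of_lt hN1]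
    simpa using h1
  have hmodq : ∀ x : ℕ, ((x % a ^ q : ℕ) : ZMod (a ^ p)) = (x : ZMod (a ^ p)) := by
    intro x
    rw [ZMod.natCast_eq_natCast_iff', Nat.mod_mod_of_dvd _ (pow_dvd_pow a hpq)]
  refine ⟨fun m => (i * m) % a ^ p, fun m => ⟨Nat.mod_lt _ (by omega), ?_⟩, fun m => ?_, fun c => ?_,
    fun f => ?_⟩
  · rw [← ZMod.natCast_eq_natCast_iff']
    push_cast
    rw [ZMod.natCast_mod]
    push_cast
    linear_combination (m : ZMod (a ^ p)) * hiz
  · simp only
    rw [← ZMod.natCast_eq_natCast_iff']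
    push_cast
    rw [ZMod.natCast_mod]
  · unfold TT
    simp only
    rw [← ZMod.natCast_eq_natCast_iff']
    push_cast
    rw [ZMod.natCast_mod, hmodq]
    push_cast
    have h1 : ((sg a b q : ℕ) : ZMod (a ^ p)) = ((sg a b p : ℕ) : ZMod (a ^ p)) * (D : ZMod (a ^ p)) := by
      rw [sg_zmod ha b p]
      have h2 : (((sg a b q : ℕ) : ℤ) : ZMod (a ^ p)) = ((b ^ q : ℤ) : ZMod (a ^ p)) := by
        rw [sg_int ha, ZMod.intCast_eq_intCast_iff_dvd_sub]
        have h3 := Int.emod_add_mul_ediv (b ^ q) ((a ^ q : ℕ) : ℤ)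
        have h4 : b ^ q - b ^ q % ((a ^ q : ℕ) : ℤ) = ((a ^ q : ℕ) : ℤ) * (b ^ q / ((a ^ q : ℕ) : ℤ)) := by
          linarith
        rw [h4]
        have h5 : ((a ^ p : ℕ) : ℤ) ∣ ((a ^ q : ℕ) : ℤ) := by exact_mod_cast pow_dvd_pow a hpq
        exact h5.mul_right _
      have h6 : b ^ q = b ^ p * ((D : ℕ) : ℤ) := by
        rw [← hbB, ← pow_add]
        congr 1
        omega
      rw [h6] at h2
      push_cast at h2
      simpa using h2
    rw [h1]
    linear_combination -((sg a b p : ℕ) : ZMod (a ^ p)) * (c : ZMod (a ^ p)) * hiz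
  · simp only
    apply perm_sum_eq ha hp
    -- `i` is prime to `a`
    have h1 : (D * i).Coprime a := by
      have h2 : (D * i) % a ^ p = 1 := hi
      rw [← mod_coprime (p := p) hp, h2]
      exact Nat.coprime_one_left a
    exact Nat.Coprime.coprime_dvd_left (dvd_mul_left i D) h1

/-- the correlation of the indices `p` and `q` -/
noncomputable def CT (a : ℕ) (b : ℤ) (p q : ℕ) : ℝ :=
  (∑ m ∈ UU a q, (rpi p (TT a b p (m % a ^ p)) - mq a p) * (rpi q (TT a b q m) - mq a q)) /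
    ((a ^ q).totient : ℝ)

lemma CT_tau {a p q : ℕ} (ha : 2 ≤ a) {b : ℤ} (hab : IsCoprime (a : ℤ) b) (hp : 1 ≤ p) (hpq : p ≤ q)
    {τ : ℕ → ℕ} (h3 : ∀ c, TT a b p (c % a ^ p) = τ (TT a b q c)) :
    CT a b p q = (∑ m ∈ UU a q, (rpi p (τ m) - mq a p) * (rpi q m - mq a q)) /
      ((a ^ q).totient : ℝ) := by
  unfold CT
  congr 1
  rw [← perm_sum_eq ha (hp.trans hpq) (sg_coprime ha hab (hp.trans hpq))
    (fun m => (rpi p (τ m) - mq a p) * (rpi q m - mq a q))]
  refine Finset.sum_congr rfl fun c _ => ?_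
  rw [h3 c]
  rfl

lemma CT_eq {a p q : ℕ} (ha : 2 ≤ a) {b : ℤ} (hab : IsCoprime (a : ℤ) b) (hp : 1 ≤ p) (hpq : p ≤ q)
    {τ : ℕ → ℕ} (h2 : ∀ m, τ (m % a ^ p) = τ m) (h3 : ∀ c, TT a b p (c % a ^ p) = τ (TT a b q c))
    (h4 : ∀ f : ℕ → ℝ, ∑ c ∈ UU a p, f (τ c) = ∑ c ∈ UU a p, f c) :
    CT a b p q = (∑ m ∈ UU a q, rpi p (τ m) * rpi q m) / ((a ^ q).totient : ℝ) - mq a p * mq a q := by
  have hφ := tot_pow_pos ha q
  rw [CT_tau ha hab hp hpq h3]
  have h1 : ∑ m ∈ UU a q, (rpi p (τ m) - mq a p) * (rpi q m - mq a q) =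
      (∑ m ∈ UU a q, rpi p (τ m) * rpi q m) - mq a p * mq a q * ((a ^ q).totient : ℝ) := by
    have e2 : ∀ m : ℕ, (rpi p (τ m) - mq a p) * (rpi q m - mq a q) =
        rpi p (τ m) * rpi q m - mq a p * rpi q m - mq a q * rpi p (τ m) +
          mq a p * mq a q := fun m => by ring
    simp only [e2]
    have e3 : ∑ m ∈ UU a q, rpi p (τ m) = (a : ℝ) ^ (q - p) * ∑ c ∈ UU a p, rpi p c := by
      rw [← h4 (fun c => rpi p c), ← sum_UU_mod ha hp hpq (fun c => rpi p (τ c))]
      refine Finset.sum_congr rfl fun m _ => ?_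
      rw [h2]
    rw [Finset.sum_add_distrib, Finset.sum_sub_distrib, Finset.sum_sub_distrib, ← Finset.mul_sum,
      ← Finset.mul_sum, sum_UU_rpi ha, e3, sum_UU_rpi ha, Finset.sum_const,
      nsmul_eq_mul, card_UU ha (hp.trans hpq)]
    have e4 := tot_lift ha hp hpq
    have e5 : (a : ℝ) ^ (q - p) * (mq a p * ((a ^ p).totient : ℝ)) =
        mq a p * ((a ^ q).totient : ℝ) := by rw [e4]; ring
    rw [e5]
    ring
  rw [h1]
  field_simp

/-- the row sums of the correlation matrix -/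
theorem CT_row {a : ℕ} {b : ℤ} (ha : 2 ≤ a) (hab : IsCoprime (a : ℤ) b) (hba : b.natAbs < a)
    (hb0 : 1 ≤ b.natAbs) : ∃ C : ℝ, 0 < C ∧ ∃ P : ℕ, 3 ≤ P ∧ ∀ q ≥ P, q.Prime →
    ∑ p ∈ (Finset.Ico P q).filter Nat.Prime, |CT a b p q| ≤
        C * ((Real.log q / q) * (1 + Real.log (Real.log q))) := by
  classical
  obtain ⟨κ, K1, hκ, hK1, hfar⟩ := rough_L1 ha
  obtain ⟨P1, hP1⟩ := eventually_atTop.1 hfar
  obtain ⟨K2, hK2, hmid⟩ := mid_gen ha
  obtain ⟨P2, hP2⟩ := eventually_atTop.1 hmid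
  obtain ⟨K3, hK3, hnear⟩ := near_pair hb0 hba
  obtain ⟨P3, hP3⟩ := eventually_atTop.1 hnear
  obtain ⟨K4, hK4, hmq⟩ := mq_le ha
  obtain ⟨P4, hP4⟩ := eventually_atTop.1 hmq
  have hρ := tot_ratio_pos ha
  set ρ := (a.totient : ℝ) / a with hρdef
  set B := b.natAbs with hB
  have hcoB : B.Coprime a := by
    have h1 := Int.isCoprime_iff_gcd_eq_one.1 hab
    rw [Int.gcd_eq_natAbs, Int.natAbs_natCast] at h1
    rw [Nat.Coprime, Nat.gcd_comm]
    exact h1
  have hpow : ∀ h : ℕ, Even h → b ^ h = ((B ^ h : ℕ) : ℤ) := by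
    intro h hh
    push_cast
    rw [hB, Int.natCast_natAbs, hh.pow_abs]
  set J : ℕ → ℕ → ℝ := fun p q => if 1 ≤ p ∧ Even (q - p) then CT a b p q else 0 with hJ
  set K := K1 / ρ + (K2 / ρ + K4 ^ 2) + (K3 / ρ + K4 + K4 ^ 2) with hK
  have hKpos : 0 < K := by positivity
  have hw0 : ∀ m : ℕ, 0 ≤ Real.log m / m := fun m =>
    div_nonneg (Real.log_natCast_nonneg m) (Nat.cast_nonneg m)
  have hanti : ∀ p q : ℕ, 3 ≤ p → p ≤ q → Real.log q / q ≤ Real.log p / p := by
    intro p q hp hpq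
    apply Real.log_div_self_antitoneOn
    · show Real.exp 1 ≤ (p : ℝ)
      have : (3 : ℝ) ≤ p := by exact_mod_cast hp
      linarith [Real.exp_one_lt_d9]
    · show Real.exp 1 ≤ (q : ℝ)
      have : (3 : ℝ) ≤ q := by exact_mod_cast hp.trans hpq
      linarith [Real.exp_one_lt_d9]
    · exact_mod_cast hpq
  obtain ⟨C, hC, P', hP', hP3', hrow⟩ := Pool.Agent.W66S.row_abs (κ := κ) (K := K) hκ hKpos ha J
    (P1 + P2 + P3 + P4 + 3)
    (by
      intro q hq p hp
      have hlq : 0 ≤ Real.log q / (q : ℝ) ^ 2 :=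
        div_nonneg (Real.log_natCast_nonneg q) (by positivity)
      simp only [hJ]
      split_ifs with hp1
      · haveI : NeZero a := ⟨by omega⟩
        obtain ⟨h1, h2⟩ := hP1 q (by omega) ⌊κ * q / Real.log q⌋₊ rfl
        have hpk : p ≤ ⌊κ * q / Real.log q⌋₊ := Nat.le_floor hp
        have hpq : p ≤ q := hpk.trans h1
        obtain ⟨τ, t1, t2, t3, t4⟩ := exists_tau ha hp1.1 hpq hcoB (hpow _ hp1.2)
        have h3 := far_gen (p := p) ha hp1.1 hpk h1 (fun c => rpi p (τ c) - mq a p) (by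
          intro c
          have g1 := rpi_nonneg p (τ c)
          have g2 := rpi_le_one p (τ c)
          have g3 := mq_nonneg a p
          have g4 := mq_le_one ha hp1.1
          rw [abs_le]
          constructor <;> linarith)
        simp only [t2] at h3
        have hφ := tot_pow_pos ha q
        rw [CT_tau ha hab hp1.1 hpq t3]
        rw [abs_div, abs_of_pos hφ, div_le_iff₀ hφ, tot_pow ha (by omega)]
        refine (h3.trans h2).trans ?_
        rw [← hρdef]
        have hKK : K1 ≤ K * ρ := by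
          have : K1 / ρ ≤ K := by rw [hK]; have : 0 < K2 / ρ := by positivity
                                  have : 0 < K3 / ρ := by positivity
                                  nlinarith [sq_nonneg K4]
          rwa [div_le_iff₀ hρ] at this
        calc K1 * ((a : ℝ) ^ q * (Real.log q / (q : ℝ) ^ 2)) ≤
            (K * ρ) * ((a : ℝ) ^ q * (Real.log q / (q : ℝ) ^ 2)) :=
              mul_le_mul_of_nonneg_right hKK (by positivity)
          _ = _ := by ring
      · rw [abs_zero]; exact mul_nonneg hKpos.le hlq)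
    (by
      intro p hp q hq
      have hp1 : 1 ≤ p := by omega
      have h6 : 0 ≤ (Real.log p / p) * (Real.log q / q) := mul_nonneg (hw0 p) (hw0 q)
      simp only [hJ]
      split_ifs with hev
      · obtain ⟨τ, t1, t2, t3, t4⟩ := exists_tau ha hp1 (by omega : p ≤ q) hcoB (hpow _ hev.2)
        rw [CT_eq ha hab hp1 (by omega) t2 t3 t4, tot_pow ha (by omega), ← hρdef]
        have h1 := hP2 p (by omega) q hq (fun c => rpi p (τ c)) (fun c => rpi_nonneg _ _)
          (fun c => rpi_le_one _ _) (by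
            rw [t4 (fun c => rpi p c), AA_eq_range]
            exact le_rfl)
        simp only [t2] at h1
        have h2 := hP4 p (by omega)
        have h3 := hP4 q (by omega)
        have hm1 := mq_nonneg a p
        have hm2 := mq_nonneg a q
        have hwp := hw0 p
        have hwq := hw0 q
        have hJC0 : 0 ≤ ∑ m ∈ UU a q, rpi p (τ m) * rpi q m :=
          Finset.sum_nonneg fun m _ => mul_nonneg (rpi_nonneg _ _) (rpi_nonneg _ _)
        have hbq : (0 : ℝ) < (a : ℝ) ^ q := by positivity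
        set JJ := ∑ m ∈ UU a q, rpi p (τ m) * rpi q m with hJJ
        have h4 : JJ / ((a : ℝ) ^ q * ρ) ≤ K2 / ρ * ((Real.log p / p) * (Real.log q / q)) := by
          rw [div_le_iff₀ (by positivity)]
          refine h1.trans (le_of_eq ?_)
          field_simp
        have h4' : 0 ≤ JJ / ((a : ℝ) ^ q * ρ) := by positivity
        have h5 : mq a p * mq a q ≤ K4 ^ 2 * ((Real.log p / p) * (Real.log q / q)) := by
          calc mq a p * mq a q ≤ (K4 * (Real.log p / p)) * (K4 * (Real.log q / q)) :=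
                mul_le_mul h2 h3 hm2 (by positivity)
            _ = _ := by ring
        have h5' : 0 ≤ mq a p * mq a q := mul_nonneg hm1 hm2
        have hKK : K2 / ρ + K4 ^ 2 ≤ K := by
          rw [hK]
          have : 0 < K1 / ρ := by positivity
          have : 0 < K3 / ρ := by positivity
          nlinarith [sq_nonneg K4]
        calc |JJ / ((a : ℝ) ^ q * ρ) - mq a p * mq a q| ≤
            JJ / ((a : ℝ) ^ q * ρ) + mq a p * mq a q := by
              rw [abs_le]; constructor <;> linarith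
          _ ≤ (K2 / ρ + K4 ^ 2) * ((Real.log p / p) * (Real.log q / q)) := by linarith
          _ ≤ _ := mul_le_mul_of_nonneg_right hKK h6
      · rw [abs_zero]; exact mul_nonneg hKpos.le h6)
    (by
      intro p hp q hpq hq2
      have hp1 : 1 ≤ p := by omega
      have hwp := hw0 p
      have hwq := hw0 q
      have hbqp : (0 : ℝ) < (a : ℝ) ^ (q - p) := by
        have : (0 : ℝ) < a := by exact_mod_cast (by omega : 0 < a)
        positivity
      have h7 : 0 ≤ ((a : ℝ) ^ (q - p))⁻¹ * (Real.log p / p) := mul_nonneg (by positivity) hwp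
      have h8 : 0 ≤ (Real.log p / p) ^ 2 := sq_nonneg _
      simp only [hJ]
      split_ifs with hev
      · obtain ⟨τ, t1, t2, t3, t4⟩ := exists_tau ha hp1 hpq.le hcoB (hpow _ hev.2)
        rw [CT_eq ha hab hp1 hpq.le t2 t3 t4]
        have h1 := hP3 p (by omega) (q - p) (by omega) (by omega) τ t1
        rw [Nat.add_sub_cancel' hpq.le] at h1
        have h2 := hP4 p (by omega)
        have h3 := hP4 q (by omega)
        have hm1 := mq_nonneg a p
        have hm2 := mq_nonneg a q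
        have hJC0 : 0 ≤ ∑ m ∈ UU a q, rpi p (τ m) * rpi q m :=
          Finset.sum_nonneg fun m _ => mul_nonneg (rpi_nonneg _ _) (rpi_nonneg _ _)
        have hφ := tot_pow_pos ha q
        have hφp := tot_pow_pos ha p
        set JJ := ∑ m ∈ UU a q, rpi p (τ m) * rpi q m with hJJ
        have e1 : AA a p / ((a ^ q).totient : ℝ) = ((a : ℝ) ^ (q - p))⁻¹ * mq a p := by
          rw [tot_lift ha hp1 hpq.le]
          unfold mq
          field_simp
        have h4 : JJ / ((a ^ q).totient : ℝ) ≤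
            ((a : ℝ) ^ (q - p))⁻¹ * mq a p + K3 / ρ * (Real.log p / p) ^ 2 := by
          rw [← e1, div_le_iff₀ hφ, add_mul, div_mul_cancel₀ _ hφ.ne']
          refine h1.trans ?_
          rw [tot_pow ha (by omega), ← hρdef]
          apply le_of_eq
          field_simp
        have h4' : 0 ≤ JJ / ((a ^ q).totient : ℝ) := by positivity
        have h5 : mq a p * mq a q ≤ K4 ^ 2 * (Real.log p / p) ^ 2 := by
          calc mq a p * mq a q ≤ (K4 * (Real.log p / p)) * (K4 * (Real.log q / q)) :=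
                mul_le_mul h2 h3 hm2 (by positivity)
            _ ≤ (K4 * (Real.log p / p)) * (K4 * (Real.log p / p)) := by
                apply mul_le_mul_of_nonneg_left _ (by positivity)
                exact mul_le_mul_of_nonneg_left (hanti p q (by omega) hpq.le) hK4.le
            _ = _ := by ring
        have h5' : 0 ≤ mq a p * mq a q := mul_nonneg hm1 hm2
        have h6 : ((a : ℝ) ^ (q - p))⁻¹ * mq a p ≤ K4 * (((a : ℝ) ^ (q - p))⁻¹ * (Real.log p / p)) := by
          calc ((a : ℝ) ^ (q - p))⁻¹ * mq a p ≤ ((a : ℝ) ^ (q - p))⁻¹ * (K4 * (Real.log p / p)) :=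
                mul_le_mul_of_nonneg_left h2 (by positivity)
            _ = _ := by ring
        have hKK1 : K3 / ρ + K4 ^ 2 ≤ K := by
          rw [hK]
          have : 0 < K1 / ρ := by positivity
          have : 0 < K2 / ρ := by positivity
          nlinarith [sq_nonneg K4]
        have hKK2 : K4 ≤ K := by
          rw [hK]
          have : 0 < K1 / ρ := by positivity
          have : 0 < K2 / ρ := by positivity
          have : 0 < K3 / ρ := by positivity
          nlinarith [sq_nonneg K4]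
        calc |JJ / ((a ^ q).totient : ℝ) - mq a p * mq a q| ≤
            JJ / ((a ^ q).totient : ℝ) + mq a p * mq a q := by
              rw [abs_le]; constructor <;> linarith
          _ ≤ K4 * (((a : ℝ) ^ (q - p))⁻¹ * (Real.log p / p)) +
              (K3 / ρ + K4 ^ 2) * (Real.log p / p) ^ 2 := by linarith
          _ ≤ K * (((a : ℝ) ^ (q - p))⁻¹ * (Real.log p / p)) + K * (Real.log p / p) ^ 2 :=
              add_le_add (mul_le_mul_of_nonneg_right hKK2 h7) (mul_le_mul_of_nonneg_right hKK1 h8)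
          _ = _ := by ring
      · rw [abs_zero]
        have g1 := mul_nonneg hKpos.le (add_nonneg h7 h8)
        refine g1.trans (le_of_eq ?_)
        ring)
  refine ⟨C, hC, P', hP3', fun q hq hqp => ?_⟩
  refine le_trans (le_of_eq ?_) (hrow q hq)
  refine Finset.sum_congr rfl fun p hp => ?_
  rw [mem_filter, mem_Ico] at hp
  have hp1 : 1 ≤ p := hp.2.pos
  have hpo : Odd p := hp.2.odd_of_ne_two (by omega)
  have hqo : Odd q := hqp.odd_of_ne_two (by omega)
  have hev : Even (q - p) := Nat.Odd.sub_odd hqo hpo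
  simp only [hJ]
  rw [if_pos ⟨hp1, hev⟩]

end Pool.Agent.W66L
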