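import Pool.Agent.H379R2.SWP

set_option autoImplicit false

/-!
# The hat function and its transform
-/

open Complex Filter Topology Set MeasureTheory Metric
open scoped Real FourierTransform

namespace Pool.Agent.W66

open Pool.Agent.H379R2.SW (vert vert_re vert_im vert_ne_zero continuous_vert fourier_phi integrable_phi)

/-- the hat function -/
noncomputable def hat (x : ℝ) : ℝ := max (1 - |x|) 0

lemma hat_eq (x : ℝ) : hat x = max (x + 1) 0 - 2 * max x 0 + max (x - 1) 0 := by
  unfold hat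
  rcases le_total 0 x with h | h
  · rw [abs_of_nonneg h, max_eq_left h, max_eq_left (by linarith : (0:ℝ) ≤ x + 1)]
    rcases le_total x 1 with h1 | h1
    · rw [max_eq_left (by linarith), max_eq_right (by linarith : x - 1 ≤ 0)]; ring
    · rw [max_eq_right (by linarith), max_eq_left (by linarith : (0:ℝ) ≤ x - 1)]; ring
  · rw [abs_of_nonpos h, max_eq_right h, max_eq_right (by linarith : x - 1 ≤ 0)]
    rcases le_total (-1) x with h1 | h1
    · rw [max_eq_left (by linarith), max_eq_left (by linarith : (0:ℝ) ≤ x + 1)]; ring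
    · rw [max_eq_right (by linarith), max_eq_right (by linarith : x + 1 ≤ 0)]; ring

lemma hat_nonneg (x : ℝ) : 0 ≤ hat x := le_max_right _ _

lemma hat_le_one (x : ℝ) : hat x ≤ 1 := max_le (by have := abs_nonneg x; linarith) zero_le_one

lemma hat_neg (x : ℝ) : hat (-x) = hat x := by unfold hat; rw [abs_neg]

lemma hat_zero_of {x : ℝ} (h : 1 ≤ |x|) : hat x = 0 := max_eq_right (by linarith)

lemma hat_continuous : Continuous hat := by unfold hat; fun_prop

lemma norm_vert_sq_ge' {c : ℝ} (_hc : 0 < c) (ξ : ℝ) : min (c ^ 2) 1 * (1 + ξ ^ 2) ≤ ‖vert c ξ‖ ^ 2 := by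
  rw [Complex.sq_norm, Complex.normSq_apply, vert_re, vert_im]
  have hpi : 3 < π := Real.pi_gt_three
  have h1 : (2 * π * ξ) * (2 * π * ξ) = (2 * π) ^ 2 * ξ ^ 2 := by ring
  rw [h1]
  have h2 : 1 ≤ (2 * π) ^ 2 := by nlinarith
  have h3 : 0 ≤ ξ ^ 2 := by positivity
  have h4 : min (c ^ 2) 1 ≤ c ^ 2 := min_le_left _ _
  have h5 : min (c ^ 2) 1 ≤ 1 := min_le_right _ _
  nlinarith

lemma integrable_inv_norm_vert_sq' {c : ℝ} (hc : 0 < c) :
    Integrable (fun ξ : ℝ => (‖vert c ξ‖ ^ 2)⁻¹) := by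
  have hm : 0 < min (c ^ 2) 1 := lt_min (by positivity) one_pos
  refine Integrable.mono' (integrable_inv_one_add_sq.const_mul (min (c ^ 2) 1)⁻¹) ?_ ?_
  · apply Continuous.aestronglyMeasurable
    apply Continuous.inv₀
    · exact (continuous_vert c).norm.pow 2
    · intro ξ
      have := norm_pos_iff.mpr (vert_ne_zero hc ξ)
      positivity
  · refine Eventually.of_forall (fun ξ => ?_)
    rw [Real.norm_of_nonneg (by positivity), ← mul_inv]
    exact inv_anti₀ (by positivity) (norm_vert_sq_ge' hc ξ)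

/-- Perron kernel. -/
theorem perron_kernel' {c : ℝ} (hc : 0 < c) (v : ℝ) :
    ∫ ξ : ℝ, cexp (((2 * π * ξ * v : ℝ) : ℂ) * I) / (vert c ξ) ^ 2 =
      ((max v 0 * Real.exp (-(c * v)) : ℝ) : ℂ) := by
  have hcont : Continuous (fun u : ℝ => (((max u 0 * Real.exp (-(c * u)) : ℝ)) : ℂ)) := by
    fun_prop
  have hF : 𝓕 (fun u : ℝ => (((max u 0 * Real.exp (-(c * u)) : ℝ)) : ℂ)) =
      fun ξ : ℝ => 1 / (vert c ξ) ^ 2 := funext (fourier_phi hc)
  have hint : Integrable (𝓕 (fun u : ℝ => (((max u 0 * Real.exp (-(c * u)) : ℝ)) : ℂ))) := by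
    rw [hF]
    refine Integrable.mono' (integrable_inv_norm_vert_sq' hc) ?_ ?_
    · apply Continuous.aestronglyMeasurable
      apply Continuous.div continuous_const ((continuous_vert c).pow 2)
      intro ξ
      exact pow_ne_zero 2 (vert_ne_zero hc ξ)
    · refine Eventually.of_forall (fun ξ => ?_)
      rw [norm_div, norm_one, norm_pow, one_div]
  have h := congrFun (hcont.fourierInv_fourier_eq (integrable_phi hc) hint) v
  rw [hF, Real.fourierInv_eq'] at h
  rw [← h]
  congr 1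
  ext ξ
  rw [smul_eq_mul, mul_one_div]
  congr 2
  simp only [RCLike.inner_apply, conj_trivial]
  push_cast
  ring

lemma exp_vert (c ξ v : ℝ) : cexp (vert c ξ * v) =
    ((Real.exp (c * v) : ℝ) : ℂ) * cexp (((2 * π * ξ * v : ℝ) : ℂ) * I) := by
  unfold vert
  rw [Complex.ofReal_exp, ← Complex.exp_add]
  congr 1
  push_cast
  ring

lemma integrable_exp_vert {c : ℝ} (hc : 0 < c) (v : ℝ) :
    Integrable (fun ξ : ℝ => cexp (vert c ξ * v) / (vert c ξ) ^ 2) := by
  refine Integrable.mono' ((integrable_inv_norm_vert_sq' hc).const_mul (Real.exp (c * v))) ?_ ?_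
  · apply Continuous.aestronglyMeasurable
    apply Continuous.div _ ((continuous_vert c).pow 2)
    · intro ξ
      exact pow_ne_zero 2 (vert_ne_zero hc ξ)
    · have := continuous_vert c
      fun_prop
  · refine Eventually.of_forall (fun ξ => ?_)
    rw [norm_div, exp_vert, norm_mul, Complex.norm_exp_ofReal_mul_I, norm_pow, mul_one,
      Complex.norm_real, Real.norm_of_nonneg (Real.exp_pos _).le, div_eq_mul_inv]

theorem perron_vert {c : ℝ} (hc : 0 < c) (v : ℝ) :
    ∫ ξ : ℝ, cexp (vert c ξ * v) / (vert c ξ) ^ 2 = ((max v 0 : ℝ) : ℂ) := by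
  have h : ∀ ξ : ℝ, cexp (vert c ξ * v) / (vert c ξ) ^ 2 = ((Real.exp (c * v) : ℝ) : ℂ) *
      (cexp (((2 * π * ξ * v : ℝ) : ℂ) * I) / (vert c ξ) ^ 2) := by
    intro ξ
    rw [exp_vert, mul_div_assoc]
  simp only [h]
  rw [integral_const_mul, perron_kernel' hc, ← Complex.ofReal_mul]
  congr 1
  have : Real.exp (c * v) * Real.exp (-(c * v)) = 1 := by rw [← Real.exp_add]; simp
  calc Real.exp (c * v) * (max v 0 * Real.exp (-(c * v))) =
      max v 0 * (Real.exp (c * v) * Real.exp (-(c * v))) := by ring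
    _ = max v 0 := by rw [this, mul_one]

/-- `exp (s/2) - exp (-s/2)` -/
noncomputable def sh (s : ℂ) : ℂ := cexp (s / 2) - cexp (-(s / 2))

/-- `(exp (s/2) - exp (-s/2)) / s`, entire -/
noncomputable def gs : ℂ → ℂ := dslope sh 0

/-- the transform of the hat function -/
noncomputable def kap (s : ℂ) : ℂ := gs s ^ 2

lemma sh_diff : Differentiable ℂ sh := by unfold sh; fun_prop

lemma sh_zero : sh 0 = 0 := by simp [sh]

lemma gs_diff : Differentiable ℂ gs := by
  have h := (Complex.differentiableOn_dslope (f := sh) (c := 0) (s := univ) univ_mem).2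
    sh_diff.differentiableOn
  exact differentiableOn_univ.1 h

lemma gs_eq {s : ℂ} (hs : s ≠ 0) : gs s = sh s / s := by
  unfold gs
  rw [dslope_of_ne _ hs, slope_def_field, sh_zero, sub_zero, sub_zero]

lemma kap_diff : Differentiable ℂ kap := gs_diff.pow 2

lemma kap_eq {s : ℂ} (hs : s ≠ 0) : kap s = (cexp s - 2 + cexp (-s)) / s ^ 2 := by
  unfold kap
  rw [gs_eq hs, div_pow]
  congr 1
  unfold sh
  rw [sub_sq, ← Complex.exp_nat_mul, ← Complex.exp_nat_mul, mul_assoc, ← Complex.exp_add]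
  have e1 : ((2 : ℕ) : ℂ) * (s / 2) = s := by push_cast; ring
  have e2 : ((2 : ℕ) : ℂ) * (-(s / 2)) = -s := by push_cast; ring
  rw [e1, e2, add_neg_cancel, Complex.exp_zero, mul_one]

/-- the decay of `kap` -/
lemma kap_bound : ∃ C : ℝ, 0 < C ∧ ∀ s : ℂ, |s.re| ≤ 1 → ‖kap s‖ ≤ C / (1 + s.im ^ 2) := by
  have hK : IsCompact (Set.Icc (-1 : ℝ) 1 ×ℂ Set.Icc (-1 : ℝ) 1) := isCompact_Icc.reProdIm isCompact_Icc
  obtain ⟨C1, hC1⟩ := hK.exists_bound_of_continuousOn kap_diff.continuous.continuousOn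
  refine ⟨max (2 * C1) 24, lt_of_lt_of_le (by norm_num) (le_max_right _ _), fun s hs => ?_⟩
  have hpos : 0 < 1 + s.im ^ 2 := by positivity
  rw [le_div_iff₀ hpos]
  rcases le_total |s.im| 1 with h | h
  · have h1 := hC1 s (by rw [Complex.mem_reProdIm]; exact ⟨abs_le.1 hs, abs_le.1 h⟩)
    have h2 : s.im ^ 2 ≤ 1 := by
      rw [← sq_abs]
      have := abs_nonneg s.im
      nlinarith
    have h3 : 0 ≤ ‖kap s‖ := norm_nonneg _
    calc ‖kap s‖ * (1 + s.im ^ 2) ≤ C1 * 2 := by
          apply mul_le_mul h1 (by linarith) (by positivity) (h3.trans h1)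
      _ = 2 * C1 := by ring
      _ ≤ _ := le_max_left _ _
  · have hs0 : s ≠ 0 := by
      intro h0
      rw [h0] at h
      simp at h
      linarith
    have hns : |s.im| ≤ ‖s‖ := Complex.abs_im_le_norm s
    have hsh : ‖sh s‖ ≤ 2 * Real.exp (1 / 2) := by
      unfold sh
      refine (norm_sub_le _ _).trans ?_
      rw [Complex.norm_exp, Complex.norm_exp]
      have h1 : (s / 2).re ≤ 1 / 2 := by
        rw [show (s / 2).re = s.re / 2 by simp]
        linarith [(abs_le.1 hs).2]
      have h2 : (-(s / 2)).re ≤ 1 / 2 := by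
        rw [show (-(s / 2)).re = -(s.re / 2) by simp]
        linarith [(abs_le.1 hs).1]
      have h3 := Real.exp_le_exp.2 h1
      have h4 := Real.exp_le_exp.2 h2
      linarith
    have he : Real.exp (1 / 2) ^ 2 ≤ 3 := by
      rw [← Real.exp_nat_mul]
      have : ((2 : ℕ) : ℝ) * (1 / 2) = 1 := by norm_num
      rw [this]
      linarith [Real.exp_one_lt_d9]
    have h5 : ‖kap s‖ ≤ 12 / s.im ^ 2 := by
      unfold kap
      rw [gs_eq hs0, norm_pow, norm_div, div_pow]
      have h6 : 0 < |s.im| := by linarith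
      rw [← sq_abs s.im]
      have h7 : ‖sh s‖ ^ 2 ≤ 12 := by
        calc ‖sh s‖ ^ 2 ≤ (2 * Real.exp (1 / 2)) ^ 2 := by gcongr
          _ = 4 * Real.exp (1 / 2) ^ 2 := by ring
          _ ≤ 12 := by linarith
      gcongr
    have h8 : 1 ≤ s.im ^ 2 := by
      rw [← sq_abs]
      nlinarith
    calc ‖kap s‖ * (1 + s.im ^ 2) ≤ (12 / s.im ^ 2) * (1 + s.im ^ 2) :=
          mul_le_mul_of_nonneg_right h5 (by positivity)
      _ ≤ (12 / s.im ^ 2) * (2 * s.im ^ 2) := by
          apply mul_le_mul_of_nonneg_left (by linarith) (by positivity)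
      _ = 24 := by
          have h9 : s.im ^ 2 ≠ 0 := by positivity
          rw [div_mul_eq_mul_div, div_eq_iff h9]
          ring
      _ ≤ _ := le_max_right _ _

/-- inverse transform of `kap` -/
theorem kap_inv {c : ℝ} (hc : 0 < c) (x : ℝ) :
    ∫ ξ : ℝ, kap (vert c ξ) * cexp (vert c ξ * x) = ((hat x : ℝ) : ℂ) := by
  have h : ∀ ξ : ℝ, kap (vert c ξ) * cexp (vert c ξ * x) =
      (cexp (vert c ξ * ((x + 1 : ℝ) : ℂ)) / (vert c ξ) ^ 2 -
        2 * (cexp (vert c ξ * (x : ℂ)) / (vert c ξ) ^ 2)) +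
        cexp (vert c ξ * ((x - 1 : ℝ) : ℂ)) / (vert c ξ) ^ 2 := by
    intro ξ
    have h0 := vert_ne_zero hc ξ
    rw [kap_eq h0]
    have e1 : cexp (vert c ξ * ((x + 1 : ℝ) : ℂ)) = cexp (vert c ξ) * cexp (vert c ξ * x) := by
      rw [← Complex.exp_add]
      congr 1
      push_cast
      ring
    have e2 : cexp (vert c ξ * ((x - 1 : ℝ) : ℂ)) = cexp (-vert c ξ) * cexp (vert c ξ * x) := by
      rw [← Complex.exp_add]
      congr 1
      push_cast
      ring
    rw [e1, e2]
    ring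
  simp only [h]
  have i1 := integrable_exp_vert hc (x + 1)
  have i2 := integrable_exp_vert hc x
  have i3 := integrable_exp_vert hc (x - 1)
  have i12 : Integrable (fun ξ : ℝ => cexp (vert c ξ * ((x + 1 : ℝ) : ℂ)) / (vert c ξ) ^ 2 -
        2 * (cexp (vert c ξ * (x : ℂ)) / (vert c ξ) ^ 2)) := i1.sub (i2.const_mul 2)
  rw [integral_add i12 i3, integral_sub i1 (i2.const_mul 2),
    integral_const_mul, perron_vert hc, perron_vert hc, perron_vert hc, hat_eq]
  push_cast
  ring

lemma integrable_kap {c : ℝ} (hc : 0 < c) (hc1 : c ≤ 1) : Integrable (fun ξ : ℝ => kap (vert c ξ)) := by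
  obtain ⟨C, hC, h⟩ := kap_bound
  refine Integrable.mono' (integrable_inv_one_add_sq.const_mul C) ?_ ?_
  · apply Continuous.aestronglyMeasurable
    exact kap_diff.continuous.comp (continuous_vert c)
  · refine Eventually.of_forall (fun ξ => ?_)
    have h1 := h (vert c ξ) (by rw [vert_re, abs_of_pos hc]; exact hc1)
    rw [vert_im] at h1
    refine h1.trans ?_
    rw [div_eq_mul_inv]
    apply mul_le_mul_of_nonneg_left _ hC.le
    apply inv_anti₀ (by positivity)
    have hpi : 3 < π := Real.pi_gt_three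
    have h2 : 1 ≤ (2 * π) ^ 2 := by nlinarith
    have h3 : 0 ≤ ξ ^ 2 := by positivity
    nlinarith

end Pool.Agent.W66
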