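import Pool.Agent.W66.PD0
import Pool.Agent.W66.ZC

set_option autoImplicit false

/-!
# The hat weighted sum over primes as a contour integral
-/

open Complex Filter Topology Set MeasureTheory Metric
open scoped Real FourierTransform

namespace Pool.Agent.W66

open Pool.Agent.H379R2.SW (vert vert_re vert_im vert_ne_zero continuous_vert)

lemma norm_exp_vert (c ξ u : ℝ) : ‖cexp (vert c ξ * u)‖ = Real.exp (c * u) := by
  rw [exp_vert, norm_mul, Complex.norm_exp_ofReal_mul_I, mul_one, Complex.norm_real,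
    Real.norm_of_nonneg (Real.exp_pos _).le]

theorem PS_eq {c : ℝ} (hc : 0 < c) (hc1 : c ≤ 1) (u ξ₀ : ℝ) :
    PS u ξ₀ = ∫ ξ : ℝ, LSeries La (⟨1, ξ₀⟩ + vert c ξ) * (kap (vert c ξ) * cexp (vert c ξ * u)) := by
  have ha : LSeriesSummable La ((1 + c : ℝ) : ℂ) :=
    ArithmeticFunction.LSeriesSummable_vonMangoldt (by simpa using hc)
  set F : ℕ → ℝ → ℂ := fun n ξ => LSeries.term La (⟨1, ξ₀⟩ + vert c ξ) n *
    (kap (vert c ξ) * cexp (vert c ξ * u)) with hF
  have hterm : ∀ n ξ, F n ξ = LSeries.term La ⟨1, ξ₀⟩ n *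
      (kap (vert c ξ) * cexp (vert c ξ * ((u - Real.log n : ℝ) : ℂ))) := by
    intro n ξ
    simp only [hF]
    rcases Nat.eq_zero_or_pos n with rfl | hn
    · simp
    · rw [LSeries.term_of_ne_zero hn.ne', LSeries.term_of_ne_zero hn.ne']
      have hnc : (n : ℂ) ≠ 0 := by exact_mod_cast hn.ne'
      have h1 : (n : ℂ) ^ ((⟨1, ξ₀⟩ : ℂ) + vert c ξ) = (n : ℂ) ^ (⟨1, ξ₀⟩ : ℂ) *
          cexp (vert c ξ * (Real.log n : ℝ)) := by
        rw [Complex.cpow_add _ _ hnc]
        congr 1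
        rw [Complex.cpow_def_of_ne_zero hnc, ← Complex.natCast_log]
        congr 1
        push_cast
        ring
      have h2 : cexp (vert c ξ * ((u - Real.log n : ℝ) : ℂ)) =
          cexp (vert c ξ * u) / cexp (vert c ξ * (Real.log n : ℝ)) := by
        rw [← Complex.exp_sub]
        congr 1
        push_cast
        ring
      rw [h1, h2]
      have h3 : (n : ℂ) ^ (⟨1, ξ₀⟩ : ℂ) ≠ 0 := by
        rw [Complex.cpow_def_of_ne_zero hnc]; exact Complex.exp_ne_zero _
      have h4 := Complex.exp_ne_zero (vert c ξ * (Real.log n : ℝ))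
      field_simp
  have hnorm : ∀ n ξ, ‖F n ξ‖ = ‖LSeries.term La ((1 + c : ℝ) : ℂ) n‖ *
      (‖kap (vert c ξ)‖ * Real.exp (c * u)) := by
    intro n ξ
    simp only [hF]
    rw [norm_mul, norm_mul, norm_exp_vert]
    congr 1
    rw [LSeries.norm_term_eq, LSeries.norm_term_eq]
    congr 2
    simp [vert_re]
  have hkint := integrable_kap hc hc1
  have hFint : ∀ n, Integrable (F n) := by
    intro n
    refine Integrable.mono' ((hkint.norm.mul_const (Real.exp (c * u))).const_mul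
      ‖LSeries.term La ((1 + c : ℝ) : ℂ) n‖) ?_ ?_
    · apply Continuous.aestronglyMeasurable
      have : F n = fun ξ => LSeries.term La ⟨1, ξ₀⟩ n *
        (kap (vert c ξ) * cexp (vert c ξ * ((u - Real.log n : ℝ) : ℂ))) :=
        funext (hterm n)
      rw [this]
      have h1 := continuous_vert c
      exact continuous_const.mul ((kap_diff.continuous.comp h1).mul (by fun_prop))
    · exact Eventually.of_forall (fun ξ => (hnorm n ξ).le)
  have hFsum : Summable (fun n => ∫ ξ, ‖F n ξ‖) := by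
    simp only [hnorm, integral_const_mul]
    exact ha.norm.mul_right _
  have hmain := hasSum_integral_of_summable_integral_norm hFint hFsum
  have hI : ∀ n, ∫ ξ, F n ξ = LSeries.term La ⟨1, ξ₀⟩ n * ((hat (u - Real.log n) : ℝ) : ℂ) := by
    intro n
    have h1 : ∫ ξ, F n ξ = LSeries.term La ⟨1, ξ₀⟩ n *
        ∫ ξ : ℝ, (kap (vert c ξ) * cexp (vert c ξ * ((u - Real.log n : ℝ) : ℂ))) := by
      simp only [hterm]
      rw [integral_const_mul]
    rw [h1, kap_inv hc]
  simp only [hI] at hmain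
  unfold PS
  rw [hmain.tsum_eq]
  congr 1
  ext ξ
  simp only [hF]
  rw [tsum_mul_right]
  rfl

theorem PT_eq {c : ℝ} (hc : 0 < c) (hc1 : c ≤ 1) (u ξ₀ : ℝ) :
    PT u ξ₀ = ∫ ξ : ℝ, 1 / ((⟨1, ξ₀⟩ + vert c ξ) - 1) * (kap (vert c ξ) * cexp (vert c ξ * u)) := by
  have hz : ∀ ξ : ℝ, ((⟨1, ξ₀⟩ : ℂ) + vert c ξ) - 1 = vert c ξ + (ξ₀ : ℂ) * I := by
    intro ξ
    apply Complex.ext <;> simp
    ring
  have hre : ∀ ξ : ℝ, (-(vert c ξ + (ξ₀ : ℂ) * I)).re = -c := by
    intro ξ
    simp [vert_re]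
  have h1 : ∀ ξ : ℝ, 1 / ((⟨1, ξ₀⟩ + vert c ξ) - 1) * (kap (vert c ξ) * cexp (vert c ξ * u)) =
      ∫ v in Ioi (0 : ℝ), cexp (-(vert c ξ + (ξ₀ : ℂ) * I) * v) *
        (kap (vert c ξ) * cexp (vert c ξ * u)) := by
    intro ξ
    rw [integral_mul_const, integral_exp_mul_complex_Ioi (by rw [hre]; linarith), hz]
    congr 1
    simp only [Complex.ofReal_zero, mul_zero, Complex.exp_zero]
    rw [neg_div_neg_eq]
  simp only [h1]
  have hkint := integrable_kap hc hc1
  have hexpint : Integrable (fun v : ℝ => Real.exp (-c * v)) (volume.restrict (Ioi 0)) :=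
    integrableOn_exp_mul_Ioi (by linarith) 0
  have hint : Integrable (Function.uncurry fun (ξ v : ℝ) => cexp (-(vert c ξ + (ξ₀ : ℂ) * I) * v) *
        (kap (vert c ξ) * cexp (vert c ξ * u))) (volume.prod (volume.restrict (Ioi 0))) := by
    have hb : Integrable (fun p : ℝ × ℝ => (‖kap (vert c p.1)‖ * Real.exp (c * u)) *
        Real.exp (-c * p.2)) (volume.prod (volume.restrict (Ioi 0))) :=
      (hkint.norm.mul_const (Real.exp (c * u))).mul_prod hexpint
    refine hb.mono' ?_ ?_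
    · apply Continuous.aestronglyMeasurable
      have h1 := continuous_vert c
      have h2 := kap_diff.continuous
      unfold Function.uncurry
      simp only
      have h3 : Continuous fun p : ℝ × ℝ => vert c p.1 := h1.comp continuous_fst
      have h4 : Continuous fun p : ℝ × ℝ => kap (vert c p.1) := h2.comp h3
      fun_prop
    · refine Eventually.of_forall fun p => ?_
      simp only [Function.uncurry]
      rw [norm_mul, norm_mul, norm_exp_vert, Complex.norm_exp]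
      have : (-(vert c p.1 + (ξ₀ : ℂ) * I) * (p.2 : ℂ)).re = -c * p.2 := by
        rw [Complex.re_mul_ofReal, hre]
      rw [this]
      exact le_of_eq (by ring)
  rw [integral_integral_swap hint]
  unfold PT
  refine setIntegral_congr_fun measurableSet_Ioi fun v _ => ?_
  have h2 : ∀ ξ : ℝ, cexp (-(vert c ξ + (ξ₀ : ℂ) * I) * v) * (kap (vert c ξ) * cexp (vert c ξ * u)) =
      cexp (-(((ξ₀ * v : ℝ) : ℂ) * I)) *
        (kap (vert c ξ) * cexp (vert c ξ * ((u - v : ℝ) : ℂ))) := by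
    intro ξ
    have e : cexp (-(vert c ξ + (ξ₀ : ℂ) * I) * v) * cexp (vert c ξ * u) =
        cexp (-(((ξ₀ * v : ℝ) : ℂ) * I)) * cexp (vert c ξ * ((u - v : ℝ) : ℂ)) := by
      rw [← Complex.exp_add, ← Complex.exp_add]
      congr 1
      push_cast
      ring
    calc _ = kap (vert c ξ) * (cexp (-(vert c ξ + (ξ₀ : ℂ) * I) * v) * cexp (vert c ξ * u)) := by ring
      _ = _ := by rw [e]; ring
  simp only [h2]
  rw [integral_const_mul, kap_inv hc]

/-- the difference -/
theorem PE_eq {c : ℝ} (hc : 0 < c) (hc1 : c ≤ 1) (u ξ₀ : ℝ) :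
    PS u ξ₀ - PT u ξ₀ =
      ∫ ξ : ℝ, -DD (⟨1, ξ₀⟩ + vert c ξ) * (kap (vert c ξ) * cexp (vert c ξ * u)) := by
  have hre : ∀ ξ : ℝ, ((⟨1, ξ₀⟩ : ℂ) + vert c ξ).re = 1 + c := by
    intro ξ
    simp [vert_re]
  have hkint := integrable_kap hc hc1
  have hmaj : Integrable (fun ξ : ℝ => ‖kap (vert c ξ)‖ * Real.exp (c * u)) :=
    hkint.norm.mul_const _
  have hcont : Continuous fun ξ : ℝ => (⟨1, ξ₀⟩ : ℂ) + vert c ξ := continuous_const.add (continuous_vert c)
  have hDDc : Continuous fun ξ : ℝ => DD (⟨1, ξ₀⟩ + vert c ξ) := by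
    rw [continuous_iff_continuousAt]
    intro ξ
    have h1 : ContinuousAt DD (⟨1, ξ₀⟩ + vert c ξ) := by
      have h2 : Z1 (⟨1, ξ₀⟩ + vert c ξ) ≠ 0 := Z1_ne_zero (by rw [hre]; linarith)
      exact ((Z1_diff.analyticAt _).deriv.continuousAt).div (Z1_diff.continuous.continuousAt) h2
    exact ContinuousAt.comp (g := DD) (f := fun ξ : ℝ => (⟨1, ξ₀⟩ : ℂ) + vert c ξ) h1 hcont.continuousAt
  have hne : ∀ ξ : ℝ, ((⟨1, ξ₀⟩ : ℂ) + vert c ξ) - 1 ≠ 0 := by
    intro ξ h
    have := congrArg Complex.re h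
    rw [Complex.sub_re, hre] at this
    simp at this
    linarith
  have hkc : Continuous fun ξ : ℝ => kap (vert c ξ) * cexp (vert c ξ * u) := by
    have h1 := continuous_vert c
    exact (kap_diff.continuous.comp h1).mul (by fun_prop)
  have hinvc : Continuous fun ξ : ℝ => 1 / ((⟨1, ξ₀⟩ + vert c ξ) - 1) :=
    continuous_const.div (hcont.sub continuous_const) hne
  have hI2 : Integrable fun ξ : ℝ => 1 / ((⟨1, ξ₀⟩ + vert c ξ) - 1) *
      (kap (vert c ξ) * cexp (vert c ξ * u)) := by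
    refine (hmaj.const_mul (1 / c)).mono' (hinvc.mul hkc).aestronglyMeasurable ?_
    refine Eventually.of_forall fun ξ => ?_
    rw [norm_mul, norm_mul, norm_exp_vert, norm_div, norm_one]
    have h2 : c ≤ ‖((⟨1, ξ₀⟩ : ℂ) + vert c ξ) - 1‖ := by
      refine le_trans ?_ (Complex.abs_re_le_norm _)
      rw [Complex.sub_re, hre]
      simp only [Complex.one_re]
      rw [show (1 + c - 1 : ℝ) = c by ring]
      exact le_abs_self c
    gcongr
  have hLc : Continuous fun ξ : ℝ => LSeries La (⟨1, ξ₀⟩ + vert c ξ) := by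
    have : (fun ξ : ℝ => LSeries La (⟨1, ξ₀⟩ + vert c ξ)) =
        fun ξ : ℝ => 1 / ((⟨1, ξ₀⟩ + vert c ξ) - 1) - DD (⟨1, ξ₀⟩ + vert c ξ) := by
      funext ξ
      exact LSeries_eq_DD (by rw [hre]; linarith)
    rw [this]
    exact hinvc.sub hDDc
  have hI1 : Integrable fun ξ : ℝ => LSeries La (⟨1, ξ₀⟩ + vert c ξ) *
      (kap (vert c ξ) * cexp (vert c ξ * u)) := by
    have ha : LSeriesSummable La ((1 + c : ℝ) : ℂ) :=
      ArithmeticFunction.LSeriesSummable_vonMangoldt (by simpa using hc)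
    refine (hmaj.const_mul (∑' n, ‖LSeries.term La ((1 + c : ℝ) : ℂ) n‖)).mono'
      (hLc.mul hkc).aestronglyMeasurable ?_
    refine Eventually.of_forall fun ξ => ?_
    rw [norm_mul, norm_mul, norm_exp_vert]
    apply mul_le_mul_of_nonneg_right _ (by positivity)
    unfold LSeries
    refine tsum_of_norm_bounded ha.norm.hasSum fun n => ?_
    rw [LSeries.norm_term_eq, LSeries.norm_term_eq, hre]
    simp
  rw [PS_eq hc hc1, PT_eq hc hc1, ← integral_sub hI1 hI2]
  congr 1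
  ext ξ
  have h3 : LSeries La (⟨1, ξ₀⟩ + vert c ξ) = 1 / ((⟨1, ξ₀⟩ + vert c ξ) - 1) - DD (⟨1, ξ₀⟩ + vert c ξ) :=
    LSeries_eq_DD (by rw [hre]; linarith)
  rw [h3]
  ring

end Pool.Agent.W66
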