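import Pool.Agent.W66.PD0
import Pool.Agent.Helper76.HPlanch

set_option autoImplicit false

/-!
# Mean square of a smoothed convolution through Plancherel
-/

open Complex Filter Topology Set MeasureTheory Metric
open scoped Real FourierTransform Convolution

namespace Pool.Agent.W66

lemma four_eq (f : ℝ → ℂ) (ξ : ℝ) :
    𝓕 f ξ = ∫ v : ℝ, cexp (-(((2 * π * ξ * v : ℝ) : ℂ) * I)) * f v := by
  rw [Real.fourier_real_eq_integral_exp_smul]
  congr 1
  ext v
  rw [smul_eq_mul]
  congr 2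
  push_cast
  ring

lemma four_shift (f : ℝ → ℂ) (a ξ : ℝ) :
    𝓕 (fun x => f (x - a)) ξ = cexp (-(((2 * π * ξ * a : ℝ) : ℂ) * I)) * 𝓕 f ξ := by
  rw [four_eq, four_eq, ← integral_const_mul]
  rw [← integral_sub_right_eq_self (fun v => cexp (-(((2 * π * ξ * a : ℝ) : ℂ) * I)) *
    (cexp (-(((2 * π * ξ * v : ℝ) : ℂ) * I)) * f v)) a]
  congr 1
  ext v
  rw [← mul_assoc, ← Complex.exp_add]
  congr 2
  push_cast
  ring

lemma four_sum {f : ℝ → ℂ} (hf : Integrable f) (s : Finset ℕ) (c : ℕ → ℂ) (a : ℕ → ℝ) (ξ : ℝ) :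
    𝓕 (fun x => ∑ i ∈ s, c i * f (x - a i)) ξ =
      (∑ i ∈ s, c i * cexp (-(((2 * π * ξ * a i : ℝ) : ℂ) * I))) * 𝓕 f ξ := by
  have h1 : ∀ i, Integrable fun v : ℝ => cexp (-(((2 * π * ξ * v : ℝ) : ℂ) * I)) *
      (c i * f (v - a i)) := by
    intro i
    have h2 : Integrable fun v : ℝ => c i * f (v - a i) := (hf.comp_sub_right (a i)).const_mul _
    refine h2.bdd_mul (c := 1) (by fun_prop) (Eventually.of_forall fun v => ?_)
    rw [show -(((2 * π * ξ * v : ℝ) : ℂ) * I) = ((-(2 * π * ξ * v) : ℝ) : ℂ) * I by push_cast; ring,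
      Complex.norm_exp_ofReal_mul_I]
  rw [four_eq]
  have h2 : ∀ v : ℝ, cexp (-(((2 * π * ξ * v : ℝ) : ℂ) * I)) * ∑ i ∈ s, c i * f (v - a i) =
      ∑ i ∈ s, cexp (-(((2 * π * ξ * v : ℝ) : ℂ) * I)) * (c i * f (v - a i)) := fun v => by
    rw [Finset.mul_sum]
  simp only [h2]
  rw [integral_finsetSum _ fun i _ => h1 i, Finset.sum_mul]
  apply Finset.sum_congr rfl
  intro i _
  have h3 := four_shift f (a i) ξ
  rw [four_eq] at h3
  have h4 : c i * cexp (-(((2 * π * ξ * a i : ℝ) : ℂ) * I)) * 𝓕 f ξ =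
    c i * (cexp (-(((2 * π * ξ * a i : ℝ) : ℂ) * I)) * 𝓕 f ξ) := by ring
  rw [h4, ← h3, ← integral_const_mul]
  congr 1
  ext v
  ring

/-- the normalised box -/
noncomputable def box (h x : ℝ) : ℝ := if |x| ≤ h / 2 then 1 / h else 0

/-- the normalised hat -/
noncomputable def tri (h x : ℝ) : ℝ := 1 / h * hat (x / h)

lemma box_eq (h : ℝ) : box h = (Icc (-(h / 2)) (h / 2)).indicator fun _ => 1 / h := by
  ext x
  unfold box
  rw [Set.indicator_apply]
  simp only [Set.mem_Icc, abs_le]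

lemma box_nonneg {h : ℝ} (hh : 0 < h) (x : ℝ) : 0 ≤ box h x := by
  unfold box; split_ifs <;> positivity

lemma box_le {h : ℝ} (hh : 0 < h) (x : ℝ) : box h x ≤ 1 / h := by
  unfold box
  split_ifs
  · exact le_rfl
  · positivity

lemma box_integrable (h : ℝ) : Integrable (box h) := by
  rw [box_eq]
  exact (integrable_indicator_iff measurableSet_Icc).2 (integrableOn_const (by simp))

lemma integral_box {h : ℝ} (hh : 0 < h) : ∫ x, box h x = 1 := by
  rw [box_eq, integral_indicator measurableSet_Icc, setIntegral_const, Real.volume_real_Icc,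
    max_eq_left (by linarith), smul_eq_mul]
  field_simp
  ring

lemma tri_nonneg {h : ℝ} (hh : 0 < h) (x : ℝ) : 0 ≤ tri h x := by
  unfold tri
  have := hat_nonneg (x / h)
  positivity

lemma tri_le {h : ℝ} (hh : 0 < h) (x : ℝ) : tri h x ≤ 1 / h := by
  unfold tri
  have := hat_le_one (x / h)
  calc 1 / h * hat (x / h) ≤ 1 / h * 1 := by gcongr
    _ = _ := mul_one _

lemma tri_continuous (h : ℝ) : Continuous (tri h) := by
  unfold tri
  exact continuous_const.mul (hat_continuous.comp (by fun_prop))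

lemma tri_zero_of {h x : ℝ} (hh : 0 < h) (hx : h ≤ |x|) : tri h x = 0 := by
  unfold tri
  rw [hat_zero_of, mul_zero]
  rw [abs_div, abs_of_pos hh, le_div_iff₀ hh]
  linarith

lemma tri_neg (h x : ℝ) : tri h (-x) = tri h x := by
  unfold tri
  rw [neg_div, hat_neg]

lemma tri_eq {h : ℝ} (hh : 0 < h) (x : ℝ) : tri h x = 1 / h ^ 2 * max (h - |x|) 0 := by
  unfold tri hat
  rw [abs_div, abs_of_pos hh]
  have : max (1 - |x| / h) 0 = 1 / h * max (h - |x|) 0 := by
    rw [mul_max_of_nonneg _ _ (by positivity), mul_zero]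
    congr 1
    field_simp
  rw [this]
  field_simp

lemma tri_hasCompactSupport {h : ℝ} (hh : 0 < h) : HasCompactSupport (tri h) := by
  apply HasCompactSupport.intro (K := Icc (-h) h) isCompact_Icc
  intro x hx
  apply tri_zero_of hh
  rw [Set.mem_Icc] at hx
  by_contra hc
  push Not at hc
  rw [abs_lt] at hc
  exact hx ⟨hc.1.le, hc.2.le⟩

lemma tri_integrable {h : ℝ} (hh : 0 < h) : Integrable (tri h) :=
  (tri_continuous h).integrable_of_hasCompactSupport (tri_hasCompactSupport hh)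

lemma box_conv_gen {h : ℝ} (hh : 0 < h) (a b : ℝ) :
    ∫ y, box h (y - a) * box h (y - b) = tri h (a - b) := by
  have h1 : ∀ y, box h (y - a) * box h (y - b) =
      (Icc (max (a - h / 2) (b - h / 2)) (min (a + h / 2) (b + h / 2))).indicator
        (fun _ => 1 / h ^ 2) y := by
    intro y
    unfold box
    rw [Set.indicator_apply]
    simp only [Set.mem_Icc, abs_le, max_le_iff, le_min_iff]
    split_ifs with h1 h2 h3 h3 h3 h3
    · field_simp
    · exfalso; apply h3; exact ⟨⟨by linarith, by linarith⟩, by linarith, by linarith⟩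
    · exfalso; apply h2; exact ⟨by linarith, by linarith⟩
    · simp
    · exfalso; apply h1; exact ⟨by linarith, by linarith⟩
    · simp
    · exfalso; apply h1; exact ⟨by linarith, by linarith⟩
    · simp
  simp only [h1]
  rw [integral_indicator measurableSet_Icc, setIntegral_const, Real.volume_real_Icc, smul_eq_mul,
    tri_eq hh, mul_comm]
  congr 2
  rcases le_total a b with h2 | h2
  · rw [max_eq_right (by linarith), min_eq_left (by linarith), abs_of_nonpos (by linarith)]
    ring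
  · rw [max_eq_left (by linarith), min_eq_right (by linarith), abs_of_nonneg (by linarith)]
    ring

/-- complex versions -/
noncomputable def boxC (h x : ℝ) : ℂ := ((box h x : ℝ) : ℂ)

noncomputable def triC (h x : ℝ) : ℂ := ((tri h x : ℝ) : ℂ)

lemma boxC_integrable (h : ℝ) : Integrable (boxC h) := (box_integrable h).ofReal

lemma triC_integrable {h : ℝ} (hh : 0 < h) : Integrable (triC h) := (tri_integrable hh).ofReal

lemma box_neg (h x : ℝ) : box h (-x) = box h x := by unfold box; rw [abs_neg]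

lemma triC_eq_conv {h : ℝ} (hh : 0 < h) :
    triC h = (boxC h) ⋆[ContinuousLinearMap.mul ℂ ℂ] (boxC h) := by
  ext x
  rw [MeasureTheory.convolution_def]
  simp only [ContinuousLinearMap.mul_apply', boxC, triC]
  have h1 := box_conv_gen hh 0 x
  rw [zero_sub, tri_neg] at h1
  rw [← h1, ← integral_complex_ofReal]
  congr 1
  ext y
  rw [sub_zero, ← box_neg h (y - x), neg_sub]
  push_cast
  ring

lemma four_triC {h : ℝ} (hh : 0 < h) (ξ : ℝ) : 𝓕 (triC h) ξ = 𝓕 (boxC h) ξ ^ 2 := by
  rw [triC_eq_conv hh, Real.fourier_mul_convolution_eq (boxC_integrable h) (boxC_integrable h), sq]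

lemma norm_four_le (f : ℝ → ℂ) (ξ : ℝ) : ‖𝓕 f ξ‖ ≤ ∫ v, ‖f v‖ := by
  rw [four_eq]
  refine (norm_integral_le_integral_norm _).trans (le_of_eq ?_)
  congr 1
  ext v
  rw [norm_mul, show -(((2 * π * ξ * v : ℝ) : ℂ) * I) = ((-(2 * π * ξ * v) : ℝ) : ℂ) * I by
    push_cast; ring, Complex.norm_exp_ofReal_mul_I, one_mul]

lemma norm_four_box_le_one {h : ℝ} (hh : 0 < h) (ξ : ℝ) : ‖𝓕 (boxC h) ξ‖ ≤ 1 := by
  refine (norm_four_le _ _).trans (le_of_eq ?_)
  rw [← integral_box hh]
  congr 1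
  ext x
  unfold boxC
  rw [Complex.norm_real, Real.norm_of_nonneg (box_nonneg hh x)]

lemma norm_four_box_le {h : ℝ} (hh : 0 < h) {ξ : ℝ} (hξ : ξ ≠ 0) :
    ‖𝓕 (boxC h) ξ‖ ≤ 1 / (h * |ξ|) := by
  rw [four_eq]
  set a : ℂ := -((2 * π * ξ : ℝ) : ℂ) * I with ha
  have ha0 : a ≠ 0 := by
    rw [ha]
    apply mul_ne_zero _ I_ne_zero
    rw [neg_ne_zero, Complex.ofReal_ne_zero]
    have := Real.pi_pos
    positivity
  have h1 : ∀ v : ℝ, cexp (-(((2 * π * ξ * v : ℝ) : ℂ) * I)) * boxC h v =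
      (Icc (-(h / 2)) (h / 2)).indicator (fun v : ℝ => ((1 / h : ℝ) : ℂ) * cexp (a * v)) v := by
    intro v
    unfold boxC
    rw [box_eq, Set.indicator_apply, Set.indicator_apply]
    have : -(((2 * π * ξ * v : ℝ) : ℂ) * I) = a * v := by rw [ha]; push_cast; ring
    rw [this]
    split_ifs
    · ring
    · simp
  simp only [h1]
  rw [integral_indicator measurableSet_Icc, integral_Icc_eq_integral_Ioc,
    ← intervalIntegral.integral_of_le (by linarith), intervalIntegral.integral_const_mul,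
    integral_exp_mul_complex ha0, norm_mul, norm_div]
  have h2 : ‖((1 / h : ℝ) : ℂ)‖ = 1 / h := by
    rw [Complex.norm_real, Real.norm_of_nonneg (by positivity)]
  have h3 : ‖a‖ = 2 * π * |ξ| := by
    rw [ha, norm_mul, Complex.norm_I, mul_one, norm_neg, Complex.norm_real, Real.norm_eq_abs,
      abs_mul, abs_of_pos (by positivity : (0 : ℝ) < 2 * π)]
  have h4 : ‖cexp (a * ((h / 2 : ℝ) : ℂ)) - cexp (a * ((-(h / 2) : ℝ) : ℂ))‖ ≤ 2 := by
    refine (norm_sub_le _ _).trans ?_
    have e : ∀ t : ℝ, ‖cexp (a * (t : ℂ))‖ = 1 := by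
      intro t
      rw [show a * (t : ℂ) = ((-(2 * π * ξ) * t : ℝ) : ℂ) * I by rw [ha]; push_cast; ring,
        Complex.norm_exp_ofReal_mul_I]
    rw [e, e]
    norm_num
  rw [h2, h3]
  have hξ' : 0 < |ξ| := abs_pos.2 hξ
  have hpi := Real.pi_gt_three
  calc 1 / h * (‖cexp (a * ((h / 2 : ℝ) : ℂ)) - cexp (a * ((-(h / 2) : ℝ) : ℂ))‖ / (2 * π * |ξ|)) ≤
        1 / h * (2 / (2 * 1 * |ξ|)) := by gcongr; linarith
    _ = _ := by field_simp

/-- `Σ c_l box (x - log l)` -/
noncomputable def bb (h : ℝ) (L : Finset ℕ) (c : ℕ → ℝ) (x : ℝ) : ℝ :=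
  ∑ l ∈ L, c l * box h (x - Real.log l)

/-- `Σ c_l tri (x - log l)` -/
noncomputable def gg (h : ℝ) (L : Finset ℕ) (c : ℕ → ℝ) (x : ℝ) : ℝ :=
  ∑ l ∈ L, c l * tri h (x - Real.log l)

/-- the smoothed discrepancy of the primes near `e^u`, convolved with `c` -/
noncomputable def FF (u h : ℝ) (N : ℕ) (L : Finset ℕ) (c : ℕ → ℝ) (x : ℝ) : ℝ :=
  ∑ n ∈ Finset.Ioc 0 N, ArithmeticFunction.vonMangoldt n / n * hat (u - Real.log n) *
    gg h L c (x - Real.log n) - ∫ v : ℝ, hat (u - v) * gg h L c (x - v)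

lemma gg_continuous (h : ℝ) (L : Finset ℕ) (c : ℕ → ℝ) : Continuous (gg h L c) := by
  unfold gg
  apply continuous_finsetSum
  intro l _
  exact continuous_const.mul ((tri_continuous h).comp (by fun_prop))

lemma gg_compact {h : ℝ} (hh : 0 < h) (L : Finset ℕ) (c : ℕ → ℝ) : HasCompactSupport (gg h L c) := by
  unfold gg
  induction L using Finset.induction_on with
  | empty =>
    simp only [Finset.sum_empty]
    exact HasCompactSupport.zero
  | insert a s ha ih =>
    have h1 : HasCompactSupport fun x => c a * tri h (x - Real.log a) := by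
      have := (tri_hasCompactSupport hh).comp_homeomorph (Homeomorph.subRight (Real.log a))
      exact this.mul_left
    have h2 : (fun x => ∑ l ∈ insert a s, c l * tri h (x - Real.log l)) =
      (fun x => c a * tri h (x - Real.log a)) + fun x => ∑ l ∈ s, c l * tri h (x - Real.log l) := by
      ext x
      rw [Finset.sum_insert ha]
      rfl
    rw [h2]
    exact h1.add ih

lemma gg_integrable {h : ℝ} (hh : 0 < h) (L : Finset ℕ) (c : ℕ → ℝ) : Integrable (gg h L c) :=
  (gg_continuous h L c).integrable_of_hasCompactSupport (gg_compact hh L c)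

lemma hatu_continuous (u : ℝ) : Continuous fun v => hat (u - v) := hat_continuous.comp (by fun_prop)

lemma hatu_compact (u : ℝ) : HasCompactSupport fun v => hat (u - v) := by
  apply HasCompactSupport.intro (K := Icc (u - 1) (u + 1)) isCompact_Icc
  intro x hx
  apply hat_zero_of
  rw [Set.mem_Icc] at hx
  by_contra hc
  push Not at hc
  rw [abs_lt] at hc
  exact hx ⟨by linarith, by linarith⟩

lemma hatu_integrable (u : ℝ) : Integrable fun v => hat (u - v) :=
  (hatu_continuous u).integrable_of_hasCompactSupport (hatu_compact u)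

lemma conv_real (u h : ℝ) (L : Finset ℕ) (c : ℕ → ℝ) (x : ℝ) :
    ∫ v : ℝ, hat (u - v) * gg h L c (x - v) =
      ((fun v => hat (u - v)) ⋆[ContinuousLinearMap.mul ℝ ℝ] (gg h L c)) x := by
  rw [MeasureTheory.convolution_def]
  rfl

lemma FF_eq (u h : ℝ) (N : ℕ) (L : Finset ℕ) (c : ℕ → ℝ) : FF u h N L c =
    (fun x => ∑ n ∈ Finset.Ioc 0 N, ArithmeticFunction.vonMangoldt n / n * hat (u - Real.log n) *
    gg h L c (x - Real.log n)) -
    ((fun v => hat (u - v)) ⋆[ContinuousLinearMap.mul ℝ ℝ] (gg h L c)) := by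
  ext x
  unfold FF
  rw [conv_real]
  rfl

lemma FF_continuous {h : ℝ} (hh : 0 < h) (u : ℝ) (N : ℕ) (L : Finset ℕ) (c : ℕ → ℝ) :
    Continuous (FF u h N L c) := by
  rw [FF_eq]
  apply Continuous.sub
  · apply continuous_finsetSum
    intro n _
    exact continuous_const.mul ((gg_continuous h L c).comp (by fun_prop))
  · exact HasCompactSupport.continuous_convolution_right _ (gg_compact hh L c)
      (hatu_continuous u).locallyIntegrable (gg_continuous h L c)

lemma FF_compact {h : ℝ} (hh : 0 < h) (u : ℝ) (N : ℕ) (L : Finset ℕ) (c : ℕ → ℝ) :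
    HasCompactSupport (FF u h N L c) := by
  rw [FF_eq]
  apply HasCompactSupport.sub
  · have : ∀ s : Finset ℕ, HasCompactSupport fun x => ∑ n ∈ s,
      ArithmeticFunction.vonMangoldt n / n * hat (u - Real.log n) * gg h L c (x - Real.log n) := by
      intro s
      induction s using Finset.induction_on with
      | empty =>
        simp only [Finset.sum_empty]
        exact HasCompactSupport.zero
      | insert a s ha ih =>
        have h1 : HasCompactSupport fun x => ArithmeticFunction.vonMangoldt a / a *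
          hat (u - Real.log a) * gg h L c (x - Real.log a) :=
          ((gg_compact hh L c).comp_homeomorph (Homeomorph.subRight (Real.log a))).mul_left
        have h2 : (fun x => ∑ n ∈ insert a s, ArithmeticFunction.vonMangoldt n / n *
          hat (u - Real.log n) * gg h L c (x - Real.log n)) =
          (fun x => ArithmeticFunction.vonMangoldt a / a *
          hat (u - Real.log a) * gg h L c (x - Real.log a)) + fun x => ∑ n ∈ s,
          ArithmeticFunction.vonMangoldt n / n * hat (u - Real.log n) *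
            gg h L c (x - Real.log n) := by
          ext x
          rw [Finset.sum_insert ha]
          rfl
        rw [h2]
        exact h1.add ih
    exact this _
  · exact HasCompactSupport.convolution _ (hatu_compact u) (gg_compact hh L c)

lemma FF_sq_integrable {h : ℝ} (hh : 0 < h) (u : ℝ) (N : ℕ) (L : Finset ℕ) (c : ℕ → ℝ) :
    Integrable fun x => FF u h N L c x ^ 2 := by
  apply ((FF_continuous hh u N L c).pow 2).integrable_of_hasCompactSupport
  have := FF_compact hh u N L c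
  have h2 : (FF u h N L c ^ 2) = fun x => FF u h N L c x * FF u h N L c x := by
    ext x
    simp only [Pi.pow_apply]
    ring
  rw [h2]
  exact this.mul_left

lemma PS_fin (u ξ : ℝ) (N : ℕ) (hN : Real.exp (u + 1) ≤ N) :
    PS u (2 * π * ξ) = ∑ n ∈ Finset.Ioc 0 N,
      ((ArithmeticFunction.vonMangoldt n / n * hat (u - Real.log n) : ℝ) : ℂ) *
        cexp (-(((2 * π * ξ * Real.log n : ℝ) : ℂ) * I)) := by
  unfold PS
  rw [tsum_eq_sum (s := Finset.Ioc 0 N)]
  · apply Finset.sum_congr rfl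
    intro n hn
    rw [Finset.mem_Ioc] at hn
    rw [LSeries.term_of_ne_zero hn.1.ne']
    have hnc : (n : ℂ) ≠ 0 := by exact_mod_cast hn.1.ne'
    have h1 : (n : ℂ) ^ (⟨1, 2 * π * ξ⟩ : ℂ) = (n : ℂ) * cexp (((2 * π * ξ * Real.log n : ℝ) : ℂ) * I) := by
      have e : (⟨1, 2 * π * ξ⟩ : ℂ) = 1 + ((2 * π * ξ : ℝ) : ℂ) * I := by
        apply Complex.ext <;> simp
      rw [e, Complex.cpow_add _ _ hnc, Complex.cpow_one, Complex.cpow_def_of_ne_zero hnc,
        ← Complex.natCast_log]
      congr 2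
      push_cast
      ring
    rw [h1, Complex.exp_neg]
    unfold La
    have h2 := Complex.exp_ne_zero (((2 * π * ξ * Real.log n : ℝ) : ℂ) * I)
    push_cast
    field_simp
  · intro n hn
    rcases Nat.eq_zero_or_pos n with rfl | hn0
    · simp
    · rw [Finset.mem_Ioc] at hn
      have h1 : N < n := by
        by_contra hc
        exact hn ⟨hn0, by omega⟩
      have h2 : u + 1 ≤ Real.log n := by
        rw [Real.le_log_iff_exp_le (by exact_mod_cast hn0)]
        refine hN.trans ?_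
        exact_mod_cast h1.le
      rw [hat_zero_of, Complex.ofReal_zero, mul_zero]
      rw [abs_of_nonpos (by linarith)]
      linarith

lemma PT_full {u : ℝ} (hu : 1 ≤ u) (ξ : ℝ) :
    PT u (2 * π * ξ) = 𝓕 (fun v : ℝ => ((hat (u - v) : ℝ) : ℂ)) ξ := by
  rw [four_eq]
  unfold PT
  rw [← integral_indicator measurableSet_Ioi]
  congr 1
  ext v
  rw [Set.indicator_apply]
  split_ifs with h
  · rfl
  · rw [Set.mem_Ioi, not_lt] at h
    rw [hat_zero_of, Complex.ofReal_zero, mul_zero]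
    rw [abs_of_nonneg (by linarith)]
    linarith

theorem four_FF {u h : ℝ} (hu : 1 ≤ u) (hh : 0 < h) (N : ℕ) (hN : Real.exp (u + 1) ≤ N)
    (L : Finset ℕ) (c : ℕ → ℝ) (ξ : ℝ) :
    𝓕 (fun x => ((FF u h N L c x : ℝ) : ℂ)) ξ =
      (PS u (2 * π * ξ) - PT u (2 * π * ξ)) * 𝓕 (boxC h) ξ *
        𝓕 (fun x => ((bb h L c x : ℝ) : ℂ)) ξ := by
  have hgint : Integrable fun x => ((gg h L c x : ℝ) : ℂ) := (gg_integrable hh L c).ofReal
  have hhint : Integrable fun v : ℝ => ((hat (u - v) : ℝ) : ℂ) := (hatu_integrable u).ofReal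
  have h1 : 𝓕 (fun x => ((gg h L c x : ℝ) : ℂ)) ξ =
      (∑ l ∈ L, (c l : ℂ) * cexp (-(((2 * π * ξ * Real.log l : ℝ) : ℂ) * I))) *
        𝓕 (boxC h) ξ ^ 2 := by
    rw [← four_triC hh, ← four_sum (triC_integrable hh)]
    have e : (fun x => ((gg h L c x : ℝ) : ℂ)) =
        fun x => ∑ i ∈ L, (c i : ℂ) * triC h (x - Real.log i) := by
      ext x
      unfold gg triC
      push_cast
      rfl
    rw [e]
  have h2 : 𝓕 (fun x => ((bb h L c x : ℝ) : ℂ)) ξ =
      (∑ l ∈ L, (c l : ℂ) * cexp (-(((2 * π * ξ * Real.log l : ℝ) : ℂ) * I))) *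
        𝓕 (boxC h) ξ := by
    rw [← four_sum (boxC_integrable h)]
    have e : (fun x => ((bb h L c x : ℝ) : ℂ)) =
        fun x => ∑ i ∈ L, (c i : ℂ) * boxC h (x - Real.log i) := by
      ext x
      unfold bb boxC
      push_cast
      rfl
    rw [e]
  have h3 : (fun x => ((FF u h N L c x : ℝ) : ℂ)) = fun x => (∑ n ∈ Finset.Ioc 0 N,
      ((ArithmeticFunction.vonMangoldt n / n * hat (u - Real.log n) : ℝ) : ℂ) *
        ((gg h L c (x - Real.log n) : ℝ) : ℂ)) -
      ((fun v : ℝ => ((hat (u - v) : ℝ) : ℂ)) ⋆[ContinuousLinearMap.mul ℂ ℂ]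
        (fun x => ((gg h L c x : ℝ) : ℂ))) x := by
    ext x
    rw [MeasureTheory.convolution_def]
    simp only [ContinuousLinearMap.mul_apply']
    unfold FF
    rw [Complex.ofReal_sub, Complex.ofReal_sum, ← integral_complex_ofReal]
    congr 1
    · apply Finset.sum_congr rfl
      intro n _
      push_cast
      rfl
    · congr 1
      ext v
      push_cast
      rfl
  rw [h3]
  have hA : Integrable fun x : ℝ => ∑ n ∈ Finset.Ioc 0 N,
      ((ArithmeticFunction.vonMangoldt n / n * hat (u - Real.log n) : ℝ) : ℂ) *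
        ((gg h L c (x - Real.log n) : ℝ) : ℂ) :=
    integrable_finsetSum _ fun n _ => (hgint.comp_sub_right (Real.log n)).const_mul _
  have hB : Integrable ((fun v : ℝ => ((hat (u - v) : ℝ) : ℂ)) ⋆[ContinuousLinearMap.mul ℂ ℂ]
        (fun x => ((gg h L c x : ℝ) : ℂ))) :=
    hhint.integrable_convolution _ hgint
  have h4 : 𝓕 (fun x : ℝ => (∑ n ∈ Finset.Ioc 0 N,
      ((ArithmeticFunction.vonMangoldt n / n * hat (u - Real.log n) : ℝ) : ℂ) *
        ((gg h L c (x - Real.log n) : ℝ) : ℂ)) -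
      ((fun v : ℝ => ((hat (u - v) : ℝ) : ℂ)) ⋆[ContinuousLinearMap.mul ℂ ℂ]
        (fun x => ((gg h L c x : ℝ) : ℂ))) x) ξ =
      𝓕 (fun x : ℝ => ∑ n ∈ Finset.Ioc 0 N,
      ((ArithmeticFunction.vonMangoldt n / n * hat (u - Real.log n) : ℝ) : ℂ) *
        ((gg h L c (x - Real.log n) : ℝ) : ℂ)) ξ -
      𝓕 ((fun v : ℝ => ((hat (u - v) : ℝ) : ℂ)) ⋆[ContinuousLinearMap.mul ℂ ℂ]
        (fun x => ((gg h L c x : ℝ) : ℂ))) ξ := by
    rw [four_eq, four_eq, four_eq, ← integral_sub]
    · congr 1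
      ext v
      ring
    · refine hA.bdd_mul (c := 1) (by fun_prop) (Eventually.of_forall fun v => ?_)
      rw [show -(((2 * π * ξ * v : ℝ) : ℂ) * I) = ((-(2 * π * ξ * v) : ℝ) : ℂ) * I by
        push_cast; ring, Complex.norm_exp_ofReal_mul_I]
    · refine hB.bdd_mul (c := 1) (by fun_prop) (Eventually.of_forall fun v => ?_)
      rw [show -(((2 * π * ξ * v : ℝ) : ℂ) * I) = ((-(2 * π * ξ * v) : ℝ) : ℂ) * I by
        push_cast; ring, Complex.norm_exp_ofReal_mul_I]
  rw [h4, four_sum (f := fun x => ((gg h L c x : ℝ) : ℂ)) hgint,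
    Real.fourier_mul_convolution_eq hhint hgint, PS_fin u ξ N hN, PT_full hu, h1, h2]
  ring

theorem dispersion {u h : ℝ} (hu : 1 ≤ u) (hh : 0 < h) (N : ℕ) (hN : Real.exp (u + 1) ≤ N)
    (L : Finset ℕ) (c : ℕ → ℝ) {M : ℝ} (hM0 : 0 ≤ M)
    (hM : ∀ ξ : ℝ, ‖PS u (2 * π * ξ) - PT u (2 * π * ξ)‖ * ‖𝓕 (boxC h) ξ‖ ≤ M) :
    ∫ x, FF u h N L c x ^ 2 ≤ M ^ 2 * ∫ x, bb h L c x ^ 2 := by
  have hFc := FF_continuous hh u N L c
  have hFs := FF_compact hh u N L c
  have hbint : Integrable (bb h L c) :=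
    integrable_finsetSum _ fun l _ => ((box_integrable h).comp_sub_right (Real.log l)).const_mul _
  have hboxL : MemLp (box h) 2 := by
    rw [box_eq]
    exact memLp_indicator_const 2 measurableSet_Icc _ (Or.inr (by simp))
  have hbL : MemLp (bb h L c) 2 := by
    unfold bb
    apply memLp_finsetSum
    intro l _
    exact (hboxL.comp_measurePreserving (measurePreserving_sub_right volume (Real.log l))).const_mul _
  have hFL : MemLp (FF u h N L c) 2 := hFc.memLp_of_hasCompactSupport hFs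
  have hFint : Integrable (FF u h N L c) := hFc.integrable_of_hasCompactSupport hFs
  have p1 := Pool.Agent.Helper76.NormalHP.plancherel_lintegral
    (fun x => ((FF u h N L c x : ℝ) : ℂ)) hFint.ofReal hFL.ofReal
  have p2 := Pool.Agent.Helper76.NormalHP.plancherel_lintegral
    (fun x => ((bb h L c x : ℝ) : ℂ)) hbint.ofReal hbL.ofReal
  have key : ∫⁻ x, ‖((FF u h N L c x : ℝ) : ℂ)‖ₑ ^ 2 ≤
      ENNReal.ofReal (M ^ 2) * ∫⁻ x, ‖((bb h L c x : ℝ) : ℂ)‖ₑ ^ 2 := by
    rw [← p1, ← p2, ← lintegral_const_mul' _ _ (by simp)]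
    apply lintegral_mono
    intro ξ
    simp only
    rw [four_FF hu hh N hN, enorm_mul, mul_pow, ENNReal.ofReal_pow hM0]
    gcongr
    rw [← ofReal_norm, norm_mul]
    exact ENNReal.ofReal_le_ofReal (hM ξ)
  have e1 : ∀ f : ℝ → ℝ, MemLp f 2 → ∫⁻ x, ‖((f x : ℝ) : ℂ)‖ₑ ^ 2 = ENNReal.ofReal (∫ x, f x ^ 2) := by
    intro f hf
    rw [ofReal_integral_eq_lintegral_ofReal hf.integrable_sq (Eventually.of_forall fun x => by
      simp only [Pi.zero_apply]; positivity)]
    congr 1
    ext x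
    rw [← ofReal_norm, ← ENNReal.ofReal_pow (norm_nonneg _), Complex.norm_real, Real.norm_eq_abs,
      sq_abs]
  rw [e1 _ hFL, e1 _ hbL, ← ENNReal.ofReal_mul (by positivity)] at key
  refine (ENNReal.ofReal_le_ofReal_iff ?_).1 key
  apply mul_nonneg (by positivity)
  exact integral_nonneg fun x => by positivity

end Pool.Agent.W66
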