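import Pool.Agent.W66.PD

set_option autoImplicit false

/-!
# Mean square of the second factor, and the algebraic identity
-/

open Filter Topology Set MeasureTheory Metric
open scoped Real

namespace Pool.Agent.W66

lemma card_window {h : ℝ} (hh : 0 < h) (hh1 : h ≤ 1) (L : Finset ℕ) (l : ℕ) (hl : 0 < l)
    (hL : ∀ m ∈ L, 0 < m) (hhl : 1 ≤ h * l) :
    ((L.filter fun m : ℕ => |Real.log l - Real.log m| < h).card : ℝ) ≤ 7 * (h * l) := by
  have hl0 : (0 : ℝ) < l := by exact_mod_cast hl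
  set A : ℝ := l * Real.exp (-h) with hA
  set B : ℝ := l * Real.exp h with hB
  have hA0 : 0 ≤ A := by positivity
  have hsub : (L.filter fun m : ℕ => |Real.log l - Real.log m| < h) ⊆ Finset.Icc ⌈A⌉₊ ⌊B⌋₊ := by
    intro m hm
    rw [Finset.mem_filter] at hm
    have hm0 : (0 : ℝ) < m := by exact_mod_cast hL m hm.1
    rw [Finset.mem_Icc]
    rw [abs_lt] at hm
    constructor
    · rw [Nat.ceil_le, hA, ← Real.exp_log hl0, ← Real.exp_add]
      rw [← Real.le_log_iff_exp_le hm0]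
      linarith
    · apply Nat.le_floor
      rw [hB, ← Real.exp_log hl0, ← Real.exp_add, ← Real.log_le_iff_le_exp hm0]
      linarith
  have h1 : ((L.filter fun m : ℕ => |Real.log l - Real.log m| < h).card : ℝ) ≤
      (⌊B⌋₊ : ℝ) + 1 - (⌈A⌉₊ : ℝ) := by
    have h2 := Finset.card_le_card hsub
    rw [Nat.card_Icc] at h2
    have h3 : ⌈A⌉₊ ≤ ⌊B⌋₊ + 1 := by
      rw [Nat.ceil_le]
      have : A ≤ B := by
        rw [hA, hB]
        apply mul_le_mul_of_nonneg_left _ hl0.le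
        exact Real.exp_le_exp.2 (by linarith)
      push_cast
      linarith [Nat.lt_floor_add_one B]
    have h4 : ((⌊B⌋₊ + 1 - ⌈A⌉₊ : ℕ) : ℝ) = (⌊B⌋₊ : ℝ) + 1 - (⌈A⌉₊ : ℝ) := by
      rw [Nat.cast_sub h3]; push_cast; ring
    rw [← h4]
    exact_mod_cast h2
  have h2 : (⌊B⌋₊ : ℝ) ≤ B := Nat.floor_le (by positivity)
  have h3 : A ≤ (⌈A⌉₊ : ℝ) := Nat.le_ceil _
  have h4 : Real.exp h ≤ 1 + 3 * h := by
    have e1 := Real.exp_bound_div_one_sub_of_interval (x := h / 2) (by linarith) (by linarith)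
    have e2 : Real.exp h = Real.exp (h / 2) ^ 2 := by rw [← Real.exp_nat_mul]; congr 1; push_cast; ring
    rw [e2]
    have e3 : 1 / (1 - h / 2) ≤ 1 + h := by
      rw [div_le_iff₀ (by linarith)]
      nlinarith
    have e4 : Real.exp (h / 2) ≤ 1 + h := e1.trans e3
    have e5 : 0 ≤ Real.exp (h / 2) := (Real.exp_pos _).le
    nlinarith
  have h5 : 1 - h ≤ Real.exp (-h) := by
    have := Real.add_one_le_exp (-h)
    linarith
  have h6 : B - A ≤ 4 * (h * l) := by
    rw [hA, hB]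
    nlinarith
  linarith

theorem bb_sq_le {h : ℝ} (hh : 0 < h) (hh1 : h ≤ 1) (L : Finset ℕ) (c : ℕ → ℝ)
    (hL : ∀ l ∈ L, 0 < l) (hc : ∀ l ∈ L, c l ≠ 0 → 1 ≤ h * l) :
    ∫ x, bb h L c x ^ 2 ≤ 7 * ∑ l ∈ L, l * c l ^ 2 := by
  have hint : ∀ a b : ℝ, Integrable fun y : ℝ => box h (y - a) * box h (y - b) := by
    intro a b
    refine ((box_integrable h).comp_sub_right b).bdd_mul (c := 1 / h)
      ((box_integrable h).comp_sub_right a).aestronglyMeasurable (Eventually.of_forall fun x => ?_)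
    rw [Real.norm_of_nonneg (box_nonneg hh _)]
    exact box_le hh _
  have h1 : ∫ x, bb h L c x ^ 2 =
      ∑ l ∈ L, ∑ m ∈ L, c l * c m * tri h (Real.log (l : ℝ) - Real.log (m : ℝ)) := by
    have e : ∀ x, bb h L c x ^ 2 = ∑ l ∈ L, ∑ m ∈ L, c l * c m *
        (box h (x - Real.log l) * box h (x - Real.log m)) := by
      intro x
      unfold bb
      rw [sq, Finset.sum_mul_sum]
      refine Finset.sum_congr rfl fun l _ => Finset.sum_congr rfl fun m _ => ?_
      ring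
    simp only [e]
    rw [integral_finsetSum _ fun (l : ℕ) _ => integrable_finsetSum _ fun (m : ℕ) _ =>
      (hint (Real.log l) (Real.log m)).const_mul (c l * c m)]
    refine Finset.sum_congr rfl fun l _ => ?_
    rw [integral_finsetSum _ fun (m : ℕ) _ =>
      (hint (Real.log l) (Real.log m)).const_mul (c l * c m)]
    refine Finset.sum_congr rfl fun m _ => ?_
    rw [integral_const_mul, box_conv_gen hh]
  rw [h1]
  have h2 : ∑ l ∈ L, ∑ m ∈ L, c l * c m * tri h (Real.log (l : ℝ) - Real.log (m : ℝ)) ≤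
      ∑ l ∈ L, ∑ m ∈ L, (c l ^ 2 / 2 + c m ^ 2 / 2) *
        tri h (Real.log (l : ℝ) - Real.log (m : ℝ)) := by
    refine Finset.sum_le_sum fun l _ => Finset.sum_le_sum fun m _ => ?_
    apply mul_le_mul_of_nonneg_right _ (tri_nonneg hh _)
    nlinarith [sq_nonneg (c l - c m)]
  refine h2.trans ?_
  have h3 : ∑ l ∈ L, ∑ m ∈ L, (c l ^ 2 / 2 + c m ^ 2 / 2) *
      tri h (Real.log (l : ℝ) - Real.log (m : ℝ)) =
      ∑ l ∈ L, c l ^ 2 * ∑ m ∈ L, tri h (Real.log (l : ℝ) - Real.log (m : ℝ)) := by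
    simp only [add_mul, Finset.sum_add_distrib]
    have e1 : ∑ l ∈ L, ∑ m ∈ L, c m ^ 2 / 2 * tri h (Real.log (l : ℝ) - Real.log (m : ℝ)) =
        ∑ l ∈ L, ∑ m ∈ L, c l ^ 2 / 2 * tri h (Real.log (l : ℝ) - Real.log (m : ℝ)) := by
      rw [Finset.sum_comm]
      refine Finset.sum_congr rfl fun l _ => Finset.sum_congr rfl fun m _ => ?_
      rw [← tri_neg h (Real.log l - Real.log m), neg_sub]
    rw [e1, ← Finset.sum_add_distrib]
    refine Finset.sum_congr rfl fun l _ => ?_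
    rw [← Finset.sum_add_distrib, Finset.mul_sum]
    refine Finset.sum_congr rfl fun m _ => ?_
    ring
  rw [h3, Finset.mul_sum]
  refine Finset.sum_le_sum fun l hl => ?_
  by_cases hcl : c l = 0
  · simp [hcl]
  have hhl := hc l hl hcl
  have h4 : ∑ m ∈ L, tri h (Real.log l - Real.log m) ≤ 7 * l := by
    have h5 : ∑ m ∈ L, tri h (Real.log l - Real.log m) ≤
        ∑ m ∈ L, if |Real.log l - Real.log m| < h then 1 / h else 0 := by
      refine Finset.sum_le_sum fun m _ => ?_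
      split_ifs with h6
      · exact tri_le hh _
      · exact (tri_zero_of hh (not_lt.1 h6)).le
    refine h5.trans ?_
    rw [← Finset.sum_filter, Finset.sum_const, nsmul_eq_mul]
    have h6 := card_window hh hh1 L l (hL l hl) hL hhl
    calc _ ≤ 7 * (h * l) * (1 / h) := by gcongr
      _ = _ := by field_simp
  calc c l ^ 2 * ∑ m ∈ L, tri h (Real.log l - Real.log m) ≤ c l ^ 2 * (7 * l) := by gcongr
    _ = _ := by ring

/-- the hyperbola rearrangement -/
lemma hyper (F : ℕ → ℕ → ℝ) (N : ℕ) :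
    ∑ n ∈ Finset.Ioc 0 N, ∑ p ∈ n.divisorsAntidiagonal, F p.1 p.2 =
      ∑ p ∈ (Finset.Ioc 0 N ×ˢ Finset.Ioc 0 N).filter (fun p => p.1 * p.2 ≤ N), F p.1 p.2 := by
  rw [← Finset.sum_fiberwise_of_maps_to (t := Finset.Ioc 0 N) (g := fun p : ℕ × ℕ => p.1 * p.2)]
  · refine Finset.sum_congr rfl fun n hn => Finset.sum_congr ?_ fun _ _ => rfl
    rw [Finset.mem_Ioc] at hn
    ext p
    rw [Nat.mem_divisorsAntidiagonal]
    simp only [Finset.mem_filter, Finset.mem_product, Finset.mem_Ioc]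
    constructor
    · intro ⟨h1, h2⟩
      have h3 : 0 < p.1 * p.2 := by omega
      have h4 : 0 < p.1 := Nat.pos_of_mul_pos_right h3
      have h5 : 0 < p.2 := Nat.pos_of_mul_pos_left h3
      have h6 : p.1 ≤ p.1 * p.2 := Nat.le_mul_of_pos_right _ h5
      have h7 : p.2 ≤ p.1 * p.2 := Nat.le_mul_of_pos_left _ h4
      exact ⟨⟨⟨⟨h4, by omega⟩, h5, by omega⟩, by omega⟩, h1⟩
    · intro ⟨_, h2⟩
      exact ⟨h2, by omega⟩
  · intro p hp
    simp only [Finset.mem_filter, Finset.mem_product, Finset.mem_Ioc] at hp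
    rw [Finset.mem_Ioc]
    exact ⟨Nat.mul_pos hp.1.1.1 hp.1.2.1, hp.2⟩

lemma hyper_le (F : ℕ → ℕ → ℝ) (N : ℕ) (hF : ∀ a b, 0 ≤ F a b) :
    ∑ n ∈ Finset.Ioc 0 N, ∑ p ∈ n.divisorsAntidiagonal, F p.1 p.2 ≤
      ∑ m ∈ Finset.Ioc 0 N, ∑ l ∈ Finset.Ioc 0 N, F m l := by
  rw [hyper, ← Finset.sum_product']
  exact Finset.sum_le_sum_of_subset_of_nonneg (Finset.filter_subset _ _) fun p _ _ => hF _ _

lemma hyper_eq (F : ℕ → ℕ → ℝ) (N : ℕ) (hF : ∀ a b, 0 < a → 0 < b → N < a * b → F a b = 0) :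
    ∑ n ∈ Finset.Ioc 0 N, ∑ p ∈ n.divisorsAntidiagonal, F p.1 p.2 =
      ∑ m ∈ Finset.Ioc 0 N, ∑ l ∈ Finset.Ioc 0 N, F m l := by
  rw [hyper, ← Finset.sum_product', Finset.sum_filter]
  refine Finset.sum_congr rfl fun p hp => ?_
  rw [Finset.mem_product, Finset.mem_Ioc, Finset.mem_Ioc] at hp
  split_ifs with h
  · rfl
  · exact (hF _ _ hp.1.1 hp.2.1 (not_le.1 h)).symm

lemma harm_le (N : ℕ) (_hN : 1 ≤ N) : ∑ d ∈ Finset.Ioc 0 N, (1 : ℝ) / d ≤ 1 + Real.log N := by
  have h1 := harmonic_le_one_add_log N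
  have h2 : ((harmonic N : ℚ) : ℝ) = ∑ d ∈ Finset.Ioc 0 N, (1 : ℝ) / d := by
    rw [harmonic_eq_sum_Icc]
    push_cast
    have : Finset.Icc 1 N = Finset.Ioc 0 N := by ext; simp [Nat.one_le_iff_ne_zero, Nat.pos_iff_ne_zero]
    rw [this]
    exact Finset.sum_congr rfl fun n _ => by rw [one_div]
  rw [← h2]
  exact h1

lemma tau_mul_le (a b : ℕ) : ((a * b).divisors.card : ℝ) ≤ a.divisors.card * b.divisors.card := by
  rw [Nat.divisors_mul]
  exact_mod_cast Finset.card_mul_le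

lemma tau_sum (N : ℕ) (hN : 1 ≤ N) :
    ∑ l ∈ Finset.Ioc 0 N, (l.divisors.card : ℝ) / l ≤ (1 + Real.log N) ^ 2 := by
  have h1 : ∀ l ∈ Finset.Ioc 0 N, (l.divisors.card : ℝ) / l =
      ∑ p ∈ l.divisorsAntidiagonal, 1 / (p.1 : ℝ) * (1 / (p.2 : ℝ)) := by
    intro l hl
    have h2 : ∀ p ∈ l.divisorsAntidiagonal, 1 / (p.1 : ℝ) * (1 / (p.2 : ℝ)) = 1 / l := by
      intro p hp
      rw [Nat.mem_divisorsAntidiagonal] at hp
      rw [← hp.1]
      push_cast
      rw [one_div_mul_one_div]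
    rw [Finset.sum_congr rfl h2, Finset.sum_const, nsmul_eq_mul, ← Nat.map_div_right_divisors,
      Finset.card_map]
    ring
  rw [Finset.sum_congr rfl h1]
  refine (hyper_le (fun a b => 1 / (a : ℝ) * (1 / (b : ℝ))) N (fun a b => by positivity)).trans ?_
  have h2 : ∑ m ∈ Finset.Ioc 0 N, ∑ l ∈ Finset.Ioc 0 N, 1 / (m : ℝ) * (1 / (l : ℝ)) =
      (∑ d ∈ Finset.Ioc 0 N, (1 : ℝ) / d) ^ 2 := by
    rw [sq, Finset.sum_mul_sum]
  rw [h2]
  have h3 := harm_le N hN
  have h4 : 0 ≤ ∑ d ∈ Finset.Ioc 0 N, (1 : ℝ) / d := Finset.sum_nonneg fun d _ => by positivity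
  gcongr

lemma tau_sq_sum (N : ℕ) (hN : 1 ≤ N) :
    ∑ l ∈ Finset.Ioc 0 N, (l.divisors.card : ℝ) ^ 2 / l ≤ (1 + Real.log N) ^ 4 := by
  have h1 : ∀ l ∈ Finset.Ioc 0 N, (l.divisors.card : ℝ) ^ 2 / l ≤
      ∑ p ∈ l.divisorsAntidiagonal, (p.1.divisors.card : ℝ) / (p.1 : ℝ) *
        ((p.2.divisors.card : ℝ) / (p.2 : ℝ)) := by
    intro l hl
    have h2 : ∀ p ∈ l.divisorsAntidiagonal, (l.divisors.card : ℝ) / l ≤
        (p.1.divisors.card : ℝ) / (p.1 : ℝ) * ((p.2.divisors.card : ℝ) / (p.2 : ℝ)) := by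
      intro p hp
      rw [Nat.mem_divisorsAntidiagonal] at hp
      rw [div_mul_div_comm, ← hp.1]
      push_cast
      apply div_le_div_of_nonneg_right _ (by positivity)
      exact tau_mul_le _ _
    refine le_trans (le_of_eq ?_) (Finset.sum_le_sum h2)
    rw [Finset.sum_const, nsmul_eq_mul, ← Nat.map_div_right_divisors, Finset.card_map]
    ring
  refine (Finset.sum_le_sum h1).trans ?_
  refine (hyper_le (fun a b => (a.divisors.card : ℝ) / (a : ℝ) * ((b.divisors.card : ℝ) / (b : ℝ))) N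
    (fun a b => by positivity)).trans ?_
  have h2 : ∑ m ∈ Finset.Ioc 0 N, ∑ l ∈ Finset.Ioc 0 N, (m.divisors.card : ℝ) / (m : ℝ) *
      ((l.divisors.card : ℝ) / (l : ℝ)) =
      (∑ d ∈ Finset.Ioc 0 N, (d.divisors.card : ℝ) / d) ^ 2 := by
    rw [sq, Finset.sum_mul_sum]
  rw [h2]
  have h3 := tau_sum N hN
  have h4 : 0 ≤ ∑ d ∈ Finset.Ioc 0 N, (d.divisors.card : ℝ) / d :=
    Finset.sum_nonneg fun d _ => by positivity
  calc _ ≤ ((1 + Real.log N) ^ 2) ^ 2 := by gcongr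
    _ = _ := by ring

open ArithmeticFunction in
/-- truncated Moebius function -/
noncomputable def muw (w : ℕ) : ArithmeticFunction ℝ :=
  ⟨fun d => if d ≤ w then ((moebius d : ℤ) : ℝ) else 0, by simp⟩

open ArithmeticFunction in
lemma muw_apply (w d : ℕ) : muw w d = if d ≤ w then ((moebius d : ℤ) : ℝ) else 0 := rfl

/-- the complementary coefficient -/
noncomputable def aw (w : ℕ) : ArithmeticFunction ℝ :=
  1 - muw w * ((ArithmeticFunction.zeta : ArithmeticFunction ℕ) : ArithmeticFunction ℝ)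

open ArithmeticFunction in
lemma La_identity (w : ℕ) : vonMangoldt = muw w * log + vonMangoldt * aw w := by
  unfold aw
  have h := ArithmeticFunction.vonMangoldt_mul_zeta
  rw [mul_sub, mul_one, ← h]
  ring

open ArithmeticFunction in
lemma aw_apply (w l : ℕ) : aw w l = (if l = 1 then 1 else 0) - ∑ d ∈ l.divisors, muw w d := by
  unfold aw
  rw [sub_eq_add_neg, ArithmeticFunction.add_apply, ArithmeticFunction.neg_apply,
    ArithmeticFunction.coe_mul_zeta_apply, ArithmeticFunction.one_apply]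
  ring

open ArithmeticFunction in
lemma aw_zero_of {w l : ℕ} (hl : 0 < l) (hlw : l ≤ w) : aw w l = 0 := by
  rw [aw_apply]
  have h1 : ∑ d ∈ l.divisors, muw w d = ∑ d ∈ l.divisors, ((moebius d : ℤ) : ℝ) := by
    refine Finset.sum_congr rfl fun d hd => ?_
    rw [muw_apply, if_pos ((Nat.divisor_le hd).trans hlw)]
  rw [h1, ← Int.cast_sum]
  have h4 : ∑ d ∈ l.divisors, moebius d = if l = 1 then 1 else 0 := by
    have h5 := congrArg (fun f : ArithmeticFunction ℤ => f l) moebius_mul_coe_zeta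
    simp only [one_apply] at h5
    rw [← h5, ArithmeticFunction.coe_mul_zeta_apply]
  rw [h4]
  split_ifs <;> simp

open ArithmeticFunction in
lemma muw_abs_le (w d : ℕ) : |muw w d| ≤ 1 := by
  rw [muw_apply]
  split_ifs
  · exact_mod_cast abs_moebius_le_one
  · simp

lemma aw_abs_le (w l : ℕ) : |aw w l| ≤ l.divisors.card := by
  rcases Nat.eq_zero_or_pos l with rfl | hl
  · simp
  rcases le_or_gt l w with h | h
  · rw [aw_zero_of hl h]
    simp
  · rcases eq_or_ne l 1 with rfl | hl1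
    · have hw0 : w = 0 := by omega
      rw [aw_apply, if_pos rfl, hw0]
      simp [muw_apply]
    rw [aw_apply, if_neg hl1, zero_sub, abs_neg]
    refine (Finset.abs_sum_le_sum_abs _ _).trans ?_
    refine (Finset.sum_le_sum fun d _ => muw_abs_le w d).trans ?_
    simp

/-- the convolution rearrangement -/
lemma conv_sum (f g : ArithmeticFunction ℝ) (h z : ℝ) (hh : 0 < h) (N : ℕ)
    (hN : Real.exp (z + h) ≤ N) :
    ∑ n ∈ Finset.Ioc 0 N, (f * g) n / n * tri h (z - Real.log n) =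
      ∑ m ∈ Finset.Ioc 0 N, f m / m * ∑ l ∈ Finset.Ioc 0 N, g l / l *
        tri h (z - Real.log m - Real.log l) := by
  have h1 : ∀ n ∈ Finset.Ioc 0 N, (f * g) n / n * tri h (z - Real.log n) =
      ∑ p ∈ n.divisorsAntidiagonal, f p.1 / p.1 * (g p.2 / p.2) *
        tri h (z - Real.log p.1 - Real.log p.2) := by
    intro n hn
    rw [Finset.mem_Ioc] at hn
    rw [ArithmeticFunction.mul_apply, Finset.sum_div, Finset.sum_mul]
    refine Finset.sum_congr rfl fun p hp => ?_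
    rw [Nat.mem_divisorsAntidiagonal] at hp
    have h2 : (p.1 : ℝ) ≠ 0 := by
      have : p.1 ≠ 0 := by
        rintro h0
        rw [h0, zero_mul] at hp
        omega
      exact_mod_cast this
    have h3 : (p.2 : ℝ) ≠ 0 := by
      have : p.2 ≠ 0 := by
        rintro h0
        rw [h0, mul_zero] at hp
        omega
      exact_mod_cast this
    rw [← hp.1]
    push_cast
    rw [Real.log_mul h2 h3, sub_sub]
    field_simp
  rw [Finset.sum_congr rfl h1,
    hyper_eq (fun a b => f a / a * (g b / b) * tri h (z - Real.log a - Real.log b))]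
  · refine Finset.sum_congr rfl fun m _ => ?_
    rw [Finset.mul_sum]
    refine Finset.sum_congr rfl fun l _ => ?_
    ring
  · intro a b ha hb hab
    have ha0 : (a : ℝ) ≠ 0 := by exact_mod_cast ha.ne'
    have hb0 : (b : ℝ) ≠ 0 := by exact_mod_cast hb.ne'
    have h2 : z + h ≤ Real.log a + Real.log b := by
      rw [← Real.log_mul ha0 hb0, Real.le_log_iff_exp_le (by positivity)]
      refine hN.trans ?_
      exact_mod_cast hab.le
    rw [tri_zero_of hh, mul_zero]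
    rw [abs_of_nonpos (by linarith)]
    linarith

end Pool.Agent.W66
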