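import Pool.Agent.W66.PE
import Pool.Agent.W66.MA

set_option autoImplicit false

/-!
# Riemann sums of the hat function along logarithms of integers
-/

open Filter Topology Set MeasureTheory Metric
open scoped Real

namespace Pool.Agent.W66

lemma hat_lip (x y : ℝ) : |hat x - hat y| ≤ |x - y| := by
  unfold hat
  refine (abs_max_sub_max_le_abs _ _ _).trans ?_
  have : (1 - |x|) - (1 - |y|) = |y| - |x| := by ring
  rw [this]
  refine (abs_abs_sub_abs_le_abs_sub y x).trans ?_
  rw [abs_sub_comm]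

lemma tri_lip {h : ℝ} (hh : 0 < h) (x y : ℝ) : |tri h x - tri h y| ≤ 1 / h ^ 2 * |x - y| := by
  unfold tri
  rw [← mul_sub, abs_mul, abs_of_pos (by positivity : 0 < 1 / h)]
  have h1 := hat_lip (x / h) (y / h)
  rw [← sub_div, abs_div, abs_of_pos hh] at h1
  calc 1 / h * |hat (x / h) - hat (y / h)| ≤ 1 / h * (|x - y| / h) := by gcongr
    _ = _ := by field_simp

lemma integral_tri {h : ℝ} (hh : 0 < h) : ∫ x, tri h x = 1 := by
  have h1 := four_triC hh 0
  have e : ∀ f : ℝ → ℂ, FourierTransform.fourier f 0 = ∫ v, f v := by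
    intro f
    rw [four_eq]
    congr 1
    ext v
    simp
  rw [e, e] at h1
  have e2 : ∫ v, boxC h v = ((∫ v, box h v : ℝ) : ℂ) := by
    unfold boxC; exact integral_complex_ofReal
  have e3 : ∫ v, triC h v = ((∫ v, tri h v : ℝ) : ℂ) := by
    unfold triC; exact integral_complex_ofReal
  rw [e2, e3, integral_box hh] at h1
  simpa using h1

lemma sum_Ioc_eq_range (f : ℕ → ℝ) (N : ℕ) :
    ∑ m ∈ Finset.Ioc 0 N, f m = ∑ k ∈ Finset.range N, f (k + 1) := by
  induction N with
  | zero => simp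
  | succ n ih => rw [Finset.sum_Ioc_succ_top (by omega), ih, Finset.sum_range_succ]

lemma log_gap {m : ℕ} (hm : 0 < m) : 0 ≤ Real.log ((m + 1 : ℕ) : ℝ) - Real.log m ∧
    Real.log ((m + 1 : ℕ) : ℝ) - Real.log m ≤ 1 / m ∧
    |Real.log ((m + 1 : ℕ) : ℝ) - Real.log m - 1 / m| ≤ 1 / (m : ℝ) ^ 2 := by
  have hm0 : (0 : ℝ) < m := by exact_mod_cast hm
  have h1 : Real.log ((m + 1 : ℕ) : ℝ) - Real.log m = Real.log (1 + 1 / m) := by
    rw [← Real.log_div (by positivity) hm0.ne']
    congr 1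
    push_cast
    field_simp
  rw [h1]
  have h2 : 0 ≤ Real.log (1 + 1 / (m : ℝ)) := Real.log_nonneg (by
    have : 0 < 1 / (m : ℝ) := by positivity
    linarith)
  have h3 : Real.log (1 + 1 / (m : ℝ)) ≤ 1 / m := by
    have := Real.log_le_sub_one_of_pos (x := 1 + 1 / (m : ℝ)) (by positivity)
    linarith
  refine ⟨h2, h3, ?_⟩
  have h4 := Real.one_sub_inv_le_log_of_pos (x := 1 + 1 / (m : ℝ)) (by positivity)
  have h5 : 1 - (1 + 1 / (m : ℝ))⁻¹ = 1 / (m + 1) := by field_simp; ring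
  rw [h5] at h4
  have h6 : 1 / (m : ℝ) - 1 / (m : ℝ) ^ 2 ≤ 1 / (m + 1) := by
    rw [div_sub_div _ _ (by positivity) (by positivity), div_le_div_iff₀ (by positivity) (by positivity)]
    nlinarith [sq_nonneg (m : ℝ)]
  rw [abs_le]
  constructor <;> linarith

lemma tri_ii (h x a b : ℝ) : IntervalIntegrable (fun v => tri h (x - v)) volume a b :=
  ((tri_continuous h).comp (by fun_prop : Continuous fun v : ℝ => x - v)).intervalIntegrable _ _

lemma cell {h : ℝ} (hh : 0 < h) (hh1 : h ≤ 1) (x : ℝ) {m : ℕ} (hm : 0 < m) :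
    |(∫ v in (Real.log m)..(Real.log ((m + 1 : ℕ) : ℝ)), tri h (x - v)) -
      1 / m * tri h (x - Real.log m)| ≤
      if x - h < Real.log ((m + 1 : ℕ) : ℝ) then 2 / h ^ 2 * ((m : ℝ) ^ 2)⁻¹ else 0 := by
  have hm0 : (0 : ℝ) < m := by exact_mod_cast hm
  obtain ⟨g1, g2, g3⟩ := log_gap hm
  set a := Real.log m with ha
  set b := Real.log ((m + 1 : ℕ) : ℝ) with hb
  have hab : a ≤ b := by linarith
  have hsplit2 : (∫ v in a..b, tri h (x - v)) - 1 / m * tri h (x - a) =
      (∫ v in a..b, (tri h (x - v) - tri h (x - a))) + (b - a - 1 / m) * tri h (x - a) := by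
    rw [intervalIntegral.integral_sub (tri_ii h x a b) (by simp)]
    simp only [intervalIntegral.integral_const, smul_eq_mul]
    ring
  split_ifs with hc
  · rw [hsplit2]
    refine (abs_add_le _ _).trans ?_
    have h1 : |∫ v in a..b, (tri h (x - v) - tri h (x - a))| ≤ 1 / h ^ 2 * (1 / m) * (1 / m) := by
      have h2 : ∀ v ∈ Set.uIoc a b, ‖tri h (x - v) - tri h (x - a)‖ ≤ 1 / h ^ 2 * (1 / m) := by
        intro v hv
        rw [uIoc_of_le hab] at hv
        rw [Real.norm_eq_abs]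
        refine (tri_lip hh _ _).trans ?_
        have : |x - v - (x - a)| ≤ 1 / m := by
          rw [show x - v - (x - a) = -(v - a) by ring, abs_neg, abs_of_pos (by linarith [hv.1])]
          linarith [hv.2]
        gcongr
      have h3 := intervalIntegral.norm_integral_le_of_norm_le_const h2
      rw [Real.norm_eq_abs, abs_of_nonneg g1] at h3
      refine h3.trans ?_
      gcongr
    have h2 : |(b - a - 1 / m) * tri h (x - a)| ≤ 1 / (m : ℝ) ^ 2 * (1 / h ^ 2) := by
      rw [abs_mul, abs_of_nonneg (tri_nonneg hh _)]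
      have h3 : tri h (x - a) ≤ 1 / h ^ 2 := by
        refine (tri_le hh _).trans ?_
        apply one_div_le_one_div_of_le (by positivity)
        nlinarith
      have := tri_nonneg hh (x - a)
      gcongr
    calc _ ≤ 1 / h ^ 2 * (1 / m) * (1 / m) + 1 / (m : ℝ) ^ 2 * (1 / h ^ 2) := add_le_add h1 h2
      _ = _ := by field_simp; ring
  · rw [not_lt] at hc
    have h1 : ∀ v ∈ Set.uIcc a b, tri h (x - v) = 0 := by
      intro v hv
      rw [uIcc_of_le hab] at hv
      apply tri_zero_of hh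
      rw [abs_of_nonneg (by linarith [hv.2])]
      linarith [hv.2]
    have h2 : ∫ v in a..b, tri h (x - v) = 0 := by
      rw [intervalIntegral.integral_congr (g := fun _ => 0) h1]
      simp
    rw [h2, h1 a left_mem_uIcc]
    simp

theorem riemann {h x : ℝ} (hh : 0 < h) (hh1 : h ≤ 1) (hx : 2 ≤ x) (N : ℕ)
    (hN : Real.exp (x + h) ≤ N) :
    |∑ m ∈ Finset.Ioc 0 N, 1 / (m : ℝ) * tri h (x - Real.log m) - 1| ≤
      32 * Real.exp (-x) / h ^ 2 := by
  have hN0 : (0 : ℝ) < N := lt_of_lt_of_le (Real.exp_pos _) hN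
  have hlogN : x + h ≤ Real.log ((N + 1 : ℕ) : ℝ) := by
    rw [Real.le_log_iff_exp_le (by positivity)]
    refine hN.trans ?_
    push_cast
    linarith
  have htel : ∑ m ∈ Finset.Ioc 0 N, ∫ v in (Real.log m)..(Real.log ((m + 1 : ℕ) : ℝ)),
      tri h (x - v) = 1 := by
    rw [sum_Ioc_eq_range (fun m => ∫ v in (Real.log m)..(Real.log ((m + 1 : ℕ) : ℝ)),
      tri h (x - v))]
    rw [intervalIntegral.sum_integral_adjacent_intervals (a := fun k : ℕ => Real.log ((k + 1 : ℕ) : ℝ))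
      (fun k _ => tri_ii h x _ _)]
    rw [intervalIntegral.integral_eq_integral_of_support_subset]
    · rw [integral_sub_left_eq_self (fun v => tri h v) volume x]
      exact integral_tri hh
    · intro v hv
      rw [Function.mem_support] at hv
      have h1 : |x - v| < h := by
        by_contra hc
        exact hv (tri_zero_of hh (not_lt.1 hc))
      rw [abs_lt] at h1
      simp only [zero_add, Nat.cast_one, Real.log_one]
      constructor <;> linarith
  have hrw : ∑ m ∈ Finset.Ioc 0 N, 1 / (m : ℝ) * tri h (x - Real.log m) - 1 =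
      ∑ m ∈ Finset.Ioc 0 N, (1 / (m : ℝ) * tri h (x - Real.log m) -
        ∫ v in (Real.log m)..(Real.log ((m + 1 : ℕ) : ℝ)), tri h (x - v)) := by
    rw [Finset.sum_sub_distrib, htel]
  rw [hrw]
  have h1 : ∀ m ∈ Finset.Ioc 0 N, |1 / (m : ℝ) * tri h (x - Real.log m) -
      ∫ v in (Real.log m)..(Real.log ((m + 1 : ℕ) : ℝ)), tri h (x - v)| ≤
      if x - h < Real.log ((m + 1 : ℕ) : ℝ) then 2 / h ^ 2 * ((m : ℝ) ^ 2)⁻¹ else 0 := by
    intro m hm
    rw [Finset.mem_Ioc] at hm
    rw [abs_sub_comm]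
    exact cell hh hh1 x hm.1
  refine (Finset.abs_sum_le_sum_abs _ _).trans ((Finset.sum_le_sum h1).trans ?_)
  rw [← Finset.sum_filter, ← Finset.mul_sum]
  set k := ⌊Real.exp (x - 2)⌋₊ with hk
  have hsub : (Finset.Ioc 0 N).filter (fun m : ℕ => x - h < Real.log ((m + 1 : ℕ) : ℝ)) ⊆
      Finset.Ioo k (N + 1) := by
    intro m hm
    rw [Finset.mem_filter, Finset.mem_Ioc] at hm
    rw [Finset.mem_Ioo]
    refine ⟨?_, by omega⟩
    have h2 : Real.exp (x - 1) < (m : ℝ) + 1 := by
      have h3 : Real.exp (x - h) < ((m + 1 : ℕ) : ℝ) := by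
        rw [← Real.lt_log_iff_exp_lt (by positivity)]
        exact hm.2
      push_cast at h3
      refine lt_of_le_of_lt (Real.exp_le_exp.2 (by linarith)) h3
    have h3 : Real.exp (x - 2) + 1 ≤ Real.exp (x - 1) := by
      have e : Real.exp (x - 1) = Real.exp (x - 2) * Real.exp 1 := by
        rw [← Real.exp_add]; congr 1; ring
      rw [e]
      have h4 : 1 ≤ Real.exp (x - 2) := Real.one_le_exp (by linarith)
      have h5 := Real.exp_one_gt_d9
      nlinarith
    rw [Nat.floor_lt (Real.exp_pos _).le]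
    linarith
  have h2 : ∑ m ∈ (Finset.Ioc 0 N).filter (fun m : ℕ => x - h < Real.log ((m + 1 : ℕ) : ℝ)),
      ((m : ℝ) ^ 2)⁻¹ ≤ 2 / (k + 1) :=
    (Finset.sum_le_sum_of_subset_of_nonneg hsub fun _ _ _ => by positivity).trans
      (sum_Ioo_inv_sq_le k (N + 1))
  have h3 : 2 / ((k : ℝ) + 1) ≤ 2 * Real.exp (2 - x) := by
    have h4 : Real.exp (x - 2) ≤ (k : ℝ) + 1 := (Nat.lt_floor_add_one _).le
    have h5 : Real.exp (2 - x) = 1 / Real.exp (x - 2) := by
      rw [one_div, ← Real.exp_neg]; congr 1; ring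
    rw [h5, mul_one_div]
    exact div_le_div_of_nonneg_left (by norm_num) (Real.exp_pos _) h4
  have h4 : Real.exp (2 - x) ≤ 8 * Real.exp (-x) := by
    have e : Real.exp (2 - x) = Real.exp 1 ^ 2 * Real.exp (-x) := by
      rw [← Real.exp_nat_mul, ← Real.exp_add]; congr 1; push_cast; ring
    rw [e]
    have h5 : Real.exp 1 ^ 2 ≤ 8 := by
      have := Real.exp_one_lt_d9
      have := Real.exp_pos 1
      nlinarith
    have := Real.exp_pos (-x)
    gcongr
  calc 2 / h ^ 2 * _ ≤ 2 / h ^ 2 * (2 * (8 * Real.exp (-x))) := by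
        gcongr
        exact h2.trans (h3.trans (by linarith))
    _ = _ := by ring

theorem riemann_log {h x : ℝ} (hh : 0 < h) (hh1 : h ≤ 1) (hx : 2 ≤ x) (N : ℕ)
    (hN : Real.exp (x + h) ≤ N) :
    |∑ m ∈ Finset.Ioc 0 N, Real.log m / m * tri h (x - Real.log m) - x| ≤
      h + (h + x) * (32 * Real.exp (-x) / h ^ 2) := by
  have hR := riemann hh hh1 hx N hN
  set S := ∑ m ∈ Finset.Ioc 0 N, 1 / (m : ℝ) * tri h (x - Real.log m) with hS
  set R := 32 * Real.exp (-x) / h ^ 2 with hRdef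
  have h1 : ∑ m ∈ Finset.Ioc 0 N, Real.log m / m * tri h (x - Real.log m) - x =
      ∑ m ∈ Finset.Ioc 0 N, (Real.log m - x) * (1 / (m : ℝ) * tri h (x - Real.log m)) +
        x * (S - 1) := by
    rw [mul_sub, mul_one, hS, Finset.mul_sum, add_sub, ← Finset.sum_add_distrib]
    congr 1
    refine Finset.sum_congr rfl fun m _ => ?_
    ring
  rw [h1]
  refine (abs_add_le _ _).trans ?_
  have h2 : |∑ m ∈ Finset.Ioc 0 N, (Real.log m - x) * (1 / (m : ℝ) * tri h (x - Real.log m))| ≤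
      h * S := by
    refine (Finset.abs_sum_le_sum_abs _ _).trans ?_
    rw [hS, Finset.mul_sum]
    refine Finset.sum_le_sum fun m _ => ?_
    have h3 : 0 ≤ 1 / (m : ℝ) * tri h (x - Real.log m) :=
      mul_nonneg (by positivity) (tri_nonneg hh _)
    rw [abs_mul, abs_of_nonneg h3]
    rcases le_or_gt |Real.log m - x| h with h4 | h4
    · exact mul_le_mul_of_nonneg_right h4 h3
    · have h5 : tri h (x - Real.log m) = 0 := tri_zero_of hh (by
        rw [abs_sub_comm]; exact h4.le)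
      rw [h5]
      simp
  have h3 : |x * (S - 1)| ≤ x * R := by
    rw [abs_mul, abs_of_nonneg (by linarith)]
    gcongr
  have h4 : S ≤ 1 + R := by
    have := (abs_le.1 hR).2
    linarith
  have h5 : h * S ≤ h * (1 + R) := by gcongr
  linarith

open ArithmeticFunction in
/-- `Σ_{d ≤ w} μ(d)/d` -/
noncomputable def mz (w : ℕ) : ℝ := ∑ d ∈ Finset.Ioc 0 w, ((moebius d : ℤ) : ℝ) / d

open ArithmeticFunction in
/-- `Σ_{d ≤ w} μ(d) log d/d` -/
noncomputable def ml (w : ℕ) : ℝ :=
  ∑ d ∈ Finset.Ioc 0 w, ((moebius d : ℤ) : ℝ) * Real.log d / d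

open ArithmeticFunction in
lemma muw_sum (w N : ℕ) (hwN : w ≤ N) (X : ℕ → ℝ) :
    ∑ d ∈ Finset.Ioc 0 N, muw w d / d * X d =
      ∑ d ∈ Finset.Ioc 0 w, ((moebius d : ℤ) : ℝ) / d * X d := by
  have h1 : Finset.Ioc 0 w ⊆ Finset.Ioc 0 N := Finset.Ioc_subset_Ioc_right hwN
  rw [← Finset.sum_subset h1]
  · refine Finset.sum_congr rfl fun d hd => ?_
    rw [Finset.mem_Ioc] at hd
    rw [muw_apply, if_pos hd.2]
  · intro d hd hd2
    rw [Finset.mem_Ioc] at hd hd2
    rw [muw_apply, if_neg (by omega)]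
    simp

open ArithmeticFunction in
lemma mu_abs (d : ℕ) : |((moebius d : ℤ) : ℝ)| ≤ 1 := by exact_mod_cast abs_moebius_le_one

/-- the type I sum -/
theorem typeI {h z : ℝ} (hh : 0 < h) (hh1 : h ≤ 1) (w N : ℕ) (hw : 1 ≤ w)
    (hz : Real.log w + 2 ≤ z) (hN : Real.exp (z + h) ≤ N) :
    |∑ d ∈ Finset.Ioc 0 N, muw w d / d * ∑ m ∈ Finset.Ioc 0 N,
      ArithmeticFunction.log m / m * tri h (z - Real.log d - Real.log m) - (z * mz w - ml w)| ≤
      h * (1 + Real.log w) + (1 + z) * (w * (32 * Real.exp (-z) / h ^ 2)) := by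
  have hw0 : (0 : ℝ) < w := by exact_mod_cast hw
  have hlw : 0 ≤ Real.log w := Real.log_nonneg (by exact_mod_cast hw)
  have hwN : w ≤ N := by
    have h1 : (w : ℝ) ≤ N := by
      refine le_trans ?_ hN
      rw [← Real.log_le_iff_le_exp hw0]
      linarith
    exact_mod_cast h1
  rw [muw_sum w N hwN (fun d => ∑ m ∈ Finset.Ioc 0 N,
      ArithmeticFunction.log m / m * tri h (z - Real.log d - Real.log m))]
  have h1 : z * mz w - ml w = ∑ d ∈ Finset.Ioc 0 w, ((ArithmeticFunction.moebius d : ℤ) : ℝ) / d *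
      (z - Real.log d) := by
    unfold mz ml
    rw [Finset.mul_sum, ← Finset.sum_sub_distrib]
    refine Finset.sum_congr rfl fun d _ => ?_
    ring
  rw [h1, ← Finset.sum_sub_distrib]
  refine (Finset.abs_sum_le_sum_abs _ _).trans ?_
  have h2 : ∀ d ∈ Finset.Ioc 0 w, |((ArithmeticFunction.moebius d : ℤ) : ℝ) / d *
      ∑ m ∈ Finset.Ioc 0 N, ArithmeticFunction.log m / m * tri h (z - Real.log d - Real.log m) -
      ((ArithmeticFunction.moebius d : ℤ) : ℝ) / d * (z - Real.log d)| ≤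
      h * (1 / (d : ℝ)) + (1 + z) * (32 * Real.exp (-z) / h ^ 2) := by
    intro d hd
    rw [Finset.mem_Ioc] at hd
    have hd0 : (0 : ℝ) < d := by exact_mod_cast hd.1
    have hd1 : (1 : ℝ) ≤ d := by exact_mod_cast hd.1
    have hld : Real.log d ≤ Real.log w := Real.log_le_log hd0 (by exact_mod_cast hd.2)
    have hld0 : 0 ≤ Real.log d := Real.log_nonneg hd1
    have h3 := riemann_log hh hh1 (x := z - Real.log d) (by linarith) N (by
      refine le_trans (Real.exp_le_exp.2 ?_) hN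
      linarith)
    rw [← mul_sub, abs_mul, abs_div, abs_of_pos hd0]
    have h4 := mu_abs d
    have h5 : Real.exp (-(z - Real.log d)) = d * Real.exp (-z) := by
      rw [neg_sub, sub_eq_add_neg, Real.exp_add, Real.exp_log hd0]
    rw [h5] at h3
    calc |((ArithmeticFunction.moebius d : ℤ) : ℝ)| / d *
          |∑ m ∈ Finset.Ioc 0 N, ArithmeticFunction.log m / m *
            tri h (z - Real.log d - Real.log m) - (z - Real.log d)| ≤
          1 / d * (h + (h + (z - Real.log d)) * (32 * (d * Real.exp (-z)) / h ^ 2)) := by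
          gcongr
          exact h3
      _ = h * (1 / d) + (h + (z - Real.log d)) * (32 * Real.exp (-z) / h ^ 2) := by
          field_simp
      _ ≤ _ := by gcongr; linarith
  refine (Finset.sum_le_sum h2).trans ?_
  rw [Finset.sum_add_distrib, ← Finset.mul_sum, Finset.sum_const, Nat.card_Ioc, nsmul_eq_mul,
    Nat.sub_zero]
  have h3 := harm_le w hw
  have h4 : h * ∑ d ∈ Finset.Ioc 0 w, 1 / (d : ℝ) ≤ h * (1 + Real.log w) := by gcongr
  have h5 : (w : ℝ) * ((1 + z) * (32 * Real.exp (-z) / h ^ 2)) =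
      (1 + z) * (w * (32 * Real.exp (-z) / h ^ 2)) := by ring
  linarith

/-- the smoothed sum of the second factor is small -/
theorem gg_small {h x : ℝ} (hh : 0 < h) (hh1 : h ≤ 1) (w N : ℕ) (hw : 1 ≤ w)
    (hx : Real.log w + 2 ≤ x) (hN : Real.exp (x + h) ≤ N) :
    |gg h (Finset.Ioc 0 N) (fun l => aw w l / l) x| ≤
      |mz w| + w * (32 * Real.exp (-x) / h ^ 2) := by
  have hw0 : (0 : ℝ) < w := by exact_mod_cast hw
  have hlw : 0 ≤ Real.log w := Real.log_nonneg (by exact_mod_cast hw)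
  have hwN : w ≤ N := by
    have h1 : (w : ℝ) ≤ N := by
      refine le_trans ?_ hN
      rw [← Real.log_le_iff_le_exp hw0]
      linarith
    exact_mod_cast h1
  have h0 : gg h (Finset.Ioc 0 N) (fun l => aw w l / l) x =
      ∑ l ∈ Finset.Ioc 0 N, (if l = 1 then (1 : ℝ) else 0) / l * tri h (x - Real.log l) -
      ∑ l ∈ Finset.Ioc 0 N, (muw w * ((ArithmeticFunction.zeta : ArithmeticFunction ℕ) :
        ArithmeticFunction ℝ)) l / l * tri h (x - Real.log l) := by
    unfold gg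
    rw [← Finset.sum_sub_distrib]
    refine Finset.sum_congr rfl fun l _ => ?_
    simp only []
    rw [aw_apply, ArithmeticFunction.coe_mul_zeta_apply]
    ring
  have h1 : ∑ l ∈ Finset.Ioc 0 N, (if l = 1 then (1 : ℝ) else 0) / l *
      tri h (x - Real.log l) = 0 := by
    apply Finset.sum_eq_zero
    intro l _
    split_ifs with h2
    · rw [h2]
      simp only [Nat.cast_one, Real.log_one, sub_zero]
      rw [tri_zero_of hh, mul_zero]
      rw [abs_of_nonneg (by linarith)]
      linarith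
    · simp
  rw [h0, h1, zero_sub, abs_neg, conv_sum _ _ h x hh N hN, muw_sum w N hwN]
  have h2 : ∑ d ∈ Finset.Ioc 0 w, ((ArithmeticFunction.moebius d : ℤ) : ℝ) / d *
      ∑ l ∈ Finset.Ioc 0 N, ((ArithmeticFunction.zeta : ArithmeticFunction ℕ) :
        ArithmeticFunction ℝ) l / l * tri h (x - Real.log d - Real.log l) =
      mz w + ∑ d ∈ Finset.Ioc 0 w, ((ArithmeticFunction.moebius d : ℤ) : ℝ) / d *
        (∑ l ∈ Finset.Ioc 0 N, 1 / (l : ℝ) * tri h (x - Real.log d - Real.log l) - 1) := by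
    unfold mz
    rw [← Finset.sum_add_distrib]
    refine Finset.sum_congr rfl fun d _ => ?_
    have h3 : ∑ l ∈ Finset.Ioc 0 N, ((ArithmeticFunction.zeta : ArithmeticFunction ℕ) :
        ArithmeticFunction ℝ) l / l * tri h (x - Real.log d - Real.log l) =
        ∑ l ∈ Finset.Ioc 0 N, 1 / (l : ℝ) * tri h (x - Real.log d - Real.log l) := by
      refine Finset.sum_congr rfl fun l hl => ?_
      rw [Finset.mem_Ioc] at hl
      rw [ArithmeticFunction.natCoe_apply, ArithmeticFunction.zeta_apply, if_neg (by omega)]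
      simp
    rw [h3]
    ring
  rw [h2]
  refine (abs_add_le _ _).trans (add_le_add le_rfl ?_)
  refine (Finset.abs_sum_le_sum_abs _ _).trans ?_
  have h3 : ∀ d ∈ Finset.Ioc 0 w, |((ArithmeticFunction.moebius d : ℤ) : ℝ) / d *
        (∑ l ∈ Finset.Ioc 0 N, 1 / (l : ℝ) * tri h (x - Real.log d - Real.log l) - 1)| ≤
        32 * Real.exp (-x) / h ^ 2 := by
    intro d hd
    rw [Finset.mem_Ioc] at hd
    have hd0 : (0 : ℝ) < d := by exact_mod_cast hd.1
    have hd1 : (1 : ℝ) ≤ d := by exact_mod_cast hd.1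
    have hld : Real.log d ≤ Real.log w := Real.log_le_log hd0 (by exact_mod_cast hd.2)
    have hld0 : 0 ≤ Real.log d := Real.log_nonneg hd1
    have h3 := riemann hh hh1 (x := x - Real.log d) (by linarith) N (by
      refine le_trans (Real.exp_le_exp.2 ?_) hN
      linarith)
    rw [abs_mul, abs_div, abs_of_pos hd0]
    have h4 := mu_abs d
    have h5 : Real.exp (-(x - Real.log d)) = d * Real.exp (-x) := by
      rw [neg_sub, sub_eq_add_neg, Real.exp_add, Real.exp_log hd0]
    rw [h5] at h3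
    calc _ ≤ 1 / (d : ℝ) * (32 * (d * Real.exp (-x)) / h ^ 2) := by gcongr
      _ = _ := by field_simp
  refine (Finset.sum_le_sum h3).trans ?_
  rw [Finset.sum_const, Nat.card_Ioc, nsmul_eq_mul, Nat.sub_zero]

lemma harm_asym (n : ℕ) (hn : 0 < n) :
    |∑ d ∈ Finset.Ioc 0 n, 1 / (d : ℝ) - Real.log n - Real.eulerMascheroniConstant| ≤ 1 / n := by
  have h2 : ((harmonic n : ℚ) : ℝ) = ∑ d ∈ Finset.Ioc 0 n, (1 : ℝ) / d := by
    rw [harmonic_eq_sum_Icc]
    push_cast
    have : Finset.Icc 1 n = Finset.Ioc 0 n := by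
      ext; simp [Nat.one_le_iff_ne_zero, Nat.pos_iff_ne_zero]
    rw [this]
    exact Finset.sum_congr rfl fun n _ => by rw [one_div]
  have h3 := Real.eulerMascheroniSeq_lt_eulerMascheroniConstant n
  have h4 := Real.eulerMascheroniConstant_lt_eulerMascheroniSeq' n
  unfold Real.eulerMascheroniSeq at h3
  unfold Real.eulerMascheroniSeq' at h4
  rw [if_neg hn.ne'] at h4
  rw [h2] at h3 h4
  obtain ⟨_, g2, _⟩ := log_gap hn
  push_cast at g2
  rw [abs_le]
  constructor
  · linarith [show (0 : ℝ) ≤ 1 / n by positivity]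
  · linarith

lemma hyper_floor (F : ℕ → ℕ → ℝ) (N : ℕ) :
    ∑ n ∈ Finset.Ioc 0 N, ∑ p ∈ n.divisorsAntidiagonal, F p.1 p.2 =
      ∑ d ∈ Finset.Ioc 0 N, ∑ m ∈ Finset.Ioc 0 (N / d), F d m := by
  rw [hyper, Finset.sum_filter, Finset.sum_product]
  refine Finset.sum_congr rfl fun d hd => ?_
  rw [Finset.mem_Ioc] at hd
  rw [← Finset.sum_filter]
  refine Finset.sum_congr ?_ fun _ _ => rfl
  ext m
  simp only [Finset.mem_filter, Finset.mem_Ioc]
  rw [Nat.le_div_iff_mul_le hd.1, mul_comm m d]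
  constructor
  · intro ⟨h1, h2⟩
    exact ⟨h1.1, h2⟩
  · intro ⟨h1, h2⟩
    exact ⟨⟨h1, (Nat.le_mul_of_pos_left _ hd.1).trans h2⟩, h2⟩

/-- the unsmoothed sum of the second factor is small -/
theorem Gsum {w M : ℕ} (hw : 1 ≤ w) (hwM : w ≤ M) :
    |∑ l ∈ Finset.Ioc 0 M, aw w l / l| ≤
      (Real.log M + 1) * |mz w| + |ml w + 1| + 4 * w / M := by
  have hM0 : (0 : ℝ) < M := by exact_mod_cast (by omega : 0 < M)
  have hlM : 0 ≤ Real.log M := Real.log_nonneg (by exact_mod_cast (by omega : 1 ≤ M))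
  have h0 : ∑ l ∈ Finset.Ioc 0 M, aw w l / l =
      1 - ∑ d ∈ Finset.Ioc 0 w, ((ArithmeticFunction.moebius d : ℤ) : ℝ) / d *
        ∑ m ∈ Finset.Ioc 0 (M / d), 1 / (m : ℝ) := by
    rw [← muw_sum w M hwM (fun d => ∑ m ∈ Finset.Ioc 0 (M / d), 1 / (m : ℝ))]
    have h1 : ∑ d ∈ Finset.Ioc 0 M, muw w d / d * ∑ m ∈ Finset.Ioc 0 (M / d), 1 / (m : ℝ) =
        ∑ l ∈ Finset.Ioc 0 M, ∑ p ∈ l.divisorsAntidiagonal, muw w p.1 / p.1 * (1 / (p.2 : ℝ)) := by
      rw [hyper_floor (fun a b => muw w a / a * (1 / (b : ℝ)))]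
      refine Finset.sum_congr rfl fun d _ => ?_
      rw [Finset.mul_sum]
    have h2 : (1 : ℝ) = ∑ l ∈ Finset.Ioc 0 M, (if l = 1 then (1 : ℝ) else 0) / l := by
      rw [Finset.sum_eq_single 1]
      · simp
      · intro b _ hb
        simp [hb]
      · intro hc
        exact absurd (Finset.mem_Ioc.2 ⟨by omega, by omega⟩) hc
    have h4 : ∀ y : ℝ, 1 - y = ∑ l ∈ Finset.Ioc 0 M, (if l = 1 then (1 : ℝ) else 0) / l - y := by
      intro y
      rw [← h2]
    rw [h1, h4, ← Finset.sum_sub_distrib]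
    refine Finset.sum_congr rfl fun l hl => ?_
    rw [Finset.mem_Ioc] at hl
    have h3 : ∀ p ∈ l.divisorsAntidiagonal, muw w p.1 / p.1 * (1 / (p.2 : ℝ)) = muw w p.1 / l := by
      intro p hp
      rw [Nat.mem_divisorsAntidiagonal] at hp
      rw [← hp.1]
      push_cast
      rw [div_mul_div_comm, mul_one]
    rw [Finset.sum_congr rfl h3, aw_apply, Nat.sum_divisorsAntidiagonal (fun d _ => muw w d / (l : ℝ)),
      ← Finset.sum_div]
    ring
  have h1 : (1 : ℝ) - ∑ d ∈ Finset.Ioc 0 w, ((ArithmeticFunction.moebius d : ℤ) : ℝ) / d *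
        ∑ m ∈ Finset.Ioc 0 (M / d), 1 / (m : ℝ) =
      (ml w + 1) - (Real.log M + Real.eulerMascheroniConstant) * mz w -
      ∑ d ∈ Finset.Ioc 0 w, ((ArithmeticFunction.moebius d : ℤ) : ℝ) / d *
        (∑ m ∈ Finset.Ioc 0 (M / d), 1 / (m : ℝ) - (Real.log M - Real.log d) -
          Real.eulerMascheroniConstant) := by
    unfold ml mz
    have h2 : ∑ d ∈ Finset.Ioc 0 w, ((ArithmeticFunction.moebius d : ℤ) : ℝ) / d *
        ∑ m ∈ Finset.Ioc 0 (M / d), 1 / (m : ℝ) =
        ∑ d ∈ Finset.Ioc 0 w, ((ArithmeticFunction.moebius d : ℤ) : ℝ) / d *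
        (∑ m ∈ Finset.Ioc 0 (M / d), 1 / (m : ℝ) - (Real.log M - Real.log d) -
          Real.eulerMascheroniConstant) +
        (Real.log M + Real.eulerMascheroniConstant) *
          ∑ d ∈ Finset.Ioc 0 w, ((ArithmeticFunction.moebius d : ℤ) : ℝ) / d -
        ∑ d ∈ Finset.Ioc 0 w, ((ArithmeticFunction.moebius d : ℤ) : ℝ) * Real.log d / d := by
      rw [Finset.mul_sum, ← Finset.sum_add_distrib, ← Finset.sum_sub_distrib]
      refine Finset.sum_congr rfl fun d _ => ?_
      ring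
    rw [h2]
    ring
  rw [h0, h1]
  have h2 : |∑ d ∈ Finset.Ioc 0 w, ((ArithmeticFunction.moebius d : ℤ) : ℝ) / d *
        (∑ m ∈ Finset.Ioc 0 (M / d), 1 / (m : ℝ) - (Real.log M - Real.log d) -
          Real.eulerMascheroniConstant)| ≤ 4 * w / M := by
    refine (Finset.abs_sum_le_sum_abs _ _).trans ?_
    have h3 : ∀ d ∈ Finset.Ioc 0 w, |((ArithmeticFunction.moebius d : ℤ) : ℝ) / d *
        (∑ m ∈ Finset.Ioc 0 (M / d), 1 / (m : ℝ) - (Real.log M - Real.log d) -
          Real.eulerMascheroniConstant)| ≤ 4 / M := by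
      intro d hd
      rw [Finset.mem_Ioc] at hd
      have hd0 : (0 : ℝ) < d := by exact_mod_cast hd.1
      set n := M / d with hn
      have hn0 : 0 < n := Nat.div_pos (by omega) hd.1
      have hn0' : (0 : ℝ) < n := by exact_mod_cast hn0
      have hn1 : (n : ℝ) ≤ M / d := Nat.cast_div_le
      have hn2 : (M : ℝ) / d < n + 1 := by
        rw [div_lt_iff₀ hd0]
        exact_mod_cast Nat.lt_mul_of_div_lt (Nat.lt_succ_self _) hd.1
      have hn3 : (M : ℝ) / d ≤ 2 * n := by
        have : (1 : ℝ) ≤ n := by exact_mod_cast hn0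
        linarith
      have hn4 : 1 / (n : ℝ) ≤ 2 * (d / M) := by
        rw [div_le_iff₀ hn0']
        rw [div_le_iff₀ hd0] at hn3
        have : 2 * (d / (M : ℝ)) * n = (2 * n * d) / M := by ring
        rw [this, le_div_iff₀ hM0]
        linarith
      have h4 := harm_asym n hn0
      have h5 : |Real.log n - (Real.log M - Real.log d)| ≤ 1 / n := by
        rw [← Real.log_div hM0.ne' hd0.ne']
        have h6 : Real.log n ≤ Real.log (M / d) := Real.log_le_log hn0' hn1
        have h7 : Real.log (M / d) ≤ Real.log ((n + 1 : ℕ) : ℝ) :=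
          Real.log_le_log (by positivity) (by push_cast; exact hn2.le)
        obtain ⟨_, g2, _⟩ := log_gap hn0
        rw [abs_le]
        constructor
        · linarith
        · linarith [show (0 : ℝ) ≤ 1 / n by positivity]
      have h6 : |∑ m ∈ Finset.Ioc 0 n, 1 / (m : ℝ) - (Real.log M - Real.log d) -
          Real.eulerMascheroniConstant| ≤ 4 * (d / M) := by
        have e : ∑ m ∈ Finset.Ioc 0 n, 1 / (m : ℝ) - (Real.log M - Real.log d) -
          Real.eulerMascheroniConstant = (∑ m ∈ Finset.Ioc 0 n, 1 / (m : ℝ) - Real.log n -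
          Real.eulerMascheroniConstant) + (Real.log n - (Real.log M - Real.log d)) := by ring
        rw [e]
        refine (abs_add_le _ _).trans ?_
        linarith
      rw [abs_mul, abs_div, abs_of_pos hd0]
      have h7 := mu_abs d
      calc _ ≤ 1 / (d : ℝ) * (4 * (d / M)) := by gcongr
        _ = _ := by field_simp
    refine (Finset.sum_le_sum h3).trans (le_of_eq ?_)
    rw [Finset.sum_const, Nat.card_Ioc, nsmul_eq_mul, Nat.sub_zero]
    ring
  have h3 : |(Real.log M + Real.eulerMascheroniConstant) * mz w| ≤ (Real.log M + 1) * |mz w| := by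
    rw [abs_mul]
    have hγ1 := Real.one_half_lt_eulerMascheroniConstant
    have hγ2 := Real.eulerMascheroniConstant_lt_two_thirds
    rw [abs_of_nonneg (by linarith : 0 ≤ Real.log M + Real.eulerMascheroniConstant)]
    gcongr
    linarith
  refine (abs_sub _ _).trans ?_
  have h4 := abs_sub (ml w + 1) ((Real.log M + Real.eulerMascheroniConstant) * mz w)
  linarith

end Pool.Agent.W66
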