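import Pool.Agent.W66.PF

set_option autoImplicit false

/-!
# The decomposition of the smoothed prime sum
-/

open Filter Topology Set MeasureTheory Metric
open scoped Real

namespace Pool.Agent.W66

/-- a continuous step -/
noncomputable def rp (a v : ℝ) : ℝ := 1 - (max (a - v) 0 - max (a - 1 - v) 0)

lemma rp_continuous (a : ℝ) : Continuous (rp a) := by unfold rp; fun_prop

lemma rp_one {a v : ℝ} (h : a ≤ v) : rp a v = 1 := by
  unfold rp
  rw [max_eq_right (by linarith), max_eq_right (by linarith)]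
  ring

lemma rp_zero {a v : ℝ} (h : v ≤ a - 1) : rp a v = 0 := by
  unfold rp
  rw [max_eq_left (by linarith), max_eq_left (by linarith)]
  ring

lemma rp_le_one (a v : ℝ) : rp a v ≤ 1 := by
  unfold rp
  have : max (a - 1 - v) 0 ≤ max (a - v) 0 := max_le_max (by linarith) le_rfl
  linarith

lemma rp_nonneg (a v : ℝ) : 0 ≤ rp a v := by
  unfold rp
  have : max (a - v) 0 ≤ max (a - 1 - v) 0 + 1 := by
    apply max_le
    · linarith [le_max_left (a - 1 - v) 0]
    · linarith [le_max_right (a - 1 - v) 0]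
  linarith

lemma rp_mono (a : ℝ) {v w : ℝ} (h : v ≤ w) : rp a v ≤ rp a w := by
  unfold rp
  rcases le_total v (a - 1) with h1 | h1
  · rw [max_eq_left (by linarith : (0:ℝ) ≤ a - v), max_eq_left (by linarith : (0:ℝ) ≤ a - 1 - v)]
    have := rp_nonneg a w
    unfold rp at this
    linarith
  · rw [max_eq_right (by linarith : a - 1 - v ≤ 0), max_eq_right (by linarith : a - 1 - w ≤ 0)]
    have : max (a - w) 0 ≤ max (a - v) 0 := max_le_max (by linarith) le_rfl
    linarith

lemma hat_partition (u0 U : ℕ) (h : u0 ≤ U) (v : ℝ) :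
    ∑ u ∈ Finset.Icc u0 U, hat (u - v) =
      (max ((U : ℝ) + 1 - v) 0 - max ((U : ℝ) - v) 0) -
        (max ((u0 : ℝ) - v) 0 - max ((u0 : ℝ) - 1 - v) 0) := by
  induction U, h using Nat.le_induction with
  | base =>
    rw [Finset.Icc_self, Finset.sum_singleton, hat_eq]
    rw [show (u0 : ℝ) - v + 1 = (u0 : ℝ) + 1 - v by ring,
      show (u0 : ℝ) - v - 1 = (u0 : ℝ) - 1 - v by ring]
    ring
  | succ n hn ih =>
    rw [← Finset.insert_Icc_right_eq_Icc_add_one (by omega), Finset.sum_insert (by simp), ih, hat_eq]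
    push_cast
    rw [show (n : ℝ) + 1 - v + 1 = (n : ℝ) + 1 + 1 - v by ring,
      show (n : ℝ) + 1 - v - 1 = (n : ℝ) - v by ring]
    ring

lemma hat_partition_rp (u0 U : ℕ) (h : u0 ≤ U) {v : ℝ} (hv : v ≤ U) :
    ∑ u ∈ Finset.Icc u0 U, hat (u - v) = rp u0 v := by
  rw [hat_partition u0 U h, max_eq_left (by linarith), max_eq_left (by linarith)]
  unfold rp
  ring

lemma gg_zero {h : ℝ} (hh : 0 < h) (L : Finset ℕ) (c : ℕ → ℝ) (hL : ∀ l ∈ L, 0 < l) {x : ℝ}
    (hx : x ≤ -h) : gg h L c x = 0 := by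
  unfold gg
  apply Finset.sum_eq_zero
  intro l hl
  have h1 : 0 ≤ Real.log l := Real.log_nonneg (by exact_mod_cast hL l hl)
  rw [tri_zero_of hh, mul_zero]
  rw [abs_of_nonpos (by linarith)]
  linarith

lemma hat_gg_integrable {h : ℝ} (hh : 0 < h) (L : Finset ℕ) (c : ℕ → ℝ) (u z : ℝ) :
    Integrable fun v => hat (u - v) * gg h L c (z - v) := by
  have h1 : Integrable fun v => gg h L c (z - v) := (gg_integrable hh L c).comp_sub_left z
  refine h1.bdd_mul (c := 1) (hatu_continuous u).aestronglyMeasurable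
    (Eventually.of_forall fun v => ?_)
  rw [Real.norm_of_nonneg (hat_nonneg _)]
  exact hat_le_one _

/-- the decomposition of the type II sum -/
theorem typeII {h z : ℝ} (hh : 0 < h) (N u0 U : ℕ) (hu : u0 ≤ U) (hz : z + h ≤ U)
    (L : Finset ℕ) (hL : ∀ l ∈ L, 0 < l) (c : ℕ → ℝ) :
    ∑ m ∈ Finset.Ioc 0 N, ArithmeticFunction.vonMangoldt m / m * gg h L c (z - Real.log m) =
      ∑ m ∈ Finset.Ioc 0 N, ArithmeticFunction.vonMangoldt m / m *
        ((1 - rp u0 (Real.log m)) * gg h L c (z - Real.log m)) +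
      (∑ u ∈ Finset.Icc u0 U, FF u h N L c z + ∫ v : ℝ, rp u0 v * gg h L c (z - v)) := by
  have h1 : ∫ v : ℝ, rp u0 v * gg h L c (z - v) =
      ∑ u ∈ Finset.Icc u0 U, ∫ v : ℝ, hat (u - v) * gg h L c (z - v) := by
    rw [← integral_finsetSum _ fun (u : ℕ) _ => hat_gg_integrable hh L c u z]
    congr 1
    ext v
    rw [← Finset.sum_mul]
    rcases le_or_gt v U with h2 | h2
    · rw [hat_partition_rp u0 U hu h2]
    · rw [gg_zero hh L c hL (by linarith), mul_zero, mul_zero]
  rw [h1, ← Finset.sum_add_distrib]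
  have h2 : ∀ u ∈ Finset.Icc u0 U, FF u h N L c z + ∫ v : ℝ, hat (u - v) * gg h L c (z - v) =
      ∑ m ∈ Finset.Ioc 0 N, ArithmeticFunction.vonMangoldt m / m * hat (u - Real.log m) *
        gg h L c (z - Real.log m) := by
    intro u _
    unfold FF
    ring
  rw [Finset.sum_congr rfl h2, Finset.sum_comm, ← Finset.sum_add_distrib]
  refine Finset.sum_congr rfl fun m _ => ?_
  have h3 : ∑ u ∈ Finset.Icc u0 U, ArithmeticFunction.vonMangoldt m / m *
      hat (u - Real.log m) * gg h L c (z - Real.log m) =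
      ArithmeticFunction.vonMangoldt m / m * ((∑ u ∈ Finset.Icc u0 U, hat (u - Real.log m)) *
        gg h L c (z - Real.log m)) := by
    rw [Finset.sum_mul, Finset.mul_sum]
    refine Finset.sum_congr rfl fun u _ => ?_
    ring
  rw [h3]
  rcases le_or_gt (Real.log m) U with h4 | h4
  · rw [hat_partition_rp u0 U hu h4]
    ring
  · rw [gg_zero hh L c hL (by linarith)]
    ring

/-- the smooth part -/
theorem smooth_part {h z : ℝ} (hh : 0 < h) (N M1 : ℕ) (u0 : ℝ) (c : ℕ → ℝ)
    (hM : M1 ≤ N) (hM1 : 0 < M1) (hz : u0 + h ≤ z - Real.log M1) (G : ℝ)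
    (hG : ∀ m, M1 ≤ m → m ≤ N → |∑ l ∈ Finset.Ioc 0 m, c l| ≤ G) :
    |∫ v : ℝ, rp u0 v * gg h (Finset.Ioc 0 N) c (z - v)| ≤ 3 * G := by
  have hG0 : 0 ≤ G := (abs_nonneg _).trans (hG M1 le_rfl hM)
  set φ : ℕ → ℝ := fun l => ∫ t : ℝ, rp u0 (z - Real.log l - t) * tri h t with hφ
  have hint : ∀ y : ℝ, Integrable fun t : ℝ => rp u0 (y - t) * tri h t := by
    intro y
    refine (tri_integrable hh).bdd_mul (c := 1)
      ((rp_continuous u0).comp (by fun_prop)).aestronglyMeasurable
      (Eventually.of_forall fun v => ?_)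
    rw [Real.norm_of_nonneg (rp_nonneg _ _)]
    exact rp_le_one _ _
  have h1 : ∫ v : ℝ, rp u0 v * gg h (Finset.Ioc 0 N) c (z - v) =
      ∑ l ∈ Finset.Ioc 0 N, c l * φ l := by
    have e : ∀ v : ℝ, rp u0 v * gg h (Finset.Ioc 0 N) c (z - v) =
        ∑ l ∈ Finset.Ioc 0 N, c l * (rp u0 v * tri h (z - v - Real.log l)) := by
      intro v
      unfold gg
      rw [Finset.mul_sum]
      refine Finset.sum_congr rfl fun l _ => ?_
      ring
    simp only [e]
    have hi : ∀ l : ℕ, Integrable fun v : ℝ => rp u0 v * tri h (z - v - Real.log l) := by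
      intro l
      have := (hint (z - Real.log l)).comp_sub_left (z - Real.log l)
      refine this.congr (Eventually.of_forall fun v => ?_)
      simp only
      congr 2 <;> ring
    rw [integral_finsetSum _ fun (l : ℕ) _ => (hi l).const_mul (c l)]
    refine Finset.sum_congr rfl fun l _ => ?_
    rw [integral_const_mul]
    congr 1
    simp only [hφ]
    rw [← integral_sub_left_eq_self _ volume (z - Real.log l)]
    congr 1
    ext v
    congr 2 <;> ring
  rw [h1, ← Finset.sum_Ioc_consecutive _ (Nat.zero_le M1) hM]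
  have hφ1 : ∀ l, 0 < l → l ≤ M1 → φ l = 1 := by
    intro l hl hl2
    simp only [hφ]
    rw [← integral_tri hh]
    congr 1
    ext t
    rcases le_or_gt h |t| with h2 | h2
    · rw [tri_zero_of hh h2, mul_zero]
    · rw [rp_one, one_mul]
      rw [abs_lt] at h2
      have : Real.log l ≤ Real.log M1 :=
        Real.log_le_log (by exact_mod_cast hl) (by exact_mod_cast hl2)
      linarith
  have h2 : ∑ l ∈ Finset.Ioc 0 M1, c l * φ l = ∑ l ∈ Finset.Ioc 0 M1, c l := by
    refine Finset.sum_congr rfl fun l hl => ?_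
    rw [Finset.mem_Ioc] at hl
    rw [hφ1 l hl.1 hl.2, mul_one]
  rw [h2]
  have h3 := abel_anti c φ M1 N (2 * G) (by positivity) (by
    intro m hm hm2
    rw [sum_Ioc_zero_split c hm]
    refine (abs_sub _ _).trans ?_
    linarith [hG m hm hm2, hG M1 le_rfl hM]) (by
    intro n hn _
    simp only [hφ]
    apply integral_mono (hint _) (hint _)
    intro t
    simp only
    apply mul_le_mul_of_nonneg_right _ (tri_nonneg hh _)
    apply rp_mono
    have hn0 : (0 : ℝ) < n := by exact_mod_cast (by omega : 0 < n)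
    have := Real.log_le_log hn0 (show (n : ℝ) ≤ ((n + 1 : ℕ) : ℝ) by push_cast; linarith)
    linarith) 1 zero_le_one (by
    intro n _ _
    simp only [hφ]
    exact integral_nonneg fun t => mul_nonneg (rp_nonneg _ _) (tri_nonneg hh _)) (by
    intro n _ _
    simp only [hφ]
    rw [← integral_tri hh]
    apply integral_mono (hint _) (tri_integrable hh)
    intro t
    simp only
    calc rp u0 (z - Real.log n - t) * tri h t ≤ 1 * tri h t :=
          mul_le_mul_of_nonneg_right (rp_le_one _ _) (tri_nonneg hh _)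
      _ = _ := one_mul _)
  refine (abs_add_le _ _).trans ?_
  linarith [hG M1 le_rfl hM]

lemma La_sum_le (N : ℕ) {u : ℝ} (hu : 0 ≤ u) :
    ∑ m ∈ (Finset.Ioc 0 N).filter (fun m : ℕ => Real.log m < u),
      ArithmeticFunction.vonMangoldt m / m ≤ u * (1 + u) := by
  set K := ⌊Real.exp u⌋₊ with hK
  have hK1 : 1 ≤ K := by
    rw [hK]
    apply Nat.le_floor
    push_cast
    exact Real.one_le_exp hu
  have hsub : (Finset.Ioc 0 N).filter (fun m : ℕ => Real.log m < u) ⊆ Finset.Ioc 0 K := by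
    intro m hm
    rw [Finset.mem_filter, Finset.mem_Ioc] at hm
    rw [Finset.mem_Ioc]
    refine ⟨hm.1.1, ?_⟩
    apply Nat.le_floor
    rw [← Real.log_le_iff_le_exp (by exact_mod_cast hm.1.1)]
    exact hm.2.le
  have h1 : ∀ m ∈ (Finset.Ioc 0 N).filter (fun m : ℕ => Real.log m < u),
      ArithmeticFunction.vonMangoldt m / m ≤ u * (1 / (m : ℝ)) := by
    intro m hm
    rw [Finset.mem_filter, Finset.mem_Ioc] at hm
    have h2 : ArithmeticFunction.vonMangoldt m ≤ Real.log m :=
      ArithmeticFunction.vonMangoldt_le_log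
    rw [mul_one_div]
    apply div_le_div_of_nonneg_right _ (by positivity)
    linarith [hm.2]
  refine (Finset.sum_le_sum h1).trans ?_
  rw [← Finset.mul_sum]
  apply mul_le_mul_of_nonneg_left _ hu
  refine (Finset.sum_le_sum_of_subset_of_nonneg hsub fun _ _ _ => by positivity).trans ?_
  refine (harm_le K hK1).trans ?_
  have : Real.log K ≤ u := by
    rw [Real.log_le_iff_le_exp (by exact_mod_cast hK1)]
    exact Nat.floor_le (Real.exp_pos _).le
  linarith

/-- the smoothed prime sum -/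
noncomputable def TT (h : ℝ) (N : ℕ) (z : ℝ) : ℝ :=
  ∑ n ∈ Finset.Ioc 0 N, ArithmeticFunction.vonMangoldt n / n * tri h (z - Real.log n)

theorem KT_ineq {h z Z : ℝ} (hh : 0 < h) (hh1 : h ≤ 1) (w N u0 U : ℕ) (hw : 1 ≤ w)
    (hz1 : Z ≤ z) (hz2 : z ≤ Z + 1) (hu0 : 1 ≤ u0) (hu : u0 ≤ U) (hU : Z + 2 ≤ U)
    (hN : Real.exp (U + 1) ≤ N) (hZ : Real.log w + u0 + 3 ≤ Z) {δ : ℝ}
    (hδ1 : |mz w| ≤ δ) (hδ2 : |ml w + 1| ≤ δ) :
    |TT h N z - 1 - ∑ u ∈ Finset.Icc u0 U, FF u h N (Finset.Ioc 0 N) (fun l => aw w l / l) z| ≤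
      (z + 1) * δ + h * (1 + Real.log w) + (1 + z) * (w * (32 * Real.exp (u0 - Z) / h ^ 2)) +
      u0 * (1 + u0) * (δ + w * (32 * Real.exp (u0 - Z) / h ^ 2)) +
      3 * ((Real.log N + 2) * δ + 4 * w / (Real.exp (Z - u0 - 2))) := by
  have hδ0 : 0 ≤ δ := (abs_nonneg _).trans hδ1
  have hw0 : (0 : ℝ) < w := by exact_mod_cast hw
  have hlw : 0 ≤ Real.log w := Real.log_nonneg (by exact_mod_cast hw)
  have hu0' : (1 : ℝ) ≤ u0 := by exact_mod_cast hu0
  have hzN : Real.exp (z + h) ≤ N := by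
    refine le_trans (Real.exp_le_exp.2 ?_) hN
    linarith
  have hN0 : (0 : ℝ) < N := lt_of_lt_of_le (Real.exp_pos _) hN
  set L := Finset.Ioc 0 N with hL
  have hLpos : ∀ l ∈ L, 0 < l := fun l hl => (Finset.mem_Ioc.1 hl).1
  set c : ℕ → ℝ := fun l => aw w l / l with hc
  -- the identity
  have hT : TT h N z = ∑ d ∈ L, muw w d / d * ∑ m ∈ L,
      ArithmeticFunction.log m / m * tri h (z - Real.log d - Real.log m) +
      ∑ m ∈ L, ArithmeticFunction.vonMangoldt m / m * gg h L c (z - Real.log m) := by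
    have h1 : TT h N z = ∑ n ∈ L, (muw w * ArithmeticFunction.log) n / n * tri h (z - Real.log n) +
        ∑ n ∈ L, (ArithmeticFunction.vonMangoldt * aw w) n / n * tri h (z - Real.log n) := by
      unfold TT
      rw [← Finset.sum_add_distrib]
      refine Finset.sum_congr rfl fun n _ => ?_
      conv_lhs => rw [La_identity w]
      rw [ArithmeticFunction.add_apply]
      ring
    rw [h1, conv_sum _ _ h z hh N hzN, conv_sum _ _ h z hh N hzN]
    rfl
  rw [typeII hh N u0 U hu (by linarith) L hLpos c] at hT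
  -- type I
  have hI := typeI hh hh1 w N hw (by linarith) hzN
  -- the bound for `gg`
  have hgg : ∀ x : ℝ, Z - u0 ≤ x → x ≤ z → |gg h L c x| ≤
      δ + w * (32 * Real.exp (u0 - Z) / h ^ 2) := by
    intro x hx1 hx2
    refine (gg_small hh hh1 w N hw (by linarith) (by
      refine le_trans (Real.exp_le_exp.2 ?_) hzN
      linarith)).trans (add_le_add hδ1 ?_)
    have : Real.exp (-x) ≤ Real.exp (u0 - Z) := Real.exp_le_exp.2 (by linarith)
    gcongr
  set ε := w * (32 * Real.exp (u0 - Z) / h ^ 2) with hε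
  have hε0 : 0 ≤ ε := by positivity
  -- the first part
  have hP1 : |∑ m ∈ L, ArithmeticFunction.vonMangoldt m / m *
        ((1 - rp u0 (Real.log m)) * gg h L c (z - Real.log m))| ≤ u0 * (1 + u0) * (δ + ε) := by
    refine (Finset.abs_sum_le_sum_abs _ _).trans ?_
    have h1 : ∀ m ∈ L, |ArithmeticFunction.vonMangoldt m / m *
        ((1 - rp u0 (Real.log m)) * gg h L c (z - Real.log m))| ≤
        if Real.log m < u0 then ArithmeticFunction.vonMangoldt m / m * (δ + ε) else 0 := by
      intro m hm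
      have hm0 := hLpos m hm
      have h2 : 0 ≤ ArithmeticFunction.vonMangoldt m / (m : ℝ) :=
        div_nonneg ArithmeticFunction.vonMangoldt_nonneg (by positivity)
      have h5 : 0 ≤ Real.log m := Real.log_nonneg (by exact_mod_cast hm0)
      split_ifs with h3
      · rw [abs_mul, abs_of_nonneg h2]
        apply mul_le_mul_of_nonneg_left _ h2
        rw [abs_mul, abs_of_nonneg (by linarith [rp_le_one (u0 : ℝ) (Real.log m)])]
        have h4 := hgg (z - Real.log m) (by linarith) (by linarith)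
        calc (1 - rp u0 (Real.log m)) * |gg h L c (z - Real.log m)| ≤ 1 * (δ + ε) := by
              apply mul_le_mul _ h4 (abs_nonneg _) zero_le_one
              linarith [rp_nonneg (u0 : ℝ) (Real.log m)]
          _ = _ := one_mul _
      · rw [rp_one (not_lt.1 h3)]
        simp
    refine (Finset.sum_le_sum h1).trans ?_
    rw [← Finset.sum_filter, ← Finset.sum_mul]
    apply mul_le_mul_of_nonneg_right _ (by positivity)
    exact La_sum_le N (by positivity)
  -- the smooth part
  set M1 := ⌊Real.exp (Z - u0 - 1)⌋₊ with hM1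
  have hM1a : Real.exp (Z - u0 - 2) ≤ M1 := by
    have h1 : Real.exp (Z - u0 - 1) < M1 + 1 := Nat.lt_floor_add_one _
    have h2 : Real.exp (Z - u0 - 2) + 1 ≤ Real.exp (Z - u0 - 1) := by
      have e : Real.exp (Z - u0 - 1) = Real.exp (Z - u0 - 2) * Real.exp 1 := by
        rw [← Real.exp_add]; congr 1; ring
      rw [e]
      have h4 : 1 ≤ Real.exp (Z - u0 - 2) := Real.one_le_exp (by linarith)
      have h5 := Real.exp_one_gt_d9
      nlinarith
    linarith
  have hM1b : (M1 : ℝ) ≤ Real.exp (Z - u0 - 1) := Nat.floor_le (Real.exp_pos _).le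
  have hwM1 : w ≤ M1 := by
    have : (w : ℝ) ≤ M1 := by
      refine le_trans ?_ hM1a
      rw [← Real.log_le_iff_le_exp hw0]
      linarith
    exact_mod_cast this
  have hM1N : M1 ≤ N := by
    have : (M1 : ℝ) ≤ N := by
      refine hM1b.trans (le_trans (Real.exp_le_exp.2 ?_) hN)
      linarith
    exact_mod_cast this
  have hM10 : 0 < M1 := by omega
  have hS := smooth_part hh N M1 u0 c hM1N hM10 (z := z) (by
    have : Real.log M1 ≤ Z - u0 - 1 := by
      rw [Real.log_le_iff_le_exp (by exact_mod_cast hM10)]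
      exact hM1b
    linarith) ((Real.log N + 2) * δ + 4 * w / (Real.exp (Z - u0 - 2))) (by
    intro m hm hm2
    have hm0 : (0 : ℝ) < m := by exact_mod_cast (by omega : 0 < m)
    refine (Gsum hw (hwM1.trans hm)).trans ?_
    have h1 : Real.log m ≤ Real.log N := Real.log_le_log hm0 (by exact_mod_cast hm2)
    have h2 : 0 ≤ Real.log m := Real.log_nonneg (by exact_mod_cast (by omega : 1 ≤ m))
    have h3 : (Real.log m + 1) * |mz w| ≤ (Real.log N + 1) * δ := by gcongr
    have h4 : 4 * (w : ℝ) / m ≤ 4 * w / (Real.exp (Z - u0 - 2)) := by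
      have : (M1 : ℝ) ≤ m := by exact_mod_cast hm
      gcongr
      linarith
    linarith)
  -- assembly
  have hI2 : |z * mz w - ml w - 1| ≤ (z + 1) * δ := by
    have e : z * mz w - ml w - 1 = z * mz w - (ml w + 1) := by ring
    rw [e]
    refine (abs_sub _ _).trans ?_
    rw [abs_mul, abs_of_nonneg (by linarith)]
    have : z * |mz w| ≤ z * δ := mul_le_mul_of_nonneg_left hδ1 (by linarith)
    linarith
  have hε2 : (1 + z) * (w * (32 * Real.exp (-z) / h ^ 2)) ≤ (1 + z) * ε := by
    apply mul_le_mul_of_nonneg_left _ (by linarith)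
    rw [hε]
    have : Real.exp (-z) ≤ Real.exp (u0 - Z) := Real.exp_le_exp.2 (by linarith)
    gcongr
  rw [hT]
  set I1 := ∑ d ∈ L, muw w d / d * ∑ m ∈ L,
      ArithmeticFunction.log m / m * tri h (z - Real.log d - Real.log m) with hI1
  set P1 := ∑ m ∈ L, ArithmeticFunction.vonMangoldt m / m *
        ((1 - rp u0 (Real.log m)) * gg h L c (z - Real.log m)) with hP1'
  set S1 := ∫ v : ℝ, rp u0 v * gg h L c (z - v) with hS1
  set F1 := ∑ u ∈ Finset.Icc u0 U, FF u h N L c z with hF1
  have e : I1 + (P1 + (F1 + S1)) - 1 - F1 = (I1 - (z * mz w - ml w)) + (z * mz w - ml w - 1) +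
      P1 + S1 := by ring
  rw [e]
  have a1 := abs_add_le ((I1 - (z * mz w - ml w)) + (z * mz w - ml w - 1) + P1) S1
  have a2 := abs_add_le ((I1 - (z * mz w - ml w)) + (z * mz w - ml w - 1)) P1
  have a3 := abs_add_le (I1 - (z * mz w - ml w)) (z * mz w - ml w - 1)
  linarith

end Pool.Agent.W66
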