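import Pool.Agent.W66.PG2
import Pool.Agent.H305R2.Window

set_option autoImplicit false

/-!
# Smoothing the indicator `ff`
-/

open Filter Topology Set MeasureTheory Metric
open scoped Real

namespace Pool.Agent.W66

open Pool.Agent.H305R2 (ff NN roughPart SM SMz VV ZZ measurable_ff ff_nonneg ff_le_one)

/-- the total error of the cells -/
lemma cell_sum {h x : ℝ} (hh : 0 < h) (hh1 : h ≤ 1) (hx : 2 ≤ x) (N : ℕ) (F : Finset ℕ)
    (hF : F ⊆ Finset.Ioc 0 N) :
    |∑ m ∈ F, ((∫ v in (Real.log m)..(Real.log ((m + 1 : ℕ) : ℝ)), tri h (x - v)) -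
      1 / (m : ℝ) * tri h (x - Real.log m))| ≤ 32 * Real.exp (-x) / h ^ 2 := by
  have h1 : ∀ m ∈ F, |(∫ v in (Real.log m)..(Real.log ((m + 1 : ℕ) : ℝ)), tri h (x - v)) -
      1 / (m : ℝ) * tri h (x - Real.log m)| ≤
      if x - h < Real.log ((m + 1 : ℕ) : ℝ) then 2 / h ^ 2 * ((m : ℝ) ^ 2)⁻¹ else 0 := by
    intro m hm
    exact cell hh hh1 x (Finset.mem_Ioc.1 (hF hm)).1
  refine (Finset.abs_sum_le_sum_abs _ _).trans ((Finset.sum_le_sum h1).trans ?_)
  rw [← Finset.sum_filter, ← Finset.mul_sum]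
  set k := ⌊Real.exp (x - 2)⌋₊ with hk
  have hsub : F.filter (fun m : ℕ => x - h < Real.log ((m + 1 : ℕ) : ℝ)) ⊆
      Finset.Ioo k (N + 1) := by
    intro m hm
    rw [Finset.mem_filter] at hm
    have hm1 := Finset.mem_Ioc.1 (hF hm.1)
    rw [Finset.mem_Ioo]
    refine ⟨?_, by omega⟩
    have h2 : Real.exp (x - 1) < (m : ℝ) + 1 := by
      have h3 : Real.exp (x - h) < ((m + 1 : ℕ) : ℝ) := by
        rw [← Real.lt_log_iff_exp_lt (by positivity)]
        exact hm.2
      push_cast at h3
      refine lt_of_le_of_lt (Real.exp_le_exp.2 (by linarith)) h3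
    have h3 : Real.exp (x - 2) + 1 ≤ Real.exp (x - 1) := by
      have e : Real.exp (x - 1) = Real.exp (x - 2) * Real.exp 1 := by
        rw [← Real.exp_add]; congr 1; ring
      rw [e]
      have h4 : 1 ≤ Real.exp (x - 2) := Real.one_le_exp (by linarith)
      have h5 := Real.exp_one_gt_d9
      nlinarith
    rw [Nat.floor_lt (Real.exp_pos _).le]
    linarith
  have h2 : ∑ m ∈ F.filter (fun m : ℕ => x - h < Real.log ((m + 1 : ℕ) : ℝ)),
      ((m : ℝ) ^ 2)⁻¹ ≤ 2 / (k + 1) :=
    (Finset.sum_le_sum_of_subset_of_nonneg hsub fun _ _ _ => by positivity).trans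
      (sum_Ioo_inv_sq_le k (N + 1))
  have h3 : 2 / ((k : ℝ) + 1) ≤ 2 * Real.exp (2 - x) := by
    have h4 : Real.exp (x - 2) ≤ (k : ℝ) + 1 := (Nat.lt_floor_add_one _).le
    have h5 : Real.exp (2 - x) = 1 / Real.exp (x - 2) := by
      rw [one_div, ← Real.exp_neg]; congr 1; ring
    rw [h5, mul_one_div]
    exact div_le_div_of_nonneg_left (by norm_num) (Real.exp_pos _) h4
  have h4 : Real.exp (2 - x) ≤ 8 * Real.exp (-x) := by
    have e : Real.exp (2 - x) = Real.exp 1 ^ 2 * Real.exp (-x) := by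
      rw [← Real.exp_nat_mul, ← Real.exp_add]; congr 1; push_cast; ring
    rw [e]
    have h5 : Real.exp 1 ^ 2 ≤ 8 := by
      have := Real.exp_one_lt_d9
      have := Real.exp_pos 1
      nlinarith
    have := Real.exp_pos (-x)
    gcongr
  calc 2 / h ^ 2 * _ ≤ 2 / h ^ 2 * (2 * (8 * Real.exp (-x))) := by
        gcongr
        exact h2.trans (h3.trans (by linarith))
    _ = _ := by ring

/-- the smoothed `ff` -/
noncomputable def cv (q : ℕ) (h y : ℝ) : ℝ := ∫ u, ff q u * tri h (y - u)

lemma cv_integrable (q : ℕ) {h : ℝ} (hh : 0 < h) (y : ℝ) :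
    Integrable fun u => ff q u * tri h (y - u) := by
  refine ((tri_integrable hh).comp_sub_left y).bdd_mul (c := 1) (measurable_ff q).aestronglyMeasurable
    (Eventually.of_forall fun v => ?_)
  rw [Real.norm_of_nonneg (ff_nonneg _ _)]
  exact ff_le_one _ _

/-- integers up to `N` with prime `q`-rough part -/
noncomputable def RF (q N : ℕ) : Finset ℕ :=
  (Finset.Ioc 0 N).filter (fun m => (roughPart q m).Prime)

/-- `Σ 1/m tri (y - log m)` over the integers with prime `q`-rough part -/
noncomputable def RS (q : ℕ) (h : ℝ) (N : ℕ) (y : ℝ) : ℝ :=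
  ∑ m ∈ RF q N, 1 / (m : ℝ) * tri h (y - Real.log m)

lemma cv_eq (q : ℕ) {h y : ℝ} (hh : 0 < h) (hh1 : h ≤ 1) (hy : 2 ≤ y) (N : ℕ)
    (hN : Real.exp (y + h) ≤ N) :
    cv q h y = ∑ m ∈ RF q N, ∫ v in (Real.log m)..(Real.log ((m + 1 : ℕ) : ℝ)), tri h (y - v) := by
  have hN0 : (0 : ℝ) < N := lt_of_lt_of_le (Real.exp_pos _) hN
  have hRF : ∀ m ∈ RF q N, 1 ≤ m := fun m hm => (Finset.mem_Ioc.1 (Finset.mem_filter.1 hm).1).1
  have h1 : ∀ u, ff q u * tri h (y - u) = ∑ m ∈ RF q N,
      (Set.Ioc (Real.log m) (Real.log ((m + 1 : ℕ) : ℝ))).indicator (fun v => tri h (y - v)) u := by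
    intro u
    have h2 : ∀ m : ℕ, (Set.Ioc (Real.log m) (Real.log ((m + 1 : ℕ) : ℝ))).indicator
        (fun v => tri h (y - v)) u =
        (Set.Ioc (Real.log m) (Real.log ((m + 1 : ℕ) : ℝ))).indicator (fun _ => (1 : ℝ)) u *
          tri h (y - u) := by
      intro m
      rw [Set.indicator_apply, Set.indicator_apply]
      split_ifs <;> simp
    simp only [h2]
    rw [← Finset.sum_mul, ← Pool.Agent.H305R2.ind_eq_sum (RF q N) hRF u]
    rcases lt_or_ge |y - u| h with h3 | h3
    · congr 1
      unfold ff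
      rw [abs_lt] at h3
      have hu0 : 0 < u := by linarith
      have hNu : 1 ≤ NN u := by
        have e : 1 < ⌈Real.exp u⌉₊ := by
          rw [Nat.lt_ceil]
          push_cast
          exact Real.one_lt_exp_iff.2 hu0
        unfold NN
        omega
      have hNu2 : NN u ≤ N := by
        unfold NN
        have : ⌈Real.exp u⌉₊ ≤ N := by
          rw [Nat.ceil_le]
          refine le_trans (Real.exp_le_exp.2 ?_) hN
          linarith
        omega
      have : NN u ∈ RF q N ↔ (roughPart q (NN u)).Prime := by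
        unfold RF
        rw [Finset.mem_filter, Finset.mem_Ioc]
        constructor
        · exact fun h => h.2
        · exact fun h => ⟨⟨hNu, hNu2⟩, h⟩
      simp only [this]
    · rw [tri_zero_of hh h3, mul_zero, mul_zero]
  unfold cv
  simp only [h1]
  rw [integral_finsetSum]
  · refine Finset.sum_congr rfl fun m hm => ?_
    have hm0 : (0 : ℝ) < m := by exact_mod_cast hRF m hm
    rw [integral_indicator measurableSet_Ioc, ← intervalIntegral.integral_of_le]
    exact Real.log_le_log hm0 (by push_cast; linarith)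
  · intro m _
    exact ((tri_integrable hh).comp_sub_left y).indicator measurableSet_Ioc

lemma cv_approx (q : ℕ) {h y : ℝ} (hh : 0 < h) (hh1 : h ≤ 1) (hy : 2 ≤ y) (N : ℕ)
    (hN : Real.exp (y + h) ≤ N) : |cv q h y - RS q h N y| ≤ 32 * Real.exp (-y) / h ^ 2 := by
  rw [cv_eq q hh hh1 hy N hN]
  unfold RS
  rw [← Finset.sum_sub_distrib]
  exact cell_sum hh hh1 hy N (RF q N) (Finset.filter_subset _ _)

/-- `Σ_ℓ 1/ℓ tri (v - log ℓ)` over primes -/
noncomputable def PP (h : ℝ) (N : ℕ) (v : ℝ) : ℝ :=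
  ∑ l ∈ (Finset.Ioc 0 N).filter Nat.Prime, 1 / (l : ℝ) * tri h (v - Real.log l)

lemma prime_powers : ∃ C : ℝ, 0 < C ∧ ∀ (N : ℕ), ∑ n ∈ (Finset.Ioc 0 N).filter (fun n => ¬ n.Prime),
    ArithmeticFunction.vonMangoldt n ≤ C * √(N : ℝ) := by
  obtain ⟨C, hC⟩ := Chebyshev.psi_sub_theta_le_mul_sqrt
  refine ⟨|C| + 1, by positivity, fun N => ?_⟩
  have h1 := hC N
  have h2 : Chebyshev.psi (N : ℝ) - Chebyshev.theta (N : ℝ) =
      ∑ n ∈ (Finset.Ioc 0 N).filter (fun n => ¬ n.Prime), ArithmeticFunction.vonMangoldt n := by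
    unfold Chebyshev.psi Chebyshev.theta
    rw [Nat.floor_natCast, ← Finset.sum_filter_add_sum_filter_not (Finset.Ioc 0 N) Nat.Prime]
    have : ∑ n ∈ (Finset.Ioc 0 N).filter Nat.Prime, ArithmeticFunction.vonMangoldt n =
        ∑ p ∈ (Finset.Ioc 0 N).filter Nat.Prime, Real.log p :=
      Finset.sum_congr rfl fun p hp => ArithmeticFunction.vonMangoldt_apply_prime
        (Finset.mem_filter.1 hp).2
    rw [this]
    ring
  rw [h2] at h1
  refine h1.trans ?_
  have := Real.sqrt_nonneg (N : ℝ)
  have h3 := le_abs_self C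
  nlinarith

theorem PP_approx : ∃ C : ℝ, 0 < C ∧ ∀ (h v : ℝ) (N : ℕ), 0 < h → h ≤ 1 → 2 ≤ v →
    Real.exp (v + h) ≤ N →
    |PP h N v - TT h N v / v| ≤ h * (1 + 32 * Real.exp (-v) / h ^ 2) +
      C / h * Real.exp (-(v / 2)) := by
  obtain ⟨C, hC, hpp⟩ := prime_powers
  refine ⟨9 * C, by positivity, fun h v N hh hh1 hv hN => ?_⟩
  have hv0 : 0 < v := by linarith
  have hsplit : TT h N v = ∑ l ∈ (Finset.Ioc 0 N).filter Nat.Prime,
      Real.log l / l * tri h (v - Real.log l) +
      ∑ n ∈ (Finset.Ioc 0 N).filter (fun n => ¬ n.Prime),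
        ArithmeticFunction.vonMangoldt n / n * tri h (v - Real.log n) := by
    unfold TT
    rw [← Finset.sum_filter_add_sum_filter_not (Finset.Ioc 0 N) Nat.Prime]
    congr 1
    refine Finset.sum_congr rfl fun p hp => ?_
    rw [ArithmeticFunction.vonMangoldt_apply_prime (Finset.mem_filter.1 hp).2]
  set B := ∑ n ∈ (Finset.Ioc 0 N).filter (fun n => ¬ n.Prime),
        ArithmeticFunction.vonMangoldt n / n * tri h (v - Real.log n) with hB
  have hB0 : 0 ≤ B := Finset.sum_nonneg fun n _ => mul_nonneg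
    (div_nonneg ArithmeticFunction.vonMangoldt_nonneg (by positivity)) (tri_nonneg hh _)
  -- prime powers
  have hB1 : B ≤ 9 * C / h * Real.exp (-(v / 2)) := by
    set M := ⌊Real.exp (v + h)⌋₊ with hM
    have h1 : B ≤ ∑ n ∈ (Finset.Ioc 0 M).filter (fun n => ¬ n.Prime),
        ArithmeticFunction.vonMangoldt n * (Real.exp (h - v) * (1 / h)) := by
      rw [hB]
      have h2 : ∀ n ∈ (Finset.Ioc 0 N).filter (fun n => ¬ n.Prime),
          ArithmeticFunction.vonMangoldt n / n * tri h (v - Real.log n) ≤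
          if n ≤ M then ArithmeticFunction.vonMangoldt n * (Real.exp (h - v) * (1 / h)) else 0 := by
        intro n hn
        have hn0 : 0 < n := (Finset.mem_Ioc.1 (Finset.mem_filter.1 hn).1).1
        have hn0' : (0 : ℝ) < n := by exact_mod_cast hn0
        have hΛ : 0 ≤ ArithmeticFunction.vonMangoldt n := ArithmeticFunction.vonMangoldt_nonneg
        rcases le_or_gt h |v - Real.log n| with h3 | h3
        · rw [tri_zero_of hh h3, mul_zero]
          split_ifs <;> positivity
        · rw [abs_lt] at h3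
          have h4 : n ≤ M := by
            apply Nat.le_floor
            rw [← Real.log_le_iff_le_exp hn0']
            linarith
          rw [if_pos h4]
          have h5 : 1 / (n : ℝ) ≤ Real.exp (h - v) := by
            have h6 : Real.exp (v - h) ≤ n := by
              rw [← Real.le_log_iff_exp_le hn0']
              linarith
            have h7 : Real.exp (h - v) = 1 / Real.exp (v - h) := by
              rw [one_div, ← Real.exp_neg]; congr 1; ring
            rw [h7]
            exact one_div_le_one_div_of_le (Real.exp_pos _) h6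
          rw [div_eq_mul_one_div, mul_assoc]
          apply mul_le_mul_of_nonneg_left _ hΛ
          exact mul_le_mul h5 (tri_le hh _) (tri_nonneg hh _) (Real.exp_pos _).le
      refine (Finset.sum_le_sum h2).trans ?_
      rw [← Finset.sum_filter]
      refine Finset.sum_le_sum_of_subset_of_nonneg ?_ fun n _ _ => mul_nonneg
        ArithmeticFunction.vonMangoldt_nonneg (by positivity)
      intro n hn
      rw [Finset.mem_filter, Finset.mem_filter, Finset.mem_Ioc] at hn
      rw [Finset.mem_filter, Finset.mem_Ioc]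
      exact ⟨⟨hn.1.1.1, hn.2⟩, hn.1.2⟩
    rw [← Finset.sum_mul] at h1
    refine h1.trans ?_
    have h2 := hpp M
    have h3 : √(M : ℝ) ≤ Real.exp ((v + h) / 2) := by
      rw [Real.sqrt_le_left (Real.exp_pos _).le, ← Real.exp_nat_mul]
      have : ((2 : ℕ) : ℝ) * ((v + h) / 2) = v + h := by push_cast; ring
      rw [this]
      exact Nat.floor_le (Real.exp_pos _).le
    calc _ ≤ (C * Real.exp ((v + h) / 2)) * (Real.exp (h - v) * (1 / h)) := by
          apply mul_le_mul_of_nonneg_right _ (by positivity)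
          exact h2.trans (by gcongr)
      _ = C / h * (Real.exp ((v + h) / 2) * Real.exp (h - v)) := by ring
      _ = C / h * (Real.exp (3 / 2 * h) * Real.exp (-(v / 2))) := by
          rw [← Real.exp_add, ← Real.exp_add]
          congr 2
          ring
      _ ≤ C / h * (9 * Real.exp (-(v / 2))) := by
          have h4 : Real.exp (3 / 2 * h) ≤ 9 := by
            calc Real.exp (3 / 2 * h) ≤ Real.exp 2 := Real.exp_le_exp.2 (by linarith)
              _ = Real.exp 1 ^ 2 := by rw [← Real.exp_nat_mul]; norm_num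
              _ ≤ 9 := by
                  have := Real.exp_one_lt_d9
                  have := Real.exp_pos 1
                  nlinarith
          gcongr
      _ = _ := by ring
  -- primes
  have hA : |PP h N v - (∑ l ∈ (Finset.Ioc 0 N).filter Nat.Prime,
      Real.log l / l * tri h (v - Real.log l)) / v| ≤ h * (1 + 32 * Real.exp (-v) / h ^ 2) := by
    unfold PP
    rw [Finset.sum_div, ← Finset.sum_sub_distrib]
    have h2 : ∀ l ∈ (Finset.Ioc 0 N).filter Nat.Prime, |1 / (l : ℝ) * tri h (v - Real.log l) -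
        Real.log l / l * tri h (v - Real.log l) / v| ≤ h * (1 / (l : ℝ) * tri h (v - Real.log l)) := by
      intro l _
      have h3 : 1 / (l : ℝ) * tri h (v - Real.log l) - Real.log l / l * tri h (v - Real.log l) / v =
          (v - Real.log l) / v * (1 / (l : ℝ) * tri h (v - Real.log l)) := by
        field_simp
      have h4 : 0 ≤ 1 / (l : ℝ) * tri h (v - Real.log l) :=
        mul_nonneg (by positivity) (tri_nonneg hh _)
      rw [h3, abs_mul, abs_of_nonneg h4]
      rcases le_or_gt h |v - Real.log l| with h5 | h5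
      · rw [tri_zero_of hh h5]
        simp
      · apply mul_le_mul_of_nonneg_right _ h4
        rw [abs_div, abs_of_pos hv0, div_le_iff₀ hv0]
        nlinarith
    refine (Finset.abs_sum_le_sum_abs _ _).trans ((Finset.sum_le_sum h2).trans ?_)
    rw [← Finset.mul_sum]
    apply mul_le_mul_of_nonneg_left _ hh.le
    have h3 := (abs_le.1 (riemann hh hh1 hv N hN)).2
    have h4 : ∑ l ∈ (Finset.Ioc 0 N).filter Nat.Prime, 1 / (l : ℝ) * tri h (v - Real.log l) ≤
        ∑ l ∈ Finset.Ioc 0 N, 1 / (l : ℝ) * tri h (v - Real.log l) :=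
      Finset.sum_le_sum_of_subset_of_nonneg (Finset.filter_subset _ _) fun l _ _ =>
        mul_nonneg (by positivity) (tri_nonneg hh _)
    linarith
  rw [hsplit, add_div]
  have e : PP h N v - ((∑ l ∈ (Finset.Ioc 0 N).filter Nat.Prime,
      Real.log l / l * tri h (v - Real.log l)) / v + B / v) =
      (PP h N v - (∑ l ∈ (Finset.Ioc 0 N).filter Nat.Prime,
      Real.log l / l * tri h (v - Real.log l)) / v) - B / v := by ring
  rw [e]
  refine (abs_sub _ _).trans (add_le_add hA ?_)
  rw [abs_of_nonneg (by positivity)]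
  refine le_trans ?_ hB1
  exact div_le_self hB0 (by linarith)

end Pool.Agent.W66
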