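import Pool.Agent.W66.QB
import Pool.Agent.H305R2.Mean

set_option autoImplicit false

/-!
# Integrals against functions of bounded modulus of continuity in mean
-/

open Filter Topology Set MeasureTheory Metric
open scoped Real Convolution

namespace Pool.Agent.W66

open Pool.Agent.H305R2 (ff NN roughPart SM SMz VV ZZ measurable_ff ff_nonneg ff_le_one LL)

lemma ii_of_bdd {f : ℝ → ℝ} (hf : Measurable f) {M : ℝ} (hM : ∀ x, |f x| ≤ M) (a b : ℝ) :
    IntervalIntegrable f volume a b := by
  rw [intervalIntegrable_iff]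
  exact Measure.integrableOn_of_bounded (M := M) (by simp) hf.aestronglyMeasurable
    (Eventually.of_forall fun x => by rw [Real.norm_eq_abs]; exact hM x)

lemma shift_window {g : ℝ → ℝ} (hg : Measurable g) (hg1 : ∀ x, |g x| ≤ 1) (Y v : ℝ) :
    |(∫ u in (Y - v)..(Y + 1 - v), g u) - ∫ u in Y..(Y + 1), g u| ≤ 2 * |v| := by
  have hii := fun a b => ii_of_bdd hg hg1 a b
  have e : (∫ u in (Y - v)..(Y + 1 - v), g u) - ∫ u in Y..(Y + 1), g u =
      (∫ u in (Y - v)..Y, g u) - ∫ u in (Y + 1 - v)..(Y + 1), g u := by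
    have h1 := intervalIntegral.integral_add_adjacent_intervals (hii (Y - v) Y) (hii Y (Y + 1))
    have h2 := intervalIntegral.integral_add_adjacent_intervals (hii (Y - v) (Y + 1 - v))
      (hii (Y + 1 - v) (Y + 1))
    linarith
  rw [e]
  have h1 : ∀ a : ℝ, |∫ u in (a - v)..a, g u| ≤ |v| := by
    intro a
    have := intervalIntegral.norm_integral_le_of_norm_le_const (a := a - v) (b := a) (C := 1)
      (f := g) (fun x _ => by rw [Real.norm_eq_abs]; exact hg1 x)
    rw [Real.norm_eq_abs] at this
    simpa using this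
  have h2 := h1 Y
  have h3 := h1 (Y + 1)
  refine (abs_sub _ _).trans ?_
  linarith

theorem smoothing (q : ℕ) {h : ℝ} (hh : 0 < h) (φ : ℝ → ℝ) (hφ : Measurable φ)
    (hφ1 : ∀ x, |φ x| ≤ 1) (Y μ δ : ℝ)
    (hδ : ∀ v : ℝ, |v| ≤ h → ∫ u in Y..(Y + 1), |φ (u + v) - φ u| ≤ δ)
    (hcv : Continuous (cv q h)) :
    |∫ u in Y..(Y + 1), φ u * (ff q u - μ)| ≤ (∫ u in Y..(Y + 1), |cv q h u - μ|) + 2 * h + δ := by
  have hffm := measurable_ff q
  have hff1 : ∀ x, |ff q x| ≤ 1 := fun x => by
    rw [abs_of_nonneg (ff_nonneg q x)]; exact ff_le_one q x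
  have hφff : ∀ v, Measurable fun u => φ u * ff q (u - v) := fun v =>
    hφ.mul (hffm.comp (by fun_prop))
  have hφff1 : ∀ v x, |φ x * ff q (x - v)| ≤ 1 := fun v x => by
    rw [abs_mul]
    exact mul_le_one₀ (hφ1 x) (abs_nonneg _) (hff1 _)
  -- the smoothed integral
  have hsw : ∫ u in Y..(Y + 1), φ u * cv q h u =
      ∫ v, tri h v * ∫ u in Y..(Y + 1), φ u * ff q (u - v) := by
    have e1 : ∀ u, φ u * cv q h u = ∫ v, tri h v * (φ u * ff q (u - v)) := by
      intro u
      unfold cv
      rw [← integral_sub_left_eq_self _ volume u, ← integral_const_mul]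
      congr 1
      ext v
      rw [show u - (u - v) = v by ring]
      ring
    simp only [e1]
    have e2 : ∀ v, tri h v * ∫ u in Y..(Y + 1), φ u * ff q (u - v) =
        ∫ u in Y..(Y + 1), tri h v * (φ u * ff q (u - v)) := by
      intro v
      rw [intervalIntegral.integral_const_mul]
    simp only [e2]
    simp only [intervalIntegral.integral_of_le (show Y ≤ Y + 1 by linarith)]
    apply integral_integral_swap
    have hb : Integrable (fun z : ℝ × ℝ => (1 : ℝ) * tri h z.2)
        ((volume.restrict (Set.Ioc Y (Y + 1))).prod volume) := by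
      have h1 : Integrable (fun _ : ℝ => (1 : ℝ)) (volume.restrict (Set.Ioc Y (Y + 1))) :=
        integrable_const _
      exact h1.mul_prod (tri_integrable hh)
    refine hb.mono' ?_ ?_
    · apply Measurable.aestronglyMeasurable
      unfold Function.uncurry
      simp only
      exact ((tri_continuous h).measurable.comp measurable_snd).mul
        ((hφ.comp measurable_fst).mul (hffm.comp (measurable_fst.sub measurable_snd)))
    · refine Eventually.of_forall fun z => ?_
      unfold Function.uncurry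
      simp only
      rw [Real.norm_eq_abs, abs_mul, abs_of_nonneg (tri_nonneg hh _), one_mul]
      calc tri h z.2 * |φ z.1 * ff q (z.1 - z.2)| ≤ tri h z.2 * 1 :=
            mul_le_mul_of_nonneg_left (hφff1 _ _) (tri_nonneg hh _)
        _ = _ := mul_one _
  -- the comparison for a fixed shift
  have hcmp : ∀ v : ℝ, |v| ≤ h → |(∫ u in Y..(Y + 1), φ u * ff q (u - v)) -
      ∫ u in Y..(Y + 1), φ u * ff q u| ≤ 2 * h + δ := by
    intro v hv
    have h1 : ∫ u in Y..(Y + 1), φ u * ff q (u - v) =
        ∫ u in (Y - v)..(Y + 1 - v), φ (u + v) * ff q u := by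
      rw [← intervalIntegral.integral_comp_sub_right (fun u => φ (u + v) * ff q u) v]
      simp only [sub_add_cancel]
    have hg : Measurable fun u => φ (u + v) * ff q u := (hφ.comp (by fun_prop)).mul hffm
    have hg1 : ∀ x, |φ (x + v) * ff q x| ≤ 1 := fun x => by
      rw [abs_mul]
      exact mul_le_one₀ (hφ1 _) (abs_nonneg _) (hff1 _)
    have h2 := shift_window hg hg1 Y v
    have hii1 := ii_of_bdd hg hg1 Y (Y + 1)
    have hm0 : Measurable fun u => φ u * ff q u := hφ.mul hffm
    have hii0 := ii_of_bdd hm0 (M := 1) (fun x => by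
      rw [abs_mul]
      exact mul_le_one₀ (hφ1 _) (abs_nonneg _) (hff1 _)) Y (Y + 1)
    have h3 : |(∫ u in Y..(Y + 1), φ (u + v) * ff q u) - ∫ u in Y..(Y + 1), φ u * ff q u| ≤ δ := by
      rw [← intervalIntegral.integral_sub hii1 hii0]
      refine (intervalIntegral.abs_integral_le_integral_abs (by linarith)).trans ?_
      refine le_trans ?_ (hδ v hv)
      apply intervalIntegral.integral_mono_on (by linarith)
      · exact (hii1.sub hii0).abs
      · have hm : Measurable fun u => φ (u + v) - φ u := (hφ.comp (by fun_prop)).sub hφ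
        exact (ii_of_bdd hm (M := 2) (fun x => (abs_sub _ _).trans (by
          linarith [hφ1 x, hφ1 (x + v)])) Y (Y + 1)).abs
      · intro u _
        rw [← sub_mul, abs_mul]
        calc |φ (u + v) - φ u| * |ff q u| ≤ |φ (u + v) - φ u| * 1 :=
              mul_le_mul_of_nonneg_left (hff1 u) (abs_nonneg _)
          _ = _ := mul_one _
    rw [h1]
    have h4 := abs_sub_le (∫ u in (Y - v)..(Y + 1 - v), φ (u + v) * ff q u)
      (∫ u in Y..(Y + 1), φ (u + v) * ff q u) (∫ u in Y..(Y + 1), φ u * ff q u)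
    linarith
  -- the smoothing error
  set I0 := ∫ u in Y..(Y + 1), φ u * ff q u with hI0
  have hmeasJ : Continuous fun v : ℝ => tri h v := tri_continuous h
  have hJ1 : ∀ v : ℝ, |∫ u in Y..(Y + 1), φ u * ff q (u - v)| ≤ 1 := by
    intro v
    have := intervalIntegral.norm_integral_le_of_norm_le_const (a := Y) (b := Y + 1) (C := 1)
      (f := fun u => φ u * ff q (u - v)) (fun x _ => by rw [Real.norm_eq_abs]; exact hφff1 v x)
    rw [Real.norm_eq_abs] at this
    simpa using this
  have hJm : StronglyMeasurable fun v : ℝ => ∫ u in Y..(Y + 1), φ u * ff q (u - v) := by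
    simp only [intervalIntegral.integral_of_le (show Y ≤ Y + 1 by linarith)]
    apply StronglyMeasurable.integral_prod_right
    apply Measurable.stronglyMeasurable
    exact (hφ.comp measurable_snd).mul (hffm.comp (measurable_snd.sub measurable_fst))
  have hJint : Integrable fun v => tri h v * ∫ u in Y..(Y + 1), φ u * ff q (u - v) := by
    refine (tri_integrable hh).mono' (hmeasJ.aestronglyMeasurable.mul hJm.aestronglyMeasurable)
      (Eventually.of_forall fun v => ?_)
    rw [Real.norm_eq_abs, abs_mul, abs_of_nonneg (tri_nonneg hh _)]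
    calc _ ≤ tri h v * 1 := mul_le_mul_of_nonneg_left (hJ1 v) (tri_nonneg hh _)
      _ = _ := mul_one _
  have herr : |(∫ u in Y..(Y + 1), φ u * cv q h u) - I0| ≤ 2 * h + δ := by
    have h1 : I0 = ∫ v, tri h v * I0 := by
      rw [integral_mul_const, integral_tri hh, one_mul]
    rw [hsw, h1, ← integral_sub hJint ((tri_integrable hh).mul_const _)]
    have h2 : ∀ v, |tri h v * (∫ u in Y..(Y + 1), φ u * ff q (u - v)) - tri h v * I0| ≤
        tri h v * (2 * h + δ) := by
      intro v
      rw [← mul_sub, abs_mul, abs_of_nonneg (tri_nonneg hh _)]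
      rcases le_or_gt h |v| with h3 | h3
      · rw [tri_zero_of hh h3]
        simp
      · exact mul_le_mul_of_nonneg_left (hcmp v h3.le) (tri_nonneg hh _)
    calc _ ≤ ∫ v, tri h v * (2 * h + δ) := by
          rw [← Real.norm_eq_abs]
          apply norm_integral_le_of_norm_le ((tri_integrable hh).mul_const _)
          exact Eventually.of_forall fun v => by rw [Real.norm_eq_abs]; exact h2 v
      _ = _ := by rw [integral_mul_const, integral_tri hh, one_mul]
  -- conclusion
  have hφii : IntervalIntegrable φ volume Y (Y + 1) := ii_of_bdd hφ hφ1 _ _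
  have hm0 : Measurable fun u => φ u * ff q u := hφ.mul hffm
  have hii0 := ii_of_bdd hm0 (M := 1) (fun x => by
      rw [abs_mul]
      exact mul_le_one₀ (hφ1 _) (abs_nonneg _) (hff1 _)) Y (Y + 1)
  have hcvii : IntervalIntegrable (fun u => φ u * cv q h u) volume Y (Y + 1) :=
    hφii.mul_continuousOn hcv.continuousOn
  have e : ∫ u in Y..(Y + 1), φ u * (ff q u - μ) =
      (∫ u in Y..(Y + 1), φ u * (cv q h u - μ)) - ((∫ u in Y..(Y + 1), φ u * cv q h u) - I0) := by
    have h1 : ∫ u in Y..(Y + 1), φ u * (ff q u - μ) = I0 - ∫ u in Y..(Y + 1), φ u * μ := by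
      rw [hI0, ← intervalIntegral.integral_sub hii0 (hφii.mul_const μ)]
      congr 1
      ext u
      ring
    have h2 : ∫ u in Y..(Y + 1), φ u * (cv q h u - μ) = (∫ u in Y..(Y + 1), φ u * cv q h u) -
        ∫ u in Y..(Y + 1), φ u * μ := by
      rw [← intervalIntegral.integral_sub hcvii (hφii.mul_const μ)]
      congr 1
      ext u
      ring
    rw [h1, h2]
    ring
  have hlast : |∫ u in Y..(Y + 1), φ u * (cv q h u - μ)| ≤ ∫ u in Y..(Y + 1), |cv q h u - μ| := by
    refine (intervalIntegral.abs_integral_le_integral_abs (by linarith)).trans ?_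
    have hc : Continuous fun u => |cv q h u - μ| := (hcv.sub continuous_const).abs
    apply intervalIntegral.integral_mono_on (by linarith)
    · exact (hφii.mul_continuousOn (hcv.sub continuous_const).continuousOn).abs
    · exact hc.intervalIntegrable _ _
    · intro u _
      rw [abs_mul]
      calc |φ u| * |cv q h u - μ| ≤ 1 * |cv q h u - μ| :=
            mul_le_mul_of_nonneg_right (hφ1 u) (abs_nonneg _)
        _ = _ := one_mul _
  rw [e]
  refine (abs_sub _ _).trans ?_
  linarith

lemma NN_mono : Monotone NN := by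
  intro a b h
  unfold NN
  have := Nat.ceil_mono (Real.exp_le_exp.2 h)
  omega

lemma NN_le (t : ℝ) : (NN t : ℝ) ≤ Real.exp t := by
  unfold NN
  have h1 : 0 < ⌈Real.exp t⌉₊ := Nat.ceil_pos.2 (Real.exp_pos _)
  rw [Nat.cast_sub h1, Nat.cast_one]
  have := Nat.ceil_lt_add_one (Real.exp_pos t).le
  linarith

lemma ff_diff (p : ℕ) (a b : ℝ) : |ff p a - ff p b| ≤ |(NN a : ℝ) - NN b| := by
  by_cases h : NN a = NN b
  · unfold ff
    rw [h]
    simp
  · have h1 : |ff p a - ff p b| ≤ 1 := by
      rw [abs_le]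
      constructor <;> linarith [ff_nonneg p a, ff_nonneg p b, ff_le_one p a, ff_le_one p b]
    refine h1.trans ?_
    have h2 : (1 : ℤ) ≤ |(NN a : ℤ) - NN b| := Int.one_le_abs (by omega)
    exact_mod_cast h2

lemma mono_var {Ψ : ℝ → ℝ} (hΨ : Monotone Ψ) (hΨ0 : ∀ x, 0 ≤ Ψ x) (Y v h : ℝ) (hh : 0 ≤ h)
    (hv : |v| ≤ h) : ∫ u in Y..(Y + 1), |Ψ (u + v) - Ψ u| ≤ h * Ψ (Y + 1 + h) := by
  have hii : ∀ a b, IntervalIntegrable Ψ volume a b := fun a b => hΨ.intervalIntegrable
  have hii2 : ∀ a b, IntervalIntegrable (fun u => Ψ (u + v)) volume a b := fun a b =>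
    (show Monotone (fun u => Ψ (u + v)) from fun x y hxy => hΨ (by linarith)).intervalIntegrable
  have hub : ∀ a b : ℝ, a ≤ b → b ≤ Y + 1 + h → ∫ u in a..b, Ψ u ≤ (b - a) * Ψ (Y + 1 + h) := by
    intro a b hab hb
    have := intervalIntegral.integral_mono_on hab (hii a b)
      (intervalIntegrable_const (c := Ψ (Y + 1 + h))) (fun x hx => hΨ (hx.2.trans hb))
    simpa using this
  have hlb : ∀ a b : ℝ, a ≤ b → 0 ≤ ∫ u in a..b, Ψ u := fun a b hab =>
    intervalIntegral.integral_nonneg hab fun x _ => hΨ0 x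
  have hcomp : ∫ u in Y..(Y + 1), Ψ (u + v) = ∫ u in (Y + v)..(Y + 1 + v), Ψ u :=
    intervalIntegral.integral_comp_add_right Ψ v
  have hP := hΨ0 (Y + 1 + h)
  rw [abs_le] at hv
  rcases le_total 0 v with h0 | h0
  · have e : ∫ u in Y..(Y + 1), |Ψ (u + v) - Ψ u| =
        (∫ u in Y..(Y + 1), Ψ (u + v)) - ∫ u in Y..(Y + 1), Ψ u := by
      rw [← intervalIntegral.integral_sub (hii2 _ _) (hii _ _)]
      congr 1
      ext u
      exact abs_of_nonneg (sub_nonneg.2 (hΨ (by linarith)))
    rw [e, hcomp]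
    have h1 := intervalIntegral.integral_add_adjacent_intervals (hii Y (Y + v)) (hii (Y + v) (Y + 1))
    have h2 := intervalIntegral.integral_add_adjacent_intervals (hii (Y + v) (Y + 1))
      (hii (Y + 1) (Y + 1 + v))
    have h3 := hlb Y (Y + v) (by linarith)
    have h4 := hub (Y + 1) (Y + 1 + v) (by linarith) (by linarith)
    have h5 : (Y + 1 + v - (Y + 1)) * Ψ (Y + 1 + h) ≤ h * Ψ (Y + 1 + h) :=
      mul_le_mul_of_nonneg_right (by linarith) hP
    linarith
  · have e : ∫ u in Y..(Y + 1), |Ψ (u + v) - Ψ u| =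
        (∫ u in Y..(Y + 1), Ψ u) - ∫ u in Y..(Y + 1), Ψ (u + v) := by
      rw [← intervalIntegral.integral_sub (hii _ _) (hii2 _ _)]
      congr 1
      ext u
      rw [abs_of_nonpos (sub_nonpos.2 (hΨ (by linarith)))]
      ring
    rw [e, hcomp]
    have h1 := intervalIntegral.integral_add_adjacent_intervals (hii (Y + v) Y) (hii Y (Y + 1 + v))
    have h2 := intervalIntegral.integral_add_adjacent_intervals (hii Y (Y + 1 + v))
      (hii (Y + 1 + v) (Y + 1))
    have h3 := hlb (Y + v) Y (by linarith)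
    have h4 := hub (Y + 1 + v) (Y + 1) (by linarith) (by linarith)
    have h5 : (Y + 1 - (Y + 1 + v)) * Ψ (Y + 1 + h) ≤ h * Ψ (Y + 1 + h) :=
      mul_le_mul_of_nonneg_right (by linarith) hP
    linarith

lemma LL_lip (p : ℕ) (a b : ℝ) : |LL p a - LL p b| ≤ 2 * |a - b| := by
  wlog hab : b ≤ a with H
  · rw [abs_sub_comm, abs_sub_comm a b]
    exact H p b a (by linarith)
  rw [Pool.Agent.H305R2.LL_eq, Pool.Agent.H305R2.LL_eq]
  have h1 := Pool.Agent.H305R2.FF_sub_le p (show b + 1 ≤ a + 1 by linarith)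
  have h2 := Pool.Agent.H305R2.FF_mono p (show b + 1 ≤ a + 1 by linarith)
  have h3 := Pool.Agent.H305R2.FF_sub_le p hab
  have h4 := Pool.Agent.H305R2.FF_mono p hab
  rw [abs_of_nonneg (by linarith : 0 ≤ a - b), abs_le]
  constructor <;> linarith

/-- modulus of continuity in mean of `gg p (lam u + c)` -/
theorem gg_modulus (p : ℕ) {lam c h Y : ℝ} (hlam : 0 < lam) (hlam1 : lam ≤ 1) (hh : 0 ≤ h)
    {v : ℝ} (hv : |v| ≤ h) :
    ∫ u in Y..(Y + 1), |Pool.Agent.H305R2.gg p (lam * (u + v) + c) -
      Pool.Agent.H305R2.gg p (lam * u + c)| ≤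
      h * Real.exp (lam * (Y + 1 + h) + c) + 2 * h := by
  set Ψ : ℝ → ℝ := fun u => (NN (lam * u + c) : ℝ) with hΨ
  have hmono : Monotone Ψ := by
    intro a b hab
    simp only [hΨ]
    exact_mod_cast NN_mono (by nlinarith)
  have h1 := mono_var hmono (fun x => by simp only [hΨ]; positivity) Y v h hh hv
  have hmg : Measurable fun u => Pool.Agent.H305R2.gg p (lam * (u + v) + c) -
      Pool.Agent.H305R2.gg p (lam * u + c) :=
    ((Pool.Agent.H305R2.measurable_gg p).comp (by fun_prop)).sub
      ((Pool.Agent.H305R2.measurable_gg p).comp (by fun_prop))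
  have hii : IntervalIntegrable (fun u => Ψ (u + v) - Ψ u) volume Y (Y + 1) := by
    apply IntervalIntegrable.sub
    · exact (show Monotone (fun u => Ψ (u + v)) from
        fun x y hxy => hmono (by linarith)).intervalIntegrable
    · exact hmono.intervalIntegrable
  have h2 : ∫ u in Y..(Y + 1), |Pool.Agent.H305R2.gg p (lam * (u + v) + c) -
      Pool.Agent.H305R2.gg p (lam * u + c)| ≤ ∫ u in Y..(Y + 1), (|Ψ (u + v) - Ψ u| + 2 * h) := by
    apply intervalIntegral.integral_mono_on (by linarith)
    · exact (ii_of_bdd hmg (M := 2) (fun x => (abs_sub _ _).trans (by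
        linarith [Pool.Agent.H305R2.abs_gg_le_one p (lam * (x + v) + c),
          Pool.Agent.H305R2.abs_gg_le_one p (lam * x + c)])) Y (Y + 1)).abs
    · exact hii.abs.add intervalIntegrable_const
    · intro u _
      have e : Pool.Agent.H305R2.gg p (lam * (u + v) + c) - Pool.Agent.H305R2.gg p (lam * u + c) =
          (ff p (lam * (u + v) + c) - ff p (lam * u + c)) -
          (LL p (lam * (u + v) + c) - LL p (lam * u + c)) := by
        unfold Pool.Agent.H305R2.gg
        ring
      rw [e]
      refine (abs_sub _ _).trans (add_le_add (ff_diff p _ _) ?_)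
      refine (LL_lip p _ _).trans ?_
      have : |lam * (u + v) + c - (lam * u + c)| ≤ h := by
        rw [show lam * (u + v) + c - (lam * u + c) = lam * v by ring, abs_mul, abs_of_pos hlam]
        calc lam * |v| ≤ 1 * h := by gcongr
          _ = h := one_mul h
      linarith
  refine h2.trans ?_
  rw [intervalIntegral.integral_add hii.abs intervalIntegrable_const,
    intervalIntegral.integral_const, smul_eq_mul]
  have h3 : h * Ψ (Y + 1 + h) ≤ h * Real.exp (lam * (Y + 1 + h) + c) :=
    mul_le_mul_of_nonneg_left (NN_le _) hh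
  linarith

lemma cv_continuous (q : ℕ) {h : ℝ} (hh : 0 < h) : Continuous (cv q h) := by
  have h1 : cv q h = (tri h) ⋆[ContinuousLinearMap.mul ℝ ℝ, volume] (ff q) := by
    ext y
    rw [MeasureTheory.convolution_def]
    unfold cv
    rw [← integral_sub_left_eq_self _ volume y]
    congr 1
    ext v
    rw [show y - (y - v) = v by ring, ContinuousLinearMap.mul_apply', mul_comm]
  rw [h1]
  apply HasCompactSupport.continuous_convolution_left _ (tri_hasCompactSupport hh)
    (tri_continuous h)
  have h2 : ∀ x, |ff q x| ≤ 1 := fun x => by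
    rw [abs_of_nonneg (ff_nonneg q x)]; exact ff_le_one q x
  intro x
  refine ⟨Set.Icc (x - 1) (x + 1), Icc_mem_nhds (by linarith) (by linarith), ?_⟩
  exact Measure.integrableOn_of_bounded (M := 1) (by simp) (measurable_ff q).aestronglyMeasurable
    (Eventually.of_forall fun x => by rw [Real.norm_eq_abs]; exact h2 x)

end Pool.Agent.W66
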