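import Pool.Agent.W66.QC
import Pool.Agent.W66.PH

set_option autoImplicit false

/-!
# Decorrelation of distant exponents
-/

open Filter Topology Set MeasureTheory Metric
open scoped Real

namespace Pool.Agent.W66

open Pool.Agent.H305R2 (ff NN roughPart SM SMz VV ZZ measurable_ff ff_nonneg ff_le_one LL)

/-- smallness conditions on `Y` -/
lemma ev_Y (cc C : ℝ) (hcc : 0 < cc) (hC : 0 < C) : ∀ᶠ Y : ℝ in atTop,
    √(Y + 2) ≤ cc * Y / Real.log Y ∧ 32 * cc + 1 ≤ Real.log Y ∧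
    Real.exp (-√Y) ≤ 1 / Y ^ 2 ∧ 32 * Real.exp (-(Y / 4)) ≤ 1 / Y ^ 2 ∧
    C * Real.exp (-(Y / 8)) ≤ 1 / Y ^ 2 ∧ 8 ≤ Y := by
  have h1 : ∀ᶠ Y : ℝ in atTop, Real.log Y ≤ cc / 2 * √Y := by
    have := isLittleO_log_rpow_atTop (r := (1 / 2 : ℝ)) (by norm_num)
    have h2 := this.bound (c := cc / 2) (by positivity)
    filter_upwards [h2, eventually_ge_atTop 1] with Y hY hY1
    rw [Real.norm_of_nonneg (Real.log_nonneg hY1), Real.norm_of_nonneg (by positivity),
      ← Real.sqrt_eq_rpow] at hY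
    exact hY
  have h3 : ∀ᶠ Y : ℝ in atTop, Y ^ 2 * Real.exp (-√Y) < 1 := by
    have h4 := (Real.tendsto_pow_mul_exp_neg_atTop_nhds_zero 4).comp Real.tendsto_sqrt_atTop
    have h5 := h4.eventually_lt_const (zero_lt_one)
    filter_upwards [h5, eventually_ge_atTop 0] with Y h6 h7
    have e : (√Y) ^ 4 = Y ^ 2 := by
      rw [show (4 : ℕ) = 2 * 2 by norm_num, pow_mul, Real.sq_sqrt h7]
    simp only [Function.comp] at h6
    rw [e] at h6
    exact h6
  have h4 : ∀ (D : ℝ) (k : ℝ), 0 < k → 0 < D → ∀ᶠ Y : ℝ in atTop,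
      D * (Y ^ 2 * Real.exp (-(Y / k))) < 1 := by
    intro D k hk hD
    have h0 : Tendsto (fun Z : ℝ => Z / k) atTop atTop := tendsto_id.atTop_div_const hk
    have h1 := (Real.tendsto_pow_mul_exp_neg_atTop_nhds_zero 2).comp h0
    have h2 : ∀ᶠ Z : ℝ in atTop, (Z / k) ^ 2 * Real.exp (-(Z / k)) < 1 / (D * k ^ 2) :=
      h1.eventually_lt_const (by positivity)
    filter_upwards [h2] with Z h3
    rw [div_pow, lt_div_iff₀ (by positivity)] at h3
    have : Z ^ 2 / k ^ 2 * Real.exp (-(Z / k)) * (D * k ^ 2) =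
      D * (Z ^ 2 * Real.exp (-(Z / k))) := by field_simp
    linarith
  filter_upwards [h1, h3, h4 32 4 (by norm_num) (by norm_num), h4 C 8 (by norm_num) hC,
    eventually_ge_atTop 8, Real.tendsto_log_atTop.eventually_ge_atTop (32 * cc + 1)]
    with Y a1 a2 a3 a4 a5 a6
  have hY0 : 0 < Y := by linarith
  have hlog : 0 < Real.log Y := by linarith
  refine ⟨?_, a6, ?_, ?_, ?_, a5⟩
  · rw [le_div_iff₀ hlog]
    have h5 : √(Y + 2) ≤ 2 * √Y := by
      rw [show (2 : ℝ) * √Y = √(4 * Y) by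
        rw [Real.sqrt_mul (by norm_num), show (4 : ℝ) = 2 ^ 2 by norm_num,
          Real.sqrt_sq (by norm_num)]]
      exact Real.sqrt_le_sqrt (by linarith)
    have h6 := Real.sqrt_nonneg Y
    have h7 := Real.mul_self_sqrt hY0.le
    calc √(Y + 2) * Real.log Y ≤ (2 * √Y) * (cc / 2 * √Y) := by gcongr
      _ = cc * (√Y * √Y) := by ring
      _ = _ := by rw [h7]
  · rw [le_div_iff₀ (by positivity)]
    linarith
  · rw [le_div_iff₀ (by positivity)]
    linarith
  · rw [le_div_iff₀ (by positivity)]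
    linarith

/-- the smoothing scale -/
noncomputable def hs (cc Y : ℝ) : ℝ := Real.exp (-(cc * Y / Real.log Y))

lemma hs_pos (cc Y : ℝ) : 0 < hs cc Y := Real.exp_pos _

theorem cv_L1 {c1 : ℝ} (hc1 : 0 < c1) : ∃ cc K : ℝ, 0 < cc ∧ 0 < K ∧ ∃ P : ℕ, ∀ q ≥ P,
    ∀ Y : ℝ, c1 * q ≤ Y → (hs cc Y ≤ 1 / Y ^ 2 ∧ 8 ≤ Y ∧ 32 * cc + 1 ≤ Real.log Y) ∧ ∃ μ : ℝ,
      ∀ Y' : ℝ, Y ≤ Y' → Y' ≤ Y + 1 →
      ∫ y in Y'..(Y' + 1), |cv q (hs cc Y) y - μ| ≤ K * (Real.log q / q ^ 2) := by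
  obtain ⟨c0, Z0, hc0, hZ0, hKT⟩ := KT 6
  obtain ⟨C, hC, hRA⟩ := RA_L1
  set cc := c0 / 4 with hcc
  have hcc0 : 0 < cc := by positivity
  obtain ⟨Y1, hY1⟩ := (ev_Y cc C hcc0 hC).exists_forall_of_atTop
  -- conditions on `q`
  have hVV : ∀ᶠ p : ℕ in atTop, VV p / Real.log p < Real.exp Real.eulerMascheroniConstant + 1 :=
    Pool.Agent.H305R2.VV_tendsto.eventually_lt_const (by linarith)
  have hZZ := Pool.Agent.H305R2.ZZ_le_exp (c := c1 / 8) (by positivity)
  have hlin : ∀ᶠ q : ℕ in atTop, max Y1 (2 * Z0) ≤ c1 * q :=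
    (tendsto_natCast_atTop_atTop.const_mul_atTop hc1).eventually_ge_atTop _
  have hlogq : ∀ᶠ q : ℕ in atTop, 1 ≤ Real.log q :=
    (Real.tendsto_log_atTop.comp tendsto_natCast_atTop_atTop).eventually_ge_atTop 1
  have hlogq2 : ∀ᶠ q : ℕ in atTop, Real.log q ≤ c1 / 2 * q - 1 := by
    have h1 := (isLittleO_log_rpow_atTop (r := (1 : ℝ)) (by norm_num)).bound (c := c1 / 4)
      (by positivity)
    have h2 : ∀ᶠ x : ℝ in atTop, Real.log x ≤ c1 / 2 * x - 1 := by
      filter_upwards [h1, eventually_ge_atTop 1, eventually_ge_atTop (4 / c1)] with x hx hx1 hx2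
      rw [Real.norm_of_nonneg (Real.log_nonneg hx1), Real.rpow_one,
        Real.norm_of_nonneg (by linarith)] at hx
      have : 1 ≤ c1 / 4 * x := by
        rw [div_le_iff₀ hc1] at hx2
        linarith
      linarith
    exact tendsto_natCast_atTop_atTop.eventually h2
  have hexpq : ∀ᶠ q : ℕ in atTop, 10 * Real.exp (-(c1 / 8 * q)) ≤ 1 / (q : ℝ) ^ 2 := by
    have h0 : Tendsto (fun Z : ℝ => c1 / 8 * Z) atTop atTop :=
      tendsto_id.const_mul_atTop (by positivity)
    have h1 := (Real.tendsto_pow_mul_exp_neg_atTop_nhds_zero 2).comp h0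
    have h2 : ∀ᶠ Z : ℝ in atTop, (c1 / 8 * Z) ^ 2 * Real.exp (-(c1 / 8 * Z)) <
        (c1 / 8) ^ 2 / 10 := h1.eventually_lt_const (by positivity)
    have h3 : ∀ᶠ Z : ℝ in atTop, 10 * Real.exp (-(c1 / 8 * Z)) ≤ 1 / Z ^ 2 := by
      filter_upwards [h2, eventually_gt_atTop 0] with Z h3 h4
      rw [le_div_iff₀ (by positivity)]
      rw [mul_pow, lt_div_iff₀ (by norm_num)] at h3
      have h5 : (c1 / 8) ^ 2 * (10 * Real.exp (-(c1 / 8 * Z)) * Z ^ 2) < (c1 / 8) ^ 2 * 1 := by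
        linarith
      exact (lt_of_mul_lt_mul_left h5 (by positivity)).le
    exact tendsto_natCast_atTop_atTop.eventually h3
  set G1 := Real.exp Real.eulerMascheroniConstant + 1 with hG1
  have hG10 : 0 < G1 := by positivity
  obtain ⟨P, hP⟩ := (hVV.and (hZZ.and (hlin.and (hlogq.and (hlogq2.and (hexpq.and
    (eventually_ge_atTop 1))))))).exists_forall_of_atTop
  refine ⟨cc, (1 + 20 * G1) / c1 ^ 2 + 1, hcc0, by positivity, P, fun q hq Y hYq => ?_⟩
  obtain ⟨b1, b2, b3, b4, b5, b6, b7⟩ := hP q hq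
  obtain ⟨a1, a2, a3, a4, a5, a6⟩ := hY1 Y (((le_max_left _ _).trans b3).trans hYq)
  have hY0 : 0 < Y := by linarith
  have hq0 : (0 : ℝ) < q := by exact_mod_cast b7
  have hlogY : 0 < Real.log Y := by linarith
  have hZ0Y : 2 * Z0 ≤ Y := ((le_max_right _ _).trans b3).trans hYq
  set lam := cc * Y / Real.log Y with hlam
  set h := hs cc Y with hh
  have hhe : h = Real.exp (-lam) := rfl
  have hh0 : 0 < h := hs_pos _ _
  have hlam1 : √(Y + 2) ≤ lam := a1
  have hlam1' : √Y ≤ lam := le_trans (Real.sqrt_le_sqrt (by linarith)) hlam1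
  have hlam0 : 0 ≤ lam := (Real.sqrt_nonneg _).trans hlam1
  have hlam32 : lam ≤ Y / 32 := by
    rw [hlam, div_le_iff₀ hlogY]
    calc cc * Y = Y / 32 * (32 * cc) := by ring
      _ ≤ Y / 32 * Real.log Y := by gcongr; linarith
  have hhY : h ≤ 1 / Y ^ 2 := by
    rw [hhe]
    exact (Real.exp_le_exp.2 (by linarith)).trans a3
  have hh1 : h ≤ 1 := by rw [hhe]; exact Real.exp_le_one_iff.2 (by linarith)
  refine ⟨⟨hhY, a6, a2⟩, mt q (Real.exp (Y / 2)) Y, fun Y' hY'1 hY'2 => ?_⟩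
  set S := Real.exp (Y / 2) with hS
  have hlS : Real.log S = Y / 2 := Real.log_exp _
  have hS1 : 1 ≤ S := Real.one_le_exp (by linarith)
  set N := ⌈Real.exp (Y' + 3)⌉₊ with hN
  have hN1 : Real.exp (Y' + 3) ≤ N := Nat.le_ceil _
  have hSN : S ≤ N := le_trans (Real.exp_le_exp.2 (by linarith)) hN1
  have hVVq : VV q ≤ G1 * Real.log q := by
    rw [div_lt_iff₀ (by linarith)] at b1
    exact b1.le
  have hVV0 : 0 ≤ VV q := Pool.Agent.H305R2.VV_nonneg q
  -- the mean square bound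
  have hTT : ∀ Z : ℝ, Y' - Real.log S ≤ Z → Z ≤ Y' → ∀ N' : ℕ, Real.exp (Z + 2) ≤ N' →
      ∫ z in Z..(Z + 1), (TT h N' z - 1) ^ 2 ≤ (8 / Y ^ 3) ^ 2 := by
    intro Z hZ1 hZ2 N' hN'
    rw [hlS] at hZ1
    have hZY : Y / 2 ≤ Z := by linarith
    have hZpos : 0 < Z := by linarith
    have h1 := hKT Z lam h (by linarith) hhe
      (le_trans (Real.sqrt_le_sqrt (by linarith)) hlam1) (by
        have h2 : Real.log Z ≤ 2 * Real.log Y := by
          rw [← Real.log_rpow hY0]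
          apply Real.log_le_log hZpos
          norm_num
          nlinarith
        calc lam * Real.log Z ≤ lam * (2 * Real.log Y) := by gcongr
          _ = c0 / 2 * Y := by rw [hlam, hcc]; field_simp; ring
          _ ≤ c0 * Z := by nlinarith) N' hN'
    refine h1.trans ?_
    have e : (8 / Y ^ 3) ^ 2 = 1 / (Y / 2) ^ 6 := by field_simp; norm_num
    rw [e]
    apply one_div_le_one_div_of_le (by positivity)
    exact pow_le_pow_left₀ (by linarith) hZY 6
  have hA := hRA q h S Y' N hh0 hh1 hS1 (by rw [hlS]; linarith) hN1 (8 / Y ^ 3) (by positivity) hTT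
  have hB := RB_L1 q hh0 hh1 (S := S) (by linarith) N Y'
  have hvar : ∀ y, Y' ≤ y → y ≤ Y' + 1 → |mt q S y - mt q S Y| ≤
      VV q * (2 / (Y - Real.log S) ^ 2) := fun y h1 h2 =>
    mt_var q hS1 (by rw [hlS]; linarith) (by linarith) (by linarith)
  have hcvRS : ∀ y, Y' ≤ y → y ≤ Y' + 1 → |cv q h y - RS q h N y| ≤
      32 * Real.exp (-Y) / h ^ 2 := by
    intro y h1 h2
    refine (cv_approx q hh0 hh1 (by linarith) N (le_trans (Real.exp_le_exp.2 (by linarith))
      hN1)).trans ?_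
    have : Real.exp (-y) ≤ Real.exp (-Y) := Real.exp_le_exp.2 (by linarith)
    gcongr
  -- integrate
  have hmtc : ContinuousOn (fun y => |RA q h S N y - mt q S y|) (Set.uIcc Y' (Y' + 1)) := by
    apply ContinuousOn.abs
    apply (RA_continuous q h S N).continuousOn.sub
    unfold mt
    apply continuousOn_finsetSum
    intro s hs
    have hs1 := (Pool.Agent.H305R2.mem_SMz (by linarith)).1 hs
    have hs0 : (0 : ℝ) < s := by exact_mod_cast Pool.Agent.H305R2.SM_pos hs1.1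
    have h2 : Real.log s ≤ Real.log S := Real.log_le_log hs0 hs1.2
    rw [hlS] at h2
    apply ContinuousOn.div continuousOn_const (by fun_prop)
    intro y hy
    rw [Set.uIcc_of_le (by linarith)] at hy
    have : 0 < y - Real.log s := by linarith [hy.1]
    positivity
  have hint : ∫ y in Y'..(Y' + 1), |cv q h y - mt q S Y| ≤ ∫ y in Y'..(Y' + 1),
      ((32 * Real.exp (-Y) / h ^ 2 + VV q * (2 / (Y - Real.log S) ^ 2)) +
        (|RA q h S N y - mt q S y| + RB q h S N y)) := by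
    apply intervalIntegral.integral_mono_on (by linarith)
    · exact ((cv_continuous q hh0).sub continuous_const).abs.intervalIntegrable _ _
    · apply ContinuousOn.intervalIntegrable
      exact continuousOn_const.add (hmtc.add (RB_continuous q h S N).continuousOn)
    · intro y hy
      have h1 := hcvRS y hy.1 hy.2
      have h2 := hvar y hy.1 hy.2
      rw [RS_split q hh0 hh1 N hS1 hSN (by rw [hlS]; linarith [hy.1])] at h1
      have h3 : cv q h y - mt q S Y = (cv q h y - (RA q h S N y + RB q h S N y)) +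
        (RA q h S N y - mt q S y) + RB q h S N y + (mt q S y - mt q S Y) := by ring
      have h4 := RB_nonneg q hh0 S N y
      rw [h3]
      refine (abs_add_le _ _).trans ?_
      have h5 := abs_add_le ((cv q h y - (RA q h S N y + RB q h S N y)) +
        (RA q h S N y - mt q S y)) (RB q h S N y)
      have h6 := abs_add_le (cv q h y - (RA q h S N y + RB q h S N y)) (RA q h S N y - mt q S y)
      rw [abs_of_nonneg h4] at h5
      linarith
  refine hint.trans ?_
  rw [intervalIntegral.integral_add intervalIntegrable_const (by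
      apply ContinuousOn.intervalIntegrable
      exact hmtc.add (RB_continuous q h S N).continuousOn),
    intervalIntegral.integral_add hmtc.intervalIntegrable
      ((RB_continuous q h S N).intervalIntegrable _ _), intervalIntegral.integral_const, smul_eq_mul]
  -- numerical bounds
  have n1 : 32 * Real.exp (-Y) / h ^ 2 ≤ 1 / Y ^ 2 := by
    refine le_trans ?_ a4
    rw [hhe, ← Real.exp_nat_mul, mul_div_assoc, ← Real.exp_sub]
    apply mul_le_mul_of_nonneg_left _ (by norm_num)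
    apply Real.exp_le_exp.2
    push_cast
    linarith
  have n2 : 2 / (Y - Real.log S) ^ 2 = 8 / Y ^ 2 := by
    rw [hlS]
    field_simp
    norm_num
  have n3 : h * (1 + 32 * Real.exp (-(Y' - Real.log S)) / h ^ 2) +
      C / h * Real.exp (-((Y' - Real.log S) / 2)) + 8 / Y ^ 3 ≤ 4 / Y ^ 2 := by
    rw [hlS]
    have e1 : h * (1 + 32 * Real.exp (-(Y' - Y / 2)) / h ^ 2) =
        h + 32 * (Real.exp (-(Y' - Y / 2)) / h) := by field_simp
    rw [e1]
    have m1 : 32 * (Real.exp (-(Y' - Y / 2)) / h) ≤ 1 / Y ^ 2 := by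
      refine le_trans ?_ a4
      rw [hhe, ← Real.exp_sub]
      apply mul_le_mul_of_nonneg_left _ (by norm_num)
      apply Real.exp_le_exp.2
      linarith
    have m2 : C / h * Real.exp (-((Y' - Y / 2) / 2)) ≤ 1 / Y ^ 2 := by
      refine le_trans ?_ a5
      have : C / h * Real.exp (-((Y' - Y / 2) / 2)) = C * (Real.exp (-((Y' - Y / 2) / 2)) / h) := by
        ring
      rw [this, hhe, ← Real.exp_sub]
      apply mul_le_mul_of_nonneg_left _ hC.le
      apply Real.exp_le_exp.2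
      linarith
    have m3 : 8 / Y ^ 3 ≤ 1 / Y ^ 2 := by
      rw [div_le_div_iff₀ (by positivity) (by positivity), one_mul, pow_succ Y 2, mul_comm]
      exact mul_le_mul_of_nonneg_left a6 (by positivity)
    have e2 : 4 / Y ^ 2 = 1 / Y ^ 2 + 1 / Y ^ 2 + 1 / Y ^ 2 + 1 / Y ^ 2 := by ring
    rw [e2]
    linarith
  have n4 : 10 * (S ^ (-(1 / 2) : ℝ) * ZZ q) ≤ 1 / (q : ℝ) ^ 2 := by
    refine le_trans ?_ b6
    apply mul_le_mul_of_nonneg_left _ (by norm_num)
    have e : S ^ (-(1 / 2) : ℝ) = Real.exp (-(Y / 4)) := by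
      rw [hS, ← Real.exp_mul]
      congr 1
      ring
    rw [e]
    calc Real.exp (-(Y / 4)) * ZZ q ≤ Real.exp (-(Y / 4)) * Real.exp (c1 / 8 * q) := by gcongr
      _ = Real.exp (-(Y / 4) + c1 / 8 * q) := by rw [Real.exp_add]
      _ ≤ _ := Real.exp_le_exp.2 (by linarith)
  rw [n2]
  have hYinv : 1 / Y ^ 2 ≤ 1 / c1 ^ 2 * (1 / (q : ℝ) ^ 2) := by
    have e : 1 / c1 ^ 2 * (1 / (q : ℝ) ^ 2) = 1 / (c1 * q) ^ 2 := by
      rw [mul_pow]
      field_simp
    rw [e]
    apply one_div_le_one_div_of_le (by positivity)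
    exact pow_le_pow_left₀ (by positivity) hYq 2
  have hfin1 : 1 / Y ^ 2 + VV q * (8 / Y ^ 2) + VV q * (4 / Y ^ 2) ≤
      (1 + 20 * G1) / c1 ^ 2 * (Real.log q / q ^ 2) := by
    have h1 : 1 / Y ^ 2 + VV q * (8 / Y ^ 2) + VV q * (4 / Y ^ 2) =
        (1 + 12 * VV q) * (1 / Y ^ 2) := by ring
    rw [h1]
    have h2 : 1 + 12 * VV q ≤ (1 + 20 * G1) * Real.log q := by nlinarith
    calc (1 + 12 * VV q) * (1 / Y ^ 2) ≤
          ((1 + 20 * G1) * Real.log q) * (1 / c1 ^ 2 * (1 / (q : ℝ) ^ 2)) := by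
          apply mul_le_mul h2 hYinv (by positivity)
          have : 0 ≤ Real.log q := by linarith
          positivity
      _ = _ := by ring
  have hfin2 : 1 / (q : ℝ) ^ 2 ≤ Real.log q / q ^ 2 := by gcongr
  have hA2 : ∫ y in Y'..(Y' + 1), |RA q h S N y - mt q S y| ≤ VV q * (4 / Y ^ 2) :=
    hA.trans (mul_le_mul_of_nonneg_left n3 hVV0)
  have e3 : (Y' + 1 - Y') * (32 * Real.exp (-Y) / h ^ 2 + VV q * (8 / Y ^ 2)) =
      32 * Real.exp (-Y) / h ^ 2 + VV q * (8 / Y ^ 2) := by ring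
  rw [e3]
  have e4 : ((1 + 20 * G1) / c1 ^ 2 + 1) * (Real.log q / q ^ 2) =
      (1 + 20 * G1) / c1 ^ 2 * (Real.log q / q ^ 2) + Real.log q / q ^ 2 := by ring
  rw [e4]
  linarith

end Pool.Agent.W66
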